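import Pool.Agent.Lib.MP_9d820d_co.FMain
import Pool.Agent.Lib.MP_9d820d_co.G.AC9
import Pool.Agent.Lib.MP_9d820d_co.G.AC10
import Pool.Agent.Lib.MP_9d820d_co.G.AC11
import Pool.Agent.Lib.MP_9d820d_co.G.AC12
import Pool.Agent.Lib.MP_9d820d_co.G.AC13
import Pool.Agent.Lib.MP_9d820d_co.G.AC14

set_option autoImplicit false

namespace Pool.Agent.Lib.MP_9d820d_co.Fast.A

noncomputable section

variable {P : Prm}

theorem G_912 (hP : P.ok) (hl : ¬ InB P loc) : FGood P h912 :=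
  frun_good hP hl T_912 f0
theorem G_911 (hP : P.ok) (hl : ¬ InB P loc) : FGood P h911 :=
  frun_good hP hl T_911 f0
theorem G_910 (hP : P.ok) (hl : ¬ InB P loc) : FGood P h910 :=
  frun_good hP hl T_910 f0
theorem G_909 (hP : P.ok) (hl : ¬ InB P loc) : FGood P h909 :=
  frun_good hP hl T_909 f0
theorem G_908 (hP : P.ok) (hl : ¬ InB P loc) : FGood P h908 :=
  frun_good hP hl T_908 (fc (G_912 hP hl) f0)
theorem G_907 (hP : P.ok) (hl : ¬ InB P loc) : FGood P h907 :=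
  frun_good hP hl T_907 (fc (G_911 hP hl) f0)
theorem G_906 (hP : P.ok) (hl : ¬ InB P loc) : FGood P h906 :=
  frun_good hP hl T_906 (fc (G_910 hP hl) f0)
theorem G_905 (hP : P.ok) (hl : ¬ InB P loc) : FGood P h905 :=
  frun_good hP hl T_905 (fc (G_906 hP hl) (fc (G_907 hP hl) (fc (G_908 hP hl) (fc (G_909 hP hl) f0))))
theorem G_904 (hP : P.ok) (hl : ¬ InB P loc) : FGood P h904 :=
  frun_good hP hl T_904 f0
theorem G_903 (hP : P.ok) (hl : ¬ InB P loc) : FGood P h903 :=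
  frun_good hP hl T_903 (fc (G_904 hP hl) f0)
theorem G_902 (hP : P.ok) (hl : ¬ InB P loc) : FGood P h902 :=
  frun_good hP hl T_902 f0
theorem G_901 (hP : P.ok) (hl : ¬ InB P loc) : FGood P h901 :=
  frun_good hP hl T_901 (fc (G_902 hP hl) (fc (G_903 hP hl) f0))
theorem G_900 (hP : P.ok) (hl : ¬ InB P loc) : FGood P h900 :=
  frun_good hP hl T_900 f0
theorem G_899 (hP : P.ok) (hl : ¬ InB P loc) : FGood P h899 :=
  frun_good hP hl T_899 f0
theorem G_898 (hP : P.ok) (hl : ¬ InB P loc) : FGood P h898 :=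
  frun_good hP hl T_898 (fc (G_899 hP hl) (fc (G_900 hP hl) (fc (G_901 hP hl) f0)))
theorem G_897 (hP : P.ok) (hl : ¬ InB P loc) : FGood P h897 :=
  frun_good hP hl T_897 (fc (G_898 hP hl) f0)
theorem G_896 (hP : P.ok) (hl : ¬ InB P loc) : FGood P h896 :=
  frun_good hP hl T_896 f0
theorem G_895 (hP : P.ok) (hl : ¬ InB P loc) : FGood P h895 :=
  frun_good hP hl T_895 f0
theorem G_894 (hP : P.ok) (hl : ¬ InB P loc) : FGood P h894 :=
  frun_good hP hl T_894 f0
theorem G_893 (hP : P.ok) (hl : ¬ InB P loc) : FGood P h893 :=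
  frun_good hP hl T_893 f0
theorem G_892 (hP : P.ok) (hl : ¬ InB P loc) : FGood P h892 :=
  frun_good hP hl T_892 f0
theorem G_891 (hP : P.ok) (hl : ¬ InB P loc) : FGood P h891 :=
  frun_good hP hl T_891 f0
theorem G_890 (hP : P.ok) (hl : ¬ InB P loc) : FGood P h890 :=
  frun_good hP hl T_890 f0
theorem G_889 (hP : P.ok) (hl : ¬ InB P loc) : FGood P h889 :=
  frun_good hP hl T_889 f0
theorem G_888 (hP : P.ok) (hl : ¬ InB P loc) : FGood P h888 :=
  frun_good hP hl T_888 f0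
theorem G_887 (hP : P.ok) (hl : ¬ InB P loc) : FGood P h887 :=
  frun_good hP hl T_887 f0
theorem G_886 (hP : P.ok) (hl : ¬ InB P loc) : FGood P h886 :=
  frun_good hP hl T_886 f0
theorem G_885 (hP : P.ok) (hl : ¬ InB P loc) : FGood P h885 :=
  frun_good hP hl T_885 f0
theorem G_884 (hP : P.ok) (hl : ¬ InB P loc) : FGood P h884 :=
  frun_good hP hl T_884 f0
theorem G_883 (hP : P.ok) (hl : ¬ InB P loc) : FGood P h883 :=
  frun_good hP hl T_883 f0
theorem G_882 (hP : P.ok) (hl : ¬ InB P loc) : FGood P h882 :=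
  frun_good hP hl T_882 (fc (G_887 hP hl) f0)
theorem G_881 (hP : P.ok) (hl : ¬ InB P loc) : FGood P h881 :=
  frun_good hP hl T_881 f0
theorem G_880 (hP : P.ok) (hl : ¬ InB P loc) : FGood P h880 :=
  frun_good hP hl T_880 f0
theorem G_879 (hP : P.ok) (hl : ¬ InB P loc) : FGood P h879 :=
  frun_good hP hl T_879 f0
theorem G_878 (hP : P.ok) (hl : ¬ InB P loc) : FGood P h878 :=
  frun_good hP hl T_878 f0
theorem G_877 (hP : P.ok) (hl : ¬ InB P loc) : FGood P h877 :=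
  frun_good hP hl T_877 (fc (G_878 hP hl) (fc (G_879 hP hl) (fc (G_880 hP hl) (fc (G_881 hP hl) (fc (G_882 hP hl) (fc (G_883 hP hl) (fc (G_884 hP hl) (fc (G_885 hP hl) (fc (G_886 hP hl) f0)))))))))
theorem G_876 (hP : P.ok) (hl : ¬ InB P loc) : FGood P h876 :=
  frun_good hP hl T_876 f0
theorem G_875 (hP : P.ok) (hl : ¬ InB P loc) : FGood P h875 :=
  frun_good hP hl T_875 f0
theorem G_874 (hP : P.ok) (hl : ¬ InB P loc) : FGood P h874 :=
  frun_good hP hl T_874 f0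
theorem G_873 (hP : P.ok) (hl : ¬ InB P loc) : FGood P h873 :=
  frun_good hP hl T_873 f0
theorem G_872 (hP : P.ok) (hl : ¬ InB P loc) : FGood P h872 :=
  frun_good hP hl T_872 f0
theorem G_871 (hP : P.ok) (hl : ¬ InB P loc) : FGood P h871 :=
  frun_good hP hl T_871 (fc (G_875 hP hl) (fc (G_876 hP hl) f0))
theorem G_870 (hP : P.ok) (hl : ¬ InB P loc) : FGood P h870 :=
  frun_good hP hl T_870 (fc (G_873 hP hl) (fc (G_874 hP hl) f0))
theorem G_869 (hP : P.ok) (hl : ¬ InB P loc) : FGood P h869 :=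
  frun_good hP hl T_869 f0
theorem G_868 (hP : P.ok) (hl : ¬ InB P loc) : FGood P h868 :=
  frun_good hP hl T_868 (fc (G_869 hP hl) (fc (G_870 hP hl) (fc (G_871 hP hl) (fc (G_872 hP hl) f0))))
theorem G_867 (hP : P.ok) (hl : ¬ InB P loc) : FGood P h867 :=
  frun_good hP hl T_867 f0
theorem G_866 (hP : P.ok) (hl : ¬ InB P loc) : FGood P h866 :=
  frun_good hP hl T_866 f0
theorem G_865 (hP : P.ok) (hl : ¬ InB P loc) : FGood P h865 :=
  frun_good hP hl T_865 f0
theorem G_864 (hP : P.ok) (hl : ¬ InB P loc) : FGood P h864 :=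
  frun_good hP hl T_864 f0
theorem G_863 (hP : P.ok) (hl : ¬ InB P loc) : FGood P h863 :=
  frun_good hP hl T_863 f0
theorem G_862 (hP : P.ok) (hl : ¬ InB P loc) : FGood P h862 :=
  frun_good hP hl T_862 f0
theorem G_861 (hP : P.ok) (hl : ¬ InB P loc) : FGood P h861 :=
  frun_good hP hl T_861 f0
theorem G_860 (hP : P.ok) (hl : ¬ InB P loc) : FGood P h860 :=
  frun_good hP hl T_860 f0
theorem G_859 (hP : P.ok) (hl : ¬ InB P loc) : FGood P h859 :=
  frun_good hP hl T_859 f0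
theorem G_858 (hP : P.ok) (hl : ¬ InB P loc) : FGood P h858 :=
  frun_good hP hl T_858 f0
theorem G_857 (hP : P.ok) (hl : ¬ InB P loc) : FGood P h857 :=
  frun_good hP hl T_857 f0
theorem G_856 (hP : P.ok) (hl : ¬ InB P loc) : FGood P h856 :=
  frun_good hP hl T_856 f0
theorem G_855 (hP : P.ok) (hl : ¬ InB P loc) : FGood P h855 :=
  frun_good hP hl T_855 f0
theorem G_854 (hP : P.ok) (hl : ¬ InB P loc) : FGood P h854 :=
  frun_good hP hl T_854 f0
theorem G_853 (hP : P.ok) (hl : ¬ InB P loc) : FGood P h853 :=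
  frun_good hP hl T_853 f0
theorem G_852 (hP : P.ok) (hl : ¬ InB P loc) : FGood P h852 :=
  frun_good hP hl T_852 f0
theorem G_851 (hP : P.ok) (hl : ¬ InB P loc) : FGood P h851 :=
  frun_good hP hl T_851 f0
theorem G_850 (hP : P.ok) (hl : ¬ InB P loc) : FGood P h850 :=
  frun_good hP hl T_850 f0
theorem G_849 (hP : P.ok) (hl : ¬ InB P loc) : FGood P h849 :=
  frun_good hP hl T_849 f0
theorem G_848 (hP : P.ok) (hl : ¬ InB P loc) : FGood P h848 :=
  frun_good hP hl T_848 f0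
theorem G_847 (hP : P.ok) (hl : ¬ InB P loc) : FGood P h847 :=
  frun_good hP hl T_847 (fc (G_848 hP hl) (fc (G_849 hP hl) f0))
theorem G_846 (hP : P.ok) (hl : ¬ InB P loc) : FGood P h846 :=
  frun_good hP hl T_846 f0
theorem G_845 (hP : P.ok) (hl : ¬ InB P loc) : FGood P h845 :=
  frun_good hP hl T_845 f0
theorem G_844 (hP : P.ok) (hl : ¬ InB P loc) : FGood P h844 :=
  frun_good hP hl T_844 f0
theorem G_843 (hP : P.ok) (hl : ¬ InB P loc) : FGood P h843 :=
  frun_good hP hl T_843 (fc (G_847 hP hl) f0)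
theorem G_842 (hP : P.ok) (hl : ¬ InB P loc) : FGood P h842 :=
  frun_good hP hl T_842 (fc (G_846 hP hl) f0)
theorem G_841 (hP : P.ok) (hl : ¬ InB P loc) : FGood P h841 :=
  frun_good hP hl T_841 (fc (G_842 hP hl) (fc (G_843 hP hl) (fc (G_844 hP hl) (fc (G_845 hP hl) f0))))
theorem G_840 (hP : P.ok) (hl : ¬ InB P loc) : FGood P h840 :=
  frun_good hP hl T_840 f0
theorem G_839 (hP : P.ok) (hl : ¬ InB P loc) : FGood P h839 :=
  frun_good hP hl T_839 (fc (G_840 hP hl) f0)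
theorem G_838 (hP : P.ok) (hl : ¬ InB P loc) : FGood P h838 :=
  frun_good hP hl T_838 f0
theorem G_837 (hP : P.ok) (hl : ¬ InB P loc) : FGood P h837 :=
  frun_good hP hl T_837 (fc (G_838 hP hl) f0)
theorem G_836 (hP : P.ok) (hl : ¬ InB P loc) : FGood P h836 :=
  frun_good hP hl T_836 f0
theorem G_835 (hP : P.ok) (hl : ¬ InB P loc) : FGood P h835 :=
  frun_good hP hl T_835 (fc (G_836 hP hl) (fc (G_837 hP hl) f0))
theorem G_834 (hP : P.ok) (hl : ¬ InB P loc) : FGood P h834 :=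
  frun_good hP hl T_834 f0
theorem G_833 (hP : P.ok) (hl : ¬ InB P loc) : FGood P h833 :=
  frun_good hP hl T_833 (fc (G_834 hP hl) f0)
theorem G_832 (hP : P.ok) (hl : ¬ InB P loc) : FGood P h832 :=
  frun_good hP hl T_832 f0
theorem G_831 (hP : P.ok) (hl : ¬ InB P loc) : FGood P h831 :=
  frun_good hP hl T_831 (fc (G_833 hP hl) f0)
theorem G_830 (hP : P.ok) (hl : ¬ InB P loc) : FGood P h830 :=
  frun_good hP hl T_830 (fc (G_832 hP hl) f0)
theorem G_829 (hP : P.ok) (hl : ¬ InB P loc) : FGood P h829 :=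
  frun_good hP hl T_829 f0
theorem G_828 (hP : P.ok) (hl : ¬ InB P loc) : FGood P h828 :=
  frun_good hP hl T_828 (fc (G_829 hP hl) (fc (G_830 hP hl) (fc (G_831 hP hl) f0)))
theorem G_827 (hP : P.ok) (hl : ¬ InB P loc) : FGood P h827 :=
  frun_good hP hl T_827 f0
theorem G_826 (hP : P.ok) (hl : ¬ InB P loc) : FGood P h826 :=
  frun_good hP hl T_826 f0
theorem G_825 (hP : P.ok) (hl : ¬ InB P loc) : FGood P h825 :=
  frun_good hP hl T_825 f0
theorem G_824 (hP : P.ok) (hl : ¬ InB P loc) : FGood P h824 :=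
  frun_good hP hl T_824 (fc (G_825 hP hl) (fc (G_826 hP hl) f0))
theorem G_823 (hP : P.ok) (hl : ¬ InB P loc) : FGood P h823 :=
  frun_good hP hl T_823 f0
theorem G_822 (hP : P.ok) (hl : ¬ InB P loc) : FGood P h822 :=
  frun_good hP hl T_822 f0
theorem G_821 (hP : P.ok) (hl : ¬ InB P loc) : FGood P h821 :=
  frun_good hP hl T_821 (fc (G_823 hP hl) f0)
theorem G_820 (hP : P.ok) (hl : ¬ InB P loc) : FGood P h820 :=
  frun_good hP hl T_820 (fc (G_822 hP hl) f0)
theorem G_819 (hP : P.ok) (hl : ¬ InB P loc) : FGood P h819 :=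
  frun_good hP hl T_819 (fc (G_820 hP hl) (fc (G_821 hP hl) f0))
theorem G_818 (hP : P.ok) (hl : ¬ InB P loc) : FGood P h818 :=
  frun_good hP hl T_818 f0
theorem G_817 (hP : P.ok) (hl : ¬ InB P loc) : FGood P h817 :=
  frun_good hP hl T_817 f0
theorem G_816 (hP : P.ok) (hl : ¬ InB P loc) : FGood P h816 :=
  frun_good hP hl T_816 (fc (G_817 hP hl) (fc (G_818 hP hl) f0))
theorem G_815 (hP : P.ok) (hl : ¬ InB P loc) : FGood P h815 :=
  frun_good hP hl T_815 f0
theorem G_814 (hP : P.ok) (hl : ¬ InB P loc) : FGood P h814 :=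
  frun_good hP hl T_814 f0
theorem G_813 (hP : P.ok) (hl : ¬ InB P loc) : FGood P h813 :=
  frun_good hP hl T_813 f0
theorem G_812 (hP : P.ok) (hl : ¬ InB P loc) : FGood P h812 :=
  frun_good hP hl T_812 f0
theorem G_811 (hP : P.ok) (hl : ¬ InB P loc) : FGood P h811 :=
  frun_good hP hl T_811 (fc (G_812 hP hl) f0)
theorem G_810 (hP : P.ok) (hl : ¬ InB P loc) : FGood P h810 :=
  frun_good hP hl T_810 f0
theorem G_809 (hP : P.ok) (hl : ¬ InB P loc) : FGood P h809 :=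
  frun_good hP hl T_809 f0
theorem G_808 (hP : P.ok) (hl : ¬ InB P loc) : FGood P h808 :=
  frun_good hP hl T_808 (fc (G_809 hP hl) f0)
theorem G_807 (hP : P.ok) (hl : ¬ InB P loc) : FGood P h807 :=
  frun_good hP hl T_807 f0
theorem G_806 (hP : P.ok) (hl : ¬ InB P loc) : FGood P h806 :=
  frun_good hP hl T_806 (fc (G_808 hP hl) f0)
theorem G_805 (hP : P.ok) (hl : ¬ InB P loc) : FGood P h805 :=
  frun_good hP hl T_805 f0
theorem G_804 (hP : P.ok) (hl : ¬ InB P loc) : FGood P h804 :=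
  frun_good hP hl T_804 f0
theorem G_803 (hP : P.ok) (hl : ¬ InB P loc) : FGood P h803 :=
  frun_good hP hl T_803 (fc (G_807 hP hl) f0)
theorem G_802 (hP : P.ok) (hl : ¬ InB P loc) : FGood P h802 :=
  frun_good hP hl T_802 (fc (G_803 hP hl) (fc (G_804 hP hl) (fc (G_805 hP hl) (fc (G_806 hP hl) f0))))
theorem G_801 (hP : P.ok) (hl : ¬ InB P loc) : FGood P h801 :=
  frun_good hP hl T_801 f0
theorem G_800 (hP : P.ok) (hl : ¬ InB P loc) : FGood P h800 :=
  frun_good hP hl T_800 f0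
theorem G_799 (hP : P.ok) (hl : ¬ InB P loc) : FGood P h799 :=
  frun_good hP hl T_799 f0
theorem G_798 (hP : P.ok) (hl : ¬ InB P loc) : FGood P h798 :=
  frun_good hP hl T_798 f0
theorem G_797 (hP : P.ok) (hl : ¬ InB P loc) : FGood P h797 :=
  frun_good hP hl T_797 (fc (G_798 hP hl) f0)
theorem G_796 (hP : P.ok) (hl : ¬ InB P loc) : FGood P h796 :=
  frun_good hP hl T_796 f0
theorem G_795 (hP : P.ok) (hl : ¬ InB P loc) : FGood P h795 :=
  frun_good hP hl T_795 f0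
theorem G_794 (hP : P.ok) (hl : ¬ InB P loc) : FGood P h794 :=
  frun_good hP hl T_794 (fc (G_796 hP hl) (fc (G_797 hP hl) f0))
theorem G_793 (hP : P.ok) (hl : ¬ InB P loc) : FGood P h793 :=
  frun_good hP hl T_793 (fc (G_795 hP hl) f0)
theorem G_792 (hP : P.ok) (hl : ¬ InB P loc) : FGood P h792 :=
  frun_good hP hl T_792 f0
theorem G_791 (hP : P.ok) (hl : ¬ InB P loc) : FGood P h791 :=
  frun_good hP hl T_791 (fc (G_792 hP hl) (fc (G_793 hP hl) (fc (G_794 hP hl) f0)))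
theorem G_790 (hP : P.ok) (hl : ¬ InB P loc) : FGood P h790 :=
  frun_good hP hl T_790 f0
theorem G_789 (hP : P.ok) (hl : ¬ InB P loc) : FGood P h789 :=
  frun_good hP hl T_789 (fc (G_790 hP hl) f0)
theorem G_788 (hP : P.ok) (hl : ¬ InB P loc) : FGood P h788 :=
  frun_good hP hl T_788 f0
theorem G_787 (hP : P.ok) (hl : ¬ InB P loc) : FGood P h787 :=
  frun_good hP hl T_787 (fc (G_788 hP hl) (fc (G_789 hP hl) f0))
theorem G_786 (hP : P.ok) (hl : ¬ InB P loc) : FGood P h786 :=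
  frun_good hP hl T_786 f0
theorem G_785 (hP : P.ok) (hl : ¬ InB P loc) : FGood P h785 :=
  frun_good hP hl T_785 f0
theorem G_784 (hP : P.ok) (hl : ¬ InB P loc) : FGood P h784 :=
  frun_good hP hl T_784 f0
theorem G_783 (hP : P.ok) (hl : ¬ InB P loc) : FGood P h783 :=
  frun_good hP hl T_783 f0
theorem G_782 (hP : P.ok) (hl : ¬ InB P loc) : FGood P h782 :=
  frun_good hP hl T_782 (fc (G_783 hP hl) f0)
theorem G_781 (hP : P.ok) (hl : ¬ InB P loc) : FGood P h781 :=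
  frun_good hP hl T_781 f0
theorem G_780 (hP : P.ok) (hl : ¬ InB P loc) : FGood P h780 :=
  frun_good hP hl T_780 f0
theorem G_779 (hP : P.ok) (hl : ¬ InB P loc) : FGood P h779 :=
  frun_good hP hl T_779 f0
theorem G_778 (hP : P.ok) (hl : ¬ InB P loc) : FGood P h778 :=
  frun_good hP hl T_778 f0
theorem G_777 (hP : P.ok) (hl : ¬ InB P loc) : FGood P h777 :=
  frun_good hP hl T_777 (fc (G_780 hP hl) f0)
theorem G_776 (hP : P.ok) (hl : ¬ InB P loc) : FGood P h776 :=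
  frun_good hP hl T_776 (fc (G_779 hP hl) f0)
theorem G_775 (hP : P.ok) (hl : ¬ InB P loc) : FGood P h775 :=
  frun_good hP hl T_775 f0
theorem G_774 (hP : P.ok) (hl : ¬ InB P loc) : FGood P h774 :=
  frun_good hP hl T_774 (fc (G_778 hP hl) f0)
theorem G_773 (hP : P.ok) (hl : ¬ InB P loc) : FGood P h773 :=
  frun_good hP hl T_773 (fc (G_774 hP hl) (fc (G_775 hP hl) (fc (G_776 hP hl) (fc (G_777 hP hl) f0))))
theorem G_772 (hP : P.ok) (hl : ¬ InB P loc) : FGood P h772 :=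
  frun_good hP hl T_772 f0
theorem G_771 (hP : P.ok) (hl : ¬ InB P loc) : FGood P h771 :=
  frun_good hP hl T_771 (fc (G_772 hP hl) f0)
theorem G_770 (hP : P.ok) (hl : ¬ InB P loc) : FGood P h770 :=
  frun_good hP hl T_770 f0
theorem G_769 (hP : P.ok) (hl : ¬ InB P loc) : FGood P h769 :=
  frun_good hP hl T_769 (fc (G_771 hP hl) f0)
theorem G_768 (hP : P.ok) (hl : ¬ InB P loc) : FGood P h768 :=
  frun_good hP hl T_768 (fc (G_770 hP hl) f0)
theorem G_767 (hP : P.ok) (hl : ¬ InB P loc) : FGood P h767 :=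
  frun_good hP hl T_767 (fc (G_768 hP hl) (fc (G_769 hP hl) f0))
theorem G_766 (hP : P.ok) (hl : ¬ InB P loc) : FGood P h766 :=
  frun_good hP hl T_766 f0
theorem G_765 (hP : P.ok) (hl : ¬ InB P loc) : FGood P h765 :=
  frun_good hP hl T_765 f0
theorem G_764 (hP : P.ok) (hl : ¬ InB P loc) : FGood P h764 :=
  frun_good hP hl T_764 f0
theorem G_763 (hP : P.ok) (hl : ¬ InB P loc) : FGood P h763 :=
  frun_good hP hl T_763 f0
theorem G_762 (hP : P.ok) (hl : ¬ InB P loc) : FGood P h762 :=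
  frun_good hP hl T_762 (fc (G_763 hP hl) (fc (G_764 hP hl) (fc (G_765 hP hl) (fc (G_766 hP hl) f0))))
theorem G_761 (hP : P.ok) (hl : ¬ InB P loc) : FGood P h761 :=
  frun_good hP hl T_761 f0
theorem G_760 (hP : P.ok) (hl : ¬ InB P loc) : FGood P h760 :=
  frun_good hP hl T_760 f0
theorem G_759 (hP : P.ok) (hl : ¬ InB P loc) : FGood P h759 :=
  frun_good hP hl T_759 f0
theorem G_758 (hP : P.ok) (hl : ¬ InB P loc) : FGood P h758 :=
  frun_good hP hl T_758 f0
theorem G_757 (hP : P.ok) (hl : ¬ InB P loc) : FGood P h757 :=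
  frun_good hP hl T_757 f0
theorem G_756 (hP : P.ok) (hl : ¬ InB P loc) : FGood P h756 :=
  frun_good hP hl T_756 f0
theorem G_755 (hP : P.ok) (hl : ¬ InB P loc) : FGood P h755 :=
  frun_good hP hl T_755 f0
theorem G_754 (hP : P.ok) (hl : ¬ InB P loc) : FGood P h754 :=
  frun_good hP hl T_754 f0
theorem G_753 (hP : P.ok) (hl : ¬ InB P loc) : FGood P h753 :=
  frun_good hP hl T_753 f0
theorem G_752 (hP : P.ok) (hl : ¬ InB P loc) : FGood P h752 :=
  frun_good hP hl T_752 (fc (G_753 hP hl) (fc (G_754 hP hl) (fc (G_755 hP hl) f0)))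
theorem G_751 (hP : P.ok) (hl : ¬ InB P loc) : FGood P h751 :=
  frun_good hP hl T_751 f0
theorem G_750 (hP : P.ok) (hl : ¬ InB P loc) : FGood P h750 :=
  frun_good hP hl T_750 (fc (G_751 hP hl) (fc (G_752 hP hl) f0))
theorem G_749 (hP : P.ok) (hl : ¬ InB P loc) : FGood P h749 :=
  frun_good hP hl T_749 f0
theorem G_748 (hP : P.ok) (hl : ¬ InB P loc) : FGood P h748 :=
  frun_good hP hl T_748 (fc (G_749 hP hl) f0)
theorem G_747 (hP : P.ok) (hl : ¬ InB P loc) : FGood P h747 :=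
  frun_good hP hl T_747 f0
theorem G_746 (hP : P.ok) (hl : ¬ InB P loc) : FGood P h746 :=
  frun_good hP hl T_746 (fc (G_747 hP hl) f0)
theorem G_745 (hP : P.ok) (hl : ¬ InB P loc) : FGood P h745 :=
  frun_good hP hl T_745 f0
theorem G_744 (hP : P.ok) (hl : ¬ InB P loc) : FGood P h744 :=
  frun_good hP hl T_744 (fc (G_746 hP hl) f0)
theorem G_743 (hP : P.ok) (hl : ¬ InB P loc) : FGood P h743 :=
  frun_good hP hl T_743 f0
theorem G_742 (hP : P.ok) (hl : ¬ InB P loc) : FGood P h742 :=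
  frun_good hP hl T_742 (fc (G_744 hP hl) (fc (G_745 hP hl) f0))
theorem G_741 (hP : P.ok) (hl : ¬ InB P loc) : FGood P h741 :=
  frun_good hP hl T_741 f0
theorem G_740 (hP : P.ok) (hl : ¬ InB P loc) : FGood P h740 :=
  frun_good hP hl T_740 (fc (G_741 hP hl) (fc (G_742 hP hl) (fc (G_743 hP hl) f0)))
theorem G_739 (hP : P.ok) (hl : ¬ InB P loc) : FGood P h739 :=
  frun_good hP hl T_739 f0
theorem G_738 (hP : P.ok) (hl : ¬ InB P loc) : FGood P h738 :=
  frun_good hP hl T_738 f0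
theorem G_737 (hP : P.ok) (hl : ¬ InB P loc) : FGood P h737 :=
  frun_good hP hl T_737 f0
theorem G_736 (hP : P.ok) (hl : ¬ InB P loc) : FGood P h736 :=
  frun_good hP hl T_736 (fc (G_737 hP hl) f0)
theorem G_735 (hP : P.ok) (hl : ¬ InB P loc) : FGood P h735 :=
  frun_good hP hl T_735 (fc (G_736 hP hl) f0)
theorem G_734 (hP : P.ok) (hl : ¬ InB P loc) : FGood P h734 :=
  frun_good hP hl T_734 f0
theorem G_733 (hP : P.ok) (hl : ¬ InB P loc) : FGood P h733 :=
  frun_good hP hl T_733 f0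
theorem G_732 (hP : P.ok) (hl : ¬ InB P loc) : FGood P h732 :=
  frun_good hP hl T_732 f0
theorem G_731 (hP : P.ok) (hl : ¬ InB P loc) : FGood P h731 :=
  frun_good hP hl T_731 (fc (G_733 hP hl) f0)
theorem G_730 (hP : P.ok) (hl : ¬ InB P loc) : FGood P h730 :=
  frun_good hP hl T_730 (fc (G_731 hP hl) (fc (G_732 hP hl) f0))
theorem G_729 (hP : P.ok) (hl : ¬ InB P loc) : FGood P h729 :=
  frun_good hP hl T_729 f0
theorem G_728 (hP : P.ok) (hl : ¬ InB P loc) : FGood P h728 :=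
  frun_good hP hl T_728 f0
theorem G_727 (hP : P.ok) (hl : ¬ InB P loc) : FGood P h727 :=
  frun_good hP hl T_727 (fc (G_729 hP hl) f0)
theorem G_726 (hP : P.ok) (hl : ¬ InB P loc) : FGood P h726 :=
  frun_good hP hl T_726 (fc (G_727 hP hl) (fc (G_728 hP hl) f0))
theorem G_725 (hP : P.ok) (hl : ¬ InB P loc) : FGood P h725 :=
  frun_good hP hl T_725 f0
theorem G_724 (hP : P.ok) (hl : ¬ InB P loc) : FGood P h724 :=
  frun_good hP hl T_724 (fc (G_725 hP hl) f0)
theorem G_723 (hP : P.ok) (hl : ¬ InB P loc) : FGood P h723 :=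
  frun_good hP hl T_723 f0
theorem G_722 (hP : P.ok) (hl : ¬ InB P loc) : FGood P h722 :=
  frun_good hP hl T_722 (fc (G_723 hP hl) f0)
theorem G_721 (hP : P.ok) (hl : ¬ InB P loc) : FGood P h721 :=
  frun_good hP hl T_721 f0
theorem G_720 (hP : P.ok) (hl : ¬ InB P loc) : FGood P h720 :=
  frun_good hP hl T_720 (fc (G_721 hP hl) f0)
theorem G_719 (hP : P.ok) (hl : ¬ InB P loc) : FGood P h719 :=
  frun_good hP hl T_719 (fc (G_720 hP hl) f0)
theorem G_718 (hP : P.ok) (hl : ¬ InB P loc) : FGood P h718 :=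
  frun_good hP hl T_718 f0
theorem G_717 (hP : P.ok) (hl : ¬ InB P loc) : FGood P h717 :=
  frun_good hP hl T_717 (fc (G_718 hP hl) (fc (G_719 hP hl) f0))
theorem G_716 (hP : P.ok) (hl : ¬ InB P loc) : FGood P h716 :=
  frun_good hP hl T_716 f0
theorem G_715 (hP : P.ok) (hl : ¬ InB P loc) : FGood P h715 :=
  frun_good hP hl T_715 (fc (G_716 hP hl) f0)
theorem G_714 (hP : P.ok) (hl : ¬ InB P loc) : FGood P h714 :=
  frun_good hP hl T_714 (fc (G_715 hP hl) f0)
theorem G_713 (hP : P.ok) (hl : ¬ InB P loc) : FGood P h713 :=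
  frun_good hP hl T_713 f0
theorem G_712 (hP : P.ok) (hl : ¬ InB P loc) : FGood P h712 :=
  frun_good hP hl T_712 (fc (G_713 hP hl) (fc (G_714 hP hl) f0))
theorem G_711 (hP : P.ok) (hl : ¬ InB P loc) : FGood P h711 :=
  frun_good hP hl T_711 f0
theorem G_710 (hP : P.ok) (hl : ¬ InB P loc) : FGood P h710 :=
  frun_good hP hl T_710 f0
theorem G_709 (hP : P.ok) (hl : ¬ InB P loc) : FGood P h709 :=
  frun_good hP hl T_709 (fc (G_711 hP hl) f0)
theorem G_708 (hP : P.ok) (hl : ¬ InB P loc) : FGood P h708 :=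
  frun_good hP hl T_708 f0
theorem G_707 (hP : P.ok) (hl : ¬ InB P loc) : FGood P h707 :=
  frun_good hP hl T_707 (fc (G_708 hP hl) (fc (G_709 hP hl) (fc (G_710 hP hl) f0)))
theorem G_706 (hP : P.ok) (hl : ¬ InB P loc) : FGood P h706 :=
  frun_good hP hl T_706 (fc (G_707 hP hl) f0)
theorem G_705 (hP : P.ok) (hl : ¬ InB P loc) : FGood P h705 :=
  frun_good hP hl T_705 f0
theorem G_704 (hP : P.ok) (hl : ¬ InB P loc) : FGood P h704 :=
  frun_good hP hl T_704 f0
theorem G_703 (hP : P.ok) (hl : ¬ InB P loc) : FGood P h703 :=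
  frun_good hP hl T_703 f0
theorem G_702 (hP : P.ok) (hl : ¬ InB P loc) : FGood P h702 :=
  frun_good hP hl T_702 f0
theorem G_701 (hP : P.ok) (hl : ¬ InB P loc) : FGood P h701 :=
  frun_good hP hl T_701 f0
theorem G_700 (hP : P.ok) (hl : ¬ InB P loc) : FGood P h700 :=
  frun_good hP hl T_700 f0
theorem G_699 (hP : P.ok) (hl : ¬ InB P loc) : FGood P h699 :=
  frun_good hP hl T_699 f0
theorem G_698 (hP : P.ok) (hl : ¬ InB P loc) : FGood P h698 :=
  frun_good hP hl T_698 (fc (G_705 hP hl) f0)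
theorem G_697 (hP : P.ok) (hl : ¬ InB P loc) : FGood P h697 :=
  frun_good hP hl T_697 (fc (G_698 hP hl) (fc (G_699 hP hl) (fc (G_700 hP hl) (fc (G_701 hP hl) (fc (G_702 hP hl) (fc (G_703 hP hl) (fc (G_704 hP hl) f0)))))))
theorem G_696 (hP : P.ok) (hl : ¬ InB P loc) : FGood P h696 :=
  frun_good hP hl T_696 f0
theorem G_695 (hP : P.ok) (hl : ¬ InB P loc) : FGood P h695 :=
  frun_good hP hl T_695 f0
theorem G_694 (hP : P.ok) (hl : ¬ InB P loc) : FGood P h694 :=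
  frun_good hP hl T_694 f0
theorem G_693 (hP : P.ok) (hl : ¬ InB P loc) : FGood P h693 :=
  frun_good hP hl T_693 f0
theorem G_692 (hP : P.ok) (hl : ¬ InB P loc) : FGood P h692 :=
  frun_good hP hl T_692 f0
theorem G_691 (hP : P.ok) (hl : ¬ InB P loc) : FGood P h691 :=
  frun_good hP hl T_691 f0
theorem G_690 (hP : P.ok) (hl : ¬ InB P loc) : FGood P h690 :=
  frun_good hP hl T_690 f0
theorem G_689 (hP : P.ok) (hl : ¬ InB P loc) : FGood P h689 :=
  frun_good hP hl T_689 f0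
theorem G_688 (hP : P.ok) (hl : ¬ InB P loc) : FGood P h688 :=
  frun_good hP hl T_688 f0
theorem G_687 (hP : P.ok) (hl : ¬ InB P loc) : FGood P h687 :=
  frun_good hP hl T_687 (fc (G_688 hP hl) (fc (G_689 hP hl) (fc (G_690 hP hl) (fc (G_691 hP hl) (fc (G_692 hP hl) (fc (G_693 hP hl) (fc (G_694 hP hl) (fc (G_695 hP hl) (fc (G_696 hP hl) f0)))))))))
theorem G_686 (hP : P.ok) (hl : ¬ InB P loc) : FGood P h686 :=
  frun_good hP hl T_686 f0
theorem G_685 (hP : P.ok) (hl : ¬ InB P loc) : FGood P h685 :=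
  frun_good hP hl T_685 f0
theorem G_684 (hP : P.ok) (hl : ¬ InB P loc) : FGood P h684 :=
  frun_good hP hl T_684 f0
theorem G_683 (hP : P.ok) (hl : ¬ InB P loc) : FGood P h683 :=
  frun_good hP hl T_683 f0
theorem G_682 (hP : P.ok) (hl : ¬ InB P loc) : FGood P h682 :=
  frun_good hP hl T_682 f0
theorem G_681 (hP : P.ok) (hl : ¬ InB P loc) : FGood P h681 :=
  frun_good hP hl T_681 f0
theorem G_680 (hP : P.ok) (hl : ¬ InB P loc) : FGood P h680 :=
  frun_good hP hl T_680 f0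
theorem G_679 (hP : P.ok) (hl : ¬ InB P loc) : FGood P h679 :=
  frun_good hP hl T_679 f0
theorem G_678 (hP : P.ok) (hl : ¬ InB P loc) : FGood P h678 :=
  frun_good hP hl T_678 f0
theorem G_677 (hP : P.ok) (hl : ¬ InB P loc) : FGood P h677 :=
  frun_good hP hl T_677 f0
theorem G_676 (hP : P.ok) (hl : ¬ InB P loc) : FGood P h676 :=
  frun_good hP hl T_676 f0
theorem G_675 (hP : P.ok) (hl : ¬ InB P loc) : FGood P h675 :=
  frun_good hP hl T_675 f0
theorem G_674 (hP : P.ok) (hl : ¬ InB P loc) : FGood P h674 :=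
  frun_good hP hl T_674 f0
theorem G_673 (hP : P.ok) (hl : ¬ InB P loc) : FGood P h673 :=
  frun_good hP hl T_673 f0
theorem G_672 (hP : P.ok) (hl : ¬ InB P loc) : FGood P h672 :=
  frun_good hP hl T_672 f0
theorem G_671 (hP : P.ok) (hl : ¬ InB P loc) : FGood P h671 :=
  frun_good hP hl T_671 f0
theorem G_670 (hP : P.ok) (hl : ¬ InB P loc) : FGood P h670 :=
  frun_good hP hl T_670 f0
theorem G_669 (hP : P.ok) (hl : ¬ InB P loc) : FGood P h669 :=
  frun_good hP hl T_669 f0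
theorem G_668 (hP : P.ok) (hl : ¬ InB P loc) : FGood P h668 :=
  frun_good hP hl T_668 f0
theorem G_667 (hP : P.ok) (hl : ¬ InB P loc) : FGood P h667 :=
  frun_good hP hl T_667 (fc (G_668 hP hl) (fc (G_669 hP hl) (fc (G_670 hP hl) (fc (G_671 hP hl) (fc (G_672 hP hl) (fc (G_673 hP hl) (fc (G_674 hP hl) (fc (G_675 hP hl) (fc (G_676 hP hl) (fc (G_677 hP hl) (fc (G_678 hP hl) (fc (G_679 hP hl) (fc (G_680 hP hl) (fc (G_681 hP hl) (fc (G_682 hP hl) f0)))))))))))))))
theorem G_666 (hP : P.ok) (hl : ¬ InB P loc) : FGood P h666 :=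
  frun_good hP hl T_666 f0
theorem G_665 (hP : P.ok) (hl : ¬ InB P loc) : FGood P h665 :=
  frun_good hP hl T_665 f0
theorem G_664 (hP : P.ok) (hl : ¬ InB P loc) : FGood P h664 :=
  frun_good hP hl T_664 f0
theorem G_663 (hP : P.ok) (hl : ¬ InB P loc) : FGood P h663 :=
  frun_good hP hl T_663 (fc (G_666 hP hl) f0)
theorem G_662 (hP : P.ok) (hl : ¬ InB P loc) : FGood P h662 :=
  frun_good hP hl T_662 (fc (G_663 hP hl) (fc (G_664 hP hl) (fc (G_665 hP hl) f0)))
theorem G_661 (hP : P.ok) (hl : ¬ InB P loc) : FGood P h661 :=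
  frun_good hP hl T_661 f0
theorem G_660 (hP : P.ok) (hl : ¬ InB P loc) : FGood P h660 :=
  frun_good hP hl T_660 f0
theorem G_659 (hP : P.ok) (hl : ¬ InB P loc) : FGood P h659 :=
  frun_good hP hl T_659 f0
theorem G_658 (hP : P.ok) (hl : ¬ InB P loc) : FGood P h658 :=
  frun_good hP hl T_658 f0
theorem G_657 (hP : P.ok) (hl : ¬ InB P loc) : FGood P h657 :=
  frun_good hP hl T_657 f0
theorem G_656 (hP : P.ok) (hl : ¬ InB P loc) : FGood P h656 :=
  frun_good hP hl T_656 f0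
theorem G_655 (hP : P.ok) (hl : ¬ InB P loc) : FGood P h655 :=
  frun_good hP hl T_655 f0
theorem G_654 (hP : P.ok) (hl : ¬ InB P loc) : FGood P h654 :=
  frun_good hP hl T_654 f0
theorem G_653 (hP : P.ok) (hl : ¬ InB P loc) : FGood P h653 :=
  frun_good hP hl T_653 f0
theorem G_652 (hP : P.ok) (hl : ¬ InB P loc) : FGood P h652 :=
  frun_good hP hl T_652 f0
theorem G_651 (hP : P.ok) (hl : ¬ InB P loc) : FGood P h651 :=
  frun_good hP hl T_651 f0
theorem G_650 (hP : P.ok) (hl : ¬ InB P loc) : FGood P h650 :=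
  frun_good hP hl T_650 f0
theorem G_649 (hP : P.ok) (hl : ¬ InB P loc) : FGood P h649 :=
  frun_good hP hl T_649 f0
theorem G_648 (hP : P.ok) (hl : ¬ InB P loc) : FGood P h648 :=
  frun_good hP hl T_648 f0
theorem G_647 (hP : P.ok) (hl : ¬ InB P loc) : FGood P h647 :=
  frun_good hP hl T_647 f0
theorem G_646 (hP : P.ok) (hl : ¬ InB P loc) : FGood P h646 :=
  frun_good hP hl T_646 f0
theorem G_645 (hP : P.ok) (hl : ¬ InB P loc) : FGood P h645 :=
  frun_good hP hl T_645 f0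
theorem G_644 (hP : P.ok) (hl : ¬ InB P loc) : FGood P h644 :=
  frun_good hP hl T_644 f0
theorem G_643 (hP : P.ok) (hl : ¬ InB P loc) : FGood P h643 :=
  frun_good hP hl T_643 f0
theorem G_642 (hP : P.ok) (hl : ¬ InB P loc) : FGood P h642 :=
  frun_good hP hl T_642 f0
theorem G_641 (hP : P.ok) (hl : ¬ InB P loc) : FGood P h641 :=
  frun_good hP hl T_641 f0
theorem G_640 (hP : P.ok) (hl : ¬ InB P loc) : FGood P h640 :=
  frun_good hP hl T_640 f0
theorem G_639 (hP : P.ok) (hl : ¬ InB P loc) : FGood P h639 :=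
  frun_good hP hl T_639 f0
theorem G_638 (hP : P.ok) (hl : ¬ InB P loc) : FGood P h638 :=
  frun_good hP hl T_638 f0
theorem G_637 (hP : P.ok) (hl : ¬ InB P loc) : FGood P h637 :=
  frun_good hP hl T_637 f0
theorem G_636 (hP : P.ok) (hl : ¬ InB P loc) : FGood P h636 :=
  frun_good hP hl T_636 f0
theorem G_635 (hP : P.ok) (hl : ¬ InB P loc) : FGood P h635 :=
  frun_good hP hl T_635 f0
theorem G_634 (hP : P.ok) (hl : ¬ InB P loc) : FGood P h634 :=
  frun_good hP hl T_634 f0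
theorem G_633 (hP : P.ok) (hl : ¬ InB P loc) : FGood P h633 :=
  frun_good hP hl T_633 f0
theorem G_632 (hP : P.ok) (hl : ¬ InB P loc) : FGood P h632 :=
  frun_good hP hl T_632 f0
theorem G_631 (hP : P.ok) (hl : ¬ InB P loc) : FGood P h631 :=
  frun_good hP hl T_631 f0
theorem G_630 (hP : P.ok) (hl : ¬ InB P loc) : FGood P h630 :=
  frun_good hP hl T_630 f0
theorem G_629 (hP : P.ok) (hl : ¬ InB P loc) : FGood P h629 :=
  frun_good hP hl T_629 f0
theorem G_628 (hP : P.ok) (hl : ¬ InB P loc) : FGood P h628 :=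
  frun_good hP hl T_628 f0
theorem G_627 (hP : P.ok) (hl : ¬ InB P loc) : FGood P h627 :=
  frun_good hP hl T_627 f0
theorem G_626 (hP : P.ok) (hl : ¬ InB P loc) : FGood P h626 :=
  frun_good hP hl T_626 f0
theorem G_625 (hP : P.ok) (hl : ¬ InB P loc) : FGood P h625 :=
  frun_good hP hl T_625 f0
theorem G_624 (hP : P.ok) (hl : ¬ InB P loc) : FGood P h624 :=
  frun_good hP hl T_624 f0
theorem G_623 (hP : P.ok) (hl : ¬ InB P loc) : FGood P h623 :=
  frun_good hP hl T_623 (fc (G_642 hP hl) (fc (G_643 hP hl) (fc (G_644 hP hl) (fc (G_645 hP hl) (fc (G_646 hP hl) (fc (G_647 hP hl) (fc (G_648 hP hl) (fc (G_649 hP hl) (fc (G_650 hP hl) (fc (G_651 hP hl) (fc (G_652 hP hl) (fc (G_653 hP hl) (fc (G_654 hP hl) (fc (G_655 hP hl) (fc (G_656 hP hl) (fc (G_657 hP hl) (fc (G_658 hP hl) (fc (G_659 hP hl) (fc (G_660 hP hl) f0)))))))))))))))))))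
theorem G_622 (hP : P.ok) (hl : ¬ InB P loc) : FGood P h622 :=
  frun_good hP hl T_622 (fc (G_623 hP hl) (fc (G_624 hP hl) (fc (G_625 hP hl) (fc (G_626 hP hl) (fc (G_627 hP hl) (fc (G_628 hP hl) (fc (G_629 hP hl) (fc (G_630 hP hl) (fc (G_631 hP hl) (fc (G_632 hP hl) (fc (G_633 hP hl) (fc (G_634 hP hl) (fc (G_635 hP hl) (fc (G_636 hP hl) (fc (G_637 hP hl) (fc (G_638 hP hl) (fc (G_639 hP hl) (fc (G_640 hP hl) (fc (G_641 hP hl) f0)))))))))))))))))))
theorem G_621 (hP : P.ok) (hl : ¬ InB P loc) : FGood P h621 :=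
  frun_good hP hl T_621 f0
theorem G_620 (hP : P.ok) (hl : ¬ InB P loc) : FGood P h620 :=
  frun_good hP hl T_620 f0
theorem G_619 (hP : P.ok) (hl : ¬ InB P loc) : FGood P h619 :=
  frun_good hP hl T_619 f0
theorem G_618 (hP : P.ok) (hl : ¬ InB P loc) : FGood P h618 :=
  frun_good hP hl T_618 f0
theorem G_617 (hP : P.ok) (hl : ¬ InB P loc) : FGood P h617 :=
  frun_good hP hl T_617 f0
theorem G_616 (hP : P.ok) (hl : ¬ InB P loc) : FGood P h616 :=
  frun_good hP hl T_616 f0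
theorem G_615 (hP : P.ok) (hl : ¬ InB P loc) : FGood P h615 :=
  frun_good hP hl T_615 f0
theorem G_614 (hP : P.ok) (hl : ¬ InB P loc) : FGood P h614 :=
  frun_good hP hl T_614 f0
theorem G_613 (hP : P.ok) (hl : ¬ InB P loc) : FGood P h613 :=
  frun_good hP hl T_613 f0
theorem G_612 (hP : P.ok) (hl : ¬ InB P loc) : FGood P h612 :=
  frun_good hP hl T_612 f0
theorem G_611 (hP : P.ok) (hl : ¬ InB P loc) : FGood P h611 :=
  frun_good hP hl T_611 f0
theorem G_610 (hP : P.ok) (hl : ¬ InB P loc) : FGood P h610 :=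
  frun_good hP hl T_610 f0
theorem G_609 (hP : P.ok) (hl : ¬ InB P loc) : FGood P h609 :=
  frun_good hP hl T_609 f0
theorem G_608 (hP : P.ok) (hl : ¬ InB P loc) : FGood P h608 :=
  frun_good hP hl T_608 f0
theorem G_607 (hP : P.ok) (hl : ¬ InB P loc) : FGood P h607 :=
  frun_good hP hl T_607 f0
theorem G_606 (hP : P.ok) (hl : ¬ InB P loc) : FGood P h606 :=
  frun_good hP hl T_606 f0
theorem G_605 (hP : P.ok) (hl : ¬ InB P loc) : FGood P h605 :=
  frun_good hP hl T_605 f0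
theorem G_604 (hP : P.ok) (hl : ¬ InB P loc) : FGood P h604 :=
  frun_good hP hl T_604 f0
theorem G_603 (hP : P.ok) (hl : ¬ InB P loc) : FGood P h603 :=
  frun_good hP hl T_603 f0
theorem G_602 (hP : P.ok) (hl : ¬ InB P loc) : FGood P h602 :=
  frun_good hP hl T_602 f0
theorem G_601 (hP : P.ok) (hl : ¬ InB P loc) : FGood P h601 :=
  frun_good hP hl T_601 f0
theorem G_600 (hP : P.ok) (hl : ¬ InB P loc) : FGood P h600 :=
  frun_good hP hl T_600 f0
theorem G_599 (hP : P.ok) (hl : ¬ InB P loc) : FGood P h599 :=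
  frun_good hP hl T_599 f0
theorem G_598 (hP : P.ok) (hl : ¬ InB P loc) : FGood P h598 :=
  frun_good hP hl T_598 f0
theorem G_597 (hP : P.ok) (hl : ¬ InB P loc) : FGood P h597 :=
  frun_good hP hl T_597 f0
theorem G_596 (hP : P.ok) (hl : ¬ InB P loc) : FGood P h596 :=
  frun_good hP hl T_596 f0
theorem G_595 (hP : P.ok) (hl : ¬ InB P loc) : FGood P h595 :=
  frun_good hP hl T_595 f0
theorem G_594 (hP : P.ok) (hl : ¬ InB P loc) : FGood P h594 :=
  frun_good hP hl T_594 f0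
theorem G_593 (hP : P.ok) (hl : ¬ InB P loc) : FGood P h593 :=
  frun_good hP hl T_593 (fc (G_612 hP hl) (fc (G_613 hP hl) (fc (G_614 hP hl) (fc (G_615 hP hl) (fc (G_616 hP hl) (fc (G_617 hP hl) (fc (G_618 hP hl) (fc (G_619 hP hl) (fc (G_620 hP hl) (fc (G_621 hP hl) f0))))))))))
theorem G_592 (hP : P.ok) (hl : ¬ InB P loc) : FGood P h592 :=
  frun_good hP hl T_592 f0
theorem G_591 (hP : P.ok) (hl : ¬ InB P loc) : FGood P h591 :=
  frun_good hP hl T_591 f0
theorem G_590 (hP : P.ok) (hl : ¬ InB P loc) : FGood P h590 :=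
  frun_good hP hl T_590 f0
theorem G_589 (hP : P.ok) (hl : ¬ InB P loc) : FGood P h589 :=
  frun_good hP hl T_589 f0
theorem G_588 (hP : P.ok) (hl : ¬ InB P loc) : FGood P h588 :=
  frun_good hP hl T_588 f0
theorem G_587 (hP : P.ok) (hl : ¬ InB P loc) : FGood P h587 :=
  frun_good hP hl T_587 f0
theorem G_586 (hP : P.ok) (hl : ¬ InB P loc) : FGood P h586 :=
  frun_good hP hl T_586 f0
theorem G_585 (hP : P.ok) (hl : ¬ InB P loc) : FGood P h585 :=
  frun_good hP hl T_585 f0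
theorem G_584 (hP : P.ok) (hl : ¬ InB P loc) : FGood P h584 :=
  frun_good hP hl T_584 f0
theorem G_583 (hP : P.ok) (hl : ¬ InB P loc) : FGood P h583 :=
  frun_good hP hl T_583 f0
theorem G_582 (hP : P.ok) (hl : ¬ InB P loc) : FGood P h582 :=
  frun_good hP hl T_582 f0
theorem G_581 (hP : P.ok) (hl : ¬ InB P loc) : FGood P h581 :=
  frun_good hP hl T_581 f0
theorem G_580 (hP : P.ok) (hl : ¬ InB P loc) : FGood P h580 :=
  frun_good hP hl T_580 f0
theorem G_579 (hP : P.ok) (hl : ¬ InB P loc) : FGood P h579 :=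
  frun_good hP hl T_579 f0
theorem G_578 (hP : P.ok) (hl : ¬ InB P loc) : FGood P h578 :=
  frun_good hP hl T_578 f0
theorem G_577 (hP : P.ok) (hl : ¬ InB P loc) : FGood P h577 :=
  frun_good hP hl T_577 f0
theorem G_576 (hP : P.ok) (hl : ¬ InB P loc) : FGood P h576 :=
  frun_good hP hl T_576 f0
theorem G_575 (hP : P.ok) (hl : ¬ InB P loc) : FGood P h575 :=
  frun_good hP hl T_575 f0
theorem G_574 (hP : P.ok) (hl : ¬ InB P loc) : FGood P h574 :=
  frun_good hP hl T_574 (fc (G_594 hP hl) (fc (G_595 hP hl) (fc (G_596 hP hl) (fc (G_597 hP hl) (fc (G_598 hP hl) (fc (G_599 hP hl) (fc (G_600 hP hl) (fc (G_601 hP hl) (fc (G_602 hP hl) (fc (G_603 hP hl) (fc (G_604 hP hl) (fc (G_605 hP hl) (fc (G_606 hP hl) (fc (G_607 hP hl) (fc (G_608 hP hl) (fc (G_609 hP hl) (fc (G_610 hP hl) (fc (G_611 hP hl) f0))))))))))))))))))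
theorem G_573 (hP : P.ok) (hl : ¬ InB P loc) : FGood P h573 :=
  frun_good hP hl T_573 (fc (G_574 hP hl) (fc (G_575 hP hl) (fc (G_576 hP hl) (fc (G_577 hP hl) (fc (G_578 hP hl) (fc (G_579 hP hl) (fc (G_580 hP hl) (fc (G_581 hP hl) (fc (G_582 hP hl) (fc (G_583 hP hl) (fc (G_584 hP hl) (fc (G_585 hP hl) (fc (G_586 hP hl) (fc (G_587 hP hl) (fc (G_588 hP hl) (fc (G_589 hP hl) (fc (G_590 hP hl) (fc (G_591 hP hl) (fc (G_592 hP hl) (fc (G_593 hP hl) f0))))))))))))))))))))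
theorem G_572 (hP : P.ok) (hl : ¬ InB P loc) : FGood P h572 :=
  frun_good hP hl T_572 f0
theorem G_571 (hP : P.ok) (hl : ¬ InB P loc) : FGood P h571 :=
  frun_good hP hl T_571 f0
theorem G_570 (hP : P.ok) (hl : ¬ InB P loc) : FGood P h570 :=
  frun_good hP hl T_570 f0
theorem G_569 (hP : P.ok) (hl : ¬ InB P loc) : FGood P h569 :=
  frun_good hP hl T_569 f0
theorem G_568 (hP : P.ok) (hl : ¬ InB P loc) : FGood P h568 :=
  frun_good hP hl T_568 f0
theorem G_567 (hP : P.ok) (hl : ¬ InB P loc) : FGood P h567 :=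
  frun_good hP hl T_567 f0
theorem G_566 (hP : P.ok) (hl : ¬ InB P loc) : FGood P h566 :=
  frun_good hP hl T_566 f0
theorem G_565 (hP : P.ok) (hl : ¬ InB P loc) : FGood P h565 :=
  frun_good hP hl T_565 f0
theorem G_564 (hP : P.ok) (hl : ¬ InB P loc) : FGood P h564 :=
  frun_good hP hl T_564 f0
theorem G_563 (hP : P.ok) (hl : ¬ InB P loc) : FGood P h563 :=
  frun_good hP hl T_563 f0
theorem G_562 (hP : P.ok) (hl : ¬ InB P loc) : FGood P h562 :=
  frun_good hP hl T_562 f0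
theorem G_561 (hP : P.ok) (hl : ¬ InB P loc) : FGood P h561 :=
  frun_good hP hl T_561 f0
theorem G_560 (hP : P.ok) (hl : ¬ InB P loc) : FGood P h560 :=
  frun_good hP hl T_560 f0
theorem G_559 (hP : P.ok) (hl : ¬ InB P loc) : FGood P h559 :=
  frun_good hP hl T_559 f0
theorem G_558 (hP : P.ok) (hl : ¬ InB P loc) : FGood P h558 :=
  frun_good hP hl T_558 f0
theorem G_557 (hP : P.ok) (hl : ¬ InB P loc) : FGood P h557 :=
  frun_good hP hl T_557 f0
theorem G_556 (hP : P.ok) (hl : ¬ InB P loc) : FGood P h556 :=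
  frun_good hP hl T_556 f0
theorem G_555 (hP : P.ok) (hl : ¬ InB P loc) : FGood P h555 :=
  frun_good hP hl T_555 (fc (G_564 hP hl) (fc (G_565 hP hl) (fc (G_566 hP hl) (fc (G_567 hP hl) (fc (G_568 hP hl) (fc (G_569 hP hl) (fc (G_570 hP hl) (fc (G_571 hP hl) (fc (G_572 hP hl) f0)))))))))
theorem G_554 (hP : P.ok) (hl : ¬ InB P loc) : FGood P h554 :=
  frun_good hP hl T_554 (fc (G_555 hP hl) (fc (G_556 hP hl) (fc (G_557 hP hl) (fc (G_558 hP hl) (fc (G_559 hP hl) (fc (G_560 hP hl) (fc (G_561 hP hl) (fc (G_562 hP hl) (fc (G_563 hP hl) f0)))))))))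
theorem G_553 (hP : P.ok) (hl : ¬ InB P loc) : FGood P h553 :=
  frun_good hP hl T_553 f0
theorem G_552 (hP : P.ok) (hl : ¬ InB P loc) : FGood P h552 :=
  frun_good hP hl T_552 f0
theorem G_551 (hP : P.ok) (hl : ¬ InB P loc) : FGood P h551 :=
  frun_good hP hl T_551 f0
theorem G_550 (hP : P.ok) (hl : ¬ InB P loc) : FGood P h550 :=
  frun_good hP hl T_550 f0
theorem G_549 (hP : P.ok) (hl : ¬ InB P loc) : FGood P h549 :=
  frun_good hP hl T_549 f0
theorem G_548 (hP : P.ok) (hl : ¬ InB P loc) : FGood P h548 :=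
  frun_good hP hl T_548 f0
theorem G_547 (hP : P.ok) (hl : ¬ InB P loc) : FGood P h547 :=
  frun_good hP hl T_547 f0
theorem G_546 (hP : P.ok) (hl : ¬ InB P loc) : FGood P h546 :=
  frun_good hP hl T_546 f0
theorem G_545 (hP : P.ok) (hl : ¬ InB P loc) : FGood P h545 :=
  frun_good hP hl T_545 f0
theorem G_544 (hP : P.ok) (hl : ¬ InB P loc) : FGood P h544 :=
  frun_good hP hl T_544 f0
theorem G_543 (hP : P.ok) (hl : ¬ InB P loc) : FGood P h543 :=
  frun_good hP hl T_543 f0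
theorem G_542 (hP : P.ok) (hl : ¬ InB P loc) : FGood P h542 :=
  frun_good hP hl T_542 f0
theorem G_541 (hP : P.ok) (hl : ¬ InB P loc) : FGood P h541 :=
  frun_good hP hl T_541 f0
theorem G_540 (hP : P.ok) (hl : ¬ InB P loc) : FGood P h540 :=
  frun_good hP hl T_540 f0
theorem G_539 (hP : P.ok) (hl : ¬ InB P loc) : FGood P h539 :=
  frun_good hP hl T_539 f0
theorem G_538 (hP : P.ok) (hl : ¬ InB P loc) : FGood P h538 :=
  frun_good hP hl T_538 f0
theorem G_537 (hP : P.ok) (hl : ¬ InB P loc) : FGood P h537 :=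
  frun_good hP hl T_537 f0
theorem G_536 (hP : P.ok) (hl : ¬ InB P loc) : FGood P h536 :=
  frun_good hP hl T_536 f0
theorem G_535 (hP : P.ok) (hl : ¬ InB P loc) : FGood P h535 :=
  frun_good hP hl T_535 (fc (G_536 hP hl) (fc (G_537 hP hl) (fc (G_538 hP hl) (fc (G_539 hP hl) (fc (G_540 hP hl) (fc (G_541 hP hl) (fc (G_542 hP hl) (fc (G_543 hP hl) (fc (G_544 hP hl) (fc (G_545 hP hl) (fc (G_546 hP hl) (fc (G_547 hP hl) (fc (G_548 hP hl) (fc (G_549 hP hl) (fc (G_550 hP hl) (fc (G_551 hP hl) (fc (G_552 hP hl) (fc (G_553 hP hl) f0))))))))))))))))))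
theorem G_534 (hP : P.ok) (hl : ¬ InB P loc) : FGood P h534 :=
  frun_good hP hl T_534 f0
theorem G_533 (hP : P.ok) (hl : ¬ InB P loc) : FGood P h533 :=
  frun_good hP hl T_533 f0
theorem G_532 (hP : P.ok) (hl : ¬ InB P loc) : FGood P h532 :=
  frun_good hP hl T_532 f0
theorem G_531 (hP : P.ok) (hl : ¬ InB P loc) : FGood P h531 :=
  frun_good hP hl T_531 f0
theorem G_530 (hP : P.ok) (hl : ¬ InB P loc) : FGood P h530 :=
  frun_good hP hl T_530 f0
theorem G_529 (hP : P.ok) (hl : ¬ InB P loc) : FGood P h529 :=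
  frun_good hP hl T_529 f0
theorem G_528 (hP : P.ok) (hl : ¬ InB P loc) : FGood P h528 :=
  frun_good hP hl T_528 f0
theorem G_527 (hP : P.ok) (hl : ¬ InB P loc) : FGood P h527 :=
  frun_good hP hl T_527 f0
theorem G_526 (hP : P.ok) (hl : ¬ InB P loc) : FGood P h526 :=
  frun_good hP hl T_526 f0
theorem G_525 (hP : P.ok) (hl : ¬ InB P loc) : FGood P h525 :=
  frun_good hP hl T_525 f0
theorem G_524 (hP : P.ok) (hl : ¬ InB P loc) : FGood P h524 :=
  frun_good hP hl T_524 (fc (G_525 hP hl) (fc (G_526 hP hl) (fc (G_527 hP hl) (fc (G_528 hP hl) (fc (G_529 hP hl) (fc (G_530 hP hl) (fc (G_531 hP hl) (fc (G_532 hP hl) (fc (G_533 hP hl) (fc (G_534 hP hl) (fc (G_535 hP hl) f0)))))))))))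
theorem G_523 (hP : P.ok) (hl : ¬ InB P loc) : FGood P h523 :=
  frun_good hP hl T_523 f0
theorem G_522 (hP : P.ok) (hl : ¬ InB P loc) : FGood P h522 :=
  frun_good hP hl T_522 f0
theorem G_521 (hP : P.ok) (hl : ¬ InB P loc) : FGood P h521 :=
  frun_good hP hl T_521 f0
theorem G_520 (hP : P.ok) (hl : ¬ InB P loc) : FGood P h520 :=
  frun_good hP hl T_520 f0
theorem G_519 (hP : P.ok) (hl : ¬ InB P loc) : FGood P h519 :=
  frun_good hP hl T_519 f0
theorem G_518 (hP : P.ok) (hl : ¬ InB P loc) : FGood P h518 :=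
  frun_good hP hl T_518 f0
theorem G_517 (hP : P.ok) (hl : ¬ InB P loc) : FGood P h517 :=
  frun_good hP hl T_517 f0
theorem G_516 (hP : P.ok) (hl : ¬ InB P loc) : FGood P h516 :=
  frun_good hP hl T_516 f0
theorem G_515 (hP : P.ok) (hl : ¬ InB P loc) : FGood P h515 :=
  frun_good hP hl T_515 f0
theorem G_514 (hP : P.ok) (hl : ¬ InB P loc) : FGood P h514 :=
  frun_good hP hl T_514 f0
theorem G_513 (hP : P.ok) (hl : ¬ InB P loc) : FGood P h513 :=
  frun_good hP hl T_513 f0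
theorem G_512 (hP : P.ok) (hl : ¬ InB P loc) : FGood P h512 :=
  frun_good hP hl T_512 f0
theorem G_511 (hP : P.ok) (hl : ¬ InB P loc) : FGood P h511 :=
  frun_good hP hl T_511 f0
theorem G_510 (hP : P.ok) (hl : ¬ InB P loc) : FGood P h510 :=
  frun_good hP hl T_510 f0
theorem G_509 (hP : P.ok) (hl : ¬ InB P loc) : FGood P h509 :=
  frun_good hP hl T_509 f0
theorem G_508 (hP : P.ok) (hl : ¬ InB P loc) : FGood P h508 :=
  frun_good hP hl T_508 f0
theorem G_507 (hP : P.ok) (hl : ¬ InB P loc) : FGood P h507 :=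
  frun_good hP hl T_507 (fc (G_508 hP hl) (fc (G_509 hP hl) (fc (G_510 hP hl) (fc (G_511 hP hl) (fc (G_512 hP hl) (fc (G_513 hP hl) (fc (G_514 hP hl) (fc (G_515 hP hl) (fc (G_516 hP hl) (fc (G_517 hP hl) (fc (G_518 hP hl) (fc (G_519 hP hl) (fc (G_520 hP hl) (fc (G_521 hP hl) (fc (G_522 hP hl) (fc (G_523 hP hl) f0))))))))))))))))
theorem G_506 (hP : P.ok) (hl : ¬ InB P loc) : FGood P h506 :=
  frun_good hP hl T_506 f0
theorem G_505 (hP : P.ok) (hl : ¬ InB P loc) : FGood P h505 :=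
  frun_good hP hl T_505 f0
theorem G_504 (hP : P.ok) (hl : ¬ InB P loc) : FGood P h504 :=
  frun_good hP hl T_504 f0
theorem G_503 (hP : P.ok) (hl : ¬ InB P loc) : FGood P h503 :=
  frun_good hP hl T_503 f0
theorem G_502 (hP : P.ok) (hl : ¬ InB P loc) : FGood P h502 :=
  frun_good hP hl T_502 f0
theorem G_501 (hP : P.ok) (hl : ¬ InB P loc) : FGood P h501 :=
  frun_good hP hl T_501 f0
theorem G_500 (hP : P.ok) (hl : ¬ InB P loc) : FGood P h500 :=
  frun_good hP hl T_500 f0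
theorem G_499 (hP : P.ok) (hl : ¬ InB P loc) : FGood P h499 :=
  frun_good hP hl T_499 f0
theorem G_498 (hP : P.ok) (hl : ¬ InB P loc) : FGood P h498 :=
  frun_good hP hl T_498 f0
theorem G_497 (hP : P.ok) (hl : ¬ InB P loc) : FGood P h497 :=
  frun_good hP hl T_497 (fc (G_498 hP hl) (fc (G_499 hP hl) f0))
theorem G_496 (hP : P.ok) (hl : ¬ InB P loc) : FGood P h496 :=
  frun_good hP hl T_496 f0
theorem G_495 (hP : P.ok) (hl : ¬ InB P loc) : FGood P h495 :=
  frun_good hP hl T_495 f0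
theorem G_494 (hP : P.ok) (hl : ¬ InB P loc) : FGood P h494 :=
  frun_good hP hl T_494 f0
theorem G_493 (hP : P.ok) (hl : ¬ InB P loc) : FGood P h493 :=
  frun_good hP hl T_493 f0
theorem G_492 (hP : P.ok) (hl : ¬ InB P loc) : FGood P h492 :=
  frun_good hP hl T_492 f0
theorem G_491 (hP : P.ok) (hl : ¬ InB P loc) : FGood P h491 :=
  frun_good hP hl T_491 f0
theorem G_490 (hP : P.ok) (hl : ¬ InB P loc) : FGood P h490 :=
  frun_good hP hl T_490 f0
theorem G_489 (hP : P.ok) (hl : ¬ InB P loc) : FGood P h489 :=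
  frun_good hP hl T_489 f0
theorem G_488 (hP : P.ok) (hl : ¬ InB P loc) : FGood P h488 :=
  frun_good hP hl T_488 f0
theorem G_487 (hP : P.ok) (hl : ¬ InB P loc) : FGood P h487 :=
  frun_good hP hl T_487 f0
theorem G_486 (hP : P.ok) (hl : ¬ InB P loc) : FGood P h486 :=
  frun_good hP hl T_486 f0
theorem G_485 (hP : P.ok) (hl : ¬ InB P loc) : FGood P h485 :=
  frun_good hP hl T_485 f0
theorem G_484 (hP : P.ok) (hl : ¬ InB P loc) : FGood P h484 :=
  frun_good hP hl T_484 f0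
theorem G_483 (hP : P.ok) (hl : ¬ InB P loc) : FGood P h483 :=
  frun_good hP hl T_483 f0
theorem G_482 (hP : P.ok) (hl : ¬ InB P loc) : FGood P h482 :=
  frun_good hP hl T_482 f0
theorem G_481 (hP : P.ok) (hl : ¬ InB P loc) : FGood P h481 :=
  frun_good hP hl T_481 f0
theorem G_480 (hP : P.ok) (hl : ¬ InB P loc) : FGood P h480 :=
  frun_good hP hl T_480 f0
theorem G_479 (hP : P.ok) (hl : ¬ InB P loc) : FGood P h479 :=
  frun_good hP hl T_479 f0
theorem G_478 (hP : P.ok) (hl : ¬ InB P loc) : FGood P h478 :=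
  frun_good hP hl T_478 (fc (G_479 hP hl) (fc (G_480 hP hl) (fc (G_481 hP hl) (fc (G_482 hP hl) (fc (G_483 hP hl) (fc (G_484 hP hl) (fc (G_485 hP hl) (fc (G_486 hP hl) (fc (G_487 hP hl) (fc (G_488 hP hl) (fc (G_489 hP hl) (fc (G_490 hP hl) (fc (G_491 hP hl) (fc (G_492 hP hl) (fc (G_493 hP hl) (fc (G_494 hP hl) (fc (G_495 hP hl) (fc (G_496 hP hl) f0))))))))))))))))))
theorem G_477 (hP : P.ok) (hl : ¬ InB P loc) : FGood P h477 :=
  frun_good hP hl T_477 (fc (G_478 hP hl) f0)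
theorem G_476 (hP : P.ok) (hl : ¬ InB P loc) : FGood P h476 :=
  frun_good hP hl T_476 f0
theorem G_475 (hP : P.ok) (hl : ¬ InB P loc) : FGood P h475 :=
  frun_good hP hl T_475 f0
theorem G_474 (hP : P.ok) (hl : ¬ InB P loc) : FGood P h474 :=
  frun_good hP hl T_474 f0
theorem G_473 (hP : P.ok) (hl : ¬ InB P loc) : FGood P h473 :=
  frun_good hP hl T_473 f0
theorem G_472 (hP : P.ok) (hl : ¬ InB P loc) : FGood P h472 :=
  frun_good hP hl T_472 f0
theorem G_471 (hP : P.ok) (hl : ¬ InB P loc) : FGood P h471 :=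
  frun_good hP hl T_471 f0
theorem G_470 (hP : P.ok) (hl : ¬ InB P loc) : FGood P h470 :=
  frun_good hP hl T_470 f0
theorem G_469 (hP : P.ok) (hl : ¬ InB P loc) : FGood P h469 :=
  frun_good hP hl T_469 f0
theorem G_468 (hP : P.ok) (hl : ¬ InB P loc) : FGood P h468 :=
  frun_good hP hl T_468 f0
theorem G_467 (hP : P.ok) (hl : ¬ InB P loc) : FGood P h467 :=
  frun_good hP hl T_467 f0
theorem G_466 (hP : P.ok) (hl : ¬ InB P loc) : FGood P h466 :=
  frun_good hP hl T_466 f0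
theorem G_465 (hP : P.ok) (hl : ¬ InB P loc) : FGood P h465 :=
  frun_good hP hl T_465 f0
theorem G_464 (hP : P.ok) (hl : ¬ InB P loc) : FGood P h464 :=
  frun_good hP hl T_464 f0
theorem G_463 (hP : P.ok) (hl : ¬ InB P loc) : FGood P h463 :=
  frun_good hP hl T_463 f0
theorem G_462 (hP : P.ok) (hl : ¬ InB P loc) : FGood P h462 :=
  frun_good hP hl T_462 f0
theorem G_461 (hP : P.ok) (hl : ¬ InB P loc) : FGood P h461 :=
  frun_good hP hl T_461 f0
theorem G_460 (hP : P.ok) (hl : ¬ InB P loc) : FGood P h460 :=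
  frun_good hP hl T_460 f0
theorem G_459 (hP : P.ok) (hl : ¬ InB P loc) : FGood P h459 :=
  frun_good hP hl T_459 f0
theorem G_458 (hP : P.ok) (hl : ¬ InB P loc) : FGood P h458 :=
  frun_good hP hl T_458 f0
theorem G_457 (hP : P.ok) (hl : ¬ InB P loc) : FGood P h457 :=
  frun_good hP hl T_457 f0
theorem G_456 (hP : P.ok) (hl : ¬ InB P loc) : FGood P h456 :=
  frun_good hP hl T_456 f0
theorem G_455 (hP : P.ok) (hl : ¬ InB P loc) : FGood P h455 :=
  frun_good hP hl T_455 f0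
theorem G_454 (hP : P.ok) (hl : ¬ InB P loc) : FGood P h454 :=
  frun_good hP hl T_454 f0
theorem G_453 (hP : P.ok) (hl : ¬ InB P loc) : FGood P h453 :=
  frun_good hP hl T_453 (fc (G_460 hP hl) (fc (G_461 hP hl) (fc (G_462 hP hl) (fc (G_463 hP hl) (fc (G_464 hP hl) (fc (G_465 hP hl) (fc (G_466 hP hl) (fc (G_467 hP hl) (fc (G_468 hP hl) (fc (G_469 hP hl) (fc (G_470 hP hl) (fc (G_471 hP hl) (fc (G_472 hP hl) (fc (G_473 hP hl) (fc (G_474 hP hl) (fc (G_475 hP hl) (fc (G_476 hP hl) f0)))))))))))))))))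
theorem G_452 (hP : P.ok) (hl : ¬ InB P loc) : FGood P h452 :=
  frun_good hP hl T_452 f0
theorem G_451 (hP : P.ok) (hl : ¬ InB P loc) : FGood P h451 :=
  frun_good hP hl T_451 f0
theorem G_450 (hP : P.ok) (hl : ¬ InB P loc) : FGood P h450 :=
  frun_good hP hl T_450 f0
theorem G_449 (hP : P.ok) (hl : ¬ InB P loc) : FGood P h449 :=
  frun_good hP hl T_449 f0
theorem G_448 (hP : P.ok) (hl : ¬ InB P loc) : FGood P h448 :=
  frun_good hP hl T_448 f0
theorem G_447 (hP : P.ok) (hl : ¬ InB P loc) : FGood P h447 :=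
  frun_good hP hl T_447 f0
theorem G_446 (hP : P.ok) (hl : ¬ InB P loc) : FGood P h446 :=
  frun_good hP hl T_446 f0
theorem G_445 (hP : P.ok) (hl : ¬ InB P loc) : FGood P h445 :=
  frun_good hP hl T_445 f0
theorem G_444 (hP : P.ok) (hl : ¬ InB P loc) : FGood P h444 :=
  frun_good hP hl T_444 f0
theorem G_443 (hP : P.ok) (hl : ¬ InB P loc) : FGood P h443 :=
  frun_good hP hl T_443 (fc (G_453 hP hl) (fc (G_454 hP hl) (fc (G_455 hP hl) (fc (G_456 hP hl) (fc (G_457 hP hl) (fc (G_458 hP hl) (fc (G_459 hP hl) f0)))))))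
theorem G_442 (hP : P.ok) (hl : ¬ InB P loc) : FGood P h442 :=
  frun_good hP hl T_442 (fc (G_443 hP hl) (fc (G_444 hP hl) (fc (G_445 hP hl) (fc (G_446 hP hl) (fc (G_447 hP hl) (fc (G_448 hP hl) (fc (G_449 hP hl) (fc (G_450 hP hl) (fc (G_451 hP hl) (fc (G_452 hP hl) f0))))))))))
theorem G_441 (hP : P.ok) (hl : ¬ InB P loc) : FGood P h441 :=
  frun_good hP hl T_441 f0
theorem G_440 (hP : P.ok) (hl : ¬ InB P loc) : FGood P h440 :=
  frun_good hP hl T_440 f0
theorem G_439 (hP : P.ok) (hl : ¬ InB P loc) : FGood P h439 :=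
  frun_good hP hl T_439 f0
theorem G_438 (hP : P.ok) (hl : ¬ InB P loc) : FGood P h438 :=
  frun_good hP hl T_438 f0
theorem G_437 (hP : P.ok) (hl : ¬ InB P loc) : FGood P h437 :=
  frun_good hP hl T_437 f0
theorem G_436 (hP : P.ok) (hl : ¬ InB P loc) : FGood P h436 :=
  frun_good hP hl T_436 f0
theorem G_435 (hP : P.ok) (hl : ¬ InB P loc) : FGood P h435 :=
  frun_good hP hl T_435 f0
theorem G_434 (hP : P.ok) (hl : ¬ InB P loc) : FGood P h434 :=
  frun_good hP hl T_434 f0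
theorem G_433 (hP : P.ok) (hl : ¬ InB P loc) : FGood P h433 :=
  frun_good hP hl T_433 f0
theorem G_432 (hP : P.ok) (hl : ¬ InB P loc) : FGood P h432 :=
  frun_good hP hl T_432 f0
theorem G_431 (hP : P.ok) (hl : ¬ InB P loc) : FGood P h431 :=
  frun_good hP hl T_431 f0
theorem G_430 (hP : P.ok) (hl : ¬ InB P loc) : FGood P h430 :=
  frun_good hP hl T_430 f0
theorem G_429 (hP : P.ok) (hl : ¬ InB P loc) : FGood P h429 :=
  frun_good hP hl T_429 f0
theorem G_428 (hP : P.ok) (hl : ¬ InB P loc) : FGood P h428 :=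
  frun_good hP hl T_428 f0
theorem G_427 (hP : P.ok) (hl : ¬ InB P loc) : FGood P h427 :=
  frun_good hP hl T_427 f0
theorem G_426 (hP : P.ok) (hl : ¬ InB P loc) : FGood P h426 :=
  frun_good hP hl T_426 f0
theorem G_425 (hP : P.ok) (hl : ¬ InB P loc) : FGood P h425 :=
  frun_good hP hl T_425 f0
theorem G_424 (hP : P.ok) (hl : ¬ InB P loc) : FGood P h424 :=
  frun_good hP hl T_424 (fc (G_425 hP hl) (fc (G_426 hP hl) (fc (G_427 hP hl) (fc (G_428 hP hl) (fc (G_429 hP hl) (fc (G_430 hP hl) (fc (G_431 hP hl) (fc (G_432 hP hl) (fc (G_433 hP hl) (fc (G_434 hP hl) (fc (G_435 hP hl) (fc (G_436 hP hl) (fc (G_437 hP hl) (fc (G_438 hP hl) (fc (G_439 hP hl) (fc (G_440 hP hl) (fc (G_441 hP hl) f0)))))))))))))))))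
theorem G_423 (hP : P.ok) (hl : ¬ InB P loc) : FGood P h423 :=
  frun_good hP hl T_423 f0
theorem G_422 (hP : P.ok) (hl : ¬ InB P loc) : FGood P h422 :=
  frun_good hP hl T_422 (fc (G_423 hP hl) f0)
theorem G_421 (hP : P.ok) (hl : ¬ InB P loc) : FGood P h421 :=
  frun_good hP hl T_421 f0
theorem G_420 (hP : P.ok) (hl : ¬ InB P loc) : FGood P h420 :=
  frun_good hP hl T_420 (fc (G_421 hP hl) f0)
theorem G_419 (hP : P.ok) (hl : ¬ InB P loc) : FGood P h419 :=
  frun_good hP hl T_419 f0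
theorem G_418 (hP : P.ok) (hl : ¬ InB P loc) : FGood P h418 :=
  frun_good hP hl T_418 f0
theorem G_417 (hP : P.ok) (hl : ¬ InB P loc) : FGood P h417 :=
  frun_good hP hl T_417 f0
theorem G_416 (hP : P.ok) (hl : ¬ InB P loc) : FGood P h416 :=
  frun_good hP hl T_416 f0
theorem G_415 (hP : P.ok) (hl : ¬ InB P loc) : FGood P h415 :=
  frun_good hP hl T_415 (fc (G_420 hP hl) f0)
theorem G_414 (hP : P.ok) (hl : ¬ InB P loc) : FGood P h414 :=
  frun_good hP hl T_414 (fc (G_416 hP hl) (fc (G_417 hP hl) (fc (G_418 hP hl) (fc (G_419 hP hl) f0))))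
theorem G_413 (hP : P.ok) (hl : ¬ InB P loc) : FGood P h413 :=
  frun_good hP hl T_413 (fc (G_414 hP hl) (fc (G_415 hP hl) f0))
theorem G_412 (hP : P.ok) (hl : ¬ InB P loc) : FGood P h412 :=
  frun_good hP hl T_412 f0
theorem G_411 (hP : P.ok) (hl : ¬ InB P loc) : FGood P h411 :=
  frun_good hP hl T_411 f0
theorem G_410 (hP : P.ok) (hl : ¬ InB P loc) : FGood P h410 :=
  frun_good hP hl T_410 f0
theorem G_409 (hP : P.ok) (hl : ¬ InB P loc) : FGood P h409 :=
  frun_good hP hl T_409 (fc (G_412 hP hl) f0)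
theorem G_408 (hP : P.ok) (hl : ¬ InB P loc) : FGood P h408 :=
  frun_good hP hl T_408 (fc (G_410 hP hl) (fc (G_411 hP hl) f0))
theorem G_407 (hP : P.ok) (hl : ¬ InB P loc) : FGood P h407 :=
  frun_good hP hl T_407 (fc (G_408 hP hl) (fc (G_409 hP hl) f0))
theorem G_406 (hP : P.ok) (hl : ¬ InB P loc) : FGood P h406 :=
  frun_good hP hl T_406 f0

end

end Pool.Agent.Lib.MP_9d820d_co.Fast.A
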