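import Pool.Agent.Lib.MP_9d820d_co.FMain
import Pool.Agent.Lib.MP_9d820d_co.G.AC14
import Pool.Agent.Lib.MP_9d820d_co.G.AC15
import Pool.Agent.Lib.MP_9d820d_co.G.AC16
import Pool.Agent.Lib.MP_9d820d_co.G.AC17
import Pool.Agent.Lib.MP_9d820d_co.G.AC18
import Pool.Agent.Lib.MP_9d820d_co.G.AC19
import Pool.Agent.Lib.MP_9d820d_co.G.AC20
import Pool.Agent.Lib.MP_9d820d_co.G.AC21
import Pool.Agent.Lib.MP_9d820d_co.G.AC22
import Pool.Agent.Lib.MP_9d820d_co.G.AC23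

set_option autoImplicit false

namespace Pool.Agent.Lib.MP_9d820d_co.Fast.A

noncomputable section

variable {P : Prm}

theorem G_1413 (hP : P.ok) (hl : ¬ InB P loc) : FGood P h1413 :=
  frun_good hP hl T_1413 f0
theorem G_1412 (hP : P.ok) (hl : ¬ InB P loc) : FGood P h1412 :=
  frun_good hP hl T_1412 f0
theorem G_1411 (hP : P.ok) (hl : ¬ InB P loc) : FGood P h1411 :=
  frun_good hP hl T_1411 f0
theorem G_1410 (hP : P.ok) (hl : ¬ InB P loc) : FGood P h1410 :=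
  frun_good hP hl T_1410 (fc (G_1411 hP hl) (fc (G_1412 hP hl) (fc (G_1413 hP hl) f0)))
theorem G_1409 (hP : P.ok) (hl : ¬ InB P loc) : FGood P h1409 :=
  frun_good hP hl T_1409 f0
theorem G_1408 (hP : P.ok) (hl : ¬ InB P loc) : FGood P h1408 :=
  frun_good hP hl T_1408 (fc (G_1409 hP hl) f0)
theorem G_1407 (hP : P.ok) (hl : ¬ InB P loc) : FGood P h1407 :=
  frun_good hP hl T_1407 f0
theorem G_1406 (hP : P.ok) (hl : ¬ InB P loc) : FGood P h1406 :=
  frun_good hP hl T_1406 (fc (G_1407 hP hl) (fc (G_1408 hP hl) f0))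
theorem G_1405 (hP : P.ok) (hl : ¬ InB P loc) : FGood P h1405 :=
  frun_good hP hl T_1405 (fc (G_1406 hP hl) f0)
theorem G_1404 (hP : P.ok) (hl : ¬ InB P loc) : FGood P h1404 :=
  frun_good hP hl T_1404 f0
theorem G_1403 (hP : P.ok) (hl : ¬ InB P loc) : FGood P h1403 :=
  frun_good hP hl T_1403 (fc (G_1404 hP hl) f0)
theorem G_1402 (hP : P.ok) (hl : ¬ InB P loc) : FGood P h1402 :=
  frun_good hP hl T_1402 f0
theorem G_1401 (hP : P.ok) (hl : ¬ InB P loc) : FGood P h1401 :=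
  frun_good hP hl T_1401 (fc (G_1402 hP hl) f0)
theorem G_1400 (hP : P.ok) (hl : ¬ InB P loc) : FGood P h1400 :=
  frun_good hP hl T_1400 f0
theorem G_1399 (hP : P.ok) (hl : ¬ InB P loc) : FGood P h1399 :=
  frun_good hP hl T_1399 f0
theorem G_1398 (hP : P.ok) (hl : ¬ InB P loc) : FGood P h1398 :=
  frun_good hP hl T_1398 f0
theorem G_1397 (hP : P.ok) (hl : ¬ InB P loc) : FGood P h1397 :=
  frun_good hP hl T_1397 f0
theorem G_1396 (hP : P.ok) (hl : ¬ InB P loc) : FGood P h1396 :=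
  frun_good hP hl T_1396 f0
theorem G_1395 (hP : P.ok) (hl : ¬ InB P loc) : FGood P h1395 :=
  frun_good hP hl T_1395 f0
theorem G_1394 (hP : P.ok) (hl : ¬ InB P loc) : FGood P h1394 :=
  frun_good hP hl T_1394 f0
theorem G_1393 (hP : P.ok) (hl : ¬ InB P loc) : FGood P h1393 :=
  frun_good hP hl T_1393 f0
theorem G_1392 (hP : P.ok) (hl : ¬ InB P loc) : FGood P h1392 :=
  frun_good hP hl T_1392 f0
theorem G_1391 (hP : P.ok) (hl : ¬ InB P loc) : FGood P h1391 :=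
  frun_good hP hl T_1391 (fc (G_1392 hP hl) (fc (G_1393 hP hl) (fc (G_1394 hP hl) (fc (G_1395 hP hl) (fc (G_1396 hP hl) (fc (G_1397 hP hl) (fc (G_1398 hP hl) (fc (G_1399 hP hl) (fc (G_1400 hP hl) (fc (G_1401 hP hl) f0))))))))))
theorem G_1390 (hP : P.ok) (hl : ¬ InB P loc) : FGood P h1390 :=
  frun_good hP hl T_1390 f0
theorem G_1389 (hP : P.ok) (hl : ¬ InB P loc) : FGood P h1389 :=
  frun_good hP hl T_1389 (fc (G_1390 hP hl) f0)
theorem G_1388 (hP : P.ok) (hl : ¬ InB P loc) : FGood P h1388 :=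
  frun_good hP hl T_1388 f0
theorem G_1387 (hP : P.ok) (hl : ¬ InB P loc) : FGood P h1387 :=
  frun_good hP hl T_1387 f0
theorem G_1386 (hP : P.ok) (hl : ¬ InB P loc) : FGood P h1386 :=
  frun_good hP hl T_1386 f0
theorem G_1385 (hP : P.ok) (hl : ¬ InB P loc) : FGood P h1385 :=
  frun_good hP hl T_1385 (fc (G_1386 hP hl) f0)
theorem G_1384 (hP : P.ok) (hl : ¬ InB P loc) : FGood P h1384 :=
  frun_good hP hl T_1384 f0
theorem G_1383 (hP : P.ok) (hl : ¬ InB P loc) : FGood P h1383 :=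
  frun_good hP hl T_1383 f0
theorem G_1382 (hP : P.ok) (hl : ¬ InB P loc) : FGood P h1382 :=
  frun_good hP hl T_1382 f0
theorem G_1381 (hP : P.ok) (hl : ¬ InB P loc) : FGood P h1381 :=
  frun_good hP hl T_1381 (fc (G_1384 hP hl) f0)
theorem G_1380 (hP : P.ok) (hl : ¬ InB P loc) : FGood P h1380 :=
  frun_good hP hl T_1380 (fc (G_1381 hP hl) (fc (G_1382 hP hl) (fc (G_1383 hP hl) f0)))
theorem G_1379 (hP : P.ok) (hl : ¬ InB P loc) : FGood P h1379 :=
  frun_good hP hl T_1379 f0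
theorem G_1378 (hP : P.ok) (hl : ¬ InB P loc) : FGood P h1378 :=
  frun_good hP hl T_1378 f0
theorem G_1377 (hP : P.ok) (hl : ¬ InB P loc) : FGood P h1377 :=
  frun_good hP hl T_1377 f0
theorem G_1376 (hP : P.ok) (hl : ¬ InB P loc) : FGood P h1376 :=
  frun_good hP hl T_1376 f0
theorem G_1375 (hP : P.ok) (hl : ¬ InB P loc) : FGood P h1375 :=
  frun_good hP hl T_1375 f0
theorem G_1374 (hP : P.ok) (hl : ¬ InB P loc) : FGood P h1374 :=
  frun_good hP hl T_1374 f0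
theorem G_1373 (hP : P.ok) (hl : ¬ InB P loc) : FGood P h1373 :=
  frun_good hP hl T_1373 (fc (G_1375 hP hl) (fc (G_1376 hP hl) (fc (G_1377 hP hl) f0)))
theorem G_1372 (hP : P.ok) (hl : ¬ InB P loc) : FGood P h1372 :=
  frun_good hP hl T_1372 f0
theorem G_1371 (hP : P.ok) (hl : ¬ InB P loc) : FGood P h1371 :=
  frun_good hP hl T_1371 (fc (G_1373 hP hl) (fc (G_1374 hP hl) f0))
theorem G_1370 (hP : P.ok) (hl : ¬ InB P loc) : FGood P h1370 :=
  frun_good hP hl T_1370 f0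
theorem G_1369 (hP : P.ok) (hl : ¬ InB P loc) : FGood P h1369 :=
  frun_good hP hl T_1369 (fc (G_1370 hP hl) (fc (G_1371 hP hl) (fc (G_1372 hP hl) f0)))
theorem G_1368 (hP : P.ok) (hl : ¬ InB P loc) : FGood P h1368 :=
  frun_good hP hl T_1368 f0
theorem G_1367 (hP : P.ok) (hl : ¬ InB P loc) : FGood P h1367 :=
  frun_good hP hl T_1367 f0
theorem G_1366 (hP : P.ok) (hl : ¬ InB P loc) : FGood P h1366 :=
  frun_good hP hl T_1366 f0
theorem G_1365 (hP : P.ok) (hl : ¬ InB P loc) : FGood P h1365 :=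
  frun_good hP hl T_1365 f0
theorem G_1364 (hP : P.ok) (hl : ¬ InB P loc) : FGood P h1364 :=
  frun_good hP hl T_1364 (fc (G_1368 hP hl) f0)
theorem G_1363 (hP : P.ok) (hl : ¬ InB P loc) : FGood P h1363 :=
  frun_good hP hl T_1363 (fc (G_1366 hP hl) (fc (G_1367 hP hl) f0))
theorem G_1362 (hP : P.ok) (hl : ¬ InB P loc) : FGood P h1362 :=
  frun_good hP hl T_1362 (fc (G_1363 hP hl) (fc (G_1364 hP hl) (fc (G_1365 hP hl) f0)))
theorem G_1361 (hP : P.ok) (hl : ¬ InB P loc) : FGood P h1361 :=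
  frun_good hP hl T_1361 (fc (G_1362 hP hl) f0)
theorem G_1360 (hP : P.ok) (hl : ¬ InB P loc) : FGood P h1360 :=
  frun_good hP hl T_1360 (fc (G_1361 hP hl) f0)
theorem G_1359 (hP : P.ok) (hl : ¬ InB P loc) : FGood P h1359 :=
  frun_good hP hl T_1359 f0
theorem G_1358 (hP : P.ok) (hl : ¬ InB P loc) : FGood P h1358 :=
  frun_good hP hl T_1358 f0
theorem G_1357 (hP : P.ok) (hl : ¬ InB P loc) : FGood P h1357 :=
  frun_good hP hl T_1357 (fc (G_1358 hP hl) f0)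
theorem G_1356 (hP : P.ok) (hl : ¬ InB P loc) : FGood P h1356 :=
  frun_good hP hl T_1356 f0
theorem G_1355 (hP : P.ok) (hl : ¬ InB P loc) : FGood P h1355 :=
  frun_good hP hl T_1355 f0
theorem G_1354 (hP : P.ok) (hl : ¬ InB P loc) : FGood P h1354 :=
  frun_good hP hl T_1354 f0
theorem G_1353 (hP : P.ok) (hl : ¬ InB P loc) : FGood P h1353 :=
  frun_good hP hl T_1353 (fc (G_1354 hP hl) (fc (G_1355 hP hl) (fc (G_1356 hP hl) (fc (G_1357 hP hl) f0))))
theorem G_1352 (hP : P.ok) (hl : ¬ InB P loc) : FGood P h1352 :=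
  frun_good hP hl T_1352 f0
theorem G_1351 (hP : P.ok) (hl : ¬ InB P loc) : FGood P h1351 :=
  frun_good hP hl T_1351 (fc (G_1353 hP hl) f0)
theorem G_1350 (hP : P.ok) (hl : ¬ InB P loc) : FGood P h1350 :=
  frun_good hP hl T_1350 (fc (G_1351 hP hl) (fc (G_1352 hP hl) f0))
theorem G_1349 (hP : P.ok) (hl : ¬ InB P loc) : FGood P h1349 :=
  frun_good hP hl T_1349 f0
theorem G_1348 (hP : P.ok) (hl : ¬ InB P loc) : FGood P h1348 :=
  frun_good hP hl T_1348 f0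
theorem G_1347 (hP : P.ok) (hl : ¬ InB P loc) : FGood P h1347 :=
  frun_good hP hl T_1347 f0
theorem G_1346 (hP : P.ok) (hl : ¬ InB P loc) : FGood P h1346 :=
  frun_good hP hl T_1346 f0
theorem G_1345 (hP : P.ok) (hl : ¬ InB P loc) : FGood P h1345 :=
  frun_good hP hl T_1345 (fc (G_1346 hP hl) f0)
theorem G_1344 (hP : P.ok) (hl : ¬ InB P loc) : FGood P h1344 :=
  frun_good hP hl T_1344 (fc (G_1345 hP hl) f0)
theorem G_1343 (hP : P.ok) (hl : ¬ InB P loc) : FGood P h1343 :=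
  frun_good hP hl T_1343 f0
theorem G_1342 (hP : P.ok) (hl : ¬ InB P loc) : FGood P h1342 :=
  frun_good hP hl T_1342 f0
theorem G_1341 (hP : P.ok) (hl : ¬ InB P loc) : FGood P h1341 :=
  frun_good hP hl T_1341 f0
theorem G_1340 (hP : P.ok) (hl : ¬ InB P loc) : FGood P h1340 :=
  frun_good hP hl T_1340 (fc (G_1342 hP hl) (fc (G_1343 hP hl) f0))
theorem G_1339 (hP : P.ok) (hl : ¬ InB P loc) : FGood P h1339 :=
  frun_good hP hl T_1339 f0
theorem G_1338 (hP : P.ok) (hl : ¬ InB P loc) : FGood P h1338 :=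
  frun_good hP hl T_1338 (fc (G_1341 hP hl) f0)
theorem G_1337 (hP : P.ok) (hl : ¬ InB P loc) : FGood P h1337 :=
  frun_good hP hl T_1337 (fc (G_1338 hP hl) (fc (G_1339 hP hl) (fc (G_1340 hP hl) f0)))
theorem G_1336 (hP : P.ok) (hl : ¬ InB P loc) : FGood P h1336 :=
  frun_good hP hl T_1336 f0
theorem G_1335 (hP : P.ok) (hl : ¬ InB P loc) : FGood P h1335 :=
  frun_good hP hl T_1335 f0
theorem G_1334 (hP : P.ok) (hl : ¬ InB P loc) : FGood P h1334 :=
  frun_good hP hl T_1334 (fc (G_1336 hP hl) f0)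
theorem G_1333 (hP : P.ok) (hl : ¬ InB P loc) : FGood P h1333 :=
  frun_good hP hl T_1333 f0
theorem G_1332 (hP : P.ok) (hl : ¬ InB P loc) : FGood P h1332 :=
  frun_good hP hl T_1332 f0
theorem G_1331 (hP : P.ok) (hl : ¬ InB P loc) : FGood P h1331 :=
  frun_good hP hl T_1331 (fc (G_1334 hP hl) (fc (G_1335 hP hl) f0))
theorem G_1330 (hP : P.ok) (hl : ¬ InB P loc) : FGood P h1330 :=
  frun_good hP hl T_1330 (fc (G_1331 hP hl) (fc (G_1332 hP hl) (fc (G_1333 hP hl) f0)))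
theorem G_1329 (hP : P.ok) (hl : ¬ InB P loc) : FGood P h1329 :=
  frun_good hP hl T_1329 (fc (G_1330 hP hl) f0)
theorem G_1328 (hP : P.ok) (hl : ¬ InB P loc) : FGood P h1328 :=
  frun_good hP hl T_1328 f0
theorem G_1327 (hP : P.ok) (hl : ¬ InB P loc) : FGood P h1327 :=
  frun_good hP hl T_1327 f0
theorem G_1326 (hP : P.ok) (hl : ¬ InB P loc) : FGood P h1326 :=
  frun_good hP hl T_1326 f0
theorem G_1325 (hP : P.ok) (hl : ¬ InB P loc) : FGood P h1325 :=
  frun_good hP hl T_1325 (fc (G_1327 hP hl) (fc (G_1328 hP hl) f0))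
theorem G_1324 (hP : P.ok) (hl : ¬ InB P loc) : FGood P h1324 :=
  frun_good hP hl T_1324 (fc (G_1325 hP hl) (fc (G_1326 hP hl) f0))
theorem G_1323 (hP : P.ok) (hl : ¬ InB P loc) : FGood P h1323 :=
  frun_good hP hl T_1323 f0
theorem G_1322 (hP : P.ok) (hl : ¬ InB P loc) : FGood P h1322 :=
  frun_good hP hl T_1322 f0
theorem G_1321 (hP : P.ok) (hl : ¬ InB P loc) : FGood P h1321 :=
  frun_good hP hl T_1321 f0
theorem G_1320 (hP : P.ok) (hl : ¬ InB P loc) : FGood P h1320 :=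
  frun_good hP hl T_1320 (fc (G_1321 hP hl) (fc (G_1322 hP hl) f0))
theorem G_1319 (hP : P.ok) (hl : ¬ InB P loc) : FGood P h1319 :=
  frun_good hP hl T_1319 f0
theorem G_1318 (hP : P.ok) (hl : ¬ InB P loc) : FGood P h1318 :=
  frun_good hP hl T_1318 f0
theorem G_1317 (hP : P.ok) (hl : ¬ InB P loc) : FGood P h1317 :=
  frun_good hP hl T_1317 f0
theorem G_1316 (hP : P.ok) (hl : ¬ InB P loc) : FGood P h1316 :=
  frun_good hP hl T_1316 f0
theorem G_1315 (hP : P.ok) (hl : ¬ InB P loc) : FGood P h1315 :=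
  frun_good hP hl T_1315 (fc (G_1317 hP hl) (fc (G_1318 hP hl) f0))
theorem G_1314 (hP : P.ok) (hl : ¬ InB P loc) : FGood P h1314 :=
  frun_good hP hl T_1314 f0
theorem G_1313 (hP : P.ok) (hl : ¬ InB P loc) : FGood P h1313 :=
  frun_good hP hl T_1313 (fc (G_1316 hP hl) f0)
theorem G_1312 (hP : P.ok) (hl : ¬ InB P loc) : FGood P h1312 :=
  frun_good hP hl T_1312 (fc (G_1313 hP hl) (fc (G_1314 hP hl) (fc (G_1315 hP hl) f0)))
theorem G_1311 (hP : P.ok) (hl : ¬ InB P loc) : FGood P h1311 :=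
  frun_good hP hl T_1311 f0
theorem G_1310 (hP : P.ok) (hl : ¬ InB P loc) : FGood P h1310 :=
  frun_good hP hl T_1310 f0
theorem G_1309 (hP : P.ok) (hl : ¬ InB P loc) : FGood P h1309 :=
  frun_good hP hl T_1309 f0
theorem G_1308 (hP : P.ok) (hl : ¬ InB P loc) : FGood P h1308 :=
  frun_good hP hl T_1308 (fc (G_1310 hP hl) f0)
theorem G_1307 (hP : P.ok) (hl : ¬ InB P loc) : FGood P h1307 :=
  frun_good hP hl T_1307 (fc (G_1309 hP hl) f0)
theorem G_1306 (hP : P.ok) (hl : ¬ InB P loc) : FGood P h1306 :=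
  frun_good hP hl T_1306 f0
theorem G_1305 (hP : P.ok) (hl : ¬ InB P loc) : FGood P h1305 :=
  frun_good hP hl T_1305 (fc (G_1306 hP hl) (fc (G_1307 hP hl) (fc (G_1308 hP hl) f0)))
theorem G_1304 (hP : P.ok) (hl : ¬ InB P loc) : FGood P h1304 :=
  frun_good hP hl T_1304 f0
theorem G_1303 (hP : P.ok) (hl : ¬ InB P loc) : FGood P h1303 :=
  frun_good hP hl T_1303 f0
theorem G_1302 (hP : P.ok) (hl : ¬ InB P loc) : FGood P h1302 :=
  frun_good hP hl T_1302 f0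
theorem G_1301 (hP : P.ok) (hl : ¬ InB P loc) : FGood P h1301 :=
  frun_good hP hl T_1301 f0
theorem G_1300 (hP : P.ok) (hl : ¬ InB P loc) : FGood P h1300 :=
  frun_good hP hl T_1300 f0
theorem G_1299 (hP : P.ok) (hl : ¬ InB P loc) : FGood P h1299 :=
  frun_good hP hl T_1299 f0
theorem G_1298 (hP : P.ok) (hl : ¬ InB P loc) : FGood P h1298 :=
  frun_good hP hl T_1298 (fc (G_1299 hP hl) (fc (G_1300 hP hl) (fc (G_1301 hP hl) (fc (G_1302 hP hl) (fc (G_1303 hP hl) (fc (G_1304 hP hl) f0))))))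
theorem G_1297 (hP : P.ok) (hl : ¬ InB P loc) : FGood P h1297 :=
  frun_good hP hl T_1297 f0
theorem G_1296 (hP : P.ok) (hl : ¬ InB P loc) : FGood P h1296 :=
  frun_good hP hl T_1296 f0
theorem G_1295 (hP : P.ok) (hl : ¬ InB P loc) : FGood P h1295 :=
  frun_good hP hl T_1295 (fc (G_1296 hP hl) (fc (G_1297 hP hl) f0))
theorem G_1294 (hP : P.ok) (hl : ¬ InB P loc) : FGood P h1294 :=
  frun_good hP hl T_1294 f0
theorem G_1293 (hP : P.ok) (hl : ¬ InB P loc) : FGood P h1293 :=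
  frun_good hP hl T_1293 f0
theorem G_1292 (hP : P.ok) (hl : ¬ InB P loc) : FGood P h1292 :=
  frun_good hP hl T_1292 f0
theorem G_1291 (hP : P.ok) (hl : ¬ InB P loc) : FGood P h1291 :=
  frun_good hP hl T_1291 f0
theorem G_1290 (hP : P.ok) (hl : ¬ InB P loc) : FGood P h1290 :=
  frun_good hP hl T_1290 f0
theorem G_1289 (hP : P.ok) (hl : ¬ InB P loc) : FGood P h1289 :=
  frun_good hP hl T_1289 f0
theorem G_1288 (hP : P.ok) (hl : ¬ InB P loc) : FGood P h1288 :=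
  frun_good hP hl T_1288 f0
theorem G_1287 (hP : P.ok) (hl : ¬ InB P loc) : FGood P h1287 :=
  frun_good hP hl T_1287 f0
theorem G_1286 (hP : P.ok) (hl : ¬ InB P loc) : FGood P h1286 :=
  frun_good hP hl T_1286 f0
theorem G_1285 (hP : P.ok) (hl : ¬ InB P loc) : FGood P h1285 :=
  frun_good hP hl T_1285 f0
theorem G_1284 (hP : P.ok) (hl : ¬ InB P loc) : FGood P h1284 :=
  frun_good hP hl T_1284 f0
theorem G_1283 (hP : P.ok) (hl : ¬ InB P loc) : FGood P h1283 :=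
  frun_good hP hl T_1283 f0
theorem G_1282 (hP : P.ok) (hl : ¬ InB P loc) : FGood P h1282 :=
  frun_good hP hl T_1282 f0
theorem G_1281 (hP : P.ok) (hl : ¬ InB P loc) : FGood P h1281 :=
  frun_good hP hl T_1281 (fc (G_1294 hP hl) f0)
theorem G_1280 (hP : P.ok) (hl : ¬ InB P loc) : FGood P h1280 :=
  frun_good hP hl T_1280 (fc (G_1281 hP hl) (fc (G_1282 hP hl) (fc (G_1283 hP hl) (fc (G_1284 hP hl) (fc (G_1285 hP hl) (fc (G_1286 hP hl) (fc (G_1287 hP hl) (fc (G_1288 hP hl) (fc (G_1289 hP hl) (fc (G_1290 hP hl) (fc (G_1291 hP hl) (fc (G_1292 hP hl) (fc (G_1293 hP hl) f0)))))))))))))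
theorem G_1279 (hP : P.ok) (hl : ¬ InB P loc) : FGood P h1279 :=
  frun_good hP hl T_1279 f0
theorem G_1278 (hP : P.ok) (hl : ¬ InB P loc) : FGood P h1278 :=
  frun_good hP hl T_1278 f0
theorem G_1277 (hP : P.ok) (hl : ¬ InB P loc) : FGood P h1277 :=
  frun_good hP hl T_1277 f0
theorem G_1276 (hP : P.ok) (hl : ¬ InB P loc) : FGood P h1276 :=
  frun_good hP hl T_1276 (fc (G_1277 hP hl) (fc (G_1278 hP hl) (fc (G_1279 hP hl) f0)))
theorem G_1275 (hP : P.ok) (hl : ¬ InB P loc) : FGood P h1275 :=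
  frun_good hP hl T_1275 f0
theorem G_1274 (hP : P.ok) (hl : ¬ InB P loc) : FGood P h1274 :=
  frun_good hP hl T_1274 f0
theorem G_1273 (hP : P.ok) (hl : ¬ InB P loc) : FGood P h1273 :=
  frun_good hP hl T_1273 f0
theorem G_1272 (hP : P.ok) (hl : ¬ InB P loc) : FGood P h1272 :=
  frun_good hP hl T_1272 f0
theorem G_1271 (hP : P.ok) (hl : ¬ InB P loc) : FGood P h1271 :=
  frun_good hP hl T_1271 f0
theorem G_1270 (hP : P.ok) (hl : ¬ InB P loc) : FGood P h1270 :=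
  frun_good hP hl T_1270 (fc (G_1271 hP hl) (fc (G_1272 hP hl) (fc (G_1273 hP hl) f0)))
theorem G_1269 (hP : P.ok) (hl : ¬ InB P loc) : FGood P h1269 :=
  frun_good hP hl T_1269 f0
theorem G_1268 (hP : P.ok) (hl : ¬ InB P loc) : FGood P h1268 :=
  frun_good hP hl T_1268 f0
theorem G_1267 (hP : P.ok) (hl : ¬ InB P loc) : FGood P h1267 :=
  frun_good hP hl T_1267 f0
theorem G_1266 (hP : P.ok) (hl : ¬ InB P loc) : FGood P h1266 :=
  frun_good hP hl T_1266 f0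
theorem G_1265 (hP : P.ok) (hl : ¬ InB P loc) : FGood P h1265 :=
  frun_good hP hl T_1265 f0
theorem G_1264 (hP : P.ok) (hl : ¬ InB P loc) : FGood P h1264 :=
  frun_good hP hl T_1264 f0
theorem G_1263 (hP : P.ok) (hl : ¬ InB P loc) : FGood P h1263 :=
  frun_good hP hl T_1263 f0
theorem G_1262 (hP : P.ok) (hl : ¬ InB P loc) : FGood P h1262 :=
  frun_good hP hl T_1262 f0
theorem G_1261 (hP : P.ok) (hl : ¬ InB P loc) : FGood P h1261 :=
  frun_good hP hl T_1261 f0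
theorem G_1260 (hP : P.ok) (hl : ¬ InB P loc) : FGood P h1260 :=
  frun_good hP hl T_1260 f0
theorem G_1259 (hP : P.ok) (hl : ¬ InB P loc) : FGood P h1259 :=
  frun_good hP hl T_1259 f0
theorem G_1258 (hP : P.ok) (hl : ¬ InB P loc) : FGood P h1258 :=
  frun_good hP hl T_1258 f0
theorem G_1257 (hP : P.ok) (hl : ¬ InB P loc) : FGood P h1257 :=
  frun_good hP hl T_1257 f0
theorem G_1256 (hP : P.ok) (hl : ¬ InB P loc) : FGood P h1256 :=
  frun_good hP hl T_1256 f0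
theorem G_1255 (hP : P.ok) (hl : ¬ InB P loc) : FGood P h1255 :=
  frun_good hP hl T_1255 f0
theorem G_1254 (hP : P.ok) (hl : ¬ InB P loc) : FGood P h1254 :=
  frun_good hP hl T_1254 f0
theorem G_1253 (hP : P.ok) (hl : ¬ InB P loc) : FGood P h1253 :=
  frun_good hP hl T_1253 f0
theorem G_1252 (hP : P.ok) (hl : ¬ InB P loc) : FGood P h1252 :=
  frun_good hP hl T_1252 f0
theorem G_1251 (hP : P.ok) (hl : ¬ InB P loc) : FGood P h1251 :=
  frun_good hP hl T_1251 f0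
theorem G_1250 (hP : P.ok) (hl : ¬ InB P loc) : FGood P h1250 :=
  frun_good hP hl T_1250 f0
theorem G_1249 (hP : P.ok) (hl : ¬ InB P loc) : FGood P h1249 :=
  frun_good hP hl T_1249 (fc (G_1250 hP hl) (fc (G_1251 hP hl) (fc (G_1252 hP hl) (fc (G_1253 hP hl) (fc (G_1254 hP hl) (fc (G_1255 hP hl) (fc (G_1256 hP hl) (fc (G_1257 hP hl) (fc (G_1258 hP hl) (fc (G_1259 hP hl) (fc (G_1260 hP hl) (fc (G_1261 hP hl) (fc (G_1262 hP hl) (fc (G_1263 hP hl) (fc (G_1264 hP hl) (fc (G_1265 hP hl) (fc (G_1266 hP hl) (fc (G_1267 hP hl) (fc (G_1268 hP hl) (fc (G_1269 hP hl) f0))))))))))))))))))))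
theorem G_1248 (hP : P.ok) (hl : ¬ InB P loc) : FGood P h1248 :=
  frun_good hP hl T_1248 f0
theorem G_1247 (hP : P.ok) (hl : ¬ InB P loc) : FGood P h1247 :=
  frun_good hP hl T_1247 f0
theorem G_1246 (hP : P.ok) (hl : ¬ InB P loc) : FGood P h1246 :=
  frun_good hP hl T_1246 f0
theorem G_1245 (hP : P.ok) (hl : ¬ InB P loc) : FGood P h1245 :=
  frun_good hP hl T_1245 f0
theorem G_1244 (hP : P.ok) (hl : ¬ InB P loc) : FGood P h1244 :=
  frun_good hP hl T_1244 f0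
theorem G_1243 (hP : P.ok) (hl : ¬ InB P loc) : FGood P h1243 :=
  frun_good hP hl T_1243 f0
theorem G_1242 (hP : P.ok) (hl : ¬ InB P loc) : FGood P h1242 :=
  frun_good hP hl T_1242 f0
theorem G_1241 (hP : P.ok) (hl : ¬ InB P loc) : FGood P h1241 :=
  frun_good hP hl T_1241 f0
theorem G_1240 (hP : P.ok) (hl : ¬ InB P loc) : FGood P h1240 :=
  frun_good hP hl T_1240 f0
theorem G_1239 (hP : P.ok) (hl : ¬ InB P loc) : FGood P h1239 :=
  frun_good hP hl T_1239 f0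
theorem G_1238 (hP : P.ok) (hl : ¬ InB P loc) : FGood P h1238 :=
  frun_good hP hl T_1238 f0
theorem G_1237 (hP : P.ok) (hl : ¬ InB P loc) : FGood P h1237 :=
  frun_good hP hl T_1237 f0
theorem G_1236 (hP : P.ok) (hl : ¬ InB P loc) : FGood P h1236 :=
  frun_good hP hl T_1236 f0
theorem G_1235 (hP : P.ok) (hl : ¬ InB P loc) : FGood P h1235 :=
  frun_good hP hl T_1235 f0
theorem G_1234 (hP : P.ok) (hl : ¬ InB P loc) : FGood P h1234 :=
  frun_good hP hl T_1234 f0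
theorem G_1233 (hP : P.ok) (hl : ¬ InB P loc) : FGood P h1233 :=
  frun_good hP hl T_1233 f0
theorem G_1232 (hP : P.ok) (hl : ¬ InB P loc) : FGood P h1232 :=
  frun_good hP hl T_1232 f0
theorem G_1231 (hP : P.ok) (hl : ¬ InB P loc) : FGood P h1231 :=
  frun_good hP hl T_1231 f0
theorem G_1230 (hP : P.ok) (hl : ¬ InB P loc) : FGood P h1230 :=
  frun_good hP hl T_1230 f0
theorem G_1229 (hP : P.ok) (hl : ¬ InB P loc) : FGood P h1229 :=
  frun_good hP hl T_1229 f0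
theorem G_1228 (hP : P.ok) (hl : ¬ InB P loc) : FGood P h1228 :=
  frun_good hP hl T_1228 f0
theorem G_1227 (hP : P.ok) (hl : ¬ InB P loc) : FGood P h1227 :=
  frun_good hP hl T_1227 f0
theorem G_1226 (hP : P.ok) (hl : ¬ InB P loc) : FGood P h1226 :=
  frun_good hP hl T_1226 f0
theorem G_1225 (hP : P.ok) (hl : ¬ InB P loc) : FGood P h1225 :=
  frun_good hP hl T_1225 f0
theorem G_1224 (hP : P.ok) (hl : ¬ InB P loc) : FGood P h1224 :=
  frun_good hP hl T_1224 (fc (G_1225 hP hl) (fc (G_1226 hP hl) (fc (G_1227 hP hl) (fc (G_1228 hP hl) (fc (G_1229 hP hl) (fc (G_1230 hP hl) (fc (G_1231 hP hl) (fc (G_1232 hP hl) (fc (G_1233 hP hl) (fc (G_1234 hP hl) (fc (G_1235 hP hl) (fc (G_1236 hP hl) (fc (G_1237 hP hl) (fc (G_1238 hP hl) (fc (G_1239 hP hl) f0)))))))))))))))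
theorem G_1223 (hP : P.ok) (hl : ¬ InB P loc) : FGood P h1223 :=
  frun_good hP hl T_1223 f0
theorem G_1222 (hP : P.ok) (hl : ¬ InB P loc) : FGood P h1222 :=
  frun_good hP hl T_1222 f0
theorem G_1221 (hP : P.ok) (hl : ¬ InB P loc) : FGood P h1221 :=
  frun_good hP hl T_1221 (fc (G_1223 hP hl) f0)
theorem G_1220 (hP : P.ok) (hl : ¬ InB P loc) : FGood P h1220 :=
  frun_good hP hl T_1220 f0
theorem G_1219 (hP : P.ok) (hl : ¬ InB P loc) : FGood P h1219 :=
  frun_good hP hl T_1219 (fc (G_1222 hP hl) f0)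
theorem G_1218 (hP : P.ok) (hl : ¬ InB P loc) : FGood P h1218 :=
  frun_good hP hl T_1218 (fc (G_1219 hP hl) (fc (G_1220 hP hl) (fc (G_1221 hP hl) f0)))
theorem G_1217 (hP : P.ok) (hl : ¬ InB P loc) : FGood P h1217 :=
  frun_good hP hl T_1217 (fc (G_1218 hP hl) f0)
theorem G_1216 (hP : P.ok) (hl : ¬ InB P loc) : FGood P h1216 :=
  frun_good hP hl T_1216 f0
theorem G_1215 (hP : P.ok) (hl : ¬ InB P loc) : FGood P h1215 :=
  frun_good hP hl T_1215 (fc (G_1216 hP hl) f0)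
theorem G_1214 (hP : P.ok) (hl : ¬ InB P loc) : FGood P h1214 :=
  frun_good hP hl T_1214 f0
theorem G_1213 (hP : P.ok) (hl : ¬ InB P loc) : FGood P h1213 :=
  frun_good hP hl T_1213 f0
theorem G_1212 (hP : P.ok) (hl : ¬ InB P loc) : FGood P h1212 :=
  frun_good hP hl T_1212 (fc (G_1213 hP hl) f0)
theorem G_1211 (hP : P.ok) (hl : ¬ InB P loc) : FGood P h1211 :=
  frun_good hP hl T_1211 f0
theorem G_1210 (hP : P.ok) (hl : ¬ InB P loc) : FGood P h1210 :=
  frun_good hP hl T_1210 f0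
theorem G_1209 (hP : P.ok) (hl : ¬ InB P loc) : FGood P h1209 :=
  frun_good hP hl T_1209 f0
theorem G_1208 (hP : P.ok) (hl : ¬ InB P loc) : FGood P h1208 :=
  frun_good hP hl T_1208 (fc (G_1211 hP hl) f0)
theorem G_1207 (hP : P.ok) (hl : ¬ InB P loc) : FGood P h1207 :=
  frun_good hP hl T_1207 f0
theorem G_1206 (hP : P.ok) (hl : ¬ InB P loc) : FGood P h1206 :=
  frun_good hP hl T_1206 (fc (G_1210 hP hl) f0)
theorem G_1205 (hP : P.ok) (hl : ¬ InB P loc) : FGood P h1205 :=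
  frun_good hP hl T_1205 (fc (G_1206 hP hl) (fc (G_1207 hP hl) (fc (G_1208 hP hl) (fc (G_1209 hP hl) f0))))
theorem G_1204 (hP : P.ok) (hl : ¬ InB P loc) : FGood P h1204 :=
  frun_good hP hl T_1204 f0
theorem G_1203 (hP : P.ok) (hl : ¬ InB P loc) : FGood P h1203 :=
  frun_good hP hl T_1203 f0
theorem G_1202 (hP : P.ok) (hl : ¬ InB P loc) : FGood P h1202 :=
  frun_good hP hl T_1202 f0
theorem G_1201 (hP : P.ok) (hl : ¬ InB P loc) : FGood P h1201 :=
  frun_good hP hl T_1201 f0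
theorem G_1200 (hP : P.ok) (hl : ¬ InB P loc) : FGood P h1200 :=
  frun_good hP hl T_1200 (fc (G_1201 hP hl) f0)
theorem G_1199 (hP : P.ok) (hl : ¬ InB P loc) : FGood P h1199 :=
  frun_good hP hl T_1199 f0
theorem G_1198 (hP : P.ok) (hl : ¬ InB P loc) : FGood P h1198 :=
  frun_good hP hl T_1198 f0
theorem G_1197 (hP : P.ok) (hl : ¬ InB P loc) : FGood P h1197 :=
  frun_good hP hl T_1197 (fc (G_1198 hP hl) (fc (G_1199 hP hl) f0))
theorem G_1196 (hP : P.ok) (hl : ¬ InB P loc) : FGood P h1196 :=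
  frun_good hP hl T_1196 f0
theorem G_1195 (hP : P.ok) (hl : ¬ InB P loc) : FGood P h1195 :=
  frun_good hP hl T_1195 f0
theorem G_1194 (hP : P.ok) (hl : ¬ InB P loc) : FGood P h1194 :=
  frun_good hP hl T_1194 (fc (G_1195 hP hl) f0)
theorem G_1193 (hP : P.ok) (hl : ¬ InB P loc) : FGood P h1193 :=
  frun_good hP hl T_1193 f0
theorem G_1192 (hP : P.ok) (hl : ¬ InB P loc) : FGood P h1192 :=
  frun_good hP hl T_1192 f0
theorem G_1191 (hP : P.ok) (hl : ¬ InB P loc) : FGood P h1191 :=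
  frun_good hP hl T_1191 (fc (G_1192 hP hl) (fc (G_1193 hP hl) f0))
theorem G_1190 (hP : P.ok) (hl : ¬ InB P loc) : FGood P h1190 :=
  frun_good hP hl T_1190 f0
theorem G_1189 (hP : P.ok) (hl : ¬ InB P loc) : FGood P h1189 :=
  frun_good hP hl T_1189 (fc (G_1190 hP hl) f0)
theorem G_1188 (hP : P.ok) (hl : ¬ InB P loc) : FGood P h1188 :=
  frun_good hP hl T_1188 f0
theorem G_1187 (hP : P.ok) (hl : ¬ InB P loc) : FGood P h1187 :=
  frun_good hP hl T_1187 f0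
theorem G_1186 (hP : P.ok) (hl : ¬ InB P loc) : FGood P h1186 :=
  frun_good hP hl T_1186 f0
theorem G_1185 (hP : P.ok) (hl : ¬ InB P loc) : FGood P h1185 :=
  frun_good hP hl T_1185 f0
theorem G_1184 (hP : P.ok) (hl : ¬ InB P loc) : FGood P h1184 :=
  frun_good hP hl T_1184 (fc (G_1186 hP hl) f0)
theorem G_1183 (hP : P.ok) (hl : ¬ InB P loc) : FGood P h1183 :=
  frun_good hP hl T_1183 f0
theorem G_1182 (hP : P.ok) (hl : ¬ InB P loc) : FGood P h1182 :=
  frun_good hP hl T_1182 (fc (G_1184 hP hl) (fc (G_1185 hP hl) f0))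
theorem G_1181 (hP : P.ok) (hl : ¬ InB P loc) : FGood P h1181 :=
  frun_good hP hl T_1181 f0
theorem G_1180 (hP : P.ok) (hl : ¬ InB P loc) : FGood P h1180 :=
  frun_good hP hl T_1180 f0
theorem G_1179 (hP : P.ok) (hl : ¬ InB P loc) : FGood P h1179 :=
  frun_good hP hl T_1179 (fc (G_1180 hP hl) (fc (G_1181 hP hl) (fc (G_1182 hP hl) (fc (G_1183 hP hl) f0))))
theorem G_1178 (hP : P.ok) (hl : ¬ InB P loc) : FGood P h1178 :=
  frun_good hP hl T_1178 f0
theorem G_1177 (hP : P.ok) (hl : ¬ InB P loc) : FGood P h1177 :=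
  frun_good hP hl T_1177 (fc (G_1178 hP hl) f0)
theorem G_1176 (hP : P.ok) (hl : ¬ InB P loc) : FGood P h1176 :=
  frun_good hP hl T_1176 f0
theorem G_1175 (hP : P.ok) (hl : ¬ InB P loc) : FGood P h1175 :=
  frun_good hP hl T_1175 f0
theorem G_1174 (hP : P.ok) (hl : ¬ InB P loc) : FGood P h1174 :=
  frun_good hP hl T_1174 f0
theorem G_1173 (hP : P.ok) (hl : ¬ InB P loc) : FGood P h1173 :=
  frun_good hP hl T_1173 (fc (G_1175 hP hl) f0)
theorem G_1172 (hP : P.ok) (hl : ¬ InB P loc) : FGood P h1172 :=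
  frun_good hP hl T_1172 (fc (G_1173 hP hl) (fc (G_1174 hP hl) f0))
theorem G_1171 (hP : P.ok) (hl : ¬ InB P loc) : FGood P h1171 :=
  frun_good hP hl T_1171 f0
theorem G_1170 (hP : P.ok) (hl : ¬ InB P loc) : FGood P h1170 :=
  frun_good hP hl T_1170 f0
theorem G_1169 (hP : P.ok) (hl : ¬ InB P loc) : FGood P h1169 :=
  frun_good hP hl T_1169 (fc (G_1170 hP hl) f0)
theorem G_1168 (hP : P.ok) (hl : ¬ InB P loc) : FGood P h1168 :=
  frun_good hP hl T_1168 (fc (G_1169 hP hl) f0)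
theorem G_1167 (hP : P.ok) (hl : ¬ InB P loc) : FGood P h1167 :=
  frun_good hP hl T_1167 f0
theorem G_1166 (hP : P.ok) (hl : ¬ InB P loc) : FGood P h1166 :=
  frun_good hP hl T_1166 f0
theorem G_1165 (hP : P.ok) (hl : ¬ InB P loc) : FGood P h1165 :=
  frun_good hP hl T_1165 f0
theorem G_1164 (hP : P.ok) (hl : ¬ InB P loc) : FGood P h1164 :=
  frun_good hP hl T_1164 f0
theorem G_1163 (hP : P.ok) (hl : ¬ InB P loc) : FGood P h1163 :=
  frun_good hP hl T_1163 f0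
theorem G_1162 (hP : P.ok) (hl : ¬ InB P loc) : FGood P h1162 :=
  frun_good hP hl T_1162 f0
theorem G_1161 (hP : P.ok) (hl : ¬ InB P loc) : FGood P h1161 :=
  frun_good hP hl T_1161 (fc (G_1162 hP hl) (fc (G_1163 hP hl) f0))
theorem G_1160 (hP : P.ok) (hl : ¬ InB P loc) : FGood P h1160 :=
  frun_good hP hl T_1160 f0
theorem G_1159 (hP : P.ok) (hl : ¬ InB P loc) : FGood P h1159 :=
  frun_good hP hl T_1159 (fc (G_1160 hP hl) f0)
theorem G_1158 (hP : P.ok) (hl : ¬ InB P loc) : FGood P h1158 :=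
  frun_good hP hl T_1158 (fc (G_1159 hP hl) f0)
theorem G_1157 (hP : P.ok) (hl : ¬ InB P loc) : FGood P h1157 :=
  frun_good hP hl T_1157 f0
theorem G_1156 (hP : P.ok) (hl : ¬ InB P loc) : FGood P h1156 :=
  frun_good hP hl T_1156 (fc (G_1157 hP hl) f0)
theorem G_1155 (hP : P.ok) (hl : ¬ InB P loc) : FGood P h1155 :=
  frun_good hP hl T_1155 f0
theorem G_1154 (hP : P.ok) (hl : ¬ InB P loc) : FGood P h1154 :=
  frun_good hP hl T_1154 (fc (G_1155 hP hl) f0)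
theorem G_1153 (hP : P.ok) (hl : ¬ InB P loc) : FGood P h1153 :=
  frun_good hP hl T_1153 f0
theorem G_1152 (hP : P.ok) (hl : ¬ InB P loc) : FGood P h1152 :=
  frun_good hP hl T_1152 f0
theorem G_1151 (hP : P.ok) (hl : ¬ InB P loc) : FGood P h1151 :=
  frun_good hP hl T_1151 f0
theorem G_1150 (hP : P.ok) (hl : ¬ InB P loc) : FGood P h1150 :=
  frun_good hP hl T_1150 (fc (G_1152 hP hl) f0)
theorem G_1149 (hP : P.ok) (hl : ¬ InB P loc) : FGood P h1149 :=
  frun_good hP hl T_1149 f0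
theorem G_1148 (hP : P.ok) (hl : ¬ InB P loc) : FGood P h1148 :=
  frun_good hP hl T_1148 f0
theorem G_1147 (hP : P.ok) (hl : ¬ InB P loc) : FGood P h1147 :=
  frun_good hP hl T_1147 (fc (G_1148 hP hl) (fc (G_1149 hP hl) (fc (G_1150 hP hl) (fc (G_1151 hP hl) f0))))
theorem G_1146 (hP : P.ok) (hl : ¬ InB P loc) : FGood P h1146 :=
  frun_good hP hl T_1146 f0
theorem G_1145 (hP : P.ok) (hl : ¬ InB P loc) : FGood P h1145 :=
  frun_good hP hl T_1145 (fc (G_1146 hP hl) f0)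
theorem G_1144 (hP : P.ok) (hl : ¬ InB P loc) : FGood P h1144 :=
  frun_good hP hl T_1144 f0
theorem G_1143 (hP : P.ok) (hl : ¬ InB P loc) : FGood P h1143 :=
  frun_good hP hl T_1143 f0
theorem G_1142 (hP : P.ok) (hl : ¬ InB P loc) : FGood P h1142 :=
  frun_good hP hl T_1142 (fc (G_1144 hP hl) f0)
theorem G_1141 (hP : P.ok) (hl : ¬ InB P loc) : FGood P h1141 :=
  frun_good hP hl T_1141 f0
theorem G_1140 (hP : P.ok) (hl : ¬ InB P loc) : FGood P h1140 :=
  frun_good hP hl T_1140 (fc (G_1141 hP hl) (fc (G_1142 hP hl) (fc (G_1143 hP hl) f0)))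
theorem G_1139 (hP : P.ok) (hl : ¬ InB P loc) : FGood P h1139 :=
  frun_good hP hl T_1139 (fc (G_1140 hP hl) f0)
theorem G_1138 (hP : P.ok) (hl : ¬ InB P loc) : FGood P h1138 :=
  frun_good hP hl T_1138 f0
theorem G_1137 (hP : P.ok) (hl : ¬ InB P loc) : FGood P h1137 :=
  frun_good hP hl T_1137 f0
theorem G_1136 (hP : P.ok) (hl : ¬ InB P loc) : FGood P h1136 :=
  frun_good hP hl T_1136 f0
theorem G_1135 (hP : P.ok) (hl : ¬ InB P loc) : FGood P h1135 :=
  frun_good hP hl T_1135 f0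
theorem G_1134 (hP : P.ok) (hl : ¬ InB P loc) : FGood P h1134 :=
  frun_good hP hl T_1134 f0
theorem G_1133 (hP : P.ok) (hl : ¬ InB P loc) : FGood P h1133 :=
  frun_good hP hl T_1133 f0
theorem G_1132 (hP : P.ok) (hl : ¬ InB P loc) : FGood P h1132 :=
  frun_good hP hl T_1132 (fc (G_1133 hP hl) (fc (G_1134 hP hl) f0))
theorem G_1131 (hP : P.ok) (hl : ¬ InB P loc) : FGood P h1131 :=
  frun_good hP hl T_1131 f0
theorem G_1130 (hP : P.ok) (hl : ¬ InB P loc) : FGood P h1130 :=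
  frun_good hP hl T_1130 (fc (G_1131 hP hl) (fc (G_1132 hP hl) f0))
theorem G_1129 (hP : P.ok) (hl : ¬ InB P loc) : FGood P h1129 :=
  frun_good hP hl T_1129 f0
theorem G_1128 (hP : P.ok) (hl : ¬ InB P loc) : FGood P h1128 :=
  frun_good hP hl T_1128 f0
theorem G_1127 (hP : P.ok) (hl : ¬ InB P loc) : FGood P h1127 :=
  frun_good hP hl T_1127 f0
theorem G_1126 (hP : P.ok) (hl : ¬ InB P loc) : FGood P h1126 :=
  frun_good hP hl T_1126 f0
theorem G_1125 (hP : P.ok) (hl : ¬ InB P loc) : FGood P h1125 :=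
  frun_good hP hl T_1125 (fc (G_1126 hP hl) (fc (G_1127 hP hl) f0))
theorem G_1124 (hP : P.ok) (hl : ¬ InB P loc) : FGood P h1124 :=
  frun_good hP hl T_1124 f0
theorem G_1123 (hP : P.ok) (hl : ¬ InB P loc) : FGood P h1123 :=
  frun_good hP hl T_1123 f0
theorem G_1122 (hP : P.ok) (hl : ¬ InB P loc) : FGood P h1122 :=
  frun_good hP hl T_1122 (fc (G_1123 hP hl) f0)
theorem G_1121 (hP : P.ok) (hl : ¬ InB P loc) : FGood P h1121 :=
  frun_good hP hl T_1121 f0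
theorem G_1120 (hP : P.ok) (hl : ¬ InB P loc) : FGood P h1120 :=
  frun_good hP hl T_1120 (fc (G_1121 hP hl) f0)
theorem G_1119 (hP : P.ok) (hl : ¬ InB P loc) : FGood P h1119 :=
  frun_good hP hl T_1119 f0
theorem G_1118 (hP : P.ok) (hl : ¬ InB P loc) : FGood P h1118 :=
  frun_good hP hl T_1118 (fc (G_1119 hP hl) f0)
theorem G_1117 (hP : P.ok) (hl : ¬ InB P loc) : FGood P h1117 :=
  frun_good hP hl T_1117 f0
theorem G_1116 (hP : P.ok) (hl : ¬ InB P loc) : FGood P h1116 :=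
  frun_good hP hl T_1116 (fc (G_1117 hP hl) (fc (G_1118 hP hl) f0))
theorem G_1115 (hP : P.ok) (hl : ¬ InB P loc) : FGood P h1115 :=
  frun_good hP hl T_1115 f0
theorem G_1114 (hP : P.ok) (hl : ¬ InB P loc) : FGood P h1114 :=
  frun_good hP hl T_1114 f0
theorem G_1113 (hP : P.ok) (hl : ¬ InB P loc) : FGood P h1113 :=
  frun_good hP hl T_1113 f0
theorem G_1112 (hP : P.ok) (hl : ¬ InB P loc) : FGood P h1112 :=
  frun_good hP hl T_1112 (fc (G_1114 hP hl) f0)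
theorem G_1111 (hP : P.ok) (hl : ¬ InB P loc) : FGood P h1111 :=
  frun_good hP hl T_1111 f0
theorem G_1110 (hP : P.ok) (hl : ¬ InB P loc) : FGood P h1110 :=
  frun_good hP hl T_1110 f0
theorem G_1109 (hP : P.ok) (hl : ¬ InB P loc) : FGood P h1109 :=
  frun_good hP hl T_1109 (fc (G_1112 hP hl) (fc (G_1113 hP hl) f0))
theorem G_1108 (hP : P.ok) (hl : ¬ InB P loc) : FGood P h1108 :=
  frun_good hP hl T_1108 (fc (G_1109 hP hl) (fc (G_1110 hP hl) (fc (G_1111 hP hl) f0)))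
theorem G_1107 (hP : P.ok) (hl : ¬ InB P loc) : FGood P h1107 :=
  frun_good hP hl T_1107 f0
theorem G_1106 (hP : P.ok) (hl : ¬ InB P loc) : FGood P h1106 :=
  frun_good hP hl T_1106 (fc (G_1107 hP hl) f0)
theorem G_1105 (hP : P.ok) (hl : ¬ InB P loc) : FGood P h1105 :=
  frun_good hP hl T_1105 (fc (G_1106 hP hl) f0)
theorem G_1104 (hP : P.ok) (hl : ¬ InB P loc) : FGood P h1104 :=
  frun_good hP hl T_1104 f0
theorem G_1103 (hP : P.ok) (hl : ¬ InB P loc) : FGood P h1103 :=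
  frun_good hP hl T_1103 (fc (G_1104 hP hl) f0)
theorem G_1102 (hP : P.ok) (hl : ¬ InB P loc) : FGood P h1102 :=
  frun_good hP hl T_1102 (fc (G_1103 hP hl) f0)
theorem G_1101 (hP : P.ok) (hl : ¬ InB P loc) : FGood P h1101 :=
  frun_good hP hl T_1101 (fc (G_1102 hP hl) f0)
theorem G_1100 (hP : P.ok) (hl : ¬ InB P loc) : FGood P h1100 :=
  frun_good hP hl T_1100 f0
theorem G_1099 (hP : P.ok) (hl : ¬ InB P loc) : FGood P h1099 :=
  frun_good hP hl T_1099 (fc (G_1100 hP hl) f0)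
theorem G_1098 (hP : P.ok) (hl : ¬ InB P loc) : FGood P h1098 :=
  frun_good hP hl T_1098 f0
theorem G_1097 (hP : P.ok) (hl : ¬ InB P loc) : FGood P h1097 :=
  frun_good hP hl T_1097 f0
theorem G_1096 (hP : P.ok) (hl : ¬ InB P loc) : FGood P h1096 :=
  frun_good hP hl T_1096 f0
theorem G_1095 (hP : P.ok) (hl : ¬ InB P loc) : FGood P h1095 :=
  frun_good hP hl T_1095 (fc (G_1098 hP hl) f0)
theorem G_1094 (hP : P.ok) (hl : ¬ InB P loc) : FGood P h1094 :=
  frun_good hP hl T_1094 f0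
theorem G_1093 (hP : P.ok) (hl : ¬ InB P loc) : FGood P h1093 :=
  frun_good hP hl T_1093 (fc (G_1096 hP hl) (fc (G_1097 hP hl) f0))
theorem G_1092 (hP : P.ok) (hl : ¬ InB P loc) : FGood P h1092 :=
  frun_good hP hl T_1092 (fc (G_1093 hP hl) (fc (G_1094 hP hl) (fc (G_1095 hP hl) f0)))
theorem G_1091 (hP : P.ok) (hl : ¬ InB P loc) : FGood P h1091 :=
  frun_good hP hl T_1091 f0
theorem G_1090 (hP : P.ok) (hl : ¬ InB P loc) : FGood P h1090 :=
  frun_good hP hl T_1090 f0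
theorem G_1089 (hP : P.ok) (hl : ¬ InB P loc) : FGood P h1089 :=
  frun_good hP hl T_1089 f0
theorem G_1088 (hP : P.ok) (hl : ¬ InB P loc) : FGood P h1088 :=
  frun_good hP hl T_1088 (fc (G_1090 hP hl) f0)
theorem G_1087 (hP : P.ok) (hl : ¬ InB P loc) : FGood P h1087 :=
  frun_good hP hl T_1087 f0
theorem G_1086 (hP : P.ok) (hl : ¬ InB P loc) : FGood P h1086 :=
  frun_good hP hl T_1086 (fc (G_1088 hP hl) (fc (G_1089 hP hl) f0))
theorem G_1085 (hP : P.ok) (hl : ¬ InB P loc) : FGood P h1085 :=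
  frun_good hP hl T_1085 (fc (G_1086 hP hl) (fc (G_1087 hP hl) f0))
theorem G_1084 (hP : P.ok) (hl : ¬ InB P loc) : FGood P h1084 :=
  frun_good hP hl T_1084 f0
theorem G_1083 (hP : P.ok) (hl : ¬ InB P loc) : FGood P h1083 :=
  frun_good hP hl T_1083 (fc (G_1084 hP hl) f0)
theorem G_1082 (hP : P.ok) (hl : ¬ InB P loc) : FGood P h1082 :=
  frun_good hP hl T_1082 f0
theorem G_1081 (hP : P.ok) (hl : ¬ InB P loc) : FGood P h1081 :=
  frun_good hP hl T_1081 f0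
theorem G_1080 (hP : P.ok) (hl : ¬ InB P loc) : FGood P h1080 :=
  frun_good hP hl T_1080 (fc (G_1083 hP hl) f0)
theorem G_1079 (hP : P.ok) (hl : ¬ InB P loc) : FGood P h1079 :=
  frun_good hP hl T_1079 (fc (G_1080 hP hl) (fc (G_1081 hP hl) (fc (G_1082 hP hl) f0)))
theorem G_1078 (hP : P.ok) (hl : ¬ InB P loc) : FGood P h1078 :=
  frun_good hP hl T_1078 f0
theorem G_1077 (hP : P.ok) (hl : ¬ InB P loc) : FGood P h1077 :=
  frun_good hP hl T_1077 f0
theorem G_1076 (hP : P.ok) (hl : ¬ InB P loc) : FGood P h1076 :=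
  frun_good hP hl T_1076 (fc (G_1077 hP hl) (fc (G_1078 hP hl) f0))
theorem G_1075 (hP : P.ok) (hl : ¬ InB P loc) : FGood P h1075 :=
  frun_good hP hl T_1075 f0
theorem G_1074 (hP : P.ok) (hl : ¬ InB P loc) : FGood P h1074 :=
  frun_good hP hl T_1074 f0
theorem G_1073 (hP : P.ok) (hl : ¬ InB P loc) : FGood P h1073 :=
  frun_good hP hl T_1073 (fc (G_1075 hP hl) f0)
theorem G_1072 (hP : P.ok) (hl : ¬ InB P loc) : FGood P h1072 :=
  frun_good hP hl T_1072 f0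
theorem G_1071 (hP : P.ok) (hl : ¬ InB P loc) : FGood P h1071 :=
  frun_good hP hl T_1071 (fc (G_1074 hP hl) f0)
theorem G_1070 (hP : P.ok) (hl : ¬ InB P loc) : FGood P h1070 :=
  frun_good hP hl T_1070 (fc (G_1073 hP hl) f0)
theorem G_1069 (hP : P.ok) (hl : ¬ InB P loc) : FGood P h1069 :=
  frun_good hP hl T_1069 (fc (G_1072 hP hl) f0)
theorem G_1068 (hP : P.ok) (hl : ¬ InB P loc) : FGood P h1068 :=
  frun_good hP hl T_1068 (fc (G_1069 hP hl) (fc (G_1070 hP hl) (fc (G_1071 hP hl) f0)))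
theorem G_1067 (hP : P.ok) (hl : ¬ InB P loc) : FGood P h1067 :=
  frun_good hP hl T_1067 f0
theorem G_1066 (hP : P.ok) (hl : ¬ InB P loc) : FGood P h1066 :=
  frun_good hP hl T_1066 (fc (G_1067 hP hl) f0)
theorem G_1065 (hP : P.ok) (hl : ¬ InB P loc) : FGood P h1065 :=
  frun_good hP hl T_1065 f0
theorem G_1064 (hP : P.ok) (hl : ¬ InB P loc) : FGood P h1064 :=
  frun_good hP hl T_1064 (fc (G_1065 hP hl) f0)
theorem G_1063 (hP : P.ok) (hl : ¬ InB P loc) : FGood P h1063 :=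
  frun_good hP hl T_1063 (fc (G_1064 hP hl) f0)
theorem G_1062 (hP : P.ok) (hl : ¬ InB P loc) : FGood P h1062 :=
  frun_good hP hl T_1062 f0
theorem G_1061 (hP : P.ok) (hl : ¬ InB P loc) : FGood P h1061 :=
  frun_good hP hl T_1061 f0
theorem G_1060 (hP : P.ok) (hl : ¬ InB P loc) : FGood P h1060 :=
  frun_good hP hl T_1060 (fc (G_1061 hP hl) (fc (G_1062 hP hl) f0))
theorem G_1059 (hP : P.ok) (hl : ¬ InB P loc) : FGood P h1059 :=
  frun_good hP hl T_1059 (fc (G_1060 hP hl) f0)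
theorem G_1058 (hP : P.ok) (hl : ¬ InB P loc) : FGood P h1058 :=
  frun_good hP hl T_1058 (fc (G_1059 hP hl) f0)
theorem G_1057 (hP : P.ok) (hl : ¬ InB P loc) : FGood P h1057 :=
  frun_good hP hl T_1057 f0
theorem G_1056 (hP : P.ok) (hl : ¬ InB P loc) : FGood P h1056 :=
  frun_good hP hl T_1056 (fc (G_1057 hP hl) f0)
theorem G_1055 (hP : P.ok) (hl : ¬ InB P loc) : FGood P h1055 :=
  frun_good hP hl T_1055 f0
theorem G_1054 (hP : P.ok) (hl : ¬ InB P loc) : FGood P h1054 :=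
  frun_good hP hl T_1054 f0
theorem G_1053 (hP : P.ok) (hl : ¬ InB P loc) : FGood P h1053 :=
  frun_good hP hl T_1053 f0
theorem G_1052 (hP : P.ok) (hl : ¬ InB P loc) : FGood P h1052 :=
  frun_good hP hl T_1052 (fc (G_1054 hP hl) (fc (G_1055 hP hl) (fc (G_1056 hP hl) f0)))
theorem G_1051 (hP : P.ok) (hl : ¬ InB P loc) : FGood P h1051 :=
  frun_good hP hl T_1051 (fc (G_1052 hP hl) (fc (G_1053 hP hl) f0))
theorem G_1050 (hP : P.ok) (hl : ¬ InB P loc) : FGood P h1050 :=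
  frun_good hP hl T_1050 f0
theorem G_1049 (hP : P.ok) (hl : ¬ InB P loc) : FGood P h1049 :=
  frun_good hP hl T_1049 f0
theorem G_1048 (hP : P.ok) (hl : ¬ InB P loc) : FGood P h1048 :=
  frun_good hP hl T_1048 f0
theorem G_1047 (hP : P.ok) (hl : ¬ InB P loc) : FGood P h1047 :=
  frun_good hP hl T_1047 f0
theorem G_1046 (hP : P.ok) (hl : ¬ InB P loc) : FGood P h1046 :=
  frun_good hP hl T_1046 (fc (G_1048 hP hl) f0)
theorem G_1045 (hP : P.ok) (hl : ¬ InB P loc) : FGood P h1045 :=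
  frun_good hP hl T_1045 (fc (G_1046 hP hl) (fc (G_1047 hP hl) f0))
theorem G_1044 (hP : P.ok) (hl : ¬ InB P loc) : FGood P h1044 :=
  frun_good hP hl T_1044 f0
theorem G_1043 (hP : P.ok) (hl : ¬ InB P loc) : FGood P h1043 :=
  frun_good hP hl T_1043 f0
theorem G_1042 (hP : P.ok) (hl : ¬ InB P loc) : FGood P h1042 :=
  frun_good hP hl T_1042 f0
theorem G_1041 (hP : P.ok) (hl : ¬ InB P loc) : FGood P h1041 :=
  frun_good hP hl T_1041 (fc (G_1042 hP hl) f0)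
theorem G_1040 (hP : P.ok) (hl : ¬ InB P loc) : FGood P h1040 :=
  frun_good hP hl T_1040 f0
theorem G_1039 (hP : P.ok) (hl : ¬ InB P loc) : FGood P h1039 :=
  frun_good hP hl T_1039 (fc (G_1040 hP hl) f0)
theorem G_1038 (hP : P.ok) (hl : ¬ InB P loc) : FGood P h1038 :=
  frun_good hP hl T_1038 f0
theorem G_1037 (hP : P.ok) (hl : ¬ InB P loc) : FGood P h1037 :=
  frun_good hP hl T_1037 f0
theorem G_1036 (hP : P.ok) (hl : ¬ InB P loc) : FGood P h1036 :=
  frun_good hP hl T_1036 f0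
theorem G_1035 (hP : P.ok) (hl : ¬ InB P loc) : FGood P h1035 :=
  frun_good hP hl T_1035 (fc (G_1036 hP hl) (fc (G_1037 hP hl) f0))
theorem G_1034 (hP : P.ok) (hl : ¬ InB P loc) : FGood P h1034 :=
  frun_good hP hl T_1034 f0
theorem G_1033 (hP : P.ok) (hl : ¬ InB P loc) : FGood P h1033 :=
  frun_good hP hl T_1033 f0
theorem G_1032 (hP : P.ok) (hl : ¬ InB P loc) : FGood P h1032 :=
  frun_good hP hl T_1032 (fc (G_1033 hP hl) f0)
theorem G_1031 (hP : P.ok) (hl : ¬ InB P loc) : FGood P h1031 :=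
  frun_good hP hl T_1031 f0
theorem G_1030 (hP : P.ok) (hl : ¬ InB P loc) : FGood P h1030 :=
  frun_good hP hl T_1030 (fc (G_1031 hP hl) f0)
theorem G_1029 (hP : P.ok) (hl : ¬ InB P loc) : FGood P h1029 :=
  frun_good hP hl T_1029 f0
theorem G_1028 (hP : P.ok) (hl : ¬ InB P loc) : FGood P h1028 :=
  frun_good hP hl T_1028 f0
theorem G_1027 (hP : P.ok) (hl : ¬ InB P loc) : FGood P h1027 :=
  frun_good hP hl T_1027 (fc (G_1028 hP hl) (fc (G_1029 hP hl) (fc (G_1030 hP hl) f0)))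
theorem G_1026 (hP : P.ok) (hl : ¬ InB P loc) : FGood P h1026 :=
  frun_good hP hl T_1026 f0
theorem G_1025 (hP : P.ok) (hl : ¬ InB P loc) : FGood P h1025 :=
  frun_good hP hl T_1025 f0
theorem G_1024 (hP : P.ok) (hl : ¬ InB P loc) : FGood P h1024 :=
  frun_good hP hl T_1024 f0
theorem G_1023 (hP : P.ok) (hl : ¬ InB P loc) : FGood P h1023 :=
  frun_good hP hl T_1023 (fc (G_1026 hP hl) f0)
theorem G_1022 (hP : P.ok) (hl : ¬ InB P loc) : FGood P h1022 :=
  frun_good hP hl T_1022 (fc (G_1025 hP hl) f0)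
theorem G_1021 (hP : P.ok) (hl : ¬ InB P loc) : FGood P h1021 :=
  frun_good hP hl T_1021 (fc (G_1024 hP hl) f0)
theorem G_1020 (hP : P.ok) (hl : ¬ InB P loc) : FGood P h1020 :=
  frun_good hP hl T_1020 (fc (G_1021 hP hl) (fc (G_1022 hP hl) (fc (G_1023 hP hl) f0)))
theorem G_1019 (hP : P.ok) (hl : ¬ InB P loc) : FGood P h1019 :=
  frun_good hP hl T_1019 f0
theorem G_1018 (hP : P.ok) (hl : ¬ InB P loc) : FGood P h1018 :=
  frun_good hP hl T_1018 (fc (G_1019 hP hl) f0)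
theorem G_1017 (hP : P.ok) (hl : ¬ InB P loc) : FGood P h1017 :=
  frun_good hP hl T_1017 (fc (G_1018 hP hl) f0)
theorem G_1016 (hP : P.ok) (hl : ¬ InB P loc) : FGood P h1016 :=
  frun_good hP hl T_1016 f0
theorem G_1015 (hP : P.ok) (hl : ¬ InB P loc) : FGood P h1015 :=
  frun_good hP hl T_1015 (fc (G_1016 hP hl) f0)
theorem G_1014 (hP : P.ok) (hl : ¬ InB P loc) : FGood P h1014 :=
  frun_good hP hl T_1014 f0
theorem G_1013 (hP : P.ok) (hl : ¬ InB P loc) : FGood P h1013 :=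
  frun_good hP hl T_1013 (fc (G_1014 hP hl) (fc (G_1015 hP hl) f0))
theorem G_1012 (hP : P.ok) (hl : ¬ InB P loc) : FGood P h1012 :=
  frun_good hP hl T_1012 (fc (G_1013 hP hl) f0)
theorem G_1011 (hP : P.ok) (hl : ¬ InB P loc) : FGood P h1011 :=
  frun_good hP hl T_1011 f0
theorem G_1010 (hP : P.ok) (hl : ¬ InB P loc) : FGood P h1010 :=
  frun_good hP hl T_1010 f0
theorem G_1009 (hP : P.ok) (hl : ¬ InB P loc) : FGood P h1009 :=
  frun_good hP hl T_1009 f0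
theorem G_1008 (hP : P.ok) (hl : ¬ InB P loc) : FGood P h1008 :=
  frun_good hP hl T_1008 f0
theorem G_1007 (hP : P.ok) (hl : ¬ InB P loc) : FGood P h1007 :=
  frun_good hP hl T_1007 f0
theorem G_1006 (hP : P.ok) (hl : ¬ InB P loc) : FGood P h1006 :=
  frun_good hP hl T_1006 (fc (G_1007 hP hl) f0)
theorem G_1005 (hP : P.ok) (hl : ¬ InB P loc) : FGood P h1005 :=
  frun_good hP hl T_1005 (fc (G_1006 hP hl) f0)
theorem G_1004 (hP : P.ok) (hl : ¬ InB P loc) : FGood P h1004 :=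
  frun_good hP hl T_1004 (fc (G_1005 hP hl) f0)
theorem G_1003 (hP : P.ok) (hl : ¬ InB P loc) : FGood P h1003 :=
  frun_good hP hl T_1003 f0
theorem G_1002 (hP : P.ok) (hl : ¬ InB P loc) : FGood P h1002 :=
  frun_good hP hl T_1002 f0
theorem G_1001 (hP : P.ok) (hl : ¬ InB P loc) : FGood P h1001 :=
  frun_good hP hl T_1001 f0
theorem G_1000 (hP : P.ok) (hl : ¬ InB P loc) : FGood P h1000 :=
  frun_good hP hl T_1000 f0
theorem G_999 (hP : P.ok) (hl : ¬ InB P loc) : FGood P h999 :=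
  frun_good hP hl T_999 f0
theorem G_998 (hP : P.ok) (hl : ¬ InB P loc) : FGood P h998 :=
  frun_good hP hl T_998 f0
theorem G_997 (hP : P.ok) (hl : ¬ InB P loc) : FGood P h997 :=
  frun_good hP hl T_997 f0
theorem G_996 (hP : P.ok) (hl : ¬ InB P loc) : FGood P h996 :=
  frun_good hP hl T_996 f0
theorem G_995 (hP : P.ok) (hl : ¬ InB P loc) : FGood P h995 :=
  frun_good hP hl T_995 f0
theorem G_994 (hP : P.ok) (hl : ¬ InB P loc) : FGood P h994 :=
  frun_good hP hl T_994 (fc (G_995 hP hl) f0)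
theorem G_993 (hP : P.ok) (hl : ¬ InB P loc) : FGood P h993 :=
  frun_good hP hl T_993 f0
theorem G_992 (hP : P.ok) (hl : ¬ InB P loc) : FGood P h992 :=
  frun_good hP hl T_992 f0
theorem G_991 (hP : P.ok) (hl : ¬ InB P loc) : FGood P h991 :=
  frun_good hP hl T_991 f0
theorem G_990 (hP : P.ok) (hl : ¬ InB P loc) : FGood P h990 :=
  frun_good hP hl T_990 f0
theorem G_989 (hP : P.ok) (hl : ¬ InB P loc) : FGood P h989 :=
  frun_good hP hl T_989 f0
theorem G_988 (hP : P.ok) (hl : ¬ InB P loc) : FGood P h988 :=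
  frun_good hP hl T_988 f0
theorem G_987 (hP : P.ok) (hl : ¬ InB P loc) : FGood P h987 :=
  frun_good hP hl T_987 f0
theorem G_986 (hP : P.ok) (hl : ¬ InB P loc) : FGood P h986 :=
  frun_good hP hl T_986 f0
theorem G_985 (hP : P.ok) (hl : ¬ InB P loc) : FGood P h985 :=
  frun_good hP hl T_985 f0
theorem G_984 (hP : P.ok) (hl : ¬ InB P loc) : FGood P h984 :=
  frun_good hP hl T_984 f0
theorem G_983 (hP : P.ok) (hl : ¬ InB P loc) : FGood P h983 :=
  frun_good hP hl T_983 f0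
theorem G_982 (hP : P.ok) (hl : ¬ InB P loc) : FGood P h982 :=
  frun_good hP hl T_982 f0
theorem G_981 (hP : P.ok) (hl : ¬ InB P loc) : FGood P h981 :=
  frun_good hP hl T_981 f0
theorem G_980 (hP : P.ok) (hl : ¬ InB P loc) : FGood P h980 :=
  frun_good hP hl T_980 f0
theorem G_979 (hP : P.ok) (hl : ¬ InB P loc) : FGood P h979 :=
  frun_good hP hl T_979 f0
theorem G_978 (hP : P.ok) (hl : ¬ InB P loc) : FGood P h978 :=
  frun_good hP hl T_978 f0
theorem G_977 (hP : P.ok) (hl : ¬ InB P loc) : FGood P h977 :=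
  frun_good hP hl T_977 f0
theorem G_976 (hP : P.ok) (hl : ¬ InB P loc) : FGood P h976 :=
  frun_good hP hl T_976 (fc (G_988 hP hl) (fc (G_989 hP hl) f0))
theorem G_975 (hP : P.ok) (hl : ¬ InB P loc) : FGood P h975 :=
  frun_good hP hl T_975 (fc (G_976 hP hl) (fc (G_977 hP hl) (fc (G_978 hP hl) (fc (G_979 hP hl) (fc (G_980 hP hl) (fc (G_981 hP hl) (fc (G_982 hP hl) (fc (G_983 hP hl) (fc (G_984 hP hl) (fc (G_985 hP hl) (fc (G_986 hP hl) (fc (G_987 hP hl) f0))))))))))))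
theorem G_974 (hP : P.ok) (hl : ¬ InB P loc) : FGood P h974 :=
  frun_good hP hl T_974 f0
theorem G_973 (hP : P.ok) (hl : ¬ InB P loc) : FGood P h973 :=
  frun_good hP hl T_973 f0
theorem G_972 (hP : P.ok) (hl : ¬ InB P loc) : FGood P h972 :=
  frun_good hP hl T_972 (fc (G_974 hP hl) f0)
theorem G_971 (hP : P.ok) (hl : ¬ InB P loc) : FGood P h971 :=
  frun_good hP hl T_971 f0
theorem G_970 (hP : P.ok) (hl : ¬ InB P loc) : FGood P h970 :=
  frun_good hP hl T_970 f0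
theorem G_969 (hP : P.ok) (hl : ¬ InB P loc) : FGood P h969 :=
  frun_good hP hl T_969 (fc (G_973 hP hl) f0)
theorem G_968 (hP : P.ok) (hl : ¬ InB P loc) : FGood P h968 :=
  frun_good hP hl T_968 (fc (G_969 hP hl) (fc (G_970 hP hl) (fc (G_971 hP hl) (fc (G_972 hP hl) f0))))
theorem G_967 (hP : P.ok) (hl : ¬ InB P loc) : FGood P h967 :=
  frun_good hP hl T_967 f0
theorem G_966 (hP : P.ok) (hl : ¬ InB P loc) : FGood P h966 :=
  frun_good hP hl T_966 f0
theorem G_965 (hP : P.ok) (hl : ¬ InB P loc) : FGood P h965 :=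
  frun_good hP hl T_965 f0
theorem G_964 (hP : P.ok) (hl : ¬ InB P loc) : FGood P h964 :=
  frun_good hP hl T_964 f0
theorem G_963 (hP : P.ok) (hl : ¬ InB P loc) : FGood P h963 :=
  frun_good hP hl T_963 f0
theorem G_962 (hP : P.ok) (hl : ¬ InB P loc) : FGood P h962 :=
  frun_good hP hl T_962 f0
theorem G_961 (hP : P.ok) (hl : ¬ InB P loc) : FGood P h961 :=
  frun_good hP hl T_961 f0
theorem G_960 (hP : P.ok) (hl : ¬ InB P loc) : FGood P h960 :=
  frun_good hP hl T_960 f0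
theorem G_959 (hP : P.ok) (hl : ¬ InB P loc) : FGood P h959 :=
  frun_good hP hl T_959 f0
theorem G_958 (hP : P.ok) (hl : ¬ InB P loc) : FGood P h958 :=
  frun_good hP hl T_958 f0
theorem G_957 (hP : P.ok) (hl : ¬ InB P loc) : FGood P h957 :=
  frun_good hP hl T_957 f0
theorem G_956 (hP : P.ok) (hl : ¬ InB P loc) : FGood P h956 :=
  frun_good hP hl T_956 f0
theorem G_955 (hP : P.ok) (hl : ¬ InB P loc) : FGood P h955 :=
  frun_good hP hl T_955 f0
theorem G_954 (hP : P.ok) (hl : ¬ InB P loc) : FGood P h954 :=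
  frun_good hP hl T_954 f0
theorem G_953 (hP : P.ok) (hl : ¬ InB P loc) : FGood P h953 :=
  frun_good hP hl T_953 f0
theorem G_952 (hP : P.ok) (hl : ¬ InB P loc) : FGood P h952 :=
  frun_good hP hl T_952 f0
theorem G_951 (hP : P.ok) (hl : ¬ InB P loc) : FGood P h951 :=
  frun_good hP hl T_951 f0
theorem G_950 (hP : P.ok) (hl : ¬ InB P loc) : FGood P h950 :=
  frun_good hP hl T_950 f0
theorem G_949 (hP : P.ok) (hl : ¬ InB P loc) : FGood P h949 :=
  frun_good hP hl T_949 f0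
theorem G_948 (hP : P.ok) (hl : ¬ InB P loc) : FGood P h948 :=
  frun_good hP hl T_948 f0
theorem G_947 (hP : P.ok) (hl : ¬ InB P loc) : FGood P h947 :=
  frun_good hP hl T_947 f0
theorem G_946 (hP : P.ok) (hl : ¬ InB P loc) : FGood P h946 :=
  frun_good hP hl T_946 f0
theorem G_945 (hP : P.ok) (hl : ¬ InB P loc) : FGood P h945 :=
  frun_good hP hl T_945 f0
theorem G_944 (hP : P.ok) (hl : ¬ InB P loc) : FGood P h944 :=
  frun_good hP hl T_944 f0
theorem G_943 (hP : P.ok) (hl : ¬ InB P loc) : FGood P h943 :=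
  frun_good hP hl T_943 f0
theorem G_942 (hP : P.ok) (hl : ¬ InB P loc) : FGood P h942 :=
  frun_good hP hl T_942 (fc (G_943 hP hl) (fc (G_944 hP hl) (fc (G_945 hP hl) (fc (G_946 hP hl) (fc (G_947 hP hl) (fc (G_948 hP hl) (fc (G_949 hP hl) (fc (G_950 hP hl) (fc (G_951 hP hl) (fc (G_952 hP hl) (fc (G_953 hP hl) (fc (G_954 hP hl) (fc (G_955 hP hl) (fc (G_956 hP hl) (fc (G_957 hP hl) f0)))))))))))))))
theorem G_941 (hP : P.ok) (hl : ¬ InB P loc) : FGood P h941 :=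
  frun_good hP hl T_941 f0
theorem G_940 (hP : P.ok) (hl : ¬ InB P loc) : FGood P h940 :=
  frun_good hP hl T_940 f0
theorem G_939 (hP : P.ok) (hl : ¬ InB P loc) : FGood P h939 :=
  frun_good hP hl T_939 (fc (G_941 hP hl) f0)
theorem G_938 (hP : P.ok) (hl : ¬ InB P loc) : FGood P h938 :=
  frun_good hP hl T_938 f0
theorem G_937 (hP : P.ok) (hl : ¬ InB P loc) : FGood P h937 :=
  frun_good hP hl T_937 (fc (G_940 hP hl) f0)
theorem G_936 (hP : P.ok) (hl : ¬ InB P loc) : FGood P h936 :=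
  frun_good hP hl T_936 f0
theorem G_935 (hP : P.ok) (hl : ¬ InB P loc) : FGood P h935 :=
  frun_good hP hl T_935 (fc (G_938 hP hl) (fc (G_939 hP hl) f0))
theorem G_934 (hP : P.ok) (hl : ¬ InB P loc) : FGood P h934 :=
  frun_good hP hl T_934 (fc (G_935 hP hl) (fc (G_936 hP hl) (fc (G_937 hP hl) f0)))
theorem G_933 (hP : P.ok) (hl : ¬ InB P loc) : FGood P h933 :=
  frun_good hP hl T_933 f0
theorem G_932 (hP : P.ok) (hl : ¬ InB P loc) : FGood P h932 :=
  frun_good hP hl T_932 f0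
theorem G_931 (hP : P.ok) (hl : ¬ InB P loc) : FGood P h931 :=
  frun_good hP hl T_931 f0
theorem G_930 (hP : P.ok) (hl : ¬ InB P loc) : FGood P h930 :=
  frun_good hP hl T_930 f0
theorem G_929 (hP : P.ok) (hl : ¬ InB P loc) : FGood P h929 :=
  frun_good hP hl T_929 f0
theorem G_928 (hP : P.ok) (hl : ¬ InB P loc) : FGood P h928 :=
  frun_good hP hl T_928 f0
theorem G_927 (hP : P.ok) (hl : ¬ InB P loc) : FGood P h927 :=
  frun_good hP hl T_927 f0
theorem G_926 (hP : P.ok) (hl : ¬ InB P loc) : FGood P h926 :=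
  frun_good hP hl T_926 f0
theorem G_925 (hP : P.ok) (hl : ¬ InB P loc) : FGood P h925 :=
  frun_good hP hl T_925 f0
theorem G_924 (hP : P.ok) (hl : ¬ InB P loc) : FGood P h924 :=
  frun_good hP hl T_924 f0
theorem G_923 (hP : P.ok) (hl : ¬ InB P loc) : FGood P h923 :=
  frun_good hP hl T_923 f0
theorem G_922 (hP : P.ok) (hl : ¬ InB P loc) : FGood P h922 :=
  frun_good hP hl T_922 f0
theorem G_921 (hP : P.ok) (hl : ¬ InB P loc) : FGood P h921 :=
  frun_good hP hl T_921 f0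
theorem G_920 (hP : P.ok) (hl : ¬ InB P loc) : FGood P h920 :=
  frun_good hP hl T_920 f0
theorem G_919 (hP : P.ok) (hl : ¬ InB P loc) : FGood P h919 :=
  frun_good hP hl T_919 f0
theorem G_918 (hP : P.ok) (hl : ¬ InB P loc) : FGood P h918 :=
  frun_good hP hl T_918 f0
theorem G_917 (hP : P.ok) (hl : ¬ InB P loc) : FGood P h917 :=
  frun_good hP hl T_917 f0
theorem G_916 (hP : P.ok) (hl : ¬ InB P loc) : FGood P h916 :=
  frun_good hP hl T_916 f0
theorem G_915 (hP : P.ok) (hl : ¬ InB P loc) : FGood P h915 :=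
  frun_good hP hl T_915 f0
theorem G_914 (hP : P.ok) (hl : ¬ InB P loc) : FGood P h914 :=
  frun_good hP hl T_914 f0
theorem G_913 (hP : P.ok) (hl : ¬ InB P loc) : FGood P h913 :=
  frun_good hP hl T_913 (fc (G_914 hP hl) (fc (G_915 hP hl) (fc (G_916 hP hl) (fc (G_917 hP hl) (fc (G_918 hP hl) (fc (G_919 hP hl) (fc (G_920 hP hl) (fc (G_921 hP hl) (fc (G_922 hP hl) (fc (G_923 hP hl) (fc (G_924 hP hl) (fc (G_925 hP hl) (fc (G_926 hP hl) (fc (G_927 hP hl) (fc (G_928 hP hl) (fc (G_929 hP hl) (fc (G_930 hP hl) (fc (G_931 hP hl) (fc (G_932 hP hl) (fc (G_933 hP hl) f0))))))))))))))))))))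

end

end Pool.Agent.Lib.MP_9d820d_co.Fast.A
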