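import Pool.Agent.Lib.MP_9d820d_co.FMain
import Pool.Agent.Lib.MP_9d820d_co.G.AC23
import Pool.Agent.Lib.MP_9d820d_co.G.AC24
import Pool.Agent.Lib.MP_9d820d_co.G.AC25
import Pool.Agent.Lib.MP_9d820d_co.G.AC26
import Pool.Agent.Lib.MP_9d820d_co.G.AC27
import Pool.Agent.Lib.MP_9d820d_co.G.AC28
import Pool.Agent.Lib.MP_9d820d_co.G.AC29
import Pool.Agent.Lib.MP_9d820d_co.G.AC30
import Pool.Agent.Lib.MP_9d820d_co.G.AC31
import Pool.Agent.Lib.MP_9d820d_co.G.AC32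
import Pool.Agent.Lib.MP_9d820d_co.G.AC33
import Pool.Agent.Lib.MP_9d820d_co.G.AC34
import Pool.Agent.Lib.MP_9d820d_co.G.AC35
import Pool.Agent.Lib.MP_9d820d_co.G.AC36

set_option autoImplicit false

namespace Pool.Agent.Lib.MP_9d820d_co.Fast.A

noncomputable section

variable {P : Prm}

theorem G_1913 (hP : P.ok) (hl : ¬ InB P loc) : FGood P h1913 :=
  frun_good hP hl T_1913 f0
theorem G_1912 (hP : P.ok) (hl : ¬ InB P loc) : FGood P h1912 :=
  frun_good hP hl T_1912 f0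
theorem G_1911 (hP : P.ok) (hl : ¬ InB P loc) : FGood P h1911 :=
  frun_good hP hl T_1911 f0
theorem G_1910 (hP : P.ok) (hl : ¬ InB P loc) : FGood P h1910 :=
  frun_good hP hl T_1910 f0
theorem G_1909 (hP : P.ok) (hl : ¬ InB P loc) : FGood P h1909 :=
  frun_good hP hl T_1909 f0
theorem G_1908 (hP : P.ok) (hl : ¬ InB P loc) : FGood P h1908 :=
  frun_good hP hl T_1908 (fc (G_1909 hP hl) (fc (G_1910 hP hl) (fc (G_1911 hP hl) f0)))
theorem G_1907 (hP : P.ok) (hl : ¬ InB P loc) : FGood P h1907 :=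
  frun_good hP hl T_1907 (fc (G_1908 hP hl) f0)
theorem G_1906 (hP : P.ok) (hl : ¬ InB P loc) : FGood P h1906 :=
  frun_good hP hl T_1906 f0
theorem G_1905 (hP : P.ok) (hl : ¬ InB P loc) : FGood P h1905 :=
  frun_good hP hl T_1905 f0
theorem G_1904 (hP : P.ok) (hl : ¬ InB P loc) : FGood P h1904 :=
  frun_good hP hl T_1904 (fc (G_1906 hP hl) f0)
theorem G_1903 (hP : P.ok) (hl : ¬ InB P loc) : FGood P h1903 :=
  frun_good hP hl T_1903 (fc (G_1905 hP hl) f0)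
theorem G_1902 (hP : P.ok) (hl : ¬ InB P loc) : FGood P h1902 :=
  frun_good hP hl T_1902 (fc (G_1903 hP hl) (fc (G_1904 hP hl) f0))
theorem G_1901 (hP : P.ok) (hl : ¬ InB P loc) : FGood P h1901 :=
  frun_good hP hl T_1901 f0
theorem G_1900 (hP : P.ok) (hl : ¬ InB P loc) : FGood P h1900 :=
  frun_good hP hl T_1900 (fc (G_1901 hP hl) f0)
theorem G_1899 (hP : P.ok) (hl : ¬ InB P loc) : FGood P h1899 :=
  frun_good hP hl T_1899 (fc (G_1900 hP hl) f0)
theorem G_1898 (hP : P.ok) (hl : ¬ InB P loc) : FGood P h1898 :=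
  frun_good hP hl T_1898 f0
theorem G_1897 (hP : P.ok) (hl : ¬ InB P loc) : FGood P h1897 :=
  frun_good hP hl T_1897 f0
theorem G_1896 (hP : P.ok) (hl : ¬ InB P loc) : FGood P h1896 :=
  frun_good hP hl T_1896 (fc (G_1897 hP hl) (fc (G_1898 hP hl) f0))
theorem G_1895 (hP : P.ok) (hl : ¬ InB P loc) : FGood P h1895 :=
  frun_good hP hl T_1895 f0
theorem G_1894 (hP : P.ok) (hl : ¬ InB P loc) : FGood P h1894 :=
  frun_good hP hl T_1894 f0
theorem G_1893 (hP : P.ok) (hl : ¬ InB P loc) : FGood P h1893 :=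
  frun_good hP hl T_1893 f0
theorem G_1892 (hP : P.ok) (hl : ¬ InB P loc) : FGood P h1892 :=
  frun_good hP hl T_1892 f0
theorem G_1891 (hP : P.ok) (hl : ¬ InB P loc) : FGood P h1891 :=
  frun_good hP hl T_1891 (fc (G_1896 hP hl) f0)
theorem G_1890 (hP : P.ok) (hl : ¬ InB P loc) : FGood P h1890 :=
  frun_good hP hl T_1890 (fc (G_1891 hP hl) (fc (G_1892 hP hl) (fc (G_1893 hP hl) (fc (G_1894 hP hl) (fc (G_1895 hP hl) f0)))))
theorem G_1889 (hP : P.ok) (hl : ¬ InB P loc) : FGood P h1889 :=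
  frun_good hP hl T_1889 f0
theorem G_1888 (hP : P.ok) (hl : ¬ InB P loc) : FGood P h1888 :=
  frun_good hP hl T_1888 f0
theorem G_1887 (hP : P.ok) (hl : ¬ InB P loc) : FGood P h1887 :=
  frun_good hP hl T_1887 f0
theorem G_1886 (hP : P.ok) (hl : ¬ InB P loc) : FGood P h1886 :=
  frun_good hP hl T_1886 f0
theorem G_1885 (hP : P.ok) (hl : ¬ InB P loc) : FGood P h1885 :=
  frun_good hP hl T_1885 (fc (G_1886 hP hl) (fc (G_1887 hP hl) f0))
theorem G_1884 (hP : P.ok) (hl : ¬ InB P loc) : FGood P h1884 :=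
  frun_good hP hl T_1884 f0
theorem G_1883 (hP : P.ok) (hl : ¬ InB P loc) : FGood P h1883 :=
  frun_good hP hl T_1883 f0
theorem G_1882 (hP : P.ok) (hl : ¬ InB P loc) : FGood P h1882 :=
  frun_good hP hl T_1882 f0
theorem G_1881 (hP : P.ok) (hl : ¬ InB P loc) : FGood P h1881 :=
  frun_good hP hl T_1881 f0
theorem G_1880 (hP : P.ok) (hl : ¬ InB P loc) : FGood P h1880 :=
  frun_good hP hl T_1880 (fc (G_1881 hP hl) (fc (G_1882 hP hl) (fc (G_1883 hP hl) (fc (G_1884 hP hl) f0))))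
theorem G_1879 (hP : P.ok) (hl : ¬ InB P loc) : FGood P h1879 :=
  frun_good hP hl T_1879 f0
theorem G_1878 (hP : P.ok) (hl : ¬ InB P loc) : FGood P h1878 :=
  frun_good hP hl T_1878 (fc (G_1879 hP hl) f0)
theorem G_1877 (hP : P.ok) (hl : ¬ InB P loc) : FGood P h1877 :=
  frun_good hP hl T_1877 f0
theorem G_1876 (hP : P.ok) (hl : ¬ InB P loc) : FGood P h1876 :=
  frun_good hP hl T_1876 f0
theorem G_1875 (hP : P.ok) (hl : ¬ InB P loc) : FGood P h1875 :=
  frun_good hP hl T_1875 f0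
theorem G_1874 (hP : P.ok) (hl : ¬ InB P loc) : FGood P h1874 :=
  frun_good hP hl T_1874 f0
theorem G_1873 (hP : P.ok) (hl : ¬ InB P loc) : FGood P h1873 :=
  frun_good hP hl T_1873 f0
theorem G_1872 (hP : P.ok) (hl : ¬ InB P loc) : FGood P h1872 :=
  frun_good hP hl T_1872 f0
theorem G_1871 (hP : P.ok) (hl : ¬ InB P loc) : FGood P h1871 :=
  frun_good hP hl T_1871 (fc (G_1872 hP hl) f0)
theorem G_1870 (hP : P.ok) (hl : ¬ InB P loc) : FGood P h1870 :=
  frun_good hP hl T_1870 f0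
theorem G_1869 (hP : P.ok) (hl : ¬ InB P loc) : FGood P h1869 :=
  frun_good hP hl T_1869 f0
theorem G_1868 (hP : P.ok) (hl : ¬ InB P loc) : FGood P h1868 :=
  frun_good hP hl T_1868 f0
theorem G_1867 (hP : P.ok) (hl : ¬ InB P loc) : FGood P h1867 :=
  frun_good hP hl T_1867 (fc (G_1868 hP hl) f0)
theorem G_1866 (hP : P.ok) (hl : ¬ InB P loc) : FGood P h1866 :=
  frun_good hP hl T_1866 f0
theorem G_1865 (hP : P.ok) (hl : ¬ InB P loc) : FGood P h1865 :=
  frun_good hP hl T_1865 f0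
theorem G_1864 (hP : P.ok) (hl : ¬ InB P loc) : FGood P h1864 :=
  frun_good hP hl T_1864 f0
theorem G_1863 (hP : P.ok) (hl : ¬ InB P loc) : FGood P h1863 :=
  frun_good hP hl T_1863 (fc (G_1866 hP hl) (fc (G_1867 hP hl) f0))
theorem G_1862 (hP : P.ok) (hl : ¬ InB P loc) : FGood P h1862 :=
  frun_good hP hl T_1862 (fc (G_1863 hP hl) (fc (G_1864 hP hl) (fc (G_1865 hP hl) f0)))
theorem G_1861 (hP : P.ok) (hl : ¬ InB P loc) : FGood P h1861 :=
  frun_good hP hl T_1861 f0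
theorem G_1860 (hP : P.ok) (hl : ¬ InB P loc) : FGood P h1860 :=
  frun_good hP hl T_1860 f0
theorem G_1859 (hP : P.ok) (hl : ¬ InB P loc) : FGood P h1859 :=
  frun_good hP hl T_1859 f0
theorem G_1858 (hP : P.ok) (hl : ¬ InB P loc) : FGood P h1858 :=
  frun_good hP hl T_1858 (fc (G_1859 hP hl) (fc (G_1860 hP hl) f0))
theorem G_1857 (hP : P.ok) (hl : ¬ InB P loc) : FGood P h1857 :=
  frun_good hP hl T_1857 f0
theorem G_1856 (hP : P.ok) (hl : ¬ InB P loc) : FGood P h1856 :=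
  frun_good hP hl T_1856 f0
theorem G_1855 (hP : P.ok) (hl : ¬ InB P loc) : FGood P h1855 :=
  frun_good hP hl T_1855 (fc (G_1856 hP hl) (fc (G_1857 hP hl) (fc (G_1858 hP hl) f0)))
theorem G_1854 (hP : P.ok) (hl : ¬ InB P loc) : FGood P h1854 :=
  frun_good hP hl T_1854 f0
theorem G_1853 (hP : P.ok) (hl : ¬ InB P loc) : FGood P h1853 :=
  frun_good hP hl T_1853 (fc (G_1854 hP hl) f0)
theorem G_1852 (hP : P.ok) (hl : ¬ InB P loc) : FGood P h1852 :=
  frun_good hP hl T_1852 f0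
theorem G_1851 (hP : P.ok) (hl : ¬ InB P loc) : FGood P h1851 :=
  frun_good hP hl T_1851 (fc (G_1853 hP hl) f0)
theorem G_1850 (hP : P.ok) (hl : ¬ InB P loc) : FGood P h1850 :=
  frun_good hP hl T_1850 (fc (G_1851 hP hl) (fc (G_1852 hP hl) f0))
theorem G_1849 (hP : P.ok) (hl : ¬ InB P loc) : FGood P h1849 :=
  frun_good hP hl T_1849 f0
theorem G_1848 (hP : P.ok) (hl : ¬ InB P loc) : FGood P h1848 :=
  frun_good hP hl T_1848 (fc (G_1849 hP hl) f0)
theorem G_1847 (hP : P.ok) (hl : ¬ InB P loc) : FGood P h1847 :=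
  frun_good hP hl T_1847 (fc (G_1848 hP hl) f0)
theorem G_1846 (hP : P.ok) (hl : ¬ InB P loc) : FGood P h1846 :=
  frun_good hP hl T_1846 f0
theorem G_1845 (hP : P.ok) (hl : ¬ InB P loc) : FGood P h1845 :=
  frun_good hP hl T_1845 f0
theorem G_1844 (hP : P.ok) (hl : ¬ InB P loc) : FGood P h1844 :=
  frun_good hP hl T_1844 f0
theorem G_1843 (hP : P.ok) (hl : ¬ InB P loc) : FGood P h1843 :=
  frun_good hP hl T_1843 (fc (G_1844 hP hl) (fc (G_1845 hP hl) f0))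
theorem G_1842 (hP : P.ok) (hl : ¬ InB P loc) : FGood P h1842 :=
  frun_good hP hl T_1842 f0
theorem G_1841 (hP : P.ok) (hl : ¬ InB P loc) : FGood P h1841 :=
  frun_good hP hl T_1841 f0
theorem G_1840 (hP : P.ok) (hl : ¬ InB P loc) : FGood P h1840 :=
  frun_good hP hl T_1840 (fc (G_1842 hP hl) f0)
theorem G_1839 (hP : P.ok) (hl : ¬ InB P loc) : FGood P h1839 :=
  frun_good hP hl T_1839 f0
theorem G_1838 (hP : P.ok) (hl : ¬ InB P loc) : FGood P h1838 :=
  frun_good hP hl T_1838 (fc (G_1839 hP hl) (fc (G_1840 hP hl) (fc (G_1841 hP hl) f0)))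
theorem G_1837 (hP : P.ok) (hl : ¬ InB P loc) : FGood P h1837 :=
  frun_good hP hl T_1837 f0
theorem G_1836 (hP : P.ok) (hl : ¬ InB P loc) : FGood P h1836 :=
  frun_good hP hl T_1836 f0
theorem G_1835 (hP : P.ok) (hl : ¬ InB P loc) : FGood P h1835 :=
  frun_good hP hl T_1835 f0
theorem G_1834 (hP : P.ok) (hl : ¬ InB P loc) : FGood P h1834 :=
  frun_good hP hl T_1834 (fc (G_1835 hP hl) (fc (G_1836 hP hl) (fc (G_1837 hP hl) f0)))
theorem G_1833 (hP : P.ok) (hl : ¬ InB P loc) : FGood P h1833 :=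
  frun_good hP hl T_1833 f0
theorem G_1832 (hP : P.ok) (hl : ¬ InB P loc) : FGood P h1832 :=
  frun_good hP hl T_1832 (fc (G_1833 hP hl) f0)
theorem G_1831 (hP : P.ok) (hl : ¬ InB P loc) : FGood P h1831 :=
  frun_good hP hl T_1831 f0
theorem G_1830 (hP : P.ok) (hl : ¬ InB P loc) : FGood P h1830 :=
  frun_good hP hl T_1830 f0
theorem G_1829 (hP : P.ok) (hl : ¬ InB P loc) : FGood P h1829 :=
  frun_good hP hl T_1829 f0
theorem G_1828 (hP : P.ok) (hl : ¬ InB P loc) : FGood P h1828 :=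
  frun_good hP hl T_1828 f0
theorem G_1827 (hP : P.ok) (hl : ¬ InB P loc) : FGood P h1827 :=
  frun_good hP hl T_1827 (fc (G_1828 hP hl) (fc (G_1829 hP hl) (fc (G_1830 hP hl) f0)))
theorem G_1826 (hP : P.ok) (hl : ¬ InB P loc) : FGood P h1826 :=
  frun_good hP hl T_1826 f0
theorem G_1825 (hP : P.ok) (hl : ¬ InB P loc) : FGood P h1825 :=
  frun_good hP hl T_1825 (fc (G_1826 hP hl) f0)
theorem G_1824 (hP : P.ok) (hl : ¬ InB P loc) : FGood P h1824 :=
  frun_good hP hl T_1824 f0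
theorem G_1823 (hP : P.ok) (hl : ¬ InB P loc) : FGood P h1823 :=
  frun_good hP hl T_1823 (fc (G_1824 hP hl) f0)
theorem G_1822 (hP : P.ok) (hl : ¬ InB P loc) : FGood P h1822 :=
  frun_good hP hl T_1822 f0
theorem G_1821 (hP : P.ok) (hl : ¬ InB P loc) : FGood P h1821 :=
  frun_good hP hl T_1821 f0
theorem G_1820 (hP : P.ok) (hl : ¬ InB P loc) : FGood P h1820 :=
  frun_good hP hl T_1820 (fc (G_1821 hP hl) (fc (G_1822 hP hl) f0))
theorem G_1819 (hP : P.ok) (hl : ¬ InB P loc) : FGood P h1819 :=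
  frun_good hP hl T_1819 f0
theorem G_1818 (hP : P.ok) (hl : ¬ InB P loc) : FGood P h1818 :=
  frun_good hP hl T_1818 (fc (G_1819 hP hl) f0)
theorem G_1817 (hP : P.ok) (hl : ¬ InB P loc) : FGood P h1817 :=
  frun_good hP hl T_1817 f0
theorem G_1816 (hP : P.ok) (hl : ¬ InB P loc) : FGood P h1816 :=
  frun_good hP hl T_1816 f0
theorem G_1815 (hP : P.ok) (hl : ¬ InB P loc) : FGood P h1815 :=
  frun_good hP hl T_1815 (fc (G_1816 hP hl) (fc (G_1817 hP hl) f0))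
theorem G_1814 (hP : P.ok) (hl : ¬ InB P loc) : FGood P h1814 :=
  frun_good hP hl T_1814 f0
theorem G_1813 (hP : P.ok) (hl : ¬ InB P loc) : FGood P h1813 :=
  frun_good hP hl T_1813 f0
theorem G_1812 (hP : P.ok) (hl : ¬ InB P loc) : FGood P h1812 :=
  frun_good hP hl T_1812 f0
theorem G_1811 (hP : P.ok) (hl : ¬ InB P loc) : FGood P h1811 :=
  frun_good hP hl T_1811 (fc (G_1814 hP hl) (fc (G_1815 hP hl) f0))
theorem G_1810 (hP : P.ok) (hl : ¬ InB P loc) : FGood P h1810 :=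
  frun_good hP hl T_1810 (fc (G_1811 hP hl) (fc (G_1812 hP hl) (fc (G_1813 hP hl) f0)))
theorem G_1809 (hP : P.ok) (hl : ¬ InB P loc) : FGood P h1809 :=
  frun_good hP hl T_1809 f0
theorem G_1808 (hP : P.ok) (hl : ¬ InB P loc) : FGood P h1808 :=
  frun_good hP hl T_1808 (fc (G_1809 hP hl) f0)
theorem G_1807 (hP : P.ok) (hl : ¬ InB P loc) : FGood P h1807 :=
  frun_good hP hl T_1807 f0
theorem G_1806 (hP : P.ok) (hl : ¬ InB P loc) : FGood P h1806 :=
  frun_good hP hl T_1806 f0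
theorem G_1805 (hP : P.ok) (hl : ¬ InB P loc) : FGood P h1805 :=
  frun_good hP hl T_1805 f0
theorem G_1804 (hP : P.ok) (hl : ¬ InB P loc) : FGood P h1804 :=
  frun_good hP hl T_1804 f0
theorem G_1803 (hP : P.ok) (hl : ¬ InB P loc) : FGood P h1803 :=
  frun_good hP hl T_1803 f0
theorem G_1802 (hP : P.ok) (hl : ¬ InB P loc) : FGood P h1802 :=
  frun_good hP hl T_1802 (fc (G_1803 hP hl) (fc (G_1804 hP hl) f0))
theorem G_1801 (hP : P.ok) (hl : ¬ InB P loc) : FGood P h1801 :=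
  frun_good hP hl T_1801 f0
theorem G_1800 (hP : P.ok) (hl : ¬ InB P loc) : FGood P h1800 :=
  frun_good hP hl T_1800 f0
theorem G_1799 (hP : P.ok) (hl : ¬ InB P loc) : FGood P h1799 :=
  frun_good hP hl T_1799 f0
theorem G_1798 (hP : P.ok) (hl : ¬ InB P loc) : FGood P h1798 :=
  frun_good hP hl T_1798 (fc (G_1800 hP hl) (fc (G_1801 hP hl) f0))
theorem G_1797 (hP : P.ok) (hl : ¬ InB P loc) : FGood P h1797 :=
  frun_good hP hl T_1797 f0
theorem G_1796 (hP : P.ok) (hl : ¬ InB P loc) : FGood P h1796 :=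
  frun_good hP hl T_1796 (fc (G_1797 hP hl) (fc (G_1798 hP hl) (fc (G_1799 hP hl) f0)))
theorem G_1795 (hP : P.ok) (hl : ¬ InB P loc) : FGood P h1795 :=
  frun_good hP hl T_1795 f0
theorem G_1794 (hP : P.ok) (hl : ¬ InB P loc) : FGood P h1794 :=
  frun_good hP hl T_1794 f0
theorem G_1793 (hP : P.ok) (hl : ¬ InB P loc) : FGood P h1793 :=
  frun_good hP hl T_1793 f0
theorem G_1792 (hP : P.ok) (hl : ¬ InB P loc) : FGood P h1792 :=
  frun_good hP hl T_1792 f0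
theorem G_1791 (hP : P.ok) (hl : ¬ InB P loc) : FGood P h1791 :=
  frun_good hP hl T_1791 f0
theorem G_1790 (hP : P.ok) (hl : ¬ InB P loc) : FGood P h1790 :=
  frun_good hP hl T_1790 (fc (G_1792 hP hl) (fc (G_1793 hP hl) f0))
theorem G_1789 (hP : P.ok) (hl : ¬ InB P loc) : FGood P h1789 :=
  frun_good hP hl T_1789 (fc (G_1790 hP hl) (fc (G_1791 hP hl) f0))
theorem G_1788 (hP : P.ok) (hl : ¬ InB P loc) : FGood P h1788 :=
  frun_good hP hl T_1788 f0
theorem G_1787 (hP : P.ok) (hl : ¬ InB P loc) : FGood P h1787 :=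
  frun_good hP hl T_1787 (fc (G_1788 hP hl) f0)
theorem G_1786 (hP : P.ok) (hl : ¬ InB P loc) : FGood P h1786 :=
  frun_good hP hl T_1786 f0
theorem G_1785 (hP : P.ok) (hl : ¬ InB P loc) : FGood P h1785 :=
  frun_good hP hl T_1785 (fc (G_1786 hP hl) f0)
theorem G_1784 (hP : P.ok) (hl : ¬ InB P loc) : FGood P h1784 :=
  frun_good hP hl T_1784 f0
theorem G_1783 (hP : P.ok) (hl : ¬ InB P loc) : FGood P h1783 :=
  frun_good hP hl T_1783 f0
theorem G_1782 (hP : P.ok) (hl : ¬ InB P loc) : FGood P h1782 :=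
  frun_good hP hl T_1782 f0
theorem G_1781 (hP : P.ok) (hl : ¬ InB P loc) : FGood P h1781 :=
  frun_good hP hl T_1781 f0
theorem G_1780 (hP : P.ok) (hl : ¬ InB P loc) : FGood P h1780 :=
  frun_good hP hl T_1780 f0
theorem G_1779 (hP : P.ok) (hl : ¬ InB P loc) : FGood P h1779 :=
  frun_good hP hl T_1779 f0
theorem G_1778 (hP : P.ok) (hl : ¬ InB P loc) : FGood P h1778 :=
  frun_good hP hl T_1778 f0
theorem G_1777 (hP : P.ok) (hl : ¬ InB P loc) : FGood P h1777 :=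
  frun_good hP hl T_1777 (fc (G_1778 hP hl) (fc (G_1779 hP hl) (fc (G_1780 hP hl) (fc (G_1781 hP hl) (fc (G_1782 hP hl) f0)))))
theorem G_1776 (hP : P.ok) (hl : ¬ InB P loc) : FGood P h1776 :=
  frun_good hP hl T_1776 f0
theorem G_1775 (hP : P.ok) (hl : ¬ InB P loc) : FGood P h1775 :=
  frun_good hP hl T_1775 (fc (G_1776 hP hl) f0)
theorem G_1774 (hP : P.ok) (hl : ¬ InB P loc) : FGood P h1774 :=
  frun_good hP hl T_1774 f0
theorem G_1773 (hP : P.ok) (hl : ¬ InB P loc) : FGood P h1773 :=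
  frun_good hP hl T_1773 f0
theorem G_1772 (hP : P.ok) (hl : ¬ InB P loc) : FGood P h1772 :=
  frun_good hP hl T_1772 (fc (G_1773 hP hl) (fc (G_1774 hP hl) (fc (G_1775 hP hl) f0)))
theorem G_1771 (hP : P.ok) (hl : ¬ InB P loc) : FGood P h1771 :=
  frun_good hP hl T_1771 f0
theorem G_1770 (hP : P.ok) (hl : ¬ InB P loc) : FGood P h1770 :=
  frun_good hP hl T_1770 f0
theorem G_1769 (hP : P.ok) (hl : ¬ InB P loc) : FGood P h1769 :=
  frun_good hP hl T_1769 f0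
theorem G_1768 (hP : P.ok) (hl : ¬ InB P loc) : FGood P h1768 :=
  frun_good hP hl T_1768 f0
theorem G_1767 (hP : P.ok) (hl : ¬ InB P loc) : FGood P h1767 :=
  frun_good hP hl T_1767 (fc (G_1768 hP hl) (fc (G_1769 hP hl) f0))
theorem G_1766 (hP : P.ok) (hl : ¬ InB P loc) : FGood P h1766 :=
  frun_good hP hl T_1766 (fc (G_1767 hP hl) f0)
theorem G_1765 (hP : P.ok) (hl : ¬ InB P loc) : FGood P h1765 :=
  frun_good hP hl T_1765 f0
theorem G_1764 (hP : P.ok) (hl : ¬ InB P loc) : FGood P h1764 :=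
  frun_good hP hl T_1764 (fc (G_1765 hP hl) f0)
theorem G_1763 (hP : P.ok) (hl : ¬ InB P loc) : FGood P h1763 :=
  frun_good hP hl T_1763 f0
theorem G_1762 (hP : P.ok) (hl : ¬ InB P loc) : FGood P h1762 :=
  frun_good hP hl T_1762 (fc (G_1763 hP hl) f0)
theorem G_1761 (hP : P.ok) (hl : ¬ InB P loc) : FGood P h1761 :=
  frun_good hP hl T_1761 f0
theorem G_1760 (hP : P.ok) (hl : ¬ InB P loc) : FGood P h1760 :=
  frun_good hP hl T_1760 f0
theorem G_1759 (hP : P.ok) (hl : ¬ InB P loc) : FGood P h1759 :=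
  frun_good hP hl T_1759 (fc (G_1760 hP hl) (fc (G_1761 hP hl) f0))
theorem G_1758 (hP : P.ok) (hl : ¬ InB P loc) : FGood P h1758 :=
  frun_good hP hl T_1758 f0
theorem G_1757 (hP : P.ok) (hl : ¬ InB P loc) : FGood P h1757 :=
  frun_good hP hl T_1757 (fc (G_1759 hP hl) f0)
theorem G_1756 (hP : P.ok) (hl : ¬ InB P loc) : FGood P h1756 :=
  frun_good hP hl T_1756 f0
theorem G_1755 (hP : P.ok) (hl : ¬ InB P loc) : FGood P h1755 :=
  frun_good hP hl T_1755 f0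
theorem G_1754 (hP : P.ok) (hl : ¬ InB P loc) : FGood P h1754 :=
  frun_good hP hl T_1754 (fc (G_1755 hP hl) (fc (G_1756 hP hl) (fc (G_1757 hP hl) (fc (G_1758 hP hl) f0))))
theorem G_1753 (hP : P.ok) (hl : ¬ InB P loc) : FGood P h1753 :=
  frun_good hP hl T_1753 f0
theorem G_1752 (hP : P.ok) (hl : ¬ InB P loc) : FGood P h1752 :=
  frun_good hP hl T_1752 f0
theorem G_1751 (hP : P.ok) (hl : ¬ InB P loc) : FGood P h1751 :=
  frun_good hP hl T_1751 (fc (G_1752 hP hl) f0)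
theorem G_1750 (hP : P.ok) (hl : ¬ InB P loc) : FGood P h1750 :=
  frun_good hP hl T_1750 (fc (G_1751 hP hl) f0)
theorem G_1749 (hP : P.ok) (hl : ¬ InB P loc) : FGood P h1749 :=
  frun_good hP hl T_1749 f0
theorem G_1748 (hP : P.ok) (hl : ¬ InB P loc) : FGood P h1748 :=
  frun_good hP hl T_1748 (fc (G_1749 hP hl) f0)
theorem G_1747 (hP : P.ok) (hl : ¬ InB P loc) : FGood P h1747 :=
  frun_good hP hl T_1747 f0
theorem G_1746 (hP : P.ok) (hl : ¬ InB P loc) : FGood P h1746 :=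
  frun_good hP hl T_1746 f0
theorem G_1745 (hP : P.ok) (hl : ¬ InB P loc) : FGood P h1745 :=
  frun_good hP hl T_1745 f0
theorem G_1744 (hP : P.ok) (hl : ¬ InB P loc) : FGood P h1744 :=
  frun_good hP hl T_1744 (fc (G_1746 hP hl) (fc (G_1747 hP hl) (fc (G_1748 hP hl) f0)))
theorem G_1743 (hP : P.ok) (hl : ¬ InB P loc) : FGood P h1743 :=
  frun_good hP hl T_1743 f0
theorem G_1742 (hP : P.ok) (hl : ¬ InB P loc) : FGood P h1742 :=
  frun_good hP hl T_1742 (fc (G_1743 hP hl) (fc (G_1744 hP hl) (fc (G_1745 hP hl) f0)))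
theorem G_1741 (hP : P.ok) (hl : ¬ InB P loc) : FGood P h1741 :=
  frun_good hP hl T_1741 f0
theorem G_1740 (hP : P.ok) (hl : ¬ InB P loc) : FGood P h1740 :=
  frun_good hP hl T_1740 f0
theorem G_1739 (hP : P.ok) (hl : ¬ InB P loc) : FGood P h1739 :=
  frun_good hP hl T_1739 f0
theorem G_1738 (hP : P.ok) (hl : ¬ InB P loc) : FGood P h1738 :=
  frun_good hP hl T_1738 f0
theorem G_1737 (hP : P.ok) (hl : ¬ InB P loc) : FGood P h1737 :=
  frun_good hP hl T_1737 f0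
theorem G_1736 (hP : P.ok) (hl : ¬ InB P loc) : FGood P h1736 :=
  frun_good hP hl T_1736 (fc (G_1738 hP hl) f0)
theorem G_1735 (hP : P.ok) (hl : ¬ InB P loc) : FGood P h1735 :=
  frun_good hP hl T_1735 (fc (G_1737 hP hl) f0)
theorem G_1734 (hP : P.ok) (hl : ¬ InB P loc) : FGood P h1734 :=
  frun_good hP hl T_1734 (fc (G_1735 hP hl) (fc (G_1736 hP hl) f0))
theorem G_1733 (hP : P.ok) (hl : ¬ InB P loc) : FGood P h1733 :=
  frun_good hP hl T_1733 f0
theorem G_1732 (hP : P.ok) (hl : ¬ InB P loc) : FGood P h1732 :=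
  frun_good hP hl T_1732 f0
theorem G_1731 (hP : P.ok) (hl : ¬ InB P loc) : FGood P h1731 :=
  frun_good hP hl T_1731 (fc (G_1732 hP hl) f0)
theorem G_1730 (hP : P.ok) (hl : ¬ InB P loc) : FGood P h1730 :=
  frun_good hP hl T_1730 f0
theorem G_1729 (hP : P.ok) (hl : ¬ InB P loc) : FGood P h1729 :=
  frun_good hP hl T_1729 f0
theorem G_1728 (hP : P.ok) (hl : ¬ InB P loc) : FGood P h1728 :=
  frun_good hP hl T_1728 f0
theorem G_1727 (hP : P.ok) (hl : ¬ InB P loc) : FGood P h1727 :=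
  frun_good hP hl T_1727 (fc (G_1728 hP hl) f0)
theorem G_1726 (hP : P.ok) (hl : ¬ InB P loc) : FGood P h1726 :=
  frun_good hP hl T_1726 f0
theorem G_1725 (hP : P.ok) (hl : ¬ InB P loc) : FGood P h1725 :=
  frun_good hP hl T_1725 (fc (G_1726 hP hl) (fc (G_1727 hP hl) f0))
theorem G_1724 (hP : P.ok) (hl : ¬ InB P loc) : FGood P h1724 :=
  frun_good hP hl T_1724 f0
theorem G_1723 (hP : P.ok) (hl : ¬ InB P loc) : FGood P h1723 :=
  frun_good hP hl T_1723 f0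
theorem G_1722 (hP : P.ok) (hl : ¬ InB P loc) : FGood P h1722 :=
  frun_good hP hl T_1722 f0
theorem G_1721 (hP : P.ok) (hl : ¬ InB P loc) : FGood P h1721 :=
  frun_good hP hl T_1721 (fc (G_1722 hP hl) (fc (G_1723 hP hl) (fc (G_1724 hP hl) (fc (G_1725 hP hl) f0))))
theorem G_1720 (hP : P.ok) (hl : ¬ InB P loc) : FGood P h1720 :=
  frun_good hP hl T_1720 f0
theorem G_1719 (hP : P.ok) (hl : ¬ InB P loc) : FGood P h1719 :=
  frun_good hP hl T_1719 (fc (G_1720 hP hl) f0)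
theorem G_1718 (hP : P.ok) (hl : ¬ InB P loc) : FGood P h1718 :=
  frun_good hP hl T_1718 f0
theorem G_1717 (hP : P.ok) (hl : ¬ InB P loc) : FGood P h1717 :=
  frun_good hP hl T_1717 f0
theorem G_1716 (hP : P.ok) (hl : ¬ InB P loc) : FGood P h1716 :=
  frun_good hP hl T_1716 (fc (G_1717 hP hl) f0)
theorem G_1715 (hP : P.ok) (hl : ¬ InB P loc) : FGood P h1715 :=
  frun_good hP hl T_1715 (fc (G_1716 hP hl) f0)
theorem G_1714 (hP : P.ok) (hl : ¬ InB P loc) : FGood P h1714 :=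
  frun_good hP hl T_1714 (fc (G_1715 hP hl) f0)
theorem G_1713 (hP : P.ok) (hl : ¬ InB P loc) : FGood P h1713 :=
  frun_good hP hl T_1713 f0
theorem G_1712 (hP : P.ok) (hl : ¬ InB P loc) : FGood P h1712 :=
  frun_good hP hl T_1712 f0
theorem G_1711 (hP : P.ok) (hl : ¬ InB P loc) : FGood P h1711 :=
  frun_good hP hl T_1711 (fc (G_1712 hP hl) f0)
theorem G_1710 (hP : P.ok) (hl : ¬ InB P loc) : FGood P h1710 :=
  frun_good hP hl T_1710 f0
theorem G_1709 (hP : P.ok) (hl : ¬ InB P loc) : FGood P h1709 :=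
  frun_good hP hl T_1709 (fc (G_1710 hP hl) f0)
theorem G_1708 (hP : P.ok) (hl : ¬ InB P loc) : FGood P h1708 :=
  frun_good hP hl T_1708 (fc (G_1709 hP hl) f0)
theorem G_1707 (hP : P.ok) (hl : ¬ InB P loc) : FGood P h1707 :=
  frun_good hP hl T_1707 f0
theorem G_1706 (hP : P.ok) (hl : ¬ InB P loc) : FGood P h1706 :=
  frun_good hP hl T_1706 (fc (G_1707 hP hl) f0)
theorem G_1705 (hP : P.ok) (hl : ¬ InB P loc) : FGood P h1705 :=
  frun_good hP hl T_1705 f0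
theorem G_1704 (hP : P.ok) (hl : ¬ InB P loc) : FGood P h1704 :=
  frun_good hP hl T_1704 f0
theorem G_1703 (hP : P.ok) (hl : ¬ InB P loc) : FGood P h1703 :=
  frun_good hP hl T_1703 f0
theorem G_1702 (hP : P.ok) (hl : ¬ InB P loc) : FGood P h1702 :=
  frun_good hP hl T_1702 f0
theorem G_1701 (hP : P.ok) (hl : ¬ InB P loc) : FGood P h1701 :=
  frun_good hP hl T_1701 (fc (G_1702 hP hl) (fc (G_1703 hP hl) f0))
theorem G_1700 (hP : P.ok) (hl : ¬ InB P loc) : FGood P h1700 :=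
  frun_good hP hl T_1700 f0
theorem G_1699 (hP : P.ok) (hl : ¬ InB P loc) : FGood P h1699 :=
  frun_good hP hl T_1699 f0
theorem G_1698 (hP : P.ok) (hl : ¬ InB P loc) : FGood P h1698 :=
  frun_good hP hl T_1698 (fc (G_1699 hP hl) (fc (G_1700 hP hl) f0))
theorem G_1697 (hP : P.ok) (hl : ¬ InB P loc) : FGood P h1697 :=
  frun_good hP hl T_1697 f0
theorem G_1696 (hP : P.ok) (hl : ¬ InB P loc) : FGood P h1696 :=
  frun_good hP hl T_1696 f0
theorem G_1695 (hP : P.ok) (hl : ¬ InB P loc) : FGood P h1695 :=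
  frun_good hP hl T_1695 f0
theorem G_1694 (hP : P.ok) (hl : ¬ InB P loc) : FGood P h1694 :=
  frun_good hP hl T_1694 f0
theorem G_1693 (hP : P.ok) (hl : ¬ InB P loc) : FGood P h1693 :=
  frun_good hP hl T_1693 f0
theorem G_1692 (hP : P.ok) (hl : ¬ InB P loc) : FGood P h1692 :=
  frun_good hP hl T_1692 (fc (G_1695 hP hl) f0)
theorem G_1691 (hP : P.ok) (hl : ¬ InB P loc) : FGood P h1691 :=
  frun_good hP hl T_1691 f0
theorem G_1690 (hP : P.ok) (hl : ¬ InB P loc) : FGood P h1690 :=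
  frun_good hP hl T_1690 (fc (G_1692 hP hl) (fc (G_1693 hP hl) (fc (G_1694 hP hl) f0)))
theorem G_1689 (hP : P.ok) (hl : ¬ InB P loc) : FGood P h1689 :=
  frun_good hP hl T_1689 f0
theorem G_1688 (hP : P.ok) (hl : ¬ InB P loc) : FGood P h1688 :=
  frun_good hP hl T_1688 (fc (G_1689 hP hl) (fc (G_1690 hP hl) (fc (G_1691 hP hl) f0)))
theorem G_1687 (hP : P.ok) (hl : ¬ InB P loc) : FGood P h1687 :=
  frun_good hP hl T_1687 f0
theorem G_1686 (hP : P.ok) (hl : ¬ InB P loc) : FGood P h1686 :=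
  frun_good hP hl T_1686 f0
theorem G_1685 (hP : P.ok) (hl : ¬ InB P loc) : FGood P h1685 :=
  frun_good hP hl T_1685 (fc (G_1686 hP hl) f0)
theorem G_1684 (hP : P.ok) (hl : ¬ InB P loc) : FGood P h1684 :=
  frun_good hP hl T_1684 f0
theorem G_1683 (hP : P.ok) (hl : ¬ InB P loc) : FGood P h1683 :=
  frun_good hP hl T_1683 f0
theorem G_1682 (hP : P.ok) (hl : ¬ InB P loc) : FGood P h1682 :=
  frun_good hP hl T_1682 (fc (G_1683 hP hl) (fc (G_1684 hP hl) (fc (G_1685 hP hl) f0)))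
theorem G_1681 (hP : P.ok) (hl : ¬ InB P loc) : FGood P h1681 :=
  frun_good hP hl T_1681 f0
theorem G_1680 (hP : P.ok) (hl : ¬ InB P loc) : FGood P h1680 :=
  frun_good hP hl T_1680 f0
theorem G_1679 (hP : P.ok) (hl : ¬ InB P loc) : FGood P h1679 :=
  frun_good hP hl T_1679 (fc (G_1680 hP hl) f0)
theorem G_1678 (hP : P.ok) (hl : ¬ InB P loc) : FGood P h1678 :=
  frun_good hP hl T_1678 f0
theorem G_1677 (hP : P.ok) (hl : ¬ InB P loc) : FGood P h1677 :=
  frun_good hP hl T_1677 (fc (G_1678 hP hl) (fc (G_1679 hP hl) f0))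
theorem G_1676 (hP : P.ok) (hl : ¬ InB P loc) : FGood P h1676 :=
  frun_good hP hl T_1676 f0
theorem G_1675 (hP : P.ok) (hl : ¬ InB P loc) : FGood P h1675 :=
  frun_good hP hl T_1675 f0
theorem G_1674 (hP : P.ok) (hl : ¬ InB P loc) : FGood P h1674 :=
  frun_good hP hl T_1674 (fc (G_1675 hP hl) (fc (G_1676 hP hl) (fc (G_1677 hP hl) f0)))
theorem G_1673 (hP : P.ok) (hl : ¬ InB P loc) : FGood P h1673 :=
  frun_good hP hl T_1673 (fc (G_1674 hP hl) f0)
theorem G_1672 (hP : P.ok) (hl : ¬ InB P loc) : FGood P h1672 :=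
  frun_good hP hl T_1672 f0
theorem G_1671 (hP : P.ok) (hl : ¬ InB P loc) : FGood P h1671 :=
  frun_good hP hl T_1671 f0
theorem G_1670 (hP : P.ok) (hl : ¬ InB P loc) : FGood P h1670 :=
  frun_good hP hl T_1670 (fc (G_1671 hP hl) f0)
theorem G_1669 (hP : P.ok) (hl : ¬ InB P loc) : FGood P h1669 :=
  frun_good hP hl T_1669 (fc (G_1670 hP hl) f0)
theorem G_1668 (hP : P.ok) (hl : ¬ InB P loc) : FGood P h1668 :=
  frun_good hP hl T_1668 f0
theorem G_1667 (hP : P.ok) (hl : ¬ InB P loc) : FGood P h1667 :=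
  frun_good hP hl T_1667 f0
theorem G_1666 (hP : P.ok) (hl : ¬ InB P loc) : FGood P h1666 :=
  frun_good hP hl T_1666 (fc (G_1667 hP hl) (fc (G_1668 hP hl) f0))
theorem G_1665 (hP : P.ok) (hl : ¬ InB P loc) : FGood P h1665 :=
  frun_good hP hl T_1665 f0
theorem G_1664 (hP : P.ok) (hl : ¬ InB P loc) : FGood P h1664 :=
  frun_good hP hl T_1664 (fc (G_1666 hP hl) f0)
theorem G_1663 (hP : P.ok) (hl : ¬ InB P loc) : FGood P h1663 :=
  frun_good hP hl T_1663 f0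
theorem G_1662 (hP : P.ok) (hl : ¬ InB P loc) : FGood P h1662 :=
  frun_good hP hl T_1662 (fc (G_1665 hP hl) f0)
theorem G_1661 (hP : P.ok) (hl : ¬ InB P loc) : FGood P h1661 :=
  frun_good hP hl T_1661 (fc (G_1662 hP hl) (fc (G_1663 hP hl) (fc (G_1664 hP hl) f0)))
theorem G_1660 (hP : P.ok) (hl : ¬ InB P loc) : FGood P h1660 :=
  frun_good hP hl T_1660 f0
theorem G_1659 (hP : P.ok) (hl : ¬ InB P loc) : FGood P h1659 :=
  frun_good hP hl T_1659 f0
theorem G_1658 (hP : P.ok) (hl : ¬ InB P loc) : FGood P h1658 :=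
  frun_good hP hl T_1658 f0
theorem G_1657 (hP : P.ok) (hl : ¬ InB P loc) : FGood P h1657 :=
  frun_good hP hl T_1657 f0
theorem G_1656 (hP : P.ok) (hl : ¬ InB P loc) : FGood P h1656 :=
  frun_good hP hl T_1656 f0
theorem G_1655 (hP : P.ok) (hl : ¬ InB P loc) : FGood P h1655 :=
  frun_good hP hl T_1655 f0
theorem G_1654 (hP : P.ok) (hl : ¬ InB P loc) : FGood P h1654 :=
  frun_good hP hl T_1654 f0
theorem G_1653 (hP : P.ok) (hl : ¬ InB P loc) : FGood P h1653 :=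
  frun_good hP hl T_1653 f0
theorem G_1652 (hP : P.ok) (hl : ¬ InB P loc) : FGood P h1652 :=
  frun_good hP hl T_1652 (fc (G_1657 hP hl) f0)
theorem G_1651 (hP : P.ok) (hl : ¬ InB P loc) : FGood P h1651 :=
  frun_good hP hl T_1651 (fc (G_1655 hP hl) (fc (G_1656 hP hl) f0))
theorem G_1650 (hP : P.ok) (hl : ¬ InB P loc) : FGood P h1650 :=
  frun_good hP hl T_1650 (fc (G_1651 hP hl) (fc (G_1652 hP hl) (fc (G_1653 hP hl) (fc (G_1654 hP hl) f0))))
theorem G_1649 (hP : P.ok) (hl : ¬ InB P loc) : FGood P h1649 :=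
  frun_good hP hl T_1649 f0
theorem G_1648 (hP : P.ok) (hl : ¬ InB P loc) : FGood P h1648 :=
  frun_good hP hl T_1648 (fc (G_1649 hP hl) f0)
theorem G_1647 (hP : P.ok) (hl : ¬ InB P loc) : FGood P h1647 :=
  frun_good hP hl T_1647 (fc (G_1648 hP hl) f0)
theorem G_1646 (hP : P.ok) (hl : ¬ InB P loc) : FGood P h1646 :=
  frun_good hP hl T_1646 (fc (G_1647 hP hl) f0)
theorem G_1645 (hP : P.ok) (hl : ¬ InB P loc) : FGood P h1645 :=
  frun_good hP hl T_1645 f0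
theorem G_1644 (hP : P.ok) (hl : ¬ InB P loc) : FGood P h1644 :=
  frun_good hP hl T_1644 f0
theorem G_1643 (hP : P.ok) (hl : ¬ InB P loc) : FGood P h1643 :=
  frun_good hP hl T_1643 f0
theorem G_1642 (hP : P.ok) (hl : ¬ InB P loc) : FGood P h1642 :=
  frun_good hP hl T_1642 f0
theorem G_1641 (hP : P.ok) (hl : ¬ InB P loc) : FGood P h1641 :=
  frun_good hP hl T_1641 f0
theorem G_1640 (hP : P.ok) (hl : ¬ InB P loc) : FGood P h1640 :=
  frun_good hP hl T_1640 (fc (G_1641 hP hl) f0)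
theorem G_1639 (hP : P.ok) (hl : ¬ InB P loc) : FGood P h1639 :=
  frun_good hP hl T_1639 (fc (G_1640 hP hl) f0)
theorem G_1638 (hP : P.ok) (hl : ¬ InB P loc) : FGood P h1638 :=
  frun_good hP hl T_1638 f0
theorem G_1637 (hP : P.ok) (hl : ¬ InB P loc) : FGood P h1637 :=
  frun_good hP hl T_1637 (fc (G_1638 hP hl) f0)
theorem G_1636 (hP : P.ok) (hl : ¬ InB P loc) : FGood P h1636 :=
  frun_good hP hl T_1636 f0
theorem G_1635 (hP : P.ok) (hl : ¬ InB P loc) : FGood P h1635 :=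
  frun_good hP hl T_1635 f0
theorem G_1634 (hP : P.ok) (hl : ¬ InB P loc) : FGood P h1634 :=
  frun_good hP hl T_1634 f0
theorem G_1633 (hP : P.ok) (hl : ¬ InB P loc) : FGood P h1633 :=
  frun_good hP hl T_1633 (fc (G_1636 hP hl) (fc (G_1637 hP hl) f0))
theorem G_1632 (hP : P.ok) (hl : ¬ InB P loc) : FGood P h1632 :=
  frun_good hP hl T_1632 (fc (G_1633 hP hl) (fc (G_1634 hP hl) (fc (G_1635 hP hl) f0)))
theorem G_1631 (hP : P.ok) (hl : ¬ InB P loc) : FGood P h1631 :=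
  frun_good hP hl T_1631 f0
theorem G_1630 (hP : P.ok) (hl : ¬ InB P loc) : FGood P h1630 :=
  frun_good hP hl T_1630 (fc (G_1631 hP hl) f0)
theorem G_1629 (hP : P.ok) (hl : ¬ InB P loc) : FGood P h1629 :=
  frun_good hP hl T_1629 f0
theorem G_1628 (hP : P.ok) (hl : ¬ InB P loc) : FGood P h1628 :=
  frun_good hP hl T_1628 (fc (G_1629 hP hl) f0)
theorem G_1627 (hP : P.ok) (hl : ¬ InB P loc) : FGood P h1627 :=
  frun_good hP hl T_1627 f0
theorem G_1626 (hP : P.ok) (hl : ¬ InB P loc) : FGood P h1626 :=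
  frun_good hP hl T_1626 f0
theorem G_1625 (hP : P.ok) (hl : ¬ InB P loc) : FGood P h1625 :=
  frun_good hP hl T_1625 (fc (G_1626 hP hl) f0)
theorem G_1624 (hP : P.ok) (hl : ¬ InB P loc) : FGood P h1624 :=
  frun_good hP hl T_1624 f0
theorem G_1623 (hP : P.ok) (hl : ¬ InB P loc) : FGood P h1623 :=
  frun_good hP hl T_1623 f0
theorem G_1622 (hP : P.ok) (hl : ¬ InB P loc) : FGood P h1622 :=
  frun_good hP hl T_1622 f0
theorem G_1621 (hP : P.ok) (hl : ¬ InB P loc) : FGood P h1621 :=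
  frun_good hP hl T_1621 f0
theorem G_1620 (hP : P.ok) (hl : ¬ InB P loc) : FGood P h1620 :=
  frun_good hP hl T_1620 f0
theorem G_1619 (hP : P.ok) (hl : ¬ InB P loc) : FGood P h1619 :=
  frun_good hP hl T_1619 (fc (G_1620 hP hl) f0)
theorem G_1618 (hP : P.ok) (hl : ¬ InB P loc) : FGood P h1618 :=
  frun_good hP hl T_1618 f0
theorem G_1617 (hP : P.ok) (hl : ¬ InB P loc) : FGood P h1617 :=
  frun_good hP hl T_1617 f0
theorem G_1616 (hP : P.ok) (hl : ¬ InB P loc) : FGood P h1616 :=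
  frun_good hP hl T_1616 f0
theorem G_1615 (hP : P.ok) (hl : ¬ InB P loc) : FGood P h1615 :=
  frun_good hP hl T_1615 f0
theorem G_1614 (hP : P.ok) (hl : ¬ InB P loc) : FGood P h1614 :=
  frun_good hP hl T_1614 (fc (G_1618 hP hl) f0)
theorem G_1613 (hP : P.ok) (hl : ¬ InB P loc) : FGood P h1613 :=
  frun_good hP hl T_1613 (fc (G_1614 hP hl) (fc (G_1615 hP hl) (fc (G_1616 hP hl) (fc (G_1617 hP hl) f0))))
theorem G_1612 (hP : P.ok) (hl : ¬ InB P loc) : FGood P h1612 :=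
  frun_good hP hl T_1612 f0
theorem G_1611 (hP : P.ok) (hl : ¬ InB P loc) : FGood P h1611 :=
  frun_good hP hl T_1611 f0
theorem G_1610 (hP : P.ok) (hl : ¬ InB P loc) : FGood P h1610 :=
  frun_good hP hl T_1610 f0
theorem G_1609 (hP : P.ok) (hl : ¬ InB P loc) : FGood P h1609 :=
  frun_good hP hl T_1609 (fc (G_1611 hP hl) f0)
theorem G_1608 (hP : P.ok) (hl : ¬ InB P loc) : FGood P h1608 :=
  frun_good hP hl T_1608 (fc (G_1609 hP hl) (fc (G_1610 hP hl) f0))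
theorem G_1607 (hP : P.ok) (hl : ¬ InB P loc) : FGood P h1607 :=
  frun_good hP hl T_1607 f0
theorem G_1606 (hP : P.ok) (hl : ¬ InB P loc) : FGood P h1606 :=
  frun_good hP hl T_1606 f0
theorem G_1605 (hP : P.ok) (hl : ¬ InB P loc) : FGood P h1605 :=
  frun_good hP hl T_1605 (fc (G_1606 hP hl) f0)
theorem G_1604 (hP : P.ok) (hl : ¬ InB P loc) : FGood P h1604 :=
  frun_good hP hl T_1604 (fc (G_1605 hP hl) f0)
theorem G_1603 (hP : P.ok) (hl : ¬ InB P loc) : FGood P h1603 :=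
  frun_good hP hl T_1603 f0
theorem G_1602 (hP : P.ok) (hl : ¬ InB P loc) : FGood P h1602 :=
  frun_good hP hl T_1602 f0
theorem G_1601 (hP : P.ok) (hl : ¬ InB P loc) : FGood P h1601 :=
  frun_good hP hl T_1601 f0
theorem G_1600 (hP : P.ok) (hl : ¬ InB P loc) : FGood P h1600 :=
  frun_good hP hl T_1600 (fc (G_1602 hP hl) f0)
theorem G_1599 (hP : P.ok) (hl : ¬ InB P loc) : FGood P h1599 :=
  frun_good hP hl T_1599 f0
theorem G_1598 (hP : P.ok) (hl : ¬ InB P loc) : FGood P h1598 :=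
  frun_good hP hl T_1598 f0
theorem G_1597 (hP : P.ok) (hl : ¬ InB P loc) : FGood P h1597 :=
  frun_good hP hl T_1597 f0
theorem G_1596 (hP : P.ok) (hl : ¬ InB P loc) : FGood P h1596 :=
  frun_good hP hl T_1596 (fc (G_1599 hP hl) (fc (G_1600 hP hl) (fc (G_1601 hP hl) f0)))
theorem G_1595 (hP : P.ok) (hl : ¬ InB P loc) : FGood P h1595 :=
  frun_good hP hl T_1595 (fc (G_1596 hP hl) (fc (G_1597 hP hl) (fc (G_1598 hP hl) f0)))
theorem G_1594 (hP : P.ok) (hl : ¬ InB P loc) : FGood P h1594 :=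
  frun_good hP hl T_1594 f0
theorem G_1593 (hP : P.ok) (hl : ¬ InB P loc) : FGood P h1593 :=
  frun_good hP hl T_1593 (fc (G_1594 hP hl) f0)
theorem G_1592 (hP : P.ok) (hl : ¬ InB P loc) : FGood P h1592 :=
  frun_good hP hl T_1592 (fc (G_1593 hP hl) f0)
theorem G_1591 (hP : P.ok) (hl : ¬ InB P loc) : FGood P h1591 :=
  frun_good hP hl T_1591 (fc (G_1592 hP hl) f0)
theorem G_1590 (hP : P.ok) (hl : ¬ InB P loc) : FGood P h1590 :=
  frun_good hP hl T_1590 f0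
theorem G_1589 (hP : P.ok) (hl : ¬ InB P loc) : FGood P h1589 :=
  frun_good hP hl T_1589 (fc (G_1590 hP hl) (fc (G_1591 hP hl) f0))
theorem G_1588 (hP : P.ok) (hl : ¬ InB P loc) : FGood P h1588 :=
  frun_good hP hl T_1588 f0
theorem G_1587 (hP : P.ok) (hl : ¬ InB P loc) : FGood P h1587 :=
  frun_good hP hl T_1587 f0
theorem G_1586 (hP : P.ok) (hl : ¬ InB P loc) : FGood P h1586 :=
  frun_good hP hl T_1586 f0
theorem G_1585 (hP : P.ok) (hl : ¬ InB P loc) : FGood P h1585 :=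
  frun_good hP hl T_1585 (fc (G_1586 hP hl) f0)
theorem G_1584 (hP : P.ok) (hl : ¬ InB P loc) : FGood P h1584 :=
  frun_good hP hl T_1584 f0
theorem G_1583 (hP : P.ok) (hl : ¬ InB P loc) : FGood P h1583 :=
  frun_good hP hl T_1583 f0
theorem G_1582 (hP : P.ok) (hl : ¬ InB P loc) : FGood P h1582 :=
  frun_good hP hl T_1582 f0
theorem G_1581 (hP : P.ok) (hl : ¬ InB P loc) : FGood P h1581 :=
  frun_good hP hl T_1581 f0
theorem G_1580 (hP : P.ok) (hl : ¬ InB P loc) : FGood P h1580 :=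
  frun_good hP hl T_1580 f0
theorem G_1579 (hP : P.ok) (hl : ¬ InB P loc) : FGood P h1579 :=
  frun_good hP hl T_1579 (fc (G_1580 hP hl) (fc (G_1581 hP hl) (fc (G_1582 hP hl) (fc (G_1583 hP hl) (fc (G_1584 hP hl) (fc (G_1585 hP hl) f0))))))
theorem G_1578 (hP : P.ok) (hl : ¬ InB P loc) : FGood P h1578 :=
  frun_good hP hl T_1578 f0
theorem G_1577 (hP : P.ok) (hl : ¬ InB P loc) : FGood P h1577 :=
  frun_good hP hl T_1577 f0
theorem G_1576 (hP : P.ok) (hl : ¬ InB P loc) : FGood P h1576 :=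
  frun_good hP hl T_1576 f0
theorem G_1575 (hP : P.ok) (hl : ¬ InB P loc) : FGood P h1575 :=
  frun_good hP hl T_1575 (fc (G_1576 hP hl) f0)
theorem G_1574 (hP : P.ok) (hl : ¬ InB P loc) : FGood P h1574 :=
  frun_good hP hl T_1574 (fc (G_1575 hP hl) f0)
theorem G_1573 (hP : P.ok) (hl : ¬ InB P loc) : FGood P h1573 :=
  frun_good hP hl T_1573 f0
theorem G_1572 (hP : P.ok) (hl : ¬ InB P loc) : FGood P h1572 :=
  frun_good hP hl T_1572 f0
theorem G_1571 (hP : P.ok) (hl : ¬ InB P loc) : FGood P h1571 :=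
  frun_good hP hl T_1571 f0
theorem G_1570 (hP : P.ok) (hl : ¬ InB P loc) : FGood P h1570 :=
  frun_good hP hl T_1570 f0
theorem G_1569 (hP : P.ok) (hl : ¬ InB P loc) : FGood P h1569 :=
  frun_good hP hl T_1569 (fc (G_1573 hP hl) f0)
theorem G_1568 (hP : P.ok) (hl : ¬ InB P loc) : FGood P h1568 :=
  frun_good hP hl T_1568 (fc (G_1571 hP hl) (fc (G_1572 hP hl) f0))
theorem G_1567 (hP : P.ok) (hl : ¬ InB P loc) : FGood P h1567 :=
  frun_good hP hl T_1567 (fc (G_1568 hP hl) (fc (G_1569 hP hl) (fc (G_1570 hP hl) f0)))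
theorem G_1566 (hP : P.ok) (hl : ¬ InB P loc) : FGood P h1566 :=
  frun_good hP hl T_1566 f0
theorem G_1565 (hP : P.ok) (hl : ¬ InB P loc) : FGood P h1565 :=
  frun_good hP hl T_1565 f0
theorem G_1564 (hP : P.ok) (hl : ¬ InB P loc) : FGood P h1564 :=
  frun_good hP hl T_1564 f0
theorem G_1563 (hP : P.ok) (hl : ¬ InB P loc) : FGood P h1563 :=
  frun_good hP hl T_1563 f0
theorem G_1562 (hP : P.ok) (hl : ¬ InB P loc) : FGood P h1562 :=
  frun_good hP hl T_1562 (fc (G_1563 hP hl) (fc (G_1564 hP hl) f0))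
theorem G_1561 (hP : P.ok) (hl : ¬ InB P loc) : FGood P h1561 :=
  frun_good hP hl T_1561 f0
theorem G_1560 (hP : P.ok) (hl : ¬ InB P loc) : FGood P h1560 :=
  frun_good hP hl T_1560 f0
theorem G_1559 (hP : P.ok) (hl : ¬ InB P loc) : FGood P h1559 :=
  frun_good hP hl T_1559 f0
theorem G_1558 (hP : P.ok) (hl : ¬ InB P loc) : FGood P h1558 :=
  frun_good hP hl T_1558 (fc (G_1559 hP hl) (fc (G_1560 hP hl) f0))
theorem G_1557 (hP : P.ok) (hl : ¬ InB P loc) : FGood P h1557 :=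
  frun_good hP hl T_1557 f0
theorem G_1556 (hP : P.ok) (hl : ¬ InB P loc) : FGood P h1556 :=
  frun_good hP hl T_1556 (fc (G_1557 hP hl) f0)
theorem G_1555 (hP : P.ok) (hl : ¬ InB P loc) : FGood P h1555 :=
  frun_good hP hl T_1555 f0
theorem G_1554 (hP : P.ok) (hl : ¬ InB P loc) : FGood P h1554 :=
  frun_good hP hl T_1554 f0
theorem G_1553 (hP : P.ok) (hl : ¬ InB P loc) : FGood P h1553 :=
  frun_good hP hl T_1553 f0
theorem G_1552 (hP : P.ok) (hl : ¬ InB P loc) : FGood P h1552 :=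
  frun_good hP hl T_1552 (fc (G_1554 hP hl) (fc (G_1555 hP hl) (fc (G_1556 hP hl) f0)))
theorem G_1551 (hP : P.ok) (hl : ¬ InB P loc) : FGood P h1551 :=
  frun_good hP hl T_1551 (fc (G_1552 hP hl) (fc (G_1553 hP hl) f0))
theorem G_1550 (hP : P.ok) (hl : ¬ InB P loc) : FGood P h1550 :=
  frun_good hP hl T_1550 f0
theorem G_1549 (hP : P.ok) (hl : ¬ InB P loc) : FGood P h1549 :=
  frun_good hP hl T_1549 (fc (G_1550 hP hl) f0)
theorem G_1548 (hP : P.ok) (hl : ¬ InB P loc) : FGood P h1548 :=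
  frun_good hP hl T_1548 f0
theorem G_1547 (hP : P.ok) (hl : ¬ InB P loc) : FGood P h1547 :=
  frun_good hP hl T_1547 f0
theorem G_1546 (hP : P.ok) (hl : ¬ InB P loc) : FGood P h1546 :=
  frun_good hP hl T_1546 (fc (G_1548 hP hl) f0)
theorem G_1545 (hP : P.ok) (hl : ¬ InB P loc) : FGood P h1545 :=
  frun_good hP hl T_1545 (fc (G_1546 hP hl) (fc (G_1547 hP hl) f0))
theorem G_1544 (hP : P.ok) (hl : ¬ InB P loc) : FGood P h1544 :=
  frun_good hP hl T_1544 f0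
theorem G_1543 (hP : P.ok) (hl : ¬ InB P loc) : FGood P h1543 :=
  frun_good hP hl T_1543 f0
theorem G_1542 (hP : P.ok) (hl : ¬ InB P loc) : FGood P h1542 :=
  frun_good hP hl T_1542 f0
theorem G_1541 (hP : P.ok) (hl : ¬ InB P loc) : FGood P h1541 :=
  frun_good hP hl T_1541 (fc (G_1542 hP hl) (fc (G_1543 hP hl) (fc (G_1544 hP hl) f0)))
theorem G_1540 (hP : P.ok) (hl : ¬ InB P loc) : FGood P h1540 :=
  frun_good hP hl T_1540 (fc (G_1541 hP hl) f0)
theorem G_1539 (hP : P.ok) (hl : ¬ InB P loc) : FGood P h1539 :=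
  frun_good hP hl T_1539 f0
theorem G_1538 (hP : P.ok) (hl : ¬ InB P loc) : FGood P h1538 :=
  frun_good hP hl T_1538 (fc (G_1539 hP hl) f0)
theorem G_1537 (hP : P.ok) (hl : ¬ InB P loc) : FGood P h1537 :=
  frun_good hP hl T_1537 f0
theorem G_1536 (hP : P.ok) (hl : ¬ InB P loc) : FGood P h1536 :=
  frun_good hP hl T_1536 f0
theorem G_1535 (hP : P.ok) (hl : ¬ InB P loc) : FGood P h1535 :=
  frun_good hP hl T_1535 f0
theorem G_1534 (hP : P.ok) (hl : ¬ InB P loc) : FGood P h1534 :=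
  frun_good hP hl T_1534 (fc (G_1537 hP hl) f0)
theorem G_1533 (hP : P.ok) (hl : ¬ InB P loc) : FGood P h1533 :=
  frun_good hP hl T_1533 (fc (G_1534 hP hl) (fc (G_1535 hP hl) (fc (G_1536 hP hl) f0)))
theorem G_1532 (hP : P.ok) (hl : ¬ InB P loc) : FGood P h1532 :=
  frun_good hP hl T_1532 (fc (G_1533 hP hl) f0)
theorem G_1531 (hP : P.ok) (hl : ¬ InB P loc) : FGood P h1531 :=
  frun_good hP hl T_1531 f0
theorem G_1530 (hP : P.ok) (hl : ¬ InB P loc) : FGood P h1530 :=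
  frun_good hP hl T_1530 (fc (G_1531 hP hl) f0)
theorem G_1529 (hP : P.ok) (hl : ¬ InB P loc) : FGood P h1529 :=
  frun_good hP hl T_1529 f0
theorem G_1528 (hP : P.ok) (hl : ¬ InB P loc) : FGood P h1528 :=
  frun_good hP hl T_1528 f0
theorem G_1527 (hP : P.ok) (hl : ¬ InB P loc) : FGood P h1527 :=
  frun_good hP hl T_1527 (fc (G_1528 hP hl) (fc (G_1529 hP hl) (fc (G_1530 hP hl) f0)))
theorem G_1526 (hP : P.ok) (hl : ¬ InB P loc) : FGood P h1526 :=
  frun_good hP hl T_1526 f0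
theorem G_1525 (hP : P.ok) (hl : ¬ InB P loc) : FGood P h1525 :=
  frun_good hP hl T_1525 f0
theorem G_1524 (hP : P.ok) (hl : ¬ InB P loc) : FGood P h1524 :=
  frun_good hP hl T_1524 f0
theorem G_1523 (hP : P.ok) (hl : ¬ InB P loc) : FGood P h1523 :=
  frun_good hP hl T_1523 f0
theorem G_1522 (hP : P.ok) (hl : ¬ InB P loc) : FGood P h1522 :=
  frun_good hP hl T_1522 f0
theorem G_1521 (hP : P.ok) (hl : ¬ InB P loc) : FGood P h1521 :=
  frun_good hP hl T_1521 (fc (G_1523 hP hl) (fc (G_1524 hP hl) f0))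
theorem G_1520 (hP : P.ok) (hl : ¬ InB P loc) : FGood P h1520 :=
  frun_good hP hl T_1520 f0
theorem G_1519 (hP : P.ok) (hl : ¬ InB P loc) : FGood P h1519 :=
  frun_good hP hl T_1519 f0
theorem G_1518 (hP : P.ok) (hl : ¬ InB P loc) : FGood P h1518 :=
  frun_good hP hl T_1518 f0
theorem G_1517 (hP : P.ok) (hl : ¬ InB P loc) : FGood P h1517 :=
  frun_good hP hl T_1517 (fc (G_1518 hP hl) (fc (G_1519 hP hl) (fc (G_1520 hP hl) (fc (G_1521 hP hl) (fc (G_1522 hP hl) f0)))))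
theorem G_1516 (hP : P.ok) (hl : ¬ InB P loc) : FGood P h1516 :=
  frun_good hP hl T_1516 f0
theorem G_1515 (hP : P.ok) (hl : ¬ InB P loc) : FGood P h1515 :=
  frun_good hP hl T_1515 f0
theorem G_1514 (hP : P.ok) (hl : ¬ InB P loc) : FGood P h1514 :=
  frun_good hP hl T_1514 f0
theorem G_1513 (hP : P.ok) (hl : ¬ InB P loc) : FGood P h1513 :=
  frun_good hP hl T_1513 f0
theorem G_1512 (hP : P.ok) (hl : ¬ InB P loc) : FGood P h1512 :=
  frun_good hP hl T_1512 (fc (G_1513 hP hl) (fc (G_1514 hP hl) (fc (G_1515 hP hl) (fc (G_1516 hP hl) f0))))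
theorem G_1511 (hP : P.ok) (hl : ¬ InB P loc) : FGood P h1511 :=
  frun_good hP hl T_1511 f0
theorem G_1510 (hP : P.ok) (hl : ¬ InB P loc) : FGood P h1510 :=
  frun_good hP hl T_1510 f0
theorem G_1509 (hP : P.ok) (hl : ¬ InB P loc) : FGood P h1509 :=
  frun_good hP hl T_1509 f0
theorem G_1508 (hP : P.ok) (hl : ¬ InB P loc) : FGood P h1508 :=
  frun_good hP hl T_1508 f0
theorem G_1507 (hP : P.ok) (hl : ¬ InB P loc) : FGood P h1507 :=
  frun_good hP hl T_1507 (fc (G_1509 hP hl) f0)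
theorem G_1506 (hP : P.ok) (hl : ¬ InB P loc) : FGood P h1506 :=
  frun_good hP hl T_1506 (fc (G_1508 hP hl) f0)
theorem G_1505 (hP : P.ok) (hl : ¬ InB P loc) : FGood P h1505 :=
  frun_good hP hl T_1505 (fc (G_1506 hP hl) (fc (G_1507 hP hl) f0))
theorem G_1504 (hP : P.ok) (hl : ¬ InB P loc) : FGood P h1504 :=
  frun_good hP hl T_1504 f0
theorem G_1503 (hP : P.ok) (hl : ¬ InB P loc) : FGood P h1503 :=
  frun_good hP hl T_1503 f0
theorem G_1502 (hP : P.ok) (hl : ¬ InB P loc) : FGood P h1502 :=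
  frun_good hP hl T_1502 f0
theorem G_1501 (hP : P.ok) (hl : ¬ InB P loc) : FGood P h1501 :=
  frun_good hP hl T_1501 f0
theorem G_1500 (hP : P.ok) (hl : ¬ InB P loc) : FGood P h1500 :=
  frun_good hP hl T_1500 f0
theorem G_1499 (hP : P.ok) (hl : ¬ InB P loc) : FGood P h1499 :=
  frun_good hP hl T_1499 (fc (G_1500 hP hl) (fc (G_1501 hP hl) f0))
theorem G_1498 (hP : P.ok) (hl : ¬ InB P loc) : FGood P h1498 :=
  frun_good hP hl T_1498 f0
theorem G_1497 (hP : P.ok) (hl : ¬ InB P loc) : FGood P h1497 :=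
  frun_good hP hl T_1497 (fc (G_1498 hP hl) f0)
theorem G_1496 (hP : P.ok) (hl : ¬ InB P loc) : FGood P h1496 :=
  frun_good hP hl T_1496 f0
theorem G_1495 (hP : P.ok) (hl : ¬ InB P loc) : FGood P h1495 :=
  frun_good hP hl T_1495 f0
theorem G_1494 (hP : P.ok) (hl : ¬ InB P loc) : FGood P h1494 :=
  frun_good hP hl T_1494 (fc (G_1495 hP hl) (fc (G_1496 hP hl) (fc (G_1497 hP hl) f0)))
theorem G_1493 (hP : P.ok) (hl : ¬ InB P loc) : FGood P h1493 :=
  frun_good hP hl T_1493 f0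
theorem G_1492 (hP : P.ok) (hl : ¬ InB P loc) : FGood P h1492 :=
  frun_good hP hl T_1492 f0
theorem G_1491 (hP : P.ok) (hl : ¬ InB P loc) : FGood P h1491 :=
  frun_good hP hl T_1491 f0
theorem G_1490 (hP : P.ok) (hl : ¬ InB P loc) : FGood P h1490 :=
  frun_good hP hl T_1490 f0
theorem G_1489 (hP : P.ok) (hl : ¬ InB P loc) : FGood P h1489 :=
  frun_good hP hl T_1489 (fc (G_1490 hP hl) (fc (G_1491 hP hl) (fc (G_1492 hP hl) (fc (G_1493 hP hl) f0))))
theorem G_1488 (hP : P.ok) (hl : ¬ InB P loc) : FGood P h1488 :=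
  frun_good hP hl T_1488 f0
theorem G_1487 (hP : P.ok) (hl : ¬ InB P loc) : FGood P h1487 :=
  frun_good hP hl T_1487 f0
theorem G_1486 (hP : P.ok) (hl : ¬ InB P loc) : FGood P h1486 :=
  frun_good hP hl T_1486 f0
theorem G_1485 (hP : P.ok) (hl : ¬ InB P loc) : FGood P h1485 :=
  frun_good hP hl T_1485 f0
theorem G_1484 (hP : P.ok) (hl : ¬ InB P loc) : FGood P h1484 :=
  frun_good hP hl T_1484 (fc (G_1485 hP hl) (fc (G_1486 hP hl) (fc (G_1487 hP hl) f0)))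
theorem G_1483 (hP : P.ok) (hl : ¬ InB P loc) : FGood P h1483 :=
  frun_good hP hl T_1483 f0
theorem G_1482 (hP : P.ok) (hl : ¬ InB P loc) : FGood P h1482 :=
  frun_good hP hl T_1482 f0
theorem G_1481 (hP : P.ok) (hl : ¬ InB P loc) : FGood P h1481 :=
  frun_good hP hl T_1481 f0
theorem G_1480 (hP : P.ok) (hl : ¬ InB P loc) : FGood P h1480 :=
  frun_good hP hl T_1480 f0
theorem G_1479 (hP : P.ok) (hl : ¬ InB P loc) : FGood P h1479 :=
  frun_good hP hl T_1479 f0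
theorem G_1478 (hP : P.ok) (hl : ¬ InB P loc) : FGood P h1478 :=
  frun_good hP hl T_1478 (fc (G_1481 hP hl) f0)
theorem G_1477 (hP : P.ok) (hl : ¬ InB P loc) : FGood P h1477 :=
  frun_good hP hl T_1477 (fc (G_1479 hP hl) (fc (G_1480 hP hl) f0))
theorem G_1476 (hP : P.ok) (hl : ¬ InB P loc) : FGood P h1476 :=
  frun_good hP hl T_1476 (fc (G_1477 hP hl) (fc (G_1478 hP hl) f0))
theorem G_1475 (hP : P.ok) (hl : ¬ InB P loc) : FGood P h1475 :=
  frun_good hP hl T_1475 f0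
theorem G_1474 (hP : P.ok) (hl : ¬ InB P loc) : FGood P h1474 :=
  frun_good hP hl T_1474 f0
theorem G_1473 (hP : P.ok) (hl : ¬ InB P loc) : FGood P h1473 :=
  frun_good hP hl T_1473 (fc (G_1474 hP hl) f0)
theorem G_1472 (hP : P.ok) (hl : ¬ InB P loc) : FGood P h1472 :=
  frun_good hP hl T_1472 (fc (G_1473 hP hl) f0)
theorem G_1471 (hP : P.ok) (hl : ¬ InB P loc) : FGood P h1471 :=
  frun_good hP hl T_1471 (fc (G_1472 hP hl) f0)
theorem G_1470 (hP : P.ok) (hl : ¬ InB P loc) : FGood P h1470 :=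
  frun_good hP hl T_1470 (fc (G_1471 hP hl) f0)
theorem G_1469 (hP : P.ok) (hl : ¬ InB P loc) : FGood P h1469 :=
  frun_good hP hl T_1469 f0
theorem G_1468 (hP : P.ok) (hl : ¬ InB P loc) : FGood P h1468 :=
  frun_good hP hl T_1468 (fc (G_1469 hP hl) f0)
theorem G_1467 (hP : P.ok) (hl : ¬ InB P loc) : FGood P h1467 :=
  frun_good hP hl T_1467 (fc (G_1468 hP hl) f0)
theorem G_1466 (hP : P.ok) (hl : ¬ InB P loc) : FGood P h1466 :=
  frun_good hP hl T_1466 f0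
theorem G_1465 (hP : P.ok) (hl : ¬ InB P loc) : FGood P h1465 :=
  frun_good hP hl T_1465 f0
theorem G_1464 (hP : P.ok) (hl : ¬ InB P loc) : FGood P h1464 :=
  frun_good hP hl T_1464 f0
theorem G_1463 (hP : P.ok) (hl : ¬ InB P loc) : FGood P h1463 :=
  frun_good hP hl T_1463 (fc (G_1464 hP hl) (fc (G_1465 hP hl) f0))
theorem G_1462 (hP : P.ok) (hl : ¬ InB P loc) : FGood P h1462 :=
  frun_good hP hl T_1462 f0
theorem G_1461 (hP : P.ok) (hl : ¬ InB P loc) : FGood P h1461 :=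
  frun_good hP hl T_1461 f0
theorem G_1460 (hP : P.ok) (hl : ¬ InB P loc) : FGood P h1460 :=
  frun_good hP hl T_1460 (fc (G_1461 hP hl) f0)
theorem G_1459 (hP : P.ok) (hl : ¬ InB P loc) : FGood P h1459 :=
  frun_good hP hl T_1459 (fc (G_1460 hP hl) f0)
theorem G_1458 (hP : P.ok) (hl : ¬ InB P loc) : FGood P h1458 :=
  frun_good hP hl T_1458 f0
theorem G_1457 (hP : P.ok) (hl : ¬ InB P loc) : FGood P h1457 :=
  frun_good hP hl T_1457 f0
theorem G_1456 (hP : P.ok) (hl : ¬ InB P loc) : FGood P h1456 :=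
  frun_good hP hl T_1456 (fc (G_1458 hP hl) (fc (G_1459 hP hl) f0))
theorem G_1455 (hP : P.ok) (hl : ¬ InB P loc) : FGood P h1455 :=
  frun_good hP hl T_1455 f0
theorem G_1454 (hP : P.ok) (hl : ¬ InB P loc) : FGood P h1454 :=
  frun_good hP hl T_1454 (fc (G_1456 hP hl) (fc (G_1457 hP hl) f0))
theorem G_1453 (hP : P.ok) (hl : ¬ InB P loc) : FGood P h1453 :=
  frun_good hP hl T_1453 (fc (G_1454 hP hl) (fc (G_1455 hP hl) f0))
theorem G_1452 (hP : P.ok) (hl : ¬ InB P loc) : FGood P h1452 :=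
  frun_good hP hl T_1452 f0
theorem G_1451 (hP : P.ok) (hl : ¬ InB P loc) : FGood P h1451 :=
  frun_good hP hl T_1451 (fc (G_1452 hP hl) f0)
theorem G_1450 (hP : P.ok) (hl : ¬ InB P loc) : FGood P h1450 :=
  frun_good hP hl T_1450 f0
theorem G_1449 (hP : P.ok) (hl : ¬ InB P loc) : FGood P h1449 :=
  frun_good hP hl T_1449 f0
theorem G_1448 (hP : P.ok) (hl : ¬ InB P loc) : FGood P h1448 :=
  frun_good hP hl T_1448 (fc (G_1449 hP hl) (fc (G_1450 hP hl) (fc (G_1451 hP hl) f0)))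
theorem G_1447 (hP : P.ok) (hl : ¬ InB P loc) : FGood P h1447 :=
  frun_good hP hl T_1447 f0
theorem G_1446 (hP : P.ok) (hl : ¬ InB P loc) : FGood P h1446 :=
  frun_good hP hl T_1446 (fc (G_1447 hP hl) f0)
theorem G_1445 (hP : P.ok) (hl : ¬ InB P loc) : FGood P h1445 :=
  frun_good hP hl T_1445 f0
theorem G_1444 (hP : P.ok) (hl : ¬ InB P loc) : FGood P h1444 :=
  frun_good hP hl T_1444 (fc (G_1445 hP hl) f0)
theorem G_1443 (hP : P.ok) (hl : ¬ InB P loc) : FGood P h1443 :=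
  frun_good hP hl T_1443 f0
theorem G_1442 (hP : P.ok) (hl : ¬ InB P loc) : FGood P h1442 :=
  frun_good hP hl T_1442 (fc (G_1444 hP hl) f0)
theorem G_1441 (hP : P.ok) (hl : ¬ InB P loc) : FGood P h1441 :=
  frun_good hP hl T_1441 (fc (G_1443 hP hl) f0)
theorem G_1440 (hP : P.ok) (hl : ¬ InB P loc) : FGood P h1440 :=
  frun_good hP hl T_1440 (fc (G_1441 hP hl) (fc (G_1442 hP hl) f0))
theorem G_1439 (hP : P.ok) (hl : ¬ InB P loc) : FGood P h1439 :=
  frun_good hP hl T_1439 f0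
theorem G_1438 (hP : P.ok) (hl : ¬ InB P loc) : FGood P h1438 :=
  frun_good hP hl T_1438 (fc (G_1439 hP hl) f0)
theorem G_1437 (hP : P.ok) (hl : ¬ InB P loc) : FGood P h1437 :=
  frun_good hP hl T_1437 (fc (G_1438 hP hl) f0)
theorem G_1436 (hP : P.ok) (hl : ¬ InB P loc) : FGood P h1436 :=
  frun_good hP hl T_1436 (fc (G_1437 hP hl) f0)
theorem G_1435 (hP : P.ok) (hl : ¬ InB P loc) : FGood P h1435 :=
  frun_good hP hl T_1435 f0
theorem G_1434 (hP : P.ok) (hl : ¬ InB P loc) : FGood P h1434 :=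
  frun_good hP hl T_1434 f0
theorem G_1433 (hP : P.ok) (hl : ¬ InB P loc) : FGood P h1433 :=
  frun_good hP hl T_1433 f0
theorem G_1432 (hP : P.ok) (hl : ¬ InB P loc) : FGood P h1432 :=
  frun_good hP hl T_1432 f0
theorem G_1431 (hP : P.ok) (hl : ¬ InB P loc) : FGood P h1431 :=
  frun_good hP hl T_1431 (fc (G_1433 hP hl) f0)
theorem G_1430 (hP : P.ok) (hl : ¬ InB P loc) : FGood P h1430 :=
  frun_good hP hl T_1430 f0
theorem G_1429 (hP : P.ok) (hl : ¬ InB P loc) : FGood P h1429 :=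
  frun_good hP hl T_1429 f0
theorem G_1428 (hP : P.ok) (hl : ¬ InB P loc) : FGood P h1428 :=
  frun_good hP hl T_1428 f0
theorem G_1427 (hP : P.ok) (hl : ¬ InB P loc) : FGood P h1427 :=
  frun_good hP hl T_1427 (fc (G_1431 hP hl) (fc (G_1432 hP hl) f0))
theorem G_1426 (hP : P.ok) (hl : ¬ InB P loc) : FGood P h1426 :=
  frun_good hP hl T_1426 (fc (G_1427 hP hl) (fc (G_1428 hP hl) (fc (G_1429 hP hl) (fc (G_1430 hP hl) f0))))
theorem G_1425 (hP : P.ok) (hl : ¬ InB P loc) : FGood P h1425 :=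
  frun_good hP hl T_1425 f0
theorem G_1424 (hP : P.ok) (hl : ¬ InB P loc) : FGood P h1424 :=
  frun_good hP hl T_1424 f0
theorem G_1423 (hP : P.ok) (hl : ¬ InB P loc) : FGood P h1423 :=
  frun_good hP hl T_1423 f0
theorem G_1422 (hP : P.ok) (hl : ¬ InB P loc) : FGood P h1422 :=
  frun_good hP hl T_1422 (fc (G_1423 hP hl) f0)
theorem G_1421 (hP : P.ok) (hl : ¬ InB P loc) : FGood P h1421 :=
  frun_good hP hl T_1421 f0
theorem G_1420 (hP : P.ok) (hl : ¬ InB P loc) : FGood P h1420 :=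
  frun_good hP hl T_1420 (fc (G_1421 hP hl) f0)
theorem G_1419 (hP : P.ok) (hl : ¬ InB P loc) : FGood P h1419 :=
  frun_good hP hl T_1419 (fc (G_1420 hP hl) f0)
theorem G_1418 (hP : P.ok) (hl : ¬ InB P loc) : FGood P h1418 :=
  frun_good hP hl T_1418 f0
theorem G_1417 (hP : P.ok) (hl : ¬ InB P loc) : FGood P h1417 :=
  frun_good hP hl T_1417 (fc (G_1418 hP hl) f0)
theorem G_1416 (hP : P.ok) (hl : ¬ InB P loc) : FGood P h1416 :=
  frun_good hP hl T_1416 f0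
theorem G_1415 (hP : P.ok) (hl : ¬ InB P loc) : FGood P h1415 :=
  frun_good hP hl T_1415 (fc (G_1416 hP hl) f0)
theorem G_1414 (hP : P.ok) (hl : ¬ InB P loc) : FGood P h1414 :=
  frun_good hP hl T_1414 f0

end

end Pool.Agent.Lib.MP_9d820d_co.Fast.A
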