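import Pool.Agent.Lib.MP_9d820d_co.FMain
import Pool.Agent.Lib.MP_9d820d_co.G.AC36
import Pool.Agent.Lib.MP_9d820d_co.G.AC37
import Pool.Agent.Lib.MP_9d820d_co.G.AC38
import Pool.Agent.Lib.MP_9d820d_co.G.AC39
import Pool.Agent.Lib.MP_9d820d_co.G.AC40
import Pool.Agent.Lib.MP_9d820d_co.G.AC41
import Pool.Agent.Lib.MP_9d820d_co.G.AC42
import Pool.Agent.Lib.MP_9d820d_co.G.AC43
import Pool.Agent.Lib.MP_9d820d_co.G.AC44
import Pool.Agent.Lib.MP_9d820d_co.G.AC45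
import Pool.Agent.Lib.MP_9d820d_co.G.AC46
import Pool.Agent.Lib.MP_9d820d_co.G.AC47
import Pool.Agent.Lib.MP_9d820d_co.G.AC48
import Pool.Agent.Lib.MP_9d820d_co.G.AC49
import Pool.Agent.Lib.MP_9d820d_co.G.AC50

set_option autoImplicit false

namespace Pool.Agent.Lib.MP_9d820d_co.Fast.A

noncomputable section

variable {P : Prm}

theorem G_2414 (hP : P.ok) (hl : ¬ InB P loc) : FGood P h2414 :=
  frun_good hP hl T_2414 f0
theorem G_2413 (hP : P.ok) (hl : ¬ InB P loc) : FGood P h2413 :=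
  frun_good hP hl T_2413 f0
theorem G_2412 (hP : P.ok) (hl : ¬ InB P loc) : FGood P h2412 :=
  frun_good hP hl T_2412 (fc (G_2414 hP hl) f0)
theorem G_2411 (hP : P.ok) (hl : ¬ InB P loc) : FGood P h2411 :=
  frun_good hP hl T_2411 (fc (G_2412 hP hl) (fc (G_2413 hP hl) f0))
theorem G_2410 (hP : P.ok) (hl : ¬ InB P loc) : FGood P h2410 :=
  frun_good hP hl T_2410 (fc (G_2411 hP hl) f0)
theorem G_2409 (hP : P.ok) (hl : ¬ InB P loc) : FGood P h2409 :=
  frun_good hP hl T_2409 f0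
theorem G_2408 (hP : P.ok) (hl : ¬ InB P loc) : FGood P h2408 :=
  frun_good hP hl T_2408 (fc (G_2409 hP hl) f0)
theorem G_2407 (hP : P.ok) (hl : ¬ InB P loc) : FGood P h2407 :=
  frun_good hP hl T_2407 f0
theorem G_2406 (hP : P.ok) (hl : ¬ InB P loc) : FGood P h2406 :=
  frun_good hP hl T_2406 f0
theorem G_2405 (hP : P.ok) (hl : ¬ InB P loc) : FGood P h2405 :=
  frun_good hP hl T_2405 f0
theorem G_2404 (hP : P.ok) (hl : ¬ InB P loc) : FGood P h2404 :=
  frun_good hP hl T_2404 (fc (G_2405 hP hl) (fc (G_2406 hP hl) f0))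
theorem G_2403 (hP : P.ok) (hl : ¬ InB P loc) : FGood P h2403 :=
  frun_good hP hl T_2403 f0
theorem G_2402 (hP : P.ok) (hl : ¬ InB P loc) : FGood P h2402 :=
  frun_good hP hl T_2402 (fc (G_2403 hP hl) f0)
theorem G_2401 (hP : P.ok) (hl : ¬ InB P loc) : FGood P h2401 :=
  frun_good hP hl T_2401 (fc (G_2402 hP hl) f0)
theorem G_2400 (hP : P.ok) (hl : ¬ InB P loc) : FGood P h2400 :=
  frun_good hP hl T_2400 (fc (G_2401 hP hl) f0)
theorem G_2399 (hP : P.ok) (hl : ¬ InB P loc) : FGood P h2399 :=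
  frun_good hP hl T_2399 f0
theorem G_2398 (hP : P.ok) (hl : ¬ InB P loc) : FGood P h2398 :=
  frun_good hP hl T_2398 f0
theorem G_2397 (hP : P.ok) (hl : ¬ InB P loc) : FGood P h2397 :=
  frun_good hP hl T_2397 (fc (G_2398 hP hl) (fc (G_2399 hP hl) f0))
theorem G_2396 (hP : P.ok) (hl : ¬ InB P loc) : FGood P h2396 :=
  frun_good hP hl T_2396 (fc (G_2397 hP hl) f0)
theorem G_2395 (hP : P.ok) (hl : ¬ InB P loc) : FGood P h2395 :=
  frun_good hP hl T_2395 (fc (G_2396 hP hl) f0)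
theorem G_2394 (hP : P.ok) (hl : ¬ InB P loc) : FGood P h2394 :=
  frun_good hP hl T_2394 f0
theorem G_2393 (hP : P.ok) (hl : ¬ InB P loc) : FGood P h2393 :=
  frun_good hP hl T_2393 f0
theorem G_2392 (hP : P.ok) (hl : ¬ InB P loc) : FGood P h2392 :=
  frun_good hP hl T_2392 f0
theorem G_2391 (hP : P.ok) (hl : ¬ InB P loc) : FGood P h2391 :=
  frun_good hP hl T_2391 f0
theorem G_2390 (hP : P.ok) (hl : ¬ InB P loc) : FGood P h2390 :=
  frun_good hP hl T_2390 (fc (G_2393 hP hl) f0)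
theorem G_2389 (hP : P.ok) (hl : ¬ InB P loc) : FGood P h2389 :=
  frun_good hP hl T_2389 (fc (G_2392 hP hl) f0)
theorem G_2388 (hP : P.ok) (hl : ¬ InB P loc) : FGood P h2388 :=
  frun_good hP hl T_2388 (fc (G_2389 hP hl) (fc (G_2390 hP hl) (fc (G_2391 hP hl) f0)))
theorem G_2387 (hP : P.ok) (hl : ¬ InB P loc) : FGood P h2387 :=
  frun_good hP hl T_2387 f0
theorem G_2386 (hP : P.ok) (hl : ¬ InB P loc) : FGood P h2386 :=
  frun_good hP hl T_2386 (fc (G_2387 hP hl) f0)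
theorem G_2385 (hP : P.ok) (hl : ¬ InB P loc) : FGood P h2385 :=
  frun_good hP hl T_2385 f0
theorem G_2384 (hP : P.ok) (hl : ¬ InB P loc) : FGood P h2384 :=
  frun_good hP hl T_2384 (fc (G_2385 hP hl) f0)
theorem G_2383 (hP : P.ok) (hl : ¬ InB P loc) : FGood P h2383 :=
  frun_good hP hl T_2383 f0
theorem G_2382 (hP : P.ok) (hl : ¬ InB P loc) : FGood P h2382 :=
  frun_good hP hl T_2382 f0
theorem G_2381 (hP : P.ok) (hl : ¬ InB P loc) : FGood P h2381 :=
  frun_good hP hl T_2381 f0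
theorem G_2380 (hP : P.ok) (hl : ¬ InB P loc) : FGood P h2380 :=
  frun_good hP hl T_2380 f0
theorem G_2379 (hP : P.ok) (hl : ¬ InB P loc) : FGood P h2379 :=
  frun_good hP hl T_2379 f0
theorem G_2378 (hP : P.ok) (hl : ¬ InB P loc) : FGood P h2378 :=
  frun_good hP hl T_2378 (fc (G_2381 hP hl) (fc (G_2382 hP hl) (fc (G_2383 hP hl) f0)))
theorem G_2377 (hP : P.ok) (hl : ¬ InB P loc) : FGood P h2377 :=
  frun_good hP hl T_2377 f0
theorem G_2376 (hP : P.ok) (hl : ¬ InB P loc) : FGood P h2376 :=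
  frun_good hP hl T_2376 (fc (G_2377 hP hl) (fc (G_2378 hP hl) (fc (G_2379 hP hl) (fc (G_2380 hP hl) f0))))
theorem G_2375 (hP : P.ok) (hl : ¬ InB P loc) : FGood P h2375 :=
  frun_good hP hl T_2375 f0
theorem G_2374 (hP : P.ok) (hl : ¬ InB P loc) : FGood P h2374 :=
  frun_good hP hl T_2374 (fc (G_2375 hP hl) f0)
theorem G_2373 (hP : P.ok) (hl : ¬ InB P loc) : FGood P h2373 :=
  frun_good hP hl T_2373 f0
theorem G_2372 (hP : P.ok) (hl : ¬ InB P loc) : FGood P h2372 :=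
  frun_good hP hl T_2372 (fc (G_2373 hP hl) f0)
theorem G_2371 (hP : P.ok) (hl : ¬ InB P loc) : FGood P h2371 :=
  frun_good hP hl T_2371 (fc (G_2372 hP hl) f0)
theorem G_2370 (hP : P.ok) (hl : ¬ InB P loc) : FGood P h2370 :=
  frun_good hP hl T_2370 (fc (G_2371 hP hl) f0)
theorem G_2369 (hP : P.ok) (hl : ¬ InB P loc) : FGood P h2369 :=
  frun_good hP hl T_2369 f0
theorem G_2368 (hP : P.ok) (hl : ¬ InB P loc) : FGood P h2368 :=
  frun_good hP hl T_2368 f0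
theorem G_2367 (hP : P.ok) (hl : ¬ InB P loc) : FGood P h2367 :=
  frun_good hP hl T_2367 f0
theorem G_2366 (hP : P.ok) (hl : ¬ InB P loc) : FGood P h2366 :=
  frun_good hP hl T_2366 f0
theorem G_2365 (hP : P.ok) (hl : ¬ InB P loc) : FGood P h2365 :=
  frun_good hP hl T_2365 (fc (G_2367 hP hl) f0)
theorem G_2364 (hP : P.ok) (hl : ¬ InB P loc) : FGood P h2364 :=
  frun_good hP hl T_2364 f0
theorem G_2363 (hP : P.ok) (hl : ¬ InB P loc) : FGood P h2363 :=
  frun_good hP hl T_2363 (fc (G_2366 hP hl) f0)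
theorem G_2362 (hP : P.ok) (hl : ¬ InB P loc) : FGood P h2362 :=
  frun_good hP hl T_2362 (fc (G_2363 hP hl) (fc (G_2364 hP hl) (fc (G_2365 hP hl) f0)))
theorem G_2361 (hP : P.ok) (hl : ¬ InB P loc) : FGood P h2361 :=
  frun_good hP hl T_2361 f0
theorem G_2360 (hP : P.ok) (hl : ¬ InB P loc) : FGood P h2360 :=
  frun_good hP hl T_2360 f0
theorem G_2359 (hP : P.ok) (hl : ¬ InB P loc) : FGood P h2359 :=
  frun_good hP hl T_2359 (fc (G_2360 hP hl) (fc (G_2361 hP hl) f0))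
theorem G_2358 (hP : P.ok) (hl : ¬ InB P loc) : FGood P h2358 :=
  frun_good hP hl T_2358 f0
theorem G_2357 (hP : P.ok) (hl : ¬ InB P loc) : FGood P h2357 :=
  frun_good hP hl T_2357 f0
theorem G_2356 (hP : P.ok) (hl : ¬ InB P loc) : FGood P h2356 :=
  frun_good hP hl T_2356 f0
theorem G_2355 (hP : P.ok) (hl : ¬ InB P loc) : FGood P h2355 :=
  frun_good hP hl T_2355 (fc (G_2357 hP hl) f0)
theorem G_2354 (hP : P.ok) (hl : ¬ InB P loc) : FGood P h2354 :=
  frun_good hP hl T_2354 f0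
theorem G_2353 (hP : P.ok) (hl : ¬ InB P loc) : FGood P h2353 :=
  frun_good hP hl T_2353 (fc (G_2356 hP hl) f0)
theorem G_2352 (hP : P.ok) (hl : ¬ InB P loc) : FGood P h2352 :=
  frun_good hP hl T_2352 f0
theorem G_2351 (hP : P.ok) (hl : ¬ InB P loc) : FGood P h2351 :=
  frun_good hP hl T_2351 (fc (G_2354 hP hl) (fc (G_2355 hP hl) f0))
theorem G_2350 (hP : P.ok) (hl : ¬ InB P loc) : FGood P h2350 :=
  frun_good hP hl T_2350 f0
theorem G_2349 (hP : P.ok) (hl : ¬ InB P loc) : FGood P h2349 :=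
  frun_good hP hl T_2349 (fc (G_2350 hP hl) (fc (G_2351 hP hl) (fc (G_2352 hP hl) (fc (G_2353 hP hl) f0))))
theorem G_2348 (hP : P.ok) (hl : ¬ InB P loc) : FGood P h2348 :=
  frun_good hP hl T_2348 f0
theorem G_2347 (hP : P.ok) (hl : ¬ InB P loc) : FGood P h2347 :=
  frun_good hP hl T_2347 f0
theorem G_2346 (hP : P.ok) (hl : ¬ InB P loc) : FGood P h2346 :=
  frun_good hP hl T_2346 f0
theorem G_2345 (hP : P.ok) (hl : ¬ InB P loc) : FGood P h2345 :=
  frun_good hP hl T_2345 (fc (G_2348 hP hl) f0)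
theorem G_2344 (hP : P.ok) (hl : ¬ InB P loc) : FGood P h2344 :=
  frun_good hP hl T_2344 f0
theorem G_2343 (hP : P.ok) (hl : ¬ InB P loc) : FGood P h2343 :=
  frun_good hP hl T_2343 (fc (G_2347 hP hl) f0)
theorem G_2342 (hP : P.ok) (hl : ¬ InB P loc) : FGood P h2342 :=
  frun_good hP hl T_2342 (fc (G_2343 hP hl) (fc (G_2344 hP hl) (fc (G_2345 hP hl) (fc (G_2346 hP hl) f0))))
theorem G_2341 (hP : P.ok) (hl : ¬ InB P loc) : FGood P h2341 :=
  frun_good hP hl T_2341 f0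
theorem G_2340 (hP : P.ok) (hl : ¬ InB P loc) : FGood P h2340 :=
  frun_good hP hl T_2340 f0
theorem G_2339 (hP : P.ok) (hl : ¬ InB P loc) : FGood P h2339 :=
  frun_good hP hl T_2339 f0
theorem G_2338 (hP : P.ok) (hl : ¬ InB P loc) : FGood P h2338 :=
  frun_good hP hl T_2338 f0
theorem G_2337 (hP : P.ok) (hl : ¬ InB P loc) : FGood P h2337 :=
  frun_good hP hl T_2337 f0
theorem G_2336 (hP : P.ok) (hl : ¬ InB P loc) : FGood P h2336 :=
  frun_good hP hl T_2336 f0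
theorem G_2335 (hP : P.ok) (hl : ¬ InB P loc) : FGood P h2335 :=
  frun_good hP hl T_2335 f0
theorem G_2334 (hP : P.ok) (hl : ¬ InB P loc) : FGood P h2334 :=
  frun_good hP hl T_2334 (fc (G_2336 hP hl) (fc (G_2337 hP hl) (fc (G_2338 hP hl) (fc (G_2339 hP hl) (fc (G_2340 hP hl) f0)))))
theorem G_2333 (hP : P.ok) (hl : ¬ InB P loc) : FGood P h2333 :=
  frun_good hP hl T_2333 (fc (G_2334 hP hl) (fc (G_2335 hP hl) f0))
theorem G_2332 (hP : P.ok) (hl : ¬ InB P loc) : FGood P h2332 :=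
  frun_good hP hl T_2332 f0
theorem G_2331 (hP : P.ok) (hl : ¬ InB P loc) : FGood P h2331 :=
  frun_good hP hl T_2331 (fc (G_2332 hP hl) f0)
theorem G_2330 (hP : P.ok) (hl : ¬ InB P loc) : FGood P h2330 :=
  frun_good hP hl T_2330 f0
theorem G_2329 (hP : P.ok) (hl : ¬ InB P loc) : FGood P h2329 :=
  frun_good hP hl T_2329 f0
theorem G_2328 (hP : P.ok) (hl : ¬ InB P loc) : FGood P h2328 :=
  frun_good hP hl T_2328 (fc (G_2329 hP hl) f0)
theorem G_2327 (hP : P.ok) (hl : ¬ InB P loc) : FGood P h2327 :=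
  frun_good hP hl T_2327 f0
theorem G_2326 (hP : P.ok) (hl : ¬ InB P loc) : FGood P h2326 :=
  frun_good hP hl T_2326 f0
theorem G_2325 (hP : P.ok) (hl : ¬ InB P loc) : FGood P h2325 :=
  frun_good hP hl T_2325 f0
theorem G_2324 (hP : P.ok) (hl : ¬ InB P loc) : FGood P h2324 :=
  frun_good hP hl T_2324 f0
theorem G_2323 (hP : P.ok) (hl : ¬ InB P loc) : FGood P h2323 :=
  frun_good hP hl T_2323 (fc (G_2324 hP hl) (fc (G_2325 hP hl) f0))
theorem G_2322 (hP : P.ok) (hl : ¬ InB P loc) : FGood P h2322 :=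
  frun_good hP hl T_2322 f0
theorem G_2321 (hP : P.ok) (hl : ¬ InB P loc) : FGood P h2321 :=
  frun_good hP hl T_2321 (fc (G_2322 hP hl) f0)
theorem G_2320 (hP : P.ok) (hl : ¬ InB P loc) : FGood P h2320 :=
  frun_good hP hl T_2320 f0
theorem G_2319 (hP : P.ok) (hl : ¬ InB P loc) : FGood P h2319 :=
  frun_good hP hl T_2319 f0
theorem G_2318 (hP : P.ok) (hl : ¬ InB P loc) : FGood P h2318 :=
  frun_good hP hl T_2318 (fc (G_2319 hP hl) (fc (G_2320 hP hl) f0))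
theorem G_2317 (hP : P.ok) (hl : ¬ InB P loc) : FGood P h2317 :=
  frun_good hP hl T_2317 (fc (G_2318 hP hl) f0)
theorem G_2316 (hP : P.ok) (hl : ¬ InB P loc) : FGood P h2316 :=
  frun_good hP hl T_2316 f0
theorem G_2315 (hP : P.ok) (hl : ¬ InB P loc) : FGood P h2315 :=
  frun_good hP hl T_2315 (fc (G_2316 hP hl) f0)
theorem G_2314 (hP : P.ok) (hl : ¬ InB P loc) : FGood P h2314 :=
  frun_good hP hl T_2314 f0
theorem G_2313 (hP : P.ok) (hl : ¬ InB P loc) : FGood P h2313 :=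
  frun_good hP hl T_2313 f0
theorem G_2312 (hP : P.ok) (hl : ¬ InB P loc) : FGood P h2312 :=
  frun_good hP hl T_2312 f0
theorem G_2311 (hP : P.ok) (hl : ¬ InB P loc) : FGood P h2311 :=
  frun_good hP hl T_2311 (fc (G_2312 hP hl) f0)
theorem G_2310 (hP : P.ok) (hl : ¬ InB P loc) : FGood P h2310 :=
  frun_good hP hl T_2310 f0
theorem G_2309 (hP : P.ok) (hl : ¬ InB P loc) : FGood P h2309 :=
  frun_good hP hl T_2309 (fc (G_2310 hP hl) f0)
theorem G_2308 (hP : P.ok) (hl : ¬ InB P loc) : FGood P h2308 :=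
  frun_good hP hl T_2308 f0
theorem G_2307 (hP : P.ok) (hl : ¬ InB P loc) : FGood P h2307 :=
  frun_good hP hl T_2307 f0
theorem G_2306 (hP : P.ok) (hl : ¬ InB P loc) : FGood P h2306 :=
  frun_good hP hl T_2306 f0
theorem G_2305 (hP : P.ok) (hl : ¬ InB P loc) : FGood P h2305 :=
  frun_good hP hl T_2305 f0
theorem G_2304 (hP : P.ok) (hl : ¬ InB P loc) : FGood P h2304 :=
  frun_good hP hl T_2304 (fc (G_2305 hP hl) f0)
theorem G_2303 (hP : P.ok) (hl : ¬ InB P loc) : FGood P h2303 :=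
  frun_good hP hl T_2303 f0
theorem G_2302 (hP : P.ok) (hl : ¬ InB P loc) : FGood P h2302 :=
  frun_good hP hl T_2302 f0
theorem G_2301 (hP : P.ok) (hl : ¬ InB P loc) : FGood P h2301 :=
  frun_good hP hl T_2301 (fc (G_2302 hP hl) f0)
theorem G_2300 (hP : P.ok) (hl : ¬ InB P loc) : FGood P h2300 :=
  frun_good hP hl T_2300 f0
theorem G_2299 (hP : P.ok) (hl : ¬ InB P loc) : FGood P h2299 :=
  frun_good hP hl T_2299 f0
theorem G_2298 (hP : P.ok) (hl : ¬ InB P loc) : FGood P h2298 :=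
  frun_good hP hl T_2298 f0
theorem G_2297 (hP : P.ok) (hl : ¬ InB P loc) : FGood P h2297 :=
  frun_good hP hl T_2297 (fc (G_2298 hP hl) f0)
theorem G_2296 (hP : P.ok) (hl : ¬ InB P loc) : FGood P h2296 :=
  frun_good hP hl T_2296 (fc (G_2297 hP hl) f0)
theorem G_2295 (hP : P.ok) (hl : ¬ InB P loc) : FGood P h2295 :=
  frun_good hP hl T_2295 f0
theorem G_2294 (hP : P.ok) (hl : ¬ InB P loc) : FGood P h2294 :=
  frun_good hP hl T_2294 f0
theorem G_2293 (hP : P.ok) (hl : ¬ InB P loc) : FGood P h2293 :=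
  frun_good hP hl T_2293 (fc (G_2295 hP hl) (fc (G_2296 hP hl) f0))
theorem G_2292 (hP : P.ok) (hl : ¬ InB P loc) : FGood P h2292 :=
  frun_good hP hl T_2292 (fc (G_2293 hP hl) (fc (G_2294 hP hl) f0))
theorem G_2291 (hP : P.ok) (hl : ¬ InB P loc) : FGood P h2291 :=
  frun_good hP hl T_2291 (fc (G_2292 hP hl) f0)
theorem G_2290 (hP : P.ok) (hl : ¬ InB P loc) : FGood P h2290 :=
  frun_good hP hl T_2290 f0
theorem G_2289 (hP : P.ok) (hl : ¬ InB P loc) : FGood P h2289 :=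
  frun_good hP hl T_2289 f0
theorem G_2288 (hP : P.ok) (hl : ¬ InB P loc) : FGood P h2288 :=
  frun_good hP hl T_2288 (fc (G_2289 hP hl) f0)
theorem G_2287 (hP : P.ok) (hl : ¬ InB P loc) : FGood P h2287 :=
  frun_good hP hl T_2287 f0
theorem G_2286 (hP : P.ok) (hl : ¬ InB P loc) : FGood P h2286 :=
  frun_good hP hl T_2286 (fc (G_2287 hP hl) (fc (G_2288 hP hl) f0))
theorem G_2285 (hP : P.ok) (hl : ¬ InB P loc) : FGood P h2285 :=
  frun_good hP hl T_2285 f0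
theorem G_2284 (hP : P.ok) (hl : ¬ InB P loc) : FGood P h2284 :=
  frun_good hP hl T_2284 f0
theorem G_2283 (hP : P.ok) (hl : ¬ InB P loc) : FGood P h2283 :=
  frun_good hP hl T_2283 (fc (G_2285 hP hl) f0)
theorem G_2282 (hP : P.ok) (hl : ¬ InB P loc) : FGood P h2282 :=
  frun_good hP hl T_2282 f0
theorem G_2281 (hP : P.ok) (hl : ¬ InB P loc) : FGood P h2281 :=
  frun_good hP hl T_2281 (fc (G_2282 hP hl) (fc (G_2283 hP hl) (fc (G_2284 hP hl) f0)))
theorem G_2280 (hP : P.ok) (hl : ¬ InB P loc) : FGood P h2280 :=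
  frun_good hP hl T_2280 f0
theorem G_2279 (hP : P.ok) (hl : ¬ InB P loc) : FGood P h2279 :=
  frun_good hP hl T_2279 f0
theorem G_2278 (hP : P.ok) (hl : ¬ InB P loc) : FGood P h2278 :=
  frun_good hP hl T_2278 (fc (G_2279 hP hl) f0)
theorem G_2277 (hP : P.ok) (hl : ¬ InB P loc) : FGood P h2277 :=
  frun_good hP hl T_2277 (fc (G_2278 hP hl) f0)
theorem G_2276 (hP : P.ok) (hl : ¬ InB P loc) : FGood P h2276 :=
  frun_good hP hl T_2276 f0
theorem G_2275 (hP : P.ok) (hl : ¬ InB P loc) : FGood P h2275 :=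
  frun_good hP hl T_2275 f0
theorem G_2274 (hP : P.ok) (hl : ¬ InB P loc) : FGood P h2274 :=
  frun_good hP hl T_2274 f0
theorem G_2273 (hP : P.ok) (hl : ¬ InB P loc) : FGood P h2273 :=
  frun_good hP hl T_2273 (fc (G_2274 hP hl) (fc (G_2275 hP hl) (fc (G_2276 hP hl) f0)))
theorem G_2272 (hP : P.ok) (hl : ¬ InB P loc) : FGood P h2272 :=
  frun_good hP hl T_2272 f0
theorem G_2271 (hP : P.ok) (hl : ¬ InB P loc) : FGood P h2271 :=
  frun_good hP hl T_2271 f0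
theorem G_2270 (hP : P.ok) (hl : ¬ InB P loc) : FGood P h2270 :=
  frun_good hP hl T_2270 f0
theorem G_2269 (hP : P.ok) (hl : ¬ InB P loc) : FGood P h2269 :=
  frun_good hP hl T_2269 f0
theorem G_2268 (hP : P.ok) (hl : ¬ InB P loc) : FGood P h2268 :=
  frun_good hP hl T_2268 (fc (G_2269 hP hl) f0)
theorem G_2267 (hP : P.ok) (hl : ¬ InB P loc) : FGood P h2267 :=
  frun_good hP hl T_2267 f0
theorem G_2266 (hP : P.ok) (hl : ¬ InB P loc) : FGood P h2266 :=
  frun_good hP hl T_2266 (fc (G_2268 hP hl) f0)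
theorem G_2265 (hP : P.ok) (hl : ¬ InB P loc) : FGood P h2265 :=
  frun_good hP hl T_2265 (fc (G_2266 hP hl) (fc (G_2267 hP hl) f0))
theorem G_2264 (hP : P.ok) (hl : ¬ InB P loc) : FGood P h2264 :=
  frun_good hP hl T_2264 (fc (G_2265 hP hl) f0)
theorem G_2263 (hP : P.ok) (hl : ¬ InB P loc) : FGood P h2263 :=
  frun_good hP hl T_2263 f0
theorem G_2262 (hP : P.ok) (hl : ¬ InB P loc) : FGood P h2262 :=
  frun_good hP hl T_2262 (fc (G_2263 hP hl) f0)
theorem G_2261 (hP : P.ok) (hl : ¬ InB P loc) : FGood P h2261 :=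
  frun_good hP hl T_2261 f0
theorem G_2260 (hP : P.ok) (hl : ¬ InB P loc) : FGood P h2260 :=
  frun_good hP hl T_2260 (fc (G_2261 hP hl) (fc (G_2262 hP hl) f0))
theorem G_2259 (hP : P.ok) (hl : ¬ InB P loc) : FGood P h2259 :=
  frun_good hP hl T_2259 f0
theorem G_2258 (hP : P.ok) (hl : ¬ InB P loc) : FGood P h2258 :=
  frun_good hP hl T_2258 (fc (G_2259 hP hl) f0)
theorem G_2257 (hP : P.ok) (hl : ¬ InB P loc) : FGood P h2257 :=
  frun_good hP hl T_2257 f0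
theorem G_2256 (hP : P.ok) (hl : ¬ InB P loc) : FGood P h2256 :=
  frun_good hP hl T_2256 f0
theorem G_2255 (hP : P.ok) (hl : ¬ InB P loc) : FGood P h2255 :=
  frun_good hP hl T_2255 (fc (G_2256 hP hl) f0)
theorem G_2254 (hP : P.ok) (hl : ¬ InB P loc) : FGood P h2254 :=
  frun_good hP hl T_2254 (fc (G_2255 hP hl) f0)
theorem G_2253 (hP : P.ok) (hl : ¬ InB P loc) : FGood P h2253 :=
  frun_good hP hl T_2253 f0
theorem G_2252 (hP : P.ok) (hl : ¬ InB P loc) : FGood P h2252 :=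
  frun_good hP hl T_2252 f0
theorem G_2251 (hP : P.ok) (hl : ¬ InB P loc) : FGood P h2251 :=
  frun_good hP hl T_2251 f0
theorem G_2250 (hP : P.ok) (hl : ¬ InB P loc) : FGood P h2250 :=
  frun_good hP hl T_2250 (fc (G_2251 hP hl) (fc (G_2252 hP hl) f0))
theorem G_2249 (hP : P.ok) (hl : ¬ InB P loc) : FGood P h2249 :=
  frun_good hP hl T_2249 f0
theorem G_2248 (hP : P.ok) (hl : ¬ InB P loc) : FGood P h2248 :=
  frun_good hP hl T_2248 f0
theorem G_2247 (hP : P.ok) (hl : ¬ InB P loc) : FGood P h2247 :=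
  frun_good hP hl T_2247 (fc (G_2248 hP hl) f0)
theorem G_2246 (hP : P.ok) (hl : ¬ InB P loc) : FGood P h2246 :=
  frun_good hP hl T_2246 (fc (G_2247 hP hl) f0)
theorem G_2245 (hP : P.ok) (hl : ¬ InB P loc) : FGood P h2245 :=
  frun_good hP hl T_2245 f0
theorem G_2244 (hP : P.ok) (hl : ¬ InB P loc) : FGood P h2244 :=
  frun_good hP hl T_2244 f0
theorem G_2243 (hP : P.ok) (hl : ¬ InB P loc) : FGood P h2243 :=
  frun_good hP hl T_2243 f0
theorem G_2242 (hP : P.ok) (hl : ¬ InB P loc) : FGood P h2242 :=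
  frun_good hP hl T_2242 f0
theorem G_2241 (hP : P.ok) (hl : ¬ InB P loc) : FGood P h2241 :=
  frun_good hP hl T_2241 (fc (G_2242 hP hl) f0)
theorem G_2240 (hP : P.ok) (hl : ¬ InB P loc) : FGood P h2240 :=
  frun_good hP hl T_2240 f0
theorem G_2239 (hP : P.ok) (hl : ¬ InB P loc) : FGood P h2239 :=
  frun_good hP hl T_2239 (fc (G_2240 hP hl) f0)
theorem G_2238 (hP : P.ok) (hl : ¬ InB P loc) : FGood P h2238 :=
  frun_good hP hl T_2238 f0
theorem G_2237 (hP : P.ok) (hl : ¬ InB P loc) : FGood P h2237 :=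
  frun_good hP hl T_2237 f0
theorem G_2236 (hP : P.ok) (hl : ¬ InB P loc) : FGood P h2236 :=
  frun_good hP hl T_2236 f0
theorem G_2235 (hP : P.ok) (hl : ¬ InB P loc) : FGood P h2235 :=
  frun_good hP hl T_2235 f0
theorem G_2234 (hP : P.ok) (hl : ¬ InB P loc) : FGood P h2234 :=
  frun_good hP hl T_2234 (fc (G_2235 hP hl) (fc (G_2236 hP hl) (fc (G_2237 hP hl) f0)))
theorem G_2233 (hP : P.ok) (hl : ¬ InB P loc) : FGood P h2233 :=
  frun_good hP hl T_2233 f0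
theorem G_2232 (hP : P.ok) (hl : ¬ InB P loc) : FGood P h2232 :=
  frun_good hP hl T_2232 f0
theorem G_2231 (hP : P.ok) (hl : ¬ InB P loc) : FGood P h2231 :=
  frun_good hP hl T_2231 f0
theorem G_2230 (hP : P.ok) (hl : ¬ InB P loc) : FGood P h2230 :=
  frun_good hP hl T_2230 (fc (G_2231 hP hl) f0)
theorem G_2229 (hP : P.ok) (hl : ¬ InB P loc) : FGood P h2229 :=
  frun_good hP hl T_2229 f0
theorem G_2228 (hP : P.ok) (hl : ¬ InB P loc) : FGood P h2228 :=
  frun_good hP hl T_2228 f0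
theorem G_2227 (hP : P.ok) (hl : ¬ InB P loc) : FGood P h2227 :=
  frun_good hP hl T_2227 (fc (G_2228 hP hl) (fc (G_2229 hP hl) f0))
theorem G_2226 (hP : P.ok) (hl : ¬ InB P loc) : FGood P h2226 :=
  frun_good hP hl T_2226 f0
theorem G_2225 (hP : P.ok) (hl : ¬ InB P loc) : FGood P h2225 :=
  frun_good hP hl T_2225 f0
theorem G_2224 (hP : P.ok) (hl : ¬ InB P loc) : FGood P h2224 :=
  frun_good hP hl T_2224 (fc (G_2225 hP hl) (fc (G_2226 hP hl) f0))
theorem G_2223 (hP : P.ok) (hl : ¬ InB P loc) : FGood P h2223 :=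
  frun_good hP hl T_2223 f0
theorem G_2222 (hP : P.ok) (hl : ¬ InB P loc) : FGood P h2222 :=
  frun_good hP hl T_2222 f0
theorem G_2221 (hP : P.ok) (hl : ¬ InB P loc) : FGood P h2221 :=
  frun_good hP hl T_2221 f0
theorem G_2220 (hP : P.ok) (hl : ¬ InB P loc) : FGood P h2220 :=
  frun_good hP hl T_2220 f0
theorem G_2219 (hP : P.ok) (hl : ¬ InB P loc) : FGood P h2219 :=
  frun_good hP hl T_2219 (fc (G_2221 hP hl) f0)
theorem G_2218 (hP : P.ok) (hl : ¬ InB P loc) : FGood P h2218 :=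
  frun_good hP hl T_2218 (fc (G_2219 hP hl) (fc (G_2220 hP hl) f0))
theorem G_2217 (hP : P.ok) (hl : ¬ InB P loc) : FGood P h2217 :=
  frun_good hP hl T_2217 f0
theorem G_2216 (hP : P.ok) (hl : ¬ InB P loc) : FGood P h2216 :=
  frun_good hP hl T_2216 f0
theorem G_2215 (hP : P.ok) (hl : ¬ InB P loc) : FGood P h2215 :=
  frun_good hP hl T_2215 f0
theorem G_2214 (hP : P.ok) (hl : ¬ InB P loc) : FGood P h2214 :=
  frun_good hP hl T_2214 (fc (G_2215 hP hl) (fc (G_2216 hP hl) (fc (G_2217 hP hl) f0)))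
theorem G_2213 (hP : P.ok) (hl : ¬ InB P loc) : FGood P h2213 :=
  frun_good hP hl T_2213 f0
theorem G_2212 (hP : P.ok) (hl : ¬ InB P loc) : FGood P h2212 :=
  frun_good hP hl T_2212 (fc (G_2213 hP hl) f0)
theorem G_2211 (hP : P.ok) (hl : ¬ InB P loc) : FGood P h2211 :=
  frun_good hP hl T_2211 f0
theorem G_2210 (hP : P.ok) (hl : ¬ InB P loc) : FGood P h2210 :=
  frun_good hP hl T_2210 f0
theorem G_2209 (hP : P.ok) (hl : ¬ InB P loc) : FGood P h2209 :=
  frun_good hP hl T_2209 (fc (G_2210 hP hl) (fc (G_2211 hP hl) f0))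
theorem G_2208 (hP : P.ok) (hl : ¬ InB P loc) : FGood P h2208 :=
  frun_good hP hl T_2208 f0
theorem G_2207 (hP : P.ok) (hl : ¬ InB P loc) : FGood P h2207 :=
  frun_good hP hl T_2207 f0
theorem G_2206 (hP : P.ok) (hl : ¬ InB P loc) : FGood P h2206 :=
  frun_good hP hl T_2206 (fc (G_2209 hP hl) f0)
theorem G_2205 (hP : P.ok) (hl : ¬ InB P loc) : FGood P h2205 :=
  frun_good hP hl T_2205 f0
theorem G_2204 (hP : P.ok) (hl : ¬ InB P loc) : FGood P h2204 :=
  frun_good hP hl T_2204 (fc (G_2205 hP hl) (fc (G_2206 hP hl) (fc (G_2207 hP hl) (fc (G_2208 hP hl) f0))))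
theorem G_2203 (hP : P.ok) (hl : ¬ InB P loc) : FGood P h2203 :=
  frun_good hP hl T_2203 f0
theorem G_2202 (hP : P.ok) (hl : ¬ InB P loc) : FGood P h2202 :=
  frun_good hP hl T_2202 f0
theorem G_2201 (hP : P.ok) (hl : ¬ InB P loc) : FGood P h2201 :=
  frun_good hP hl T_2201 (fc (G_2202 hP hl) f0)
theorem G_2200 (hP : P.ok) (hl : ¬ InB P loc) : FGood P h2200 :=
  frun_good hP hl T_2200 (fc (G_2201 hP hl) f0)
theorem G_2199 (hP : P.ok) (hl : ¬ InB P loc) : FGood P h2199 :=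
  frun_good hP hl T_2199 f0
theorem G_2198 (hP : P.ok) (hl : ¬ InB P loc) : FGood P h2198 :=
  frun_good hP hl T_2198 (fc (G_2199 hP hl) (fc (G_2200 hP hl) f0))
theorem G_2197 (hP : P.ok) (hl : ¬ InB P loc) : FGood P h2197 :=
  frun_good hP hl T_2197 f0
theorem G_2196 (hP : P.ok) (hl : ¬ InB P loc) : FGood P h2196 :=
  frun_good hP hl T_2196 f0
theorem G_2195 (hP : P.ok) (hl : ¬ InB P loc) : FGood P h2195 :=
  frun_good hP hl T_2195 (fc (G_2196 hP hl) f0)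
theorem G_2194 (hP : P.ok) (hl : ¬ InB P loc) : FGood P h2194 :=
  frun_good hP hl T_2194 f0
theorem G_2193 (hP : P.ok) (hl : ¬ InB P loc) : FGood P h2193 :=
  frun_good hP hl T_2193 (fc (G_2195 hP hl) f0)
theorem G_2192 (hP : P.ok) (hl : ¬ InB P loc) : FGood P h2192 :=
  frun_good hP hl T_2192 f0
theorem G_2191 (hP : P.ok) (hl : ¬ InB P loc) : FGood P h2191 :=
  frun_good hP hl T_2191 (fc (G_2193 hP hl) (fc (G_2194 hP hl) f0))
theorem G_2190 (hP : P.ok) (hl : ¬ InB P loc) : FGood P h2190 :=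
  frun_good hP hl T_2190 f0
theorem G_2189 (hP : P.ok) (hl : ¬ InB P loc) : FGood P h2189 :=
  frun_good hP hl T_2189 f0
theorem G_2188 (hP : P.ok) (hl : ¬ InB P loc) : FGood P h2188 :=
  frun_good hP hl T_2188 (fc (G_2189 hP hl) (fc (G_2190 hP hl) (fc (G_2191 hP hl) (fc (G_2192 hP hl) f0))))
theorem G_2187 (hP : P.ok) (hl : ¬ InB P loc) : FGood P h2187 :=
  frun_good hP hl T_2187 (fc (G_2188 hP hl) f0)
theorem G_2186 (hP : P.ok) (hl : ¬ InB P loc) : FGood P h2186 :=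
  frun_good hP hl T_2186 f0
theorem G_2185 (hP : P.ok) (hl : ¬ InB P loc) : FGood P h2185 :=
  frun_good hP hl T_2185 (fc (G_2186 hP hl) f0)
theorem G_2184 (hP : P.ok) (hl : ¬ InB P loc) : FGood P h2184 :=
  frun_good hP hl T_2184 (fc (G_2185 hP hl) f0)
theorem G_2183 (hP : P.ok) (hl : ¬ InB P loc) : FGood P h2183 :=
  frun_good hP hl T_2183 (fc (G_2184 hP hl) f0)
theorem G_2182 (hP : P.ok) (hl : ¬ InB P loc) : FGood P h2182 :=
  frun_good hP hl T_2182 f0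
theorem G_2181 (hP : P.ok) (hl : ¬ InB P loc) : FGood P h2181 :=
  frun_good hP hl T_2181 f0
theorem G_2180 (hP : P.ok) (hl : ¬ InB P loc) : FGood P h2180 :=
  frun_good hP hl T_2180 f0
theorem G_2179 (hP : P.ok) (hl : ¬ InB P loc) : FGood P h2179 :=
  frun_good hP hl T_2179 (fc (G_2180 hP hl) (fc (G_2181 hP hl) f0))
theorem G_2178 (hP : P.ok) (hl : ¬ InB P loc) : FGood P h2178 :=
  frun_good hP hl T_2178 f0
theorem G_2177 (hP : P.ok) (hl : ¬ InB P loc) : FGood P h2177 :=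
  frun_good hP hl T_2177 f0
theorem G_2176 (hP : P.ok) (hl : ¬ InB P loc) : FGood P h2176 :=
  frun_good hP hl T_2176 f0
theorem G_2175 (hP : P.ok) (hl : ¬ InB P loc) : FGood P h2175 :=
  frun_good hP hl T_2175 f0
theorem G_2174 (hP : P.ok) (hl : ¬ InB P loc) : FGood P h2174 :=
  frun_good hP hl T_2174 (fc (G_2175 hP hl) (fc (G_2176 hP hl) f0))
theorem G_2173 (hP : P.ok) (hl : ¬ InB P loc) : FGood P h2173 :=
  frun_good hP hl T_2173 f0
theorem G_2172 (hP : P.ok) (hl : ¬ InB P loc) : FGood P h2172 :=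
  frun_good hP hl T_2172 f0
theorem G_2171 (hP : P.ok) (hl : ¬ InB P loc) : FGood P h2171 :=
  frun_good hP hl T_2171 f0
theorem G_2170 (hP : P.ok) (hl : ¬ InB P loc) : FGood P h2170 :=
  frun_good hP hl T_2170 (fc (G_2171 hP hl) (fc (G_2172 hP hl) (fc (G_2173 hP hl) (fc (G_2174 hP hl) f0))))
theorem G_2169 (hP : P.ok) (hl : ¬ InB P loc) : FGood P h2169 :=
  frun_good hP hl T_2169 (fc (G_2170 hP hl) f0)
theorem G_2168 (hP : P.ok) (hl : ¬ InB P loc) : FGood P h2168 :=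
  frun_good hP hl T_2168 f0
theorem G_2167 (hP : P.ok) (hl : ¬ InB P loc) : FGood P h2167 :=
  frun_good hP hl T_2167 f0
theorem G_2166 (hP : P.ok) (hl : ¬ InB P loc) : FGood P h2166 :=
  frun_good hP hl T_2166 f0
theorem G_2165 (hP : P.ok) (hl : ¬ InB P loc) : FGood P h2165 :=
  frun_good hP hl T_2165 (fc (G_2166 hP hl) (fc (G_2167 hP hl) f0))
theorem G_2164 (hP : P.ok) (hl : ¬ InB P loc) : FGood P h2164 :=
  frun_good hP hl T_2164 f0
theorem G_2163 (hP : P.ok) (hl : ¬ InB P loc) : FGood P h2163 :=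
  frun_good hP hl T_2163 f0
theorem G_2162 (hP : P.ok) (hl : ¬ InB P loc) : FGood P h2162 :=
  frun_good hP hl T_2162 f0
theorem G_2161 (hP : P.ok) (hl : ¬ InB P loc) : FGood P h2161 :=
  frun_good hP hl T_2161 (fc (G_2162 hP hl) (fc (G_2163 hP hl) (fc (G_2164 hP hl) f0)))
theorem G_2160 (hP : P.ok) (hl : ¬ InB P loc) : FGood P h2160 :=
  frun_good hP hl T_2160 f0
theorem G_2159 (hP : P.ok) (hl : ¬ InB P loc) : FGood P h2159 :=
  frun_good hP hl T_2159 (fc (G_2160 hP hl) f0)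
theorem G_2158 (hP : P.ok) (hl : ¬ InB P loc) : FGood P h2158 :=
  frun_good hP hl T_2158 f0
theorem G_2157 (hP : P.ok) (hl : ¬ InB P loc) : FGood P h2157 :=
  frun_good hP hl T_2157 f0
theorem G_2156 (hP : P.ok) (hl : ¬ InB P loc) : FGood P h2156 :=
  frun_good hP hl T_2156 f0
theorem G_2155 (hP : P.ok) (hl : ¬ InB P loc) : FGood P h2155 :=
  frun_good hP hl T_2155 f0
theorem G_2154 (hP : P.ok) (hl : ¬ InB P loc) : FGood P h2154 :=
  frun_good hP hl T_2154 f0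
theorem G_2153 (hP : P.ok) (hl : ¬ InB P loc) : FGood P h2153 :=
  frun_good hP hl T_2153 (fc (G_2157 hP hl) (fc (G_2158 hP hl) f0))
theorem G_2152 (hP : P.ok) (hl : ¬ InB P loc) : FGood P h2152 :=
  frun_good hP hl T_2152 (fc (G_2156 hP hl) f0)
theorem G_2151 (hP : P.ok) (hl : ¬ InB P loc) : FGood P h2151 :=
  frun_good hP hl T_2151 (fc (G_2152 hP hl) (fc (G_2153 hP hl) (fc (G_2154 hP hl) (fc (G_2155 hP hl) f0))))
theorem G_2150 (hP : P.ok) (hl : ¬ InB P loc) : FGood P h2150 :=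
  frun_good hP hl T_2150 f0
theorem G_2149 (hP : P.ok) (hl : ¬ InB P loc) : FGood P h2149 :=
  frun_good hP hl T_2149 f0
theorem G_2148 (hP : P.ok) (hl : ¬ InB P loc) : FGood P h2148 :=
  frun_good hP hl T_2148 f0
theorem G_2147 (hP : P.ok) (hl : ¬ InB P loc) : FGood P h2147 :=
  frun_good hP hl T_2147 (fc (G_2149 hP hl) f0)
theorem G_2146 (hP : P.ok) (hl : ¬ InB P loc) : FGood P h2146 :=
  frun_good hP hl T_2146 (fc (G_2148 hP hl) f0)
theorem G_2145 (hP : P.ok) (hl : ¬ InB P loc) : FGood P h2145 :=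
  frun_good hP hl T_2145 f0
theorem G_2144 (hP : P.ok) (hl : ¬ InB P loc) : FGood P h2144 :=
  frun_good hP hl T_2144 f0
theorem G_2143 (hP : P.ok) (hl : ¬ InB P loc) : FGood P h2143 :=
  frun_good hP hl T_2143 f0
theorem G_2142 (hP : P.ok) (hl : ¬ InB P loc) : FGood P h2142 :=
  frun_good hP hl T_2142 (fc (G_2147 hP hl) f0)
theorem G_2141 (hP : P.ok) (hl : ¬ InB P loc) : FGood P h2141 :=
  frun_good hP hl T_2141 (fc (G_2143 hP hl) (fc (G_2144 hP hl) (fc (G_2145 hP hl) (fc (G_2146 hP hl) f0))))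
theorem G_2140 (hP : P.ok) (hl : ¬ InB P loc) : FGood P h2140 :=
  frun_good hP hl T_2140 (fc (G_2141 hP hl) (fc (G_2142 hP hl) f0))
theorem G_2139 (hP : P.ok) (hl : ¬ InB P loc) : FGood P h2139 :=
  frun_good hP hl T_2139 f0
theorem G_2138 (hP : P.ok) (hl : ¬ InB P loc) : FGood P h2138 :=
  frun_good hP hl T_2138 f0
theorem G_2137 (hP : P.ok) (hl : ¬ InB P loc) : FGood P h2137 :=
  frun_good hP hl T_2137 (fc (G_2138 hP hl) (fc (G_2139 hP hl) f0))
theorem G_2136 (hP : P.ok) (hl : ¬ InB P loc) : FGood P h2136 :=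
  frun_good hP hl T_2136 f0
theorem G_2135 (hP : P.ok) (hl : ¬ InB P loc) : FGood P h2135 :=
  frun_good hP hl T_2135 f0
theorem G_2134 (hP : P.ok) (hl : ¬ InB P loc) : FGood P h2134 :=
  frun_good hP hl T_2134 f0
theorem G_2133 (hP : P.ok) (hl : ¬ InB P loc) : FGood P h2133 :=
  frun_good hP hl T_2133 f0
theorem G_2132 (hP : P.ok) (hl : ¬ InB P loc) : FGood P h2132 :=
  frun_good hP hl T_2132 f0
theorem G_2131 (hP : P.ok) (hl : ¬ InB P loc) : FGood P h2131 :=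
  frun_good hP hl T_2131 (fc (G_2134 hP hl) f0)
theorem G_2130 (hP : P.ok) (hl : ¬ InB P loc) : FGood P h2130 :=
  frun_good hP hl T_2130 f0
theorem G_2129 (hP : P.ok) (hl : ¬ InB P loc) : FGood P h2129 :=
  frun_good hP hl T_2129 (fc (G_2132 hP hl) (fc (G_2133 hP hl) f0))
theorem G_2128 (hP : P.ok) (hl : ¬ InB P loc) : FGood P h2128 :=
  frun_good hP hl T_2128 (fc (G_2131 hP hl) f0)
theorem G_2127 (hP : P.ok) (hl : ¬ InB P loc) : FGood P h2127 :=
  frun_good hP hl T_2127 (fc (G_2128 hP hl) (fc (G_2129 hP hl) (fc (G_2130 hP hl) f0)))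
theorem G_2126 (hP : P.ok) (hl : ¬ InB P loc) : FGood P h2126 :=
  frun_good hP hl T_2126 f0
theorem G_2125 (hP : P.ok) (hl : ¬ InB P loc) : FGood P h2125 :=
  frun_good hP hl T_2125 f0
theorem G_2124 (hP : P.ok) (hl : ¬ InB P loc) : FGood P h2124 :=
  frun_good hP hl T_2124 (fc (G_2125 hP hl) (fc (G_2126 hP hl) f0))
theorem G_2123 (hP : P.ok) (hl : ¬ InB P loc) : FGood P h2123 :=
  frun_good hP hl T_2123 f0
theorem G_2122 (hP : P.ok) (hl : ¬ InB P loc) : FGood P h2122 :=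
  frun_good hP hl T_2122 f0
theorem G_2121 (hP : P.ok) (hl : ¬ InB P loc) : FGood P h2121 :=
  frun_good hP hl T_2121 (fc (G_2122 hP hl) (fc (G_2123 hP hl) (fc (G_2124 hP hl) f0)))
theorem G_2120 (hP : P.ok) (hl : ¬ InB P loc) : FGood P h2120 :=
  frun_good hP hl T_2120 f0
theorem G_2119 (hP : P.ok) (hl : ¬ InB P loc) : FGood P h2119 :=
  frun_good hP hl T_2119 f0
theorem G_2118 (hP : P.ok) (hl : ¬ InB P loc) : FGood P h2118 :=
  frun_good hP hl T_2118 f0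
theorem G_2117 (hP : P.ok) (hl : ¬ InB P loc) : FGood P h2117 :=
  frun_good hP hl T_2117 f0
theorem G_2116 (hP : P.ok) (hl : ¬ InB P loc) : FGood P h2116 :=
  frun_good hP hl T_2116 (fc (G_2117 hP hl) (fc (G_2118 hP hl) f0))
theorem G_2115 (hP : P.ok) (hl : ¬ InB P loc) : FGood P h2115 :=
  frun_good hP hl T_2115 f0
theorem G_2114 (hP : P.ok) (hl : ¬ InB P loc) : FGood P h2114 :=
  frun_good hP hl T_2114 f0
theorem G_2113 (hP : P.ok) (hl : ¬ InB P loc) : FGood P h2113 :=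
  frun_good hP hl T_2113 f0
theorem G_2112 (hP : P.ok) (hl : ¬ InB P loc) : FGood P h2112 :=
  frun_good hP hl T_2112 f0
theorem G_2111 (hP : P.ok) (hl : ¬ InB P loc) : FGood P h2111 :=
  frun_good hP hl T_2111 (fc (G_2112 hP hl) f0)
theorem G_2110 (hP : P.ok) (hl : ¬ InB P loc) : FGood P h2110 :=
  frun_good hP hl T_2110 f0
theorem G_2109 (hP : P.ok) (hl : ¬ InB P loc) : FGood P h2109 :=
  frun_good hP hl T_2109 (fc (G_2110 hP hl) f0)
theorem G_2108 (hP : P.ok) (hl : ¬ InB P loc) : FGood P h2108 :=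
  frun_good hP hl T_2108 f0
theorem G_2107 (hP : P.ok) (hl : ¬ InB P loc) : FGood P h2107 :=
  frun_good hP hl T_2107 f0
theorem G_2106 (hP : P.ok) (hl : ¬ InB P loc) : FGood P h2106 :=
  frun_good hP hl T_2106 (fc (G_2107 hP hl) (fc (G_2108 hP hl) f0))
theorem G_2105 (hP : P.ok) (hl : ¬ InB P loc) : FGood P h2105 :=
  frun_good hP hl T_2105 f0
theorem G_2104 (hP : P.ok) (hl : ¬ InB P loc) : FGood P h2104 :=
  frun_good hP hl T_2104 (fc (G_2105 hP hl) f0)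
theorem G_2103 (hP : P.ok) (hl : ¬ InB P loc) : FGood P h2103 :=
  frun_good hP hl T_2103 f0
theorem G_2102 (hP : P.ok) (hl : ¬ InB P loc) : FGood P h2102 :=
  frun_good hP hl T_2102 (fc (G_2103 hP hl) (fc (G_2104 hP hl) f0))
theorem G_2101 (hP : P.ok) (hl : ¬ InB P loc) : FGood P h2101 :=
  frun_good hP hl T_2101 (fc (G_2102 hP hl) f0)
theorem G_2100 (hP : P.ok) (hl : ¬ InB P loc) : FGood P h2100 :=
  frun_good hP hl T_2100 f0
theorem G_2099 (hP : P.ok) (hl : ¬ InB P loc) : FGood P h2099 :=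
  frun_good hP hl T_2099 f0
theorem G_2098 (hP : P.ok) (hl : ¬ InB P loc) : FGood P h2098 :=
  frun_good hP hl T_2098 f0
theorem G_2097 (hP : P.ok) (hl : ¬ InB P loc) : FGood P h2097 :=
  frun_good hP hl T_2097 (fc (G_2098 hP hl) (fc (G_2099 hP hl) f0))
theorem G_2096 (hP : P.ok) (hl : ¬ InB P loc) : FGood P h2096 :=
  frun_good hP hl T_2096 f0
theorem G_2095 (hP : P.ok) (hl : ¬ InB P loc) : FGood P h2095 :=
  frun_good hP hl T_2095 f0
theorem G_2094 (hP : P.ok) (hl : ¬ InB P loc) : FGood P h2094 :=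
  frun_good hP hl T_2094 f0
theorem G_2093 (hP : P.ok) (hl : ¬ InB P loc) : FGood P h2093 :=
  frun_good hP hl T_2093 (fc (G_2095 hP hl) (fc (G_2096 hP hl) f0))
theorem G_2092 (hP : P.ok) (hl : ¬ InB P loc) : FGood P h2092 :=
  frun_good hP hl T_2092 (fc (G_2094 hP hl) f0)
theorem G_2091 (hP : P.ok) (hl : ¬ InB P loc) : FGood P h2091 :=
  frun_good hP hl T_2091 (fc (G_2092 hP hl) (fc (G_2093 hP hl) f0))
theorem G_2090 (hP : P.ok) (hl : ¬ InB P loc) : FGood P h2090 :=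
  frun_good hP hl T_2090 f0
theorem G_2089 (hP : P.ok) (hl : ¬ InB P loc) : FGood P h2089 :=
  frun_good hP hl T_2089 (fc (G_2090 hP hl) f0)
theorem G_2088 (hP : P.ok) (hl : ¬ InB P loc) : FGood P h2088 :=
  frun_good hP hl T_2088 f0
theorem G_2087 (hP : P.ok) (hl : ¬ InB P loc) : FGood P h2087 :=
  frun_good hP hl T_2087 f0
theorem G_2086 (hP : P.ok) (hl : ¬ InB P loc) : FGood P h2086 :=
  frun_good hP hl T_2086 f0
theorem G_2085 (hP : P.ok) (hl : ¬ InB P loc) : FGood P h2085 :=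
  frun_good hP hl T_2085 (fc (G_2087 hP hl) f0)
theorem G_2084 (hP : P.ok) (hl : ¬ InB P loc) : FGood P h2084 :=
  frun_good hP hl T_2084 f0
theorem G_2083 (hP : P.ok) (hl : ¬ InB P loc) : FGood P h2083 :=
  frun_good hP hl T_2083 (fc (G_2086 hP hl) f0)
theorem G_2082 (hP : P.ok) (hl : ¬ InB P loc) : FGood P h2082 :=
  frun_good hP hl T_2082 (fc (G_2083 hP hl) (fc (G_2084 hP hl) (fc (G_2085 hP hl) f0)))
theorem G_2081 (hP : P.ok) (hl : ¬ InB P loc) : FGood P h2081 :=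
  frun_good hP hl T_2081 f0
theorem G_2080 (hP : P.ok) (hl : ¬ InB P loc) : FGood P h2080 :=
  frun_good hP hl T_2080 f0
theorem G_2079 (hP : P.ok) (hl : ¬ InB P loc) : FGood P h2079 :=
  frun_good hP hl T_2079 (fc (G_2080 hP hl) (fc (G_2081 hP hl) f0))
theorem G_2078 (hP : P.ok) (hl : ¬ InB P loc) : FGood P h2078 :=
  frun_good hP hl T_2078 (fc (G_2079 hP hl) f0)
theorem G_2077 (hP : P.ok) (hl : ¬ InB P loc) : FGood P h2077 :=
  frun_good hP hl T_2077 f0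
theorem G_2076 (hP : P.ok) (hl : ¬ InB P loc) : FGood P h2076 :=
  frun_good hP hl T_2076 f0
theorem G_2075 (hP : P.ok) (hl : ¬ InB P loc) : FGood P h2075 :=
  frun_good hP hl T_2075 f0
theorem G_2074 (hP : P.ok) (hl : ¬ InB P loc) : FGood P h2074 :=
  frun_good hP hl T_2074 (fc (G_2075 hP hl) (fc (G_2076 hP hl) (fc (G_2077 hP hl) f0)))
theorem G_2073 (hP : P.ok) (hl : ¬ InB P loc) : FGood P h2073 :=
  frun_good hP hl T_2073 f0
theorem G_2072 (hP : P.ok) (hl : ¬ InB P loc) : FGood P h2072 :=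
  frun_good hP hl T_2072 f0
theorem G_2071 (hP : P.ok) (hl : ¬ InB P loc) : FGood P h2071 :=
  frun_good hP hl T_2071 f0
theorem G_2070 (hP : P.ok) (hl : ¬ InB P loc) : FGood P h2070 :=
  frun_good hP hl T_2070 (fc (G_2071 hP hl) (fc (G_2072 hP hl) (fc (G_2073 hP hl) f0)))
theorem G_2069 (hP : P.ok) (hl : ¬ InB P loc) : FGood P h2069 :=
  frun_good hP hl T_2069 f0
theorem G_2068 (hP : P.ok) (hl : ¬ InB P loc) : FGood P h2068 :=
  frun_good hP hl T_2068 f0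
theorem G_2067 (hP : P.ok) (hl : ¬ InB P loc) : FGood P h2067 :=
  frun_good hP hl T_2067 (fc (G_2070 hP hl) f0)
theorem G_2066 (hP : P.ok) (hl : ¬ InB P loc) : FGood P h2066 :=
  frun_good hP hl T_2066 (fc (G_2068 hP hl) (fc (G_2069 hP hl) f0))
theorem G_2065 (hP : P.ok) (hl : ¬ InB P loc) : FGood P h2065 :=
  frun_good hP hl T_2065 (fc (G_2066 hP hl) (fc (G_2067 hP hl) f0))
theorem G_2064 (hP : P.ok) (hl : ¬ InB P loc) : FGood P h2064 :=
  frun_good hP hl T_2064 f0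
theorem G_2063 (hP : P.ok) (hl : ¬ InB P loc) : FGood P h2063 :=
  frun_good hP hl T_2063 f0
theorem G_2062 (hP : P.ok) (hl : ¬ InB P loc) : FGood P h2062 :=
  frun_good hP hl T_2062 f0
theorem G_2061 (hP : P.ok) (hl : ¬ InB P loc) : FGood P h2061 :=
  frun_good hP hl T_2061 f0
theorem G_2060 (hP : P.ok) (hl : ¬ InB P loc) : FGood P h2060 :=
  frun_good hP hl T_2060 f0
theorem G_2059 (hP : P.ok) (hl : ¬ InB P loc) : FGood P h2059 :=
  frun_good hP hl T_2059 f0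
theorem G_2058 (hP : P.ok) (hl : ¬ InB P loc) : FGood P h2058 :=
  frun_good hP hl T_2058 (fc (G_2059 hP hl) (fc (G_2060 hP hl) f0))
theorem G_2057 (hP : P.ok) (hl : ¬ InB P loc) : FGood P h2057 :=
  frun_good hP hl T_2057 f0
theorem G_2056 (hP : P.ok) (hl : ¬ InB P loc) : FGood P h2056 :=
  frun_good hP hl T_2056 f0
theorem G_2055 (hP : P.ok) (hl : ¬ InB P loc) : FGood P h2055 :=
  frun_good hP hl T_2055 (fc (G_2056 hP hl) (fc (G_2057 hP hl) f0))
theorem G_2054 (hP : P.ok) (hl : ¬ InB P loc) : FGood P h2054 :=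
  frun_good hP hl T_2054 f0
theorem G_2053 (hP : P.ok) (hl : ¬ InB P loc) : FGood P h2053 :=
  frun_good hP hl T_2053 (fc (G_2054 hP hl) f0)
theorem G_2052 (hP : P.ok) (hl : ¬ InB P loc) : FGood P h2052 :=
  frun_good hP hl T_2052 f0
theorem G_2051 (hP : P.ok) (hl : ¬ InB P loc) : FGood P h2051 :=
  frun_good hP hl T_2051 f0
theorem G_2050 (hP : P.ok) (hl : ¬ InB P loc) : FGood P h2050 :=
  frun_good hP hl T_2050 f0
theorem G_2049 (hP : P.ok) (hl : ¬ InB P loc) : FGood P h2049 :=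
  frun_good hP hl T_2049 (fc (G_2051 hP hl) (fc (G_2052 hP hl) f0))
theorem G_2048 (hP : P.ok) (hl : ¬ InB P loc) : FGood P h2048 :=
  frun_good hP hl T_2048 (fc (G_2050 hP hl) f0)
theorem G_2047 (hP : P.ok) (hl : ¬ InB P loc) : FGood P h2047 :=
  frun_good hP hl T_2047 f0
theorem G_2046 (hP : P.ok) (hl : ¬ InB P loc) : FGood P h2046 :=
  frun_good hP hl T_2046 (fc (G_2047 hP hl) (fc (G_2048 hP hl) (fc (G_2049 hP hl) f0)))
theorem G_2045 (hP : P.ok) (hl : ¬ InB P loc) : FGood P h2045 :=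
  frun_good hP hl T_2045 f0
theorem G_2044 (hP : P.ok) (hl : ¬ InB P loc) : FGood P h2044 :=
  frun_good hP hl T_2044 f0
theorem G_2043 (hP : P.ok) (hl : ¬ InB P loc) : FGood P h2043 :=
  frun_good hP hl T_2043 (fc (G_2044 hP hl) f0)
theorem G_2042 (hP : P.ok) (hl : ¬ InB P loc) : FGood P h2042 :=
  frun_good hP hl T_2042 f0
theorem G_2041 (hP : P.ok) (hl : ¬ InB P loc) : FGood P h2041 :=
  frun_good hP hl T_2041 f0
theorem G_2040 (hP : P.ok) (hl : ¬ InB P loc) : FGood P h2040 :=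
  frun_good hP hl T_2040 f0
theorem G_2039 (hP : P.ok) (hl : ¬ InB P loc) : FGood P h2039 :=
  frun_good hP hl T_2039 (fc (G_2040 hP hl) (fc (G_2041 hP hl) (fc (G_2042 hP hl) (fc (G_2043 hP hl) f0))))
theorem G_2038 (hP : P.ok) (hl : ¬ InB P loc) : FGood P h2038 :=
  frun_good hP hl T_2038 f0
theorem G_2037 (hP : P.ok) (hl : ¬ InB P loc) : FGood P h2037 :=
  frun_good hP hl T_2037 f0
theorem G_2036 (hP : P.ok) (hl : ¬ InB P loc) : FGood P h2036 :=
  frun_good hP hl T_2036 f0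
theorem G_2035 (hP : P.ok) (hl : ¬ InB P loc) : FGood P h2035 :=
  frun_good hP hl T_2035 (fc (G_2036 hP hl) f0)
theorem G_2034 (hP : P.ok) (hl : ¬ InB P loc) : FGood P h2034 :=
  frun_good hP hl T_2034 f0
theorem G_2033 (hP : P.ok) (hl : ¬ InB P loc) : FGood P h2033 :=
  frun_good hP hl T_2033 f0
theorem G_2032 (hP : P.ok) (hl : ¬ InB P loc) : FGood P h2032 :=
  frun_good hP hl T_2032 (fc (G_2033 hP hl) (fc (G_2034 hP hl) (fc (G_2035 hP hl) f0)))
theorem G_2031 (hP : P.ok) (hl : ¬ InB P loc) : FGood P h2031 :=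
  frun_good hP hl T_2031 f0
theorem G_2030 (hP : P.ok) (hl : ¬ InB P loc) : FGood P h2030 :=
  frun_good hP hl T_2030 f0
theorem G_2029 (hP : P.ok) (hl : ¬ InB P loc) : FGood P h2029 :=
  frun_good hP hl T_2029 f0
theorem G_2028 (hP : P.ok) (hl : ¬ InB P loc) : FGood P h2028 :=
  frun_good hP hl T_2028 f0
theorem G_2027 (hP : P.ok) (hl : ¬ InB P loc) : FGood P h2027 :=
  frun_good hP hl T_2027 (fc (G_2030 hP hl) (fc (G_2031 hP hl) f0))
theorem G_2026 (hP : P.ok) (hl : ¬ InB P loc) : FGood P h2026 :=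
  frun_good hP hl T_2026 f0
theorem G_2025 (hP : P.ok) (hl : ¬ InB P loc) : FGood P h2025 :=
  frun_good hP hl T_2025 f0
theorem G_2024 (hP : P.ok) (hl : ¬ InB P loc) : FGood P h2024 :=
  frun_good hP hl T_2024 (fc (G_2025 hP hl) (fc (G_2026 hP hl) (fc (G_2027 hP hl) (fc (G_2028 hP hl) (fc (G_2029 hP hl) f0)))))
theorem G_2023 (hP : P.ok) (hl : ¬ InB P loc) : FGood P h2023 :=
  frun_good hP hl T_2023 f0
theorem G_2022 (hP : P.ok) (hl : ¬ InB P loc) : FGood P h2022 :=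
  frun_good hP hl T_2022 (fc (G_2023 hP hl) f0)
theorem G_2021 (hP : P.ok) (hl : ¬ InB P loc) : FGood P h2021 :=
  frun_good hP hl T_2021 (fc (G_2022 hP hl) f0)
theorem G_2020 (hP : P.ok) (hl : ¬ InB P loc) : FGood P h2020 :=
  frun_good hP hl T_2020 f0
theorem G_2019 (hP : P.ok) (hl : ¬ InB P loc) : FGood P h2019 :=
  frun_good hP hl T_2019 f0
theorem G_2018 (hP : P.ok) (hl : ¬ InB P loc) : FGood P h2018 :=
  frun_good hP hl T_2018 f0
theorem G_2017 (hP : P.ok) (hl : ¬ InB P loc) : FGood P h2017 :=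
  frun_good hP hl T_2017 f0
theorem G_2016 (hP : P.ok) (hl : ¬ InB P loc) : FGood P h2016 :=
  frun_good hP hl T_2016 (fc (G_2018 hP hl) (fc (G_2019 hP hl) (fc (G_2020 hP hl) f0)))
theorem G_2015 (hP : P.ok) (hl : ¬ InB P loc) : FGood P h2015 :=
  frun_good hP hl T_2015 (fc (G_2016 hP hl) (fc (G_2017 hP hl) f0))
theorem G_2014 (hP : P.ok) (hl : ¬ InB P loc) : FGood P h2014 :=
  frun_good hP hl T_2014 f0
theorem G_2013 (hP : P.ok) (hl : ¬ InB P loc) : FGood P h2013 :=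
  frun_good hP hl T_2013 (fc (G_2014 hP hl) f0)
theorem G_2012 (hP : P.ok) (hl : ¬ InB P loc) : FGood P h2012 :=
  frun_good hP hl T_2012 f0
theorem G_2011 (hP : P.ok) (hl : ¬ InB P loc) : FGood P h2011 :=
  frun_good hP hl T_2011 f0
theorem G_2010 (hP : P.ok) (hl : ¬ InB P loc) : FGood P h2010 :=
  frun_good hP hl T_2010 (fc (G_2011 hP hl) f0)
theorem G_2009 (hP : P.ok) (hl : ¬ InB P loc) : FGood P h2009 :=
  frun_good hP hl T_2009 f0
theorem G_2008 (hP : P.ok) (hl : ¬ InB P loc) : FGood P h2008 :=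
  frun_good hP hl T_2008 f0
theorem G_2007 (hP : P.ok) (hl : ¬ InB P loc) : FGood P h2007 :=
  frun_good hP hl T_2007 f0
theorem G_2006 (hP : P.ok) (hl : ¬ InB P loc) : FGood P h2006 :=
  frun_good hP hl T_2006 (fc (G_2007 hP hl) (fc (G_2008 hP hl) (fc (G_2009 hP hl) f0)))
theorem G_2005 (hP : P.ok) (hl : ¬ InB P loc) : FGood P h2005 :=
  frun_good hP hl T_2005 f0
theorem G_2004 (hP : P.ok) (hl : ¬ InB P loc) : FGood P h2004 :=
  frun_good hP hl T_2004 (fc (G_2005 hP hl) (fc (G_2006 hP hl) f0))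
theorem G_2003 (hP : P.ok) (hl : ¬ InB P loc) : FGood P h2003 :=
  frun_good hP hl T_2003 f0
theorem G_2002 (hP : P.ok) (hl : ¬ InB P loc) : FGood P h2002 :=
  frun_good hP hl T_2002 f0
theorem G_2001 (hP : P.ok) (hl : ¬ InB P loc) : FGood P h2001 :=
  frun_good hP hl T_2001 f0
theorem G_2000 (hP : P.ok) (hl : ¬ InB P loc) : FGood P h2000 :=
  frun_good hP hl T_2000 (fc (G_2001 hP hl) f0)
theorem G_1999 (hP : P.ok) (hl : ¬ InB P loc) : FGood P h1999 :=
  frun_good hP hl T_1999 (fc (G_2000 hP hl) f0)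
theorem G_1998 (hP : P.ok) (hl : ¬ InB P loc) : FGood P h1998 :=
  frun_good hP hl T_1998 f0
theorem G_1997 (hP : P.ok) (hl : ¬ InB P loc) : FGood P h1997 :=
  frun_good hP hl T_1997 (fc (G_1998 hP hl) f0)
theorem G_1996 (hP : P.ok) (hl : ¬ InB P loc) : FGood P h1996 :=
  frun_good hP hl T_1996 (fc (G_1997 hP hl) f0)
theorem G_1995 (hP : P.ok) (hl : ¬ InB P loc) : FGood P h1995 :=
  frun_good hP hl T_1995 f0
theorem G_1994 (hP : P.ok) (hl : ¬ InB P loc) : FGood P h1994 :=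
  frun_good hP hl T_1994 f0
theorem G_1993 (hP : P.ok) (hl : ¬ InB P loc) : FGood P h1993 :=
  frun_good hP hl T_1993 f0
theorem G_1992 (hP : P.ok) (hl : ¬ InB P loc) : FGood P h1992 :=
  frun_good hP hl T_1992 (fc (G_1993 hP hl) (fc (G_1994 hP hl) f0))
theorem G_1991 (hP : P.ok) (hl : ¬ InB P loc) : FGood P h1991 :=
  frun_good hP hl T_1991 f0
theorem G_1990 (hP : P.ok) (hl : ¬ InB P loc) : FGood P h1990 :=
  frun_good hP hl T_1990 (fc (G_1991 hP hl) f0)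
theorem G_1989 (hP : P.ok) (hl : ¬ InB P loc) : FGood P h1989 :=
  frun_good hP hl T_1989 (fc (G_1990 hP hl) f0)
theorem G_1988 (hP : P.ok) (hl : ¬ InB P loc) : FGood P h1988 :=
  frun_good hP hl T_1988 f0
theorem G_1987 (hP : P.ok) (hl : ¬ InB P loc) : FGood P h1987 :=
  frun_good hP hl T_1987 f0
theorem G_1986 (hP : P.ok) (hl : ¬ InB P loc) : FGood P h1986 :=
  frun_good hP hl T_1986 f0
theorem G_1985 (hP : P.ok) (hl : ¬ InB P loc) : FGood P h1985 :=
  frun_good hP hl T_1985 f0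
theorem G_1984 (hP : P.ok) (hl : ¬ InB P loc) : FGood P h1984 :=
  frun_good hP hl T_1984 (fc (G_1986 hP hl) (fc (G_1987 hP hl) f0))
theorem G_1983 (hP : P.ok) (hl : ¬ InB P loc) : FGood P h1983 :=
  frun_good hP hl T_1983 (fc (G_1984 hP hl) (fc (G_1985 hP hl) f0))
theorem G_1982 (hP : P.ok) (hl : ¬ InB P loc) : FGood P h1982 :=
  frun_good hP hl T_1982 f0
theorem G_1981 (hP : P.ok) (hl : ¬ InB P loc) : FGood P h1981 :=
  frun_good hP hl T_1981 (fc (G_1982 hP hl) f0)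
theorem G_1980 (hP : P.ok) (hl : ¬ InB P loc) : FGood P h1980 :=
  frun_good hP hl T_1980 f0
theorem G_1979 (hP : P.ok) (hl : ¬ InB P loc) : FGood P h1979 :=
  frun_good hP hl T_1979 f0
theorem G_1978 (hP : P.ok) (hl : ¬ InB P loc) : FGood P h1978 :=
  frun_good hP hl T_1978 (fc (G_1979 hP hl) (fc (G_1980 hP hl) (fc (G_1981 hP hl) f0)))
theorem G_1977 (hP : P.ok) (hl : ¬ InB P loc) : FGood P h1977 :=
  frun_good hP hl T_1977 f0
theorem G_1976 (hP : P.ok) (hl : ¬ InB P loc) : FGood P h1976 :=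
  frun_good hP hl T_1976 (fc (G_1977 hP hl) f0)
theorem G_1975 (hP : P.ok) (hl : ¬ InB P loc) : FGood P h1975 :=
  frun_good hP hl T_1975 f0
theorem G_1974 (hP : P.ok) (hl : ¬ InB P loc) : FGood P h1974 :=
  frun_good hP hl T_1974 (fc (G_1975 hP hl) (fc (G_1976 hP hl) f0))
theorem G_1973 (hP : P.ok) (hl : ¬ InB P loc) : FGood P h1973 :=
  frun_good hP hl T_1973 f0
theorem G_1972 (hP : P.ok) (hl : ¬ InB P loc) : FGood P h1972 :=
  frun_good hP hl T_1972 f0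
theorem G_1971 (hP : P.ok) (hl : ¬ InB P loc) : FGood P h1971 :=
  frun_good hP hl T_1971 f0
theorem G_1970 (hP : P.ok) (hl : ¬ InB P loc) : FGood P h1970 :=
  frun_good hP hl T_1970 f0
theorem G_1969 (hP : P.ok) (hl : ¬ InB P loc) : FGood P h1969 :=
  frun_good hP hl T_1969 (fc (G_1970 hP hl) (fc (G_1971 hP hl) f0))
theorem G_1968 (hP : P.ok) (hl : ¬ InB P loc) : FGood P h1968 :=
  frun_good hP hl T_1968 f0
theorem G_1967 (hP : P.ok) (hl : ¬ InB P loc) : FGood P h1967 :=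
  frun_good hP hl T_1967 (fc (G_1968 hP hl) f0)
theorem G_1966 (hP : P.ok) (hl : ¬ InB P loc) : FGood P h1966 :=
  frun_good hP hl T_1966 f0
theorem G_1965 (hP : P.ok) (hl : ¬ InB P loc) : FGood P h1965 :=
  frun_good hP hl T_1965 f0
theorem G_1964 (hP : P.ok) (hl : ¬ InB P loc) : FGood P h1964 :=
  frun_good hP hl T_1964 (fc (G_1965 hP hl) f0)
theorem G_1963 (hP : P.ok) (hl : ¬ InB P loc) : FGood P h1963 :=
  frun_good hP hl T_1963 f0
theorem G_1962 (hP : P.ok) (hl : ¬ InB P loc) : FGood P h1962 :=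
  frun_good hP hl T_1962 f0
theorem G_1961 (hP : P.ok) (hl : ¬ InB P loc) : FGood P h1961 :=
  frun_good hP hl T_1961 f0
theorem G_1960 (hP : P.ok) (hl : ¬ InB P loc) : FGood P h1960 :=
  frun_good hP hl T_1960 f0
theorem G_1959 (hP : P.ok) (hl : ¬ InB P loc) : FGood P h1959 :=
  frun_good hP hl T_1959 (fc (G_1960 hP hl) (fc (G_1961 hP hl) (fc (G_1962 hP hl) f0)))
theorem G_1958 (hP : P.ok) (hl : ¬ InB P loc) : FGood P h1958 :=
  frun_good hP hl T_1958 (fc (G_1959 hP hl) f0)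
theorem G_1957 (hP : P.ok) (hl : ¬ InB P loc) : FGood P h1957 :=
  frun_good hP hl T_1957 f0
theorem G_1956 (hP : P.ok) (hl : ¬ InB P loc) : FGood P h1956 :=
  frun_good hP hl T_1956 (fc (G_1957 hP hl) f0)
theorem G_1955 (hP : P.ok) (hl : ¬ InB P loc) : FGood P h1955 :=
  frun_good hP hl T_1955 (fc (G_1956 hP hl) f0)
theorem G_1954 (hP : P.ok) (hl : ¬ InB P loc) : FGood P h1954 :=
  frun_good hP hl T_1954 f0
theorem G_1953 (hP : P.ok) (hl : ¬ InB P loc) : FGood P h1953 :=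
  frun_good hP hl T_1953 f0
theorem G_1952 (hP : P.ok) (hl : ¬ InB P loc) : FGood P h1952 :=
  frun_good hP hl T_1952 f0
theorem G_1951 (hP : P.ok) (hl : ¬ InB P loc) : FGood P h1951 :=
  frun_good hP hl T_1951 (fc (G_1952 hP hl) f0)
theorem G_1950 (hP : P.ok) (hl : ¬ InB P loc) : FGood P h1950 :=
  frun_good hP hl T_1950 f0
theorem G_1949 (hP : P.ok) (hl : ¬ InB P loc) : FGood P h1949 :=
  frun_good hP hl T_1949 f0
theorem G_1948 (hP : P.ok) (hl : ¬ InB P loc) : FGood P h1948 :=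
  frun_good hP hl T_1948 f0
theorem G_1947 (hP : P.ok) (hl : ¬ InB P loc) : FGood P h1947 :=
  frun_good hP hl T_1947 (fc (G_1948 hP hl) f0)
theorem G_1946 (hP : P.ok) (hl : ¬ InB P loc) : FGood P h1946 :=
  frun_good hP hl T_1946 (fc (G_1947 hP hl) f0)
theorem G_1945 (hP : P.ok) (hl : ¬ InB P loc) : FGood P h1945 :=
  frun_good hP hl T_1945 f0
theorem G_1944 (hP : P.ok) (hl : ¬ InB P loc) : FGood P h1944 :=
  frun_good hP hl T_1944 (fc (G_1945 hP hl) f0)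
theorem G_1943 (hP : P.ok) (hl : ¬ InB P loc) : FGood P h1943 :=
  frun_good hP hl T_1943 f0
theorem G_1942 (hP : P.ok) (hl : ¬ InB P loc) : FGood P h1942 :=
  frun_good hP hl T_1942 (fc (G_1943 hP hl) f0)
theorem G_1941 (hP : P.ok) (hl : ¬ InB P loc) : FGood P h1941 :=
  frun_good hP hl T_1941 (fc (G_1942 hP hl) f0)
theorem G_1940 (hP : P.ok) (hl : ¬ InB P loc) : FGood P h1940 :=
  frun_good hP hl T_1940 f0
theorem G_1939 (hP : P.ok) (hl : ¬ InB P loc) : FGood P h1939 :=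
  frun_good hP hl T_1939 f0
theorem G_1938 (hP : P.ok) (hl : ¬ InB P loc) : FGood P h1938 :=
  frun_good hP hl T_1938 f0
theorem G_1937 (hP : P.ok) (hl : ¬ InB P loc) : FGood P h1937 :=
  frun_good hP hl T_1937 f0
theorem G_1936 (hP : P.ok) (hl : ¬ InB P loc) : FGood P h1936 :=
  frun_good hP hl T_1936 (fc (G_1937 hP hl) (fc (G_1938 hP hl) (fc (G_1939 hP hl) (fc (G_1940 hP hl) f0))))
theorem G_1935 (hP : P.ok) (hl : ¬ InB P loc) : FGood P h1935 :=
  frun_good hP hl T_1935 f0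
theorem G_1934 (hP : P.ok) (hl : ¬ InB P loc) : FGood P h1934 :=
  frun_good hP hl T_1934 (fc (G_1935 hP hl) f0)
theorem G_1933 (hP : P.ok) (hl : ¬ InB P loc) : FGood P h1933 :=
  frun_good hP hl T_1933 (fc (G_1934 hP hl) f0)
theorem G_1932 (hP : P.ok) (hl : ¬ InB P loc) : FGood P h1932 :=
  frun_good hP hl T_1932 f0
theorem G_1931 (hP : P.ok) (hl : ¬ InB P loc) : FGood P h1931 :=
  frun_good hP hl T_1931 (fc (G_1932 hP hl) f0)
theorem G_1930 (hP : P.ok) (hl : ¬ InB P loc) : FGood P h1930 :=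
  frun_good hP hl T_1930 (fc (G_1931 hP hl) f0)
theorem G_1929 (hP : P.ok) (hl : ¬ InB P loc) : FGood P h1929 :=
  frun_good hP hl T_1929 f0
theorem G_1928 (hP : P.ok) (hl : ¬ InB P loc) : FGood P h1928 :=
  frun_good hP hl T_1928 (fc (G_1929 hP hl) (fc (G_1930 hP hl) f0))
theorem G_1927 (hP : P.ok) (hl : ¬ InB P loc) : FGood P h1927 :=
  frun_good hP hl T_1927 (fc (G_1928 hP hl) f0)
theorem G_1926 (hP : P.ok) (hl : ¬ InB P loc) : FGood P h1926 :=
  frun_good hP hl T_1926 f0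
theorem G_1925 (hP : P.ok) (hl : ¬ InB P loc) : FGood P h1925 :=
  frun_good hP hl T_1925 (fc (G_1926 hP hl) f0)
theorem G_1924 (hP : P.ok) (hl : ¬ InB P loc) : FGood P h1924 :=
  frun_good hP hl T_1924 f0
theorem G_1923 (hP : P.ok) (hl : ¬ InB P loc) : FGood P h1923 :=
  frun_good hP hl T_1923 (fc (G_1924 hP hl) f0)
theorem G_1922 (hP : P.ok) (hl : ¬ InB P loc) : FGood P h1922 :=
  frun_good hP hl T_1922 f0
theorem G_1921 (hP : P.ok) (hl : ¬ InB P loc) : FGood P h1921 :=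
  frun_good hP hl T_1921 f0
theorem G_1920 (hP : P.ok) (hl : ¬ InB P loc) : FGood P h1920 :=
  frun_good hP hl T_1920 f0
theorem G_1919 (hP : P.ok) (hl : ¬ InB P loc) : FGood P h1919 :=
  frun_good hP hl T_1919 f0
theorem G_1918 (hP : P.ok) (hl : ¬ InB P loc) : FGood P h1918 :=
  frun_good hP hl T_1918 f0
theorem G_1917 (hP : P.ok) (hl : ¬ InB P loc) : FGood P h1917 :=
  frun_good hP hl T_1917 f0
theorem G_1916 (hP : P.ok) (hl : ¬ InB P loc) : FGood P h1916 :=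
  frun_good hP hl T_1916 (fc (G_1920 hP hl) (fc (G_1921 hP hl) f0))
theorem G_1915 (hP : P.ok) (hl : ¬ InB P loc) : FGood P h1915 :=
  frun_good hP hl T_1915 (fc (G_1916 hP hl) (fc (G_1917 hP hl) (fc (G_1918 hP hl) (fc (G_1919 hP hl) f0))))
theorem G_1914 (hP : P.ok) (hl : ¬ InB P loc) : FGood P h1914 :=
  frun_good hP hl T_1914 f0

end

end Pool.Agent.Lib.MP_9d820d_co.Fast.A
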