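import Pool.Agent.Lib.MP_9d820d_co.FMain
import Pool.Agent.Lib.MP_9d820d_co.G.AC50
import Pool.Agent.Lib.MP_9d820d_co.G.AC51
import Pool.Agent.Lib.MP_9d820d_co.G.AC52
import Pool.Agent.Lib.MP_9d820d_co.G.AC53
import Pool.Agent.Lib.MP_9d820d_co.G.AC54
import Pool.Agent.Lib.MP_9d820d_co.G.AC55
import Pool.Agent.Lib.MP_9d820d_co.G.AC56
import Pool.Agent.Lib.MP_9d820d_co.G.AC57
import Pool.Agent.Lib.MP_9d820d_co.G.AC58
import Pool.Agent.Lib.MP_9d820d_co.G.AC59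
import Pool.Agent.Lib.MP_9d820d_co.G.AC60
import Pool.Agent.Lib.MP_9d820d_co.G.AC61
import Pool.Agent.Lib.MP_9d820d_co.G.AC62
import Pool.Agent.Lib.MP_9d820d_co.G.AC63
import Pool.Agent.Lib.MP_9d820d_co.G.AC64

set_option autoImplicit false

namespace Pool.Agent.Lib.MP_9d820d_co.Fast.A

noncomputable section

variable {P : Prm}

theorem G_2915 (hP : P.ok) (hl : ¬ InB P loc) : FGood P h2915 :=
  frun_good hP hl T_2915 f0
theorem G_2914 (hP : P.ok) (hl : ¬ InB P loc) : FGood P h2914 :=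
  frun_good hP hl T_2914 (fc (G_2915 hP hl) f0)
theorem G_2913 (hP : P.ok) (hl : ¬ InB P loc) : FGood P h2913 :=
  frun_good hP hl T_2913 (fc (G_2914 hP hl) f0)
theorem G_2912 (hP : P.ok) (hl : ¬ InB P loc) : FGood P h2912 :=
  frun_good hP hl T_2912 (fc (G_2913 hP hl) f0)
theorem G_2911 (hP : P.ok) (hl : ¬ InB P loc) : FGood P h2911 :=
  frun_good hP hl T_2911 f0
theorem G_2910 (hP : P.ok) (hl : ¬ InB P loc) : FGood P h2910 :=
  frun_good hP hl T_2910 (fc (G_2911 hP hl) f0)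
theorem G_2909 (hP : P.ok) (hl : ¬ InB P loc) : FGood P h2909 :=
  frun_good hP hl T_2909 f0
theorem G_2908 (hP : P.ok) (hl : ¬ InB P loc) : FGood P h2908 :=
  frun_good hP hl T_2908 f0
theorem G_2907 (hP : P.ok) (hl : ¬ InB P loc) : FGood P h2907 :=
  frun_good hP hl T_2907 (fc (G_2908 hP hl) (fc (G_2909 hP hl) f0))
theorem G_2906 (hP : P.ok) (hl : ¬ InB P loc) : FGood P h2906 :=
  frun_good hP hl T_2906 f0
theorem G_2905 (hP : P.ok) (hl : ¬ InB P loc) : FGood P h2905 :=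
  frun_good hP hl T_2905 (fc (G_2906 hP hl) f0)
theorem G_2904 (hP : P.ok) (hl : ¬ InB P loc) : FGood P h2904 :=
  frun_good hP hl T_2904 (fc (G_2905 hP hl) f0)
theorem G_2903 (hP : P.ok) (hl : ¬ InB P loc) : FGood P h2903 :=
  frun_good hP hl T_2903 (fc (G_2904 hP hl) f0)
theorem G_2902 (hP : P.ok) (hl : ¬ InB P loc) : FGood P h2902 :=
  frun_good hP hl T_2902 f0
theorem G_2901 (hP : P.ok) (hl : ¬ InB P loc) : FGood P h2901 :=
  frun_good hP hl T_2901 f0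
theorem G_2900 (hP : P.ok) (hl : ¬ InB P loc) : FGood P h2900 :=
  frun_good hP hl T_2900 f0
theorem G_2899 (hP : P.ok) (hl : ¬ InB P loc) : FGood P h2899 :=
  frun_good hP hl T_2899 (fc (G_2900 hP hl) f0)
theorem G_2898 (hP : P.ok) (hl : ¬ InB P loc) : FGood P h2898 :=
  frun_good hP hl T_2898 f0
theorem G_2897 (hP : P.ok) (hl : ¬ InB P loc) : FGood P h2897 :=
  frun_good hP hl T_2897 (fc (G_2898 hP hl) (fc (G_2899 hP hl) f0))
theorem G_2896 (hP : P.ok) (hl : ¬ InB P loc) : FGood P h2896 :=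
  frun_good hP hl T_2896 (fc (G_2897 hP hl) f0)
theorem G_2895 (hP : P.ok) (hl : ¬ InB P loc) : FGood P h2895 :=
  frun_good hP hl T_2895 (fc (G_2896 hP hl) f0)
theorem G_2894 (hP : P.ok) (hl : ¬ InB P loc) : FGood P h2894 :=
  frun_good hP hl T_2894 (fc (G_2895 hP hl) f0)
theorem G_2893 (hP : P.ok) (hl : ¬ InB P loc) : FGood P h2893 :=
  frun_good hP hl T_2893 f0
theorem G_2892 (hP : P.ok) (hl : ¬ InB P loc) : FGood P h2892 :=
  frun_good hP hl T_2892 (fc (G_2893 hP hl) f0)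
theorem G_2891 (hP : P.ok) (hl : ¬ InB P loc) : FGood P h2891 :=
  frun_good hP hl T_2891 (fc (G_2892 hP hl) f0)
theorem G_2890 (hP : P.ok) (hl : ¬ InB P loc) : FGood P h2890 :=
  frun_good hP hl T_2890 f0
theorem G_2889 (hP : P.ok) (hl : ¬ InB P loc) : FGood P h2889 :=
  frun_good hP hl T_2889 f0
theorem G_2888 (hP : P.ok) (hl : ¬ InB P loc) : FGood P h2888 :=
  frun_good hP hl T_2888 f0
theorem G_2887 (hP : P.ok) (hl : ¬ InB P loc) : FGood P h2887 :=
  frun_good hP hl T_2887 (fc (G_2890 hP hl) f0)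
theorem G_2886 (hP : P.ok) (hl : ¬ InB P loc) : FGood P h2886 :=
  frun_good hP hl T_2886 (fc (G_2887 hP hl) (fc (G_2888 hP hl) (fc (G_2889 hP hl) f0)))
theorem G_2885 (hP : P.ok) (hl : ¬ InB P loc) : FGood P h2885 :=
  frun_good hP hl T_2885 f0
theorem G_2884 (hP : P.ok) (hl : ¬ InB P loc) : FGood P h2884 :=
  frun_good hP hl T_2884 f0
theorem G_2883 (hP : P.ok) (hl : ¬ InB P loc) : FGood P h2883 :=
  frun_good hP hl T_2883 f0
theorem G_2882 (hP : P.ok) (hl : ¬ InB P loc) : FGood P h2882 :=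
  frun_good hP hl T_2882 (fc (G_2885 hP hl) f0)
theorem G_2881 (hP : P.ok) (hl : ¬ InB P loc) : FGood P h2881 :=
  frun_good hP hl T_2881 (fc (G_2883 hP hl) (fc (G_2884 hP hl) f0))
theorem G_2880 (hP : P.ok) (hl : ¬ InB P loc) : FGood P h2880 :=
  frun_good hP hl T_2880 (fc (G_2882 hP hl) f0)
theorem G_2879 (hP : P.ok) (hl : ¬ InB P loc) : FGood P h2879 :=
  frun_good hP hl T_2879 (fc (G_2880 hP hl) (fc (G_2881 hP hl) f0))
theorem G_2878 (hP : P.ok) (hl : ¬ InB P loc) : FGood P h2878 :=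
  frun_good hP hl T_2878 f0
theorem G_2877 (hP : P.ok) (hl : ¬ InB P loc) : FGood P h2877 :=
  frun_good hP hl T_2877 f0
theorem G_2876 (hP : P.ok) (hl : ¬ InB P loc) : FGood P h2876 :=
  frun_good hP hl T_2876 (fc (G_2877 hP hl) f0)
theorem G_2875 (hP : P.ok) (hl : ¬ InB P loc) : FGood P h2875 :=
  frun_good hP hl T_2875 f0
theorem G_2874 (hP : P.ok) (hl : ¬ InB P loc) : FGood P h2874 :=
  frun_good hP hl T_2874 f0
theorem G_2873 (hP : P.ok) (hl : ¬ InB P loc) : FGood P h2873 :=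
  frun_good hP hl T_2873 f0
theorem G_2872 (hP : P.ok) (hl : ¬ InB P loc) : FGood P h2872 :=
  frun_good hP hl T_2872 f0
theorem G_2871 (hP : P.ok) (hl : ¬ InB P loc) : FGood P h2871 :=
  frun_good hP hl T_2871 f0
theorem G_2870 (hP : P.ok) (hl : ¬ InB P loc) : FGood P h2870 :=
  frun_good hP hl T_2870 (fc (G_2874 hP hl) f0)
theorem G_2869 (hP : P.ok) (hl : ¬ InB P loc) : FGood P h2869 :=
  frun_good hP hl T_2869 (fc (G_2870 hP hl) (fc (G_2871 hP hl) (fc (G_2872 hP hl) (fc (G_2873 hP hl) f0))))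
theorem G_2868 (hP : P.ok) (hl : ¬ InB P loc) : FGood P h2868 :=
  frun_good hP hl T_2868 f0
theorem G_2867 (hP : P.ok) (hl : ¬ InB P loc) : FGood P h2867 :=
  frun_good hP hl T_2867 f0
theorem G_2866 (hP : P.ok) (hl : ¬ InB P loc) : FGood P h2866 :=
  frun_good hP hl T_2866 (fc (G_2868 hP hl) f0)
theorem G_2865 (hP : P.ok) (hl : ¬ InB P loc) : FGood P h2865 :=
  frun_good hP hl T_2865 f0
theorem G_2864 (hP : P.ok) (hl : ¬ InB P loc) : FGood P h2864 :=
  frun_good hP hl T_2864 (fc (G_2867 hP hl) f0)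
theorem G_2863 (hP : P.ok) (hl : ¬ InB P loc) : FGood P h2863 :=
  frun_good hP hl T_2863 (fc (G_2864 hP hl) (fc (G_2865 hP hl) (fc (G_2866 hP hl) f0)))
theorem G_2862 (hP : P.ok) (hl : ¬ InB P loc) : FGood P h2862 :=
  frun_good hP hl T_2862 f0
theorem G_2861 (hP : P.ok) (hl : ¬ InB P loc) : FGood P h2861 :=
  frun_good hP hl T_2861 f0
theorem G_2860 (hP : P.ok) (hl : ¬ InB P loc) : FGood P h2860 :=
  frun_good hP hl T_2860 (fc (G_2861 hP hl) f0)
theorem G_2859 (hP : P.ok) (hl : ¬ InB P loc) : FGood P h2859 :=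
  frun_good hP hl T_2859 f0
theorem G_2858 (hP : P.ok) (hl : ¬ InB P loc) : FGood P h2858 :=
  frun_good hP hl T_2858 f0
theorem G_2857 (hP : P.ok) (hl : ¬ InB P loc) : FGood P h2857 :=
  frun_good hP hl T_2857 f0
theorem G_2856 (hP : P.ok) (hl : ¬ InB P loc) : FGood P h2856 :=
  frun_good hP hl T_2856 f0
theorem G_2855 (hP : P.ok) (hl : ¬ InB P loc) : FGood P h2855 :=
  frun_good hP hl T_2855 (fc (G_2858 hP hl) (fc (G_2859 hP hl) f0))
theorem G_2854 (hP : P.ok) (hl : ¬ InB P loc) : FGood P h2854 :=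
  frun_good hP hl T_2854 (fc (G_2857 hP hl) f0)
theorem G_2853 (hP : P.ok) (hl : ¬ InB P loc) : FGood P h2853 :=
  frun_good hP hl T_2853 (fc (G_2856 hP hl) f0)
theorem G_2852 (hP : P.ok) (hl : ¬ InB P loc) : FGood P h2852 :=
  frun_good hP hl T_2852 (fc (G_2853 hP hl) (fc (G_2854 hP hl) (fc (G_2855 hP hl) f0)))
theorem G_2851 (hP : P.ok) (hl : ¬ InB P loc) : FGood P h2851 :=
  frun_good hP hl T_2851 f0
theorem G_2850 (hP : P.ok) (hl : ¬ InB P loc) : FGood P h2850 :=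
  frun_good hP hl T_2850 f0
theorem G_2849 (hP : P.ok) (hl : ¬ InB P loc) : FGood P h2849 :=
  frun_good hP hl T_2849 (fc (G_2851 hP hl) f0)
theorem G_2848 (hP : P.ok) (hl : ¬ InB P loc) : FGood P h2848 :=
  frun_good hP hl T_2848 (fc (G_2850 hP hl) f0)
theorem G_2847 (hP : P.ok) (hl : ¬ InB P loc) : FGood P h2847 :=
  frun_good hP hl T_2847 (fc (G_2848 hP hl) (fc (G_2849 hP hl) f0))
theorem G_2846 (hP : P.ok) (hl : ¬ InB P loc) : FGood P h2846 :=
  frun_good hP hl T_2846 f0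
theorem G_2845 (hP : P.ok) (hl : ¬ InB P loc) : FGood P h2845 :=
  frun_good hP hl T_2845 f0
theorem G_2844 (hP : P.ok) (hl : ¬ InB P loc) : FGood P h2844 :=
  frun_good hP hl T_2844 f0
theorem G_2843 (hP : P.ok) (hl : ¬ InB P loc) : FGood P h2843 :=
  frun_good hP hl T_2843 f0
theorem G_2842 (hP : P.ok) (hl : ¬ InB P loc) : FGood P h2842 :=
  frun_good hP hl T_2842 f0
theorem G_2841 (hP : P.ok) (hl : ¬ InB P loc) : FGood P h2841 :=
  frun_good hP hl T_2841 f0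
theorem G_2840 (hP : P.ok) (hl : ¬ InB P loc) : FGood P h2840 :=
  frun_good hP hl T_2840 f0
theorem G_2839 (hP : P.ok) (hl : ¬ InB P loc) : FGood P h2839 :=
  frun_good hP hl T_2839 f0
theorem G_2838 (hP : P.ok) (hl : ¬ InB P loc) : FGood P h2838 :=
  frun_good hP hl T_2838 (fc (G_2840 hP hl) (fc (G_2841 hP hl) f0))
theorem G_2837 (hP : P.ok) (hl : ¬ InB P loc) : FGood P h2837 :=
  frun_good hP hl T_2837 (fc (G_2838 hP hl) (fc (G_2839 hP hl) f0))
theorem G_2836 (hP : P.ok) (hl : ¬ InB P loc) : FGood P h2836 :=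
  frun_good hP hl T_2836 f0
theorem G_2835 (hP : P.ok) (hl : ¬ InB P loc) : FGood P h2835 :=
  frun_good hP hl T_2835 (fc (G_2836 hP hl) f0)
theorem G_2834 (hP : P.ok) (hl : ¬ InB P loc) : FGood P h2834 :=
  frun_good hP hl T_2834 f0
theorem G_2833 (hP : P.ok) (hl : ¬ InB P loc) : FGood P h2833 :=
  frun_good hP hl T_2833 f0
theorem G_2832 (hP : P.ok) (hl : ¬ InB P loc) : FGood P h2832 :=
  frun_good hP hl T_2832 f0
theorem G_2831 (hP : P.ok) (hl : ¬ InB P loc) : FGood P h2831 :=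
  frun_good hP hl T_2831 f0
theorem G_2830 (hP : P.ok) (hl : ¬ InB P loc) : FGood P h2830 :=
  frun_good hP hl T_2830 (fc (G_2835 hP hl) f0)
theorem G_2829 (hP : P.ok) (hl : ¬ InB P loc) : FGood P h2829 :=
  frun_good hP hl T_2829 (fc (G_2830 hP hl) (fc (G_2831 hP hl) (fc (G_2832 hP hl) (fc (G_2833 hP hl) (fc (G_2834 hP hl) f0)))))
theorem G_2828 (hP : P.ok) (hl : ¬ InB P loc) : FGood P h2828 :=
  frun_good hP hl T_2828 f0
theorem G_2827 (hP : P.ok) (hl : ¬ InB P loc) : FGood P h2827 :=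
  frun_good hP hl T_2827 f0
theorem G_2826 (hP : P.ok) (hl : ¬ InB P loc) : FGood P h2826 :=
  frun_good hP hl T_2826 (fc (G_2827 hP hl) f0)
theorem G_2825 (hP : P.ok) (hl : ¬ InB P loc) : FGood P h2825 :=
  frun_good hP hl T_2825 f0
theorem G_2824 (hP : P.ok) (hl : ¬ InB P loc) : FGood P h2824 :=
  frun_good hP hl T_2824 f0
theorem G_2823 (hP : P.ok) (hl : ¬ InB P loc) : FGood P h2823 :=
  frun_good hP hl T_2823 f0
theorem G_2822 (hP : P.ok) (hl : ¬ InB P loc) : FGood P h2822 :=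
  frun_good hP hl T_2822 (fc (G_2823 hP hl) (fc (G_2824 hP hl) (fc (G_2825 hP hl) f0)))
theorem G_2821 (hP : P.ok) (hl : ¬ InB P loc) : FGood P h2821 :=
  frun_good hP hl T_2821 f0
theorem G_2820 (hP : P.ok) (hl : ¬ InB P loc) : FGood P h2820 :=
  frun_good hP hl T_2820 f0
theorem G_2819 (hP : P.ok) (hl : ¬ InB P loc) : FGood P h2819 :=
  frun_good hP hl T_2819 (fc (G_2820 hP hl) f0)
theorem G_2818 (hP : P.ok) (hl : ¬ InB P loc) : FGood P h2818 :=
  frun_good hP hl T_2818 f0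
theorem G_2817 (hP : P.ok) (hl : ¬ InB P loc) : FGood P h2817 :=
  frun_good hP hl T_2817 f0
theorem G_2816 (hP : P.ok) (hl : ¬ InB P loc) : FGood P h2816 :=
  frun_good hP hl T_2816 f0
theorem G_2815 (hP : P.ok) (hl : ¬ InB P loc) : FGood P h2815 :=
  frun_good hP hl T_2815 (fc (G_2818 hP hl) (fc (G_2819 hP hl) f0))
theorem G_2814 (hP : P.ok) (hl : ¬ InB P loc) : FGood P h2814 :=
  frun_good hP hl T_2814 (fc (G_2815 hP hl) (fc (G_2816 hP hl) (fc (G_2817 hP hl) f0)))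
theorem G_2813 (hP : P.ok) (hl : ¬ InB P loc) : FGood P h2813 :=
  frun_good hP hl T_2813 f0
theorem G_2812 (hP : P.ok) (hl : ¬ InB P loc) : FGood P h2812 :=
  frun_good hP hl T_2812 f0
theorem G_2811 (hP : P.ok) (hl : ¬ InB P loc) : FGood P h2811 :=
  frun_good hP hl T_2811 f0
theorem G_2810 (hP : P.ok) (hl : ¬ InB P loc) : FGood P h2810 :=
  frun_good hP hl T_2810 (fc (G_2812 hP hl) f0)
theorem G_2809 (hP : P.ok) (hl : ¬ InB P loc) : FGood P h2809 :=
  frun_good hP hl T_2809 (fc (G_2810 hP hl) (fc (G_2811 hP hl) f0))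
theorem G_2808 (hP : P.ok) (hl : ¬ InB P loc) : FGood P h2808 :=
  frun_good hP hl T_2808 (fc (G_2809 hP hl) f0)
theorem G_2807 (hP : P.ok) (hl : ¬ InB P loc) : FGood P h2807 :=
  frun_good hP hl T_2807 f0
theorem G_2806 (hP : P.ok) (hl : ¬ InB P loc) : FGood P h2806 :=
  frun_good hP hl T_2806 f0
theorem G_2805 (hP : P.ok) (hl : ¬ InB P loc) : FGood P h2805 :=
  frun_good hP hl T_2805 (fc (G_2806 hP hl) (fc (G_2807 hP hl) f0))
theorem G_2804 (hP : P.ok) (hl : ¬ InB P loc) : FGood P h2804 :=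
  frun_good hP hl T_2804 (fc (G_2805 hP hl) f0)
theorem G_2803 (hP : P.ok) (hl : ¬ InB P loc) : FGood P h2803 :=
  frun_good hP hl T_2803 f0
theorem G_2802 (hP : P.ok) (hl : ¬ InB P loc) : FGood P h2802 :=
  frun_good hP hl T_2802 f0
theorem G_2801 (hP : P.ok) (hl : ¬ InB P loc) : FGood P h2801 :=
  frun_good hP hl T_2801 (fc (G_2802 hP hl) f0)
theorem G_2800 (hP : P.ok) (hl : ¬ InB P loc) : FGood P h2800 :=
  frun_good hP hl T_2800 f0
theorem G_2799 (hP : P.ok) (hl : ¬ InB P loc) : FGood P h2799 :=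
  frun_good hP hl T_2799 (fc (G_2800 hP hl) (fc (G_2801 hP hl) f0))
theorem G_2798 (hP : P.ok) (hl : ¬ InB P loc) : FGood P h2798 :=
  frun_good hP hl T_2798 f0
theorem G_2797 (hP : P.ok) (hl : ¬ InB P loc) : FGood P h2797 :=
  frun_good hP hl T_2797 f0
theorem G_2796 (hP : P.ok) (hl : ¬ InB P loc) : FGood P h2796 :=
  frun_good hP hl T_2796 f0
theorem G_2795 (hP : P.ok) (hl : ¬ InB P loc) : FGood P h2795 :=
  frun_good hP hl T_2795 f0
theorem G_2794 (hP : P.ok) (hl : ¬ InB P loc) : FGood P h2794 :=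
  frun_good hP hl T_2794 (fc (G_2795 hP hl) (fc (G_2796 hP hl) f0))
theorem G_2793 (hP : P.ok) (hl : ¬ InB P loc) : FGood P h2793 :=
  frun_good hP hl T_2793 f0
theorem G_2792 (hP : P.ok) (hl : ¬ InB P loc) : FGood P h2792 :=
  frun_good hP hl T_2792 (fc (G_2793 hP hl) f0)
theorem G_2791 (hP : P.ok) (hl : ¬ InB P loc) : FGood P h2791 :=
  frun_good hP hl T_2791 f0
theorem G_2790 (hP : P.ok) (hl : ¬ InB P loc) : FGood P h2790 :=
  frun_good hP hl T_2790 f0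
theorem G_2789 (hP : P.ok) (hl : ¬ InB P loc) : FGood P h2789 :=
  frun_good hP hl T_2789 (fc (G_2792 hP hl) f0)
theorem G_2788 (hP : P.ok) (hl : ¬ InB P loc) : FGood P h2788 :=
  frun_good hP hl T_2788 (fc (G_2790 hP hl) (fc (G_2791 hP hl) f0))
theorem G_2787 (hP : P.ok) (hl : ¬ InB P loc) : FGood P h2787 :=
  frun_good hP hl T_2787 (fc (G_2788 hP hl) (fc (G_2789 hP hl) f0))
theorem G_2786 (hP : P.ok) (hl : ¬ InB P loc) : FGood P h2786 :=
  frun_good hP hl T_2786 f0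
theorem G_2785 (hP : P.ok) (hl : ¬ InB P loc) : FGood P h2785 :=
  frun_good hP hl T_2785 (fc (G_2786 hP hl) f0)
theorem G_2784 (hP : P.ok) (hl : ¬ InB P loc) : FGood P h2784 :=
  frun_good hP hl T_2784 (fc (G_2785 hP hl) f0)
theorem G_2783 (hP : P.ok) (hl : ¬ InB P loc) : FGood P h2783 :=
  frun_good hP hl T_2783 (fc (G_2784 hP hl) f0)
theorem G_2782 (hP : P.ok) (hl : ¬ InB P loc) : FGood P h2782 :=
  frun_good hP hl T_2782 (fc (G_2783 hP hl) f0)
theorem G_2781 (hP : P.ok) (hl : ¬ InB P loc) : FGood P h2781 :=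
  frun_good hP hl T_2781 (fc (G_2782 hP hl) f0)
theorem G_2780 (hP : P.ok) (hl : ¬ InB P loc) : FGood P h2780 :=
  frun_good hP hl T_2780 (fc (G_2781 hP hl) f0)
theorem G_2779 (hP : P.ok) (hl : ¬ InB P loc) : FGood P h2779 :=
  frun_good hP hl T_2779 (fc (G_2780 hP hl) f0)
theorem G_2778 (hP : P.ok) (hl : ¬ InB P loc) : FGood P h2778 :=
  frun_good hP hl T_2778 f0
theorem G_2777 (hP : P.ok) (hl : ¬ InB P loc) : FGood P h2777 :=
  frun_good hP hl T_2777 (fc (G_2778 hP hl) f0)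
theorem G_2776 (hP : P.ok) (hl : ¬ InB P loc) : FGood P h2776 :=
  frun_good hP hl T_2776 f0
theorem G_2775 (hP : P.ok) (hl : ¬ InB P loc) : FGood P h2775 :=
  frun_good hP hl T_2775 f0
theorem G_2774 (hP : P.ok) (hl : ¬ InB P loc) : FGood P h2774 :=
  frun_good hP hl T_2774 f0
theorem G_2773 (hP : P.ok) (hl : ¬ InB P loc) : FGood P h2773 :=
  frun_good hP hl T_2773 (fc (G_2775 hP hl) (fc (G_2776 hP hl) f0))
theorem G_2772 (hP : P.ok) (hl : ¬ InB P loc) : FGood P h2772 :=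
  frun_good hP hl T_2772 f0
theorem G_2771 (hP : P.ok) (hl : ¬ InB P loc) : FGood P h2771 :=
  frun_good hP hl T_2771 (fc (G_2774 hP hl) f0)
theorem G_2770 (hP : P.ok) (hl : ¬ InB P loc) : FGood P h2770 :=
  frun_good hP hl T_2770 f0
theorem G_2769 (hP : P.ok) (hl : ¬ InB P loc) : FGood P h2769 :=
  frun_good hP hl T_2769 (fc (G_2772 hP hl) (fc (G_2773 hP hl) f0))
theorem G_2768 (hP : P.ok) (hl : ¬ InB P loc) : FGood P h2768 :=
  frun_good hP hl T_2768 (fc (G_2769 hP hl) (fc (G_2770 hP hl) (fc (G_2771 hP hl) f0)))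
theorem G_2767 (hP : P.ok) (hl : ¬ InB P loc) : FGood P h2767 :=
  frun_good hP hl T_2767 f0
theorem G_2766 (hP : P.ok) (hl : ¬ InB P loc) : FGood P h2766 :=
  frun_good hP hl T_2766 (fc (G_2767 hP hl) f0)
theorem G_2765 (hP : P.ok) (hl : ¬ InB P loc) : FGood P h2765 :=
  frun_good hP hl T_2765 f0
theorem G_2764 (hP : P.ok) (hl : ¬ InB P loc) : FGood P h2764 :=
  frun_good hP hl T_2764 (fc (G_2765 hP hl) (fc (G_2766 hP hl) f0))
theorem G_2763 (hP : P.ok) (hl : ¬ InB P loc) : FGood P h2763 :=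
  frun_good hP hl T_2763 f0
theorem G_2762 (hP : P.ok) (hl : ¬ InB P loc) : FGood P h2762 :=
  frun_good hP hl T_2762 f0
theorem G_2761 (hP : P.ok) (hl : ¬ InB P loc) : FGood P h2761 :=
  frun_good hP hl T_2761 (fc (G_2762 hP hl) f0)
theorem G_2760 (hP : P.ok) (hl : ¬ InB P loc) : FGood P h2760 :=
  frun_good hP hl T_2760 (fc (G_2761 hP hl) f0)
theorem G_2759 (hP : P.ok) (hl : ¬ InB P loc) : FGood P h2759 :=
  frun_good hP hl T_2759 f0
theorem G_2758 (hP : P.ok) (hl : ¬ InB P loc) : FGood P h2758 :=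
  frun_good hP hl T_2758 (fc (G_2760 hP hl) f0)
theorem G_2757 (hP : P.ok) (hl : ¬ InB P loc) : FGood P h2757 :=
  frun_good hP hl T_2757 (fc (G_2759 hP hl) f0)
theorem G_2756 (hP : P.ok) (hl : ¬ InB P loc) : FGood P h2756 :=
  frun_good hP hl T_2756 (fc (G_2757 hP hl) (fc (G_2758 hP hl) f0))
theorem G_2755 (hP : P.ok) (hl : ¬ InB P loc) : FGood P h2755 :=
  frun_good hP hl T_2755 f0
theorem G_2754 (hP : P.ok) (hl : ¬ InB P loc) : FGood P h2754 :=
  frun_good hP hl T_2754 (fc (G_2755 hP hl) f0)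
theorem G_2753 (hP : P.ok) (hl : ¬ InB P loc) : FGood P h2753 :=
  frun_good hP hl T_2753 f0
theorem G_2752 (hP : P.ok) (hl : ¬ InB P loc) : FGood P h2752 :=
  frun_good hP hl T_2752 f0
theorem G_2751 (hP : P.ok) (hl : ¬ InB P loc) : FGood P h2751 :=
  frun_good hP hl T_2751 (fc (G_2752 hP hl) f0)
theorem G_2750 (hP : P.ok) (hl : ¬ InB P loc) : FGood P h2750 :=
  frun_good hP hl T_2750 f0
theorem G_2749 (hP : P.ok) (hl : ¬ InB P loc) : FGood P h2749 :=
  frun_good hP hl T_2749 f0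
theorem G_2748 (hP : P.ok) (hl : ¬ InB P loc) : FGood P h2748 :=
  frun_good hP hl T_2748 (fc (G_2749 hP hl) (fc (G_2750 hP hl) (fc (G_2751 hP hl) f0)))
theorem G_2747 (hP : P.ok) (hl : ¬ InB P loc) : FGood P h2747 :=
  frun_good hP hl T_2747 f0
theorem G_2746 (hP : P.ok) (hl : ¬ InB P loc) : FGood P h2746 :=
  frun_good hP hl T_2746 (fc (G_2747 hP hl) (fc (G_2748 hP hl) f0))
theorem G_2745 (hP : P.ok) (hl : ¬ InB P loc) : FGood P h2745 :=
  frun_good hP hl T_2745 (fc (G_2746 hP hl) f0)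
theorem G_2744 (hP : P.ok) (hl : ¬ InB P loc) : FGood P h2744 :=
  frun_good hP hl T_2744 f0
theorem G_2743 (hP : P.ok) (hl : ¬ InB P loc) : FGood P h2743 :=
  frun_good hP hl T_2743 f0
theorem G_2742 (hP : P.ok) (hl : ¬ InB P loc) : FGood P h2742 :=
  frun_good hP hl T_2742 f0
theorem G_2741 (hP : P.ok) (hl : ¬ InB P loc) : FGood P h2741 :=
  frun_good hP hl T_2741 f0
theorem G_2740 (hP : P.ok) (hl : ¬ InB P loc) : FGood P h2740 :=
  frun_good hP hl T_2740 f0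
theorem G_2739 (hP : P.ok) (hl : ¬ InB P loc) : FGood P h2739 :=
  frun_good hP hl T_2739 f0
theorem G_2738 (hP : P.ok) (hl : ¬ InB P loc) : FGood P h2738 :=
  frun_good hP hl T_2738 (fc (G_2739 hP hl) (fc (G_2740 hP hl) (fc (G_2741 hP hl) f0)))
theorem G_2737 (hP : P.ok) (hl : ¬ InB P loc) : FGood P h2737 :=
  frun_good hP hl T_2737 f0
theorem G_2736 (hP : P.ok) (hl : ¬ InB P loc) : FGood P h2736 :=
  frun_good hP hl T_2736 f0
theorem G_2735 (hP : P.ok) (hl : ¬ InB P loc) : FGood P h2735 :=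
  frun_good hP hl T_2735 f0
theorem G_2734 (hP : P.ok) (hl : ¬ InB P loc) : FGood P h2734 :=
  frun_good hP hl T_2734 f0
theorem G_2733 (hP : P.ok) (hl : ¬ InB P loc) : FGood P h2733 :=
  frun_good hP hl T_2733 (fc (G_2735 hP hl) f0)
theorem G_2732 (hP : P.ok) (hl : ¬ InB P loc) : FGood P h2732 :=
  frun_good hP hl T_2732 (fc (G_2733 hP hl) (fc (G_2734 hP hl) f0))
theorem G_2731 (hP : P.ok) (hl : ¬ InB P loc) : FGood P h2731 :=
  frun_good hP hl T_2731 f0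
theorem G_2730 (hP : P.ok) (hl : ¬ InB P loc) : FGood P h2730 :=
  frun_good hP hl T_2730 f0
theorem G_2729 (hP : P.ok) (hl : ¬ InB P loc) : FGood P h2729 :=
  frun_good hP hl T_2729 (fc (G_2730 hP hl) f0)
theorem G_2728 (hP : P.ok) (hl : ¬ InB P loc) : FGood P h2728 :=
  frun_good hP hl T_2728 f0
theorem G_2727 (hP : P.ok) (hl : ¬ InB P loc) : FGood P h2727 :=
  frun_good hP hl T_2727 f0
theorem G_2726 (hP : P.ok) (hl : ¬ InB P loc) : FGood P h2726 :=
  frun_good hP hl T_2726 f0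
theorem G_2725 (hP : P.ok) (hl : ¬ InB P loc) : FGood P h2725 :=
  frun_good hP hl T_2725 (fc (G_2727 hP hl) (fc (G_2728 hP hl) f0))
theorem G_2724 (hP : P.ok) (hl : ¬ InB P loc) : FGood P h2724 :=
  frun_good hP hl T_2724 (fc (G_2726 hP hl) f0)
theorem G_2723 (hP : P.ok) (hl : ¬ InB P loc) : FGood P h2723 :=
  frun_good hP hl T_2723 (fc (G_2724 hP hl) (fc (G_2725 hP hl) f0))
theorem G_2722 (hP : P.ok) (hl : ¬ InB P loc) : FGood P h2722 :=
  frun_good hP hl T_2722 f0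
theorem G_2721 (hP : P.ok) (hl : ¬ InB P loc) : FGood P h2721 :=
  frun_good hP hl T_2721 f0
theorem G_2720 (hP : P.ok) (hl : ¬ InB P loc) : FGood P h2720 :=
  frun_good hP hl T_2720 f0
theorem G_2719 (hP : P.ok) (hl : ¬ InB P loc) : FGood P h2719 :=
  frun_good hP hl T_2719 f0
theorem G_2718 (hP : P.ok) (hl : ¬ InB P loc) : FGood P h2718 :=
  frun_good hP hl T_2718 (fc (G_2719 hP hl) f0)
theorem G_2717 (hP : P.ok) (hl : ¬ InB P loc) : FGood P h2717 :=
  frun_good hP hl T_2717 (fc (G_2718 hP hl) f0)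
theorem G_2716 (hP : P.ok) (hl : ¬ InB P loc) : FGood P h2716 :=
  frun_good hP hl T_2716 f0
theorem G_2715 (hP : P.ok) (hl : ¬ InB P loc) : FGood P h2715 :=
  frun_good hP hl T_2715 (fc (G_2717 hP hl) f0)
theorem G_2714 (hP : P.ok) (hl : ¬ InB P loc) : FGood P h2714 :=
  frun_good hP hl T_2714 f0
theorem G_2713 (hP : P.ok) (hl : ¬ InB P loc) : FGood P h2713 :=
  frun_good hP hl T_2713 (fc (G_2716 hP hl) f0)
theorem G_2712 (hP : P.ok) (hl : ¬ InB P loc) : FGood P h2712 :=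
  frun_good hP hl T_2712 (fc (G_2713 hP hl) (fc (G_2714 hP hl) (fc (G_2715 hP hl) f0)))
theorem G_2711 (hP : P.ok) (hl : ¬ InB P loc) : FGood P h2711 :=
  frun_good hP hl T_2711 f0
theorem G_2710 (hP : P.ok) (hl : ¬ InB P loc) : FGood P h2710 :=
  frun_good hP hl T_2710 (fc (G_2711 hP hl) f0)
theorem G_2709 (hP : P.ok) (hl : ¬ InB P loc) : FGood P h2709 :=
  frun_good hP hl T_2709 f0
theorem G_2708 (hP : P.ok) (hl : ¬ InB P loc) : FGood P h2708 :=
  frun_good hP hl T_2708 f0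
theorem G_2707 (hP : P.ok) (hl : ¬ InB P loc) : FGood P h2707 :=
  frun_good hP hl T_2707 (fc (G_2710 hP hl) f0)
theorem G_2706 (hP : P.ok) (hl : ¬ InB P loc) : FGood P h2706 :=
  frun_good hP hl T_2706 (fc (G_2708 hP hl) (fc (G_2709 hP hl) f0))
theorem G_2705 (hP : P.ok) (hl : ¬ InB P loc) : FGood P h2705 :=
  frun_good hP hl T_2705 (fc (G_2706 hP hl) (fc (G_2707 hP hl) f0))
theorem G_2704 (hP : P.ok) (hl : ¬ InB P loc) : FGood P h2704 :=
  frun_good hP hl T_2704 (fc (G_2705 hP hl) f0)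
theorem G_2703 (hP : P.ok) (hl : ¬ InB P loc) : FGood P h2703 :=
  frun_good hP hl T_2703 f0
theorem G_2702 (hP : P.ok) (hl : ¬ InB P loc) : FGood P h2702 :=
  frun_good hP hl T_2702 f0
theorem G_2701 (hP : P.ok) (hl : ¬ InB P loc) : FGood P h2701 :=
  frun_good hP hl T_2701 f0
theorem G_2700 (hP : P.ok) (hl : ¬ InB P loc) : FGood P h2700 :=
  frun_good hP hl T_2700 (fc (G_2702 hP hl) f0)
theorem G_2699 (hP : P.ok) (hl : ¬ InB P loc) : FGood P h2699 :=
  frun_good hP hl T_2699 f0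
theorem G_2698 (hP : P.ok) (hl : ¬ InB P loc) : FGood P h2698 :=
  frun_good hP hl T_2698 (fc (G_2699 hP hl) (fc (G_2700 hP hl) (fc (G_2701 hP hl) f0)))
theorem G_2697 (hP : P.ok) (hl : ¬ InB P loc) : FGood P h2697 :=
  frun_good hP hl T_2697 f0
theorem G_2696 (hP : P.ok) (hl : ¬ InB P loc) : FGood P h2696 :=
  frun_good hP hl T_2696 (fc (G_2697 hP hl) f0)
theorem G_2695 (hP : P.ok) (hl : ¬ InB P loc) : FGood P h2695 :=
  frun_good hP hl T_2695 f0
theorem G_2694 (hP : P.ok) (hl : ¬ InB P loc) : FGood P h2694 :=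
  frun_good hP hl T_2694 (fc (G_2695 hP hl) (fc (G_2696 hP hl) f0))
theorem G_2693 (hP : P.ok) (hl : ¬ InB P loc) : FGood P h2693 :=
  frun_good hP hl T_2693 (fc (G_2694 hP hl) f0)
theorem G_2692 (hP : P.ok) (hl : ¬ InB P loc) : FGood P h2692 :=
  frun_good hP hl T_2692 f0
theorem G_2691 (hP : P.ok) (hl : ¬ InB P loc) : FGood P h2691 :=
  frun_good hP hl T_2691 f0
theorem G_2690 (hP : P.ok) (hl : ¬ InB P loc) : FGood P h2690 :=
  frun_good hP hl T_2690 f0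
theorem G_2689 (hP : P.ok) (hl : ¬ InB P loc) : FGood P h2689 :=
  frun_good hP hl T_2689 (fc (G_2690 hP hl) (fc (G_2691 hP hl) f0))
theorem G_2688 (hP : P.ok) (hl : ¬ InB P loc) : FGood P h2688 :=
  frun_good hP hl T_2688 f0
theorem G_2687 (hP : P.ok) (hl : ¬ InB P loc) : FGood P h2687 :=
  frun_good hP hl T_2687 f0
theorem G_2686 (hP : P.ok) (hl : ¬ InB P loc) : FGood P h2686 :=
  frun_good hP hl T_2686 (fc (G_2688 hP hl) f0)
theorem G_2685 (hP : P.ok) (hl : ¬ InB P loc) : FGood P h2685 :=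
  frun_good hP hl T_2685 (fc (G_2687 hP hl) f0)
theorem G_2684 (hP : P.ok) (hl : ¬ InB P loc) : FGood P h2684 :=
  frun_good hP hl T_2684 (fc (G_2685 hP hl) (fc (G_2686 hP hl) f0))
theorem G_2683 (hP : P.ok) (hl : ¬ InB P loc) : FGood P h2683 :=
  frun_good hP hl T_2683 f0
theorem G_2682 (hP : P.ok) (hl : ¬ InB P loc) : FGood P h2682 :=
  frun_good hP hl T_2682 f0
theorem G_2681 (hP : P.ok) (hl : ¬ InB P loc) : FGood P h2681 :=
  frun_good hP hl T_2681 f0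
theorem G_2680 (hP : P.ok) (hl : ¬ InB P loc) : FGood P h2680 :=
  frun_good hP hl T_2680 (fc (G_2681 hP hl) (fc (G_2682 hP hl) (fc (G_2683 hP hl) (fc (G_2684 hP hl) f0))))
theorem G_2679 (hP : P.ok) (hl : ¬ InB P loc) : FGood P h2679 :=
  frun_good hP hl T_2679 f0
theorem G_2678 (hP : P.ok) (hl : ¬ InB P loc) : FGood P h2678 :=
  frun_good hP hl T_2678 f0
theorem G_2677 (hP : P.ok) (hl : ¬ InB P loc) : FGood P h2677 :=
  frun_good hP hl T_2677 (fc (G_2678 hP hl) (fc (G_2679 hP hl) f0))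
theorem G_2676 (hP : P.ok) (hl : ¬ InB P loc) : FGood P h2676 :=
  frun_good hP hl T_2676 f0
theorem G_2675 (hP : P.ok) (hl : ¬ InB P loc) : FGood P h2675 :=
  frun_good hP hl T_2675 (fc (G_2676 hP hl) f0)
theorem G_2674 (hP : P.ok) (hl : ¬ InB P loc) : FGood P h2674 :=
  frun_good hP hl T_2674 (fc (G_2675 hP hl) f0)
theorem G_2673 (hP : P.ok) (hl : ¬ InB P loc) : FGood P h2673 :=
  frun_good hP hl T_2673 f0
theorem G_2672 (hP : P.ok) (hl : ¬ InB P loc) : FGood P h2672 :=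
  frun_good hP hl T_2672 f0
theorem G_2671 (hP : P.ok) (hl : ¬ InB P loc) : FGood P h2671 :=
  frun_good hP hl T_2671 f0
theorem G_2670 (hP : P.ok) (hl : ¬ InB P loc) : FGood P h2670 :=
  frun_good hP hl T_2670 f0
theorem G_2669 (hP : P.ok) (hl : ¬ InB P loc) : FGood P h2669 :=
  frun_good hP hl T_2669 f0
theorem G_2668 (hP : P.ok) (hl : ¬ InB P loc) : FGood P h2668 :=
  frun_good hP hl T_2668 (fc (G_2670 hP hl) f0)
theorem G_2667 (hP : P.ok) (hl : ¬ InB P loc) : FGood P h2667 :=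
  frun_good hP hl T_2667 f0
theorem G_2666 (hP : P.ok) (hl : ¬ InB P loc) : FGood P h2666 :=
  frun_good hP hl T_2666 f0
theorem G_2665 (hP : P.ok) (hl : ¬ InB P loc) : FGood P h2665 :=
  frun_good hP hl T_2665 (fc (G_2669 hP hl) f0)
theorem G_2664 (hP : P.ok) (hl : ¬ InB P loc) : FGood P h2664 :=
  frun_good hP hl T_2664 (fc (G_2665 hP hl) (fc (G_2666 hP hl) (fc (G_2667 hP hl) (fc (G_2668 hP hl) f0))))
theorem G_2663 (hP : P.ok) (hl : ¬ InB P loc) : FGood P h2663 :=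
  frun_good hP hl T_2663 (fc (G_2664 hP hl) f0)
theorem G_2662 (hP : P.ok) (hl : ¬ InB P loc) : FGood P h2662 :=
  frun_good hP hl T_2662 f0
theorem G_2661 (hP : P.ok) (hl : ¬ InB P loc) : FGood P h2661 :=
  frun_good hP hl T_2661 f0
theorem G_2660 (hP : P.ok) (hl : ¬ InB P loc) : FGood P h2660 :=
  frun_good hP hl T_2660 f0
theorem G_2659 (hP : P.ok) (hl : ¬ InB P loc) : FGood P h2659 :=
  frun_good hP hl T_2659 f0
theorem G_2658 (hP : P.ok) (hl : ¬ InB P loc) : FGood P h2658 :=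
  frun_good hP hl T_2658 f0
theorem G_2657 (hP : P.ok) (hl : ¬ InB P loc) : FGood P h2657 :=
  frun_good hP hl T_2657 (fc (G_2659 hP hl) f0)
theorem G_2656 (hP : P.ok) (hl : ¬ InB P loc) : FGood P h2656 :=
  frun_good hP hl T_2656 (fc (G_2657 hP hl) (fc (G_2658 hP hl) f0))
theorem G_2655 (hP : P.ok) (hl : ¬ InB P loc) : FGood P h2655 :=
  frun_good hP hl T_2655 (fc (G_2656 hP hl) f0)
theorem G_2654 (hP : P.ok) (hl : ¬ InB P loc) : FGood P h2654 :=
  frun_good hP hl T_2654 (fc (G_2655 hP hl) f0)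
theorem G_2653 (hP : P.ok) (hl : ¬ InB P loc) : FGood P h2653 :=
  frun_good hP hl T_2653 f0
theorem G_2652 (hP : P.ok) (hl : ¬ InB P loc) : FGood P h2652 :=
  frun_good hP hl T_2652 f0
theorem G_2651 (hP : P.ok) (hl : ¬ InB P loc) : FGood P h2651 :=
  frun_good hP hl T_2651 f0
theorem G_2650 (hP : P.ok) (hl : ¬ InB P loc) : FGood P h2650 :=
  frun_good hP hl T_2650 (fc (G_2653 hP hl) f0)
theorem G_2649 (hP : P.ok) (hl : ¬ InB P loc) : FGood P h2649 :=
  frun_good hP hl T_2649 (fc (G_2652 hP hl) f0)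
theorem G_2648 (hP : P.ok) (hl : ¬ InB P loc) : FGood P h2648 :=
  frun_good hP hl T_2648 (fc (G_2650 hP hl) (fc (G_2651 hP hl) f0))
theorem G_2647 (hP : P.ok) (hl : ¬ InB P loc) : FGood P h2647 :=
  frun_good hP hl T_2647 (fc (G_2648 hP hl) (fc (G_2649 hP hl) f0))
theorem G_2646 (hP : P.ok) (hl : ¬ InB P loc) : FGood P h2646 :=
  frun_good hP hl T_2646 (fc (G_2647 hP hl) f0)
theorem G_2645 (hP : P.ok) (hl : ¬ InB P loc) : FGood P h2645 :=
  frun_good hP hl T_2645 f0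
theorem G_2644 (hP : P.ok) (hl : ¬ InB P loc) : FGood P h2644 :=
  frun_good hP hl T_2644 f0
theorem G_2643 (hP : P.ok) (hl : ¬ InB P loc) : FGood P h2643 :=
  frun_good hP hl T_2643 f0
theorem G_2642 (hP : P.ok) (hl : ¬ InB P loc) : FGood P h2642 :=
  frun_good hP hl T_2642 (fc (G_2643 hP hl) f0)
theorem G_2641 (hP : P.ok) (hl : ¬ InB P loc) : FGood P h2641 :=
  frun_good hP hl T_2641 f0
theorem G_2640 (hP : P.ok) (hl : ¬ InB P loc) : FGood P h2640 :=
  frun_good hP hl T_2640 (fc (G_2641 hP hl) f0)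
theorem G_2639 (hP : P.ok) (hl : ¬ InB P loc) : FGood P h2639 :=
  frun_good hP hl T_2639 (fc (G_2640 hP hl) f0)
theorem G_2638 (hP : P.ok) (hl : ¬ InB P loc) : FGood P h2638 :=
  frun_good hP hl T_2638 f0
theorem G_2637 (hP : P.ok) (hl : ¬ InB P loc) : FGood P h2637 :=
  frun_good hP hl T_2637 f0
theorem G_2636 (hP : P.ok) (hl : ¬ InB P loc) : FGood P h2636 :=
  frun_good hP hl T_2636 (fc (G_2637 hP hl) f0)
theorem G_2635 (hP : P.ok) (hl : ¬ InB P loc) : FGood P h2635 :=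
  frun_good hP hl T_2635 (fc (G_2636 hP hl) f0)
theorem G_2634 (hP : P.ok) (hl : ¬ InB P loc) : FGood P h2634 :=
  frun_good hP hl T_2634 f0
theorem G_2633 (hP : P.ok) (hl : ¬ InB P loc) : FGood P h2633 :=
  frun_good hP hl T_2633 f0
theorem G_2632 (hP : P.ok) (hl : ¬ InB P loc) : FGood P h2632 :=
  frun_good hP hl T_2632 f0
theorem G_2631 (hP : P.ok) (hl : ¬ InB P loc) : FGood P h2631 :=
  frun_good hP hl T_2631 f0
theorem G_2630 (hP : P.ok) (hl : ¬ InB P loc) : FGood P h2630 :=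
  frun_good hP hl T_2630 f0
theorem G_2629 (hP : P.ok) (hl : ¬ InB P loc) : FGood P h2629 :=
  frun_good hP hl T_2629 f0
theorem G_2628 (hP : P.ok) (hl : ¬ InB P loc) : FGood P h2628 :=
  frun_good hP hl T_2628 (fc (G_2631 hP hl) f0)
theorem G_2627 (hP : P.ok) (hl : ¬ InB P loc) : FGood P h2627 :=
  frun_good hP hl T_2627 (fc (G_2629 hP hl) (fc (G_2630 hP hl) f0))
theorem G_2626 (hP : P.ok) (hl : ¬ InB P loc) : FGood P h2626 :=
  frun_good hP hl T_2626 (fc (G_2627 hP hl) (fc (G_2628 hP hl) f0))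
theorem G_2625 (hP : P.ok) (hl : ¬ InB P loc) : FGood P h2625 :=
  frun_good hP hl T_2625 f0
theorem G_2624 (hP : P.ok) (hl : ¬ InB P loc) : FGood P h2624 :=
  frun_good hP hl T_2624 (fc (G_2625 hP hl) f0)
theorem G_2623 (hP : P.ok) (hl : ¬ InB P loc) : FGood P h2623 :=
  frun_good hP hl T_2623 f0
theorem G_2622 (hP : P.ok) (hl : ¬ InB P loc) : FGood P h2622 :=
  frun_good hP hl T_2622 f0
theorem G_2621 (hP : P.ok) (hl : ¬ InB P loc) : FGood P h2621 :=
  frun_good hP hl T_2621 (fc (G_2622 hP hl) f0)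
theorem G_2620 (hP : P.ok) (hl : ¬ InB P loc) : FGood P h2620 :=
  frun_good hP hl T_2620 f0
theorem G_2619 (hP : P.ok) (hl : ¬ InB P loc) : FGood P h2619 :=
  frun_good hP hl T_2619 f0
theorem G_2618 (hP : P.ok) (hl : ¬ InB P loc) : FGood P h2618 :=
  frun_good hP hl T_2618 (fc (G_2619 hP hl) f0)
theorem G_2617 (hP : P.ok) (hl : ¬ InB P loc) : FGood P h2617 :=
  frun_good hP hl T_2617 f0
theorem G_2616 (hP : P.ok) (hl : ¬ InB P loc) : FGood P h2616 :=
  frun_good hP hl T_2616 f0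
theorem G_2615 (hP : P.ok) (hl : ¬ InB P loc) : FGood P h2615 :=
  frun_good hP hl T_2615 (fc (G_2616 hP hl) f0)
theorem G_2614 (hP : P.ok) (hl : ¬ InB P loc) : FGood P h2614 :=
  frun_good hP hl T_2614 f0
theorem G_2613 (hP : P.ok) (hl : ¬ InB P loc) : FGood P h2613 :=
  frun_good hP hl T_2613 (fc (G_2614 hP hl) f0)
theorem G_2612 (hP : P.ok) (hl : ¬ InB P loc) : FGood P h2612 :=
  frun_good hP hl T_2612 f0
theorem G_2611 (hP : P.ok) (hl : ¬ InB P loc) : FGood P h2611 :=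
  frun_good hP hl T_2611 f0
theorem G_2610 (hP : P.ok) (hl : ¬ InB P loc) : FGood P h2610 :=
  frun_good hP hl T_2610 f0
theorem G_2609 (hP : P.ok) (hl : ¬ InB P loc) : FGood P h2609 :=
  frun_good hP hl T_2609 f0
theorem G_2608 (hP : P.ok) (hl : ¬ InB P loc) : FGood P h2608 :=
  frun_good hP hl T_2608 (fc (G_2609 hP hl) f0)
theorem G_2607 (hP : P.ok) (hl : ¬ InB P loc) : FGood P h2607 :=
  frun_good hP hl T_2607 f0
theorem G_2606 (hP : P.ok) (hl : ¬ InB P loc) : FGood P h2606 :=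
  frun_good hP hl T_2606 f0
theorem G_2605 (hP : P.ok) (hl : ¬ InB P loc) : FGood P h2605 :=
  frun_good hP hl T_2605 f0
theorem G_2604 (hP : P.ok) (hl : ¬ InB P loc) : FGood P h2604 :=
  frun_good hP hl T_2604 f0
theorem G_2603 (hP : P.ok) (hl : ¬ InB P loc) : FGood P h2603 :=
  frun_good hP hl T_2603 f0
theorem G_2602 (hP : P.ok) (hl : ¬ InB P loc) : FGood P h2602 :=
  frun_good hP hl T_2602 (fc (G_2603 hP hl) f0)
theorem G_2601 (hP : P.ok) (hl : ¬ InB P loc) : FGood P h2601 :=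
  frun_good hP hl T_2601 f0
theorem G_2600 (hP : P.ok) (hl : ¬ InB P loc) : FGood P h2600 :=
  frun_good hP hl T_2600 f0
theorem G_2599 (hP : P.ok) (hl : ¬ InB P loc) : FGood P h2599 :=
  frun_good hP hl T_2599 f0
theorem G_2598 (hP : P.ok) (hl : ¬ InB P loc) : FGood P h2598 :=
  frun_good hP hl T_2598 (fc (G_2599 hP hl) (fc (G_2600 hP hl) (fc (G_2601 hP hl) f0)))
theorem G_2597 (hP : P.ok) (hl : ¬ InB P loc) : FGood P h2597 :=
  frun_good hP hl T_2597 f0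
theorem G_2596 (hP : P.ok) (hl : ¬ InB P loc) : FGood P h2596 :=
  frun_good hP hl T_2596 f0
theorem G_2595 (hP : P.ok) (hl : ¬ InB P loc) : FGood P h2595 :=
  frun_good hP hl T_2595 (fc (G_2596 hP hl) (fc (G_2597 hP hl) f0))
theorem G_2594 (hP : P.ok) (hl : ¬ InB P loc) : FGood P h2594 :=
  frun_good hP hl T_2594 (fc (G_2595 hP hl) f0)
theorem G_2593 (hP : P.ok) (hl : ¬ InB P loc) : FGood P h2593 :=
  frun_good hP hl T_2593 f0
theorem G_2592 (hP : P.ok) (hl : ¬ InB P loc) : FGood P h2592 :=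
  frun_good hP hl T_2592 (fc (G_2593 hP hl) f0)
theorem G_2591 (hP : P.ok) (hl : ¬ InB P loc) : FGood P h2591 :=
  frun_good hP hl T_2591 f0
theorem G_2590 (hP : P.ok) (hl : ¬ InB P loc) : FGood P h2590 :=
  frun_good hP hl T_2590 f0
theorem G_2589 (hP : P.ok) (hl : ¬ InB P loc) : FGood P h2589 :=
  frun_good hP hl T_2589 (fc (G_2590 hP hl) f0)
theorem G_2588 (hP : P.ok) (hl : ¬ InB P loc) : FGood P h2588 :=
  frun_good hP hl T_2588 f0
theorem G_2587 (hP : P.ok) (hl : ¬ InB P loc) : FGood P h2587 :=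
  frun_good hP hl T_2587 f0
theorem G_2586 (hP : P.ok) (hl : ¬ InB P loc) : FGood P h2586 :=
  frun_good hP hl T_2586 (fc (G_2587 hP hl) f0)
theorem G_2585 (hP : P.ok) (hl : ¬ InB P loc) : FGood P h2585 :=
  frun_good hP hl T_2585 (fc (G_2586 hP hl) f0)
theorem G_2584 (hP : P.ok) (hl : ¬ InB P loc) : FGood P h2584 :=
  frun_good hP hl T_2584 f0
theorem G_2583 (hP : P.ok) (hl : ¬ InB P loc) : FGood P h2583 :=
  frun_good hP hl T_2583 (fc (G_2584 hP hl) (fc (G_2585 hP hl) f0))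
theorem G_2582 (hP : P.ok) (hl : ¬ InB P loc) : FGood P h2582 :=
  frun_good hP hl T_2582 f0
theorem G_2581 (hP : P.ok) (hl : ¬ InB P loc) : FGood P h2581 :=
  frun_good hP hl T_2581 (fc (G_2582 hP hl) f0)
theorem G_2580 (hP : P.ok) (hl : ¬ InB P loc) : FGood P h2580 :=
  frun_good hP hl T_2580 f0
theorem G_2579 (hP : P.ok) (hl : ¬ InB P loc) : FGood P h2579 :=
  frun_good hP hl T_2579 f0
theorem G_2578 (hP : P.ok) (hl : ¬ InB P loc) : FGood P h2578 :=
  frun_good hP hl T_2578 (fc (G_2579 hP hl) f0)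
theorem G_2577 (hP : P.ok) (hl : ¬ InB P loc) : FGood P h2577 :=
  frun_good hP hl T_2577 f0
theorem G_2576 (hP : P.ok) (hl : ¬ InB P loc) : FGood P h2576 :=
  frun_good hP hl T_2576 f0
theorem G_2575 (hP : P.ok) (hl : ¬ InB P loc) : FGood P h2575 :=
  frun_good hP hl T_2575 (fc (G_2577 hP hl) (fc (G_2578 hP hl) f0))
theorem G_2574 (hP : P.ok) (hl : ¬ InB P loc) : FGood P h2574 :=
  frun_good hP hl T_2574 (fc (G_2575 hP hl) (fc (G_2576 hP hl) f0))
theorem G_2573 (hP : P.ok) (hl : ¬ InB P loc) : FGood P h2573 :=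
  frun_good hP hl T_2573 f0
theorem G_2572 (hP : P.ok) (hl : ¬ InB P loc) : FGood P h2572 :=
  frun_good hP hl T_2572 f0
theorem G_2571 (hP : P.ok) (hl : ¬ InB P loc) : FGood P h2571 :=
  frun_good hP hl T_2571 f0
theorem G_2570 (hP : P.ok) (hl : ¬ InB P loc) : FGood P h2570 :=
  frun_good hP hl T_2570 f0
theorem G_2569 (hP : P.ok) (hl : ¬ InB P loc) : FGood P h2569 :=
  frun_good hP hl T_2569 (fc (G_2570 hP hl) f0)
theorem G_2568 (hP : P.ok) (hl : ¬ InB P loc) : FGood P h2568 :=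
  frun_good hP hl T_2568 (fc (G_2569 hP hl) f0)
theorem G_2567 (hP : P.ok) (hl : ¬ InB P loc) : FGood P h2567 :=
  frun_good hP hl T_2567 (fc (G_2568 hP hl) f0)
theorem G_2566 (hP : P.ok) (hl : ¬ InB P loc) : FGood P h2566 :=
  frun_good hP hl T_2566 f0
theorem G_2565 (hP : P.ok) (hl : ¬ InB P loc) : FGood P h2565 :=
  frun_good hP hl T_2565 f0
theorem G_2564 (hP : P.ok) (hl : ¬ InB P loc) : FGood P h2564 :=
  frun_good hP hl T_2564 f0
theorem G_2563 (hP : P.ok) (hl : ¬ InB P loc) : FGood P h2563 :=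
  frun_good hP hl T_2563 f0
theorem G_2562 (hP : P.ok) (hl : ¬ InB P loc) : FGood P h2562 :=
  frun_good hP hl T_2562 (fc (G_2563 hP hl) f0)
theorem G_2561 (hP : P.ok) (hl : ¬ InB P loc) : FGood P h2561 :=
  frun_good hP hl T_2561 f0
theorem G_2560 (hP : P.ok) (hl : ¬ InB P loc) : FGood P h2560 :=
  frun_good hP hl T_2560 (fc (G_2562 hP hl) f0)
theorem G_2559 (hP : P.ok) (hl : ¬ InB P loc) : FGood P h2559 :=
  frun_good hP hl T_2559 (fc (G_2561 hP hl) f0)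
theorem G_2558 (hP : P.ok) (hl : ¬ InB P loc) : FGood P h2558 :=
  frun_good hP hl T_2558 f0
theorem G_2557 (hP : P.ok) (hl : ¬ InB P loc) : FGood P h2557 :=
  frun_good hP hl T_2557 (fc (G_2558 hP hl) (fc (G_2559 hP hl) (fc (G_2560 hP hl) f0)))
theorem G_2556 (hP : P.ok) (hl : ¬ InB P loc) : FGood P h2556 :=
  frun_good hP hl T_2556 f0
theorem G_2555 (hP : P.ok) (hl : ¬ InB P loc) : FGood P h2555 :=
  frun_good hP hl T_2555 f0
theorem G_2554 (hP : P.ok) (hl : ¬ InB P loc) : FGood P h2554 :=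
  frun_good hP hl T_2554 (fc (G_2555 hP hl) f0)
theorem G_2553 (hP : P.ok) (hl : ¬ InB P loc) : FGood P h2553 :=
  frun_good hP hl T_2553 f0
theorem G_2552 (hP : P.ok) (hl : ¬ InB P loc) : FGood P h2552 :=
  frun_good hP hl T_2552 f0
theorem G_2551 (hP : P.ok) (hl : ¬ InB P loc) : FGood P h2551 :=
  frun_good hP hl T_2551 (fc (G_2553 hP hl) f0)
theorem G_2550 (hP : P.ok) (hl : ¬ InB P loc) : FGood P h2550 :=
  frun_good hP hl T_2550 (fc (G_2551 hP hl) (fc (G_2552 hP hl) f0))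
theorem G_2549 (hP : P.ok) (hl : ¬ InB P loc) : FGood P h2549 :=
  frun_good hP hl T_2549 f0
theorem G_2548 (hP : P.ok) (hl : ¬ InB P loc) : FGood P h2548 :=
  frun_good hP hl T_2548 (fc (G_2549 hP hl) f0)
theorem G_2547 (hP : P.ok) (hl : ¬ InB P loc) : FGood P h2547 :=
  frun_good hP hl T_2547 f0
theorem G_2546 (hP : P.ok) (hl : ¬ InB P loc) : FGood P h2546 :=
  frun_good hP hl T_2546 f0
theorem G_2545 (hP : P.ok) (hl : ¬ InB P loc) : FGood P h2545 :=
  frun_good hP hl T_2545 f0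
theorem G_2544 (hP : P.ok) (hl : ¬ InB P loc) : FGood P h2544 :=
  frun_good hP hl T_2544 (fc (G_2545 hP hl) (fc (G_2546 hP hl) (fc (G_2547 hP hl) f0)))
theorem G_2543 (hP : P.ok) (hl : ¬ InB P loc) : FGood P h2543 :=
  frun_good hP hl T_2543 (fc (G_2544 hP hl) f0)
theorem G_2542 (hP : P.ok) (hl : ¬ InB P loc) : FGood P h2542 :=
  frun_good hP hl T_2542 f0
theorem G_2541 (hP : P.ok) (hl : ¬ InB P loc) : FGood P h2541 :=
  frun_good hP hl T_2541 f0
theorem G_2540 (hP : P.ok) (hl : ¬ InB P loc) : FGood P h2540 :=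
  frun_good hP hl T_2540 f0
theorem G_2539 (hP : P.ok) (hl : ¬ InB P loc) : FGood P h2539 :=
  frun_good hP hl T_2539 f0
theorem G_2538 (hP : P.ok) (hl : ¬ InB P loc) : FGood P h2538 :=
  frun_good hP hl T_2538 f0
theorem G_2537 (hP : P.ok) (hl : ¬ InB P loc) : FGood P h2537 :=
  frun_good hP hl T_2537 (fc (G_2539 hP hl) f0)
theorem G_2536 (hP : P.ok) (hl : ¬ InB P loc) : FGood P h2536 :=
  frun_good hP hl T_2536 f0
theorem G_2535 (hP : P.ok) (hl : ¬ InB P loc) : FGood P h2535 :=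
  frun_good hP hl T_2535 f0
theorem G_2534 (hP : P.ok) (hl : ¬ InB P loc) : FGood P h2534 :=
  frun_good hP hl T_2534 (fc (G_2538 hP hl) f0)
theorem G_2533 (hP : P.ok) (hl : ¬ InB P loc) : FGood P h2533 :=
  frun_good hP hl T_2533 (fc (G_2535 hP hl) (fc (G_2536 hP hl) (fc (G_2537 hP hl) f0)))
theorem G_2532 (hP : P.ok) (hl : ¬ InB P loc) : FGood P h2532 :=
  frun_good hP hl T_2532 f0
theorem G_2531 (hP : P.ok) (hl : ¬ InB P loc) : FGood P h2531 :=
  frun_good hP hl T_2531 (fc (G_2532 hP hl) (fc (G_2533 hP hl) (fc (G_2534 hP hl) f0)))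
theorem G_2530 (hP : P.ok) (hl : ¬ InB P loc) : FGood P h2530 :=
  frun_good hP hl T_2530 f0
theorem G_2529 (hP : P.ok) (hl : ¬ InB P loc) : FGood P h2529 :=
  frun_good hP hl T_2529 f0
theorem G_2528 (hP : P.ok) (hl : ¬ InB P loc) : FGood P h2528 :=
  frun_good hP hl T_2528 f0
theorem G_2527 (hP : P.ok) (hl : ¬ InB P loc) : FGood P h2527 :=
  frun_good hP hl T_2527 (fc (G_2528 hP hl) (fc (G_2529 hP hl) f0))
theorem G_2526 (hP : P.ok) (hl : ¬ InB P loc) : FGood P h2526 :=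
  frun_good hP hl T_2526 (fc (G_2527 hP hl) f0)
theorem G_2525 (hP : P.ok) (hl : ¬ InB P loc) : FGood P h2525 :=
  frun_good hP hl T_2525 f0
theorem G_2524 (hP : P.ok) (hl : ¬ InB P loc) : FGood P h2524 :=
  frun_good hP hl T_2524 f0
theorem G_2523 (hP : P.ok) (hl : ¬ InB P loc) : FGood P h2523 :=
  frun_good hP hl T_2523 f0
theorem G_2522 (hP : P.ok) (hl : ¬ InB P loc) : FGood P h2522 :=
  frun_good hP hl T_2522 f0
theorem G_2521 (hP : P.ok) (hl : ¬ InB P loc) : FGood P h2521 :=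
  frun_good hP hl T_2521 f0
theorem G_2520 (hP : P.ok) (hl : ¬ InB P loc) : FGood P h2520 :=
  frun_good hP hl T_2520 f0
theorem G_2519 (hP : P.ok) (hl : ¬ InB P loc) : FGood P h2519 :=
  frun_good hP hl T_2519 f0
theorem G_2518 (hP : P.ok) (hl : ¬ InB P loc) : FGood P h2518 :=
  frun_good hP hl T_2518 (fc (G_2521 hP hl) (fc (G_2522 hP hl) f0))
theorem G_2517 (hP : P.ok) (hl : ¬ InB P loc) : FGood P h2517 :=
  frun_good hP hl T_2517 (fc (G_2520 hP hl) f0)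
theorem G_2516 (hP : P.ok) (hl : ¬ InB P loc) : FGood P h2516 :=
  frun_good hP hl T_2516 (fc (G_2517 hP hl) (fc (G_2518 hP hl) (fc (G_2519 hP hl) f0)))
theorem G_2515 (hP : P.ok) (hl : ¬ InB P loc) : FGood P h2515 :=
  frun_good hP hl T_2515 (fc (G_2516 hP hl) f0)
theorem G_2514 (hP : P.ok) (hl : ¬ InB P loc) : FGood P h2514 :=
  frun_good hP hl T_2514 f0
theorem G_2513 (hP : P.ok) (hl : ¬ InB P loc) : FGood P h2513 :=
  frun_good hP hl T_2513 f0
theorem G_2512 (hP : P.ok) (hl : ¬ InB P loc) : FGood P h2512 :=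
  frun_good hP hl T_2512 f0
theorem G_2511 (hP : P.ok) (hl : ¬ InB P loc) : FGood P h2511 :=
  frun_good hP hl T_2511 f0
theorem G_2510 (hP : P.ok) (hl : ¬ InB P loc) : FGood P h2510 :=
  frun_good hP hl T_2510 (fc (G_2511 hP hl) f0)
theorem G_2509 (hP : P.ok) (hl : ¬ InB P loc) : FGood P h2509 :=
  frun_good hP hl T_2509 f0
theorem G_2508 (hP : P.ok) (hl : ¬ InB P loc) : FGood P h2508 :=
  frun_good hP hl T_2508 f0
theorem G_2507 (hP : P.ok) (hl : ¬ InB P loc) : FGood P h2507 :=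
  frun_good hP hl T_2507 f0
theorem G_2506 (hP : P.ok) (hl : ¬ InB P loc) : FGood P h2506 :=
  frun_good hP hl T_2506 (fc (G_2508 hP hl) (fc (G_2509 hP hl) (fc (G_2510 hP hl) f0)))
theorem G_2505 (hP : P.ok) (hl : ¬ InB P loc) : FGood P h2505 :=
  frun_good hP hl T_2505 f0
theorem G_2504 (hP : P.ok) (hl : ¬ InB P loc) : FGood P h2504 :=
  frun_good hP hl T_2504 (fc (G_2505 hP hl) (fc (G_2506 hP hl) (fc (G_2507 hP hl) f0)))
theorem G_2503 (hP : P.ok) (hl : ¬ InB P loc) : FGood P h2503 :=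
  frun_good hP hl T_2503 f0
theorem G_2502 (hP : P.ok) (hl : ¬ InB P loc) : FGood P h2502 :=
  frun_good hP hl T_2502 f0
theorem G_2501 (hP : P.ok) (hl : ¬ InB P loc) : FGood P h2501 :=
  frun_good hP hl T_2501 (fc (G_2502 hP hl) f0)
theorem G_2500 (hP : P.ok) (hl : ¬ InB P loc) : FGood P h2500 :=
  frun_good hP hl T_2500 f0
theorem G_2499 (hP : P.ok) (hl : ¬ InB P loc) : FGood P h2499 :=
  frun_good hP hl T_2499 f0
theorem G_2498 (hP : P.ok) (hl : ¬ InB P loc) : FGood P h2498 :=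
  frun_good hP hl T_2498 (fc (G_2499 hP hl) (fc (G_2500 hP hl) f0))
theorem G_2497 (hP : P.ok) (hl : ¬ InB P loc) : FGood P h2497 :=
  frun_good hP hl T_2497 f0
theorem G_2496 (hP : P.ok) (hl : ¬ InB P loc) : FGood P h2496 :=
  frun_good hP hl T_2496 (fc (G_2497 hP hl) f0)
theorem G_2495 (hP : P.ok) (hl : ¬ InB P loc) : FGood P h2495 :=
  frun_good hP hl T_2495 f0
theorem G_2494 (hP : P.ok) (hl : ¬ InB P loc) : FGood P h2494 :=
  frun_good hP hl T_2494 f0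
theorem G_2493 (hP : P.ok) (hl : ¬ InB P loc) : FGood P h2493 :=
  frun_good hP hl T_2493 f0
theorem G_2492 (hP : P.ok) (hl : ¬ InB P loc) : FGood P h2492 :=
  frun_good hP hl T_2492 f0
theorem G_2491 (hP : P.ok) (hl : ¬ InB P loc) : FGood P h2491 :=
  frun_good hP hl T_2491 (fc (G_2492 hP hl) (fc (G_2493 hP hl) (fc (G_2494 hP hl) (fc (G_2495 hP hl) f0))))
theorem G_2490 (hP : P.ok) (hl : ¬ InB P loc) : FGood P h2490 :=
  frun_good hP hl T_2490 f0
theorem G_2489 (hP : P.ok) (hl : ¬ InB P loc) : FGood P h2489 :=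
  frun_good hP hl T_2489 f0
theorem G_2488 (hP : P.ok) (hl : ¬ InB P loc) : FGood P h2488 :=
  frun_good hP hl T_2488 (fc (G_2489 hP hl) (fc (G_2490 hP hl) f0))
theorem G_2487 (hP : P.ok) (hl : ¬ InB P loc) : FGood P h2487 :=
  frun_good hP hl T_2487 f0
theorem G_2486 (hP : P.ok) (hl : ¬ InB P loc) : FGood P h2486 :=
  frun_good hP hl T_2486 f0
theorem G_2485 (hP : P.ok) (hl : ¬ InB P loc) : FGood P h2485 :=
  frun_good hP hl T_2485 f0
theorem G_2484 (hP : P.ok) (hl : ¬ InB P loc) : FGood P h2484 :=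
  frun_good hP hl T_2484 f0
theorem G_2483 (hP : P.ok) (hl : ¬ InB P loc) : FGood P h2483 :=
  frun_good hP hl T_2483 f0
theorem G_2482 (hP : P.ok) (hl : ¬ InB P loc) : FGood P h2482 :=
  frun_good hP hl T_2482 (fc (G_2483 hP hl) f0)
theorem G_2481 (hP : P.ok) (hl : ¬ InB P loc) : FGood P h2481 :=
  frun_good hP hl T_2481 (fc (G_2482 hP hl) f0)
theorem G_2480 (hP : P.ok) (hl : ¬ InB P loc) : FGood P h2480 :=
  frun_good hP hl T_2480 f0
theorem G_2479 (hP : P.ok) (hl : ¬ InB P loc) : FGood P h2479 :=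
  frun_good hP hl T_2479 f0
theorem G_2478 (hP : P.ok) (hl : ¬ InB P loc) : FGood P h2478 :=
  frun_good hP hl T_2478 (fc (G_2479 hP hl) (fc (G_2480 hP hl) f0))
theorem G_2477 (hP : P.ok) (hl : ¬ InB P loc) : FGood P h2477 :=
  frun_good hP hl T_2477 f0
theorem G_2476 (hP : P.ok) (hl : ¬ InB P loc) : FGood P h2476 :=
  frun_good hP hl T_2476 (fc (G_2477 hP hl) f0)
theorem G_2475 (hP : P.ok) (hl : ¬ InB P loc) : FGood P h2475 :=
  frun_good hP hl T_2475 f0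
theorem G_2474 (hP : P.ok) (hl : ¬ InB P loc) : FGood P h2474 :=
  frun_good hP hl T_2474 f0
theorem G_2473 (hP : P.ok) (hl : ¬ InB P loc) : FGood P h2473 :=
  frun_good hP hl T_2473 (fc (G_2475 hP hl) f0)
theorem G_2472 (hP : P.ok) (hl : ¬ InB P loc) : FGood P h2472 :=
  frun_good hP hl T_2472 (fc (G_2473 hP hl) (fc (G_2474 hP hl) f0))
theorem G_2471 (hP : P.ok) (hl : ¬ InB P loc) : FGood P h2471 :=
  frun_good hP hl T_2471 f0
theorem G_2470 (hP : P.ok) (hl : ¬ InB P loc) : FGood P h2470 :=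
  frun_good hP hl T_2470 f0
theorem G_2469 (hP : P.ok) (hl : ¬ InB P loc) : FGood P h2469 :=
  frun_good hP hl T_2469 (fc (G_2470 hP hl) (fc (G_2471 hP hl) (fc (G_2472 hP hl) f0)))
theorem G_2468 (hP : P.ok) (hl : ¬ InB P loc) : FGood P h2468 :=
  frun_good hP hl T_2468 f0
theorem G_2467 (hP : P.ok) (hl : ¬ InB P loc) : FGood P h2467 :=
  frun_good hP hl T_2467 f0
theorem G_2466 (hP : P.ok) (hl : ¬ InB P loc) : FGood P h2466 :=
  frun_good hP hl T_2466 f0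
theorem G_2465 (hP : P.ok) (hl : ¬ InB P loc) : FGood P h2465 :=
  frun_good hP hl T_2465 f0
theorem G_2464 (hP : P.ok) (hl : ¬ InB P loc) : FGood P h2464 :=
  frun_good hP hl T_2464 f0
theorem G_2463 (hP : P.ok) (hl : ¬ InB P loc) : FGood P h2463 :=
  frun_good hP hl T_2463 (fc (G_2464 hP hl) (fc (G_2465 hP hl) (fc (G_2466 hP hl) (fc (G_2467 hP hl) f0))))
theorem G_2462 (hP : P.ok) (hl : ¬ InB P loc) : FGood P h2462 :=
  frun_good hP hl T_2462 f0
theorem G_2461 (hP : P.ok) (hl : ¬ InB P loc) : FGood P h2461 :=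
  frun_good hP hl T_2461 (fc (G_2462 hP hl) (fc (G_2463 hP hl) f0))
theorem G_2460 (hP : P.ok) (hl : ¬ InB P loc) : FGood P h2460 :=
  frun_good hP hl T_2460 f0
theorem G_2459 (hP : P.ok) (hl : ¬ InB P loc) : FGood P h2459 :=
  frun_good hP hl T_2459 (fc (G_2460 hP hl) f0)
theorem G_2458 (hP : P.ok) (hl : ¬ InB P loc) : FGood P h2458 :=
  frun_good hP hl T_2458 f0
theorem G_2457 (hP : P.ok) (hl : ¬ InB P loc) : FGood P h2457 :=
  frun_good hP hl T_2457 f0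
theorem G_2456 (hP : P.ok) (hl : ¬ InB P loc) : FGood P h2456 :=
  frun_good hP hl T_2456 (fc (G_2457 hP hl) f0)
theorem G_2455 (hP : P.ok) (hl : ¬ InB P loc) : FGood P h2455 :=
  frun_good hP hl T_2455 f0
theorem G_2454 (hP : P.ok) (hl : ¬ InB P loc) : FGood P h2454 :=
  frun_good hP hl T_2454 f0
theorem G_2453 (hP : P.ok) (hl : ¬ InB P loc) : FGood P h2453 :=
  frun_good hP hl T_2453 f0
theorem G_2452 (hP : P.ok) (hl : ¬ InB P loc) : FGood P h2452 :=
  frun_good hP hl T_2452 (fc (G_2453 hP hl) (fc (G_2454 hP hl) (fc (G_2455 hP hl) f0)))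
theorem G_2451 (hP : P.ok) (hl : ¬ InB P loc) : FGood P h2451 :=
  frun_good hP hl T_2451 f0
theorem G_2450 (hP : P.ok) (hl : ¬ InB P loc) : FGood P h2450 :=
  frun_good hP hl T_2450 f0
theorem G_2449 (hP : P.ok) (hl : ¬ InB P loc) : FGood P h2449 :=
  frun_good hP hl T_2449 (fc (G_2451 hP hl) f0)
theorem G_2448 (hP : P.ok) (hl : ¬ InB P loc) : FGood P h2448 :=
  frun_good hP hl T_2448 (fc (G_2449 hP hl) (fc (G_2450 hP hl) f0))
theorem G_2447 (hP : P.ok) (hl : ¬ InB P loc) : FGood P h2447 :=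
  frun_good hP hl T_2447 f0
theorem G_2446 (hP : P.ok) (hl : ¬ InB P loc) : FGood P h2446 :=
  frun_good hP hl T_2446 f0
theorem G_2445 (hP : P.ok) (hl : ¬ InB P loc) : FGood P h2445 :=
  frun_good hP hl T_2445 f0
theorem G_2444 (hP : P.ok) (hl : ¬ InB P loc) : FGood P h2444 :=
  frun_good hP hl T_2444 (fc (G_2445 hP hl) (fc (G_2446 hP hl) (fc (G_2447 hP hl) (fc (G_2448 hP hl) f0))))
theorem G_2443 (hP : P.ok) (hl : ¬ InB P loc) : FGood P h2443 :=
  frun_good hP hl T_2443 f0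
theorem G_2442 (hP : P.ok) (hl : ¬ InB P loc) : FGood P h2442 :=
  frun_good hP hl T_2442 f0
theorem G_2441 (hP : P.ok) (hl : ¬ InB P loc) : FGood P h2441 :=
  frun_good hP hl T_2441 (fc (G_2442 hP hl) f0)
theorem G_2440 (hP : P.ok) (hl : ¬ InB P loc) : FGood P h2440 :=
  frun_good hP hl T_2440 (fc (G_2441 hP hl) f0)
theorem G_2439 (hP : P.ok) (hl : ¬ InB P loc) : FGood P h2439 :=
  frun_good hP hl T_2439 f0
theorem G_2438 (hP : P.ok) (hl : ¬ InB P loc) : FGood P h2438 :=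
  frun_good hP hl T_2438 (fc (G_2439 hP hl) f0)
theorem G_2437 (hP : P.ok) (hl : ¬ InB P loc) : FGood P h2437 :=
  frun_good hP hl T_2437 (fc (G_2438 hP hl) f0)
theorem G_2436 (hP : P.ok) (hl : ¬ InB P loc) : FGood P h2436 :=
  frun_good hP hl T_2436 f0
theorem G_2435 (hP : P.ok) (hl : ¬ InB P loc) : FGood P h2435 :=
  frun_good hP hl T_2435 f0
theorem G_2434 (hP : P.ok) (hl : ¬ InB P loc) : FGood P h2434 :=
  frun_good hP hl T_2434 (fc (G_2436 hP hl) f0)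
theorem G_2433 (hP : P.ok) (hl : ¬ InB P loc) : FGood P h2433 :=
  frun_good hP hl T_2433 (fc (G_2434 hP hl) (fc (G_2435 hP hl) f0))
theorem G_2432 (hP : P.ok) (hl : ¬ InB P loc) : FGood P h2432 :=
  frun_good hP hl T_2432 f0
theorem G_2431 (hP : P.ok) (hl : ¬ InB P loc) : FGood P h2431 :=
  frun_good hP hl T_2431 (fc (G_2432 hP hl) (fc (G_2433 hP hl) f0))
theorem G_2430 (hP : P.ok) (hl : ¬ InB P loc) : FGood P h2430 :=
  frun_good hP hl T_2430 f0
theorem G_2429 (hP : P.ok) (hl : ¬ InB P loc) : FGood P h2429 :=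
  frun_good hP hl T_2429 f0
theorem G_2428 (hP : P.ok) (hl : ¬ InB P loc) : FGood P h2428 :=
  frun_good hP hl T_2428 f0
theorem G_2427 (hP : P.ok) (hl : ¬ InB P loc) : FGood P h2427 :=
  frun_good hP hl T_2427 f0
theorem G_2426 (hP : P.ok) (hl : ¬ InB P loc) : FGood P h2426 :=
  frun_good hP hl T_2426 (fc (G_2427 hP hl) (fc (G_2428 hP hl) f0))
theorem G_2425 (hP : P.ok) (hl : ¬ InB P loc) : FGood P h2425 :=
  frun_good hP hl T_2425 f0
theorem G_2424 (hP : P.ok) (hl : ¬ InB P loc) : FGood P h2424 :=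
  frun_good hP hl T_2424 (fc (G_2425 hP hl) f0)
theorem G_2423 (hP : P.ok) (hl : ¬ InB P loc) : FGood P h2423 :=
  frun_good hP hl T_2423 f0
theorem G_2422 (hP : P.ok) (hl : ¬ InB P loc) : FGood P h2422 :=
  frun_good hP hl T_2422 f0
theorem G_2421 (hP : P.ok) (hl : ¬ InB P loc) : FGood P h2421 :=
  frun_good hP hl T_2421 f0
theorem G_2420 (hP : P.ok) (hl : ¬ InB P loc) : FGood P h2420 :=
  frun_good hP hl T_2420 (fc (G_2423 hP hl) f0)
theorem G_2419 (hP : P.ok) (hl : ¬ InB P loc) : FGood P h2419 :=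
  frun_good hP hl T_2419 (fc (G_2420 hP hl) (fc (G_2421 hP hl) (fc (G_2422 hP hl) f0)))
theorem G_2418 (hP : P.ok) (hl : ¬ InB P loc) : FGood P h2418 :=
  frun_good hP hl T_2418 f0
theorem G_2417 (hP : P.ok) (hl : ¬ InB P loc) : FGood P h2417 :=
  frun_good hP hl T_2417 f0
theorem G_2416 (hP : P.ok) (hl : ¬ InB P loc) : FGood P h2416 :=
  frun_good hP hl T_2416 f0
theorem G_2415 (hP : P.ok) (hl : ¬ InB P loc) : FGood P h2415 :=
  frun_good hP hl T_2415 f0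

end

end Pool.Agent.Lib.MP_9d820d_co.Fast.A
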