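import Pool.Agent.Lib.MP_9d820d_co.FMain
import Pool.Agent.Lib.MP_9d820d_co.G.AC64
import Pool.Agent.Lib.MP_9d820d_co.G.AC65
import Pool.Agent.Lib.MP_9d820d_co.G.AC66
import Pool.Agent.Lib.MP_9d820d_co.G.AC67
import Pool.Agent.Lib.MP_9d820d_co.G.AC68
import Pool.Agent.Lib.MP_9d820d_co.G.AC69
import Pool.Agent.Lib.MP_9d820d_co.G.AC70
import Pool.Agent.Lib.MP_9d820d_co.G.AC71
import Pool.Agent.Lib.MP_9d820d_co.G.AC72
import Pool.Agent.Lib.MP_9d820d_co.G.AC73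
import Pool.Agent.Lib.MP_9d820d_co.G.AC74
import Pool.Agent.Lib.MP_9d820d_co.G.AC75
import Pool.Agent.Lib.MP_9d820d_co.G.AC76
import Pool.Agent.Lib.MP_9d820d_co.G.AC77
import Pool.Agent.Lib.MP_9d820d_co.G.AC78
import Pool.Agent.Lib.MP_9d820d_co.G.AC79
import Pool.Agent.Lib.MP_9d820d_co.G.AC80

set_option autoImplicit false

namespace Pool.Agent.Lib.MP_9d820d_co.Fast.A

noncomputable section

variable {P : Prm}

theorem G_3415 (hP : P.ok) (hl : ¬ InB P loc) : FGood P h3415 :=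
  frun_good hP hl T_3415 f0
theorem G_3414 (hP : P.ok) (hl : ¬ InB P loc) : FGood P h3414 :=
  frun_good hP hl T_3414 (fc (G_3415 hP hl) f0)
theorem G_3413 (hP : P.ok) (hl : ¬ InB P loc) : FGood P h3413 :=
  frun_good hP hl T_3413 f0
theorem G_3412 (hP : P.ok) (hl : ¬ InB P loc) : FGood P h3412 :=
  frun_good hP hl T_3412 (fc (G_3413 hP hl) (fc (G_3414 hP hl) f0))
theorem G_3411 (hP : P.ok) (hl : ¬ InB P loc) : FGood P h3411 :=
  frun_good hP hl T_3411 f0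
theorem G_3410 (hP : P.ok) (hl : ¬ InB P loc) : FGood P h3410 :=
  frun_good hP hl T_3410 f0
theorem G_3409 (hP : P.ok) (hl : ¬ InB P loc) : FGood P h3409 :=
  frun_good hP hl T_3409 f0
theorem G_3408 (hP : P.ok) (hl : ¬ InB P loc) : FGood P h3408 :=
  frun_good hP hl T_3408 f0
theorem G_3407 (hP : P.ok) (hl : ¬ InB P loc) : FGood P h3407 :=
  frun_good hP hl T_3407 f0
theorem G_3406 (hP : P.ok) (hl : ¬ InB P loc) : FGood P h3406 :=
  frun_good hP hl T_3406 (fc (G_3407 hP hl) (fc (G_3408 hP hl) (fc (G_3409 hP hl) (fc (G_3410 hP hl) f0))))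
theorem G_3405 (hP : P.ok) (hl : ¬ InB P loc) : FGood P h3405 :=
  frun_good hP hl T_3405 f0
theorem G_3404 (hP : P.ok) (hl : ¬ InB P loc) : FGood P h3404 :=
  frun_good hP hl T_3404 f0
theorem G_3403 (hP : P.ok) (hl : ¬ InB P loc) : FGood P h3403 :=
  frun_good hP hl T_3403 f0
theorem G_3402 (hP : P.ok) (hl : ¬ InB P loc) : FGood P h3402 :=
  frun_good hP hl T_3402 (fc (G_3403 hP hl) (fc (G_3404 hP hl) f0))
theorem G_3401 (hP : P.ok) (hl : ¬ InB P loc) : FGood P h3401 :=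
  frun_good hP hl T_3401 f0
theorem G_3400 (hP : P.ok) (hl : ¬ InB P loc) : FGood P h3400 :=
  frun_good hP hl T_3400 (fc (G_3401 hP hl) (fc (G_3402 hP hl) f0))
theorem G_3399 (hP : P.ok) (hl : ¬ InB P loc) : FGood P h3399 :=
  frun_good hP hl T_3399 f0
theorem G_3398 (hP : P.ok) (hl : ¬ InB P loc) : FGood P h3398 :=
  frun_good hP hl T_3398 f0
theorem G_3397 (hP : P.ok) (hl : ¬ InB P loc) : FGood P h3397 :=
  frun_good hP hl T_3397 f0
theorem G_3396 (hP : P.ok) (hl : ¬ InB P loc) : FGood P h3396 :=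
  frun_good hP hl T_3396 (fc (G_3398 hP hl) f0)
theorem G_3395 (hP : P.ok) (hl : ¬ InB P loc) : FGood P h3395 :=
  frun_good hP hl T_3395 f0
theorem G_3394 (hP : P.ok) (hl : ¬ InB P loc) : FGood P h3394 :=
  frun_good hP hl T_3394 (fc (G_3395 hP hl) (fc (G_3396 hP hl) (fc (G_3397 hP hl) f0)))
theorem G_3393 (hP : P.ok) (hl : ¬ InB P loc) : FGood P h3393 :=
  frun_good hP hl T_3393 f0
theorem G_3392 (hP : P.ok) (hl : ¬ InB P loc) : FGood P h3392 :=
  frun_good hP hl T_3392 f0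
theorem G_3391 (hP : P.ok) (hl : ¬ InB P loc) : FGood P h3391 :=
  frun_good hP hl T_3391 f0
theorem G_3390 (hP : P.ok) (hl : ¬ InB P loc) : FGood P h3390 :=
  frun_good hP hl T_3390 (fc (G_3391 hP hl) f0)
theorem G_3389 (hP : P.ok) (hl : ¬ InB P loc) : FGood P h3389 :=
  frun_good hP hl T_3389 f0
theorem G_3388 (hP : P.ok) (hl : ¬ InB P loc) : FGood P h3388 :=
  frun_good hP hl T_3388 (fc (G_3389 hP hl) (fc (G_3390 hP hl) f0))
theorem G_3387 (hP : P.ok) (hl : ¬ InB P loc) : FGood P h3387 :=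
  frun_good hP hl T_3387 f0
theorem G_3386 (hP : P.ok) (hl : ¬ InB P loc) : FGood P h3386 :=
  frun_good hP hl T_3386 (fc (G_3387 hP hl) f0)
theorem G_3385 (hP : P.ok) (hl : ¬ InB P loc) : FGood P h3385 :=
  frun_good hP hl T_3385 f0
theorem G_3384 (hP : P.ok) (hl : ¬ InB P loc) : FGood P h3384 :=
  frun_good hP hl T_3384 f0
theorem G_3383 (hP : P.ok) (hl : ¬ InB P loc) : FGood P h3383 :=
  frun_good hP hl T_3383 (fc (G_3385 hP hl) f0)
theorem G_3382 (hP : P.ok) (hl : ¬ InB P loc) : FGood P h3382 :=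
  frun_good hP hl T_3382 (fc (G_3383 hP hl) (fc (G_3384 hP hl) f0))
theorem G_3381 (hP : P.ok) (hl : ¬ InB P loc) : FGood P h3381 :=
  frun_good hP hl T_3381 f0
theorem G_3380 (hP : P.ok) (hl : ¬ InB P loc) : FGood P h3380 :=
  frun_good hP hl T_3380 f0
theorem G_3379 (hP : P.ok) (hl : ¬ InB P loc) : FGood P h3379 :=
  frun_good hP hl T_3379 (fc (G_3380 hP hl) f0)
theorem G_3378 (hP : P.ok) (hl : ¬ InB P loc) : FGood P h3378 :=
  frun_good hP hl T_3378 (fc (G_3379 hP hl) f0)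
theorem G_3377 (hP : P.ok) (hl : ¬ InB P loc) : FGood P h3377 :=
  frun_good hP hl T_3377 f0
theorem G_3376 (hP : P.ok) (hl : ¬ InB P loc) : FGood P h3376 :=
  frun_good hP hl T_3376 f0
theorem G_3375 (hP : P.ok) (hl : ¬ InB P loc) : FGood P h3375 :=
  frun_good hP hl T_3375 f0
theorem G_3374 (hP : P.ok) (hl : ¬ InB P loc) : FGood P h3374 :=
  frun_good hP hl T_3374 f0
theorem G_3373 (hP : P.ok) (hl : ¬ InB P loc) : FGood P h3373 :=
  frun_good hP hl T_3373 (fc (G_3374 hP hl) f0)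
theorem G_3372 (hP : P.ok) (hl : ¬ InB P loc) : FGood P h3372 :=
  frun_good hP hl T_3372 f0
theorem G_3371 (hP : P.ok) (hl : ¬ InB P loc) : FGood P h3371 :=
  frun_good hP hl T_3371 (fc (G_3372 hP hl) (fc (G_3373 hP hl) f0))
theorem G_3370 (hP : P.ok) (hl : ¬ InB P loc) : FGood P h3370 :=
  frun_good hP hl T_3370 f0
theorem G_3369 (hP : P.ok) (hl : ¬ InB P loc) : FGood P h3369 :=
  frun_good hP hl T_3369 f0
theorem G_3368 (hP : P.ok) (hl : ¬ InB P loc) : FGood P h3368 :=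
  frun_good hP hl T_3368 f0
theorem G_3367 (hP : P.ok) (hl : ¬ InB P loc) : FGood P h3367 :=
  frun_good hP hl T_3367 (fc (G_3369 hP hl) f0)
theorem G_3366 (hP : P.ok) (hl : ¬ InB P loc) : FGood P h3366 :=
  frun_good hP hl T_3366 (fc (G_3367 hP hl) (fc (G_3368 hP hl) f0))
theorem G_3365 (hP : P.ok) (hl : ¬ InB P loc) : FGood P h3365 :=
  frun_good hP hl T_3365 f0
theorem G_3364 (hP : P.ok) (hl : ¬ InB P loc) : FGood P h3364 :=
  frun_good hP hl T_3364 f0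
theorem G_3363 (hP : P.ok) (hl : ¬ InB P loc) : FGood P h3363 :=
  frun_good hP hl T_3363 f0
theorem G_3362 (hP : P.ok) (hl : ¬ InB P loc) : FGood P h3362 :=
  frun_good hP hl T_3362 (fc (G_3363 hP hl) (fc (G_3364 hP hl) (fc (G_3365 hP hl) f0)))
theorem G_3361 (hP : P.ok) (hl : ¬ InB P loc) : FGood P h3361 :=
  frun_good hP hl T_3361 f0
theorem G_3360 (hP : P.ok) (hl : ¬ InB P loc) : FGood P h3360 :=
  frun_good hP hl T_3360 (fc (G_3361 hP hl) (fc (G_3362 hP hl) f0))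
theorem G_3359 (hP : P.ok) (hl : ¬ InB P loc) : FGood P h3359 :=
  frun_good hP hl T_3359 f0
theorem G_3358 (hP : P.ok) (hl : ¬ InB P loc) : FGood P h3358 :=
  frun_good hP hl T_3358 (fc (G_3359 hP hl) f0)
theorem G_3357 (hP : P.ok) (hl : ¬ InB P loc) : FGood P h3357 :=
  frun_good hP hl T_3357 f0
theorem G_3356 (hP : P.ok) (hl : ¬ InB P loc) : FGood P h3356 :=
  frun_good hP hl T_3356 (fc (G_3357 hP hl) f0)
theorem G_3355 (hP : P.ok) (hl : ¬ InB P loc) : FGood P h3355 :=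
  frun_good hP hl T_3355 f0
theorem G_3354 (hP : P.ok) (hl : ¬ InB P loc) : FGood P h3354 :=
  frun_good hP hl T_3354 f0
theorem G_3353 (hP : P.ok) (hl : ¬ InB P loc) : FGood P h3353 :=
  frun_good hP hl T_3353 (fc (G_3354 hP hl) f0)
theorem G_3352 (hP : P.ok) (hl : ¬ InB P loc) : FGood P h3352 :=
  frun_good hP hl T_3352 f0
theorem G_3351 (hP : P.ok) (hl : ¬ InB P loc) : FGood P h3351 :=
  frun_good hP hl T_3351 f0
theorem G_3350 (hP : P.ok) (hl : ¬ InB P loc) : FGood P h3350 :=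
  frun_good hP hl T_3350 (fc (G_3351 hP hl) f0)
theorem G_3349 (hP : P.ok) (hl : ¬ InB P loc) : FGood P h3349 :=
  frun_good hP hl T_3349 f0
theorem G_3348 (hP : P.ok) (hl : ¬ InB P loc) : FGood P h3348 :=
  frun_good hP hl T_3348 (fc (G_3349 hP hl) (fc (G_3350 hP hl) f0))
theorem G_3347 (hP : P.ok) (hl : ¬ InB P loc) : FGood P h3347 :=
  frun_good hP hl T_3347 f0
theorem G_3346 (hP : P.ok) (hl : ¬ InB P loc) : FGood P h3346 :=
  frun_good hP hl T_3346 f0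
theorem G_3345 (hP : P.ok) (hl : ¬ InB P loc) : FGood P h3345 :=
  frun_good hP hl T_3345 f0
theorem G_3344 (hP : P.ok) (hl : ¬ InB P loc) : FGood P h3344 :=
  frun_good hP hl T_3344 (fc (G_3345 hP hl) (fc (G_3346 hP hl) f0))
theorem G_3343 (hP : P.ok) (hl : ¬ InB P loc) : FGood P h3343 :=
  frun_good hP hl T_3343 (fc (G_3344 hP hl) f0)
theorem G_3342 (hP : P.ok) (hl : ¬ InB P loc) : FGood P h3342 :=
  frun_good hP hl T_3342 f0
theorem G_3341 (hP : P.ok) (hl : ¬ InB P loc) : FGood P h3341 :=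
  frun_good hP hl T_3341 f0
theorem G_3340 (hP : P.ok) (hl : ¬ InB P loc) : FGood P h3340 :=
  frun_good hP hl T_3340 f0
theorem G_3339 (hP : P.ok) (hl : ¬ InB P loc) : FGood P h3339 :=
  frun_good hP hl T_3339 (fc (G_3341 hP hl) f0)
theorem G_3338 (hP : P.ok) (hl : ¬ InB P loc) : FGood P h3338 :=
  frun_good hP hl T_3338 (fc (G_3339 hP hl) (fc (G_3340 hP hl) f0))
theorem G_3337 (hP : P.ok) (hl : ¬ InB P loc) : FGood P h3337 :=
  frun_good hP hl T_3337 (fc (G_3338 hP hl) f0)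
theorem G_3336 (hP : P.ok) (hl : ¬ InB P loc) : FGood P h3336 :=
  frun_good hP hl T_3336 f0
theorem G_3335 (hP : P.ok) (hl : ¬ InB P loc) : FGood P h3335 :=
  frun_good hP hl T_3335 f0
theorem G_3334 (hP : P.ok) (hl : ¬ InB P loc) : FGood P h3334 :=
  frun_good hP hl T_3334 f0
theorem G_3333 (hP : P.ok) (hl : ¬ InB P loc) : FGood P h3333 :=
  frun_good hP hl T_3333 (fc (G_3335 hP hl) f0)
theorem G_3332 (hP : P.ok) (hl : ¬ InB P loc) : FGood P h3332 :=
  frun_good hP hl T_3332 (fc (G_3333 hP hl) (fc (G_3334 hP hl) f0))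
theorem G_3331 (hP : P.ok) (hl : ¬ InB P loc) : FGood P h3331 :=
  frun_good hP hl T_3331 f0
theorem G_3330 (hP : P.ok) (hl : ¬ InB P loc) : FGood P h3330 :=
  frun_good hP hl T_3330 f0
theorem G_3329 (hP : P.ok) (hl : ¬ InB P loc) : FGood P h3329 :=
  frun_good hP hl T_3329 (fc (G_3330 hP hl) f0)
theorem G_3328 (hP : P.ok) (hl : ¬ InB P loc) : FGood P h3328 :=
  frun_good hP hl T_3328 f0
theorem G_3327 (hP : P.ok) (hl : ¬ InB P loc) : FGood P h3327 :=
  frun_good hP hl T_3327 f0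
theorem G_3326 (hP : P.ok) (hl : ¬ InB P loc) : FGood P h3326 :=
  frun_good hP hl T_3326 f0
theorem G_3325 (hP : P.ok) (hl : ¬ InB P loc) : FGood P h3325 :=
  frun_good hP hl T_3325 (fc (G_3328 hP hl) f0)
theorem G_3324 (hP : P.ok) (hl : ¬ InB P loc) : FGood P h3324 :=
  frun_good hP hl T_3324 (fc (G_3325 hP hl) (fc (G_3326 hP hl) (fc (G_3327 hP hl) f0)))
theorem G_3323 (hP : P.ok) (hl : ¬ InB P loc) : FGood P h3323 :=
  frun_good hP hl T_3323 (fc (G_3324 hP hl) f0)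
theorem G_3322 (hP : P.ok) (hl : ¬ InB P loc) : FGood P h3322 :=
  frun_good hP hl T_3322 f0
theorem G_3321 (hP : P.ok) (hl : ¬ InB P loc) : FGood P h3321 :=
  frun_good hP hl T_3321 f0
theorem G_3320 (hP : P.ok) (hl : ¬ InB P loc) : FGood P h3320 :=
  frun_good hP hl T_3320 f0
theorem G_3319 (hP : P.ok) (hl : ¬ InB P loc) : FGood P h3319 :=
  frun_good hP hl T_3319 (fc (G_3321 hP hl) (fc (G_3322 hP hl) f0))
theorem G_3318 (hP : P.ok) (hl : ¬ InB P loc) : FGood P h3318 :=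
  frun_good hP hl T_3318 (fc (G_3320 hP hl) f0)
theorem G_3317 (hP : P.ok) (hl : ¬ InB P loc) : FGood P h3317 :=
  frun_good hP hl T_3317 (fc (G_3318 hP hl) (fc (G_3319 hP hl) f0))
theorem G_3316 (hP : P.ok) (hl : ¬ InB P loc) : FGood P h3316 :=
  frun_good hP hl T_3316 f0
theorem G_3315 (hP : P.ok) (hl : ¬ InB P loc) : FGood P h3315 :=
  frun_good hP hl T_3315 f0
theorem G_3314 (hP : P.ok) (hl : ¬ InB P loc) : FGood P h3314 :=
  frun_good hP hl T_3314 f0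
theorem G_3313 (hP : P.ok) (hl : ¬ InB P loc) : FGood P h3313 :=
  frun_good hP hl T_3313 f0
theorem G_3312 (hP : P.ok) (hl : ¬ InB P loc) : FGood P h3312 :=
  frun_good hP hl T_3312 f0
theorem G_3311 (hP : P.ok) (hl : ¬ InB P loc) : FGood P h3311 :=
  frun_good hP hl T_3311 (fc (G_3313 hP hl) f0)
theorem G_3310 (hP : P.ok) (hl : ¬ InB P loc) : FGood P h3310 :=
  frun_good hP hl T_3310 (fc (G_3311 hP hl) (fc (G_3312 hP hl) f0))
theorem G_3309 (hP : P.ok) (hl : ¬ InB P loc) : FGood P h3309 :=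
  frun_good hP hl T_3309 f0
theorem G_3308 (hP : P.ok) (hl : ¬ InB P loc) : FGood P h3308 :=
  frun_good hP hl T_3308 f0
theorem G_3307 (hP : P.ok) (hl : ¬ InB P loc) : FGood P h3307 :=
  frun_good hP hl T_3307 f0
theorem G_3306 (hP : P.ok) (hl : ¬ InB P loc) : FGood P h3306 :=
  frun_good hP hl T_3306 f0
theorem G_3305 (hP : P.ok) (hl : ¬ InB P loc) : FGood P h3305 :=
  frun_good hP hl T_3305 f0
theorem G_3304 (hP : P.ok) (hl : ¬ InB P loc) : FGood P h3304 :=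
  frun_good hP hl T_3304 (fc (G_3306 hP hl) (fc (G_3307 hP hl) (fc (G_3308 hP hl) (fc (G_3309 hP hl) f0))))
theorem G_3303 (hP : P.ok) (hl : ¬ InB P loc) : FGood P h3303 :=
  frun_good hP hl T_3303 f0
theorem G_3302 (hP : P.ok) (hl : ¬ InB P loc) : FGood P h3302 :=
  frun_good hP hl T_3302 (fc (G_3303 hP hl) (fc (G_3304 hP hl) (fc (G_3305 hP hl) f0)))
theorem G_3301 (hP : P.ok) (hl : ¬ InB P loc) : FGood P h3301 :=
  frun_good hP hl T_3301 f0
theorem G_3300 (hP : P.ok) (hl : ¬ InB P loc) : FGood P h3300 :=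
  frun_good hP hl T_3300 f0
theorem G_3299 (hP : P.ok) (hl : ¬ InB P loc) : FGood P h3299 :=
  frun_good hP hl T_3299 f0
theorem G_3298 (hP : P.ok) (hl : ¬ InB P loc) : FGood P h3298 :=
  frun_good hP hl T_3298 (fc (G_3300 hP hl) (fc (G_3301 hP hl) f0))
theorem G_3297 (hP : P.ok) (hl : ¬ InB P loc) : FGood P h3297 :=
  frun_good hP hl T_3297 f0
theorem G_3296 (hP : P.ok) (hl : ¬ InB P loc) : FGood P h3296 :=
  frun_good hP hl T_3296 (fc (G_3297 hP hl) (fc (G_3298 hP hl) (fc (G_3299 hP hl) f0)))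
theorem G_3295 (hP : P.ok) (hl : ¬ InB P loc) : FGood P h3295 :=
  frun_good hP hl T_3295 f0
theorem G_3294 (hP : P.ok) (hl : ¬ InB P loc) : FGood P h3294 :=
  frun_good hP hl T_3294 (fc (G_3295 hP hl) f0)
theorem G_3293 (hP : P.ok) (hl : ¬ InB P loc) : FGood P h3293 :=
  frun_good hP hl T_3293 f0
theorem G_3292 (hP : P.ok) (hl : ¬ InB P loc) : FGood P h3292 :=
  frun_good hP hl T_3292 (fc (G_3293 hP hl) (fc (G_3294 hP hl) f0))
theorem G_3291 (hP : P.ok) (hl : ¬ InB P loc) : FGood P h3291 :=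
  frun_good hP hl T_3291 f0
theorem G_3290 (hP : P.ok) (hl : ¬ InB P loc) : FGood P h3290 :=
  frun_good hP hl T_3290 (fc (G_3291 hP hl) f0)
theorem G_3289 (hP : P.ok) (hl : ¬ InB P loc) : FGood P h3289 :=
  frun_good hP hl T_3289 f0
theorem G_3288 (hP : P.ok) (hl : ¬ InB P loc) : FGood P h3288 :=
  frun_good hP hl T_3288 f0
theorem G_3287 (hP : P.ok) (hl : ¬ InB P loc) : FGood P h3287 :=
  frun_good hP hl T_3287 f0
theorem G_3286 (hP : P.ok) (hl : ¬ InB P loc) : FGood P h3286 :=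
  frun_good hP hl T_3286 (fc (G_3287 hP hl) (fc (G_3288 hP hl) (fc (G_3289 hP hl) f0)))
theorem G_3285 (hP : P.ok) (hl : ¬ InB P loc) : FGood P h3285 :=
  frun_good hP hl T_3285 f0
theorem G_3284 (hP : P.ok) (hl : ¬ InB P loc) : FGood P h3284 :=
  frun_good hP hl T_3284 f0
theorem G_3283 (hP : P.ok) (hl : ¬ InB P loc) : FGood P h3283 :=
  frun_good hP hl T_3283 (fc (G_3284 hP hl) (fc (G_3285 hP hl) f0))
theorem G_3282 (hP : P.ok) (hl : ¬ InB P loc) : FGood P h3282 :=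
  frun_good hP hl T_3282 f0
theorem G_3281 (hP : P.ok) (hl : ¬ InB P loc) : FGood P h3281 :=
  frun_good hP hl T_3281 (fc (G_3282 hP hl) f0)
theorem G_3280 (hP : P.ok) (hl : ¬ InB P loc) : FGood P h3280 :=
  frun_good hP hl T_3280 (fc (G_3281 hP hl) f0)
theorem G_3279 (hP : P.ok) (hl : ¬ InB P loc) : FGood P h3279 :=
  frun_good hP hl T_3279 f0
theorem G_3278 (hP : P.ok) (hl : ¬ InB P loc) : FGood P h3278 :=
  frun_good hP hl T_3278 f0
theorem G_3277 (hP : P.ok) (hl : ¬ InB P loc) : FGood P h3277 :=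
  frun_good hP hl T_3277 (fc (G_3278 hP hl) (fc (G_3279 hP hl) (fc (G_3280 hP hl) f0)))
theorem G_3276 (hP : P.ok) (hl : ¬ InB P loc) : FGood P h3276 :=
  frun_good hP hl T_3276 f0
theorem G_3275 (hP : P.ok) (hl : ¬ InB P loc) : FGood P h3275 :=
  frun_good hP hl T_3275 (fc (G_3276 hP hl) f0)
theorem G_3274 (hP : P.ok) (hl : ¬ InB P loc) : FGood P h3274 :=
  frun_good hP hl T_3274 f0
theorem G_3273 (hP : P.ok) (hl : ¬ InB P loc) : FGood P h3273 :=
  frun_good hP hl T_3273 (fc (G_3274 hP hl) f0)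
theorem G_3272 (hP : P.ok) (hl : ¬ InB P loc) : FGood P h3272 :=
  frun_good hP hl T_3272 f0
theorem G_3271 (hP : P.ok) (hl : ¬ InB P loc) : FGood P h3271 :=
  frun_good hP hl T_3271 (fc (G_3272 hP hl) f0)
theorem G_3270 (hP : P.ok) (hl : ¬ InB P loc) : FGood P h3270 :=
  frun_good hP hl T_3270 (fc (G_3271 hP hl) f0)
theorem G_3269 (hP : P.ok) (hl : ¬ InB P loc) : FGood P h3269 :=
  frun_good hP hl T_3269 f0
theorem G_3268 (hP : P.ok) (hl : ¬ InB P loc) : FGood P h3268 :=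
  frun_good hP hl T_3268 f0
theorem G_3267 (hP : P.ok) (hl : ¬ InB P loc) : FGood P h3267 :=
  frun_good hP hl T_3267 f0
theorem G_3266 (hP : P.ok) (hl : ¬ InB P loc) : FGood P h3266 :=
  frun_good hP hl T_3266 (fc (G_3268 hP hl) f0)
theorem G_3265 (hP : P.ok) (hl : ¬ InB P loc) : FGood P h3265 :=
  frun_good hP hl T_3265 (fc (G_3267 hP hl) f0)
theorem G_3264 (hP : P.ok) (hl : ¬ InB P loc) : FGood P h3264 :=
  frun_good hP hl T_3264 f0
theorem G_3263 (hP : P.ok) (hl : ¬ InB P loc) : FGood P h3263 :=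
  frun_good hP hl T_3263 (fc (G_3264 hP hl) (fc (G_3265 hP hl) (fc (G_3266 hP hl) f0)))
theorem G_3262 (hP : P.ok) (hl : ¬ InB P loc) : FGood P h3262 :=
  frun_good hP hl T_3262 f0
theorem G_3261 (hP : P.ok) (hl : ¬ InB P loc) : FGood P h3261 :=
  frun_good hP hl T_3261 (fc (G_3262 hP hl) f0)
theorem G_3260 (hP : P.ok) (hl : ¬ InB P loc) : FGood P h3260 :=
  frun_good hP hl T_3260 f0
theorem G_3259 (hP : P.ok) (hl : ¬ InB P loc) : FGood P h3259 :=
  frun_good hP hl T_3259 (fc (G_3261 hP hl) f0)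
theorem G_3258 (hP : P.ok) (hl : ¬ InB P loc) : FGood P h3258 :=
  frun_good hP hl T_3258 (fc (G_3259 hP hl) (fc (G_3260 hP hl) f0))
theorem G_3257 (hP : P.ok) (hl : ¬ InB P loc) : FGood P h3257 :=
  frun_good hP hl T_3257 f0
theorem G_3256 (hP : P.ok) (hl : ¬ InB P loc) : FGood P h3256 :=
  frun_good hP hl T_3256 f0
theorem G_3255 (hP : P.ok) (hl : ¬ InB P loc) : FGood P h3255 :=
  frun_good hP hl T_3255 f0
theorem G_3254 (hP : P.ok) (hl : ¬ InB P loc) : FGood P h3254 :=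
  frun_good hP hl T_3254 (fc (G_3255 hP hl) f0)
theorem G_3253 (hP : P.ok) (hl : ¬ InB P loc) : FGood P h3253 :=
  frun_good hP hl T_3253 (fc (G_3254 hP hl) f0)
theorem G_3252 (hP : P.ok) (hl : ¬ InB P loc) : FGood P h3252 :=
  frun_good hP hl T_3252 f0
theorem G_3251 (hP : P.ok) (hl : ¬ InB P loc) : FGood P h3251 :=
  frun_good hP hl T_3251 f0
theorem G_3250 (hP : P.ok) (hl : ¬ InB P loc) : FGood P h3250 :=
  frun_good hP hl T_3250 (fc (G_3251 hP hl) f0)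
theorem G_3249 (hP : P.ok) (hl : ¬ InB P loc) : FGood P h3249 :=
  frun_good hP hl T_3249 f0
theorem G_3248 (hP : P.ok) (hl : ¬ InB P loc) : FGood P h3248 :=
  frun_good hP hl T_3248 f0
theorem G_3247 (hP : P.ok) (hl : ¬ InB P loc) : FGood P h3247 :=
  frun_good hP hl T_3247 f0
theorem G_3246 (hP : P.ok) (hl : ¬ InB P loc) : FGood P h3246 :=
  frun_good hP hl T_3246 f0
theorem G_3245 (hP : P.ok) (hl : ¬ InB P loc) : FGood P h3245 :=
  frun_good hP hl T_3245 f0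
theorem G_3244 (hP : P.ok) (hl : ¬ InB P loc) : FGood P h3244 :=
  frun_good hP hl T_3244 f0
theorem G_3243 (hP : P.ok) (hl : ¬ InB P loc) : FGood P h3243 :=
  frun_good hP hl T_3243 (fc (G_3244 hP hl) (fc (G_3245 hP hl) (fc (G_3246 hP hl) f0)))
theorem G_3242 (hP : P.ok) (hl : ¬ InB P loc) : FGood P h3242 :=
  frun_good hP hl T_3242 f0
theorem G_3241 (hP : P.ok) (hl : ¬ InB P loc) : FGood P h3241 :=
  frun_good hP hl T_3241 (fc (G_3242 hP hl) f0)
theorem G_3240 (hP : P.ok) (hl : ¬ InB P loc) : FGood P h3240 :=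
  frun_good hP hl T_3240 f0
theorem G_3239 (hP : P.ok) (hl : ¬ InB P loc) : FGood P h3239 :=
  frun_good hP hl T_3239 f0
theorem G_3238 (hP : P.ok) (hl : ¬ InB P loc) : FGood P h3238 :=
  frun_good hP hl T_3238 f0
theorem G_3237 (hP : P.ok) (hl : ¬ InB P loc) : FGood P h3237 :=
  frun_good hP hl T_3237 f0
theorem G_3236 (hP : P.ok) (hl : ¬ InB P loc) : FGood P h3236 :=
  frun_good hP hl T_3236 f0
theorem G_3235 (hP : P.ok) (hl : ¬ InB P loc) : FGood P h3235 :=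
  frun_good hP hl T_3235 f0
theorem G_3234 (hP : P.ok) (hl : ¬ InB P loc) : FGood P h3234 :=
  frun_good hP hl T_3234 f0
theorem G_3233 (hP : P.ok) (hl : ¬ InB P loc) : FGood P h3233 :=
  frun_good hP hl T_3233 f0
theorem G_3232 (hP : P.ok) (hl : ¬ InB P loc) : FGood P h3232 :=
  frun_good hP hl T_3232 (fc (G_3233 hP hl) (fc (G_3234 hP hl) f0))
theorem G_3231 (hP : P.ok) (hl : ¬ InB P loc) : FGood P h3231 :=
  frun_good hP hl T_3231 f0
theorem G_3230 (hP : P.ok) (hl : ¬ InB P loc) : FGood P h3230 :=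
  frun_good hP hl T_3230 f0
theorem G_3229 (hP : P.ok) (hl : ¬ InB P loc) : FGood P h3229 :=
  frun_good hP hl T_3229 (fc (G_3231 hP hl) f0)
theorem G_3228 (hP : P.ok) (hl : ¬ InB P loc) : FGood P h3228 :=
  frun_good hP hl T_3228 (fc (G_3229 hP hl) (fc (G_3230 hP hl) f0))
theorem G_3227 (hP : P.ok) (hl : ¬ InB P loc) : FGood P h3227 :=
  frun_good hP hl T_3227 (fc (G_3228 hP hl) f0)
theorem G_3226 (hP : P.ok) (hl : ¬ InB P loc) : FGood P h3226 :=
  frun_good hP hl T_3226 f0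
theorem G_3225 (hP : P.ok) (hl : ¬ InB P loc) : FGood P h3225 :=
  frun_good hP hl T_3225 f0
theorem G_3224 (hP : P.ok) (hl : ¬ InB P loc) : FGood P h3224 :=
  frun_good hP hl T_3224 f0
theorem G_3223 (hP : P.ok) (hl : ¬ InB P loc) : FGood P h3223 :=
  frun_good hP hl T_3223 f0
theorem G_3222 (hP : P.ok) (hl : ¬ InB P loc) : FGood P h3222 :=
  frun_good hP hl T_3222 f0
theorem G_3221 (hP : P.ok) (hl : ¬ InB P loc) : FGood P h3221 :=
  frun_good hP hl T_3221 (fc (G_3222 hP hl) (fc (G_3223 hP hl) (fc (G_3224 hP hl) f0)))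
theorem G_3220 (hP : P.ok) (hl : ¬ InB P loc) : FGood P h3220 :=
  frun_good hP hl T_3220 f0
theorem G_3219 (hP : P.ok) (hl : ¬ InB P loc) : FGood P h3219 :=
  frun_good hP hl T_3219 f0
theorem G_3218 (hP : P.ok) (hl : ¬ InB P loc) : FGood P h3218 :=
  frun_good hP hl T_3218 (fc (G_3219 hP hl) (fc (G_3220 hP hl) (fc (G_3221 hP hl) f0)))
theorem G_3217 (hP : P.ok) (hl : ¬ InB P loc) : FGood P h3217 :=
  frun_good hP hl T_3217 f0
theorem G_3216 (hP : P.ok) (hl : ¬ InB P loc) : FGood P h3216 :=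
  frun_good hP hl T_3216 f0
theorem G_3215 (hP : P.ok) (hl : ¬ InB P loc) : FGood P h3215 :=
  frun_good hP hl T_3215 (fc (G_3216 hP hl) f0)
theorem G_3214 (hP : P.ok) (hl : ¬ InB P loc) : FGood P h3214 :=
  frun_good hP hl T_3214 f0
theorem G_3213 (hP : P.ok) (hl : ¬ InB P loc) : FGood P h3213 :=
  frun_good hP hl T_3213 f0
theorem G_3212 (hP : P.ok) (hl : ¬ InB P loc) : FGood P h3212 :=
  frun_good hP hl T_3212 (fc (G_3214 hP hl) f0)
theorem G_3211 (hP : P.ok) (hl : ¬ InB P loc) : FGood P h3211 :=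
  frun_good hP hl T_3211 (fc (G_3212 hP hl) (fc (G_3213 hP hl) f0))
theorem G_3210 (hP : P.ok) (hl : ¬ InB P loc) : FGood P h3210 :=
  frun_good hP hl T_3210 f0
theorem G_3209 (hP : P.ok) (hl : ¬ InB P loc) : FGood P h3209 :=
  frun_good hP hl T_3209 (fc (G_3210 hP hl) f0)
theorem G_3208 (hP : P.ok) (hl : ¬ InB P loc) : FGood P h3208 :=
  frun_good hP hl T_3208 (fc (G_3209 hP hl) f0)
theorem G_3207 (hP : P.ok) (hl : ¬ InB P loc) : FGood P h3207 :=
  frun_good hP hl T_3207 f0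
theorem G_3206 (hP : P.ok) (hl : ¬ InB P loc) : FGood P h3206 :=
  frun_good hP hl T_3206 (fc (G_3207 hP hl) (fc (G_3208 hP hl) f0))
theorem G_3205 (hP : P.ok) (hl : ¬ InB P loc) : FGood P h3205 :=
  frun_good hP hl T_3205 f0
theorem G_3204 (hP : P.ok) (hl : ¬ InB P loc) : FGood P h3204 :=
  frun_good hP hl T_3204 f0
theorem G_3203 (hP : P.ok) (hl : ¬ InB P loc) : FGood P h3203 :=
  frun_good hP hl T_3203 f0
theorem G_3202 (hP : P.ok) (hl : ¬ InB P loc) : FGood P h3202 :=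
  frun_good hP hl T_3202 f0
theorem G_3201 (hP : P.ok) (hl : ¬ InB P loc) : FGood P h3201 :=
  frun_good hP hl T_3201 (fc (G_3204 hP hl) f0)
theorem G_3200 (hP : P.ok) (hl : ¬ InB P loc) : FGood P h3200 :=
  frun_good hP hl T_3200 (fc (G_3201 hP hl) (fc (G_3202 hP hl) (fc (G_3203 hP hl) f0)))
theorem G_3199 (hP : P.ok) (hl : ¬ InB P loc) : FGood P h3199 :=
  frun_good hP hl T_3199 f0
theorem G_3198 (hP : P.ok) (hl : ¬ InB P loc) : FGood P h3198 :=
  frun_good hP hl T_3198 (fc (G_3199 hP hl) f0)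
theorem G_3197 (hP : P.ok) (hl : ¬ InB P loc) : FGood P h3197 :=
  frun_good hP hl T_3197 f0
theorem G_3196 (hP : P.ok) (hl : ¬ InB P loc) : FGood P h3196 :=
  frun_good hP hl T_3196 (fc (G_3197 hP hl) (fc (G_3198 hP hl) f0))
theorem G_3195 (hP : P.ok) (hl : ¬ InB P loc) : FGood P h3195 :=
  frun_good hP hl T_3195 f0
theorem G_3194 (hP : P.ok) (hl : ¬ InB P loc) : FGood P h3194 :=
  frun_good hP hl T_3194 f0
theorem G_3193 (hP : P.ok) (hl : ¬ InB P loc) : FGood P h3193 :=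
  frun_good hP hl T_3193 (fc (G_3195 hP hl) f0)
theorem G_3192 (hP : P.ok) (hl : ¬ InB P loc) : FGood P h3192 :=
  frun_good hP hl T_3192 (fc (G_3194 hP hl) f0)
theorem G_3191 (hP : P.ok) (hl : ¬ InB P loc) : FGood P h3191 :=
  frun_good hP hl T_3191 (fc (G_3192 hP hl) (fc (G_3193 hP hl) f0))
theorem G_3190 (hP : P.ok) (hl : ¬ InB P loc) : FGood P h3190 :=
  frun_good hP hl T_3190 f0
theorem G_3189 (hP : P.ok) (hl : ¬ InB P loc) : FGood P h3189 :=
  frun_good hP hl T_3189 f0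
theorem G_3188 (hP : P.ok) (hl : ¬ InB P loc) : FGood P h3188 :=
  frun_good hP hl T_3188 f0
theorem G_3187 (hP : P.ok) (hl : ¬ InB P loc) : FGood P h3187 :=
  frun_good hP hl T_3187 (fc (G_3188 hP hl) (fc (G_3189 hP hl) (fc (G_3190 hP hl) f0)))
theorem G_3186 (hP : P.ok) (hl : ¬ InB P loc) : FGood P h3186 :=
  frun_good hP hl T_3186 f0
theorem G_3185 (hP : P.ok) (hl : ¬ InB P loc) : FGood P h3185 :=
  frun_good hP hl T_3185 f0
theorem G_3184 (hP : P.ok) (hl : ¬ InB P loc) : FGood P h3184 :=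
  frun_good hP hl T_3184 (fc (G_3185 hP hl) (fc (G_3186 hP hl) f0))
theorem G_3183 (hP : P.ok) (hl : ¬ InB P loc) : FGood P h3183 :=
  frun_good hP hl T_3183 (fc (G_3184 hP hl) f0)
theorem G_3182 (hP : P.ok) (hl : ¬ InB P loc) : FGood P h3182 :=
  frun_good hP hl T_3182 f0
theorem G_3181 (hP : P.ok) (hl : ¬ InB P loc) : FGood P h3181 :=
  frun_good hP hl T_3181 f0
theorem G_3180 (hP : P.ok) (hl : ¬ InB P loc) : FGood P h3180 :=
  frun_good hP hl T_3180 f0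
theorem G_3179 (hP : P.ok) (hl : ¬ InB P loc) : FGood P h3179 :=
  frun_good hP hl T_3179 (fc (G_3180 hP hl) f0)
theorem G_3178 (hP : P.ok) (hl : ¬ InB P loc) : FGood P h3178 :=
  frun_good hP hl T_3178 f0
theorem G_3177 (hP : P.ok) (hl : ¬ InB P loc) : FGood P h3177 :=
  frun_good hP hl T_3177 f0
theorem G_3176 (hP : P.ok) (hl : ¬ InB P loc) : FGood P h3176 :=
  frun_good hP hl T_3176 f0
theorem G_3175 (hP : P.ok) (hl : ¬ InB P loc) : FGood P h3175 :=
  frun_good hP hl T_3175 f0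
theorem G_3174 (hP : P.ok) (hl : ¬ InB P loc) : FGood P h3174 :=
  frun_good hP hl T_3174 (fc (G_3177 hP hl) f0)
theorem G_3173 (hP : P.ok) (hl : ¬ InB P loc) : FGood P h3173 :=
  frun_good hP hl T_3173 (fc (G_3176 hP hl) f0)
theorem G_3172 (hP : P.ok) (hl : ¬ InB P loc) : FGood P h3172 :=
  frun_good hP hl T_3172 f0
theorem G_3171 (hP : P.ok) (hl : ¬ InB P loc) : FGood P h3171 :=
  frun_good hP hl T_3171 f0
theorem G_3170 (hP : P.ok) (hl : ¬ InB P loc) : FGood P h3170 :=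
  frun_good hP hl T_3170 (fc (G_3171 hP hl) (fc (G_3172 hP hl) (fc (G_3173 hP hl) (fc (G_3174 hP hl) (fc (G_3175 hP hl) f0)))))
theorem G_3169 (hP : P.ok) (hl : ¬ InB P loc) : FGood P h3169 :=
  frun_good hP hl T_3169 f0
theorem G_3168 (hP : P.ok) (hl : ¬ InB P loc) : FGood P h3168 :=
  frun_good hP hl T_3168 f0
theorem G_3167 (hP : P.ok) (hl : ¬ InB P loc) : FGood P h3167 :=
  frun_good hP hl T_3167 f0
theorem G_3166 (hP : P.ok) (hl : ¬ InB P loc) : FGood P h3166 :=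
  frun_good hP hl T_3166 f0
theorem G_3165 (hP : P.ok) (hl : ¬ InB P loc) : FGood P h3165 :=
  frun_good hP hl T_3165 f0
theorem G_3164 (hP : P.ok) (hl : ¬ InB P loc) : FGood P h3164 :=
  frun_good hP hl T_3164 (fc (G_3168 hP hl) f0)
theorem G_3163 (hP : P.ok) (hl : ¬ InB P loc) : FGood P h3163 :=
  frun_good hP hl T_3163 (fc (G_3165 hP hl) (fc (G_3166 hP hl) (fc (G_3167 hP hl) f0)))
theorem G_3162 (hP : P.ok) (hl : ¬ InB P loc) : FGood P h3162 :=
  frun_good hP hl T_3162 (fc (G_3163 hP hl) (fc (G_3164 hP hl) f0))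
theorem G_3161 (hP : P.ok) (hl : ¬ InB P loc) : FGood P h3161 :=
  frun_good hP hl T_3161 f0
theorem G_3160 (hP : P.ok) (hl : ¬ InB P loc) : FGood P h3160 :=
  frun_good hP hl T_3160 (fc (G_3161 hP hl) (fc (G_3162 hP hl) f0))
theorem G_3159 (hP : P.ok) (hl : ¬ InB P loc) : FGood P h3159 :=
  frun_good hP hl T_3159 f0
theorem G_3158 (hP : P.ok) (hl : ¬ InB P loc) : FGood P h3158 :=
  frun_good hP hl T_3158 f0
theorem G_3157 (hP : P.ok) (hl : ¬ InB P loc) : FGood P h3157 :=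
  frun_good hP hl T_3157 (fc (G_3158 hP hl) (fc (G_3159 hP hl) f0))
theorem G_3156 (hP : P.ok) (hl : ¬ InB P loc) : FGood P h3156 :=
  frun_good hP hl T_3156 f0
theorem G_3155 (hP : P.ok) (hl : ¬ InB P loc) : FGood P h3155 :=
  frun_good hP hl T_3155 (fc (G_3156 hP hl) f0)
theorem G_3154 (hP : P.ok) (hl : ¬ InB P loc) : FGood P h3154 :=
  frun_good hP hl T_3154 (fc (G_3155 hP hl) f0)
theorem G_3153 (hP : P.ok) (hl : ¬ InB P loc) : FGood P h3153 :=
  frun_good hP hl T_3153 (fc (G_3154 hP hl) f0)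
theorem G_3152 (hP : P.ok) (hl : ¬ InB P loc) : FGood P h3152 :=
  frun_good hP hl T_3152 f0
theorem G_3151 (hP : P.ok) (hl : ¬ InB P loc) : FGood P h3151 :=
  frun_good hP hl T_3151 f0
theorem G_3150 (hP : P.ok) (hl : ¬ InB P loc) : FGood P h3150 :=
  frun_good hP hl T_3150 (fc (G_3151 hP hl) f0)
theorem G_3149 (hP : P.ok) (hl : ¬ InB P loc) : FGood P h3149 :=
  frun_good hP hl T_3149 (fc (G_3150 hP hl) f0)
theorem G_3148 (hP : P.ok) (hl : ¬ InB P loc) : FGood P h3148 :=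
  frun_good hP hl T_3148 f0
theorem G_3147 (hP : P.ok) (hl : ¬ InB P loc) : FGood P h3147 :=
  frun_good hP hl T_3147 f0
theorem G_3146 (hP : P.ok) (hl : ¬ InB P loc) : FGood P h3146 :=
  frun_good hP hl T_3146 f0
theorem G_3145 (hP : P.ok) (hl : ¬ InB P loc) : FGood P h3145 :=
  frun_good hP hl T_3145 f0
theorem G_3144 (hP : P.ok) (hl : ¬ InB P loc) : FGood P h3144 :=
  frun_good hP hl T_3144 (fc (G_3146 hP hl) f0)
theorem G_3143 (hP : P.ok) (hl : ¬ InB P loc) : FGood P h3143 :=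
  frun_good hP hl T_3143 (fc (G_3145 hP hl) f0)
theorem G_3142 (hP : P.ok) (hl : ¬ InB P loc) : FGood P h3142 :=
  frun_good hP hl T_3142 f0
theorem G_3141 (hP : P.ok) (hl : ¬ InB P loc) : FGood P h3141 :=
  frun_good hP hl T_3141 (fc (G_3144 hP hl) f0)
theorem G_3140 (hP : P.ok) (hl : ¬ InB P loc) : FGood P h3140 :=
  frun_good hP hl T_3140 (fc (G_3143 hP hl) f0)
theorem G_3139 (hP : P.ok) (hl : ¬ InB P loc) : FGood P h3139 :=
  frun_good hP hl T_3139 (fc (G_3140 hP hl) (fc (G_3141 hP hl) (fc (G_3142 hP hl) f0)))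
theorem G_3138 (hP : P.ok) (hl : ¬ InB P loc) : FGood P h3138 :=
  frun_good hP hl T_3138 f0
theorem G_3137 (hP : P.ok) (hl : ¬ InB P loc) : FGood P h3137 :=
  frun_good hP hl T_3137 (fc (G_3138 hP hl) f0)
theorem G_3136 (hP : P.ok) (hl : ¬ InB P loc) : FGood P h3136 :=
  frun_good hP hl T_3136 f0
theorem G_3135 (hP : P.ok) (hl : ¬ InB P loc) : FGood P h3135 :=
  frun_good hP hl T_3135 (fc (G_3136 hP hl) (fc (G_3137 hP hl) f0))
theorem G_3134 (hP : P.ok) (hl : ¬ InB P loc) : FGood P h3134 :=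
  frun_good hP hl T_3134 f0
theorem G_3133 (hP : P.ok) (hl : ¬ InB P loc) : FGood P h3133 :=
  frun_good hP hl T_3133 f0
theorem G_3132 (hP : P.ok) (hl : ¬ InB P loc) : FGood P h3132 :=
  frun_good hP hl T_3132 f0
theorem G_3131 (hP : P.ok) (hl : ¬ InB P loc) : FGood P h3131 :=
  frun_good hP hl T_3131 f0
theorem G_3130 (hP : P.ok) (hl : ¬ InB P loc) : FGood P h3130 :=
  frun_good hP hl T_3130 (fc (G_3131 hP hl) (fc (G_3132 hP hl) (fc (G_3133 hP hl) f0)))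
theorem G_3129 (hP : P.ok) (hl : ¬ InB P loc) : FGood P h3129 :=
  frun_good hP hl T_3129 f0
theorem G_3128 (hP : P.ok) (hl : ¬ InB P loc) : FGood P h3128 :=
  frun_good hP hl T_3128 f0
theorem G_3127 (hP : P.ok) (hl : ¬ InB P loc) : FGood P h3127 :=
  frun_good hP hl T_3127 f0
theorem G_3126 (hP : P.ok) (hl : ¬ InB P loc) : FGood P h3126 :=
  frun_good hP hl T_3126 f0
theorem G_3125 (hP : P.ok) (hl : ¬ InB P loc) : FGood P h3125 :=
  frun_good hP hl T_3125 f0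
theorem G_3124 (hP : P.ok) (hl : ¬ InB P loc) : FGood P h3124 :=
  frun_good hP hl T_3124 f0
theorem G_3123 (hP : P.ok) (hl : ¬ InB P loc) : FGood P h3123 :=
  frun_good hP hl T_3123 f0
theorem G_3122 (hP : P.ok) (hl : ¬ InB P loc) : FGood P h3122 :=
  frun_good hP hl T_3122 f0
theorem G_3121 (hP : P.ok) (hl : ¬ InB P loc) : FGood P h3121 :=
  frun_good hP hl T_3121 (fc (G_3125 hP hl) f0)
theorem G_3120 (hP : P.ok) (hl : ¬ InB P loc) : FGood P h3120 :=
  frun_good hP hl T_3120 (fc (G_3121 hP hl) (fc (G_3122 hP hl) (fc (G_3123 hP hl) (fc (G_3124 hP hl) f0))))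
theorem G_3119 (hP : P.ok) (hl : ¬ InB P loc) : FGood P h3119 :=
  frun_good hP hl T_3119 f0
theorem G_3118 (hP : P.ok) (hl : ¬ InB P loc) : FGood P h3118 :=
  frun_good hP hl T_3118 f0
theorem G_3117 (hP : P.ok) (hl : ¬ InB P loc) : FGood P h3117 :=
  frun_good hP hl T_3117 f0
theorem G_3116 (hP : P.ok) (hl : ¬ InB P loc) : FGood P h3116 :=
  frun_good hP hl T_3116 (fc (G_3117 hP hl) f0)
theorem G_3115 (hP : P.ok) (hl : ¬ InB P loc) : FGood P h3115 :=
  frun_good hP hl T_3115 f0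
theorem G_3114 (hP : P.ok) (hl : ¬ InB P loc) : FGood P h3114 :=
  frun_good hP hl T_3114 (fc (G_3115 hP hl) f0)
theorem G_3113 (hP : P.ok) (hl : ¬ InB P loc) : FGood P h3113 :=
  frun_good hP hl T_3113 f0
theorem G_3112 (hP : P.ok) (hl : ¬ InB P loc) : FGood P h3112 :=
  frun_good hP hl T_3112 (fc (G_3113 hP hl) f0)
theorem G_3111 (hP : P.ok) (hl : ¬ InB P loc) : FGood P h3111 :=
  frun_good hP hl T_3111 f0
theorem G_3110 (hP : P.ok) (hl : ¬ InB P loc) : FGood P h3110 :=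
  frun_good hP hl T_3110 f0
theorem G_3109 (hP : P.ok) (hl : ¬ InB P loc) : FGood P h3109 :=
  frun_good hP hl T_3109 f0
theorem G_3108 (hP : P.ok) (hl : ¬ InB P loc) : FGood P h3108 :=
  frun_good hP hl T_3108 (fc (G_3111 hP hl) f0)
theorem G_3107 (hP : P.ok) (hl : ¬ InB P loc) : FGood P h3107 :=
  frun_good hP hl T_3107 (fc (G_3109 hP hl) (fc (G_3110 hP hl) f0))
theorem G_3106 (hP : P.ok) (hl : ¬ InB P loc) : FGood P h3106 :=
  frun_good hP hl T_3106 (fc (G_3108 hP hl) f0)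
theorem G_3105 (hP : P.ok) (hl : ¬ InB P loc) : FGood P h3105 :=
  frun_good hP hl T_3105 (fc (G_3106 hP hl) (fc (G_3107 hP hl) f0))
theorem G_3104 (hP : P.ok) (hl : ¬ InB P loc) : FGood P h3104 :=
  frun_good hP hl T_3104 f0
theorem G_3103 (hP : P.ok) (hl : ¬ InB P loc) : FGood P h3103 :=
  frun_good hP hl T_3103 f0
theorem G_3102 (hP : P.ok) (hl : ¬ InB P loc) : FGood P h3102 :=
  frun_good hP hl T_3102 f0
theorem G_3101 (hP : P.ok) (hl : ¬ InB P loc) : FGood P h3101 :=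
  frun_good hP hl T_3101 f0
theorem G_3100 (hP : P.ok) (hl : ¬ InB P loc) : FGood P h3100 :=
  frun_good hP hl T_3100 f0
theorem G_3099 (hP : P.ok) (hl : ¬ InB P loc) : FGood P h3099 :=
  frun_good hP hl T_3099 f0
theorem G_3098 (hP : P.ok) (hl : ¬ InB P loc) : FGood P h3098 :=
  frun_good hP hl T_3098 (fc (G_3099 hP hl) (fc (G_3100 hP hl) (fc (G_3101 hP hl) (fc (G_3102 hP hl) f0))))
theorem G_3097 (hP : P.ok) (hl : ¬ InB P loc) : FGood P h3097 :=
  frun_good hP hl T_3097 f0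
theorem G_3096 (hP : P.ok) (hl : ¬ InB P loc) : FGood P h3096 :=
  frun_good hP hl T_3096 f0
theorem G_3095 (hP : P.ok) (hl : ¬ InB P loc) : FGood P h3095 :=
  frun_good hP hl T_3095 f0
theorem G_3094 (hP : P.ok) (hl : ¬ InB P loc) : FGood P h3094 :=
  frun_good hP hl T_3094 (fc (G_3095 hP hl) f0)
theorem G_3093 (hP : P.ok) (hl : ¬ InB P loc) : FGood P h3093 :=
  frun_good hP hl T_3093 f0
theorem G_3092 (hP : P.ok) (hl : ¬ InB P loc) : FGood P h3092 :=
  frun_good hP hl T_3092 f0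
theorem G_3091 (hP : P.ok) (hl : ¬ InB P loc) : FGood P h3091 :=
  frun_good hP hl T_3091 (fc (G_3092 hP hl) f0)
theorem G_3090 (hP : P.ok) (hl : ¬ InB P loc) : FGood P h3090 :=
  frun_good hP hl T_3090 f0
theorem G_3089 (hP : P.ok) (hl : ¬ InB P loc) : FGood P h3089 :=
  frun_good hP hl T_3089 f0
theorem G_3088 (hP : P.ok) (hl : ¬ InB P loc) : FGood P h3088 :=
  frun_good hP hl T_3088 f0
theorem G_3087 (hP : P.ok) (hl : ¬ InB P loc) : FGood P h3087 :=
  frun_good hP hl T_3087 f0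
theorem G_3086 (hP : P.ok) (hl : ¬ InB P loc) : FGood P h3086 :=
  frun_good hP hl T_3086 f0
theorem G_3085 (hP : P.ok) (hl : ¬ InB P loc) : FGood P h3085 :=
  frun_good hP hl T_3085 f0
theorem G_3084 (hP : P.ok) (hl : ¬ InB P loc) : FGood P h3084 :=
  frun_good hP hl T_3084 f0
theorem G_3083 (hP : P.ok) (hl : ¬ InB P loc) : FGood P h3083 :=
  frun_good hP hl T_3083 (fc (G_3084 hP hl) (fc (G_3085 hP hl) (fc (G_3086 hP hl) f0)))
theorem G_3082 (hP : P.ok) (hl : ¬ InB P loc) : FGood P h3082 :=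
  frun_good hP hl T_3082 f0
theorem G_3081 (hP : P.ok) (hl : ¬ InB P loc) : FGood P h3081 :=
  frun_good hP hl T_3081 f0
theorem G_3080 (hP : P.ok) (hl : ¬ InB P loc) : FGood P h3080 :=
  frun_good hP hl T_3080 f0
theorem G_3079 (hP : P.ok) (hl : ¬ InB P loc) : FGood P h3079 :=
  frun_good hP hl T_3079 f0
theorem G_3078 (hP : P.ok) (hl : ¬ InB P loc) : FGood P h3078 :=
  frun_good hP hl T_3078 f0
theorem G_3077 (hP : P.ok) (hl : ¬ InB P loc) : FGood P h3077 :=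
  frun_good hP hl T_3077 f0
theorem G_3076 (hP : P.ok) (hl : ¬ InB P loc) : FGood P h3076 :=
  frun_good hP hl T_3076 (fc (G_3077 hP hl) (fc (G_3078 hP hl) f0))
theorem G_3075 (hP : P.ok) (hl : ¬ InB P loc) : FGood P h3075 :=
  frun_good hP hl T_3075 f0
theorem G_3074 (hP : P.ok) (hl : ¬ InB P loc) : FGood P h3074 :=
  frun_good hP hl T_3074 f0
theorem G_3073 (hP : P.ok) (hl : ¬ InB P loc) : FGood P h3073 :=
  frun_good hP hl T_3073 f0
theorem G_3072 (hP : P.ok) (hl : ¬ InB P loc) : FGood P h3072 :=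
  frun_good hP hl T_3072 f0
theorem G_3071 (hP : P.ok) (hl : ¬ InB P loc) : FGood P h3071 :=
  frun_good hP hl T_3071 f0
theorem G_3070 (hP : P.ok) (hl : ¬ InB P loc) : FGood P h3070 :=
  frun_good hP hl T_3070 f0
theorem G_3069 (hP : P.ok) (hl : ¬ InB P loc) : FGood P h3069 :=
  frun_good hP hl T_3069 (fc (G_3070 hP hl) (fc (G_3071 hP hl) f0))
theorem G_3068 (hP : P.ok) (hl : ¬ InB P loc) : FGood P h3068 :=
  frun_good hP hl T_3068 (fc (G_3069 hP hl) f0)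
theorem G_3067 (hP : P.ok) (hl : ¬ InB P loc) : FGood P h3067 :=
  frun_good hP hl T_3067 f0
theorem G_3066 (hP : P.ok) (hl : ¬ InB P loc) : FGood P h3066 :=
  frun_good hP hl T_3066 f0
theorem G_3065 (hP : P.ok) (hl : ¬ InB P loc) : FGood P h3065 :=
  frun_good hP hl T_3065 f0
theorem G_3064 (hP : P.ok) (hl : ¬ InB P loc) : FGood P h3064 :=
  frun_good hP hl T_3064 f0
theorem G_3063 (hP : P.ok) (hl : ¬ InB P loc) : FGood P h3063 :=
  frun_good hP hl T_3063 f0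
theorem G_3062 (hP : P.ok) (hl : ¬ InB P loc) : FGood P h3062 :=
  frun_good hP hl T_3062 (fc (G_3064 hP hl) (fc (G_3065 hP hl) f0))
theorem G_3061 (hP : P.ok) (hl : ¬ InB P loc) : FGood P h3061 :=
  frun_good hP hl T_3061 (fc (G_3062 hP hl) (fc (G_3063 hP hl) f0))
theorem G_3060 (hP : P.ok) (hl : ¬ InB P loc) : FGood P h3060 :=
  frun_good hP hl T_3060 f0
theorem G_3059 (hP : P.ok) (hl : ¬ InB P loc) : FGood P h3059 :=
  frun_good hP hl T_3059 (fc (G_3060 hP hl) f0)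
theorem G_3058 (hP : P.ok) (hl : ¬ InB P loc) : FGood P h3058 :=
  frun_good hP hl T_3058 (fc (G_3059 hP hl) f0)
theorem G_3057 (hP : P.ok) (hl : ¬ InB P loc) : FGood P h3057 :=
  frun_good hP hl T_3057 f0
theorem G_3056 (hP : P.ok) (hl : ¬ InB P loc) : FGood P h3056 :=
  frun_good hP hl T_3056 f0
theorem G_3055 (hP : P.ok) (hl : ¬ InB P loc) : FGood P h3055 :=
  frun_good hP hl T_3055 (fc (G_3057 hP hl) f0)
theorem G_3054 (hP : P.ok) (hl : ¬ InB P loc) : FGood P h3054 :=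
  frun_good hP hl T_3054 (fc (G_3055 hP hl) (fc (G_3056 hP hl) f0))
theorem G_3053 (hP : P.ok) (hl : ¬ InB P loc) : FGood P h3053 :=
  frun_good hP hl T_3053 f0
theorem G_3052 (hP : P.ok) (hl : ¬ InB P loc) : FGood P h3052 :=
  frun_good hP hl T_3052 f0
theorem G_3051 (hP : P.ok) (hl : ¬ InB P loc) : FGood P h3051 :=
  frun_good hP hl T_3051 (fc (G_3052 hP hl) (fc (G_3053 hP hl) f0))
theorem G_3050 (hP : P.ok) (hl : ¬ InB P loc) : FGood P h3050 :=
  frun_good hP hl T_3050 f0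
theorem G_3049 (hP : P.ok) (hl : ¬ InB P loc) : FGood P h3049 :=
  frun_good hP hl T_3049 f0
theorem G_3048 (hP : P.ok) (hl : ¬ InB P loc) : FGood P h3048 :=
  frun_good hP hl T_3048 (fc (G_3049 hP hl) (fc (G_3050 hP hl) f0))
theorem G_3047 (hP : P.ok) (hl : ¬ InB P loc) : FGood P h3047 :=
  frun_good hP hl T_3047 f0
theorem G_3046 (hP : P.ok) (hl : ¬ InB P loc) : FGood P h3046 :=
  frun_good hP hl T_3046 f0
theorem G_3045 (hP : P.ok) (hl : ¬ InB P loc) : FGood P h3045 :=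
  frun_good hP hl T_3045 f0
theorem G_3044 (hP : P.ok) (hl : ¬ InB P loc) : FGood P h3044 :=
  frun_good hP hl T_3044 (fc (G_3045 hP hl) f0)
theorem G_3043 (hP : P.ok) (hl : ¬ InB P loc) : FGood P h3043 :=
  frun_good hP hl T_3043 (fc (G_3044 hP hl) f0)
theorem G_3042 (hP : P.ok) (hl : ¬ InB P loc) : FGood P h3042 :=
  frun_good hP hl T_3042 f0
theorem G_3041 (hP : P.ok) (hl : ¬ InB P loc) : FGood P h3041 :=
  frun_good hP hl T_3041 f0
theorem G_3040 (hP : P.ok) (hl : ¬ InB P loc) : FGood P h3040 :=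
  frun_good hP hl T_3040 (fc (G_3041 hP hl) (fc (G_3042 hP hl) f0))
theorem G_3039 (hP : P.ok) (hl : ¬ InB P loc) : FGood P h3039 :=
  frun_good hP hl T_3039 f0
theorem G_3038 (hP : P.ok) (hl : ¬ InB P loc) : FGood P h3038 :=
  frun_good hP hl T_3038 f0
theorem G_3037 (hP : P.ok) (hl : ¬ InB P loc) : FGood P h3037 :=
  frun_good hP hl T_3037 f0
theorem G_3036 (hP : P.ok) (hl : ¬ InB P loc) : FGood P h3036 :=
  frun_good hP hl T_3036 f0
theorem G_3035 (hP : P.ok) (hl : ¬ InB P loc) : FGood P h3035 :=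
  frun_good hP hl T_3035 f0
theorem G_3034 (hP : P.ok) (hl : ¬ InB P loc) : FGood P h3034 :=
  frun_good hP hl T_3034 (fc (G_3035 hP hl) f0)
theorem G_3033 (hP : P.ok) (hl : ¬ InB P loc) : FGood P h3033 :=
  frun_good hP hl T_3033 f0
theorem G_3032 (hP : P.ok) (hl : ¬ InB P loc) : FGood P h3032 :=
  frun_good hP hl T_3032 (fc (G_3033 hP hl) f0)
theorem G_3031 (hP : P.ok) (hl : ¬ InB P loc) : FGood P h3031 :=
  frun_good hP hl T_3031 f0
theorem G_3030 (hP : P.ok) (hl : ¬ InB P loc) : FGood P h3030 :=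
  frun_good hP hl T_3030 f0
theorem G_3029 (hP : P.ok) (hl : ¬ InB P loc) : FGood P h3029 :=
  frun_good hP hl T_3029 f0
theorem G_3028 (hP : P.ok) (hl : ¬ InB P loc) : FGood P h3028 :=
  frun_good hP hl T_3028 (fc (G_3030 hP hl) (fc (G_3031 hP hl) f0))
theorem G_3027 (hP : P.ok) (hl : ¬ InB P loc) : FGood P h3027 :=
  frun_good hP hl T_3027 (fc (G_3029 hP hl) f0)
theorem G_3026 (hP : P.ok) (hl : ¬ InB P loc) : FGood P h3026 :=
  frun_good hP hl T_3026 (fc (G_3027 hP hl) (fc (G_3028 hP hl) f0))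
theorem G_3025 (hP : P.ok) (hl : ¬ InB P loc) : FGood P h3025 :=
  frun_good hP hl T_3025 (fc (G_3026 hP hl) f0)
theorem G_3024 (hP : P.ok) (hl : ¬ InB P loc) : FGood P h3024 :=
  frun_good hP hl T_3024 f0
theorem G_3023 (hP : P.ok) (hl : ¬ InB P loc) : FGood P h3023 :=
  frun_good hP hl T_3023 (fc (G_3024 hP hl) f0)
theorem G_3022 (hP : P.ok) (hl : ¬ InB P loc) : FGood P h3022 :=
  frun_good hP hl T_3022 f0
theorem G_3021 (hP : P.ok) (hl : ¬ InB P loc) : FGood P h3021 :=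
  frun_good hP hl T_3021 f0
theorem G_3020 (hP : P.ok) (hl : ¬ InB P loc) : FGood P h3020 :=
  frun_good hP hl T_3020 f0
theorem G_3019 (hP : P.ok) (hl : ¬ InB P loc) : FGood P h3019 :=
  frun_good hP hl T_3019 f0
theorem G_3018 (hP : P.ok) (hl : ¬ InB P loc) : FGood P h3018 :=
  frun_good hP hl T_3018 (fc (G_3019 hP hl) f0)
theorem G_3017 (hP : P.ok) (hl : ¬ InB P loc) : FGood P h3017 :=
  frun_good hP hl T_3017 (fc (G_3018 hP hl) f0)
theorem G_3016 (hP : P.ok) (hl : ¬ InB P loc) : FGood P h3016 :=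
  frun_good hP hl T_3016 f0
theorem G_3015 (hP : P.ok) (hl : ¬ InB P loc) : FGood P h3015 :=
  frun_good hP hl T_3015 f0
theorem G_3014 (hP : P.ok) (hl : ¬ InB P loc) : FGood P h3014 :=
  frun_good hP hl T_3014 f0
theorem G_3013 (hP : P.ok) (hl : ¬ InB P loc) : FGood P h3013 :=
  frun_good hP hl T_3013 (fc (G_3014 hP hl) (fc (G_3015 hP hl) (fc (G_3016 hP hl) f0)))
theorem G_3012 (hP : P.ok) (hl : ¬ InB P loc) : FGood P h3012 :=
  frun_good hP hl T_3012 (fc (G_3013 hP hl) f0)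
theorem G_3011 (hP : P.ok) (hl : ¬ InB P loc) : FGood P h3011 :=
  frun_good hP hl T_3011 f0
theorem G_3010 (hP : P.ok) (hl : ¬ InB P loc) : FGood P h3010 :=
  frun_good hP hl T_3010 (fc (G_3011 hP hl) f0)
theorem G_3009 (hP : P.ok) (hl : ¬ InB P loc) : FGood P h3009 :=
  frun_good hP hl T_3009 f0
theorem G_3008 (hP : P.ok) (hl : ¬ InB P loc) : FGood P h3008 :=
  frun_good hP hl T_3008 f0
theorem G_3007 (hP : P.ok) (hl : ¬ InB P loc) : FGood P h3007 :=
  frun_good hP hl T_3007 f0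
theorem G_3006 (hP : P.ok) (hl : ¬ InB P loc) : FGood P h3006 :=
  frun_good hP hl T_3006 (fc (G_3008 hP hl) f0)
theorem G_3005 (hP : P.ok) (hl : ¬ InB P loc) : FGood P h3005 :=
  frun_good hP hl T_3005 (fc (G_3006 hP hl) (fc (G_3007 hP hl) f0))
theorem G_3004 (hP : P.ok) (hl : ¬ InB P loc) : FGood P h3004 :=
  frun_good hP hl T_3004 (fc (G_3005 hP hl) f0)
theorem G_3003 (hP : P.ok) (hl : ¬ InB P loc) : FGood P h3003 :=
  frun_good hP hl T_3003 (fc (G_3004 hP hl) f0)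
theorem G_3002 (hP : P.ok) (hl : ¬ InB P loc) : FGood P h3002 :=
  frun_good hP hl T_3002 f0
theorem G_3001 (hP : P.ok) (hl : ¬ InB P loc) : FGood P h3001 :=
  frun_good hP hl T_3001 f0
theorem G_3000 (hP : P.ok) (hl : ¬ InB P loc) : FGood P h3000 :=
  frun_good hP hl T_3000 (fc (G_3001 hP hl) f0)
theorem G_2999 (hP : P.ok) (hl : ¬ InB P loc) : FGood P h2999 :=
  frun_good hP hl T_2999 f0
theorem G_2998 (hP : P.ok) (hl : ¬ InB P loc) : FGood P h2998 :=
  frun_good hP hl T_2998 f0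
theorem G_2997 (hP : P.ok) (hl : ¬ InB P loc) : FGood P h2997 :=
  frun_good hP hl T_2997 f0
theorem G_2996 (hP : P.ok) (hl : ¬ InB P loc) : FGood P h2996 :=
  frun_good hP hl T_2996 f0
theorem G_2995 (hP : P.ok) (hl : ¬ InB P loc) : FGood P h2995 :=
  frun_good hP hl T_2995 (fc (G_2996 hP hl) (fc (G_2997 hP hl) (fc (G_2998 hP hl) (fc (G_2999 hP hl) (fc (G_3000 hP hl) f0)))))
theorem G_2994 (hP : P.ok) (hl : ¬ InB P loc) : FGood P h2994 :=
  frun_good hP hl T_2994 f0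
theorem G_2993 (hP : P.ok) (hl : ¬ InB P loc) : FGood P h2993 :=
  frun_good hP hl T_2993 f0
theorem G_2992 (hP : P.ok) (hl : ¬ InB P loc) : FGood P h2992 :=
  frun_good hP hl T_2992 (fc (G_2993 hP hl) (fc (G_2994 hP hl) f0))
theorem G_2991 (hP : P.ok) (hl : ¬ InB P loc) : FGood P h2991 :=
  frun_good hP hl T_2991 f0
theorem G_2990 (hP : P.ok) (hl : ¬ InB P loc) : FGood P h2990 :=
  frun_good hP hl T_2990 f0
theorem G_2989 (hP : P.ok) (hl : ¬ InB P loc) : FGood P h2989 :=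
  frun_good hP hl T_2989 f0
theorem G_2988 (hP : P.ok) (hl : ¬ InB P loc) : FGood P h2988 :=
  frun_good hP hl T_2988 (fc (G_2989 hP hl) f0)
theorem G_2987 (hP : P.ok) (hl : ¬ InB P loc) : FGood P h2987 :=
  frun_good hP hl T_2987 (fc (G_2988 hP hl) f0)
theorem G_2986 (hP : P.ok) (hl : ¬ InB P loc) : FGood P h2986 :=
  frun_good hP hl T_2986 f0
theorem G_2985 (hP : P.ok) (hl : ¬ InB P loc) : FGood P h2985 :=
  frun_good hP hl T_2985 (fc (G_2986 hP hl) (fc (G_2987 hP hl) f0))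
theorem G_2984 (hP : P.ok) (hl : ¬ InB P loc) : FGood P h2984 :=
  frun_good hP hl T_2984 f0
theorem G_2983 (hP : P.ok) (hl : ¬ InB P loc) : FGood P h2983 :=
  frun_good hP hl T_2983 f0
theorem G_2982 (hP : P.ok) (hl : ¬ InB P loc) : FGood P h2982 :=
  frun_good hP hl T_2982 f0
theorem G_2981 (hP : P.ok) (hl : ¬ InB P loc) : FGood P h2981 :=
  frun_good hP hl T_2981 f0
theorem G_2980 (hP : P.ok) (hl : ¬ InB P loc) : FGood P h2980 :=
  frun_good hP hl T_2980 (fc (G_2984 hP hl) f0)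
theorem G_2979 (hP : P.ok) (hl : ¬ InB P loc) : FGood P h2979 :=
  frun_good hP hl T_2979 (fc (G_2982 hP hl) (fc (G_2983 hP hl) f0))
theorem G_2978 (hP : P.ok) (hl : ¬ InB P loc) : FGood P h2978 :=
  frun_good hP hl T_2978 (fc (G_2980 hP hl) (fc (G_2981 hP hl) f0))
theorem G_2977 (hP : P.ok) (hl : ¬ InB P loc) : FGood P h2977 :=
  frun_good hP hl T_2977 (fc (G_2978 hP hl) (fc (G_2979 hP hl) f0))
theorem G_2976 (hP : P.ok) (hl : ¬ InB P loc) : FGood P h2976 :=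
  frun_good hP hl T_2976 f0
theorem G_2975 (hP : P.ok) (hl : ¬ InB P loc) : FGood P h2975 :=
  frun_good hP hl T_2975 f0
theorem G_2974 (hP : P.ok) (hl : ¬ InB P loc) : FGood P h2974 :=
  frun_good hP hl T_2974 f0
theorem G_2973 (hP : P.ok) (hl : ¬ InB P loc) : FGood P h2973 :=
  frun_good hP hl T_2973 (fc (G_2974 hP hl) f0)
theorem G_2972 (hP : P.ok) (hl : ¬ InB P loc) : FGood P h2972 :=
  frun_good hP hl T_2972 f0
theorem G_2971 (hP : P.ok) (hl : ¬ InB P loc) : FGood P h2971 :=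
  frun_good hP hl T_2971 f0
theorem G_2970 (hP : P.ok) (hl : ¬ InB P loc) : FGood P h2970 :=
  frun_good hP hl T_2970 (fc (G_2971 hP hl) (fc (G_2972 hP hl) f0))
theorem G_2969 (hP : P.ok) (hl : ¬ InB P loc) : FGood P h2969 :=
  frun_good hP hl T_2969 (fc (G_2970 hP hl) f0)
theorem G_2968 (hP : P.ok) (hl : ¬ InB P loc) : FGood P h2968 :=
  frun_good hP hl T_2968 (fc (G_2969 hP hl) f0)
theorem G_2967 (hP : P.ok) (hl : ¬ InB P loc) : FGood P h2967 :=
  frun_good hP hl T_2967 (fc (G_2968 hP hl) f0)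
theorem G_2966 (hP : P.ok) (hl : ¬ InB P loc) : FGood P h2966 :=
  frun_good hP hl T_2966 f0
theorem G_2965 (hP : P.ok) (hl : ¬ InB P loc) : FGood P h2965 :=
  frun_good hP hl T_2965 f0
theorem G_2964 (hP : P.ok) (hl : ¬ InB P loc) : FGood P h2964 :=
  frun_good hP hl T_2964 f0
theorem G_2963 (hP : P.ok) (hl : ¬ InB P loc) : FGood P h2963 :=
  frun_good hP hl T_2963 f0
theorem G_2962 (hP : P.ok) (hl : ¬ InB P loc) : FGood P h2962 :=
  frun_good hP hl T_2962 f0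
theorem G_2961 (hP : P.ok) (hl : ¬ InB P loc) : FGood P h2961 :=
  frun_good hP hl T_2961 f0
theorem G_2960 (hP : P.ok) (hl : ¬ InB P loc) : FGood P h2960 :=
  frun_good hP hl T_2960 (fc (G_2961 hP hl) f0)
theorem G_2959 (hP : P.ok) (hl : ¬ InB P loc) : FGood P h2959 :=
  frun_good hP hl T_2959 f0
theorem G_2958 (hP : P.ok) (hl : ¬ InB P loc) : FGood P h2958 :=
  frun_good hP hl T_2958 (fc (G_2959 hP hl) f0)
theorem G_2957 (hP : P.ok) (hl : ¬ InB P loc) : FGood P h2957 :=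
  frun_good hP hl T_2957 f0
theorem G_2956 (hP : P.ok) (hl : ¬ InB P loc) : FGood P h2956 :=
  frun_good hP hl T_2956 f0
theorem G_2955 (hP : P.ok) (hl : ¬ InB P loc) : FGood P h2955 :=
  frun_good hP hl T_2955 f0
theorem G_2954 (hP : P.ok) (hl : ¬ InB P loc) : FGood P h2954 :=
  frun_good hP hl T_2954 f0
theorem G_2953 (hP : P.ok) (hl : ¬ InB P loc) : FGood P h2953 :=
  frun_good hP hl T_2953 f0
theorem G_2952 (hP : P.ok) (hl : ¬ InB P loc) : FGood P h2952 :=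
  frun_good hP hl T_2952 f0
theorem G_2951 (hP : P.ok) (hl : ¬ InB P loc) : FGood P h2951 :=
  frun_good hP hl T_2951 (fc (G_2954 hP hl) (fc (G_2955 hP hl) f0))
theorem G_2950 (hP : P.ok) (hl : ¬ InB P loc) : FGood P h2950 :=
  frun_good hP hl T_2950 (fc (G_2951 hP hl) (fc (G_2952 hP hl) (fc (G_2953 hP hl) f0)))
theorem G_2949 (hP : P.ok) (hl : ¬ InB P loc) : FGood P h2949 :=
  frun_good hP hl T_2949 f0
theorem G_2948 (hP : P.ok) (hl : ¬ InB P loc) : FGood P h2948 :=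
  frun_good hP hl T_2948 (fc (G_2949 hP hl) f0)
theorem G_2947 (hP : P.ok) (hl : ¬ InB P loc) : FGood P h2947 :=
  frun_good hP hl T_2947 f0
theorem G_2946 (hP : P.ok) (hl : ¬ InB P loc) : FGood P h2946 :=
  frun_good hP hl T_2946 f0
theorem G_2945 (hP : P.ok) (hl : ¬ InB P loc) : FGood P h2945 :=
  frun_good hP hl T_2945 (fc (G_2947 hP hl) (fc (G_2948 hP hl) f0))
theorem G_2944 (hP : P.ok) (hl : ¬ InB P loc) : FGood P h2944 :=
  frun_good hP hl T_2944 (fc (G_2945 hP hl) (fc (G_2946 hP hl) f0))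
theorem G_2943 (hP : P.ok) (hl : ¬ InB P loc) : FGood P h2943 :=
  frun_good hP hl T_2943 (fc (G_2944 hP hl) f0)
theorem G_2942 (hP : P.ok) (hl : ¬ InB P loc) : FGood P h2942 :=
  frun_good hP hl T_2942 f0
theorem G_2941 (hP : P.ok) (hl : ¬ InB P loc) : FGood P h2941 :=
  frun_good hP hl T_2941 (fc (G_2942 hP hl) f0)
theorem G_2940 (hP : P.ok) (hl : ¬ InB P loc) : FGood P h2940 :=
  frun_good hP hl T_2940 f0
theorem G_2939 (hP : P.ok) (hl : ¬ InB P loc) : FGood P h2939 :=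
  frun_good hP hl T_2939 f0
theorem G_2938 (hP : P.ok) (hl : ¬ InB P loc) : FGood P h2938 :=
  frun_good hP hl T_2938 f0
theorem G_2937 (hP : P.ok) (hl : ¬ InB P loc) : FGood P h2937 :=
  frun_good hP hl T_2937 f0
theorem G_2936 (hP : P.ok) (hl : ¬ InB P loc) : FGood P h2936 :=
  frun_good hP hl T_2936 (fc (G_2937 hP hl) (fc (G_2938 hP hl) (fc (G_2939 hP hl) f0)))
theorem G_2935 (hP : P.ok) (hl : ¬ InB P loc) : FGood P h2935 :=
  frun_good hP hl T_2935 f0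
theorem G_2934 (hP : P.ok) (hl : ¬ InB P loc) : FGood P h2934 :=
  frun_good hP hl T_2934 f0
theorem G_2933 (hP : P.ok) (hl : ¬ InB P loc) : FGood P h2933 :=
  frun_good hP hl T_2933 f0
theorem G_2932 (hP : P.ok) (hl : ¬ InB P loc) : FGood P h2932 :=
  frun_good hP hl T_2932 (fc (G_2933 hP hl) f0)
theorem G_2931 (hP : P.ok) (hl : ¬ InB P loc) : FGood P h2931 :=
  frun_good hP hl T_2931 f0
theorem G_2930 (hP : P.ok) (hl : ¬ InB P loc) : FGood P h2930 :=
  frun_good hP hl T_2930 (fc (G_2931 hP hl) f0)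
theorem G_2929 (hP : P.ok) (hl : ¬ InB P loc) : FGood P h2929 :=
  frun_good hP hl T_2929 f0
theorem G_2928 (hP : P.ok) (hl : ¬ InB P loc) : FGood P h2928 :=
  frun_good hP hl T_2928 f0
theorem G_2927 (hP : P.ok) (hl : ¬ InB P loc) : FGood P h2927 :=
  frun_good hP hl T_2927 f0
theorem G_2926 (hP : P.ok) (hl : ¬ InB P loc) : FGood P h2926 :=
  frun_good hP hl T_2926 f0
theorem G_2925 (hP : P.ok) (hl : ¬ InB P loc) : FGood P h2925 :=
  frun_good hP hl T_2925 (fc (G_2926 hP hl) (fc (G_2927 hP hl) f0))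
theorem G_2924 (hP : P.ok) (hl : ¬ InB P loc) : FGood P h2924 :=
  frun_good hP hl T_2924 f0
theorem G_2923 (hP : P.ok) (hl : ¬ InB P loc) : FGood P h2923 :=
  frun_good hP hl T_2923 f0
theorem G_2922 (hP : P.ok) (hl : ¬ InB P loc) : FGood P h2922 :=
  frun_good hP hl T_2922 (fc (G_2923 hP hl) f0)
theorem G_2921 (hP : P.ok) (hl : ¬ InB P loc) : FGood P h2921 :=
  frun_good hP hl T_2921 f0
theorem G_2920 (hP : P.ok) (hl : ¬ InB P loc) : FGood P h2920 :=
  frun_good hP hl T_2920 f0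
theorem G_2919 (hP : P.ok) (hl : ¬ InB P loc) : FGood P h2919 :=
  frun_good hP hl T_2919 f0
theorem G_2918 (hP : P.ok) (hl : ¬ InB P loc) : FGood P h2918 :=
  frun_good hP hl T_2918 (fc (G_2919 hP hl) f0)
theorem G_2917 (hP : P.ok) (hl : ¬ InB P loc) : FGood P h2917 :=
  frun_good hP hl T_2917 f0
theorem G_2916 (hP : P.ok) (hl : ¬ InB P loc) : FGood P h2916 :=
  frun_good hP hl T_2916 f0

end

end Pool.Agent.Lib.MP_9d820d_co.Fast.A
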