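import Pool.Agent.Lib.MP_9d820d_co.FMain
import Pool.Agent.Lib.MP_9d820d_co.G.AC80
import Pool.Agent.Lib.MP_9d820d_co.G.AC81
import Pool.Agent.Lib.MP_9d820d_co.G.AC82
import Pool.Agent.Lib.MP_9d820d_co.G.AC83
import Pool.Agent.Lib.MP_9d820d_co.G.AC84
import Pool.Agent.Lib.MP_9d820d_co.G.AC85
import Pool.Agent.Lib.MP_9d820d_co.G.AC86
import Pool.Agent.Lib.MP_9d820d_co.G.AC87
import Pool.Agent.Lib.MP_9d820d_co.G.AC88
import Pool.Agent.Lib.MP_9d820d_co.G.AC89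
import Pool.Agent.Lib.MP_9d820d_co.G.AC90

set_option autoImplicit false

namespace Pool.Agent.Lib.MP_9d820d_co.Fast.A

noncomputable section

variable {P : Prm}

theorem G_3925 (hP : P.ok) (hl : ¬ InB P loc) : FGood P h3925 :=
  frun_good hP hl T_3925 f0
theorem G_3924 (hP : P.ok) (hl : ¬ InB P loc) : FGood P h3924 :=
  frun_good hP hl T_3924 f0
theorem G_3923 (hP : P.ok) (hl : ¬ InB P loc) : FGood P h3923 :=
  frun_good hP hl T_3923 f0
theorem G_3922 (hP : P.ok) (hl : ¬ InB P loc) : FGood P h3922 :=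
  frun_good hP hl T_3922 f0
theorem G_3921 (hP : P.ok) (hl : ¬ InB P loc) : FGood P h3921 :=
  frun_good hP hl T_3921 f0
theorem G_3920 (hP : P.ok) (hl : ¬ InB P loc) : FGood P h3920 :=
  frun_good hP hl T_3920 f0
theorem G_3919 (hP : P.ok) (hl : ¬ InB P loc) : FGood P h3919 :=
  frun_good hP hl T_3919 f0
theorem G_3918 (hP : P.ok) (hl : ¬ InB P loc) : FGood P h3918 :=
  frun_good hP hl T_3918 f0
theorem G_3917 (hP : P.ok) (hl : ¬ InB P loc) : FGood P h3917 :=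
  frun_good hP hl T_3917 f0
theorem G_3916 (hP : P.ok) (hl : ¬ InB P loc) : FGood P h3916 :=
  frun_good hP hl T_3916 f0
theorem G_3915 (hP : P.ok) (hl : ¬ InB P loc) : FGood P h3915 :=
  frun_good hP hl T_3915 f0
theorem G_3914 (hP : P.ok) (hl : ¬ InB P loc) : FGood P h3914 :=
  frun_good hP hl T_3914 f0
theorem G_3913 (hP : P.ok) (hl : ¬ InB P loc) : FGood P h3913 :=
  frun_good hP hl T_3913 (fc (G_3914 hP hl) (fc (G_3915 hP hl) (fc (G_3916 hP hl) (fc (G_3917 hP hl) (fc (G_3918 hP hl) (fc (G_3919 hP hl) (fc (G_3920 hP hl) (fc (G_3921 hP hl) (fc (G_3922 hP hl) (fc (G_3923 hP hl) (fc (G_3924 hP hl) (fc (G_3925 hP hl) f0))))))))))))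
theorem G_3912 (hP : P.ok) (hl : ¬ InB P loc) : FGood P h3912 :=
  frun_good hP hl T_3912 (fc (G_3913 hP hl) f0)
theorem G_3911 (hP : P.ok) (hl : ¬ InB P loc) : FGood P h3911 :=
  frun_good hP hl T_3911 f0
theorem G_3910 (hP : P.ok) (hl : ¬ InB P loc) : FGood P h3910 :=
  frun_good hP hl T_3910 f0
theorem G_3909 (hP : P.ok) (hl : ¬ InB P loc) : FGood P h3909 :=
  frun_good hP hl T_3909 f0
theorem G_3908 (hP : P.ok) (hl : ¬ InB P loc) : FGood P h3908 :=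
  frun_good hP hl T_3908 f0
theorem G_3907 (hP : P.ok) (hl : ¬ InB P loc) : FGood P h3907 :=
  frun_good hP hl T_3907 f0
theorem G_3906 (hP : P.ok) (hl : ¬ InB P loc) : FGood P h3906 :=
  frun_good hP hl T_3906 f0
theorem G_3905 (hP : P.ok) (hl : ¬ InB P loc) : FGood P h3905 :=
  frun_good hP hl T_3905 f0
theorem G_3904 (hP : P.ok) (hl : ¬ InB P loc) : FGood P h3904 :=
  frun_good hP hl T_3904 f0
theorem G_3903 (hP : P.ok) (hl : ¬ InB P loc) : FGood P h3903 :=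
  frun_good hP hl T_3903 f0
theorem G_3902 (hP : P.ok) (hl : ¬ InB P loc) : FGood P h3902 :=
  frun_good hP hl T_3902 f0
theorem G_3901 (hP : P.ok) (hl : ¬ InB P loc) : FGood P h3901 :=
  frun_good hP hl T_3901 f0
theorem G_3900 (hP : P.ok) (hl : ¬ InB P loc) : FGood P h3900 :=
  frun_good hP hl T_3900 f0
theorem G_3899 (hP : P.ok) (hl : ¬ InB P loc) : FGood P h3899 :=
  frun_good hP hl T_3899 f0
theorem G_3898 (hP : P.ok) (hl : ¬ InB P loc) : FGood P h3898 :=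
  frun_good hP hl T_3898 f0
theorem G_3897 (hP : P.ok) (hl : ¬ InB P loc) : FGood P h3897 :=
  frun_good hP hl T_3897 f0
theorem G_3896 (hP : P.ok) (hl : ¬ InB P loc) : FGood P h3896 :=
  frun_good hP hl T_3896 (fc (G_3897 hP hl) (fc (G_3898 hP hl) (fc (G_3899 hP hl) (fc (G_3900 hP hl) (fc (G_3901 hP hl) (fc (G_3902 hP hl) (fc (G_3903 hP hl) (fc (G_3904 hP hl) (fc (G_3905 hP hl) (fc (G_3906 hP hl) f0))))))))))
theorem G_3895 (hP : P.ok) (hl : ¬ InB P loc) : FGood P h3895 :=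
  frun_good hP hl T_3895 f0
theorem G_3894 (hP : P.ok) (hl : ¬ InB P loc) : FGood P h3894 :=
  frun_good hP hl T_3894 f0
theorem G_3893 (hP : P.ok) (hl : ¬ InB P loc) : FGood P h3893 :=
  frun_good hP hl T_3893 f0
theorem G_3892 (hP : P.ok) (hl : ¬ InB P loc) : FGood P h3892 :=
  frun_good hP hl T_3892 f0
theorem G_3891 (hP : P.ok) (hl : ¬ InB P loc) : FGood P h3891 :=
  frun_good hP hl T_3891 f0
theorem G_3890 (hP : P.ok) (hl : ¬ InB P loc) : FGood P h3890 :=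
  frun_good hP hl T_3890 f0
theorem G_3889 (hP : P.ok) (hl : ¬ InB P loc) : FGood P h3889 :=
  frun_good hP hl T_3889 f0
theorem G_3888 (hP : P.ok) (hl : ¬ InB P loc) : FGood P h3888 :=
  frun_good hP hl T_3888 f0
theorem G_3887 (hP : P.ok) (hl : ¬ InB P loc) : FGood P h3887 :=
  frun_good hP hl T_3887 f0
theorem G_3886 (hP : P.ok) (hl : ¬ InB P loc) : FGood P h3886 :=
  frun_good hP hl T_3886 f0
theorem G_3885 (hP : P.ok) (hl : ¬ InB P loc) : FGood P h3885 :=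
  frun_good hP hl T_3885 f0
theorem G_3884 (hP : P.ok) (hl : ¬ InB P loc) : FGood P h3884 :=
  frun_good hP hl T_3884 f0
theorem G_3883 (hP : P.ok) (hl : ¬ InB P loc) : FGood P h3883 :=
  frun_good hP hl T_3883 f0
theorem G_3882 (hP : P.ok) (hl : ¬ InB P loc) : FGood P h3882 :=
  frun_good hP hl T_3882 f0
theorem G_3881 (hP : P.ok) (hl : ¬ InB P loc) : FGood P h3881 :=
  frun_good hP hl T_3881 f0
theorem G_3880 (hP : P.ok) (hl : ¬ InB P loc) : FGood P h3880 :=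
  frun_good hP hl T_3880 f0
theorem G_3879 (hP : P.ok) (hl : ¬ InB P loc) : FGood P h3879 :=
  frun_good hP hl T_3879 f0
theorem G_3878 (hP : P.ok) (hl : ¬ InB P loc) : FGood P h3878 :=
  frun_good hP hl T_3878 f0
theorem G_3877 (hP : P.ok) (hl : ¬ InB P loc) : FGood P h3877 :=
  frun_good hP hl T_3877 f0
theorem G_3876 (hP : P.ok) (hl : ¬ InB P loc) : FGood P h3876 :=
  frun_good hP hl T_3876 f0
theorem G_3875 (hP : P.ok) (hl : ¬ InB P loc) : FGood P h3875 :=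
  frun_good hP hl T_3875 f0
theorem G_3874 (hP : P.ok) (hl : ¬ InB P loc) : FGood P h3874 :=
  frun_good hP hl T_3874 f0
theorem G_3873 (hP : P.ok) (hl : ¬ InB P loc) : FGood P h3873 :=
  frun_good hP hl T_3873 f0
theorem G_3872 (hP : P.ok) (hl : ¬ InB P loc) : FGood P h3872 :=
  frun_good hP hl T_3872 f0
theorem G_3871 (hP : P.ok) (hl : ¬ InB P loc) : FGood P h3871 :=
  frun_good hP hl T_3871 f0
theorem G_3870 (hP : P.ok) (hl : ¬ InB P loc) : FGood P h3870 :=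
  frun_good hP hl T_3870 f0
theorem G_3869 (hP : P.ok) (hl : ¬ InB P loc) : FGood P h3869 :=
  frun_good hP hl T_3869 f0
theorem G_3868 (hP : P.ok) (hl : ¬ InB P loc) : FGood P h3868 :=
  frun_good hP hl T_3868 f0
theorem G_3867 (hP : P.ok) (hl : ¬ InB P loc) : FGood P h3867 :=
  frun_good hP hl T_3867 f0
theorem G_3866 (hP : P.ok) (hl : ¬ InB P loc) : FGood P h3866 :=
  frun_good hP hl T_3866 f0
theorem G_3865 (hP : P.ok) (hl : ¬ InB P loc) : FGood P h3865 :=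
  frun_good hP hl T_3865 f0
theorem G_3864 (hP : P.ok) (hl : ¬ InB P loc) : FGood P h3864 :=
  frun_good hP hl T_3864 (fc (G_3892 hP hl) (fc (G_3893 hP hl) (fc (G_3894 hP hl) (fc (G_3895 hP hl) f0))))
theorem G_3863 (hP : P.ok) (hl : ¬ InB P loc) : FGood P h3863 :=
  frun_good hP hl T_3863 (fc (G_3882 hP hl) (fc (G_3883 hP hl) (fc (G_3884 hP hl) (fc (G_3885 hP hl) (fc (G_3886 hP hl) (fc (G_3887 hP hl) (fc (G_3888 hP hl) (fc (G_3889 hP hl) (fc (G_3890 hP hl) (fc (G_3891 hP hl) f0))))))))))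
theorem G_3862 (hP : P.ok) (hl : ¬ InB P loc) : FGood P h3862 :=
  frun_good hP hl T_3862 f0
theorem G_3861 (hP : P.ok) (hl : ¬ InB P loc) : FGood P h3861 :=
  frun_good hP hl T_3861 f0
theorem G_3860 (hP : P.ok) (hl : ¬ InB P loc) : FGood P h3860 :=
  frun_good hP hl T_3860 f0
theorem G_3859 (hP : P.ok) (hl : ¬ InB P loc) : FGood P h3859 :=
  frun_good hP hl T_3859 f0
theorem G_3858 (hP : P.ok) (hl : ¬ InB P loc) : FGood P h3858 :=
  frun_good hP hl T_3858 f0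
theorem G_3857 (hP : P.ok) (hl : ¬ InB P loc) : FGood P h3857 :=
  frun_good hP hl T_3857 f0
theorem G_3856 (hP : P.ok) (hl : ¬ InB P loc) : FGood P h3856 :=
  frun_good hP hl T_3856 f0
theorem G_3855 (hP : P.ok) (hl : ¬ InB P loc) : FGood P h3855 :=
  frun_good hP hl T_3855 f0
theorem G_3854 (hP : P.ok) (hl : ¬ InB P loc) : FGood P h3854 :=
  frun_good hP hl T_3854 f0
theorem G_3853 (hP : P.ok) (hl : ¬ InB P loc) : FGood P h3853 :=
  frun_good hP hl T_3853 f0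
theorem G_3852 (hP : P.ok) (hl : ¬ InB P loc) : FGood P h3852 :=
  frun_good hP hl T_3852 (fc (G_3865 hP hl) (fc (G_3866 hP hl) (fc (G_3867 hP hl) (fc (G_3868 hP hl) (fc (G_3869 hP hl) (fc (G_3870 hP hl) (fc (G_3871 hP hl) (fc (G_3872 hP hl) (fc (G_3873 hP hl) (fc (G_3874 hP hl) (fc (G_3875 hP hl) (fc (G_3876 hP hl) (fc (G_3877 hP hl) (fc (G_3878 hP hl) (fc (G_3879 hP hl) (fc (G_3880 hP hl) (fc (G_3881 hP hl) f0)))))))))))))))))
theorem G_3851 (hP : P.ok) (hl : ¬ InB P loc) : FGood P h3851 :=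
  frun_good hP hl T_3851 (fc (G_3852 hP hl) (fc (G_3853 hP hl) (fc (G_3854 hP hl) (fc (G_3855 hP hl) (fc (G_3856 hP hl) (fc (G_3857 hP hl) (fc (G_3858 hP hl) (fc (G_3859 hP hl) (fc (G_3860 hP hl) (fc (G_3861 hP hl) (fc (G_3862 hP hl) (fc (G_3863 hP hl) (fc (G_3864 hP hl) f0)))))))))))))
theorem G_3850 (hP : P.ok) (hl : ¬ InB P loc) : FGood P h3850 :=
  frun_good hP hl T_3850 f0
theorem G_3849 (hP : P.ok) (hl : ¬ InB P loc) : FGood P h3849 :=
  frun_good hP hl T_3849 f0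
theorem G_3848 (hP : P.ok) (hl : ¬ InB P loc) : FGood P h3848 :=
  frun_good hP hl T_3848 f0
theorem G_3847 (hP : P.ok) (hl : ¬ InB P loc) : FGood P h3847 :=
  frun_good hP hl T_3847 f0
theorem G_3846 (hP : P.ok) (hl : ¬ InB P loc) : FGood P h3846 :=
  frun_good hP hl T_3846 f0
theorem G_3845 (hP : P.ok) (hl : ¬ InB P loc) : FGood P h3845 :=
  frun_good hP hl T_3845 f0
theorem G_3844 (hP : P.ok) (hl : ¬ InB P loc) : FGood P h3844 :=
  frun_good hP hl T_3844 f0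
theorem G_3843 (hP : P.ok) (hl : ¬ InB P loc) : FGood P h3843 :=
  frun_good hP hl T_3843 f0
theorem G_3842 (hP : P.ok) (hl : ¬ InB P loc) : FGood P h3842 :=
  frun_good hP hl T_3842 f0
theorem G_3841 (hP : P.ok) (hl : ¬ InB P loc) : FGood P h3841 :=
  frun_good hP hl T_3841 f0
theorem G_3840 (hP : P.ok) (hl : ¬ InB P loc) : FGood P h3840 :=
  frun_good hP hl T_3840 f0
theorem G_3839 (hP : P.ok) (hl : ¬ InB P loc) : FGood P h3839 :=
  frun_good hP hl T_3839 f0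
theorem G_3838 (hP : P.ok) (hl : ¬ InB P loc) : FGood P h3838 :=
  frun_good hP hl T_3838 (fc (G_3839 hP hl) (fc (G_3840 hP hl) (fc (G_3841 hP hl) (fc (G_3842 hP hl) (fc (G_3843 hP hl) (fc (G_3844 hP hl) (fc (G_3845 hP hl) (fc (G_3846 hP hl) (fc (G_3847 hP hl) (fc (G_3848 hP hl) (fc (G_3849 hP hl) (fc (G_3850 hP hl) f0))))))))))))
theorem G_3837 (hP : P.ok) (hl : ¬ InB P loc) : FGood P h3837 :=
  frun_good hP hl T_3837 f0
theorem G_3836 (hP : P.ok) (hl : ¬ InB P loc) : FGood P h3836 :=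
  frun_good hP hl T_3836 f0
theorem G_3835 (hP : P.ok) (hl : ¬ InB P loc) : FGood P h3835 :=
  frun_good hP hl T_3835 f0
theorem G_3834 (hP : P.ok) (hl : ¬ InB P loc) : FGood P h3834 :=
  frun_good hP hl T_3834 f0
theorem G_3833 (hP : P.ok) (hl : ¬ InB P loc) : FGood P h3833 :=
  frun_good hP hl T_3833 f0
theorem G_3832 (hP : P.ok) (hl : ¬ InB P loc) : FGood P h3832 :=
  frun_good hP hl T_3832 f0
theorem G_3831 (hP : P.ok) (hl : ¬ InB P loc) : FGood P h3831 :=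
  frun_good hP hl T_3831 f0
theorem G_3830 (hP : P.ok) (hl : ¬ InB P loc) : FGood P h3830 :=
  frun_good hP hl T_3830 f0
theorem G_3829 (hP : P.ok) (hl : ¬ InB P loc) : FGood P h3829 :=
  frun_good hP hl T_3829 f0
theorem G_3828 (hP : P.ok) (hl : ¬ InB P loc) : FGood P h3828 :=
  frun_good hP hl T_3828 f0
theorem G_3827 (hP : P.ok) (hl : ¬ InB P loc) : FGood P h3827 :=
  frun_good hP hl T_3827 f0
theorem G_3826 (hP : P.ok) (hl : ¬ InB P loc) : FGood P h3826 :=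
  frun_good hP hl T_3826 f0
theorem G_3825 (hP : P.ok) (hl : ¬ InB P loc) : FGood P h3825 :=
  frun_good hP hl T_3825 f0
theorem G_3824 (hP : P.ok) (hl : ¬ InB P loc) : FGood P h3824 :=
  frun_good hP hl T_3824 (fc (G_3825 hP hl) (fc (G_3826 hP hl) (fc (G_3827 hP hl) (fc (G_3828 hP hl) (fc (G_3829 hP hl) (fc (G_3830 hP hl) (fc (G_3831 hP hl) (fc (G_3832 hP hl) (fc (G_3833 hP hl) (fc (G_3834 hP hl) (fc (G_3835 hP hl) (fc (G_3836 hP hl) (fc (G_3837 hP hl) f0)))))))))))))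
theorem G_3823 (hP : P.ok) (hl : ¬ InB P loc) : FGood P h3823 :=
  frun_good hP hl T_3823 f0
theorem G_3822 (hP : P.ok) (hl : ¬ InB P loc) : FGood P h3822 :=
  frun_good hP hl T_3822 f0
theorem G_3821 (hP : P.ok) (hl : ¬ InB P loc) : FGood P h3821 :=
  frun_good hP hl T_3821 f0
theorem G_3820 (hP : P.ok) (hl : ¬ InB P loc) : FGood P h3820 :=
  frun_good hP hl T_3820 f0
theorem G_3819 (hP : P.ok) (hl : ¬ InB P loc) : FGood P h3819 :=
  frun_good hP hl T_3819 (fc (G_3820 hP hl) (fc (G_3821 hP hl) (fc (G_3822 hP hl) (fc (G_3823 hP hl) f0))))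
theorem G_3818 (hP : P.ok) (hl : ¬ InB P loc) : FGood P h3818 :=
  frun_good hP hl T_3818 f0
theorem G_3817 (hP : P.ok) (hl : ¬ InB P loc) : FGood P h3817 :=
  frun_good hP hl T_3817 f0
theorem G_3816 (hP : P.ok) (hl : ¬ InB P loc) : FGood P h3816 :=
  frun_good hP hl T_3816 f0
theorem G_3815 (hP : P.ok) (hl : ¬ InB P loc) : FGood P h3815 :=
  frun_good hP hl T_3815 f0
theorem G_3814 (hP : P.ok) (hl : ¬ InB P loc) : FGood P h3814 :=
  frun_good hP hl T_3814 f0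
theorem G_3813 (hP : P.ok) (hl : ¬ InB P loc) : FGood P h3813 :=
  frun_good hP hl T_3813 f0
theorem G_3812 (hP : P.ok) (hl : ¬ InB P loc) : FGood P h3812 :=
  frun_good hP hl T_3812 f0
theorem G_3811 (hP : P.ok) (hl : ¬ InB P loc) : FGood P h3811 :=
  frun_good hP hl T_3811 f0
theorem G_3810 (hP : P.ok) (hl : ¬ InB P loc) : FGood P h3810 :=
  frun_good hP hl T_3810 f0
theorem G_3809 (hP : P.ok) (hl : ¬ InB P loc) : FGood P h3809 :=
  frun_good hP hl T_3809 (fc (G_3810 hP hl) (fc (G_3811 hP hl) (fc (G_3812 hP hl) (fc (G_3813 hP hl) (fc (G_3814 hP hl) (fc (G_3815 hP hl) (fc (G_3816 hP hl) (fc (G_3817 hP hl) (fc (G_3818 hP hl) f0)))))))))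
theorem G_3808 (hP : P.ok) (hl : ¬ InB P loc) : FGood P h3808 :=
  frun_good hP hl T_3808 f0
theorem G_3807 (hP : P.ok) (hl : ¬ InB P loc) : FGood P h3807 :=
  frun_good hP hl T_3807 f0
theorem G_3806 (hP : P.ok) (hl : ¬ InB P loc) : FGood P h3806 :=
  frun_good hP hl T_3806 f0
theorem G_3805 (hP : P.ok) (hl : ¬ InB P loc) : FGood P h3805 :=
  frun_good hP hl T_3805 f0
theorem G_3804 (hP : P.ok) (hl : ¬ InB P loc) : FGood P h3804 :=
  frun_good hP hl T_3804 f0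
theorem G_3803 (hP : P.ok) (hl : ¬ InB P loc) : FGood P h3803 :=
  frun_good hP hl T_3803 f0
theorem G_3802 (hP : P.ok) (hl : ¬ InB P loc) : FGood P h3802 :=
  frun_good hP hl T_3802 f0
theorem G_3801 (hP : P.ok) (hl : ¬ InB P loc) : FGood P h3801 :=
  frun_good hP hl T_3801 f0
theorem G_3800 (hP : P.ok) (hl : ¬ InB P loc) : FGood P h3800 :=
  frun_good hP hl T_3800 f0
theorem G_3799 (hP : P.ok) (hl : ¬ InB P loc) : FGood P h3799 :=
  frun_good hP hl T_3799 f0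
theorem G_3798 (hP : P.ok) (hl : ¬ InB P loc) : FGood P h3798 :=
  frun_good hP hl T_3798 f0
theorem G_3797 (hP : P.ok) (hl : ¬ InB P loc) : FGood P h3797 :=
  frun_good hP hl T_3797 f0
theorem G_3796 (hP : P.ok) (hl : ¬ InB P loc) : FGood P h3796 :=
  frun_good hP hl T_3796 f0
theorem G_3795 (hP : P.ok) (hl : ¬ InB P loc) : FGood P h3795 :=
  frun_good hP hl T_3795 f0
theorem G_3794 (hP : P.ok) (hl : ¬ InB P loc) : FGood P h3794 :=
  frun_good hP hl T_3794 f0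
theorem G_3793 (hP : P.ok) (hl : ¬ InB P loc) : FGood P h3793 :=
  frun_good hP hl T_3793 f0
theorem G_3792 (hP : P.ok) (hl : ¬ InB P loc) : FGood P h3792 :=
  frun_good hP hl T_3792 f0
theorem G_3791 (hP : P.ok) (hl : ¬ InB P loc) : FGood P h3791 :=
  frun_good hP hl T_3791 f0
theorem G_3790 (hP : P.ok) (hl : ¬ InB P loc) : FGood P h3790 :=
  frun_good hP hl T_3790 f0
theorem G_3789 (hP : P.ok) (hl : ¬ InB P loc) : FGood P h3789 :=
  frun_good hP hl T_3789 f0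
theorem G_3788 (hP : P.ok) (hl : ¬ InB P loc) : FGood P h3788 :=
  frun_good hP hl T_3788 f0
theorem G_3787 (hP : P.ok) (hl : ¬ InB P loc) : FGood P h3787 :=
  frun_good hP hl T_3787 f0
theorem G_3786 (hP : P.ok) (hl : ¬ InB P loc) : FGood P h3786 :=
  frun_good hP hl T_3786 f0
theorem G_3785 (hP : P.ok) (hl : ¬ InB P loc) : FGood P h3785 :=
  frun_good hP hl T_3785 (fc (G_3799 hP hl) f0)
theorem G_3784 (hP : P.ok) (hl : ¬ InB P loc) : FGood P h3784 :=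
  frun_good hP hl T_3784 (fc (G_3785 hP hl) (fc (G_3786 hP hl) (fc (G_3787 hP hl) (fc (G_3788 hP hl) (fc (G_3789 hP hl) (fc (G_3790 hP hl) (fc (G_3791 hP hl) (fc (G_3792 hP hl) (fc (G_3793 hP hl) (fc (G_3794 hP hl) (fc (G_3795 hP hl) (fc (G_3796 hP hl) (fc (G_3797 hP hl) (fc (G_3798 hP hl) f0))))))))))))))
theorem G_3783 (hP : P.ok) (hl : ¬ InB P loc) : FGood P h3783 :=
  frun_good hP hl T_3783 f0
theorem G_3782 (hP : P.ok) (hl : ¬ InB P loc) : FGood P h3782 :=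
  frun_good hP hl T_3782 f0
theorem G_3781 (hP : P.ok) (hl : ¬ InB P loc) : FGood P h3781 :=
  frun_good hP hl T_3781 (fc (G_3782 hP hl) (fc (G_3783 hP hl) f0))
theorem G_3780 (hP : P.ok) (hl : ¬ InB P loc) : FGood P h3780 :=
  frun_good hP hl T_3780 f0
theorem G_3779 (hP : P.ok) (hl : ¬ InB P loc) : FGood P h3779 :=
  frun_good hP hl T_3779 (fc (G_3780 hP hl) f0)
theorem G_3778 (hP : P.ok) (hl : ¬ InB P loc) : FGood P h3778 :=
  frun_good hP hl T_3778 f0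
theorem G_3777 (hP : P.ok) (hl : ¬ InB P loc) : FGood P h3777 :=
  frun_good hP hl T_3777 f0
theorem G_3776 (hP : P.ok) (hl : ¬ InB P loc) : FGood P h3776 :=
  frun_good hP hl T_3776 (fc (G_3779 hP hl) f0)
theorem G_3775 (hP : P.ok) (hl : ¬ InB P loc) : FGood P h3775 :=
  frun_good hP hl T_3775 (fc (G_3777 hP hl) (fc (G_3778 hP hl) f0))
theorem G_3774 (hP : P.ok) (hl : ¬ InB P loc) : FGood P h3774 :=
  frun_good hP hl T_3774 f0
theorem G_3773 (hP : P.ok) (hl : ¬ InB P loc) : FGood P h3773 :=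
  frun_good hP hl T_3773 f0
theorem G_3772 (hP : P.ok) (hl : ¬ InB P loc) : FGood P h3772 :=
  frun_good hP hl T_3772 (fc (G_3773 hP hl) (fc (G_3774 hP hl) (fc (G_3775 hP hl) (fc (G_3776 hP hl) f0))))
theorem G_3771 (hP : P.ok) (hl : ¬ InB P loc) : FGood P h3771 :=
  frun_good hP hl T_3771 f0
theorem G_3770 (hP : P.ok) (hl : ¬ InB P loc) : FGood P h3770 :=
  frun_good hP hl T_3770 (fc (G_3771 hP hl) f0)
theorem G_3769 (hP : P.ok) (hl : ¬ InB P loc) : FGood P h3769 :=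
  frun_good hP hl T_3769 (fc (G_3770 hP hl) f0)
theorem G_3768 (hP : P.ok) (hl : ¬ InB P loc) : FGood P h3768 :=
  frun_good hP hl T_3768 f0
theorem G_3767 (hP : P.ok) (hl : ¬ InB P loc) : FGood P h3767 :=
  frun_good hP hl T_3767 f0
theorem G_3766 (hP : P.ok) (hl : ¬ InB P loc) : FGood P h3766 :=
  frun_good hP hl T_3766 (fc (G_3767 hP hl) (fc (G_3768 hP hl) f0))
theorem G_3765 (hP : P.ok) (hl : ¬ InB P loc) : FGood P h3765 :=
  frun_good hP hl T_3765 (fc (G_3766 hP hl) f0)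
theorem G_3764 (hP : P.ok) (hl : ¬ InB P loc) : FGood P h3764 :=
  frun_good hP hl T_3764 f0
theorem G_3763 (hP : P.ok) (hl : ¬ InB P loc) : FGood P h3763 :=
  frun_good hP hl T_3763 f0
theorem G_3762 (hP : P.ok) (hl : ¬ InB P loc) : FGood P h3762 :=
  frun_good hP hl T_3762 f0
theorem G_3761 (hP : P.ok) (hl : ¬ InB P loc) : FGood P h3761 :=
  frun_good hP hl T_3761 f0
theorem G_3760 (hP : P.ok) (hl : ¬ InB P loc) : FGood P h3760 :=
  frun_good hP hl T_3760 (fc (G_3764 hP hl) f0)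
theorem G_3759 (hP : P.ok) (hl : ¬ InB P loc) : FGood P h3759 :=
  frun_good hP hl T_3759 (fc (G_3763 hP hl) f0)
theorem G_3758 (hP : P.ok) (hl : ¬ InB P loc) : FGood P h3758 :=
  frun_good hP hl T_3758 (fc (G_3759 hP hl) (fc (G_3760 hP hl) (fc (G_3761 hP hl) (fc (G_3762 hP hl) f0))))
theorem G_3757 (hP : P.ok) (hl : ¬ InB P loc) : FGood P h3757 :=
  frun_good hP hl T_3757 f0
theorem G_3756 (hP : P.ok) (hl : ¬ InB P loc) : FGood P h3756 :=
  frun_good hP hl T_3756 f0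
theorem G_3755 (hP : P.ok) (hl : ¬ InB P loc) : FGood P h3755 :=
  frun_good hP hl T_3755 (fc (G_3756 hP hl) (fc (G_3757 hP hl) f0))
theorem G_3754 (hP : P.ok) (hl : ¬ InB P loc) : FGood P h3754 :=
  frun_good hP hl T_3754 f0
theorem G_3753 (hP : P.ok) (hl : ¬ InB P loc) : FGood P h3753 :=
  frun_good hP hl T_3753 f0
theorem G_3752 (hP : P.ok) (hl : ¬ InB P loc) : FGood P h3752 :=
  frun_good hP hl T_3752 f0
theorem G_3751 (hP : P.ok) (hl : ¬ InB P loc) : FGood P h3751 :=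
  frun_good hP hl T_3751 f0
theorem G_3750 (hP : P.ok) (hl : ¬ InB P loc) : FGood P h3750 :=
  frun_good hP hl T_3750 (fc (G_3753 hP hl) f0)
theorem G_3749 (hP : P.ok) (hl : ¬ InB P loc) : FGood P h3749 :=
  frun_good hP hl T_3749 (fc (G_3751 hP hl) (fc (G_3752 hP hl) f0))
theorem G_3748 (hP : P.ok) (hl : ¬ InB P loc) : FGood P h3748 :=
  frun_good hP hl T_3748 (fc (G_3749 hP hl) (fc (G_3750 hP hl) f0))
theorem G_3747 (hP : P.ok) (hl : ¬ InB P loc) : FGood P h3747 :=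
  frun_good hP hl T_3747 f0
theorem G_3746 (hP : P.ok) (hl : ¬ InB P loc) : FGood P h3746 :=
  frun_good hP hl T_3746 f0
theorem G_3745 (hP : P.ok) (hl : ¬ InB P loc) : FGood P h3745 :=
  frun_good hP hl T_3745 (fc (G_3746 hP hl) f0)
theorem G_3744 (hP : P.ok) (hl : ¬ InB P loc) : FGood P h3744 :=
  frun_good hP hl T_3744 f0
theorem G_3743 (hP : P.ok) (hl : ¬ InB P loc) : FGood P h3743 :=
  frun_good hP hl T_3743 (fc (G_3744 hP hl) (fc (G_3745 hP hl) f0))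
theorem G_3742 (hP : P.ok) (hl : ¬ InB P loc) : FGood P h3742 :=
  frun_good hP hl T_3742 f0
theorem G_3741 (hP : P.ok) (hl : ¬ InB P loc) : FGood P h3741 :=
  frun_good hP hl T_3741 (fc (G_3742 hP hl) f0)
theorem G_3740 (hP : P.ok) (hl : ¬ InB P loc) : FGood P h3740 :=
  frun_good hP hl T_3740 f0
theorem G_3739 (hP : P.ok) (hl : ¬ InB P loc) : FGood P h3739 :=
  frun_good hP hl T_3739 f0
theorem G_3738 (hP : P.ok) (hl : ¬ InB P loc) : FGood P h3738 :=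
  frun_good hP hl T_3738 f0
theorem G_3737 (hP : P.ok) (hl : ¬ InB P loc) : FGood P h3737 :=
  frun_good hP hl T_3737 f0
theorem G_3736 (hP : P.ok) (hl : ¬ InB P loc) : FGood P h3736 :=
  frun_good hP hl T_3736 f0
theorem G_3735 (hP : P.ok) (hl : ¬ InB P loc) : FGood P h3735 :=
  frun_good hP hl T_3735 f0
theorem G_3734 (hP : P.ok) (hl : ¬ InB P loc) : FGood P h3734 :=
  frun_good hP hl T_3734 f0
theorem G_3733 (hP : P.ok) (hl : ¬ InB P loc) : FGood P h3733 :=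
  frun_good hP hl T_3733 (fc (G_3735 hP hl) f0)
theorem G_3732 (hP : P.ok) (hl : ¬ InB P loc) : FGood P h3732 :=
  frun_good hP hl T_3732 (fc (G_3733 hP hl) (fc (G_3734 hP hl) f0))
theorem G_3731 (hP : P.ok) (hl : ¬ InB P loc) : FGood P h3731 :=
  frun_good hP hl T_3731 f0
theorem G_3730 (hP : P.ok) (hl : ¬ InB P loc) : FGood P h3730 :=
  frun_good hP hl T_3730 f0
theorem G_3729 (hP : P.ok) (hl : ¬ InB P loc) : FGood P h3729 :=
  frun_good hP hl T_3729 (fc (G_3730 hP hl) f0)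
theorem G_3728 (hP : P.ok) (hl : ¬ InB P loc) : FGood P h3728 :=
  frun_good hP hl T_3728 (fc (G_3729 hP hl) f0)
theorem G_3727 (hP : P.ok) (hl : ¬ InB P loc) : FGood P h3727 :=
  frun_good hP hl T_3727 f0
theorem G_3726 (hP : P.ok) (hl : ¬ InB P loc) : FGood P h3726 :=
  frun_good hP hl T_3726 f0
theorem G_3725 (hP : P.ok) (hl : ¬ InB P loc) : FGood P h3725 :=
  frun_good hP hl T_3725 (fc (G_3726 hP hl) (fc (G_3727 hP hl) f0))
theorem G_3724 (hP : P.ok) (hl : ¬ InB P loc) : FGood P h3724 :=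
  frun_good hP hl T_3724 f0
theorem G_3723 (hP : P.ok) (hl : ¬ InB P loc) : FGood P h3723 :=
  frun_good hP hl T_3723 f0
theorem G_3722 (hP : P.ok) (hl : ¬ InB P loc) : FGood P h3722 :=
  frun_good hP hl T_3722 f0
theorem G_3721 (hP : P.ok) (hl : ¬ InB P loc) : FGood P h3721 :=
  frun_good hP hl T_3721 (fc (G_3722 hP hl) f0)
theorem G_3720 (hP : P.ok) (hl : ¬ InB P loc) : FGood P h3720 :=
  frun_good hP hl T_3720 f0
theorem G_3719 (hP : P.ok) (hl : ¬ InB P loc) : FGood P h3719 :=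
  frun_good hP hl T_3719 f0
theorem G_3718 (hP : P.ok) (hl : ¬ InB P loc) : FGood P h3718 :=
  frun_good hP hl T_3718 f0
theorem G_3717 (hP : P.ok) (hl : ¬ InB P loc) : FGood P h3717 :=
  frun_good hP hl T_3717 f0
theorem G_3716 (hP : P.ok) (hl : ¬ InB P loc) : FGood P h3716 :=
  frun_good hP hl T_3716 f0
theorem G_3715 (hP : P.ok) (hl : ¬ InB P loc) : FGood P h3715 :=
  frun_good hP hl T_3715 f0
theorem G_3714 (hP : P.ok) (hl : ¬ InB P loc) : FGood P h3714 :=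
  frun_good hP hl T_3714 (fc (G_3719 hP hl) f0)
theorem G_3713 (hP : P.ok) (hl : ¬ InB P loc) : FGood P h3713 :=
  frun_good hP hl T_3713 f0
theorem G_3712 (hP : P.ok) (hl : ¬ InB P loc) : FGood P h3712 :=
  frun_good hP hl T_3712 (fc (G_3713 hP hl) (fc (G_3714 hP hl) (fc (G_3715 hP hl) (fc (G_3716 hP hl) (fc (G_3717 hP hl) (fc (G_3718 hP hl) f0))))))
theorem G_3711 (hP : P.ok) (hl : ¬ InB P loc) : FGood P h3711 :=
  frun_good hP hl T_3711 f0
theorem G_3710 (hP : P.ok) (hl : ¬ InB P loc) : FGood P h3710 :=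
  frun_good hP hl T_3710 f0
theorem G_3709 (hP : P.ok) (hl : ¬ InB P loc) : FGood P h3709 :=
  frun_good hP hl T_3709 (fc (G_3710 hP hl) f0)
theorem G_3708 (hP : P.ok) (hl : ¬ InB P loc) : FGood P h3708 :=
  frun_good hP hl T_3708 (fc (G_3709 hP hl) f0)
theorem G_3707 (hP : P.ok) (hl : ¬ InB P loc) : FGood P h3707 :=
  frun_good hP hl T_3707 f0
theorem G_3706 (hP : P.ok) (hl : ¬ InB P loc) : FGood P h3706 :=
  frun_good hP hl T_3706 f0
theorem G_3705 (hP : P.ok) (hl : ¬ InB P loc) : FGood P h3705 :=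
  frun_good hP hl T_3705 f0
theorem G_3704 (hP : P.ok) (hl : ¬ InB P loc) : FGood P h3704 :=
  frun_good hP hl T_3704 (fc (G_3705 hP hl) (fc (G_3706 hP hl) (fc (G_3707 hP hl) f0)))
theorem G_3703 (hP : P.ok) (hl : ¬ InB P loc) : FGood P h3703 :=
  frun_good hP hl T_3703 f0
theorem G_3702 (hP : P.ok) (hl : ¬ InB P loc) : FGood P h3702 :=
  frun_good hP hl T_3702 f0
theorem G_3701 (hP : P.ok) (hl : ¬ InB P loc) : FGood P h3701 :=
  frun_good hP hl T_3701 f0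
theorem G_3700 (hP : P.ok) (hl : ¬ InB P loc) : FGood P h3700 :=
  frun_good hP hl T_3700 (fc (G_3701 hP hl) (fc (G_3702 hP hl) (fc (G_3703 hP hl) (fc (G_3704 hP hl) f0))))
theorem G_3699 (hP : P.ok) (hl : ¬ InB P loc) : FGood P h3699 :=
  frun_good hP hl T_3699 f0
theorem G_3698 (hP : P.ok) (hl : ¬ InB P loc) : FGood P h3698 :=
  frun_good hP hl T_3698 (fc (G_3699 hP hl) f0)
theorem G_3697 (hP : P.ok) (hl : ¬ InB P loc) : FGood P h3697 :=
  frun_good hP hl T_3697 f0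
theorem G_3696 (hP : P.ok) (hl : ¬ InB P loc) : FGood P h3696 :=
  frun_good hP hl T_3696 (fc (G_3697 hP hl) f0)
theorem G_3695 (hP : P.ok) (hl : ¬ InB P loc) : FGood P h3695 :=
  frun_good hP hl T_3695 (fc (G_3696 hP hl) f0)
theorem G_3694 (hP : P.ok) (hl : ¬ InB P loc) : FGood P h3694 :=
  frun_good hP hl T_3694 f0
theorem G_3693 (hP : P.ok) (hl : ¬ InB P loc) : FGood P h3693 :=
  frun_good hP hl T_3693 (fc (G_3694 hP hl) f0)
theorem G_3692 (hP : P.ok) (hl : ¬ InB P loc) : FGood P h3692 :=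
  frun_good hP hl T_3692 f0
theorem G_3691 (hP : P.ok) (hl : ¬ InB P loc) : FGood P h3691 :=
  frun_good hP hl T_3691 (fc (G_3692 hP hl) f0)
theorem G_3690 (hP : P.ok) (hl : ¬ InB P loc) : FGood P h3690 :=
  frun_good hP hl T_3690 (fc (G_3691 hP hl) f0)
theorem G_3689 (hP : P.ok) (hl : ¬ InB P loc) : FGood P h3689 :=
  frun_good hP hl T_3689 f0
theorem G_3688 (hP : P.ok) (hl : ¬ InB P loc) : FGood P h3688 :=
  frun_good hP hl T_3688 f0
theorem G_3687 (hP : P.ok) (hl : ¬ InB P loc) : FGood P h3687 :=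
  frun_good hP hl T_3687 (fc (G_3689 hP hl) f0)
theorem G_3686 (hP : P.ok) (hl : ¬ InB P loc) : FGood P h3686 :=
  frun_good hP hl T_3686 f0
theorem G_3685 (hP : P.ok) (hl : ¬ InB P loc) : FGood P h3685 :=
  frun_good hP hl T_3685 f0
theorem G_3684 (hP : P.ok) (hl : ¬ InB P loc) : FGood P h3684 :=
  frun_good hP hl T_3684 (fc (G_3685 hP hl) (fc (G_3686 hP hl) (fc (G_3687 hP hl) (fc (G_3688 hP hl) f0))))
theorem G_3683 (hP : P.ok) (hl : ¬ InB P loc) : FGood P h3683 :=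
  frun_good hP hl T_3683 f0
theorem G_3682 (hP : P.ok) (hl : ¬ InB P loc) : FGood P h3682 :=
  frun_good hP hl T_3682 f0
theorem G_3681 (hP : P.ok) (hl : ¬ InB P loc) : FGood P h3681 :=
  frun_good hP hl T_3681 f0
theorem G_3680 (hP : P.ok) (hl : ¬ InB P loc) : FGood P h3680 :=
  frun_good hP hl T_3680 (fc (G_3681 hP hl) (fc (G_3682 hP hl) (fc (G_3683 hP hl) f0)))
theorem G_3679 (hP : P.ok) (hl : ¬ InB P loc) : FGood P h3679 :=
  frun_good hP hl T_3679 f0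
theorem G_3678 (hP : P.ok) (hl : ¬ InB P loc) : FGood P h3678 :=
  frun_good hP hl T_3678 (fc (G_3679 hP hl) f0)
theorem G_3677 (hP : P.ok) (hl : ¬ InB P loc) : FGood P h3677 :=
  frun_good hP hl T_3677 (fc (G_3678 hP hl) f0)
theorem G_3676 (hP : P.ok) (hl : ¬ InB P loc) : FGood P h3676 :=
  frun_good hP hl T_3676 f0
theorem G_3675 (hP : P.ok) (hl : ¬ InB P loc) : FGood P h3675 :=
  frun_good hP hl T_3675 f0
theorem G_3674 (hP : P.ok) (hl : ¬ InB P loc) : FGood P h3674 :=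
  frun_good hP hl T_3674 f0
theorem G_3673 (hP : P.ok) (hl : ¬ InB P loc) : FGood P h3673 :=
  frun_good hP hl T_3673 f0
theorem G_3672 (hP : P.ok) (hl : ¬ InB P loc) : FGood P h3672 :=
  frun_good hP hl T_3672 (fc (G_3673 hP hl) (fc (G_3674 hP hl) (fc (G_3675 hP hl) f0)))
theorem G_3671 (hP : P.ok) (hl : ¬ InB P loc) : FGood P h3671 :=
  frun_good hP hl T_3671 f0
theorem G_3670 (hP : P.ok) (hl : ¬ InB P loc) : FGood P h3670 :=
  frun_good hP hl T_3670 f0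
theorem G_3669 (hP : P.ok) (hl : ¬ InB P loc) : FGood P h3669 :=
  frun_good hP hl T_3669 (fc (G_3671 hP hl) f0)
theorem G_3668 (hP : P.ok) (hl : ¬ InB P loc) : FGood P h3668 :=
  frun_good hP hl T_3668 (fc (G_3670 hP hl) f0)
theorem G_3667 (hP : P.ok) (hl : ¬ InB P loc) : FGood P h3667 :=
  frun_good hP hl T_3667 (fc (G_3668 hP hl) (fc (G_3669 hP hl) f0))
theorem G_3666 (hP : P.ok) (hl : ¬ InB P loc) : FGood P h3666 :=
  frun_good hP hl T_3666 f0
theorem G_3665 (hP : P.ok) (hl : ¬ InB P loc) : FGood P h3665 :=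
  frun_good hP hl T_3665 (fc (G_3666 hP hl) f0)
theorem G_3664 (hP : P.ok) (hl : ¬ InB P loc) : FGood P h3664 :=
  frun_good hP hl T_3664 f0
theorem G_3663 (hP : P.ok) (hl : ¬ InB P loc) : FGood P h3663 :=
  frun_good hP hl T_3663 f0
theorem G_3662 (hP : P.ok) (hl : ¬ InB P loc) : FGood P h3662 :=
  frun_good hP hl T_3662 (fc (G_3663 hP hl) f0)
theorem G_3661 (hP : P.ok) (hl : ¬ InB P loc) : FGood P h3661 :=
  frun_good hP hl T_3661 (fc (G_3662 hP hl) f0)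
theorem G_3660 (hP : P.ok) (hl : ¬ InB P loc) : FGood P h3660 :=
  frun_good hP hl T_3660 f0
theorem G_3659 (hP : P.ok) (hl : ¬ InB P loc) : FGood P h3659 :=
  frun_good hP hl T_3659 (fc (G_3660 hP hl) f0)
theorem G_3658 (hP : P.ok) (hl : ¬ InB P loc) : FGood P h3658 :=
  frun_good hP hl T_3658 f0
theorem G_3657 (hP : P.ok) (hl : ¬ InB P loc) : FGood P h3657 :=
  frun_good hP hl T_3657 (fc (G_3658 hP hl) f0)
theorem G_3656 (hP : P.ok) (hl : ¬ InB P loc) : FGood P h3656 :=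
  frun_good hP hl T_3656 (fc (G_3657 hP hl) f0)
theorem G_3655 (hP : P.ok) (hl : ¬ InB P loc) : FGood P h3655 :=
  frun_good hP hl T_3655 f0
theorem G_3654 (hP : P.ok) (hl : ¬ InB P loc) : FGood P h3654 :=
  frun_good hP hl T_3654 (fc (G_3655 hP hl) f0)
theorem G_3653 (hP : P.ok) (hl : ¬ InB P loc) : FGood P h3653 :=
  frun_good hP hl T_3653 f0
theorem G_3652 (hP : P.ok) (hl : ¬ InB P loc) : FGood P h3652 :=
  frun_good hP hl T_3652 (fc (G_3653 hP hl) (fc (G_3654 hP hl) f0))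
theorem G_3651 (hP : P.ok) (hl : ¬ InB P loc) : FGood P h3651 :=
  frun_good hP hl T_3651 (fc (G_3652 hP hl) f0)
theorem G_3650 (hP : P.ok) (hl : ¬ InB P loc) : FGood P h3650 :=
  frun_good hP hl T_3650 f0
theorem G_3649 (hP : P.ok) (hl : ¬ InB P loc) : FGood P h3649 :=
  frun_good hP hl T_3649 f0
theorem G_3648 (hP : P.ok) (hl : ¬ InB P loc) : FGood P h3648 :=
  frun_good hP hl T_3648 f0
theorem G_3647 (hP : P.ok) (hl : ¬ InB P loc) : FGood P h3647 :=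
  frun_good hP hl T_3647 f0
theorem G_3646 (hP : P.ok) (hl : ¬ InB P loc) : FGood P h3646 :=
  frun_good hP hl T_3646 (fc (G_3647 hP hl) f0)
theorem G_3645 (hP : P.ok) (hl : ¬ InB P loc) : FGood P h3645 :=
  frun_good hP hl T_3645 (fc (G_3646 hP hl) f0)
theorem G_3644 (hP : P.ok) (hl : ¬ InB P loc) : FGood P h3644 :=
  frun_good hP hl T_3644 f0
theorem G_3643 (hP : P.ok) (hl : ¬ InB P loc) : FGood P h3643 :=
  frun_good hP hl T_3643 f0
theorem G_3642 (hP : P.ok) (hl : ¬ InB P loc) : FGood P h3642 :=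
  frun_good hP hl T_3642 f0
theorem G_3641 (hP : P.ok) (hl : ¬ InB P loc) : FGood P h3641 :=
  frun_good hP hl T_3641 (fc (G_3642 hP hl) f0)
theorem G_3640 (hP : P.ok) (hl : ¬ InB P loc) : FGood P h3640 :=
  frun_good hP hl T_3640 f0
theorem G_3639 (hP : P.ok) (hl : ¬ InB P loc) : FGood P h3639 :=
  frun_good hP hl T_3639 f0
theorem G_3638 (hP : P.ok) (hl : ¬ InB P loc) : FGood P h3638 :=
  frun_good hP hl T_3638 (fc (G_3639 hP hl) (fc (G_3640 hP hl) f0))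
theorem G_3637 (hP : P.ok) (hl : ¬ InB P loc) : FGood P h3637 :=
  frun_good hP hl T_3637 f0
theorem G_3636 (hP : P.ok) (hl : ¬ InB P loc) : FGood P h3636 :=
  frun_good hP hl T_3636 (fc (G_3638 hP hl) f0)
theorem G_3635 (hP : P.ok) (hl : ¬ InB P loc) : FGood P h3635 :=
  frun_good hP hl T_3635 f0
theorem G_3634 (hP : P.ok) (hl : ¬ InB P loc) : FGood P h3634 :=
  frun_good hP hl T_3634 (fc (G_3637 hP hl) f0)
theorem G_3633 (hP : P.ok) (hl : ¬ InB P loc) : FGood P h3633 :=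
  frun_good hP hl T_3633 (fc (G_3634 hP hl) (fc (G_3635 hP hl) (fc (G_3636 hP hl) f0)))
theorem G_3632 (hP : P.ok) (hl : ¬ InB P loc) : FGood P h3632 :=
  frun_good hP hl T_3632 f0
theorem G_3631 (hP : P.ok) (hl : ¬ InB P loc) : FGood P h3631 :=
  frun_good hP hl T_3631 f0
theorem G_3630 (hP : P.ok) (hl : ¬ InB P loc) : FGood P h3630 :=
  frun_good hP hl T_3630 f0
theorem G_3629 (hP : P.ok) (hl : ¬ InB P loc) : FGood P h3629 :=
  frun_good hP hl T_3629 (fc (G_3630 hP hl) (fc (G_3631 hP hl) f0))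
theorem G_3628 (hP : P.ok) (hl : ¬ InB P loc) : FGood P h3628 :=
  frun_good hP hl T_3628 f0
theorem G_3627 (hP : P.ok) (hl : ¬ InB P loc) : FGood P h3627 :=
  frun_good hP hl T_3627 f0
theorem G_3626 (hP : P.ok) (hl : ¬ InB P loc) : FGood P h3626 :=
  frun_good hP hl T_3626 (fc (G_3627 hP hl) f0)
theorem G_3625 (hP : P.ok) (hl : ¬ InB P loc) : FGood P h3625 :=
  frun_good hP hl T_3625 f0
theorem G_3624 (hP : P.ok) (hl : ¬ InB P loc) : FGood P h3624 :=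
  frun_good hP hl T_3624 (fc (G_3625 hP hl) (fc (G_3626 hP hl) f0))
theorem G_3623 (hP : P.ok) (hl : ¬ InB P loc) : FGood P h3623 :=
  frun_good hP hl T_3623 f0
theorem G_3622 (hP : P.ok) (hl : ¬ InB P loc) : FGood P h3622 :=
  frun_good hP hl T_3622 (fc (G_3623 hP hl) f0)
theorem G_3621 (hP : P.ok) (hl : ¬ InB P loc) : FGood P h3621 :=
  frun_good hP hl T_3621 (fc (G_3622 hP hl) f0)
theorem G_3620 (hP : P.ok) (hl : ¬ InB P loc) : FGood P h3620 :=
  frun_good hP hl T_3620 f0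
theorem G_3619 (hP : P.ok) (hl : ¬ InB P loc) : FGood P h3619 :=
  frun_good hP hl T_3619 (fc (G_3620 hP hl) f0)
theorem G_3618 (hP : P.ok) (hl : ¬ InB P loc) : FGood P h3618 :=
  frun_good hP hl T_3618 f0
theorem G_3617 (hP : P.ok) (hl : ¬ InB P loc) : FGood P h3617 :=
  frun_good hP hl T_3617 (fc (G_3618 hP hl) f0)
theorem G_3616 (hP : P.ok) (hl : ¬ InB P loc) : FGood P h3616 :=
  frun_good hP hl T_3616 f0
theorem G_3615 (hP : P.ok) (hl : ¬ InB P loc) : FGood P h3615 :=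
  frun_good hP hl T_3615 f0
theorem G_3614 (hP : P.ok) (hl : ¬ InB P loc) : FGood P h3614 :=
  frun_good hP hl T_3614 f0
theorem G_3613 (hP : P.ok) (hl : ¬ InB P loc) : FGood P h3613 :=
  frun_good hP hl T_3613 f0
theorem G_3612 (hP : P.ok) (hl : ¬ InB P loc) : FGood P h3612 :=
  frun_good hP hl T_3612 (fc (G_3613 hP hl) (fc (G_3614 hP hl) f0))
theorem G_3611 (hP : P.ok) (hl : ¬ InB P loc) : FGood P h3611 :=
  frun_good hP hl T_3611 f0
theorem G_3610 (hP : P.ok) (hl : ¬ InB P loc) : FGood P h3610 :=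
  frun_good hP hl T_3610 f0
theorem G_3609 (hP : P.ok) (hl : ¬ InB P loc) : FGood P h3609 :=
  frun_good hP hl T_3609 f0
theorem G_3608 (hP : P.ok) (hl : ¬ InB P loc) : FGood P h3608 :=
  frun_good hP hl T_3608 (fc (G_3611 hP hl) f0)
theorem G_3607 (hP : P.ok) (hl : ¬ InB P loc) : FGood P h3607 :=
  frun_good hP hl T_3607 (fc (G_3609 hP hl) (fc (G_3610 hP hl) f0))
theorem G_3606 (hP : P.ok) (hl : ¬ InB P loc) : FGood P h3606 :=
  frun_good hP hl T_3606 (fc (G_3608 hP hl) f0)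
theorem G_3605 (hP : P.ok) (hl : ¬ InB P loc) : FGood P h3605 :=
  frun_good hP hl T_3605 (fc (G_3606 hP hl) (fc (G_3607 hP hl) f0))
theorem G_3604 (hP : P.ok) (hl : ¬ InB P loc) : FGood P h3604 :=
  frun_good hP hl T_3604 (fc (G_3605 hP hl) f0)
theorem G_3603 (hP : P.ok) (hl : ¬ InB P loc) : FGood P h3603 :=
  frun_good hP hl T_3603 f0
theorem G_3602 (hP : P.ok) (hl : ¬ InB P loc) : FGood P h3602 :=
  frun_good hP hl T_3602 (fc (G_3603 hP hl) f0)
theorem G_3601 (hP : P.ok) (hl : ¬ InB P loc) : FGood P h3601 :=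
  frun_good hP hl T_3601 f0
theorem G_3600 (hP : P.ok) (hl : ¬ InB P loc) : FGood P h3600 :=
  frun_good hP hl T_3600 (fc (G_3601 hP hl) f0)
theorem G_3599 (hP : P.ok) (hl : ¬ InB P loc) : FGood P h3599 :=
  frun_good hP hl T_3599 f0
theorem G_3598 (hP : P.ok) (hl : ¬ InB P loc) : FGood P h3598 :=
  frun_good hP hl T_3598 (fc (G_3599 hP hl) f0)
theorem G_3597 (hP : P.ok) (hl : ¬ InB P loc) : FGood P h3597 :=
  frun_good hP hl T_3597 f0
theorem G_3596 (hP : P.ok) (hl : ¬ InB P loc) : FGood P h3596 :=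
  frun_good hP hl T_3596 f0
theorem G_3595 (hP : P.ok) (hl : ¬ InB P loc) : FGood P h3595 :=
  frun_good hP hl T_3595 (fc (G_3596 hP hl) (fc (G_3597 hP hl) f0))
theorem G_3594 (hP : P.ok) (hl : ¬ InB P loc) : FGood P h3594 :=
  frun_good hP hl T_3594 f0
theorem G_3593 (hP : P.ok) (hl : ¬ InB P loc) : FGood P h3593 :=
  frun_good hP hl T_3593 f0
theorem G_3592 (hP : P.ok) (hl : ¬ InB P loc) : FGood P h3592 :=
  frun_good hP hl T_3592 (fc (G_3593 hP hl) (fc (G_3594 hP hl) f0))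
theorem G_3591 (hP : P.ok) (hl : ¬ InB P loc) : FGood P h3591 :=
  frun_good hP hl T_3591 f0
theorem G_3590 (hP : P.ok) (hl : ¬ InB P loc) : FGood P h3590 :=
  frun_good hP hl T_3590 (fc (G_3591 hP hl) f0)
theorem G_3589 (hP : P.ok) (hl : ¬ InB P loc) : FGood P h3589 :=
  frun_good hP hl T_3589 f0
theorem G_3588 (hP : P.ok) (hl : ¬ InB P loc) : FGood P h3588 :=
  frun_good hP hl T_3588 (fc (G_3589 hP hl) f0)
theorem G_3587 (hP : P.ok) (hl : ¬ InB P loc) : FGood P h3587 :=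
  frun_good hP hl T_3587 (fc (G_3588 hP hl) f0)
theorem G_3586 (hP : P.ok) (hl : ¬ InB P loc) : FGood P h3586 :=
  frun_good hP hl T_3586 f0
theorem G_3585 (hP : P.ok) (hl : ¬ InB P loc) : FGood P h3585 :=
  frun_good hP hl T_3585 (fc (G_3586 hP hl) f0)
theorem G_3584 (hP : P.ok) (hl : ¬ InB P loc) : FGood P h3584 :=
  frun_good hP hl T_3584 f0
theorem G_3583 (hP : P.ok) (hl : ¬ InB P loc) : FGood P h3583 :=
  frun_good hP hl T_3583 (fc (G_3584 hP hl) (fc (G_3585 hP hl) f0))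
theorem G_3582 (hP : P.ok) (hl : ¬ InB P loc) : FGood P h3582 :=
  frun_good hP hl T_3582 f0
theorem G_3581 (hP : P.ok) (hl : ¬ InB P loc) : FGood P h3581 :=
  frun_good hP hl T_3581 (fc (G_3582 hP hl) (fc (G_3583 hP hl) f0))
theorem G_3580 (hP : P.ok) (hl : ¬ InB P loc) : FGood P h3580 :=
  frun_good hP hl T_3580 f0
theorem G_3579 (hP : P.ok) (hl : ¬ InB P loc) : FGood P h3579 :=
  frun_good hP hl T_3579 f0
theorem G_3578 (hP : P.ok) (hl : ¬ InB P loc) : FGood P h3578 :=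
  frun_good hP hl T_3578 (fc (G_3579 hP hl) (fc (G_3580 hP hl) f0))
theorem G_3577 (hP : P.ok) (hl : ¬ InB P loc) : FGood P h3577 :=
  frun_good hP hl T_3577 f0
theorem G_3576 (hP : P.ok) (hl : ¬ InB P loc) : FGood P h3576 :=
  frun_good hP hl T_3576 (fc (G_3577 hP hl) f0)
theorem G_3575 (hP : P.ok) (hl : ¬ InB P loc) : FGood P h3575 :=
  frun_good hP hl T_3575 f0
theorem G_3574 (hP : P.ok) (hl : ¬ InB P loc) : FGood P h3574 :=
  frun_good hP hl T_3574 f0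
theorem G_3573 (hP : P.ok) (hl : ¬ InB P loc) : FGood P h3573 :=
  frun_good hP hl T_3573 (fc (G_3574 hP hl) f0)
theorem G_3572 (hP : P.ok) (hl : ¬ InB P loc) : FGood P h3572 :=
  frun_good hP hl T_3572 f0
theorem G_3571 (hP : P.ok) (hl : ¬ InB P loc) : FGood P h3571 :=
  frun_good hP hl T_3571 f0
theorem G_3570 (hP : P.ok) (hl : ¬ InB P loc) : FGood P h3570 :=
  frun_good hP hl T_3570 (fc (G_3571 hP hl) (fc (G_3572 hP hl) f0))
theorem G_3569 (hP : P.ok) (hl : ¬ InB P loc) : FGood P h3569 :=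
  frun_good hP hl T_3569 f0
theorem G_3568 (hP : P.ok) (hl : ¬ InB P loc) : FGood P h3568 :=
  frun_good hP hl T_3568 f0
theorem G_3567 (hP : P.ok) (hl : ¬ InB P loc) : FGood P h3567 :=
  frun_good hP hl T_3567 f0
theorem G_3566 (hP : P.ok) (hl : ¬ InB P loc) : FGood P h3566 :=
  frun_good hP hl T_3566 (fc (G_3567 hP hl) f0)
theorem G_3565 (hP : P.ok) (hl : ¬ InB P loc) : FGood P h3565 :=
  frun_good hP hl T_3565 f0
theorem G_3564 (hP : P.ok) (hl : ¬ InB P loc) : FGood P h3564 :=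
  frun_good hP hl T_3564 f0
theorem G_3563 (hP : P.ok) (hl : ¬ InB P loc) : FGood P h3563 :=
  frun_good hP hl T_3563 (fc (G_3565 hP hl) f0)
theorem G_3562 (hP : P.ok) (hl : ¬ InB P loc) : FGood P h3562 :=
  frun_good hP hl T_3562 (fc (G_3563 hP hl) (fc (G_3564 hP hl) f0))
theorem G_3561 (hP : P.ok) (hl : ¬ InB P loc) : FGood P h3561 :=
  frun_good hP hl T_3561 f0
theorem G_3560 (hP : P.ok) (hl : ¬ InB P loc) : FGood P h3560 :=
  frun_good hP hl T_3560 (fc (G_3561 hP hl) f0)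
theorem G_3559 (hP : P.ok) (hl : ¬ InB P loc) : FGood P h3559 :=
  frun_good hP hl T_3559 f0
theorem G_3558 (hP : P.ok) (hl : ¬ InB P loc) : FGood P h3558 :=
  frun_good hP hl T_3558 (fc (G_3560 hP hl) f0)
theorem G_3557 (hP : P.ok) (hl : ¬ InB P loc) : FGood P h3557 :=
  frun_good hP hl T_3557 (fc (G_3559 hP hl) f0)
theorem G_3556 (hP : P.ok) (hl : ¬ InB P loc) : FGood P h3556 :=
  frun_good hP hl T_3556 (fc (G_3557 hP hl) (fc (G_3558 hP hl) f0))
theorem G_3555 (hP : P.ok) (hl : ¬ InB P loc) : FGood P h3555 :=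
  frun_good hP hl T_3555 f0
theorem G_3554 (hP : P.ok) (hl : ¬ InB P loc) : FGood P h3554 :=
  frun_good hP hl T_3554 f0
theorem G_3553 (hP : P.ok) (hl : ¬ InB P loc) : FGood P h3553 :=
  frun_good hP hl T_3553 f0
theorem G_3552 (hP : P.ok) (hl : ¬ InB P loc) : FGood P h3552 :=
  frun_good hP hl T_3552 f0
theorem G_3551 (hP : P.ok) (hl : ¬ InB P loc) : FGood P h3551 :=
  frun_good hP hl T_3551 (fc (G_3552 hP hl) f0)
theorem G_3550 (hP : P.ok) (hl : ¬ InB P loc) : FGood P h3550 :=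
  frun_good hP hl T_3550 (fc (G_3551 hP hl) f0)
theorem G_3549 (hP : P.ok) (hl : ¬ InB P loc) : FGood P h3549 :=
  frun_good hP hl T_3549 (fc (G_3550 hP hl) f0)
theorem G_3548 (hP : P.ok) (hl : ¬ InB P loc) : FGood P h3548 :=
  frun_good hP hl T_3548 f0
theorem G_3547 (hP : P.ok) (hl : ¬ InB P loc) : FGood P h3547 :=
  frun_good hP hl T_3547 (fc (G_3548 hP hl) (fc (G_3549 hP hl) f0))
theorem G_3546 (hP : P.ok) (hl : ¬ InB P loc) : FGood P h3546 :=
  frun_good hP hl T_3546 f0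
theorem G_3545 (hP : P.ok) (hl : ¬ InB P loc) : FGood P h3545 :=
  frun_good hP hl T_3545 f0
theorem G_3544 (hP : P.ok) (hl : ¬ InB P loc) : FGood P h3544 :=
  frun_good hP hl T_3544 (fc (G_3545 hP hl) (fc (G_3546 hP hl) f0))
theorem G_3543 (hP : P.ok) (hl : ¬ InB P loc) : FGood P h3543 :=
  frun_good hP hl T_3543 f0
theorem G_3542 (hP : P.ok) (hl : ¬ InB P loc) : FGood P h3542 :=
  frun_good hP hl T_3542 (fc (G_3543 hP hl) f0)
theorem G_3541 (hP : P.ok) (hl : ¬ InB P loc) : FGood P h3541 :=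
  frun_good hP hl T_3541 f0
theorem G_3540 (hP : P.ok) (hl : ¬ InB P loc) : FGood P h3540 :=
  frun_good hP hl T_3540 (fc (G_3541 hP hl) f0)
theorem G_3539 (hP : P.ok) (hl : ¬ InB P loc) : FGood P h3539 :=
  frun_good hP hl T_3539 f0
theorem G_3538 (hP : P.ok) (hl : ¬ InB P loc) : FGood P h3538 :=
  frun_good hP hl T_3538 f0
theorem G_3537 (hP : P.ok) (hl : ¬ InB P loc) : FGood P h3537 :=
  frun_good hP hl T_3537 (fc (G_3540 hP hl) f0)
theorem G_3536 (hP : P.ok) (hl : ¬ InB P loc) : FGood P h3536 :=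
  frun_good hP hl T_3536 (fc (G_3537 hP hl) (fc (G_3538 hP hl) (fc (G_3539 hP hl) f0)))
theorem G_3535 (hP : P.ok) (hl : ¬ InB P loc) : FGood P h3535 :=
  frun_good hP hl T_3535 f0
theorem G_3534 (hP : P.ok) (hl : ¬ InB P loc) : FGood P h3534 :=
  frun_good hP hl T_3534 (fc (G_3535 hP hl) f0)
theorem G_3533 (hP : P.ok) (hl : ¬ InB P loc) : FGood P h3533 :=
  frun_good hP hl T_3533 f0
theorem G_3532 (hP : P.ok) (hl : ¬ InB P loc) : FGood P h3532 :=
  frun_good hP hl T_3532 f0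
theorem G_3531 (hP : P.ok) (hl : ¬ InB P loc) : FGood P h3531 :=
  frun_good hP hl T_3531 f0
theorem G_3530 (hP : P.ok) (hl : ¬ InB P loc) : FGood P h3530 :=
  frun_good hP hl T_3530 f0
theorem G_3529 (hP : P.ok) (hl : ¬ InB P loc) : FGood P h3529 :=
  frun_good hP hl T_3529 (fc (G_3531 hP hl) (fc (G_3532 hP hl) f0))
theorem G_3528 (hP : P.ok) (hl : ¬ InB P loc) : FGood P h3528 :=
  frun_good hP hl T_3528 (fc (G_3529 hP hl) (fc (G_3530 hP hl) f0))
theorem G_3527 (hP : P.ok) (hl : ¬ InB P loc) : FGood P h3527 :=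
  frun_good hP hl T_3527 f0
theorem G_3526 (hP : P.ok) (hl : ¬ InB P loc) : FGood P h3526 :=
  frun_good hP hl T_3526 f0
theorem G_3525 (hP : P.ok) (hl : ¬ InB P loc) : FGood P h3525 :=
  frun_good hP hl T_3525 f0
theorem G_3524 (hP : P.ok) (hl : ¬ InB P loc) : FGood P h3524 :=
  frun_good hP hl T_3524 f0
theorem G_3523 (hP : P.ok) (hl : ¬ InB P loc) : FGood P h3523 :=
  frun_good hP hl T_3523 f0
theorem G_3522 (hP : P.ok) (hl : ¬ InB P loc) : FGood P h3522 :=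
  frun_good hP hl T_3522 (fc (G_3525 hP hl) f0)
theorem G_3521 (hP : P.ok) (hl : ¬ InB P loc) : FGood P h3521 :=
  frun_good hP hl T_3521 (fc (G_3522 hP hl) (fc (G_3523 hP hl) (fc (G_3524 hP hl) f0)))
theorem G_3520 (hP : P.ok) (hl : ¬ InB P loc) : FGood P h3520 :=
  frun_good hP hl T_3520 f0
theorem G_3519 (hP : P.ok) (hl : ¬ InB P loc) : FGood P h3519 :=
  frun_good hP hl T_3519 (fc (G_3520 hP hl) f0)
theorem G_3518 (hP : P.ok) (hl : ¬ InB P loc) : FGood P h3518 :=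
  frun_good hP hl T_3518 f0
theorem G_3517 (hP : P.ok) (hl : ¬ InB P loc) : FGood P h3517 :=
  frun_good hP hl T_3517 (fc (G_3518 hP hl) (fc (G_3519 hP hl) f0))
theorem G_3516 (hP : P.ok) (hl : ¬ InB P loc) : FGood P h3516 :=
  frun_good hP hl T_3516 f0
theorem G_3515 (hP : P.ok) (hl : ¬ InB P loc) : FGood P h3515 :=
  frun_good hP hl T_3515 (fc (G_3516 hP hl) f0)
theorem G_3514 (hP : P.ok) (hl : ¬ InB P loc) : FGood P h3514 :=
  frun_good hP hl T_3514 f0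
theorem G_3513 (hP : P.ok) (hl : ¬ InB P loc) : FGood P h3513 :=
  frun_good hP hl T_3513 f0
theorem G_3512 (hP : P.ok) (hl : ¬ InB P loc) : FGood P h3512 :=
  frun_good hP hl T_3512 f0
theorem G_3511 (hP : P.ok) (hl : ¬ InB P loc) : FGood P h3511 :=
  frun_good hP hl T_3511 (fc (G_3514 hP hl) f0)
theorem G_3510 (hP : P.ok) (hl : ¬ InB P loc) : FGood P h3510 :=
  frun_good hP hl T_3510 (fc (G_3511 hP hl) (fc (G_3512 hP hl) (fc (G_3513 hP hl) f0)))
theorem G_3509 (hP : P.ok) (hl : ¬ InB P loc) : FGood P h3509 :=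
  frun_good hP hl T_3509 f0
theorem G_3508 (hP : P.ok) (hl : ¬ InB P loc) : FGood P h3508 :=
  frun_good hP hl T_3508 (fc (G_3509 hP hl) (fc (G_3510 hP hl) f0))
theorem G_3507 (hP : P.ok) (hl : ¬ InB P loc) : FGood P h3507 :=
  frun_good hP hl T_3507 f0
theorem G_3506 (hP : P.ok) (hl : ¬ InB P loc) : FGood P h3506 :=
  frun_good hP hl T_3506 f0
theorem G_3505 (hP : P.ok) (hl : ¬ InB P loc) : FGood P h3505 :=
  frun_good hP hl T_3505 (fc (G_3506 hP hl) (fc (G_3507 hP hl) f0))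
theorem G_3504 (hP : P.ok) (hl : ¬ InB P loc) : FGood P h3504 :=
  frun_good hP hl T_3504 f0
theorem G_3503 (hP : P.ok) (hl : ¬ InB P loc) : FGood P h3503 :=
  frun_good hP hl T_3503 f0
theorem G_3502 (hP : P.ok) (hl : ¬ InB P loc) : FGood P h3502 :=
  frun_good hP hl T_3502 (fc (G_3505 hP hl) f0)
theorem G_3501 (hP : P.ok) (hl : ¬ InB P loc) : FGood P h3501 :=
  frun_good hP hl T_3501 (fc (G_3502 hP hl) (fc (G_3503 hP hl) (fc (G_3504 hP hl) f0)))
theorem G_3500 (hP : P.ok) (hl : ¬ InB P loc) : FGood P h3500 :=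
  frun_good hP hl T_3500 f0
theorem G_3499 (hP : P.ok) (hl : ¬ InB P loc) : FGood P h3499 :=
  frun_good hP hl T_3499 f0
theorem G_3498 (hP : P.ok) (hl : ¬ InB P loc) : FGood P h3498 :=
  frun_good hP hl T_3498 (fc (G_3499 hP hl) (fc (G_3500 hP hl) f0))
theorem G_3497 (hP : P.ok) (hl : ¬ InB P loc) : FGood P h3497 :=
  frun_good hP hl T_3497 f0
theorem G_3496 (hP : P.ok) (hl : ¬ InB P loc) : FGood P h3496 :=
  frun_good hP hl T_3496 (fc (G_3497 hP hl) (fc (G_3498 hP hl) f0))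
theorem G_3495 (hP : P.ok) (hl : ¬ InB P loc) : FGood P h3495 :=
  frun_good hP hl T_3495 f0
theorem G_3494 (hP : P.ok) (hl : ¬ InB P loc) : FGood P h3494 :=
  frun_good hP hl T_3494 (fc (G_3495 hP hl) f0)
theorem G_3493 (hP : P.ok) (hl : ¬ InB P loc) : FGood P h3493 :=
  frun_good hP hl T_3493 (fc (G_3494 hP hl) f0)
theorem G_3492 (hP : P.ok) (hl : ¬ InB P loc) : FGood P h3492 :=
  frun_good hP hl T_3492 f0
theorem G_3491 (hP : P.ok) (hl : ¬ InB P loc) : FGood P h3491 :=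
  frun_good hP hl T_3491 f0
theorem G_3490 (hP : P.ok) (hl : ¬ InB P loc) : FGood P h3490 :=
  frun_good hP hl T_3490 f0
theorem G_3489 (hP : P.ok) (hl : ¬ InB P loc) : FGood P h3489 :=
  frun_good hP hl T_3489 f0
theorem G_3488 (hP : P.ok) (hl : ¬ InB P loc) : FGood P h3488 :=
  frun_good hP hl T_3488 (fc (G_3489 hP hl) (fc (G_3490 hP hl) (fc (G_3491 hP hl) f0)))
theorem G_3487 (hP : P.ok) (hl : ¬ InB P loc) : FGood P h3487 :=
  frun_good hP hl T_3487 f0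
theorem G_3486 (hP : P.ok) (hl : ¬ InB P loc) : FGood P h3486 :=
  frun_good hP hl T_3486 (fc (G_3487 hP hl) f0)
theorem G_3485 (hP : P.ok) (hl : ¬ InB P loc) : FGood P h3485 :=
  frun_good hP hl T_3485 (fc (G_3486 hP hl) f0)
theorem G_3484 (hP : P.ok) (hl : ¬ InB P loc) : FGood P h3484 :=
  frun_good hP hl T_3484 f0
theorem G_3483 (hP : P.ok) (hl : ¬ InB P loc) : FGood P h3483 :=
  frun_good hP hl T_3483 f0
theorem G_3482 (hP : P.ok) (hl : ¬ InB P loc) : FGood P h3482 :=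
  frun_good hP hl T_3482 f0
theorem G_3481 (hP : P.ok) (hl : ¬ InB P loc) : FGood P h3481 :=
  frun_good hP hl T_3481 f0
theorem G_3480 (hP : P.ok) (hl : ¬ InB P loc) : FGood P h3480 :=
  frun_good hP hl T_3480 f0
theorem G_3479 (hP : P.ok) (hl : ¬ InB P loc) : FGood P h3479 :=
  frun_good hP hl T_3479 (fc (G_3480 hP hl) (fc (G_3481 hP hl) f0))
theorem G_3478 (hP : P.ok) (hl : ¬ InB P loc) : FGood P h3478 :=
  frun_good hP hl T_3478 f0
theorem G_3477 (hP : P.ok) (hl : ¬ InB P loc) : FGood P h3477 :=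
  frun_good hP hl T_3477 (fc (G_3478 hP hl) f0)
theorem G_3476 (hP : P.ok) (hl : ¬ InB P loc) : FGood P h3476 :=
  frun_good hP hl T_3476 f0
theorem G_3475 (hP : P.ok) (hl : ¬ InB P loc) : FGood P h3475 :=
  frun_good hP hl T_3475 f0
theorem G_3474 (hP : P.ok) (hl : ¬ InB P loc) : FGood P h3474 :=
  frun_good hP hl T_3474 (fc (G_3476 hP hl) f0)
theorem G_3473 (hP : P.ok) (hl : ¬ InB P loc) : FGood P h3473 :=
  frun_good hP hl T_3473 (fc (G_3474 hP hl) (fc (G_3475 hP hl) f0))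
theorem G_3472 (hP : P.ok) (hl : ¬ InB P loc) : FGood P h3472 :=
  frun_good hP hl T_3472 f0
theorem G_3471 (hP : P.ok) (hl : ¬ InB P loc) : FGood P h3471 :=
  frun_good hP hl T_3471 f0
theorem G_3470 (hP : P.ok) (hl : ¬ InB P loc) : FGood P h3470 :=
  frun_good hP hl T_3470 (fc (G_3471 hP hl) f0)
theorem G_3469 (hP : P.ok) (hl : ¬ InB P loc) : FGood P h3469 :=
  frun_good hP hl T_3469 (fc (G_3470 hP hl) f0)
theorem G_3468 (hP : P.ok) (hl : ¬ InB P loc) : FGood P h3468 :=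
  frun_good hP hl T_3468 f0
theorem G_3467 (hP : P.ok) (hl : ¬ InB P loc) : FGood P h3467 :=
  frun_good hP hl T_3467 f0
theorem G_3466 (hP : P.ok) (hl : ¬ InB P loc) : FGood P h3466 :=
  frun_good hP hl T_3466 f0
theorem G_3465 (hP : P.ok) (hl : ¬ InB P loc) : FGood P h3465 :=
  frun_good hP hl T_3465 (fc (G_3466 hP hl) (fc (G_3467 hP hl) (fc (G_3468 hP hl) f0)))
theorem G_3464 (hP : P.ok) (hl : ¬ InB P loc) : FGood P h3464 :=
  frun_good hP hl T_3464 f0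
theorem G_3463 (hP : P.ok) (hl : ¬ InB P loc) : FGood P h3463 :=
  frun_good hP hl T_3463 f0
theorem G_3462 (hP : P.ok) (hl : ¬ InB P loc) : FGood P h3462 :=
  frun_good hP hl T_3462 (fc (G_3463 hP hl) (fc (G_3464 hP hl) f0))
theorem G_3461 (hP : P.ok) (hl : ¬ InB P loc) : FGood P h3461 :=
  frun_good hP hl T_3461 f0
theorem G_3460 (hP : P.ok) (hl : ¬ InB P loc) : FGood P h3460 :=
  frun_good hP hl T_3460 f0
theorem G_3459 (hP : P.ok) (hl : ¬ InB P loc) : FGood P h3459 :=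
  frun_good hP hl T_3459 f0
theorem G_3458 (hP : P.ok) (hl : ¬ InB P loc) : FGood P h3458 :=
  frun_good hP hl T_3458 (fc (G_3460 hP hl) (fc (G_3461 hP hl) f0))
theorem G_3457 (hP : P.ok) (hl : ¬ InB P loc) : FGood P h3457 :=
  frun_good hP hl T_3457 (fc (G_3458 hP hl) (fc (G_3459 hP hl) f0))
theorem G_3456 (hP : P.ok) (hl : ¬ InB P loc) : FGood P h3456 :=
  frun_good hP hl T_3456 f0
theorem G_3455 (hP : P.ok) (hl : ¬ InB P loc) : FGood P h3455 :=
  frun_good hP hl T_3455 f0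
theorem G_3454 (hP : P.ok) (hl : ¬ InB P loc) : FGood P h3454 :=
  frun_good hP hl T_3454 f0
theorem G_3453 (hP : P.ok) (hl : ¬ InB P loc) : FGood P h3453 :=
  frun_good hP hl T_3453 (fc (G_3455 hP hl) (fc (G_3456 hP hl) f0))
theorem G_3452 (hP : P.ok) (hl : ¬ InB P loc) : FGood P h3452 :=
  frun_good hP hl T_3452 (fc (G_3453 hP hl) (fc (G_3454 hP hl) f0))
theorem G_3451 (hP : P.ok) (hl : ¬ InB P loc) : FGood P h3451 :=
  frun_good hP hl T_3451 f0
theorem G_3450 (hP : P.ok) (hl : ¬ InB P loc) : FGood P h3450 :=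
  frun_good hP hl T_3450 (fc (G_3451 hP hl) f0)
theorem G_3449 (hP : P.ok) (hl : ¬ InB P loc) : FGood P h3449 :=
  frun_good hP hl T_3449 f0
theorem G_3448 (hP : P.ok) (hl : ¬ InB P loc) : FGood P h3448 :=
  frun_good hP hl T_3448 f0
theorem G_3447 (hP : P.ok) (hl : ¬ InB P loc) : FGood P h3447 :=
  frun_good hP hl T_3447 f0
theorem G_3446 (hP : P.ok) (hl : ¬ InB P loc) : FGood P h3446 :=
  frun_good hP hl T_3446 f0
theorem G_3445 (hP : P.ok) (hl : ¬ InB P loc) : FGood P h3445 :=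
  frun_good hP hl T_3445 (fc (G_3447 hP hl) (fc (G_3448 hP hl) (fc (G_3449 hP hl) f0)))
theorem G_3444 (hP : P.ok) (hl : ¬ InB P loc) : FGood P h3444 :=
  frun_good hP hl T_3444 (fc (G_3446 hP hl) f0)
theorem G_3443 (hP : P.ok) (hl : ¬ InB P loc) : FGood P h3443 :=
  frun_good hP hl T_3443 f0
theorem G_3442 (hP : P.ok) (hl : ¬ InB P loc) : FGood P h3442 :=
  frun_good hP hl T_3442 (fc (G_3443 hP hl) (fc (G_3444 hP hl) (fc (G_3445 hP hl) f0)))
theorem G_3441 (hP : P.ok) (hl : ¬ InB P loc) : FGood P h3441 :=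
  frun_good hP hl T_3441 f0
theorem G_3440 (hP : P.ok) (hl : ¬ InB P loc) : FGood P h3440 :=
  frun_good hP hl T_3440 (fc (G_3441 hP hl) f0)
theorem G_3439 (hP : P.ok) (hl : ¬ InB P loc) : FGood P h3439 :=
  frun_good hP hl T_3439 f0
theorem G_3438 (hP : P.ok) (hl : ¬ InB P loc) : FGood P h3438 :=
  frun_good hP hl T_3438 f0
theorem G_3437 (hP : P.ok) (hl : ¬ InB P loc) : FGood P h3437 :=
  frun_good hP hl T_3437 (fc (G_3438 hP hl) f0)
theorem G_3436 (hP : P.ok) (hl : ¬ InB P loc) : FGood P h3436 :=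
  frun_good hP hl T_3436 f0
theorem G_3435 (hP : P.ok) (hl : ¬ InB P loc) : FGood P h3435 :=
  frun_good hP hl T_3435 f0
theorem G_3434 (hP : P.ok) (hl : ¬ InB P loc) : FGood P h3434 :=
  frun_good hP hl T_3434 f0
theorem G_3433 (hP : P.ok) (hl : ¬ InB P loc) : FGood P h3433 :=
  frun_good hP hl T_3433 f0
theorem G_3432 (hP : P.ok) (hl : ¬ InB P loc) : FGood P h3432 :=
  frun_good hP hl T_3432 f0
theorem G_3431 (hP : P.ok) (hl : ¬ InB P loc) : FGood P h3431 :=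
  frun_good hP hl T_3431 (fc (G_3433 hP hl) f0)
theorem G_3430 (hP : P.ok) (hl : ¬ InB P loc) : FGood P h3430 :=
  frun_good hP hl T_3430 f0
theorem G_3429 (hP : P.ok) (hl : ¬ InB P loc) : FGood P h3429 :=
  frun_good hP hl T_3429 (fc (G_3431 hP hl) (fc (G_3432 hP hl) f0))
theorem G_3428 (hP : P.ok) (hl : ¬ InB P loc) : FGood P h3428 :=
  frun_good hP hl T_3428 (fc (G_3429 hP hl) (fc (G_3430 hP hl) f0))
theorem G_3427 (hP : P.ok) (hl : ¬ InB P loc) : FGood P h3427 :=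
  frun_good hP hl T_3427 (fc (G_3428 hP hl) f0)
theorem G_3426 (hP : P.ok) (hl : ¬ InB P loc) : FGood P h3426 :=
  frun_good hP hl T_3426 f0
theorem G_3425 (hP : P.ok) (hl : ¬ InB P loc) : FGood P h3425 :=
  frun_good hP hl T_3425 (fc (G_3426 hP hl) f0)
theorem G_3424 (hP : P.ok) (hl : ¬ InB P loc) : FGood P h3424 :=
  frun_good hP hl T_3424 f0
theorem G_3423 (hP : P.ok) (hl : ¬ InB P loc) : FGood P h3423 :=
  frun_good hP hl T_3423 (fc (G_3424 hP hl) f0)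
theorem G_3422 (hP : P.ok) (hl : ¬ InB P loc) : FGood P h3422 :=
  frun_good hP hl T_3422 f0
theorem G_3421 (hP : P.ok) (hl : ¬ InB P loc) : FGood P h3421 :=
  frun_good hP hl T_3421 (fc (G_3422 hP hl) (fc (G_3423 hP hl) f0))
theorem G_3420 (hP : P.ok) (hl : ¬ InB P loc) : FGood P h3420 :=
  frun_good hP hl T_3420 f0
theorem G_3419 (hP : P.ok) (hl : ¬ InB P loc) : FGood P h3419 :=
  frun_good hP hl T_3419 f0
theorem G_3418 (hP : P.ok) (hl : ¬ InB P loc) : FGood P h3418 :=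
  frun_good hP hl T_3418 f0
theorem G_3417 (hP : P.ok) (hl : ¬ InB P loc) : FGood P h3417 :=
  frun_good hP hl T_3417 f0
theorem G_3416 (hP : P.ok) (hl : ¬ InB P loc) : FGood P h3416 :=
  frun_good hP hl T_3416 (fc (G_3417 hP hl) (fc (G_3418 hP hl) f0))

end

end Pool.Agent.Lib.MP_9d820d_co.Fast.A
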