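import Pool.Agent.Lib.MP_9d820d_co.FMain
import Pool.Agent.Lib.MP_9d820d_co.G.AC90
import Pool.Agent.Lib.MP_9d820d_co.G.AC91
import Pool.Agent.Lib.MP_9d820d_co.G.AC92
import Pool.Agent.Lib.MP_9d820d_co.G.AC93
import Pool.Agent.Lib.MP_9d820d_co.G.AC94

set_option autoImplicit false

namespace Pool.Agent.Lib.MP_9d820d_co.Fast.A

noncomputable section

variable {P : Prm}

theorem G_4428 (hP : P.ok) (hl : ¬ InB P loc) : FGood P h4428 :=
  frun_good hP hl T_4428 f0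
theorem G_4427 (hP : P.ok) (hl : ¬ InB P loc) : FGood P h4427 :=
  frun_good hP hl T_4427 (fc (G_4428 hP hl) f0)
theorem G_4426 (hP : P.ok) (hl : ¬ InB P loc) : FGood P h4426 :=
  frun_good hP hl T_4426 f0
theorem G_4425 (hP : P.ok) (hl : ¬ InB P loc) : FGood P h4425 :=
  frun_good hP hl T_4425 f0
theorem G_4424 (hP : P.ok) (hl : ¬ InB P loc) : FGood P h4424 :=
  frun_good hP hl T_4424 (fc (G_4427 hP hl) f0)
theorem G_4423 (hP : P.ok) (hl : ¬ InB P loc) : FGood P h4423 :=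
  frun_good hP hl T_4423 f0
theorem G_4422 (hP : P.ok) (hl : ¬ InB P loc) : FGood P h4422 :=
  frun_good hP hl T_4422 (fc (G_4426 hP hl) f0)
theorem G_4421 (hP : P.ok) (hl : ¬ InB P loc) : FGood P h4421 :=
  frun_good hP hl T_4421 (fc (G_4422 hP hl) (fc (G_4423 hP hl) (fc (G_4424 hP hl) (fc (G_4425 hP hl) f0))))
theorem G_4420 (hP : P.ok) (hl : ¬ InB P loc) : FGood P h4420 :=
  frun_good hP hl T_4420 f0
theorem G_4419 (hP : P.ok) (hl : ¬ InB P loc) : FGood P h4419 :=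
  frun_good hP hl T_4419 f0
theorem G_4418 (hP : P.ok) (hl : ¬ InB P loc) : FGood P h4418 :=
  frun_good hP hl T_4418 f0
theorem G_4417 (hP : P.ok) (hl : ¬ InB P loc) : FGood P h4417 :=
  frun_good hP hl T_4417 (fc (G_4420 hP hl) f0)
theorem G_4416 (hP : P.ok) (hl : ¬ InB P loc) : FGood P h4416 :=
  frun_good hP hl T_4416 (fc (G_4419 hP hl) f0)
theorem G_4415 (hP : P.ok) (hl : ¬ InB P loc) : FGood P h4415 :=
  frun_good hP hl T_4415 (fc (G_4416 hP hl) (fc (G_4417 hP hl) (fc (G_4418 hP hl) f0)))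
theorem G_4414 (hP : P.ok) (hl : ¬ InB P loc) : FGood P h4414 :=
  frun_good hP hl T_4414 f0
theorem G_4413 (hP : P.ok) (hl : ¬ InB P loc) : FGood P h4413 :=
  frun_good hP hl T_4413 f0
theorem G_4412 (hP : P.ok) (hl : ¬ InB P loc) : FGood P h4412 :=
  frun_good hP hl T_4412 (fc (G_4413 hP hl) (fc (G_4414 hP hl) f0))
theorem G_4411 (hP : P.ok) (hl : ¬ InB P loc) : FGood P h4411 :=
  frun_good hP hl T_4411 f0
theorem G_4410 (hP : P.ok) (hl : ¬ InB P loc) : FGood P h4410 :=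
  frun_good hP hl T_4410 f0
theorem G_4409 (hP : P.ok) (hl : ¬ InB P loc) : FGood P h4409 :=
  frun_good hP hl T_4409 f0
theorem G_4408 (hP : P.ok) (hl : ¬ InB P loc) : FGood P h4408 :=
  frun_good hP hl T_4408 f0
theorem G_4407 (hP : P.ok) (hl : ¬ InB P loc) : FGood P h4407 :=
  frun_good hP hl T_4407 f0
theorem G_4406 (hP : P.ok) (hl : ¬ InB P loc) : FGood P h4406 :=
  frun_good hP hl T_4406 f0
theorem G_4405 (hP : P.ok) (hl : ¬ InB P loc) : FGood P h4405 :=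
  frun_good hP hl T_4405 f0
theorem G_4404 (hP : P.ok) (hl : ¬ InB P loc) : FGood P h4404 :=
  frun_good hP hl T_4404 f0
theorem G_4403 (hP : P.ok) (hl : ¬ InB P loc) : FGood P h4403 :=
  frun_good hP hl T_4403 f0
theorem G_4402 (hP : P.ok) (hl : ¬ InB P loc) : FGood P h4402 :=
  frun_good hP hl T_4402 f0
theorem G_4401 (hP : P.ok) (hl : ¬ InB P loc) : FGood P h4401 :=
  frun_good hP hl T_4401 f0
theorem G_4400 (hP : P.ok) (hl : ¬ InB P loc) : FGood P h4400 :=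
  frun_good hP hl T_4400 f0
theorem G_4399 (hP : P.ok) (hl : ¬ InB P loc) : FGood P h4399 :=
  frun_good hP hl T_4399 f0
theorem G_4398 (hP : P.ok) (hl : ¬ InB P loc) : FGood P h4398 :=
  frun_good hP hl T_4398 f0
theorem G_4397 (hP : P.ok) (hl : ¬ InB P loc) : FGood P h4397 :=
  frun_good hP hl T_4397 f0
theorem G_4396 (hP : P.ok) (hl : ¬ InB P loc) : FGood P h4396 :=
  frun_good hP hl T_4396 f0
theorem G_4395 (hP : P.ok) (hl : ¬ InB P loc) : FGood P h4395 :=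
  frun_good hP hl T_4395 f0
theorem G_4394 (hP : P.ok) (hl : ¬ InB P loc) : FGood P h4394 :=
  frun_good hP hl T_4394 f0
theorem G_4393 (hP : P.ok) (hl : ¬ InB P loc) : FGood P h4393 :=
  frun_good hP hl T_4393 f0
theorem G_4392 (hP : P.ok) (hl : ¬ InB P loc) : FGood P h4392 :=
  frun_good hP hl T_4392 f0
theorem G_4391 (hP : P.ok) (hl : ¬ InB P loc) : FGood P h4391 :=
  frun_good hP hl T_4391 f0
theorem G_4390 (hP : P.ok) (hl : ¬ InB P loc) : FGood P h4390 :=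
  frun_good hP hl T_4390 f0
theorem G_4389 (hP : P.ok) (hl : ¬ InB P loc) : FGood P h4389 :=
  frun_good hP hl T_4389 f0
theorem G_4388 (hP : P.ok) (hl : ¬ InB P loc) : FGood P h4388 :=
  frun_good hP hl T_4388 f0
theorem G_4387 (hP : P.ok) (hl : ¬ InB P loc) : FGood P h4387 :=
  frun_good hP hl T_4387 f0
theorem G_4386 (hP : P.ok) (hl : ¬ InB P loc) : FGood P h4386 :=
  frun_good hP hl T_4386 f0
theorem G_4385 (hP : P.ok) (hl : ¬ InB P loc) : FGood P h4385 :=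
  frun_good hP hl T_4385 f0
theorem G_4384 (hP : P.ok) (hl : ¬ InB P loc) : FGood P h4384 :=
  frun_good hP hl T_4384 f0
theorem G_4383 (hP : P.ok) (hl : ¬ InB P loc) : FGood P h4383 :=
  frun_good hP hl T_4383 (fc (G_4402 hP hl) (fc (G_4403 hP hl) f0))
theorem G_4382 (hP : P.ok) (hl : ¬ InB P loc) : FGood P h4382 :=
  frun_good hP hl T_4382 f0
theorem G_4381 (hP : P.ok) (hl : ¬ InB P loc) : FGood P h4381 :=
  frun_good hP hl T_4381 f0
theorem G_4380 (hP : P.ok) (hl : ¬ InB P loc) : FGood P h4380 :=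
  frun_good hP hl T_4380 f0
theorem G_4379 (hP : P.ok) (hl : ¬ InB P loc) : FGood P h4379 :=
  frun_good hP hl T_4379 f0
theorem G_4378 (hP : P.ok) (hl : ¬ InB P loc) : FGood P h4378 :=
  frun_good hP hl T_4378 f0
theorem G_4377 (hP : P.ok) (hl : ¬ InB P loc) : FGood P h4377 :=
  frun_good hP hl T_4377 (fc (G_4390 hP hl) (fc (G_4391 hP hl) (fc (G_4392 hP hl) (fc (G_4393 hP hl) (fc (G_4394 hP hl) (fc (G_4395 hP hl) (fc (G_4396 hP hl) (fc (G_4397 hP hl) (fc (G_4398 hP hl) (fc (G_4399 hP hl) (fc (G_4400 hP hl) (fc (G_4401 hP hl) f0))))))))))))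
theorem G_4376 (hP : P.ok) (hl : ¬ InB P loc) : FGood P h4376 :=
  frun_good hP hl T_4376 f0
theorem G_4375 (hP : P.ok) (hl : ¬ InB P loc) : FGood P h4375 :=
  frun_good hP hl T_4375 f0
theorem G_4374 (hP : P.ok) (hl : ¬ InB P loc) : FGood P h4374 :=
  frun_good hP hl T_4374 f0
theorem G_4373 (hP : P.ok) (hl : ¬ InB P loc) : FGood P h4373 :=
  frun_good hP hl T_4373 f0
theorem G_4372 (hP : P.ok) (hl : ¬ InB P loc) : FGood P h4372 :=
  frun_good hP hl T_4372 f0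
theorem G_4371 (hP : P.ok) (hl : ¬ InB P loc) : FGood P h4371 :=
  frun_good hP hl T_4371 (fc (G_4380 hP hl) (fc (G_4381 hP hl) (fc (G_4382 hP hl) (fc (G_4383 hP hl) (fc (G_4384 hP hl) (fc (G_4385 hP hl) (fc (G_4386 hP hl) (fc (G_4387 hP hl) (fc (G_4388 hP hl) (fc (G_4389 hP hl) f0))))))))))
theorem G_4370 (hP : P.ok) (hl : ¬ InB P loc) : FGood P h4370 :=
  frun_good hP hl T_4370 (fc (G_4378 hP hl) (fc (G_4379 hP hl) f0))
theorem G_4369 (hP : P.ok) (hl : ¬ InB P loc) : FGood P h4369 :=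
  frun_good hP hl T_4369 (fc (G_4370 hP hl) (fc (G_4371 hP hl) (fc (G_4372 hP hl) (fc (G_4373 hP hl) (fc (G_4374 hP hl) (fc (G_4375 hP hl) (fc (G_4376 hP hl) (fc (G_4377 hP hl) f0))))))))
theorem G_4368 (hP : P.ok) (hl : ¬ InB P loc) : FGood P h4368 :=
  frun_good hP hl T_4368 f0
theorem G_4367 (hP : P.ok) (hl : ¬ InB P loc) : FGood P h4367 :=
  frun_good hP hl T_4367 f0
theorem G_4366 (hP : P.ok) (hl : ¬ InB P loc) : FGood P h4366 :=
  frun_good hP hl T_4366 (fc (G_4367 hP hl) (fc (G_4368 hP hl) f0))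
theorem G_4365 (hP : P.ok) (hl : ¬ InB P loc) : FGood P h4365 :=
  frun_good hP hl T_4365 f0
theorem G_4364 (hP : P.ok) (hl : ¬ InB P loc) : FGood P h4364 :=
  frun_good hP hl T_4364 f0
theorem G_4363 (hP : P.ok) (hl : ¬ InB P loc) : FGood P h4363 :=
  frun_good hP hl T_4363 f0
theorem G_4362 (hP : P.ok) (hl : ¬ InB P loc) : FGood P h4362 :=
  frun_good hP hl T_4362 f0
theorem G_4361 (hP : P.ok) (hl : ¬ InB P loc) : FGood P h4361 :=
  frun_good hP hl T_4361 f0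
theorem G_4360 (hP : P.ok) (hl : ¬ InB P loc) : FGood P h4360 :=
  frun_good hP hl T_4360 f0
theorem G_4359 (hP : P.ok) (hl : ¬ InB P loc) : FGood P h4359 :=
  frun_good hP hl T_4359 f0
theorem G_4358 (hP : P.ok) (hl : ¬ InB P loc) : FGood P h4358 :=
  frun_good hP hl T_4358 f0
theorem G_4357 (hP : P.ok) (hl : ¬ InB P loc) : FGood P h4357 :=
  frun_good hP hl T_4357 f0
theorem G_4356 (hP : P.ok) (hl : ¬ InB P loc) : FGood P h4356 :=
  frun_good hP hl T_4356 f0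
theorem G_4355 (hP : P.ok) (hl : ¬ InB P loc) : FGood P h4355 :=
  frun_good hP hl T_4355 f0
theorem G_4354 (hP : P.ok) (hl : ¬ InB P loc) : FGood P h4354 :=
  frun_good hP hl T_4354 f0
theorem G_4353 (hP : P.ok) (hl : ¬ InB P loc) : FGood P h4353 :=
  frun_good hP hl T_4353 (fc (G_4356 hP hl) f0)
theorem G_4352 (hP : P.ok) (hl : ¬ InB P loc) : FGood P h4352 :=
  frun_good hP hl T_4352 (fc (G_4354 hP hl) (fc (G_4355 hP hl) f0))
theorem G_4351 (hP : P.ok) (hl : ¬ InB P loc) : FGood P h4351 :=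
  frun_good hP hl T_4351 f0
theorem G_4350 (hP : P.ok) (hl : ¬ InB P loc) : FGood P h4350 :=
  frun_good hP hl T_4350 f0
theorem G_4349 (hP : P.ok) (hl : ¬ InB P loc) : FGood P h4349 :=
  frun_good hP hl T_4349 f0
theorem G_4348 (hP : P.ok) (hl : ¬ InB P loc) : FGood P h4348 :=
  frun_good hP hl T_4348 f0
theorem G_4347 (hP : P.ok) (hl : ¬ InB P loc) : FGood P h4347 :=
  frun_good hP hl T_4347 f0
theorem G_4346 (hP : P.ok) (hl : ¬ InB P loc) : FGood P h4346 :=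
  frun_good hP hl T_4346 f0
theorem G_4345 (hP : P.ok) (hl : ¬ InB P loc) : FGood P h4345 :=
  frun_good hP hl T_4345 f0
theorem G_4344 (hP : P.ok) (hl : ¬ InB P loc) : FGood P h4344 :=
  frun_good hP hl T_4344 (fc (G_4345 hP hl) (fc (G_4346 hP hl) (fc (G_4347 hP hl) (fc (G_4348 hP hl) (fc (G_4349 hP hl) (fc (G_4350 hP hl) (fc (G_4351 hP hl) (fc (G_4352 hP hl) (fc (G_4353 hP hl) f0)))))))))
theorem G_4343 (hP : P.ok) (hl : ¬ InB P loc) : FGood P h4343 :=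
  frun_good hP hl T_4343 f0
theorem G_4342 (hP : P.ok) (hl : ¬ InB P loc) : FGood P h4342 :=
  frun_good hP hl T_4342 f0
theorem G_4341 (hP : P.ok) (hl : ¬ InB P loc) : FGood P h4341 :=
  frun_good hP hl T_4341 (fc (G_4342 hP hl) (fc (G_4343 hP hl) f0))
theorem G_4340 (hP : P.ok) (hl : ¬ InB P loc) : FGood P h4340 :=
  frun_good hP hl T_4340 f0
theorem G_4339 (hP : P.ok) (hl : ¬ InB P loc) : FGood P h4339 :=
  frun_good hP hl T_4339 f0
theorem G_4338 (hP : P.ok) (hl : ¬ InB P loc) : FGood P h4338 :=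
  frun_good hP hl T_4338 (fc (G_4340 hP hl) f0)
theorem G_4337 (hP : P.ok) (hl : ¬ InB P loc) : FGood P h4337 :=
  frun_good hP hl T_4337 (fc (G_4338 hP hl) (fc (G_4339 hP hl) f0))
theorem G_4336 (hP : P.ok) (hl : ¬ InB P loc) : FGood P h4336 :=
  frun_good hP hl T_4336 f0
theorem G_4335 (hP : P.ok) (hl : ¬ InB P loc) : FGood P h4335 :=
  frun_good hP hl T_4335 (fc (G_4336 hP hl) (fc (G_4337 hP hl) f0))
theorem G_4334 (hP : P.ok) (hl : ¬ InB P loc) : FGood P h4334 :=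
  frun_good hP hl T_4334 f0
theorem G_4333 (hP : P.ok) (hl : ¬ InB P loc) : FGood P h4333 :=
  frun_good hP hl T_4333 f0
theorem G_4332 (hP : P.ok) (hl : ¬ InB P loc) : FGood P h4332 :=
  frun_good hP hl T_4332 f0
theorem G_4331 (hP : P.ok) (hl : ¬ InB P loc) : FGood P h4331 :=
  frun_good hP hl T_4331 f0
theorem G_4330 (hP : P.ok) (hl : ¬ InB P loc) : FGood P h4330 :=
  frun_good hP hl T_4330 f0
theorem G_4329 (hP : P.ok) (hl : ¬ InB P loc) : FGood P h4329 :=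
  frun_good hP hl T_4329 f0
theorem G_4328 (hP : P.ok) (hl : ¬ InB P loc) : FGood P h4328 :=
  frun_good hP hl T_4328 f0
theorem G_4327 (hP : P.ok) (hl : ¬ InB P loc) : FGood P h4327 :=
  frun_good hP hl T_4327 f0
theorem G_4326 (hP : P.ok) (hl : ¬ InB P loc) : FGood P h4326 :=
  frun_good hP hl T_4326 f0
theorem G_4325 (hP : P.ok) (hl : ¬ InB P loc) : FGood P h4325 :=
  frun_good hP hl T_4325 f0
theorem G_4324 (hP : P.ok) (hl : ¬ InB P loc) : FGood P h4324 :=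
  frun_good hP hl T_4324 f0
theorem G_4323 (hP : P.ok) (hl : ¬ InB P loc) : FGood P h4323 :=
  frun_good hP hl T_4323 f0
theorem G_4322 (hP : P.ok) (hl : ¬ InB P loc) : FGood P h4322 :=
  frun_good hP hl T_4322 f0
theorem G_4321 (hP : P.ok) (hl : ¬ InB P loc) : FGood P h4321 :=
  frun_good hP hl T_4321 f0
theorem G_4320 (hP : P.ok) (hl : ¬ InB P loc) : FGood P h4320 :=
  frun_good hP hl T_4320 (fc (G_4321 hP hl) (fc (G_4322 hP hl) (fc (G_4323 hP hl) (fc (G_4324 hP hl) (fc (G_4325 hP hl) (fc (G_4326 hP hl) (fc (G_4327 hP hl) (fc (G_4328 hP hl) (fc (G_4329 hP hl) (fc (G_4330 hP hl) (fc (G_4331 hP hl) (fc (G_4332 hP hl) (fc (G_4333 hP hl) (fc (G_4334 hP hl) (fc (G_4335 hP hl) f0)))))))))))))))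
theorem G_4319 (hP : P.ok) (hl : ¬ InB P loc) : FGood P h4319 :=
  frun_good hP hl T_4319 f0
theorem G_4318 (hP : P.ok) (hl : ¬ InB P loc) : FGood P h4318 :=
  frun_good hP hl T_4318 f0
theorem G_4317 (hP : P.ok) (hl : ¬ InB P loc) : FGood P h4317 :=
  frun_good hP hl T_4317 (fc (G_4318 hP hl) f0)
theorem G_4316 (hP : P.ok) (hl : ¬ InB P loc) : FGood P h4316 :=
  frun_good hP hl T_4316 (fc (G_4317 hP hl) f0)
theorem G_4315 (hP : P.ok) (hl : ¬ InB P loc) : FGood P h4315 :=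
  frun_good hP hl T_4315 f0
theorem G_4314 (hP : P.ok) (hl : ¬ InB P loc) : FGood P h4314 :=
  frun_good hP hl T_4314 (fc (G_4315 hP hl) f0)
theorem G_4313 (hP : P.ok) (hl : ¬ InB P loc) : FGood P h4313 :=
  frun_good hP hl T_4313 f0
theorem G_4312 (hP : P.ok) (hl : ¬ InB P loc) : FGood P h4312 :=
  frun_good hP hl T_4312 f0
theorem G_4311 (hP : P.ok) (hl : ¬ InB P loc) : FGood P h4311 :=
  frun_good hP hl T_4311 (fc (G_4312 hP hl) f0)
theorem G_4310 (hP : P.ok) (hl : ¬ InB P loc) : FGood P h4310 :=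
  frun_good hP hl T_4310 f0
theorem G_4309 (hP : P.ok) (hl : ¬ InB P loc) : FGood P h4309 :=
  frun_good hP hl T_4309 f0
theorem G_4308 (hP : P.ok) (hl : ¬ InB P loc) : FGood P h4308 :=
  frun_good hP hl T_4308 f0
theorem G_4307 (hP : P.ok) (hl : ¬ InB P loc) : FGood P h4307 :=
  frun_good hP hl T_4307 f0
theorem G_4306 (hP : P.ok) (hl : ¬ InB P loc) : FGood P h4306 :=
  frun_good hP hl T_4306 f0
theorem G_4305 (hP : P.ok) (hl : ¬ InB P loc) : FGood P h4305 :=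
  frun_good hP hl T_4305 f0
theorem G_4304 (hP : P.ok) (hl : ¬ InB P loc) : FGood P h4304 :=
  frun_good hP hl T_4304 f0
theorem G_4303 (hP : P.ok) (hl : ¬ InB P loc) : FGood P h4303 :=
  frun_good hP hl T_4303 f0
theorem G_4302 (hP : P.ok) (hl : ¬ InB P loc) : FGood P h4302 :=
  frun_good hP hl T_4302 f0
theorem G_4301 (hP : P.ok) (hl : ¬ InB P loc) : FGood P h4301 :=
  frun_good hP hl T_4301 f0
theorem G_4300 (hP : P.ok) (hl : ¬ InB P loc) : FGood P h4300 :=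
  frun_good hP hl T_4300 f0
theorem G_4299 (hP : P.ok) (hl : ¬ InB P loc) : FGood P h4299 :=
  frun_good hP hl T_4299 (fc (G_4309 hP hl) (fc (G_4310 hP hl) (fc (G_4311 hP hl) f0)))
theorem G_4298 (hP : P.ok) (hl : ¬ InB P loc) : FGood P h4298 :=
  frun_good hP hl T_4298 (fc (G_4300 hP hl) (fc (G_4301 hP hl) (fc (G_4302 hP hl) (fc (G_4303 hP hl) (fc (G_4304 hP hl) (fc (G_4305 hP hl) (fc (G_4306 hP hl) (fc (G_4307 hP hl) (fc (G_4308 hP hl) f0)))))))))
theorem G_4297 (hP : P.ok) (hl : ¬ InB P loc) : FGood P h4297 :=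
  frun_good hP hl T_4297 (fc (G_4298 hP hl) (fc (G_4299 hP hl) f0))
theorem G_4296 (hP : P.ok) (hl : ¬ InB P loc) : FGood P h4296 :=
  frun_good hP hl T_4296 f0
theorem G_4295 (hP : P.ok) (hl : ¬ InB P loc) : FGood P h4295 :=
  frun_good hP hl T_4295 f0
theorem G_4294 (hP : P.ok) (hl : ¬ InB P loc) : FGood P h4294 :=
  frun_good hP hl T_4294 f0
theorem G_4293 (hP : P.ok) (hl : ¬ InB P loc) : FGood P h4293 :=
  frun_good hP hl T_4293 f0
theorem G_4292 (hP : P.ok) (hl : ¬ InB P loc) : FGood P h4292 :=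
  frun_good hP hl T_4292 f0
theorem G_4291 (hP : P.ok) (hl : ¬ InB P loc) : FGood P h4291 :=
  frun_good hP hl T_4291 f0
theorem G_4290 (hP : P.ok) (hl : ¬ InB P loc) : FGood P h4290 :=
  frun_good hP hl T_4290 f0
theorem G_4289 (hP : P.ok) (hl : ¬ InB P loc) : FGood P h4289 :=
  frun_good hP hl T_4289 f0
theorem G_4288 (hP : P.ok) (hl : ¬ InB P loc) : FGood P h4288 :=
  frun_good hP hl T_4288 f0
theorem G_4287 (hP : P.ok) (hl : ¬ InB P loc) : FGood P h4287 :=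
  frun_good hP hl T_4287 f0
theorem G_4286 (hP : P.ok) (hl : ¬ InB P loc) : FGood P h4286 :=
  frun_good hP hl T_4286 f0
theorem G_4285 (hP : P.ok) (hl : ¬ InB P loc) : FGood P h4285 :=
  frun_good hP hl T_4285 (fc (G_4289 hP hl) (fc (G_4290 hP hl) (fc (G_4291 hP hl) (fc (G_4292 hP hl) (fc (G_4293 hP hl) (fc (G_4294 hP hl) (fc (G_4295 hP hl) (fc (G_4296 hP hl) f0))))))))
theorem G_4284 (hP : P.ok) (hl : ¬ InB P loc) : FGood P h4284 :=
  frun_good hP hl T_4284 f0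
theorem G_4283 (hP : P.ok) (hl : ¬ InB P loc) : FGood P h4283 :=
  frun_good hP hl T_4283 (fc (G_4284 hP hl) (fc (G_4285 hP hl) (fc (G_4286 hP hl) (fc (G_4287 hP hl) (fc (G_4288 hP hl) f0)))))
theorem G_4282 (hP : P.ok) (hl : ¬ InB P loc) : FGood P h4282 :=
  frun_good hP hl T_4282 f0
theorem G_4281 (hP : P.ok) (hl : ¬ InB P loc) : FGood P h4281 :=
  frun_good hP hl T_4281 f0
theorem G_4280 (hP : P.ok) (hl : ¬ InB P loc) : FGood P h4280 :=
  frun_good hP hl T_4280 f0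
theorem G_4279 (hP : P.ok) (hl : ¬ InB P loc) : FGood P h4279 :=
  frun_good hP hl T_4279 f0
theorem G_4278 (hP : P.ok) (hl : ¬ InB P loc) : FGood P h4278 :=
  frun_good hP hl T_4278 f0
theorem G_4277 (hP : P.ok) (hl : ¬ InB P loc) : FGood P h4277 :=
  frun_good hP hl T_4277 f0
theorem G_4276 (hP : P.ok) (hl : ¬ InB P loc) : FGood P h4276 :=
  frun_good hP hl T_4276 f0
theorem G_4275 (hP : P.ok) (hl : ¬ InB P loc) : FGood P h4275 :=
  frun_good hP hl T_4275 (fc (G_4276 hP hl) f0)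
theorem G_4274 (hP : P.ok) (hl : ¬ InB P loc) : FGood P h4274 :=
  frun_good hP hl T_4274 f0
theorem G_4273 (hP : P.ok) (hl : ¬ InB P loc) : FGood P h4273 :=
  frun_good hP hl T_4273 f0
theorem G_4272 (hP : P.ok) (hl : ¬ InB P loc) : FGood P h4272 :=
  frun_good hP hl T_4272 f0
theorem G_4271 (hP : P.ok) (hl : ¬ InB P loc) : FGood P h4271 :=
  frun_good hP hl T_4271 f0
theorem G_4270 (hP : P.ok) (hl : ¬ InB P loc) : FGood P h4270 :=
  frun_good hP hl T_4270 (fc (G_4271 hP hl) (fc (G_4272 hP hl) (fc (G_4273 hP hl) (fc (G_4274 hP hl) (fc (G_4275 hP hl) f0)))))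
theorem G_4269 (hP : P.ok) (hl : ¬ InB P loc) : FGood P h4269 :=
  frun_good hP hl T_4269 f0
theorem G_4268 (hP : P.ok) (hl : ¬ InB P loc) : FGood P h4268 :=
  frun_good hP hl T_4268 f0
theorem G_4267 (hP : P.ok) (hl : ¬ InB P loc) : FGood P h4267 :=
  frun_good hP hl T_4267 f0
theorem G_4266 (hP : P.ok) (hl : ¬ InB P loc) : FGood P h4266 :=
  frun_good hP hl T_4266 (fc (G_4269 hP hl) f0)
theorem G_4265 (hP : P.ok) (hl : ¬ InB P loc) : FGood P h4265 :=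
  frun_good hP hl T_4265 f0
theorem G_4264 (hP : P.ok) (hl : ¬ InB P loc) : FGood P h4264 :=
  frun_good hP hl T_4264 f0
theorem G_4263 (hP : P.ok) (hl : ¬ InB P loc) : FGood P h4263 :=
  frun_good hP hl T_4263 f0
theorem G_4262 (hP : P.ok) (hl : ¬ InB P loc) : FGood P h4262 :=
  frun_good hP hl T_4262 f0
theorem G_4261 (hP : P.ok) (hl : ¬ InB P loc) : FGood P h4261 :=
  frun_good hP hl T_4261 f0
theorem G_4260 (hP : P.ok) (hl : ¬ InB P loc) : FGood P h4260 :=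
  frun_good hP hl T_4260 f0
theorem G_4259 (hP : P.ok) (hl : ¬ InB P loc) : FGood P h4259 :=
  frun_good hP hl T_4259 f0
theorem G_4258 (hP : P.ok) (hl : ¬ InB P loc) : FGood P h4258 :=
  frun_good hP hl T_4258 f0
theorem G_4257 (hP : P.ok) (hl : ¬ InB P loc) : FGood P h4257 :=
  frun_good hP hl T_4257 f0
theorem G_4256 (hP : P.ok) (hl : ¬ InB P loc) : FGood P h4256 :=
  frun_good hP hl T_4256 f0
theorem G_4255 (hP : P.ok) (hl : ¬ InB P loc) : FGood P h4255 :=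
  frun_good hP hl T_4255 f0
theorem G_4254 (hP : P.ok) (hl : ¬ InB P loc) : FGood P h4254 :=
  frun_good hP hl T_4254 f0
theorem G_4253 (hP : P.ok) (hl : ¬ InB P loc) : FGood P h4253 :=
  frun_good hP hl T_4253 f0
theorem G_4252 (hP : P.ok) (hl : ¬ InB P loc) : FGood P h4252 :=
  frun_good hP hl T_4252 f0
theorem G_4251 (hP : P.ok) (hl : ¬ InB P loc) : FGood P h4251 :=
  frun_good hP hl T_4251 f0
theorem G_4250 (hP : P.ok) (hl : ¬ InB P loc) : FGood P h4250 :=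
  frun_good hP hl T_4250 (fc (G_4263 hP hl) (fc (G_4264 hP hl) (fc (G_4265 hP hl) (fc (G_4266 hP hl) (fc (G_4267 hP hl) (fc (G_4268 hP hl) f0))))))
theorem G_4249 (hP : P.ok) (hl : ¬ InB P loc) : FGood P h4249 :=
  frun_good hP hl T_4249 (fc (G_4250 hP hl) (fc (G_4251 hP hl) (fc (G_4252 hP hl) (fc (G_4253 hP hl) (fc (G_4254 hP hl) (fc (G_4255 hP hl) (fc (G_4256 hP hl) (fc (G_4257 hP hl) (fc (G_4258 hP hl) (fc (G_4259 hP hl) (fc (G_4260 hP hl) (fc (G_4261 hP hl) (fc (G_4262 hP hl) f0)))))))))))))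
theorem G_4248 (hP : P.ok) (hl : ¬ InB P loc) : FGood P h4248 :=
  frun_good hP hl T_4248 f0
theorem G_4247 (hP : P.ok) (hl : ¬ InB P loc) : FGood P h4247 :=
  frun_good hP hl T_4247 f0
theorem G_4246 (hP : P.ok) (hl : ¬ InB P loc) : FGood P h4246 :=
  frun_good hP hl T_4246 f0
theorem G_4245 (hP : P.ok) (hl : ¬ InB P loc) : FGood P h4245 :=
  frun_good hP hl T_4245 f0
theorem G_4244 (hP : P.ok) (hl : ¬ InB P loc) : FGood P h4244 :=
  frun_good hP hl T_4244 f0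
theorem G_4243 (hP : P.ok) (hl : ¬ InB P loc) : FGood P h4243 :=
  frun_good hP hl T_4243 f0
theorem G_4242 (hP : P.ok) (hl : ¬ InB P loc) : FGood P h4242 :=
  frun_good hP hl T_4242 f0
theorem G_4241 (hP : P.ok) (hl : ¬ InB P loc) : FGood P h4241 :=
  frun_good hP hl T_4241 f0
theorem G_4240 (hP : P.ok) (hl : ¬ InB P loc) : FGood P h4240 :=
  frun_good hP hl T_4240 f0
theorem G_4239 (hP : P.ok) (hl : ¬ InB P loc) : FGood P h4239 :=
  frun_good hP hl T_4239 f0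
theorem G_4238 (hP : P.ok) (hl : ¬ InB P loc) : FGood P h4238 :=
  frun_good hP hl T_4238 f0
theorem G_4237 (hP : P.ok) (hl : ¬ InB P loc) : FGood P h4237 :=
  frun_good hP hl T_4237 f0
theorem G_4236 (hP : P.ok) (hl : ¬ InB P loc) : FGood P h4236 :=
  frun_good hP hl T_4236 f0
theorem G_4235 (hP : P.ok) (hl : ¬ InB P loc) : FGood P h4235 :=
  frun_good hP hl T_4235 f0
theorem G_4234 (hP : P.ok) (hl : ¬ InB P loc) : FGood P h4234 :=
  frun_good hP hl T_4234 f0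
theorem G_4233 (hP : P.ok) (hl : ¬ InB P loc) : FGood P h4233 :=
  frun_good hP hl T_4233 f0
theorem G_4232 (hP : P.ok) (hl : ¬ InB P loc) : FGood P h4232 :=
  frun_good hP hl T_4232 f0
theorem G_4231 (hP : P.ok) (hl : ¬ InB P loc) : FGood P h4231 :=
  frun_good hP hl T_4231 f0
theorem G_4230 (hP : P.ok) (hl : ¬ InB P loc) : FGood P h4230 :=
  frun_good hP hl T_4230 f0
theorem G_4229 (hP : P.ok) (hl : ¬ InB P loc) : FGood P h4229 :=
  frun_good hP hl T_4229 f0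
theorem G_4228 (hP : P.ok) (hl : ¬ InB P loc) : FGood P h4228 :=
  frun_good hP hl T_4228 f0
theorem G_4227 (hP : P.ok) (hl : ¬ InB P loc) : FGood P h4227 :=
  frun_good hP hl T_4227 (fc (G_4228 hP hl) (fc (G_4229 hP hl) (fc (G_4230 hP hl) (fc (G_4231 hP hl) (fc (G_4232 hP hl) (fc (G_4233 hP hl) (fc (G_4234 hP hl) (fc (G_4235 hP hl) (fc (G_4236 hP hl) (fc (G_4237 hP hl) (fc (G_4238 hP hl) (fc (G_4239 hP hl) (fc (G_4240 hP hl) (fc (G_4241 hP hl) (fc (G_4242 hP hl) (fc (G_4243 hP hl) (fc (G_4244 hP hl) (fc (G_4245 hP hl) (fc (G_4246 hP hl) (fc (G_4247 hP hl) f0))))))))))))))))))))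
theorem G_4226 (hP : P.ok) (hl : ¬ InB P loc) : FGood P h4226 :=
  frun_good hP hl T_4226 f0
theorem G_4225 (hP : P.ok) (hl : ¬ InB P loc) : FGood P h4225 :=
  frun_good hP hl T_4225 f0
theorem G_4224 (hP : P.ok) (hl : ¬ InB P loc) : FGood P h4224 :=
  frun_good hP hl T_4224 f0
theorem G_4223 (hP : P.ok) (hl : ¬ InB P loc) : FGood P h4223 :=
  frun_good hP hl T_4223 f0
theorem G_4222 (hP : P.ok) (hl : ¬ InB P loc) : FGood P h4222 :=
  frun_good hP hl T_4222 f0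
theorem G_4221 (hP : P.ok) (hl : ¬ InB P loc) : FGood P h4221 :=
  frun_good hP hl T_4221 f0
theorem G_4220 (hP : P.ok) (hl : ¬ InB P loc) : FGood P h4220 :=
  frun_good hP hl T_4220 f0
theorem G_4219 (hP : P.ok) (hl : ¬ InB P loc) : FGood P h4219 :=
  frun_good hP hl T_4219 f0
theorem G_4218 (hP : P.ok) (hl : ¬ InB P loc) : FGood P h4218 :=
  frun_good hP hl T_4218 (fc (G_4219 hP hl) (fc (G_4220 hP hl) (fc (G_4221 hP hl) (fc (G_4222 hP hl) (fc (G_4223 hP hl) (fc (G_4224 hP hl) (fc (G_4225 hP hl) (fc (G_4226 hP hl) f0))))))))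
theorem G_4217 (hP : P.ok) (hl : ¬ InB P loc) : FGood P h4217 :=
  frun_good hP hl T_4217 f0
theorem G_4216 (hP : P.ok) (hl : ¬ InB P loc) : FGood P h4216 :=
  frun_good hP hl T_4216 f0
theorem G_4215 (hP : P.ok) (hl : ¬ InB P loc) : FGood P h4215 :=
  frun_good hP hl T_4215 f0
theorem G_4214 (hP : P.ok) (hl : ¬ InB P loc) : FGood P h4214 :=
  frun_good hP hl T_4214 f0
theorem G_4213 (hP : P.ok) (hl : ¬ InB P loc) : FGood P h4213 :=
  frun_good hP hl T_4213 f0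
theorem G_4212 (hP : P.ok) (hl : ¬ InB P loc) : FGood P h4212 :=
  frun_good hP hl T_4212 f0
theorem G_4211 (hP : P.ok) (hl : ¬ InB P loc) : FGood P h4211 :=
  frun_good hP hl T_4211 f0
theorem G_4210 (hP : P.ok) (hl : ¬ InB P loc) : FGood P h4210 :=
  frun_good hP hl T_4210 f0
theorem G_4209 (hP : P.ok) (hl : ¬ InB P loc) : FGood P h4209 :=
  frun_good hP hl T_4209 f0
theorem G_4208 (hP : P.ok) (hl : ¬ InB P loc) : FGood P h4208 :=
  frun_good hP hl T_4208 f0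
theorem G_4207 (hP : P.ok) (hl : ¬ InB P loc) : FGood P h4207 :=
  frun_good hP hl T_4207 (fc (G_4208 hP hl) (fc (G_4209 hP hl) f0))
theorem G_4206 (hP : P.ok) (hl : ¬ InB P loc) : FGood P h4206 :=
  frun_good hP hl T_4206 f0
theorem G_4205 (hP : P.ok) (hl : ¬ InB P loc) : FGood P h4205 :=
  frun_good hP hl T_4205 f0
theorem G_4204 (hP : P.ok) (hl : ¬ InB P loc) : FGood P h4204 :=
  frun_good hP hl T_4204 f0
theorem G_4203 (hP : P.ok) (hl : ¬ InB P loc) : FGood P h4203 :=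
  frun_good hP hl T_4203 f0
theorem G_4202 (hP : P.ok) (hl : ¬ InB P loc) : FGood P h4202 :=
  frun_good hP hl T_4202 f0
theorem G_4201 (hP : P.ok) (hl : ¬ InB P loc) : FGood P h4201 :=
  frun_good hP hl T_4201 f0
theorem G_4200 (hP : P.ok) (hl : ¬ InB P loc) : FGood P h4200 :=
  frun_good hP hl T_4200 f0
theorem G_4199 (hP : P.ok) (hl : ¬ InB P loc) : FGood P h4199 :=
  frun_good hP hl T_4199 f0
theorem G_4198 (hP : P.ok) (hl : ¬ InB P loc) : FGood P h4198 :=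
  frun_good hP hl T_4198 f0
theorem G_4197 (hP : P.ok) (hl : ¬ InB P loc) : FGood P h4197 :=
  frun_good hP hl T_4197 f0
theorem G_4196 (hP : P.ok) (hl : ¬ InB P loc) : FGood P h4196 :=
  frun_good hP hl T_4196 f0
theorem G_4195 (hP : P.ok) (hl : ¬ InB P loc) : FGood P h4195 :=
  frun_good hP hl T_4195 f0
theorem G_4194 (hP : P.ok) (hl : ¬ InB P loc) : FGood P h4194 :=
  frun_good hP hl T_4194 f0
theorem G_4193 (hP : P.ok) (hl : ¬ InB P loc) : FGood P h4193 :=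
  frun_good hP hl T_4193 f0
theorem G_4192 (hP : P.ok) (hl : ¬ InB P loc) : FGood P h4192 :=
  frun_good hP hl T_4192 f0
theorem G_4191 (hP : P.ok) (hl : ¬ InB P loc) : FGood P h4191 :=
  frun_good hP hl T_4191 f0
theorem G_4190 (hP : P.ok) (hl : ¬ InB P loc) : FGood P h4190 :=
  frun_good hP hl T_4190 f0
theorem G_4189 (hP : P.ok) (hl : ¬ InB P loc) : FGood P h4189 :=
  frun_good hP hl T_4189 f0
theorem G_4188 (hP : P.ok) (hl : ¬ InB P loc) : FGood P h4188 :=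
  frun_good hP hl T_4188 f0
theorem G_4187 (hP : P.ok) (hl : ¬ InB P loc) : FGood P h4187 :=
  frun_good hP hl T_4187 f0
theorem G_4186 (hP : P.ok) (hl : ¬ InB P loc) : FGood P h4186 :=
  frun_good hP hl T_4186 f0
theorem G_4185 (hP : P.ok) (hl : ¬ InB P loc) : FGood P h4185 :=
  frun_good hP hl T_4185 f0
theorem G_4184 (hP : P.ok) (hl : ¬ InB P loc) : FGood P h4184 :=
  frun_good hP hl T_4184 f0
theorem G_4183 (hP : P.ok) (hl : ¬ InB P loc) : FGood P h4183 :=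
  frun_good hP hl T_4183 f0
theorem G_4182 (hP : P.ok) (hl : ¬ InB P loc) : FGood P h4182 :=
  frun_good hP hl T_4182 f0
theorem G_4181 (hP : P.ok) (hl : ¬ InB P loc) : FGood P h4181 :=
  frun_good hP hl T_4181 (fc (G_4182 hP hl) (fc (G_4183 hP hl) (fc (G_4184 hP hl) (fc (G_4185 hP hl) (fc (G_4186 hP hl) (fc (G_4187 hP hl) (fc (G_4188 hP hl) (fc (G_4189 hP hl) (fc (G_4190 hP hl) (fc (G_4191 hP hl) (fc (G_4192 hP hl) (fc (G_4193 hP hl) (fc (G_4194 hP hl) (fc (G_4195 hP hl) (fc (G_4196 hP hl) (fc (G_4197 hP hl) (fc (G_4198 hP hl) (fc (G_4199 hP hl) f0))))))))))))))))))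
theorem G_4180 (hP : P.ok) (hl : ¬ InB P loc) : FGood P h4180 :=
  frun_good hP hl T_4180 f0
theorem G_4179 (hP : P.ok) (hl : ¬ InB P loc) : FGood P h4179 :=
  frun_good hP hl T_4179 f0
theorem G_4178 (hP : P.ok) (hl : ¬ InB P loc) : FGood P h4178 :=
  frun_good hP hl T_4178 f0
theorem G_4177 (hP : P.ok) (hl : ¬ InB P loc) : FGood P h4177 :=
  frun_good hP hl T_4177 f0
theorem G_4176 (hP : P.ok) (hl : ¬ InB P loc) : FGood P h4176 :=
  frun_good hP hl T_4176 f0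
theorem G_4175 (hP : P.ok) (hl : ¬ InB P loc) : FGood P h4175 :=
  frun_good hP hl T_4175 (fc (G_4176 hP hl) (fc (G_4177 hP hl) (fc (G_4178 hP hl) (fc (G_4179 hP hl) (fc (G_4180 hP hl) f0)))))
theorem G_4174 (hP : P.ok) (hl : ¬ InB P loc) : FGood P h4174 :=
  frun_good hP hl T_4174 f0
theorem G_4173 (hP : P.ok) (hl : ¬ InB P loc) : FGood P h4173 :=
  frun_good hP hl T_4173 f0
theorem G_4172 (hP : P.ok) (hl : ¬ InB P loc) : FGood P h4172 :=
  frun_good hP hl T_4172 (fc (G_4173 hP hl) f0)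
theorem G_4171 (hP : P.ok) (hl : ¬ InB P loc) : FGood P h4171 :=
  frun_good hP hl T_4171 f0
theorem G_4170 (hP : P.ok) (hl : ¬ InB P loc) : FGood P h4170 :=
  frun_good hP hl T_4170 f0
theorem G_4169 (hP : P.ok) (hl : ¬ InB P loc) : FGood P h4169 :=
  frun_good hP hl T_4169 f0
theorem G_4168 (hP : P.ok) (hl : ¬ InB P loc) : FGood P h4168 :=
  frun_good hP hl T_4168 f0
theorem G_4167 (hP : P.ok) (hl : ¬ InB P loc) : FGood P h4167 :=
  frun_good hP hl T_4167 f0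
theorem G_4166 (hP : P.ok) (hl : ¬ InB P loc) : FGood P h4166 :=
  frun_good hP hl T_4166 f0
theorem G_4165 (hP : P.ok) (hl : ¬ InB P loc) : FGood P h4165 :=
  frun_good hP hl T_4165 f0
theorem G_4164 (hP : P.ok) (hl : ¬ InB P loc) : FGood P h4164 :=
  frun_good hP hl T_4164 f0
theorem G_4163 (hP : P.ok) (hl : ¬ InB P loc) : FGood P h4163 :=
  frun_good hP hl T_4163 f0
theorem G_4162 (hP : P.ok) (hl : ¬ InB P loc) : FGood P h4162 :=
  frun_good hP hl T_4162 f0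
theorem G_4161 (hP : P.ok) (hl : ¬ InB P loc) : FGood P h4161 :=
  frun_good hP hl T_4161 f0
theorem G_4160 (hP : P.ok) (hl : ¬ InB P loc) : FGood P h4160 :=
  frun_good hP hl T_4160 f0
theorem G_4159 (hP : P.ok) (hl : ¬ InB P loc) : FGood P h4159 :=
  frun_good hP hl T_4159 f0
theorem G_4158 (hP : P.ok) (hl : ¬ InB P loc) : FGood P h4158 :=
  frun_good hP hl T_4158 f0
theorem G_4157 (hP : P.ok) (hl : ¬ InB P loc) : FGood P h4157 :=
  frun_good hP hl T_4157 f0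
theorem G_4156 (hP : P.ok) (hl : ¬ InB P loc) : FGood P h4156 :=
  frun_good hP hl T_4156 f0
theorem G_4155 (hP : P.ok) (hl : ¬ InB P loc) : FGood P h4155 :=
  frun_good hP hl T_4155 f0
theorem G_4154 (hP : P.ok) (hl : ¬ InB P loc) : FGood P h4154 :=
  frun_good hP hl T_4154 f0
theorem G_4153 (hP : P.ok) (hl : ¬ InB P loc) : FGood P h4153 :=
  frun_good hP hl T_4153 f0
theorem G_4152 (hP : P.ok) (hl : ¬ InB P loc) : FGood P h4152 :=
  frun_good hP hl T_4152 (fc (G_4171 hP hl) f0)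
theorem G_4151 (hP : P.ok) (hl : ¬ InB P loc) : FGood P h4151 :=
  frun_good hP hl T_4151 f0
theorem G_4150 (hP : P.ok) (hl : ¬ InB P loc) : FGood P h4150 :=
  frun_good hP hl T_4150 f0
theorem G_4149 (hP : P.ok) (hl : ¬ InB P loc) : FGood P h4149 :=
  frun_good hP hl T_4149 f0
theorem G_4148 (hP : P.ok) (hl : ¬ InB P loc) : FGood P h4148 :=
  frun_good hP hl T_4148 f0
theorem G_4147 (hP : P.ok) (hl : ¬ InB P loc) : FGood P h4147 :=
  frun_good hP hl T_4147 f0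
theorem G_4146 (hP : P.ok) (hl : ¬ InB P loc) : FGood P h4146 :=
  frun_good hP hl T_4146 f0
theorem G_4145 (hP : P.ok) (hl : ¬ InB P loc) : FGood P h4145 :=
  frun_good hP hl T_4145 f0
theorem G_4144 (hP : P.ok) (hl : ¬ InB P loc) : FGood P h4144 :=
  frun_good hP hl T_4144 f0
theorem G_4143 (hP : P.ok) (hl : ¬ InB P loc) : FGood P h4143 :=
  frun_good hP hl T_4143 f0
theorem G_4142 (hP : P.ok) (hl : ¬ InB P loc) : FGood P h4142 :=
  frun_good hP hl T_4142 f0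
theorem G_4141 (hP : P.ok) (hl : ¬ InB P loc) : FGood P h4141 :=
  frun_good hP hl T_4141 f0
theorem G_4140 (hP : P.ok) (hl : ¬ InB P loc) : FGood P h4140 :=
  frun_good hP hl T_4140 f0
theorem G_4139 (hP : P.ok) (hl : ¬ InB P loc) : FGood P h4139 :=
  frun_good hP hl T_4139 f0
theorem G_4138 (hP : P.ok) (hl : ¬ InB P loc) : FGood P h4138 :=
  frun_good hP hl T_4138 f0
theorem G_4137 (hP : P.ok) (hl : ¬ InB P loc) : FGood P h4137 :=
  frun_good hP hl T_4137 f0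
theorem G_4136 (hP : P.ok) (hl : ¬ InB P loc) : FGood P h4136 :=
  frun_good hP hl T_4136 f0
theorem G_4135 (hP : P.ok) (hl : ¬ InB P loc) : FGood P h4135 :=
  frun_good hP hl T_4135 f0
theorem G_4134 (hP : P.ok) (hl : ¬ InB P loc) : FGood P h4134 :=
  frun_good hP hl T_4134 (fc (G_4152 hP hl) (fc (G_4153 hP hl) (fc (G_4154 hP hl) (fc (G_4155 hP hl) (fc (G_4156 hP hl) (fc (G_4157 hP hl) (fc (G_4158 hP hl) (fc (G_4159 hP hl) (fc (G_4160 hP hl) (fc (G_4161 hP hl) (fc (G_4162 hP hl) (fc (G_4163 hP hl) (fc (G_4164 hP hl) (fc (G_4165 hP hl) (fc (G_4166 hP hl) (fc (G_4167 hP hl) (fc (G_4168 hP hl) (fc (G_4169 hP hl) (fc (G_4170 hP hl) f0)))))))))))))))))))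
theorem G_4133 (hP : P.ok) (hl : ¬ InB P loc) : FGood P h4133 :=
  frun_good hP hl T_4133 (fc (G_4142 hP hl) (fc (G_4143 hP hl) (fc (G_4144 hP hl) (fc (G_4145 hP hl) (fc (G_4146 hP hl) (fc (G_4147 hP hl) (fc (G_4148 hP hl) (fc (G_4149 hP hl) (fc (G_4150 hP hl) (fc (G_4151 hP hl) f0))))))))))
theorem G_4132 (hP : P.ok) (hl : ¬ InB P loc) : FGood P h4132 :=
  frun_good hP hl T_4132 (fc (G_4134 hP hl) (fc (G_4135 hP hl) (fc (G_4136 hP hl) (fc (G_4137 hP hl) (fc (G_4138 hP hl) (fc (G_4139 hP hl) (fc (G_4140 hP hl) (fc (G_4141 hP hl) f0))))))))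
theorem G_4131 (hP : P.ok) (hl : ¬ InB P loc) : FGood P h4131 :=
  frun_good hP hl T_4131 (fc (G_4132 hP hl) (fc (G_4133 hP hl) f0))
theorem G_4130 (hP : P.ok) (hl : ¬ InB P loc) : FGood P h4130 :=
  frun_good hP hl T_4130 f0
theorem G_4129 (hP : P.ok) (hl : ¬ InB P loc) : FGood P h4129 :=
  frun_good hP hl T_4129 f0
theorem G_4128 (hP : P.ok) (hl : ¬ InB P loc) : FGood P h4128 :=
  frun_good hP hl T_4128 f0
theorem G_4127 (hP : P.ok) (hl : ¬ InB P loc) : FGood P h4127 :=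
  frun_good hP hl T_4127 f0
theorem G_4126 (hP : P.ok) (hl : ¬ InB P loc) : FGood P h4126 :=
  frun_good hP hl T_4126 f0
theorem G_4125 (hP : P.ok) (hl : ¬ InB P loc) : FGood P h4125 :=
  frun_good hP hl T_4125 f0
theorem G_4124 (hP : P.ok) (hl : ¬ InB P loc) : FGood P h4124 :=
  frun_good hP hl T_4124 f0
theorem G_4123 (hP : P.ok) (hl : ¬ InB P loc) : FGood P h4123 :=
  frun_good hP hl T_4123 f0
theorem G_4122 (hP : P.ok) (hl : ¬ InB P loc) : FGood P h4122 :=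
  frun_good hP hl T_4122 f0
theorem G_4121 (hP : P.ok) (hl : ¬ InB P loc) : FGood P h4121 :=
  frun_good hP hl T_4121 f0
theorem G_4120 (hP : P.ok) (hl : ¬ InB P loc) : FGood P h4120 :=
  frun_good hP hl T_4120 f0
theorem G_4119 (hP : P.ok) (hl : ¬ InB P loc) : FGood P h4119 :=
  frun_good hP hl T_4119 f0
theorem G_4118 (hP : P.ok) (hl : ¬ InB P loc) : FGood P h4118 :=
  frun_good hP hl T_4118 f0
theorem G_4117 (hP : P.ok) (hl : ¬ InB P loc) : FGood P h4117 :=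
  frun_good hP hl T_4117 f0
theorem G_4116 (hP : P.ok) (hl : ¬ InB P loc) : FGood P h4116 :=
  frun_good hP hl T_4116 f0
theorem G_4115 (hP : P.ok) (hl : ¬ InB P loc) : FGood P h4115 :=
  frun_good hP hl T_4115 f0
theorem G_4114 (hP : P.ok) (hl : ¬ InB P loc) : FGood P h4114 :=
  frun_good hP hl T_4114 f0
theorem G_4113 (hP : P.ok) (hl : ¬ InB P loc) : FGood P h4113 :=
  frun_good hP hl T_4113 f0
theorem G_4112 (hP : P.ok) (hl : ¬ InB P loc) : FGood P h4112 :=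
  frun_good hP hl T_4112 f0
theorem G_4111 (hP : P.ok) (hl : ¬ InB P loc) : FGood P h4111 :=
  frun_good hP hl T_4111 f0
theorem G_4110 (hP : P.ok) (hl : ¬ InB P loc) : FGood P h4110 :=
  frun_good hP hl T_4110 (fc (G_4111 hP hl) (fc (G_4112 hP hl) (fc (G_4113 hP hl) (fc (G_4114 hP hl) (fc (G_4115 hP hl) (fc (G_4116 hP hl) (fc (G_4117 hP hl) (fc (G_4118 hP hl) (fc (G_4119 hP hl) (fc (G_4120 hP hl) (fc (G_4121 hP hl) (fc (G_4122 hP hl) (fc (G_4123 hP hl) (fc (G_4124 hP hl) (fc (G_4125 hP hl) (fc (G_4126 hP hl) (fc (G_4127 hP hl) (fc (G_4128 hP hl) (fc (G_4129 hP hl) (fc (G_4130 hP hl) f0))))))))))))))))))))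
theorem G_4109 (hP : P.ok) (hl : ¬ InB P loc) : FGood P h4109 :=
  frun_good hP hl T_4109 f0
theorem G_4108 (hP : P.ok) (hl : ¬ InB P loc) : FGood P h4108 :=
  frun_good hP hl T_4108 (fc (G_4109 hP hl) f0)
theorem G_4107 (hP : P.ok) (hl : ¬ InB P loc) : FGood P h4107 :=
  frun_good hP hl T_4107 f0
theorem G_4106 (hP : P.ok) (hl : ¬ InB P loc) : FGood P h4106 :=
  frun_good hP hl T_4106 f0
theorem G_4105 (hP : P.ok) (hl : ¬ InB P loc) : FGood P h4105 :=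
  frun_good hP hl T_4105 f0
theorem G_4104 (hP : P.ok) (hl : ¬ InB P loc) : FGood P h4104 :=
  frun_good hP hl T_4104 f0
theorem G_4103 (hP : P.ok) (hl : ¬ InB P loc) : FGood P h4103 :=
  frun_good hP hl T_4103 f0
theorem G_4102 (hP : P.ok) (hl : ¬ InB P loc) : FGood P h4102 :=
  frun_good hP hl T_4102 f0
theorem G_4101 (hP : P.ok) (hl : ¬ InB P loc) : FGood P h4101 :=
  frun_good hP hl T_4101 f0
theorem G_4100 (hP : P.ok) (hl : ¬ InB P loc) : FGood P h4100 :=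
  frun_good hP hl T_4100 f0
theorem G_4099 (hP : P.ok) (hl : ¬ InB P loc) : FGood P h4099 :=
  frun_good hP hl T_4099 f0
theorem G_4098 (hP : P.ok) (hl : ¬ InB P loc) : FGood P h4098 :=
  frun_good hP hl T_4098 f0
theorem G_4097 (hP : P.ok) (hl : ¬ InB P loc) : FGood P h4097 :=
  frun_good hP hl T_4097 f0
theorem G_4096 (hP : P.ok) (hl : ¬ InB P loc) : FGood P h4096 :=
  frun_good hP hl T_4096 f0
theorem G_4095 (hP : P.ok) (hl : ¬ InB P loc) : FGood P h4095 :=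
  frun_good hP hl T_4095 f0
theorem G_4094 (hP : P.ok) (hl : ¬ InB P loc) : FGood P h4094 :=
  frun_good hP hl T_4094 f0
theorem G_4093 (hP : P.ok) (hl : ¬ InB P loc) : FGood P h4093 :=
  frun_good hP hl T_4093 f0
theorem G_4092 (hP : P.ok) (hl : ¬ InB P loc) : FGood P h4092 :=
  frun_good hP hl T_4092 (fc (G_4093 hP hl) (fc (G_4094 hP hl) (fc (G_4095 hP hl) (fc (G_4096 hP hl) (fc (G_4097 hP hl) (fc (G_4098 hP hl) (fc (G_4099 hP hl) (fc (G_4100 hP hl) (fc (G_4101 hP hl) (fc (G_4102 hP hl) (fc (G_4103 hP hl) (fc (G_4104 hP hl) (fc (G_4105 hP hl) (fc (G_4106 hP hl) (fc (G_4107 hP hl) (fc (G_4108 hP hl) f0))))))))))))))))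
theorem G_4091 (hP : P.ok) (hl : ¬ InB P loc) : FGood P h4091 :=
  frun_good hP hl T_4091 f0
theorem G_4090 (hP : P.ok) (hl : ¬ InB P loc) : FGood P h4090 :=
  frun_good hP hl T_4090 (fc (G_4091 hP hl) f0)
theorem G_4089 (hP : P.ok) (hl : ¬ InB P loc) : FGood P h4089 :=
  frun_good hP hl T_4089 f0
theorem G_4088 (hP : P.ok) (hl : ¬ InB P loc) : FGood P h4088 :=
  frun_good hP hl T_4088 f0
theorem G_4087 (hP : P.ok) (hl : ¬ InB P loc) : FGood P h4087 :=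
  frun_good hP hl T_4087 f0
theorem G_4086 (hP : P.ok) (hl : ¬ InB P loc) : FGood P h4086 :=
  frun_good hP hl T_4086 f0
theorem G_4085 (hP : P.ok) (hl : ¬ InB P loc) : FGood P h4085 :=
  frun_good hP hl T_4085 f0
theorem G_4084 (hP : P.ok) (hl : ¬ InB P loc) : FGood P h4084 :=
  frun_good hP hl T_4084 f0
theorem G_4083 (hP : P.ok) (hl : ¬ InB P loc) : FGood P h4083 :=
  frun_good hP hl T_4083 f0
theorem G_4082 (hP : P.ok) (hl : ¬ InB P loc) : FGood P h4082 :=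
  frun_good hP hl T_4082 f0
theorem G_4081 (hP : P.ok) (hl : ¬ InB P loc) : FGood P h4081 :=
  frun_good hP hl T_4081 f0
theorem G_4080 (hP : P.ok) (hl : ¬ InB P loc) : FGood P h4080 :=
  frun_good hP hl T_4080 f0
theorem G_4079 (hP : P.ok) (hl : ¬ InB P loc) : FGood P h4079 :=
  frun_good hP hl T_4079 f0
theorem G_4078 (hP : P.ok) (hl : ¬ InB P loc) : FGood P h4078 :=
  frun_good hP hl T_4078 f0
theorem G_4077 (hP : P.ok) (hl : ¬ InB P loc) : FGood P h4077 :=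
  frun_good hP hl T_4077 f0
theorem G_4076 (hP : P.ok) (hl : ¬ InB P loc) : FGood P h4076 :=
  frun_good hP hl T_4076 f0
theorem G_4075 (hP : P.ok) (hl : ¬ InB P loc) : FGood P h4075 :=
  frun_good hP hl T_4075 (fc (G_4076 hP hl) (fc (G_4077 hP hl) (fc (G_4078 hP hl) (fc (G_4079 hP hl) (fc (G_4080 hP hl) (fc (G_4081 hP hl) f0))))))
theorem G_4074 (hP : P.ok) (hl : ¬ InB P loc) : FGood P h4074 :=
  frun_good hP hl T_4074 f0
theorem G_4073 (hP : P.ok) (hl : ¬ InB P loc) : FGood P h4073 :=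
  frun_good hP hl T_4073 f0
theorem G_4072 (hP : P.ok) (hl : ¬ InB P loc) : FGood P h4072 :=
  frun_good hP hl T_4072 f0
theorem G_4071 (hP : P.ok) (hl : ¬ InB P loc) : FGood P h4071 :=
  frun_good hP hl T_4071 f0
theorem G_4070 (hP : P.ok) (hl : ¬ InB P loc) : FGood P h4070 :=
  frun_good hP hl T_4070 f0
theorem G_4069 (hP : P.ok) (hl : ¬ InB P loc) : FGood P h4069 :=
  frun_good hP hl T_4069 f0
theorem G_4068 (hP : P.ok) (hl : ¬ InB P loc) : FGood P h4068 :=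
  frun_good hP hl T_4068 f0
theorem G_4067 (hP : P.ok) (hl : ¬ InB P loc) : FGood P h4067 :=
  frun_good hP hl T_4067 (fc (G_4068 hP hl) (fc (G_4069 hP hl) (fc (G_4070 hP hl) (fc (G_4071 hP hl) (fc (G_4072 hP hl) (fc (G_4073 hP hl) (fc (G_4074 hP hl) f0)))))))
theorem G_4066 (hP : P.ok) (hl : ¬ InB P loc) : FGood P h4066 :=
  frun_good hP hl T_4066 f0
theorem G_4065 (hP : P.ok) (hl : ¬ InB P loc) : FGood P h4065 :=
  frun_good hP hl T_4065 (fc (G_4066 hP hl) f0)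
theorem G_4064 (hP : P.ok) (hl : ¬ InB P loc) : FGood P h4064 :=
  frun_good hP hl T_4064 f0
theorem G_4063 (hP : P.ok) (hl : ¬ InB P loc) : FGood P h4063 :=
  frun_good hP hl T_4063 f0
theorem G_4062 (hP : P.ok) (hl : ¬ InB P loc) : FGood P h4062 :=
  frun_good hP hl T_4062 f0
theorem G_4061 (hP : P.ok) (hl : ¬ InB P loc) : FGood P h4061 :=
  frun_good hP hl T_4061 f0
theorem G_4060 (hP : P.ok) (hl : ¬ InB P loc) : FGood P h4060 :=
  frun_good hP hl T_4060 f0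
theorem G_4059 (hP : P.ok) (hl : ¬ InB P loc) : FGood P h4059 :=
  frun_good hP hl T_4059 f0
theorem G_4058 (hP : P.ok) (hl : ¬ InB P loc) : FGood P h4058 :=
  frun_good hP hl T_4058 f0
theorem G_4057 (hP : P.ok) (hl : ¬ InB P loc) : FGood P h4057 :=
  frun_good hP hl T_4057 f0
theorem G_4056 (hP : P.ok) (hl : ¬ InB P loc) : FGood P h4056 :=
  frun_good hP hl T_4056 f0
theorem G_4055 (hP : P.ok) (hl : ¬ InB P loc) : FGood P h4055 :=
  frun_good hP hl T_4055 f0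
theorem G_4054 (hP : P.ok) (hl : ¬ InB P loc) : FGood P h4054 :=
  frun_good hP hl T_4054 f0
theorem G_4053 (hP : P.ok) (hl : ¬ InB P loc) : FGood P h4053 :=
  frun_good hP hl T_4053 (fc (G_4054 hP hl) (fc (G_4055 hP hl) (fc (G_4056 hP hl) (fc (G_4057 hP hl) (fc (G_4058 hP hl) (fc (G_4059 hP hl) (fc (G_4060 hP hl) (fc (G_4061 hP hl) (fc (G_4062 hP hl) (fc (G_4063 hP hl) (fc (G_4064 hP hl) (fc (G_4065 hP hl) f0))))))))))))
theorem G_4052 (hP : P.ok) (hl : ¬ InB P loc) : FGood P h4052 :=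
  frun_good hP hl T_4052 f0
theorem G_4051 (hP : P.ok) (hl : ¬ InB P loc) : FGood P h4051 :=
  frun_good hP hl T_4051 f0
theorem G_4050 (hP : P.ok) (hl : ¬ InB P loc) : FGood P h4050 :=
  frun_good hP hl T_4050 f0
theorem G_4049 (hP : P.ok) (hl : ¬ InB P loc) : FGood P h4049 :=
  frun_good hP hl T_4049 f0
theorem G_4048 (hP : P.ok) (hl : ¬ InB P loc) : FGood P h4048 :=
  frun_good hP hl T_4048 f0
theorem G_4047 (hP : P.ok) (hl : ¬ InB P loc) : FGood P h4047 :=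
  frun_good hP hl T_4047 f0
theorem G_4046 (hP : P.ok) (hl : ¬ InB P loc) : FGood P h4046 :=
  frun_good hP hl T_4046 f0
theorem G_4045 (hP : P.ok) (hl : ¬ InB P loc) : FGood P h4045 :=
  frun_good hP hl T_4045 f0
theorem G_4044 (hP : P.ok) (hl : ¬ InB P loc) : FGood P h4044 :=
  frun_good hP hl T_4044 f0
theorem G_4043 (hP : P.ok) (hl : ¬ InB P loc) : FGood P h4043 :=
  frun_good hP hl T_4043 f0
theorem G_4042 (hP : P.ok) (hl : ¬ InB P loc) : FGood P h4042 :=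
  frun_good hP hl T_4042 (fc (G_4052 hP hl) f0)
theorem G_4041 (hP : P.ok) (hl : ¬ InB P loc) : FGood P h4041 :=
  frun_good hP hl T_4041 (fc (G_4042 hP hl) (fc (G_4043 hP hl) (fc (G_4044 hP hl) (fc (G_4045 hP hl) (fc (G_4046 hP hl) (fc (G_4047 hP hl) (fc (G_4048 hP hl) (fc (G_4049 hP hl) (fc (G_4050 hP hl) (fc (G_4051 hP hl) f0))))))))))
theorem G_4040 (hP : P.ok) (hl : ¬ InB P loc) : FGood P h4040 :=
  frun_good hP hl T_4040 f0
theorem G_4039 (hP : P.ok) (hl : ¬ InB P loc) : FGood P h4039 :=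
  frun_good hP hl T_4039 f0
theorem G_4038 (hP : P.ok) (hl : ¬ InB P loc) : FGood P h4038 :=
  frun_good hP hl T_4038 f0
theorem G_4037 (hP : P.ok) (hl : ¬ InB P loc) : FGood P h4037 :=
  frun_good hP hl T_4037 f0
theorem G_4036 (hP : P.ok) (hl : ¬ InB P loc) : FGood P h4036 :=
  frun_good hP hl T_4036 (fc (G_4037 hP hl) f0)
theorem G_4035 (hP : P.ok) (hl : ¬ InB P loc) : FGood P h4035 :=
  frun_good hP hl T_4035 f0
theorem G_4034 (hP : P.ok) (hl : ¬ InB P loc) : FGood P h4034 :=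
  frun_good hP hl T_4034 (fc (G_4035 hP hl) (fc (G_4036 hP hl) f0))
theorem G_4033 (hP : P.ok) (hl : ¬ InB P loc) : FGood P h4033 :=
  frun_good hP hl T_4033 f0
theorem G_4032 (hP : P.ok) (hl : ¬ InB P loc) : FGood P h4032 :=
  frun_good hP hl T_4032 f0
theorem G_4031 (hP : P.ok) (hl : ¬ InB P loc) : FGood P h4031 :=
  frun_good hP hl T_4031 f0
theorem G_4030 (hP : P.ok) (hl : ¬ InB P loc) : FGood P h4030 :=
  frun_good hP hl T_4030 f0
theorem G_4029 (hP : P.ok) (hl : ¬ InB P loc) : FGood P h4029 :=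
  frun_good hP hl T_4029 f0
theorem G_4028 (hP : P.ok) (hl : ¬ InB P loc) : FGood P h4028 :=
  frun_good hP hl T_4028 f0
theorem G_4027 (hP : P.ok) (hl : ¬ InB P loc) : FGood P h4027 :=
  frun_good hP hl T_4027 f0
theorem G_4026 (hP : P.ok) (hl : ¬ InB P loc) : FGood P h4026 :=
  frun_good hP hl T_4026 f0
theorem G_4025 (hP : P.ok) (hl : ¬ InB P loc) : FGood P h4025 :=
  frun_good hP hl T_4025 f0
theorem G_4024 (hP : P.ok) (hl : ¬ InB P loc) : FGood P h4024 :=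
  frun_good hP hl T_4024 f0
theorem G_4023 (hP : P.ok) (hl : ¬ InB P loc) : FGood P h4023 :=
  frun_good hP hl T_4023 f0
theorem G_4022 (hP : P.ok) (hl : ¬ InB P loc) : FGood P h4022 :=
  frun_good hP hl T_4022 f0
theorem G_4021 (hP : P.ok) (hl : ¬ InB P loc) : FGood P h4021 :=
  frun_good hP hl T_4021 f0
theorem G_4020 (hP : P.ok) (hl : ¬ InB P loc) : FGood P h4020 :=
  frun_good hP hl T_4020 f0
theorem G_4019 (hP : P.ok) (hl : ¬ InB P loc) : FGood P h4019 :=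
  frun_good hP hl T_4019 f0
theorem G_4018 (hP : P.ok) (hl : ¬ InB P loc) : FGood P h4018 :=
  frun_good hP hl T_4018 (fc (G_4021 hP hl) (fc (G_4022 hP hl) (fc (G_4023 hP hl) (fc (G_4024 hP hl) (fc (G_4025 hP hl) (fc (G_4026 hP hl) (fc (G_4027 hP hl) (fc (G_4028 hP hl) (fc (G_4029 hP hl) (fc (G_4030 hP hl) (fc (G_4031 hP hl) (fc (G_4032 hP hl) f0))))))))))))
theorem G_4017 (hP : P.ok) (hl : ¬ InB P loc) : FGood P h4017 :=
  frun_good hP hl T_4017 (fc (G_4018 hP hl) (fc (G_4019 hP hl) (fc (G_4020 hP hl) f0)))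
theorem G_4016 (hP : P.ok) (hl : ¬ InB P loc) : FGood P h4016 :=
  frun_good hP hl T_4016 f0
theorem G_4015 (hP : P.ok) (hl : ¬ InB P loc) : FGood P h4015 :=
  frun_good hP hl T_4015 f0
theorem G_4014 (hP : P.ok) (hl : ¬ InB P loc) : FGood P h4014 :=
  frun_good hP hl T_4014 f0
theorem G_4013 (hP : P.ok) (hl : ¬ InB P loc) : FGood P h4013 :=
  frun_good hP hl T_4013 f0
theorem G_4012 (hP : P.ok) (hl : ¬ InB P loc) : FGood P h4012 :=
  frun_good hP hl T_4012 (fc (G_4013 hP hl) (fc (G_4014 hP hl) f0))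
theorem G_4011 (hP : P.ok) (hl : ¬ InB P loc) : FGood P h4011 :=
  frun_good hP hl T_4011 f0
theorem G_4010 (hP : P.ok) (hl : ¬ InB P loc) : FGood P h4010 :=
  frun_good hP hl T_4010 f0
theorem G_4009 (hP : P.ok) (hl : ¬ InB P loc) : FGood P h4009 :=
  frun_good hP hl T_4009 f0
theorem G_4008 (hP : P.ok) (hl : ¬ InB P loc) : FGood P h4008 :=
  frun_good hP hl T_4008 f0
theorem G_4007 (hP : P.ok) (hl : ¬ InB P loc) : FGood P h4007 :=
  frun_good hP hl T_4007 f0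
theorem G_4006 (hP : P.ok) (hl : ¬ InB P loc) : FGood P h4006 :=
  frun_good hP hl T_4006 f0
theorem G_4005 (hP : P.ok) (hl : ¬ InB P loc) : FGood P h4005 :=
  frun_good hP hl T_4005 f0
theorem G_4004 (hP : P.ok) (hl : ¬ InB P loc) : FGood P h4004 :=
  frun_good hP hl T_4004 f0
theorem G_4003 (hP : P.ok) (hl : ¬ InB P loc) : FGood P h4003 :=
  frun_good hP hl T_4003 (fc (G_4005 hP hl) (fc (G_4006 hP hl) (fc (G_4007 hP hl) (fc (G_4008 hP hl) (fc (G_4009 hP hl) (fc (G_4010 hP hl) (fc (G_4011 hP hl) f0)))))))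
theorem G_4002 (hP : P.ok) (hl : ¬ InB P loc) : FGood P h4002 :=
  frun_good hP hl T_4002 (fc (G_4003 hP hl) (fc (G_4004 hP hl) f0))
theorem G_4001 (hP : P.ok) (hl : ¬ InB P loc) : FGood P h4001 :=
  frun_good hP hl T_4001 f0
theorem G_4000 (hP : P.ok) (hl : ¬ InB P loc) : FGood P h4000 :=
  frun_good hP hl T_4000 f0
theorem G_3999 (hP : P.ok) (hl : ¬ InB P loc) : FGood P h3999 :=
  frun_good hP hl T_3999 f0
theorem G_3998 (hP : P.ok) (hl : ¬ InB P loc) : FGood P h3998 :=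
  frun_good hP hl T_3998 f0
theorem G_3997 (hP : P.ok) (hl : ¬ InB P loc) : FGood P h3997 :=
  frun_good hP hl T_3997 (fc (G_3999 hP hl) f0)
theorem G_3996 (hP : P.ok) (hl : ¬ InB P loc) : FGood P h3996 :=
  frun_good hP hl T_3996 (fc (G_3998 hP hl) f0)
theorem G_3995 (hP : P.ok) (hl : ¬ InB P loc) : FGood P h3995 :=
  frun_good hP hl T_3995 (fc (G_3996 hP hl) (fc (G_3997 hP hl) f0))
theorem G_3994 (hP : P.ok) (hl : ¬ InB P loc) : FGood P h3994 :=
  frun_good hP hl T_3994 f0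
theorem G_3993 (hP : P.ok) (hl : ¬ InB P loc) : FGood P h3993 :=
  frun_good hP hl T_3993 (fc (G_3994 hP hl) f0)
theorem G_3992 (hP : P.ok) (hl : ¬ InB P loc) : FGood P h3992 :=
  frun_good hP hl T_3992 f0
theorem G_3991 (hP : P.ok) (hl : ¬ InB P loc) : FGood P h3991 :=
  frun_good hP hl T_3991 f0
theorem G_3990 (hP : P.ok) (hl : ¬ InB P loc) : FGood P h3990 :=
  frun_good hP hl T_3990 f0
theorem G_3989 (hP : P.ok) (hl : ¬ InB P loc) : FGood P h3989 :=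
  frun_good hP hl T_3989 f0
theorem G_3988 (hP : P.ok) (hl : ¬ InB P loc) : FGood P h3988 :=
  frun_good hP hl T_3988 f0
theorem G_3987 (hP : P.ok) (hl : ¬ InB P loc) : FGood P h3987 :=
  frun_good hP hl T_3987 f0
theorem G_3986 (hP : P.ok) (hl : ¬ InB P loc) : FGood P h3986 :=
  frun_good hP hl T_3986 f0
theorem G_3985 (hP : P.ok) (hl : ¬ InB P loc) : FGood P h3985 :=
  frun_good hP hl T_3985 f0
theorem G_3984 (hP : P.ok) (hl : ¬ InB P loc) : FGood P h3984 :=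
  frun_good hP hl T_3984 (fc (G_3993 hP hl) f0)
theorem G_3983 (hP : P.ok) (hl : ¬ InB P loc) : FGood P h3983 :=
  frun_good hP hl T_3983 f0
theorem G_3982 (hP : P.ok) (hl : ¬ InB P loc) : FGood P h3982 :=
  frun_good hP hl T_3982 f0
theorem G_3981 (hP : P.ok) (hl : ¬ InB P loc) : FGood P h3981 :=
  frun_good hP hl T_3981 f0
theorem G_3980 (hP : P.ok) (hl : ¬ InB P loc) : FGood P h3980 :=
  frun_good hP hl T_3980 f0
theorem G_3979 (hP : P.ok) (hl : ¬ InB P loc) : FGood P h3979 :=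
  frun_good hP hl T_3979 (fc (G_3985 hP hl) (fc (G_3986 hP hl) (fc (G_3987 hP hl) (fc (G_3988 hP hl) (fc (G_3989 hP hl) (fc (G_3990 hP hl) (fc (G_3991 hP hl) (fc (G_3992 hP hl) f0))))))))
theorem G_3978 (hP : P.ok) (hl : ¬ InB P loc) : FGood P h3978 :=
  frun_good hP hl T_3978 (fc (G_3979 hP hl) (fc (G_3980 hP hl) (fc (G_3981 hP hl) (fc (G_3982 hP hl) (fc (G_3983 hP hl) (fc (G_3984 hP hl) f0))))))
theorem G_3977 (hP : P.ok) (hl : ¬ InB P loc) : FGood P h3977 :=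
  frun_good hP hl T_3977 f0
theorem G_3976 (hP : P.ok) (hl : ¬ InB P loc) : FGood P h3976 :=
  frun_good hP hl T_3976 f0
theorem G_3975 (hP : P.ok) (hl : ¬ InB P loc) : FGood P h3975 :=
  frun_good hP hl T_3975 f0
theorem G_3974 (hP : P.ok) (hl : ¬ InB P loc) : FGood P h3974 :=
  frun_good hP hl T_3974 f0
theorem G_3973 (hP : P.ok) (hl : ¬ InB P loc) : FGood P h3973 :=
  frun_good hP hl T_3973 f0
theorem G_3972 (hP : P.ok) (hl : ¬ InB P loc) : FGood P h3972 :=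
  frun_good hP hl T_3972 f0
theorem G_3971 (hP : P.ok) (hl : ¬ InB P loc) : FGood P h3971 :=
  frun_good hP hl T_3971 f0
theorem G_3970 (hP : P.ok) (hl : ¬ InB P loc) : FGood P h3970 :=
  frun_good hP hl T_3970 f0
theorem G_3969 (hP : P.ok) (hl : ¬ InB P loc) : FGood P h3969 :=
  frun_good hP hl T_3969 f0
theorem G_3968 (hP : P.ok) (hl : ¬ InB P loc) : FGood P h3968 :=
  frun_good hP hl T_3968 f0
theorem G_3967 (hP : P.ok) (hl : ¬ InB P loc) : FGood P h3967 :=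
  frun_good hP hl T_3967 f0
theorem G_3966 (hP : P.ok) (hl : ¬ InB P loc) : FGood P h3966 :=
  frun_good hP hl T_3966 f0
theorem G_3965 (hP : P.ok) (hl : ¬ InB P loc) : FGood P h3965 :=
  frun_good hP hl T_3965 f0
theorem G_3964 (hP : P.ok) (hl : ¬ InB P loc) : FGood P h3964 :=
  frun_good hP hl T_3964 f0
theorem G_3963 (hP : P.ok) (hl : ¬ InB P loc) : FGood P h3963 :=
  frun_good hP hl T_3963 (fc (G_3964 hP hl) (fc (G_3965 hP hl) (fc (G_3966 hP hl) (fc (G_3967 hP hl) (fc (G_3968 hP hl) (fc (G_3969 hP hl) (fc (G_3970 hP hl) (fc (G_3971 hP hl) (fc (G_3972 hP hl) (fc (G_3973 hP hl) (fc (G_3974 hP hl) (fc (G_3975 hP hl) (fc (G_3976 hP hl) (fc (G_3977 hP hl) f0))))))))))))))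
theorem G_3962 (hP : P.ok) (hl : ¬ InB P loc) : FGood P h3962 :=
  frun_good hP hl T_3962 f0
theorem G_3961 (hP : P.ok) (hl : ¬ InB P loc) : FGood P h3961 :=
  frun_good hP hl T_3961 f0
theorem G_3960 (hP : P.ok) (hl : ¬ InB P loc) : FGood P h3960 :=
  frun_good hP hl T_3960 (fc (G_3961 hP hl) (fc (G_3962 hP hl) f0))
theorem G_3959 (hP : P.ok) (hl : ¬ InB P loc) : FGood P h3959 :=
  frun_good hP hl T_3959 f0
theorem G_3958 (hP : P.ok) (hl : ¬ InB P loc) : FGood P h3958 :=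
  frun_good hP hl T_3958 f0
theorem G_3957 (hP : P.ok) (hl : ¬ InB P loc) : FGood P h3957 :=
  frun_good hP hl T_3957 f0
theorem G_3956 (hP : P.ok) (hl : ¬ InB P loc) : FGood P h3956 :=
  frun_good hP hl T_3956 f0
theorem G_3955 (hP : P.ok) (hl : ¬ InB P loc) : FGood P h3955 :=
  frun_good hP hl T_3955 f0
theorem G_3954 (hP : P.ok) (hl : ¬ InB P loc) : FGood P h3954 :=
  frun_good hP hl T_3954 f0
theorem G_3953 (hP : P.ok) (hl : ¬ InB P loc) : FGood P h3953 :=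
  frun_good hP hl T_3953 f0
theorem G_3952 (hP : P.ok) (hl : ¬ InB P loc) : FGood P h3952 :=
  frun_good hP hl T_3952 f0
theorem G_3951 (hP : P.ok) (hl : ¬ InB P loc) : FGood P h3951 :=
  frun_good hP hl T_3951 f0
theorem G_3950 (hP : P.ok) (hl : ¬ InB P loc) : FGood P h3950 :=
  frun_good hP hl T_3950 f0
theorem G_3949 (hP : P.ok) (hl : ¬ InB P loc) : FGood P h3949 :=
  frun_good hP hl T_3949 f0
theorem G_3948 (hP : P.ok) (hl : ¬ InB P loc) : FGood P h3948 :=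
  frun_good hP hl T_3948 f0
theorem G_3947 (hP : P.ok) (hl : ¬ InB P loc) : FGood P h3947 :=
  frun_good hP hl T_3947 f0
theorem G_3946 (hP : P.ok) (hl : ¬ InB P loc) : FGood P h3946 :=
  frun_good hP hl T_3946 f0
theorem G_3945 (hP : P.ok) (hl : ¬ InB P loc) : FGood P h3945 :=
  frun_good hP hl T_3945 f0
theorem G_3944 (hP : P.ok) (hl : ¬ InB P loc) : FGood P h3944 :=
  frun_good hP hl T_3944 f0
theorem G_3943 (hP : P.ok) (hl : ¬ InB P loc) : FGood P h3943 :=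
  frun_good hP hl T_3943 f0
theorem G_3942 (hP : P.ok) (hl : ¬ InB P loc) : FGood P h3942 :=
  frun_good hP hl T_3942 f0
theorem G_3941 (hP : P.ok) (hl : ¬ InB P loc) : FGood P h3941 :=
  frun_good hP hl T_3941 f0
theorem G_3940 (hP : P.ok) (hl : ¬ InB P loc) : FGood P h3940 :=
  frun_good hP hl T_3940 f0
theorem G_3939 (hP : P.ok) (hl : ¬ InB P loc) : FGood P h3939 :=
  frun_good hP hl T_3939 f0
theorem G_3938 (hP : P.ok) (hl : ¬ InB P loc) : FGood P h3938 :=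
  frun_good hP hl T_3938 f0
theorem G_3937 (hP : P.ok) (hl : ¬ InB P loc) : FGood P h3937 :=
  frun_good hP hl T_3937 f0
theorem G_3936 (hP : P.ok) (hl : ¬ InB P loc) : FGood P h3936 :=
  frun_good hP hl T_3936 f0
theorem G_3935 (hP : P.ok) (hl : ¬ InB P loc) : FGood P h3935 :=
  frun_good hP hl T_3935 f0
theorem G_3934 (hP : P.ok) (hl : ¬ InB P loc) : FGood P h3934 :=
  frun_good hP hl T_3934 f0
theorem G_3933 (hP : P.ok) (hl : ¬ InB P loc) : FGood P h3933 :=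
  frun_good hP hl T_3933 f0
theorem G_3932 (hP : P.ok) (hl : ¬ InB P loc) : FGood P h3932 :=
  frun_good hP hl T_3932 f0
theorem G_3931 (hP : P.ok) (hl : ¬ InB P loc) : FGood P h3931 :=
  frun_good hP hl T_3931 (fc (G_3940 hP hl) (fc (G_3941 hP hl) (fc (G_3942 hP hl) (fc (G_3943 hP hl) (fc (G_3944 hP hl) (fc (G_3945 hP hl) (fc (G_3946 hP hl) (fc (G_3947 hP hl) (fc (G_3948 hP hl) (fc (G_3949 hP hl) (fc (G_3950 hP hl) (fc (G_3951 hP hl) (fc (G_3952 hP hl) f0)))))))))))))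
theorem G_3930 (hP : P.ok) (hl : ¬ InB P loc) : FGood P h3930 :=
  frun_good hP hl T_3930 (fc (G_3931 hP hl) (fc (G_3932 hP hl) (fc (G_3933 hP hl) (fc (G_3934 hP hl) (fc (G_3935 hP hl) (fc (G_3936 hP hl) (fc (G_3937 hP hl) (fc (G_3938 hP hl) (fc (G_3939 hP hl) f0)))))))))
theorem G_3929 (hP : P.ok) (hl : ¬ InB P loc) : FGood P h3929 :=
  frun_good hP hl T_3929 f0
theorem G_3928 (hP : P.ok) (hl : ¬ InB P loc) : FGood P h3928 :=
  frun_good hP hl T_3928 f0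
theorem G_3927 (hP : P.ok) (hl : ¬ InB P loc) : FGood P h3927 :=
  frun_good hP hl T_3927 f0
theorem G_3926 (hP : P.ok) (hl : ¬ InB P loc) : FGood P h3926 :=
  frun_good hP hl T_3926 f0

end

end Pool.Agent.Lib.MP_9d820d_co.Fast.A
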