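import Pool.Agent.Lib.MP_9d820d_co.FMain
import Pool.Agent.Lib.MP_9d820d_co.G.AC94
import Pool.Agent.Lib.MP_9d820d_co.G.AC95

set_option autoImplicit false

namespace Pool.Agent.Lib.MP_9d820d_co.Fast.A

noncomputable section

variable {P : Prm}

theorem G_4709 (hP : P.ok) (hl : ¬ InB P loc) : FGood P h4709 :=
  frun_good hP hl T_4709 f0
theorem G_4708 (hP : P.ok) (hl : ¬ InB P loc) : FGood P h4708 :=
  frun_good hP hl T_4708 f0
theorem G_4707 (hP : P.ok) (hl : ¬ InB P loc) : FGood P h4707 :=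
  frun_good hP hl T_4707 f0
theorem G_4706 (hP : P.ok) (hl : ¬ InB P loc) : FGood P h4706 :=
  frun_good hP hl T_4706 f0
theorem G_4705 (hP : P.ok) (hl : ¬ InB P loc) : FGood P h4705 :=
  frun_good hP hl T_4705 f0
theorem G_4704 (hP : P.ok) (hl : ¬ InB P loc) : FGood P h4704 :=
  frun_good hP hl T_4704 f0
theorem G_4703 (hP : P.ok) (hl : ¬ InB P loc) : FGood P h4703 :=
  frun_good hP hl T_4703 f0
theorem G_4702 (hP : P.ok) (hl : ¬ InB P loc) : FGood P h4702 :=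
  frun_good hP hl T_4702 f0
theorem G_4701 (hP : P.ok) (hl : ¬ InB P loc) : FGood P h4701 :=
  frun_good hP hl T_4701 f0
theorem G_4700 (hP : P.ok) (hl : ¬ InB P loc) : FGood P h4700 :=
  frun_good hP hl T_4700 f0
theorem G_4699 (hP : P.ok) (hl : ¬ InB P loc) : FGood P h4699 :=
  frun_good hP hl T_4699 f0
theorem G_4698 (hP : P.ok) (hl : ¬ InB P loc) : FGood P h4698 :=
  frun_good hP hl T_4698 f0
theorem G_4697 (hP : P.ok) (hl : ¬ InB P loc) : FGood P h4697 :=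
  frun_good hP hl T_4697 f0
theorem G_4696 (hP : P.ok) (hl : ¬ InB P loc) : FGood P h4696 :=
  frun_good hP hl T_4696 f0
theorem G_4695 (hP : P.ok) (hl : ¬ InB P loc) : FGood P h4695 :=
  frun_good hP hl T_4695 f0
theorem G_4694 (hP : P.ok) (hl : ¬ InB P loc) : FGood P h4694 :=
  frun_good hP hl T_4694 f0
theorem G_4693 (hP : P.ok) (hl : ¬ InB P loc) : FGood P h4693 :=
  frun_good hP hl T_4693 f0
theorem G_4692 (hP : P.ok) (hl : ¬ InB P loc) : FGood P h4692 :=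
  frun_good hP hl T_4692 f0
theorem G_4691 (hP : P.ok) (hl : ¬ InB P loc) : FGood P h4691 :=
  frun_good hP hl T_4691 f0
theorem G_4690 (hP : P.ok) (hl : ¬ InB P loc) : FGood P h4690 :=
  frun_good hP hl T_4690 f0
theorem G_4689 (hP : P.ok) (hl : ¬ InB P loc) : FGood P h4689 :=
  frun_good hP hl T_4689 f0
theorem G_4688 (hP : P.ok) (hl : ¬ InB P loc) : FGood P h4688 :=
  frun_good hP hl T_4688 f0
theorem G_4687 (hP : P.ok) (hl : ¬ InB P loc) : FGood P h4687 :=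
  frun_good hP hl T_4687 f0
theorem G_4686 (hP : P.ok) (hl : ¬ InB P loc) : FGood P h4686 :=
  frun_good hP hl T_4686 f0
theorem G_4685 (hP : P.ok) (hl : ¬ InB P loc) : FGood P h4685 :=
  frun_good hP hl T_4685 f0
theorem G_4684 (hP : P.ok) (hl : ¬ InB P loc) : FGood P h4684 :=
  frun_good hP hl T_4684 f0
theorem G_4683 (hP : P.ok) (hl : ¬ InB P loc) : FGood P h4683 :=
  frun_good hP hl T_4683 f0
theorem G_4682 (hP : P.ok) (hl : ¬ InB P loc) : FGood P h4682 :=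
  frun_good hP hl T_4682 f0
theorem G_4681 (hP : P.ok) (hl : ¬ InB P loc) : FGood P h4681 :=
  frun_good hP hl T_4681 f0
theorem G_4680 (hP : P.ok) (hl : ¬ InB P loc) : FGood P h4680 :=
  frun_good hP hl T_4680 f0
theorem G_4679 (hP : P.ok) (hl : ¬ InB P loc) : FGood P h4679 :=
  frun_good hP hl T_4679 f0
theorem G_4678 (hP : P.ok) (hl : ¬ InB P loc) : FGood P h4678 :=
  frun_good hP hl T_4678 (fc (G_4691 hP hl) (fc (G_4692 hP hl) (fc (G_4693 hP hl) (fc (G_4694 hP hl) (fc (G_4695 hP hl) (fc (G_4696 hP hl) (fc (G_4697 hP hl) (fc (G_4698 hP hl) f0))))))))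
theorem G_4677 (hP : P.ok) (hl : ¬ InB P loc) : FGood P h4677 :=
  frun_good hP hl T_4677 (fc (G_4678 hP hl) (fc (G_4679 hP hl) (fc (G_4680 hP hl) (fc (G_4681 hP hl) (fc (G_4682 hP hl) (fc (G_4683 hP hl) (fc (G_4684 hP hl) (fc (G_4685 hP hl) (fc (G_4686 hP hl) (fc (G_4687 hP hl) (fc (G_4688 hP hl) (fc (G_4689 hP hl) (fc (G_4690 hP hl) f0)))))))))))))
theorem G_4676 (hP : P.ok) (hl : ¬ InB P loc) : FGood P h4676 :=
  frun_good hP hl T_4676 f0
theorem G_4675 (hP : P.ok) (hl : ¬ InB P loc) : FGood P h4675 :=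
  frun_good hP hl T_4675 f0
theorem G_4674 (hP : P.ok) (hl : ¬ InB P loc) : FGood P h4674 :=
  frun_good hP hl T_4674 f0
theorem G_4673 (hP : P.ok) (hl : ¬ InB P loc) : FGood P h4673 :=
  frun_good hP hl T_4673 f0
theorem G_4672 (hP : P.ok) (hl : ¬ InB P loc) : FGood P h4672 :=
  frun_good hP hl T_4672 f0
theorem G_4671 (hP : P.ok) (hl : ¬ InB P loc) : FGood P h4671 :=
  frun_good hP hl T_4671 f0
theorem G_4670 (hP : P.ok) (hl : ¬ InB P loc) : FGood P h4670 :=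
  frun_good hP hl T_4670 f0
theorem G_4669 (hP : P.ok) (hl : ¬ InB P loc) : FGood P h4669 :=
  frun_good hP hl T_4669 f0
theorem G_4668 (hP : P.ok) (hl : ¬ InB P loc) : FGood P h4668 :=
  frun_good hP hl T_4668 f0
theorem G_4667 (hP : P.ok) (hl : ¬ InB P loc) : FGood P h4667 :=
  frun_good hP hl T_4667 f0
theorem G_4666 (hP : P.ok) (hl : ¬ InB P loc) : FGood P h4666 :=
  frun_good hP hl T_4666 f0
theorem G_4665 (hP : P.ok) (hl : ¬ InB P loc) : FGood P h4665 :=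
  frun_good hP hl T_4665 f0
theorem G_4664 (hP : P.ok) (hl : ¬ InB P loc) : FGood P h4664 :=
  frun_good hP hl T_4664 f0
theorem G_4663 (hP : P.ok) (hl : ¬ InB P loc) : FGood P h4663 :=
  frun_good hP hl T_4663 f0
theorem G_4662 (hP : P.ok) (hl : ¬ InB P loc) : FGood P h4662 :=
  frun_good hP hl T_4662 f0
theorem G_4661 (hP : P.ok) (hl : ¬ InB P loc) : FGood P h4661 :=
  frun_good hP hl T_4661 f0
theorem G_4660 (hP : P.ok) (hl : ¬ InB P loc) : FGood P h4660 :=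
  frun_good hP hl T_4660 f0
theorem G_4659 (hP : P.ok) (hl : ¬ InB P loc) : FGood P h4659 :=
  frun_good hP hl T_4659 f0
theorem G_4658 (hP : P.ok) (hl : ¬ InB P loc) : FGood P h4658 :=
  frun_good hP hl T_4658 f0
theorem G_4657 (hP : P.ok) (hl : ¬ InB P loc) : FGood P h4657 :=
  frun_good hP hl T_4657 f0
theorem G_4656 (hP : P.ok) (hl : ¬ InB P loc) : FGood P h4656 :=
  frun_good hP hl T_4656 f0
theorem G_4655 (hP : P.ok) (hl : ¬ InB P loc) : FGood P h4655 :=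
  frun_good hP hl T_4655 (fc (G_4666 hP hl) (fc (G_4667 hP hl) (fc (G_4668 hP hl) (fc (G_4669 hP hl) (fc (G_4670 hP hl) (fc (G_4671 hP hl) (fc (G_4672 hP hl) (fc (G_4673 hP hl) (fc (G_4674 hP hl) (fc (G_4675 hP hl) (fc (G_4676 hP hl) f0)))))))))))
theorem G_4654 (hP : P.ok) (hl : ¬ InB P loc) : FGood P h4654 :=
  frun_good hP hl T_4654 f0
theorem G_4653 (hP : P.ok) (hl : ¬ InB P loc) : FGood P h4653 :=
  frun_good hP hl T_4653 f0
theorem G_4652 (hP : P.ok) (hl : ¬ InB P loc) : FGood P h4652 :=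
  frun_good hP hl T_4652 f0
theorem G_4651 (hP : P.ok) (hl : ¬ InB P loc) : FGood P h4651 :=
  frun_good hP hl T_4651 f0
theorem G_4650 (hP : P.ok) (hl : ¬ InB P loc) : FGood P h4650 :=
  frun_good hP hl T_4650 f0
theorem G_4649 (hP : P.ok) (hl : ¬ InB P loc) : FGood P h4649 :=
  frun_good hP hl T_4649 (fc (G_4655 hP hl) (fc (G_4656 hP hl) (fc (G_4657 hP hl) (fc (G_4658 hP hl) (fc (G_4659 hP hl) (fc (G_4660 hP hl) (fc (G_4661 hP hl) (fc (G_4662 hP hl) (fc (G_4663 hP hl) (fc (G_4664 hP hl) (fc (G_4665 hP hl) f0)))))))))))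
theorem G_4648 (hP : P.ok) (hl : ¬ InB P loc) : FGood P h4648 :=
  frun_good hP hl T_4648 f0
theorem G_4647 (hP : P.ok) (hl : ¬ InB P loc) : FGood P h4647 :=
  frun_good hP hl T_4647 f0
theorem G_4646 (hP : P.ok) (hl : ¬ InB P loc) : FGood P h4646 :=
  frun_good hP hl T_4646 (fc (G_4650 hP hl) (fc (G_4651 hP hl) (fc (G_4652 hP hl) (fc (G_4653 hP hl) (fc (G_4654 hP hl) f0)))))
theorem G_4645 (hP : P.ok) (hl : ¬ InB P loc) : FGood P h4645 :=
  frun_good hP hl T_4645 (fc (G_4646 hP hl) (fc (G_4647 hP hl) (fc (G_4648 hP hl) (fc (G_4649 hP hl) f0))))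
theorem G_4644 (hP : P.ok) (hl : ¬ InB P loc) : FGood P h4644 :=
  frun_good hP hl T_4644 f0
theorem G_4643 (hP : P.ok) (hl : ¬ InB P loc) : FGood P h4643 :=
  frun_good hP hl T_4643 f0
theorem G_4642 (hP : P.ok) (hl : ¬ InB P loc) : FGood P h4642 :=
  frun_good hP hl T_4642 f0
theorem G_4641 (hP : P.ok) (hl : ¬ InB P loc) : FGood P h4641 :=
  frun_good hP hl T_4641 f0
theorem G_4640 (hP : P.ok) (hl : ¬ InB P loc) : FGood P h4640 :=
  frun_good hP hl T_4640 f0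
theorem G_4639 (hP : P.ok) (hl : ¬ InB P loc) : FGood P h4639 :=
  frun_good hP hl T_4639 f0
theorem G_4638 (hP : P.ok) (hl : ¬ InB P loc) : FGood P h4638 :=
  frun_good hP hl T_4638 f0
theorem G_4637 (hP : P.ok) (hl : ¬ InB P loc) : FGood P h4637 :=
  frun_good hP hl T_4637 f0
theorem G_4636 (hP : P.ok) (hl : ¬ InB P loc) : FGood P h4636 :=
  frun_good hP hl T_4636 f0
theorem G_4635 (hP : P.ok) (hl : ¬ InB P loc) : FGood P h4635 :=
  frun_good hP hl T_4635 f0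
theorem G_4634 (hP : P.ok) (hl : ¬ InB P loc) : FGood P h4634 :=
  frun_good hP hl T_4634 f0
theorem G_4633 (hP : P.ok) (hl : ¬ InB P loc) : FGood P h4633 :=
  frun_good hP hl T_4633 f0
theorem G_4632 (hP : P.ok) (hl : ¬ InB P loc) : FGood P h4632 :=
  frun_good hP hl T_4632 f0
theorem G_4631 (hP : P.ok) (hl : ¬ InB P loc) : FGood P h4631 :=
  frun_good hP hl T_4631 f0
theorem G_4630 (hP : P.ok) (hl : ¬ InB P loc) : FGood P h4630 :=
  frun_good hP hl T_4630 f0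
theorem G_4629 (hP : P.ok) (hl : ¬ InB P loc) : FGood P h4629 :=
  frun_good hP hl T_4629 f0
theorem G_4628 (hP : P.ok) (hl : ¬ InB P loc) : FGood P h4628 :=
  frun_good hP hl T_4628 (fc (G_4629 hP hl) (fc (G_4630 hP hl) (fc (G_4631 hP hl) (fc (G_4632 hP hl) (fc (G_4633 hP hl) (fc (G_4634 hP hl) (fc (G_4635 hP hl) (fc (G_4636 hP hl) (fc (G_4637 hP hl) (fc (G_4638 hP hl) (fc (G_4639 hP hl) (fc (G_4640 hP hl) (fc (G_4641 hP hl) (fc (G_4642 hP hl) (fc (G_4643 hP hl) (fc (G_4644 hP hl) f0))))))))))))))))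
theorem G_4627 (hP : P.ok) (hl : ¬ InB P loc) : FGood P h4627 :=
  frun_good hP hl T_4627 f0
theorem G_4626 (hP : P.ok) (hl : ¬ InB P loc) : FGood P h4626 :=
  frun_good hP hl T_4626 f0
theorem G_4625 (hP : P.ok) (hl : ¬ InB P loc) : FGood P h4625 :=
  frun_good hP hl T_4625 f0
theorem G_4624 (hP : P.ok) (hl : ¬ InB P loc) : FGood P h4624 :=
  frun_good hP hl T_4624 f0
theorem G_4623 (hP : P.ok) (hl : ¬ InB P loc) : FGood P h4623 :=
  frun_good hP hl T_4623 f0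
theorem G_4622 (hP : P.ok) (hl : ¬ InB P loc) : FGood P h4622 :=
  frun_good hP hl T_4622 f0
theorem G_4621 (hP : P.ok) (hl : ¬ InB P loc) : FGood P h4621 :=
  frun_good hP hl T_4621 f0
theorem G_4620 (hP : P.ok) (hl : ¬ InB P loc) : FGood P h4620 :=
  frun_good hP hl T_4620 f0
theorem G_4619 (hP : P.ok) (hl : ¬ InB P loc) : FGood P h4619 :=
  frun_good hP hl T_4619 (fc (G_4620 hP hl) (fc (G_4621 hP hl) (fc (G_4622 hP hl) (fc (G_4623 hP hl) (fc (G_4624 hP hl) (fc (G_4625 hP hl) (fc (G_4626 hP hl) f0)))))))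
theorem G_4618 (hP : P.ok) (hl : ¬ InB P loc) : FGood P h4618 :=
  frun_good hP hl T_4618 f0
theorem G_4617 (hP : P.ok) (hl : ¬ InB P loc) : FGood P h4617 :=
  frun_good hP hl T_4617 f0
theorem G_4616 (hP : P.ok) (hl : ¬ InB P loc) : FGood P h4616 :=
  frun_good hP hl T_4616 f0
theorem G_4615 (hP : P.ok) (hl : ¬ InB P loc) : FGood P h4615 :=
  frun_good hP hl T_4615 f0
theorem G_4614 (hP : P.ok) (hl : ¬ InB P loc) : FGood P h4614 :=
  frun_good hP hl T_4614 f0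
theorem G_4613 (hP : P.ok) (hl : ¬ InB P loc) : FGood P h4613 :=
  frun_good hP hl T_4613 (fc (G_4617 hP hl) (fc (G_4618 hP hl) f0))
theorem G_4612 (hP : P.ok) (hl : ¬ InB P loc) : FGood P h4612 :=
  frun_good hP hl T_4612 (fc (G_4613 hP hl) (fc (G_4614 hP hl) (fc (G_4615 hP hl) (fc (G_4616 hP hl) f0))))
theorem G_4611 (hP : P.ok) (hl : ¬ InB P loc) : FGood P h4611 :=
  frun_good hP hl T_4611 f0
theorem G_4610 (hP : P.ok) (hl : ¬ InB P loc) : FGood P h4610 :=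
  frun_good hP hl T_4610 f0
theorem G_4609 (hP : P.ok) (hl : ¬ InB P loc) : FGood P h4609 :=
  frun_good hP hl T_4609 f0
theorem G_4608 (hP : P.ok) (hl : ¬ InB P loc) : FGood P h4608 :=
  frun_good hP hl T_4608 f0
theorem G_4607 (hP : P.ok) (hl : ¬ InB P loc) : FGood P h4607 :=
  frun_good hP hl T_4607 f0
theorem G_4606 (hP : P.ok) (hl : ¬ InB P loc) : FGood P h4606 :=
  frun_good hP hl T_4606 f0
theorem G_4605 (hP : P.ok) (hl : ¬ InB P loc) : FGood P h4605 :=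
  frun_good hP hl T_4605 f0
theorem G_4604 (hP : P.ok) (hl : ¬ InB P loc) : FGood P h4604 :=
  frun_good hP hl T_4604 f0
theorem G_4603 (hP : P.ok) (hl : ¬ InB P loc) : FGood P h4603 :=
  frun_good hP hl T_4603 f0
theorem G_4602 (hP : P.ok) (hl : ¬ InB P loc) : FGood P h4602 :=
  frun_good hP hl T_4602 f0
theorem G_4601 (hP : P.ok) (hl : ¬ InB P loc) : FGood P h4601 :=
  frun_good hP hl T_4601 f0
theorem G_4600 (hP : P.ok) (hl : ¬ InB P loc) : FGood P h4600 :=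
  frun_good hP hl T_4600 f0
theorem G_4599 (hP : P.ok) (hl : ¬ InB P loc) : FGood P h4599 :=
  frun_good hP hl T_4599 f0
theorem G_4598 (hP : P.ok) (hl : ¬ InB P loc) : FGood P h4598 :=
  frun_good hP hl T_4598 f0
theorem G_4597 (hP : P.ok) (hl : ¬ InB P loc) : FGood P h4597 :=
  frun_good hP hl T_4597 f0
theorem G_4596 (hP : P.ok) (hl : ¬ InB P loc) : FGood P h4596 :=
  frun_good hP hl T_4596 f0
theorem G_4595 (hP : P.ok) (hl : ¬ InB P loc) : FGood P h4595 :=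
  frun_good hP hl T_4595 f0
theorem G_4594 (hP : P.ok) (hl : ¬ InB P loc) : FGood P h4594 :=
  frun_good hP hl T_4594 f0
theorem G_4593 (hP : P.ok) (hl : ¬ InB P loc) : FGood P h4593 :=
  frun_good hP hl T_4593 f0
theorem G_4592 (hP : P.ok) (hl : ¬ InB P loc) : FGood P h4592 :=
  frun_good hP hl T_4592 f0
theorem G_4591 (hP : P.ok) (hl : ¬ InB P loc) : FGood P h4591 :=
  frun_good hP hl T_4591 f0
theorem G_4590 (hP : P.ok) (hl : ¬ InB P loc) : FGood P h4590 :=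
  frun_good hP hl T_4590 f0
theorem G_4589 (hP : P.ok) (hl : ¬ InB P loc) : FGood P h4589 :=
  frun_good hP hl T_4589 f0
theorem G_4588 (hP : P.ok) (hl : ¬ InB P loc) : FGood P h4588 :=
  frun_good hP hl T_4588 f0
theorem G_4587 (hP : P.ok) (hl : ¬ InB P loc) : FGood P h4587 :=
  frun_good hP hl T_4587 f0
theorem G_4586 (hP : P.ok) (hl : ¬ InB P loc) : FGood P h4586 :=
  frun_good hP hl T_4586 f0
theorem G_4585 (hP : P.ok) (hl : ¬ InB P loc) : FGood P h4585 :=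
  frun_good hP hl T_4585 f0
theorem G_4584 (hP : P.ok) (hl : ¬ InB P loc) : FGood P h4584 :=
  frun_good hP hl T_4584 f0
theorem G_4583 (hP : P.ok) (hl : ¬ InB P loc) : FGood P h4583 :=
  frun_good hP hl T_4583 f0
theorem G_4582 (hP : P.ok) (hl : ¬ InB P loc) : FGood P h4582 :=
  frun_good hP hl T_4582 f0
theorem G_4581 (hP : P.ok) (hl : ¬ InB P loc) : FGood P h4581 :=
  frun_good hP hl T_4581 f0
theorem G_4580 (hP : P.ok) (hl : ¬ InB P loc) : FGood P h4580 :=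
  frun_good hP hl T_4580 f0
theorem G_4579 (hP : P.ok) (hl : ¬ InB P loc) : FGood P h4579 :=
  frun_good hP hl T_4579 f0
theorem G_4578 (hP : P.ok) (hl : ¬ InB P loc) : FGood P h4578 :=
  frun_good hP hl T_4578 f0
theorem G_4577 (hP : P.ok) (hl : ¬ InB P loc) : FGood P h4577 :=
  frun_good hP hl T_4577 f0
theorem G_4576 (hP : P.ok) (hl : ¬ InB P loc) : FGood P h4576 :=
  frun_good hP hl T_4576 f0
theorem G_4575 (hP : P.ok) (hl : ¬ InB P loc) : FGood P h4575 :=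
  frun_good hP hl T_4575 f0
theorem G_4574 (hP : P.ok) (hl : ¬ InB P loc) : FGood P h4574 :=
  frun_good hP hl T_4574 f0
theorem G_4573 (hP : P.ok) (hl : ¬ InB P loc) : FGood P h4573 :=
  frun_good hP hl T_4573 f0
theorem G_4572 (hP : P.ok) (hl : ¬ InB P loc) : FGood P h4572 :=
  frun_good hP hl T_4572 f0
theorem G_4571 (hP : P.ok) (hl : ¬ InB P loc) : FGood P h4571 :=
  frun_good hP hl T_4571 f0
theorem G_4570 (hP : P.ok) (hl : ¬ InB P loc) : FGood P h4570 :=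
  frun_good hP hl T_4570 f0
theorem G_4569 (hP : P.ok) (hl : ¬ InB P loc) : FGood P h4569 :=
  frun_good hP hl T_4569 f0
theorem G_4568 (hP : P.ok) (hl : ¬ InB P loc) : FGood P h4568 :=
  frun_good hP hl T_4568 (fc (G_4594 hP hl) (fc (G_4595 hP hl) (fc (G_4596 hP hl) (fc (G_4597 hP hl) (fc (G_4598 hP hl) (fc (G_4599 hP hl) (fc (G_4600 hP hl) (fc (G_4601 hP hl) (fc (G_4602 hP hl) (fc (G_4603 hP hl) (fc (G_4604 hP hl) (fc (G_4605 hP hl) (fc (G_4606 hP hl) (fc (G_4607 hP hl) (fc (G_4608 hP hl) (fc (G_4609 hP hl) (fc (G_4610 hP hl) (fc (G_4611 hP hl) f0))))))))))))))))))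
theorem G_4567 (hP : P.ok) (hl : ¬ InB P loc) : FGood P h4567 :=
  frun_good hP hl T_4567 f0
theorem G_4566 (hP : P.ok) (hl : ¬ InB P loc) : FGood P h4566 :=
  frun_good hP hl T_4566 f0
theorem G_4565 (hP : P.ok) (hl : ¬ InB P loc) : FGood P h4565 :=
  frun_good hP hl T_4565 f0
theorem G_4564 (hP : P.ok) (hl : ¬ InB P loc) : FGood P h4564 :=
  frun_good hP hl T_4564 f0
theorem G_4563 (hP : P.ok) (hl : ¬ InB P loc) : FGood P h4563 :=
  frun_good hP hl T_4563 f0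
theorem G_4562 (hP : P.ok) (hl : ¬ InB P loc) : FGood P h4562 :=
  frun_good hP hl T_4562 f0
theorem G_4561 (hP : P.ok) (hl : ¬ InB P loc) : FGood P h4561 :=
  frun_good hP hl T_4561 f0
theorem G_4560 (hP : P.ok) (hl : ¬ InB P loc) : FGood P h4560 :=
  frun_good hP hl T_4560 f0
theorem G_4559 (hP : P.ok) (hl : ¬ InB P loc) : FGood P h4559 :=
  frun_good hP hl T_4559 f0
theorem G_4558 (hP : P.ok) (hl : ¬ InB P loc) : FGood P h4558 :=
  frun_good hP hl T_4558 f0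
theorem G_4557 (hP : P.ok) (hl : ¬ InB P loc) : FGood P h4557 :=
  frun_good hP hl T_4557 f0
theorem G_4556 (hP : P.ok) (hl : ¬ InB P loc) : FGood P h4556 :=
  frun_good hP hl T_4556 (fc (G_4582 hP hl) (fc (G_4583 hP hl) (fc (G_4584 hP hl) (fc (G_4585 hP hl) (fc (G_4586 hP hl) (fc (G_4587 hP hl) (fc (G_4588 hP hl) (fc (G_4589 hP hl) (fc (G_4590 hP hl) (fc (G_4591 hP hl) (fc (G_4592 hP hl) (fc (G_4593 hP hl) f0))))))))))))
theorem G_4555 (hP : P.ok) (hl : ¬ InB P loc) : FGood P h4555 :=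
  frun_good hP hl T_4555 f0
theorem G_4554 (hP : P.ok) (hl : ¬ InB P loc) : FGood P h4554 :=
  frun_good hP hl T_4554 f0
theorem G_4553 (hP : P.ok) (hl : ¬ InB P loc) : FGood P h4553 :=
  frun_good hP hl T_4553 f0
theorem G_4552 (hP : P.ok) (hl : ¬ InB P loc) : FGood P h4552 :=
  frun_good hP hl T_4552 f0
theorem G_4551 (hP : P.ok) (hl : ¬ InB P loc) : FGood P h4551 :=
  frun_good hP hl T_4551 f0
theorem G_4550 (hP : P.ok) (hl : ¬ InB P loc) : FGood P h4550 :=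
  frun_good hP hl T_4550 f0
theorem G_4549 (hP : P.ok) (hl : ¬ InB P loc) : FGood P h4549 :=
  frun_good hP hl T_4549 f0
theorem G_4548 (hP : P.ok) (hl : ¬ InB P loc) : FGood P h4548 :=
  frun_good hP hl T_4548 f0
theorem G_4547 (hP : P.ok) (hl : ¬ InB P loc) : FGood P h4547 :=
  frun_good hP hl T_4547 f0
theorem G_4546 (hP : P.ok) (hl : ¬ InB P loc) : FGood P h4546 :=
  frun_good hP hl T_4546 f0
theorem G_4545 (hP : P.ok) (hl : ¬ InB P loc) : FGood P h4545 :=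
  frun_good hP hl T_4545 f0
theorem G_4544 (hP : P.ok) (hl : ¬ InB P loc) : FGood P h4544 :=
  frun_good hP hl T_4544 f0
theorem G_4543 (hP : P.ok) (hl : ¬ InB P loc) : FGood P h4543 :=
  frun_good hP hl T_4543 f0
theorem G_4542 (hP : P.ok) (hl : ¬ InB P loc) : FGood P h4542 :=
  frun_good hP hl T_4542 (fc (G_4569 hP hl) (fc (G_4570 hP hl) (fc (G_4571 hP hl) (fc (G_4572 hP hl) (fc (G_4573 hP hl) (fc (G_4574 hP hl) (fc (G_4575 hP hl) (fc (G_4576 hP hl) (fc (G_4577 hP hl) (fc (G_4578 hP hl) (fc (G_4579 hP hl) (fc (G_4580 hP hl) (fc (G_4581 hP hl) f0)))))))))))))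
theorem G_4541 (hP : P.ok) (hl : ¬ InB P loc) : FGood P h4541 :=
  frun_good hP hl T_4541 (fc (G_4556 hP hl) (fc (G_4557 hP hl) (fc (G_4558 hP hl) (fc (G_4559 hP hl) (fc (G_4560 hP hl) (fc (G_4561 hP hl) (fc (G_4562 hP hl) (fc (G_4563 hP hl) (fc (G_4564 hP hl) (fc (G_4565 hP hl) (fc (G_4566 hP hl) (fc (G_4567 hP hl) (fc (G_4568 hP hl) f0)))))))))))))
theorem G_4540 (hP : P.ok) (hl : ¬ InB P loc) : FGood P h4540 :=
  frun_good hP hl T_4540 (fc (G_4545 hP hl) (fc (G_4546 hP hl) (fc (G_4547 hP hl) (fc (G_4548 hP hl) (fc (G_4549 hP hl) (fc (G_4550 hP hl) (fc (G_4551 hP hl) (fc (G_4552 hP hl) (fc (G_4553 hP hl) (fc (G_4554 hP hl) (fc (G_4555 hP hl) f0)))))))))))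
theorem G_4539 (hP : P.ok) (hl : ¬ InB P loc) : FGood P h4539 :=
  frun_good hP hl T_4539 (fc (G_4540 hP hl) (fc (G_4541 hP hl) (fc (G_4542 hP hl) (fc (G_4543 hP hl) (fc (G_4544 hP hl) f0)))))
theorem G_4538 (hP : P.ok) (hl : ¬ InB P loc) : FGood P h4538 :=
  frun_good hP hl T_4538 f0
theorem G_4537 (hP : P.ok) (hl : ¬ InB P loc) : FGood P h4537 :=
  frun_good hP hl T_4537 f0
theorem G_4536 (hP : P.ok) (hl : ¬ InB P loc) : FGood P h4536 :=
  frun_good hP hl T_4536 (fc (G_4537 hP hl) f0)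
theorem G_4535 (hP : P.ok) (hl : ¬ InB P loc) : FGood P h4535 :=
  frun_good hP hl T_4535 (fc (G_4536 hP hl) f0)
theorem G_4534 (hP : P.ok) (hl : ¬ InB P loc) : FGood P h4534 :=
  frun_good hP hl T_4534 f0
theorem G_4533 (hP : P.ok) (hl : ¬ InB P loc) : FGood P h4533 :=
  frun_good hP hl T_4533 f0
theorem G_4532 (hP : P.ok) (hl : ¬ InB P loc) : FGood P h4532 :=
  frun_good hP hl T_4532 f0
theorem G_4531 (hP : P.ok) (hl : ¬ InB P loc) : FGood P h4531 :=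
  frun_good hP hl T_4531 f0
theorem G_4530 (hP : P.ok) (hl : ¬ InB P loc) : FGood P h4530 :=
  frun_good hP hl T_4530 f0
theorem G_4529 (hP : P.ok) (hl : ¬ InB P loc) : FGood P h4529 :=
  frun_good hP hl T_4529 f0
theorem G_4528 (hP : P.ok) (hl : ¬ InB P loc) : FGood P h4528 :=
  frun_good hP hl T_4528 f0
theorem G_4527 (hP : P.ok) (hl : ¬ InB P loc) : FGood P h4527 :=
  frun_good hP hl T_4527 f0
theorem G_4526 (hP : P.ok) (hl : ¬ InB P loc) : FGood P h4526 :=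
  frun_good hP hl T_4526 f0
theorem G_4525 (hP : P.ok) (hl : ¬ InB P loc) : FGood P h4525 :=
  frun_good hP hl T_4525 f0
theorem G_4524 (hP : P.ok) (hl : ¬ InB P loc) : FGood P h4524 :=
  frun_good hP hl T_4524 f0
theorem G_4523 (hP : P.ok) (hl : ¬ InB P loc) : FGood P h4523 :=
  frun_good hP hl T_4523 f0
theorem G_4522 (hP : P.ok) (hl : ¬ InB P loc) : FGood P h4522 :=
  frun_good hP hl T_4522 f0
theorem G_4521 (hP : P.ok) (hl : ¬ InB P loc) : FGood P h4521 :=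
  frun_good hP hl T_4521 f0
theorem G_4520 (hP : P.ok) (hl : ¬ InB P loc) : FGood P h4520 :=
  frun_good hP hl T_4520 f0
theorem G_4519 (hP : P.ok) (hl : ¬ InB P loc) : FGood P h4519 :=
  frun_good hP hl T_4519 f0
theorem G_4518 (hP : P.ok) (hl : ¬ InB P loc) : FGood P h4518 :=
  frun_good hP hl T_4518 f0
theorem G_4517 (hP : P.ok) (hl : ¬ InB P loc) : FGood P h4517 :=
  frun_good hP hl T_4517 f0
theorem G_4516 (hP : P.ok) (hl : ¬ InB P loc) : FGood P h4516 :=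
  frun_good hP hl T_4516 f0
theorem G_4515 (hP : P.ok) (hl : ¬ InB P loc) : FGood P h4515 :=
  frun_good hP hl T_4515 f0
theorem G_4514 (hP : P.ok) (hl : ¬ InB P loc) : FGood P h4514 :=
  frun_good hP hl T_4514 (fc (G_4527 hP hl) (fc (G_4528 hP hl) (fc (G_4529 hP hl) (fc (G_4530 hP hl) (fc (G_4531 hP hl) (fc (G_4532 hP hl) (fc (G_4533 hP hl) (fc (G_4534 hP hl) f0))))))))
theorem G_4513 (hP : P.ok) (hl : ¬ InB P loc) : FGood P h4513 :=
  frun_good hP hl T_4513 (fc (G_4521 hP hl) (fc (G_4522 hP hl) (fc (G_4523 hP hl) (fc (G_4524 hP hl) (fc (G_4525 hP hl) (fc (G_4526 hP hl) f0))))))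
theorem G_4512 (hP : P.ok) (hl : ¬ InB P loc) : FGood P h4512 :=
  frun_good hP hl T_4512 (fc (G_4513 hP hl) (fc (G_4514 hP hl) (fc (G_4515 hP hl) (fc (G_4516 hP hl) (fc (G_4517 hP hl) (fc (G_4518 hP hl) (fc (G_4519 hP hl) (fc (G_4520 hP hl) f0))))))))
theorem G_4511 (hP : P.ok) (hl : ¬ InB P loc) : FGood P h4511 :=
  frun_good hP hl T_4511 f0
theorem G_4510 (hP : P.ok) (hl : ¬ InB P loc) : FGood P h4510 :=
  frun_good hP hl T_4510 f0
theorem G_4509 (hP : P.ok) (hl : ¬ InB P loc) : FGood P h4509 :=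
  frun_good hP hl T_4509 f0
theorem G_4508 (hP : P.ok) (hl : ¬ InB P loc) : FGood P h4508 :=
  frun_good hP hl T_4508 f0
theorem G_4507 (hP : P.ok) (hl : ¬ InB P loc) : FGood P h4507 :=
  frun_good hP hl T_4507 f0
theorem G_4506 (hP : P.ok) (hl : ¬ InB P loc) : FGood P h4506 :=
  frun_good hP hl T_4506 f0
theorem G_4505 (hP : P.ok) (hl : ¬ InB P loc) : FGood P h4505 :=
  frun_good hP hl T_4505 f0
theorem G_4504 (hP : P.ok) (hl : ¬ InB P loc) : FGood P h4504 :=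
  frun_good hP hl T_4504 f0
theorem G_4503 (hP : P.ok) (hl : ¬ InB P loc) : FGood P h4503 :=
  frun_good hP hl T_4503 f0
theorem G_4502 (hP : P.ok) (hl : ¬ InB P loc) : FGood P h4502 :=
  frun_good hP hl T_4502 f0
theorem G_4501 (hP : P.ok) (hl : ¬ InB P loc) : FGood P h4501 :=
  frun_good hP hl T_4501 (fc (G_4502 hP hl) (fc (G_4503 hP hl) (fc (G_4504 hP hl) (fc (G_4505 hP hl) (fc (G_4506 hP hl) (fc (G_4507 hP hl) (fc (G_4508 hP hl) f0)))))))
theorem G_4500 (hP : P.ok) (hl : ¬ InB P loc) : FGood P h4500 :=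
  frun_good hP hl T_4500 f0
theorem G_4499 (hP : P.ok) (hl : ¬ InB P loc) : FGood P h4499 :=
  frun_good hP hl T_4499 f0
theorem G_4498 (hP : P.ok) (hl : ¬ InB P loc) : FGood P h4498 :=
  frun_good hP hl T_4498 f0
theorem G_4497 (hP : P.ok) (hl : ¬ InB P loc) : FGood P h4497 :=
  frun_good hP hl T_4497 (fc (G_4498 hP hl) f0)
theorem G_4496 (hP : P.ok) (hl : ¬ InB P loc) : FGood P h4496 :=
  frun_good hP hl T_4496 f0
theorem G_4495 (hP : P.ok) (hl : ¬ InB P loc) : FGood P h4495 :=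
  frun_good hP hl T_4495 f0
theorem G_4494 (hP : P.ok) (hl : ¬ InB P loc) : FGood P h4494 :=
  frun_good hP hl T_4494 f0
theorem G_4493 (hP : P.ok) (hl : ¬ InB P loc) : FGood P h4493 :=
  frun_good hP hl T_4493 f0
theorem G_4492 (hP : P.ok) (hl : ¬ InB P loc) : FGood P h4492 :=
  frun_good hP hl T_4492 f0
theorem G_4491 (hP : P.ok) (hl : ¬ InB P loc) : FGood P h4491 :=
  frun_good hP hl T_4491 f0
theorem G_4490 (hP : P.ok) (hl : ¬ InB P loc) : FGood P h4490 :=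
  frun_good hP hl T_4490 f0
theorem G_4489 (hP : P.ok) (hl : ¬ InB P loc) : FGood P h4489 :=
  frun_good hP hl T_4489 f0
theorem G_4488 (hP : P.ok) (hl : ¬ InB P loc) : FGood P h4488 :=
  frun_good hP hl T_4488 f0
theorem G_4487 (hP : P.ok) (hl : ¬ InB P loc) : FGood P h4487 :=
  frun_good hP hl T_4487 f0
theorem G_4486 (hP : P.ok) (hl : ¬ InB P loc) : FGood P h4486 :=
  frun_good hP hl T_4486 f0
theorem G_4485 (hP : P.ok) (hl : ¬ InB P loc) : FGood P h4485 :=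
  frun_good hP hl T_4485 f0
theorem G_4484 (hP : P.ok) (hl : ¬ InB P loc) : FGood P h4484 :=
  frun_good hP hl T_4484 f0
theorem G_4483 (hP : P.ok) (hl : ¬ InB P loc) : FGood P h4483 :=
  frun_good hP hl T_4483 f0
theorem G_4482 (hP : P.ok) (hl : ¬ InB P loc) : FGood P h4482 :=
  frun_good hP hl T_4482 f0
theorem G_4481 (hP : P.ok) (hl : ¬ InB P loc) : FGood P h4481 :=
  frun_good hP hl T_4481 f0
theorem G_4480 (hP : P.ok) (hl : ¬ InB P loc) : FGood P h4480 :=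
  frun_good hP hl T_4480 f0
theorem G_4479 (hP : P.ok) (hl : ¬ InB P loc) : FGood P h4479 :=
  frun_good hP hl T_4479 f0
theorem G_4478 (hP : P.ok) (hl : ¬ InB P loc) : FGood P h4478 :=
  frun_good hP hl T_4478 f0
theorem G_4477 (hP : P.ok) (hl : ¬ InB P loc) : FGood P h4477 :=
  frun_good hP hl T_4477 f0
theorem G_4476 (hP : P.ok) (hl : ¬ InB P loc) : FGood P h4476 :=
  frun_good hP hl T_4476 f0
theorem G_4475 (hP : P.ok) (hl : ¬ InB P loc) : FGood P h4475 :=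
  frun_good hP hl T_4475 f0
theorem G_4474 (hP : P.ok) (hl : ¬ InB P loc) : FGood P h4474 :=
  frun_good hP hl T_4474 f0
theorem G_4473 (hP : P.ok) (hl : ¬ InB P loc) : FGood P h4473 :=
  frun_good hP hl T_4473 (fc (G_4489 hP hl) (fc (G_4490 hP hl) (fc (G_4491 hP hl) (fc (G_4492 hP hl) (fc (G_4493 hP hl) (fc (G_4494 hP hl) (fc (G_4495 hP hl) (fc (G_4496 hP hl) (fc (G_4497 hP hl) f0)))))))))
theorem G_4472 (hP : P.ok) (hl : ¬ InB P loc) : FGood P h4472 :=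
  frun_good hP hl T_4472 (fc (G_4477 hP hl) (fc (G_4478 hP hl) (fc (G_4479 hP hl) (fc (G_4480 hP hl) (fc (G_4481 hP hl) (fc (G_4482 hP hl) (fc (G_4483 hP hl) (fc (G_4484 hP hl) (fc (G_4485 hP hl) (fc (G_4486 hP hl) (fc (G_4487 hP hl) (fc (G_4488 hP hl) f0))))))))))))
theorem G_4471 (hP : P.ok) (hl : ¬ InB P loc) : FGood P h4471 :=
  frun_good hP hl T_4471 f0
theorem G_4470 (hP : P.ok) (hl : ¬ InB P loc) : FGood P h4470 :=
  frun_good hP hl T_4470 f0
theorem G_4469 (hP : P.ok) (hl : ¬ InB P loc) : FGood P h4469 :=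
  frun_good hP hl T_4469 f0
theorem G_4468 (hP : P.ok) (hl : ¬ InB P loc) : FGood P h4468 :=
  frun_good hP hl T_4468 f0
theorem G_4467 (hP : P.ok) (hl : ¬ InB P loc) : FGood P h4467 :=
  frun_good hP hl T_4467 (fc (G_4468 hP hl) (fc (G_4469 hP hl) (fc (G_4470 hP hl) (fc (G_4471 hP hl) (fc (G_4472 hP hl) (fc (G_4473 hP hl) (fc (G_4474 hP hl) (fc (G_4475 hP hl) (fc (G_4476 hP hl) f0)))))))))
theorem G_4466 (hP : P.ok) (hl : ¬ InB P loc) : FGood P h4466 :=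
  frun_good hP hl T_4466 f0
theorem G_4465 (hP : P.ok) (hl : ¬ InB P loc) : FGood P h4465 :=
  frun_good hP hl T_4465 f0
theorem G_4464 (hP : P.ok) (hl : ¬ InB P loc) : FGood P h4464 :=
  frun_good hP hl T_4464 f0
theorem G_4463 (hP : P.ok) (hl : ¬ InB P loc) : FGood P h4463 :=
  frun_good hP hl T_4463 f0
theorem G_4462 (hP : P.ok) (hl : ¬ InB P loc) : FGood P h4462 :=
  frun_good hP hl T_4462 (fc (G_4463 hP hl) (fc (G_4464 hP hl) (fc (G_4465 hP hl) (fc (G_4466 hP hl) f0))))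
theorem G_4461 (hP : P.ok) (hl : ¬ InB P loc) : FGood P h4461 :=
  frun_good hP hl T_4461 f0
theorem G_4460 (hP : P.ok) (hl : ¬ InB P loc) : FGood P h4460 :=
  frun_good hP hl T_4460 f0
theorem G_4459 (hP : P.ok) (hl : ¬ InB P loc) : FGood P h4459 :=
  frun_good hP hl T_4459 f0
theorem G_4458 (hP : P.ok) (hl : ¬ InB P loc) : FGood P h4458 :=
  frun_good hP hl T_4458 (fc (G_4459 hP hl) f0)
theorem G_4457 (hP : P.ok) (hl : ¬ InB P loc) : FGood P h4457 :=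
  frun_good hP hl T_4457 f0
theorem G_4456 (hP : P.ok) (hl : ¬ InB P loc) : FGood P h4456 :=
  frun_good hP hl T_4456 (fc (G_4457 hP hl) (fc (G_4458 hP hl) f0))
theorem G_4455 (hP : P.ok) (hl : ¬ InB P loc) : FGood P h4455 :=
  frun_good hP hl T_4455 f0
theorem G_4454 (hP : P.ok) (hl : ¬ InB P loc) : FGood P h4454 :=
  frun_good hP hl T_4454 f0
theorem G_4453 (hP : P.ok) (hl : ¬ InB P loc) : FGood P h4453 :=
  frun_good hP hl T_4453 f0
theorem G_4452 (hP : P.ok) (hl : ¬ InB P loc) : FGood P h4452 :=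
  frun_good hP hl T_4452 (fc (G_4453 hP hl) f0)
theorem G_4451 (hP : P.ok) (hl : ¬ InB P loc) : FGood P h4451 :=
  frun_good hP hl T_4451 (fc (G_4452 hP hl) f0)
theorem G_4450 (hP : P.ok) (hl : ¬ InB P loc) : FGood P h4450 :=
  frun_good hP hl T_4450 f0
theorem G_4449 (hP : P.ok) (hl : ¬ InB P loc) : FGood P h4449 :=
  frun_good hP hl T_4449 f0
theorem G_4448 (hP : P.ok) (hl : ¬ InB P loc) : FGood P h4448 :=
  frun_good hP hl T_4448 (fc (G_4449 hP hl) (fc (G_4450 hP hl) f0))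
theorem G_4447 (hP : P.ok) (hl : ¬ InB P loc) : FGood P h4447 :=
  frun_good hP hl T_4447 (fc (G_4448 hP hl) f0)
theorem G_4446 (hP : P.ok) (hl : ¬ InB P loc) : FGood P h4446 :=
  frun_good hP hl T_4446 f0
theorem G_4445 (hP : P.ok) (hl : ¬ InB P loc) : FGood P h4445 :=
  frun_good hP hl T_4445 f0
theorem G_4444 (hP : P.ok) (hl : ¬ InB P loc) : FGood P h4444 :=
  frun_good hP hl T_4444 f0
theorem G_4443 (hP : P.ok) (hl : ¬ InB P loc) : FGood P h4443 :=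
  frun_good hP hl T_4443 f0
theorem G_4442 (hP : P.ok) (hl : ¬ InB P loc) : FGood P h4442 :=
  frun_good hP hl T_4442 (fc (G_4445 hP hl) f0)
theorem G_4441 (hP : P.ok) (hl : ¬ InB P loc) : FGood P h4441 :=
  frun_good hP hl T_4441 (fc (G_4444 hP hl) f0)
theorem G_4440 (hP : P.ok) (hl : ¬ InB P loc) : FGood P h4440 :=
  frun_good hP hl T_4440 (fc (G_4441 hP hl) (fc (G_4442 hP hl) (fc (G_4443 hP hl) f0)))
theorem G_4439 (hP : P.ok) (hl : ¬ InB P loc) : FGood P h4439 :=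
  frun_good hP hl T_4439 f0
theorem G_4438 (hP : P.ok) (hl : ¬ InB P loc) : FGood P h4438 :=
  frun_good hP hl T_4438 (fc (G_4439 hP hl) f0)
theorem G_4437 (hP : P.ok) (hl : ¬ InB P loc) : FGood P h4437 :=
  frun_good hP hl T_4437 (fc (G_4438 hP hl) f0)
theorem G_4436 (hP : P.ok) (hl : ¬ InB P loc) : FGood P h4436 :=
  frun_good hP hl T_4436 f0
theorem G_4435 (hP : P.ok) (hl : ¬ InB P loc) : FGood P h4435 :=
  frun_good hP hl T_4435 f0
theorem G_4434 (hP : P.ok) (hl : ¬ InB P loc) : FGood P h4434 :=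
  frun_good hP hl T_4434 (fc (G_4435 hP hl) (fc (G_4436 hP hl) (fc (G_4437 hP hl) f0)))
theorem G_4433 (hP : P.ok) (hl : ¬ InB P loc) : FGood P h4433 :=
  frun_good hP hl T_4433 f0
theorem G_4432 (hP : P.ok) (hl : ¬ InB P loc) : FGood P h4432 :=
  frun_good hP hl T_4432 f0
theorem G_4431 (hP : P.ok) (hl : ¬ InB P loc) : FGood P h4431 :=
  frun_good hP hl T_4431 f0
theorem G_4430 (hP : P.ok) (hl : ¬ InB P loc) : FGood P h4430 :=
  frun_good hP hl T_4430 (fc (G_4431 hP hl) f0)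
theorem G_4429 (hP : P.ok) (hl : ¬ InB P loc) : FGood P h4429 :=
  frun_good hP hl T_4429 f0

end

end Pool.Agent.Lib.MP_9d820d_co.Fast.A
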