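import Pool.Agent.Lib.MP_9d820d_co.FMain
import Pool.Agent.Lib.MP_9d820d_co.G.AC0
import Pool.Agent.Lib.MP_9d820d_co.G.AC1
import Pool.Agent.Lib.MP_9d820d_co.G.AC2
import Pool.Agent.Lib.MP_9d820d_co.G.AC3
import Pool.Agent.Lib.MP_9d820d_co.G.AC4
import Pool.Agent.Lib.MP_9d820d_co.G.AC5
import Pool.Agent.Lib.MP_9d820d_co.G.AC6
import Pool.Agent.Lib.MP_9d820d_co.G.AC7
import Pool.Agent.Lib.MP_9d820d_co.G.AC8
import Pool.Agent.Lib.MP_9d820d_co.G.AC9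
import Pool.Agent.Lib.MP_9d820d_co.G.AP0
import Pool.Agent.Lib.MP_9d820d_co.G.AP1
import Pool.Agent.Lib.MP_9d820d_co.G.AP2
import Pool.Agent.Lib.MP_9d820d_co.G.AP3
import Pool.Agent.Lib.MP_9d820d_co.G.AP4
import Pool.Agent.Lib.MP_9d820d_co.G.AP5
import Pool.Agent.Lib.MP_9d820d_co.G.AP6
import Pool.Agent.Lib.MP_9d820d_co.G.AP7
import Pool.Agent.Lib.MP_9d820d_co.G.AP8

set_option autoImplicit false

namespace Pool.Agent.Lib.MP_9d820d_co.Fast.A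

noncomputable section

def lo : V7 Int := ⟨Int.ofNat 6337685, Int.negSucc 13681288, Int.ofNat 6337685, Int.ofNat 13464810, Int.ofNat 15053115, Int.negSucc 74565, Int.ofNat 6259195⟩
def hi : V7 Int := ⟨Int.ofNat 6478964, Int.negSucc 13464809, Int.ofNat 6478964, Int.ofNat 13681289, Int.ofNat 15297146, Int.ofNat 0, Int.ofNat 6557454⟩
theorem loc_ok : locOK lo hi loc = true := by decide +kernel

variable {P : Prm}

theorem G_405 (hP : P.ok) (hl : ¬ InB P loc) : FGood P h405 :=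
  frun_good hP hl T_405 (fc (G_4645 hP hl) (fc (G_4677 hP hl) (fc (G_4699 hP hl) (fc (G_4700 hP hl) (fc (G_4701 hP hl) (fc (G_4702 hP hl) (fc (G_4703 hP hl) (fc (G_4704 hP hl) (fc (G_4705 hP hl) (fc (G_4706 hP hl) (fc (G_4707 hP hl) (fc (G_4708 hP hl) (fc (G_4709 hP hl) f0)))))))))))))
theorem G_403 (hP : P.ok) (hl : ¬ InB P loc) : FGood P h403 :=
  frun_good hP hl T_403 (fc (G_4619 hP hl) (fc (G_405 hP hl) (fc (G_4627 hP hl) (fc (G_4628 hP hl) f0))))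
theorem G_404 (hP : P.ok) (hl : ¬ InB P loc) : FGood P h404 :=
  frun_good hP hl T_404 (fc (G_4538 hP hl) (fc (G_4539 hP hl) (fc (G_4612 hP hl) f0)))
theorem G_386 (hP : P.ok) (hl : ¬ InB P loc) : FGood P h386 :=
  frun_good hP hl T_386 (fc (G_4509 hP hl) (fc (G_4510 hP hl) (fc (G_4511 hP hl) (fc (G_403 hP hl) (fc (G_4512 hP hl) (fc (G_404 hP hl) (fc (G_4535 hP hl) f0)))))))
theorem G_393 (hP : P.ok) (hl : ¬ InB P loc) : FGood P h393 :=
  frun_good hP hl T_393 (fc (G_4456 hP hl) (fc (G_4460 hP hl) (fc (G_4461 hP hl) (fc (G_4462 hP hl) (fc (G_4467 hP hl) (fc (G_4499 hP hl) (fc (G_4500 hP hl) (fc (G_4501 hP hl) f0))))))))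
theorem G_402 (hP : P.ok) (hl : ¬ InB P loc) : FGood P h402 :=
  frun_good hP hl T_402 (fc (G_4446 hP hl) (fc (G_4447 hP hl) (fc (G_4451 hP hl) (fc (G_4454 hP hl) (fc (G_4455 hP hl) f0)))))
theorem G_401 (hP : P.ok) (hl : ¬ InB P loc) : FGood P h401 :=
  frun_good hP hl T_401 (fc (G_402 hP hl) (fc (G_4440 hP hl) f0))
theorem G_396 (hP : P.ok) (hl : ¬ InB P loc) : FGood P h396 :=
  frun_good hP hl T_396 (fc (G_401 hP hl) f0)
theorem G_400 (hP : P.ok) (hl : ¬ InB P loc) : FGood P h400 :=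
  frun_good hP hl T_400 (fc (G_4432 hP hl) (fc (G_4433 hP hl) (fc (G_4434 hP hl) f0)))
theorem G_399 (hP : P.ok) (hl : ¬ InB P loc) : FGood P h399 :=
  frun_good hP hl T_399 (fc (G_400 hP hl) (fc (G_4429 hP hl) (fc (G_4430 hP hl) f0)))
theorem G_398 (hP : P.ok) (hl : ¬ InB P loc) : FGood P h398 :=
  frun_good hP hl T_398 (fc (G_4421 hP hl) (fc (G_399 hP hl) f0))
theorem G_397 (hP : P.ok) (hl : ¬ InB P loc) : FGood P h397 :=
  frun_good hP hl T_397 (fc (G_398 hP hl) (fc (G_4410 hP hl) (fc (G_4411 hP hl) (fc (G_4412 hP hl) (fc (G_4415 hP hl) f0)))))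
theorem G_395 (hP : P.ok) (hl : ¬ InB P loc) : FGood P h395 :=
  frun_good hP hl T_395 (fc (G_396 hP hl) (fc (G_397 hP hl) f0))
theorem G_394 (hP : P.ok) (hl : ¬ InB P loc) : FGood P h394 :=
  frun_good hP hl T_394 (fc (G_4404 hP hl) (fc (G_4405 hP hl) (fc (G_4406 hP hl) (fc (G_4407 hP hl) (fc (G_4408 hP hl) (fc (G_4409 hP hl) (fc (G_395 hP hl) f0)))))))
theorem G_387 (hP : P.ok) (hl : ¬ InB P loc) : FGood P h387 :=
  frun_good hP hl T_387 (fc (G_4341 hP hl) (fc (G_393 hP hl) (fc (G_394 hP hl) (fc (G_4344 hP hl) (fc (G_4357 hP hl) (fc (G_4358 hP hl) (fc (G_4359 hP hl) (fc (G_4360 hP hl) (fc (G_4361 hP hl) (fc (G_4362 hP hl) (fc (G_4363 hP hl) (fc (G_4364 hP hl) (fc (G_4365 hP hl) (fc (G_4366 hP hl) (fc (G_4369 hP hl) f0)))))))))))))))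
theorem G_388 (hP : P.ok) (hl : ¬ InB P loc) : FGood P h388 :=
  frun_good hP hl T_388 (fc (G_4297 hP hl) (fc (G_4313 hP hl) (fc (G_4314 hP hl) (fc (G_4316 hP hl) (fc (G_4319 hP hl) (fc (G_4320 hP hl) f0))))))
theorem G_389 (hP : P.ok) (hl : ¬ InB P loc) : FGood P h389 :=
  frun_good hP hl T_389 (fc (G_4248 hP hl) (fc (G_4249 hP hl) (fc (G_4270 hP hl) (fc (G_4277 hP hl) (fc (G_4278 hP hl) (fc (G_4279 hP hl) (fc (G_4280 hP hl) (fc (G_4281 hP hl) (fc (G_4282 hP hl) (fc (G_4283 hP hl) f0))))))))))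
theorem G_392 (hP : P.ok) (hl : ¬ InB P loc) : FGood P h392 :=
  frun_good hP hl T_392 (fc (G_4207 hP hl) (fc (G_4210 hP hl) (fc (G_4211 hP hl) (fc (G_4212 hP hl) (fc (G_4213 hP hl) (fc (G_4214 hP hl) (fc (G_4215 hP hl) (fc (G_4216 hP hl) (fc (G_4217 hP hl) (fc (G_4218 hP hl) (fc (G_4227 hP hl) f0)))))))))))
theorem G_391 (hP : P.ok) (hl : ¬ InB P loc) : FGood P h391 :=
  frun_good hP hl T_391 (fc (G_4172 hP hl) (fc (G_4174 hP hl) (fc (G_392 hP hl) (fc (G_4175 hP hl) (fc (G_4181 hP hl) (fc (G_4200 hP hl) (fc (G_4201 hP hl) (fc (G_4202 hP hl) (fc (G_4203 hP hl) (fc (G_4204 hP hl) (fc (G_4205 hP hl) (fc (G_4206 hP hl) f0))))))))))))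
theorem G_390 (hP : P.ok) (hl : ¬ InB P loc) : FGood P h390 :=
  frun_good hP hl T_390 (fc (G_391 hP hl) (fc (G_4092 hP hl) (fc (G_4110 hP hl) (fc (G_4131 hP hl) f0))))
theorem G_3 (hP : P.ok) (hl : ¬ InB P loc) : FGood P h3 :=
  frun_good hP hl T_3 (fc (G_386 hP hl) (fc (G_387 hP hl) (fc (G_388 hP hl) (fc (G_4067 hP hl) (fc (G_4075 hP hl) (fc (G_4082 hP hl) (fc (G_4083 hP hl) (fc (G_4084 hP hl) (fc (G_4085 hP hl) (fc (G_4086 hP hl) (fc (G_4087 hP hl) (fc (G_4088 hP hl) (fc (G_4089 hP hl) (fc (G_389 hP hl) (fc (G_390 hP hl) (fc (G_4090 hP hl) f0))))))))))))))))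
theorem G_385 (hP : P.ok) (hl : ¬ InB P loc) : FGood P h385 :=
  frun_good hP hl T_385 (fc (G_4033 hP hl) (fc (G_4034 hP hl) (fc (G_4038 hP hl) (fc (G_4039 hP hl) (fc (G_4040 hP hl) (fc (G_4041 hP hl) (fc (G_4053 hP hl) f0)))))))
theorem G_384 (hP : P.ok) (hl : ¬ InB P loc) : FGood P h384 :=
  frun_good hP hl T_384 (fc (G_3978 hP hl) (fc (G_3995 hP hl) (fc (G_4000 hP hl) (fc (G_4001 hP hl) (fc (G_4002 hP hl) (fc (G_385 hP hl) (fc (G_4012 hP hl) (fc (G_4015 hP hl) (fc (G_4016 hP hl) (fc (G_4017 hP hl) f0))))))))))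
theorem G_382 (hP : P.ok) (hl : ¬ InB P loc) : FGood P h382 :=
  frun_good hP hl T_382 (fc (G_3926 hP hl) (fc (G_3927 hP hl) (fc (G_3928 hP hl) (fc (G_3929 hP hl) (fc (G_384 hP hl) (fc (G_3930 hP hl) (fc (G_3953 hP hl) (fc (G_3954 hP hl) (fc (G_3955 hP hl) (fc (G_3956 hP hl) (fc (G_3957 hP hl) (fc (G_3958 hP hl) (fc (G_3959 hP hl) (fc (G_3960 hP hl) (fc (G_3963 hP hl) f0)))))))))))))))
theorem G_383 (hP : P.ok) (hl : ¬ InB P loc) : FGood P h383 :=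
  frun_good hP hl T_383 (fc (G_3838 hP hl) (fc (G_3851 hP hl) (fc (G_3896 hP hl) (fc (G_3907 hP hl) (fc (G_3908 hP hl) (fc (G_3909 hP hl) (fc (G_3910 hP hl) (fc (G_3911 hP hl) (fc (G_3912 hP hl) f0)))))))))
theorem G_381 (hP : P.ok) (hl : ¬ InB P loc) : FGood P h381 :=
  frun_good hP hl T_381 (fc (G_382 hP hl) (fc (G_3784 hP hl) (fc (G_3800 hP hl) (fc (G_3801 hP hl) (fc (G_3802 hP hl) (fc (G_3803 hP hl) (fc (G_3804 hP hl) (fc (G_3805 hP hl) (fc (G_3806 hP hl) (fc (G_3807 hP hl) (fc (G_3808 hP hl) (fc (G_3809 hP hl) (fc (G_3819 hP hl) (fc (G_3824 hP hl) (fc (G_383 hP hl) f0)))))))))))))))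
theorem G_4 (hP : P.ok) (hl : ¬ InB P loc) : FGood P h4 :=
  frun_good hP hl T_4 (fc (G_381 hP hl) (fc (G_3781 hP hl) f0))
theorem G_380 (hP : P.ok) (hl : ¬ InB P loc) : FGood P h380 :=
  frun_good hP hl T_380 (fc (G_3765 hP hl) (fc (G_3769 hP hl) (fc (G_3772 hP hl) f0)))
theorem G_376 (hP : P.ok) (hl : ¬ InB P loc) : FGood P h376 :=
  frun_good hP hl T_376 (fc (G_3754 hP hl) (fc (G_3755 hP hl) (fc (G_380 hP hl) (fc (G_3758 hP hl) f0))))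
theorem G_379 (hP : P.ok) (hl : ¬ InB P loc) : FGood P h379 :=
  frun_good hP hl T_379 (fc (G_3747 hP hl) (fc (G_3748 hP hl) f0))
theorem G_378 (hP : P.ok) (hl : ¬ InB P loc) : FGood P h378 :=
  frun_good hP hl T_378 (fc (G_3739 hP hl) (fc (G_3740 hP hl) (fc (G_3741 hP hl) (fc (G_379 hP hl) (fc (G_3743 hP hl) f0)))))
theorem G_377 (hP : P.ok) (hl : ¬ InB P loc) : FGood P h377 :=
  frun_good hP hl T_377 (fc (G_3736 hP hl) (fc (G_3737 hP hl) (fc (G_3738 hP hl) (fc (G_378 hP hl) f0))))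
theorem G_353 (hP : P.ok) (hl : ¬ InB P loc) : FGood P h353 :=
  frun_good hP hl T_353 (fc (G_3732 hP hl) (fc (G_376 hP hl) (fc (G_377 hP hl) f0)))
theorem G_375 (hP : P.ok) (hl : ¬ InB P loc) : FGood P h375 :=
  frun_good hP hl T_375 (fc (G_3723 hP hl) (fc (G_3724 hP hl) (fc (G_3725 hP hl) (fc (G_3728 hP hl) (fc (G_3731 hP hl) f0)))))
theorem G_372 (hP : P.ok) (hl : ¬ InB P loc) : FGood P h372 :=
  frun_good hP hl T_372 (fc (G_3720 hP hl) (fc (G_3721 hP hl) (fc (G_375 hP hl) f0)))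
theorem G_374 (hP : P.ok) (hl : ¬ InB P loc) : FGood P h374 :=
  frun_good hP hl T_374 (fc (G_3711 hP hl) (fc (G_3712 hP hl) f0))
theorem G_373 (hP : P.ok) (hl : ¬ InB P loc) : FGood P h373 :=
  frun_good hP hl T_373 (fc (G_374 hP hl) (fc (G_3708 hP hl) f0))
theorem G_354 (hP : P.ok) (hl : ¬ InB P loc) : FGood P h354 :=
  frun_good hP hl T_354 (fc (G_3695 hP hl) (fc (G_3698 hP hl) (fc (G_372 hP hl) (fc (G_3700 hP hl) (fc (G_373 hP hl) f0)))))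
theorem G_371 (hP : P.ok) (hl : ¬ InB P loc) : FGood P h371 :=
  frun_good hP hl T_371 (fc (G_3677 hP hl) (fc (G_3680 hP hl) (fc (G_3684 hP hl) (fc (G_3690 hP hl) (fc (G_3693 hP hl) f0)))))
theorem G_355 (hP : P.ok) (hl : ¬ InB P loc) : FGood P h355 :=
  frun_good hP hl T_355 (fc (G_371 hP hl) f0)
theorem G_370 (hP : P.ok) (hl : ¬ InB P loc) : FGood P h370 :=
  frun_good hP hl T_370 (fc (G_3661 hP hl) (fc (G_3664 hP hl) (fc (G_3665 hP hl) (fc (G_3667 hP hl) (fc (G_3672 hP hl) (fc (G_3676 hP hl) f0))))))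
theorem G_362 (hP : P.ok) (hl : ¬ InB P loc) : FGood P h362 :=
  frun_good hP hl T_362 (fc (G_3656 hP hl) (fc (G_370 hP hl) (fc (G_3659 hP hl) f0)))
theorem G_369 (hP : P.ok) (hl : ¬ InB P loc) : FGood P h369 :=
  frun_good hP hl T_369 (fc (G_3645 hP hl) (fc (G_3648 hP hl) (fc (G_3649 hP hl) (fc (G_3650 hP hl) (fc (G_3651 hP hl) f0)))))
theorem G_368 (hP : P.ok) (hl : ¬ InB P loc) : FGood P h368 :=
  frun_good hP hl T_368 (fc (G_369 hP hl) f0)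
theorem G_367 (hP : P.ok) (hl : ¬ InB P loc) : FGood P h367 :=
  frun_good hP hl T_367 (fc (G_3641 hP hl) (fc (G_3643 hP hl) (fc (G_3644 hP hl) (fc (G_368 hP hl) f0))))
theorem G_364 (hP : P.ok) (hl : ¬ InB P loc) : FGood P h364 :=
  frun_good hP hl T_364 (fc (G_367 hP hl) (fc (G_3632 hP hl) (fc (G_3633 hP hl) f0)))
theorem G_366 (hP : P.ok) (hl : ¬ InB P loc) : FGood P h366 :=
  frun_good hP hl T_366 (fc (G_3621 hP hl) (fc (G_3624 hP hl) (fc (G_3628 hP hl) (fc (G_3629 hP hl) f0))))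
theorem G_365 (hP : P.ok) (hl : ¬ InB P loc) : FGood P h365 :=
  frun_good hP hl T_365 (fc (G_366 hP hl) (fc (G_3619 hP hl) f0))
theorem G_363 (hP : P.ok) (hl : ¬ InB P loc) : FGood P h363 :=
  frun_good hP hl T_363 (fc (G_3616 hP hl) (fc (G_3617 hP hl) (fc (G_364 hP hl) (fc (G_365 hP hl) f0))))
theorem G_356 (hP : P.ok) (hl : ¬ InB P loc) : FGood P h356 :=
  frun_good hP hl T_356 (fc (G_3612 hP hl) (fc (G_362 hP hl) (fc (G_3615 hP hl) (fc (G_363 hP hl) f0))))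
theorem G_361 (hP : P.ok) (hl : ¬ InB P loc) : FGood P h361 :=
  frun_good hP hl T_361 (fc (G_3595 hP hl) (fc (G_3598 hP hl) (fc (G_3600 hP hl) (fc (G_3602 hP hl) (fc (G_3604 hP hl) f0)))))
theorem G_360 (hP : P.ok) (hl : ¬ InB P loc) : FGood P h360 :=
  frun_good hP hl T_360 (fc (G_3590 hP hl) (fc (G_361 hP hl) (fc (G_3592 hP hl) f0)))
theorem G_359 (hP : P.ok) (hl : ¬ InB P loc) : FGood P h359 :=
  frun_good hP hl T_359 (fc (G_3576 hP hl) (fc (G_3578 hP hl) (fc (G_3581 hP hl) (fc (G_3587 hP hl) (fc (G_360 hP hl) f0)))))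
theorem G_358 (hP : P.ok) (hl : ¬ InB P loc) : FGood P h358 :=
  frun_good hP hl T_358 (fc (G_359 hP hl) (fc (G_3573 hP hl) (fc (G_3575 hP hl) f0)))
theorem G_357 (hP : P.ok) (hl : ¬ InB P loc) : FGood P h357 :=
  frun_good hP hl T_357 (fc (G_3570 hP hl) (fc (G_358 hP hl) f0))
theorem G_59 (hP : P.ok) (hl : ¬ InB P loc) : FGood P h59 :=
  frun_good hP hl T_59 (fc (G_353 hP hl) (fc (G_3568 hP hl) (fc (G_354 hP hl) (fc (G_355 hP hl) (fc (G_356 hP hl) (fc (G_357 hP hl) (fc (G_3569 hP hl) f0)))))))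
theorem G_352 (hP : P.ok) (hl : ¬ InB P loc) : FGood P h352 :=
  frun_good hP hl T_352 (fc (G_3556 hP hl) (fc (G_3562 hP hl) (fc (G_3566 hP hl) f0)))
theorem G_351 (hP : P.ok) (hl : ¬ InB P loc) : FGood P h351 :=
  frun_good hP hl T_351 (fc (G_3553 hP hl) (fc (G_3554 hP hl) (fc (G_3555 hP hl) (fc (G_352 hP hl) f0))))
theorem G_350 (hP : P.ok) (hl : ¬ InB P loc) : FGood P h350 :=
  frun_good hP hl T_350 (fc (G_351 hP hl) f0)
theorem G_348 (hP : P.ok) (hl : ¬ InB P loc) : FGood P h348 :=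
  frun_good hP hl T_348 (fc (G_3547 hP hl) (fc (G_350 hP hl) f0))
theorem G_349 (hP : P.ok) (hl : ¬ InB P loc) : FGood P h349 :=
  frun_good hP hl T_349 (fc (G_3526 hP hl) (fc (G_3527 hP hl) (fc (G_3528 hP hl) (fc (G_3533 hP hl) (fc (G_3534 hP hl) (fc (G_3536 hP hl) (fc (G_3542 hP hl) (fc (G_3544 hP hl) f0))))))))
theorem G_189 (hP : P.ok) (hl : ¬ InB P loc) : FGood P h189 :=
  frun_good hP hl T_189 (fc (G_348 hP hl) (fc (G_349 hP hl) f0))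
theorem G_347 (hP : P.ok) (hl : ¬ InB P loc) : FGood P h347 :=
  frun_good hP hl T_347 (fc (G_3515 hP hl) (fc (G_3517 hP hl) (fc (G_3521 hP hl) f0)))
theorem G_341 (hP : P.ok) (hl : ¬ InB P loc) : FGood P h341 :=
  frun_good hP hl T_341 (fc (G_347 hP hl) (fc (G_3501 hP hl) (fc (G_3508 hP hl) f0)))
theorem G_343 (hP : P.ok) (hl : ¬ InB P loc) : FGood P h343 :=
  frun_good hP hl T_343 (fc (G_3492 hP hl) (fc (G_3493 hP hl) (fc (G_3496 hP hl) f0)))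
theorem G_344 (hP : P.ok) (hl : ¬ InB P loc) : FGood P h344 :=
  frun_good hP hl T_344 (fc (G_3484 hP hl) (fc (G_3485 hP hl) (fc (G_3488 hP hl) f0)))
theorem G_346 (hP : P.ok) (hl : ¬ InB P loc) : FGood P h346 :=
  frun_good hP hl T_346 (fc (G_3477 hP hl) (fc (G_3479 hP hl) (fc (G_3482 hP hl) (fc (G_3483 hP hl) f0))))
theorem G_345 (hP : P.ok) (hl : ¬ InB P loc) : FGood P h345 :=
  frun_good hP hl T_345 (fc (G_346 hP hl) f0)
theorem G_342 (hP : P.ok) (hl : ¬ InB P loc) : FGood P h342 :=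
  frun_good hP hl T_342 (fc (G_343 hP hl) (fc (G_344 hP hl) (fc (G_345 hP hl) f0)))
theorem G_333 (hP : P.ok) (hl : ¬ InB P loc) : FGood P h333 :=
  frun_good hP hl T_333 (fc (G_341 hP hl) (fc (G_3473 hP hl) (fc (G_342 hP hl) f0)))
theorem G_340 (hP : P.ok) (hl : ¬ InB P loc) : FGood P h340 :=
  frun_good hP hl T_340 (fc (G_3462 hP hl) (fc (G_3465 hP hl) (fc (G_3469 hP hl) (fc (G_3472 hP hl) f0))))
theorem G_334 (hP : P.ok) (hl : ¬ InB P loc) : FGood P h334 :=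
  frun_good hP hl T_334 (fc (G_340 hP hl) (fc (G_3457 hP hl) f0))
theorem G_338 (hP : P.ok) (hl : ¬ InB P loc) : FGood P h338 :=
  frun_good hP hl T_338 (fc (G_3442 hP hl) (fc (G_3450 hP hl) (fc (G_3452 hP hl) f0)))
theorem G_339 (hP : P.ok) (hl : ¬ InB P loc) : FGood P h339 :=
  frun_good hP hl T_339 (fc (G_3435 hP hl) (fc (G_3436 hP hl) (fc (G_3437 hP hl) (fc (G_3439 hP hl) (fc (G_3440 hP hl) f0)))))
theorem G_337 (hP : P.ok) (hl : ¬ InB P loc) : FGood P h337 :=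
  frun_good hP hl T_337 (fc (G_338 hP hl) (fc (G_3427 hP hl) (fc (G_3434 hP hl) (fc (G_339 hP hl) f0))))
theorem G_336 (hP : P.ok) (hl : ¬ InB P loc) : FGood P h336 :=
  frun_good hP hl T_336 (fc (G_3425 hP hl) (fc (G_337 hP hl) f0))
theorem G_335 (hP : P.ok) (hl : ¬ InB P loc) : FGood P h335 :=
  frun_good hP hl T_335 (fc (G_3421 hP hl) (fc (G_336 hP hl) f0))
theorem G_190 (hP : P.ok) (hl : ¬ InB P loc) : FGood P h190 :=
  frun_good hP hl T_190 (fc (G_333 hP hl) (fc (G_3416 hP hl) (fc (G_3419 hP hl) (fc (G_3420 hP hl) (fc (G_334 hP hl) (fc (G_335 hP hl) f0))))))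
theorem G_332 (hP : P.ok) (hl : ¬ InB P loc) : FGood P h332 :=
  frun_good hP hl T_332 (fc (G_3400 hP hl) (fc (G_3405 hP hl) (fc (G_3406 hP hl) (fc (G_3411 hP hl) (fc (G_3412 hP hl) f0)))))
theorem G_331 (hP : P.ok) (hl : ¬ InB P loc) : FGood P h331 :=
  frun_good hP hl T_331 (fc (G_3394 hP hl) (fc (G_3399 hP hl) (fc (G_332 hP hl) f0)))
theorem G_330 (hP : P.ok) (hl : ¬ InB P loc) : FGood P h330 :=
  frun_good hP hl T_330 (fc (G_331 hP hl) (fc (G_3386 hP hl) (fc (G_3388 hP hl) (fc (G_3392 hP hl) (fc (G_3393 hP hl) f0)))))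
theorem G_326 (hP : P.ok) (hl : ¬ InB P loc) : FGood P h326 :=
  frun_good hP hl T_326 (fc (G_3376 hP hl) (fc (G_3377 hP hl) (fc (G_330 hP hl) (fc (G_3378 hP hl) (fc (G_3381 hP hl) (fc (G_3382 hP hl) f0))))))
theorem G_329 (hP : P.ok) (hl : ¬ InB P loc) : FGood P h329 :=
  frun_good hP hl T_329 (fc (G_3353 hP hl) (fc (G_3355 hP hl) (fc (G_3356 hP hl) (fc (G_3358 hP hl) (fc (G_3360 hP hl) (fc (G_3366 hP hl) (fc (G_3370 hP hl) (fc (G_3371 hP hl) (fc (G_3375 hP hl) f0)))))))))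
theorem G_328 (hP : P.ok) (hl : ¬ InB P loc) : FGood P h328 :=
  frun_good hP hl T_328 (fc (G_3352 hP hl) (fc (G_329 hP hl) f0))
theorem G_327 (hP : P.ok) (hl : ¬ InB P loc) : FGood P h327 :=
  frun_good hP hl T_327 (fc (G_328 hP hl) (fc (G_3342 hP hl) (fc (G_3343 hP hl) (fc (G_3347 hP hl) (fc (G_3348 hP hl) f0)))))
theorem G_325 (hP : P.ok) (hl : ¬ InB P loc) : FGood P h325 :=
  frun_good hP hl T_325 (fc (G_326 hP hl) (fc (G_327 hP hl) (fc (G_3337 hP hl) f0)))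
theorem G_191 (hP : P.ok) (hl : ¬ InB P loc) : FGood P h191 :=
  frun_good hP hl T_191 (fc (G_325 hP hl) (fc (G_3332 hP hl) (fc (G_3336 hP hl) f0)))
theorem G_324 (hP : P.ok) (hl : ¬ InB P loc) : FGood P h324 :=
  frun_good hP hl T_324 (fc (G_3317 hP hl) (fc (G_3323 hP hl) (fc (G_3329 hP hl) (fc (G_3331 hP hl) f0))))
theorem G_323 (hP : P.ok) (hl : ¬ InB P loc) : FGood P h323 :=
  frun_good hP hl T_323 (fc (G_3314 hP hl) (fc (G_3315 hP hl) (fc (G_3316 hP hl) (fc (G_324 hP hl) f0))))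
theorem G_307 (hP : P.ok) (hl : ¬ InB P loc) : FGood P h307 :=
  frun_good hP hl T_307 (fc (G_3277 hP hl) (fc (G_323 hP hl) (fc (G_3283 hP hl) (fc (G_3286 hP hl) (fc (G_3290 hP hl) (fc (G_3292 hP hl) (fc (G_3296 hP hl) (fc (G_3302 hP hl) (fc (G_3310 hP hl) f0)))))))))
theorem G_322 (hP : P.ok) (hl : ¬ InB P loc) : FGood P h322 :=
  frun_good hP hl T_322 (fc (G_3258 hP hl) (fc (G_3263 hP hl) (fc (G_3269 hP hl) (fc (G_3270 hP hl) (fc (G_3273 hP hl) (fc (G_3275 hP hl) f0))))))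
theorem G_314 (hP : P.ok) (hl : ¬ InB P loc) : FGood P h314 :=
  frun_good hP hl T_314 (fc (G_3253 hP hl) (fc (G_3256 hP hl) (fc (G_322 hP hl) (fc (G_3257 hP hl) f0))))
theorem G_319 (hP : P.ok) (hl : ¬ InB P loc) : FGood P h319 :=
  frun_good hP hl T_319 (fc (G_3248 hP hl) (fc (G_3249 hP hl) (fc (G_3250 hP hl) (fc (G_3252 hP hl) f0))))
theorem G_320 (hP : P.ok) (hl : ¬ InB P loc) : FGood P h320 :=
  frun_good hP hl T_320 (fc (G_3241 hP hl) (fc (G_3243 hP hl) (fc (G_3247 hP hl) f0)))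
theorem G_321 (hP : P.ok) (hl : ¬ InB P loc) : FGood P h321 :=
  frun_good hP hl T_321 (fc (G_3238 hP hl) (fc (G_3239 hP hl) (fc (G_3240 hP hl) f0)))
theorem G_318 (hP : P.ok) (hl : ¬ InB P loc) : FGood P h318 :=
  frun_good hP hl T_318 (fc (G_3236 hP hl) (fc (G_319 hP hl) (fc (G_3237 hP hl) (fc (G_320 hP hl) (fc (G_321 hP hl) f0)))))
theorem G_317 (hP : P.ok) (hl : ¬ InB P loc) : FGood P h317 :=
  frun_good hP hl T_317 (fc (G_318 hP hl) (fc (G_3232 hP hl) (fc (G_3235 hP hl) f0)))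
theorem G_316 (hP : P.ok) (hl : ¬ InB P loc) : FGood P h316 :=
  frun_good hP hl T_316 (fc (G_317 hP hl) f0)
theorem G_315 (hP : P.ok) (hl : ¬ InB P loc) : FGood P h315 :=
  frun_good hP hl T_315 (fc (G_3227 hP hl) (fc (G_316 hP hl) f0))
theorem G_312 (hP : P.ok) (hl : ¬ InB P loc) : FGood P h312 :=
  frun_good hP hl T_312 (fc (G_3215 hP hl) (fc (G_3217 hP hl) (fc (G_314 hP hl) (fc (G_3218 hP hl) (fc (G_3225 hP hl) (fc (G_3226 hP hl) (fc (G_315 hP hl) f0)))))))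
theorem G_313 (hP : P.ok) (hl : ¬ InB P loc) : FGood P h313 :=
  frun_good hP hl T_313 (fc (G_3205 hP hl) (fc (G_3206 hP hl) (fc (G_3211 hP hl) f0)))
theorem G_308 (hP : P.ok) (hl : ¬ InB P loc) : FGood P h308 :=
  frun_good hP hl T_308 (fc (G_312 hP hl) (fc (G_313 hP hl) (fc (G_3200 hP hl) f0)))
theorem G_311 (hP : P.ok) (hl : ¬ InB P loc) : FGood P h311 :=
  frun_good hP hl T_311 (fc (G_3191 hP hl) (fc (G_3196 hP hl) f0))
theorem G_310 (hP : P.ok) (hl : ¬ InB P loc) : FGood P h310 :=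
  frun_good hP hl T_310 (fc (G_311 hP hl) (fc (G_3187 hP hl) f0))
theorem G_309 (hP : P.ok) (hl : ¬ InB P loc) : FGood P h309 :=
  frun_good hP hl T_309 (fc (G_3183 hP hl) (fc (G_310 hP hl) f0))
theorem G_242 (hP : P.ok) (hl : ¬ InB P loc) : FGood P h242 :=
  frun_good hP hl T_242 (fc (G_3179 hP hl) (fc (G_307 hP hl) (fc (G_3181 hP hl) (fc (G_308 hP hl) (fc (G_3182 hP hl) (fc (G_309 hP hl) f0))))))
theorem G_243 (hP : P.ok) (hl : ¬ InB P loc) : FGood P h243 :=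
  frun_good hP hl T_243 (fc (G_3148 hP hl) (fc (G_3149 hP hl) (fc (G_3152 hP hl) (fc (G_3153 hP hl) (fc (G_3157 hP hl) (fc (G_3160 hP hl) (fc (G_3169 hP hl) (fc (G_3170 hP hl) (fc (G_3178 hP hl) f0)))))))))
theorem G_306 (hP : P.ok) (hl : ¬ InB P loc) : FGood P h306 :=
  frun_good hP hl T_306 (fc (G_3135 hP hl) (fc (G_3139 hP hl) (fc (G_3147 hP hl) f0)))
theorem G_305 (hP : P.ok) (hl : ¬ InB P loc) : FGood P h305 :=
  frun_good hP hl T_305 (fc (G_3130 hP hl) (fc (G_306 hP hl) (fc (G_3134 hP hl) f0)))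
theorem G_285 (hP : P.ok) (hl : ¬ InB P loc) : FGood P h285 :=
  frun_good hP hl T_285 (fc (G_3129 hP hl) (fc (G_305 hP hl) f0))
theorem G_304 (hP : P.ok) (hl : ¬ InB P loc) : FGood P h304 :=
  frun_good hP hl T_304 (fc (G_3119 hP hl) (fc (G_3120 hP hl) (fc (G_3126 hP hl) (fc (G_3127 hP hl) (fc (G_3128 hP hl) f0)))))
theorem G_303 (hP : P.ok) (hl : ¬ InB P loc) : FGood P h303 :=
  frun_good hP hl T_303 (fc (G_3118 hP hl) (fc (G_304 hP hl) f0))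
theorem G_302 (hP : P.ok) (hl : ¬ InB P loc) : FGood P h302 :=
  frun_good hP hl T_302 (fc (G_303 hP hl) (fc (G_3114 hP hl) (fc (G_3116 hP hl) f0)))
theorem G_294 (hP : P.ok) (hl : ¬ InB P loc) : FGood P h294 :=
  frun_good hP hl T_294 (fc (G_3112 hP hl) (fc (G_302 hP hl) f0))
theorem G_301 (hP : P.ok) (hl : ¬ InB P loc) : FGood P h301 :=
  frun_good hP hl T_301 (fc (G_3103 hP hl) (fc (G_3104 hP hl) (fc (G_3105 hP hl) f0)))
theorem G_300 (hP : P.ok) (hl : ¬ InB P loc) : FGood P h300 :=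
  frun_good hP hl T_300 (fc (G_301 hP hl) (fc (G_3098 hP hl) f0))
theorem G_299 (hP : P.ok) (hl : ¬ InB P loc) : FGood P h299 :=
  frun_good hP hl T_299 (fc (G_300 hP hl) (fc (G_3097 hP hl) f0))
theorem G_295 (hP : P.ok) (hl : ¬ InB P loc) : FGood P h295 :=
  frun_good hP hl T_295 (fc (G_3094 hP hl) (fc (G_3096 hP hl) (fc (G_299 hP hl) f0)))
theorem G_298 (hP : P.ok) (hl : ¬ InB P loc) : FGood P h298 :=
  frun_good hP hl T_298 (fc (G_3083 hP hl) (fc (G_3087 hP hl) (fc (G_3088 hP hl) (fc (G_3089 hP hl) (fc (G_3090 hP hl) (fc (G_3091 hP hl) (fc (G_3093 hP hl) f0)))))))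
theorem G_297 (hP : P.ok) (hl : ¬ InB P loc) : FGood P h297 :=
  frun_good hP hl T_297 (fc (G_298 hP hl) f0)
theorem G_296 (hP : P.ok) (hl : ¬ InB P loc) : FGood P h296 :=
  frun_good hP hl T_296 (fc (G_297 hP hl) f0)
theorem G_286 (hP : P.ok) (hl : ¬ InB P loc) : FGood P h286 :=
  frun_good hP hl T_286 (fc (G_3079 hP hl) (fc (G_294 hP hl) (fc (G_295 hP hl) (fc (G_3080 hP hl) (fc (G_3081 hP hl) (fc (G_296 hP hl) (fc (G_3082 hP hl) f0)))))))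
theorem G_293 (hP : P.ok) (hl : ¬ InB P loc) : FGood P h293 :=
  frun_good hP hl T_293 (fc (G_3074 hP hl) (fc (G_3075 hP hl) (fc (G_3076 hP hl) f0)))
theorem G_292 (hP : P.ok) (hl : ¬ InB P loc) : FGood P h292 :=
  frun_good hP hl T_292 (fc (G_3073 hP hl) (fc (G_293 hP hl) f0))
theorem G_287 (hP : P.ok) (hl : ¬ InB P loc) : FGood P h287 :=
  frun_good hP hl T_287 (fc (G_3068 hP hl) (fc (G_3072 hP hl) (fc (G_292 hP hl) f0)))
theorem G_291 (hP : P.ok) (hl : ¬ InB P loc) : FGood P h291 :=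
  frun_good hP hl T_291 (fc (G_3061 hP hl) (fc (G_3066 hP hl) (fc (G_3067 hP hl) f0)))
theorem G_290 (hP : P.ok) (hl : ¬ InB P loc) : FGood P h290 :=
  frun_good hP hl T_290 (fc (G_291 hP hl) f0)
theorem G_289 (hP : P.ok) (hl : ¬ InB P loc) : FGood P h289 :=
  frun_good hP hl T_289 (fc (G_290 hP hl) (fc (G_3058 hP hl) f0))
theorem G_288 (hP : P.ok) (hl : ¬ InB P loc) : FGood P h288 :=
  frun_good hP hl T_288 (fc (G_289 hP hl) f0)
theorem G_274 (hP : P.ok) (hl : ¬ InB P loc) : FGood P h274 :=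
  frun_good hP hl T_274 (fc (G_3048 hP hl) (fc (G_3051 hP hl) (fc (G_285 hP hl) (fc (G_286 hP hl) (fc (G_287 hP hl) (fc (G_288 hP hl) (fc (G_3054 hP hl) f0)))))))
theorem G_282 (hP : P.ok) (hl : ¬ InB P loc) : FGood P h282 :=
  frun_good hP hl T_282 (fc (G_3038 hP hl) (fc (G_3039 hP hl) (fc (G_3040 hP hl) (fc (G_3043 hP hl) (fc (G_3046 hP hl) (fc (G_3047 hP hl) f0))))))
theorem G_284 (hP : P.ok) (hl : ¬ InB P loc) : FGood P h284 :=
  frun_good hP hl T_284 (fc (G_3034 hP hl) (fc (G_3036 hP hl) (fc (G_3037 hP hl) f0)))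
theorem G_283 (hP : P.ok) (hl : ¬ InB P loc) : FGood P h283 :=
  frun_good hP hl T_283 (fc (G_284 hP hl) f0)
theorem G_275 (hP : P.ok) (hl : ¬ InB P loc) : FGood P h275 :=
  frun_good hP hl T_275 (fc (G_282 hP hl) (fc (G_283 hP hl) f0))
theorem G_281 (hP : P.ok) (hl : ¬ InB P loc) : FGood P h281 :=
  frun_good hP hl T_281 (fc (G_3023 hP hl) (fc (G_3025 hP hl) (fc (G_3032 hP hl) f0)))
theorem G_280 (hP : P.ok) (hl : ¬ InB P loc) : FGood P h280 :=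
  frun_good hP hl T_280 (fc (G_281 hP hl) f0)
theorem G_279 (hP : P.ok) (hl : ¬ InB P loc) : FGood P h279 :=
  frun_good hP hl T_279 (fc (G_280 hP hl) (fc (G_3022 hP hl) f0))
theorem G_278 (hP : P.ok) (hl : ¬ InB P loc) : FGood P h278 :=
  frun_good hP hl T_278 (fc (G_3017 hP hl) (fc (G_3020 hP hl) (fc (G_279 hP hl) (fc (G_3021 hP hl) f0))))
theorem G_277 (hP : P.ok) (hl : ¬ InB P loc) : FGood P h277 :=
  frun_good hP hl T_277 (fc (G_3012 hP hl) (fc (G_278 hP hl) f0))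
theorem G_276 (hP : P.ok) (hl : ¬ InB P loc) : FGood P h276 :=
  frun_good hP hl T_276 (fc (G_277 hP hl) (fc (G_3010 hP hl) f0))
theorem G_273 (hP : P.ok) (hl : ¬ InB P loc) : FGood P h273 :=
  frun_good hP hl T_273 (fc (G_274 hP hl) (fc (G_3002 hP hl) (fc (G_3003 hP hl) (fc (G_275 hP hl) (fc (G_3009 hP hl) (fc (G_276 hP hl) f0))))))
theorem G_244 (hP : P.ok) (hl : ¬ InB P loc) : FGood P h244 :=
  frun_good hP hl T_244 (fc (G_273 hP hl) f0)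
theorem G_272 (hP : P.ok) (hl : ¬ InB P loc) : FGood P h272 :=
  frun_good hP hl T_272 (fc (G_2991 hP hl) (fc (G_2992 hP hl) (fc (G_2995 hP hl) f0)))
theorem G_270 (hP : P.ok) (hl : ¬ InB P loc) : FGood P h270 :=
  frun_good hP hl T_270 (fc (G_272 hP hl) (fc (G_2985 hP hl) (fc (G_2990 hP hl) f0)))
theorem G_271 (hP : P.ok) (hl : ¬ InB P loc) : FGood P h271 :=
  frun_good hP hl T_271 (fc (G_2977 hP hl) f0)
theorem G_269 (hP : P.ok) (hl : ¬ InB P loc) : FGood P h269 :=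
  frun_good hP hl T_269 (fc (G_270 hP hl) (fc (G_271 hP hl) f0))
theorem G_268 (hP : P.ok) (hl : ¬ InB P loc) : FGood P h268 :=
  frun_good hP hl T_268 (fc (G_2976 hP hl) (fc (G_269 hP hl) f0))
theorem G_267 (hP : P.ok) (hl : ¬ InB P loc) : FGood P h267 :=
  frun_good hP hl T_267 (fc (G_268 hP hl) (fc (G_2966 hP hl) (fc (G_2967 hP hl) (fc (G_2973 hP hl) (fc (G_2975 hP hl) f0)))))
theorem G_266 (hP : P.ok) (hl : ¬ InB P loc) : FGood P h266 :=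
  frun_good hP hl T_266 (fc (G_2964 hP hl) (fc (G_267 hP hl) (fc (G_2965 hP hl) f0)))
theorem G_265 (hP : P.ok) (hl : ¬ InB P loc) : FGood P h265 :=
  frun_good hP hl T_265 (fc (G_266 hP hl) (fc (G_2962 hP hl) (fc (G_2963 hP hl) f0)))
theorem G_264 (hP : P.ok) (hl : ¬ InB P loc) : FGood P h264 :=
  frun_good hP hl T_264 (fc (G_2958 hP hl) (fc (G_2960 hP hl) (fc (G_265 hP hl) f0)))
theorem G_247 (hP : P.ok) (hl : ¬ InB P loc) : FGood P h247 :=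
  frun_good hP hl T_247 (fc (G_264 hP hl) (fc (G_2957 hP hl) f0))
theorem G_263 (hP : P.ok) (hl : ¬ InB P loc) : FGood P h263 :=
  frun_good hP hl T_263 (fc (G_2950 hP hl) (fc (G_2956 hP hl) f0))
theorem G_257 (hP : P.ok) (hl : ¬ InB P loc) : FGood P h257 :=
  frun_good hP hl T_257 (fc (G_2943 hP hl) (fc (G_263 hP hl) f0))
theorem G_262 (hP : P.ok) (hl : ¬ InB P loc) : FGood P h262 :=
  frun_good hP hl T_262 (fc (G_2936 hP hl) (fc (G_2940 hP hl) (fc (G_2941 hP hl) f0)))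
theorem G_261 (hP : P.ok) (hl : ¬ InB P loc) : FGood P h261 :=
  frun_good hP hl T_261 (fc (G_262 hP hl) (fc (G_2934 hP hl) (fc (G_2935 hP hl) f0)))
theorem G_260 (hP : P.ok) (hl : ¬ InB P loc) : FGood P h260 :=
  frun_good hP hl T_260 (fc (G_261 hP hl) (fc (G_2929 hP hl) (fc (G_2930 hP hl) (fc (G_2932 hP hl) f0))))
theorem G_259 (hP : P.ok) (hl : ¬ InB P loc) : FGood P h259 :=
  frun_good hP hl T_259 (fc (G_2924 hP hl) (fc (G_2925 hP hl) (fc (G_260 hP hl) (fc (G_2928 hP hl) f0))))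
theorem G_258 (hP : P.ok) (hl : ¬ InB P loc) : FGood P h258 :=
  frun_good hP hl T_258 (fc (G_2917 hP hl) (fc (G_2918 hP hl) (fc (G_259 hP hl) (fc (G_2920 hP hl) (fc (G_2921 hP hl) (fc (G_2922 hP hl) f0))))))
theorem G_256 (hP : P.ok) (hl : ¬ InB P loc) : FGood P h256 :=
  frun_good hP hl T_256 (fc (G_2912 hP hl) (fc (G_257 hP hl) (fc (G_2916 hP hl) (fc (G_258 hP hl) f0))))
theorem G_255 (hP : P.ok) (hl : ¬ InB P loc) : FGood P h255 :=
  frun_good hP hl T_255 (fc (G_256 hP hl) (fc (G_2907 hP hl) (fc (G_2910 hP hl) f0)))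
theorem G_254 (hP : P.ok) (hl : ¬ InB P loc) : FGood P h254 :=
  frun_good hP hl T_254 (fc (G_255 hP hl) (fc (G_2902 hP hl) (fc (G_2903 hP hl) f0)))
theorem G_253 (hP : P.ok) (hl : ¬ InB P loc) : FGood P h253 :=
  frun_good hP hl T_253 (fc (G_2901 hP hl) (fc (G_254 hP hl) f0))
theorem G_252 (hP : P.ok) (hl : ¬ InB P loc) : FGood P h252 :=
  frun_good hP hl T_252 (fc (G_253 hP hl) f0)
theorem G_251 (hP : P.ok) (hl : ¬ InB P loc) : FGood P h251 :=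
  frun_good hP hl T_251 (fc (G_252 hP hl) f0)
theorem G_250 (hP : P.ok) (hl : ¬ InB P loc) : FGood P h250 :=
  frun_good hP hl T_250 (fc (G_251 hP hl) f0)
theorem G_249 (hP : P.ok) (hl : ¬ InB P loc) : FGood P h249 :=
  frun_good hP hl T_249 (fc (G_2894 hP hl) (fc (G_250 hP hl) f0))
theorem G_248 (hP : P.ok) (hl : ¬ InB P loc) : FGood P h248 :=
  frun_good hP hl T_248 (fc (G_249 hP hl) f0)
theorem G_246 (hP : P.ok) (hl : ¬ InB P loc) : FGood P h246 :=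
  frun_good hP hl T_246 (fc (G_247 hP hl) (fc (G_248 hP hl) f0))
theorem G_245 (hP : P.ok) (hl : ¬ InB P loc) : FGood P h245 :=
  frun_good hP hl T_245 (fc (G_2891 hP hl) (fc (G_246 hP hl) f0))
theorem G_232 (hP : P.ok) (hl : ¬ InB P loc) : FGood P h232 :=
  frun_good hP hl T_232 (fc (G_242 hP hl) (fc (G_2886 hP hl) (fc (G_243 hP hl) (fc (G_244 hP hl) (fc (G_245 hP hl) f0)))))
theorem G_241 (hP : P.ok) (hl : ¬ InB P loc) : FGood P h241 :=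
  frun_good hP hl T_241 f0
theorem G_240 (hP : P.ok) (hl : ¬ InB P loc) : FGood P h240 :=
  frun_good hP hl T_240 (fc (G_241 hP hl) f0)
theorem G_238 (hP : P.ok) (hl : ¬ InB P loc) : FGood P h238 :=
  frun_good hP hl T_238 (fc (G_2869 hP hl) (fc (G_2875 hP hl) (fc (G_2876 hP hl) (fc (G_240 hP hl) (fc (G_2878 hP hl) (fc (G_2879 hP hl) f0))))))
theorem G_239 (hP : P.ok) (hl : ¬ InB P loc) : FGood P h239 :=
  frun_good hP hl T_239 (fc (G_2860 hP hl) (fc (G_2862 hP hl) (fc (G_2863 hP hl) f0)))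
theorem G_237 (hP : P.ok) (hl : ¬ InB P loc) : FGood P h237 :=
  frun_good hP hl T_237 (fc (G_2846 hP hl) (fc (G_238 hP hl) (fc (G_239 hP hl) (fc (G_2847 hP hl) (fc (G_2852 hP hl) f0)))))
theorem G_233 (hP : P.ok) (hl : ¬ InB P loc) : FGood P h233 :=
  frun_good hP hl T_233 (fc (G_237 hP hl) (fc (G_2843 hP hl) (fc (G_2844 hP hl) (fc (G_2845 hP hl) f0))))
theorem G_236 (hP : P.ok) (hl : ¬ InB P loc) : FGood P h236 :=
  frun_good hP hl T_236 (fc (G_2829 hP hl) (fc (G_2837 hP hl) (fc (G_2842 hP hl) f0)))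
theorem G_235 (hP : P.ok) (hl : ¬ InB P loc) : FGood P h235 :=
  frun_good hP hl T_235 (fc (G_2826 hP hl) (fc (G_2828 hP hl) (fc (G_236 hP hl) f0)))
theorem G_234 (hP : P.ok) (hl : ¬ InB P loc) : FGood P h234 :=
  frun_good hP hl T_234 (fc (G_235 hP hl) (fc (G_2822 hP hl) f0))
theorem G_192 (hP : P.ok) (hl : ¬ InB P loc) : FGood P h192 :=
  frun_good hP hl T_192 (fc (G_232 hP hl) (fc (G_233 hP hl) (fc (G_234 hP hl) (fc (G_2821 hP hl) f0))))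
theorem G_227 (hP : P.ok) (hl : ¬ InB P loc) : FGood P h227 :=
  frun_good hP hl T_227 (fc (G_2813 hP hl) (fc (G_2814 hP hl) f0))
theorem G_231 (hP : P.ok) (hl : ¬ InB P loc) : FGood P h231 :=
  frun_good hP hl T_231 (fc (G_2804 hP hl) (fc (G_2808 hP hl) f0))
theorem G_229 (hP : P.ok) (hl : ¬ InB P loc) : FGood P h229 :=
  frun_good hP hl T_229 (fc (G_231 hP hl) (fc (G_2798 hP hl) (fc (G_2799 hP hl) (fc (G_2803 hP hl) f0))))
theorem G_230 (hP : P.ok) (hl : ¬ InB P loc) : FGood P h230 :=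
  frun_good hP hl T_230 (fc (G_2794 hP hl) (fc (G_2797 hP hl) f0))
theorem G_228 (hP : P.ok) (hl : ¬ InB P loc) : FGood P h228 :=
  frun_good hP hl T_228 (fc (G_229 hP hl) (fc (G_2787 hP hl) (fc (G_230 hP hl) f0)))
theorem G_197 (hP : P.ok) (hl : ¬ InB P loc) : FGood P h197 :=
  frun_good hP hl T_197 (fc (G_227 hP hl) (fc (G_228 hP hl) f0))
theorem G_220 (hP : P.ok) (hl : ¬ InB P loc) : FGood P h220 :=
  frun_good hP hl T_220 (fc (G_2764 hP hl) (fc (G_2768 hP hl) (fc (G_2777 hP hl) (fc (G_2779 hP hl) f0))))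
theorem G_225 (hP : P.ok) (hl : ¬ InB P loc) : FGood P h225 :=
  frun_good hP hl T_225 (fc (G_2754 hP hl) (fc (G_2756 hP hl) (fc (G_2763 hP hl) f0)))
theorem G_226 (hP : P.ok) (hl : ¬ InB P loc) : FGood P h226 :=
  frun_good hP hl T_226 (fc (G_2745 hP hl) (fc (G_2753 hP hl) f0))
theorem G_224 (hP : P.ok) (hl : ¬ InB P loc) : FGood P h224 :=
  frun_good hP hl T_224 (fc (G_225 hP hl) (fc (G_226 hP hl) (fc (G_2744 hP hl) f0)))
theorem G_223 (hP : P.ok) (hl : ¬ InB P loc) : FGood P h223 :=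
  frun_good hP hl T_223 (fc (G_224 hP hl) (fc (G_2742 hP hl) (fc (G_2743 hP hl) f0)))
theorem G_222 (hP : P.ok) (hl : ¬ InB P loc) : FGood P h222 :=
  frun_good hP hl T_222 (fc (G_2729 hP hl) (fc (G_2731 hP hl) (fc (G_223 hP hl) (fc (G_2732 hP hl) (fc (G_2736 hP hl) (fc (G_2737 hP hl) (fc (G_2738 hP hl) f0)))))))
theorem G_221 (hP : P.ok) (hl : ¬ InB P loc) : FGood P h221 :=
  frun_good hP hl T_221 (fc (G_222 hP hl) f0)
theorem G_198 (hP : P.ok) (hl : ¬ InB P loc) : FGood P h198 :=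
  frun_good hP hl T_198 (fc (G_220 hP hl) (fc (G_2720 hP hl) (fc (G_2721 hP hl) (fc (G_2722 hP hl) (fc (G_2723 hP hl) (fc (G_221 hP hl) f0))))))
theorem G_219 (hP : P.ok) (hl : ¬ InB P loc) : FGood P h219 :=
  frun_good hP hl T_219 (fc (G_2712 hP hl) f0)
theorem G_208 (hP : P.ok) (hl : ¬ InB P loc) : FGood P h208 :=
  frun_good hP hl T_208 (fc (G_219 hP hl) (fc (G_2704 hP hl) f0))
theorem G_218 (hP : P.ok) (hl : ¬ InB P loc) : FGood P h218 :=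
  frun_good hP hl T_218 (fc (G_2693 hP hl) (fc (G_2698 hP hl) (fc (G_2703 hP hl) f0)))
theorem G_217 (hP : P.ok) (hl : ¬ InB P loc) : FGood P h217 :=
  frun_good hP hl T_217 (fc (G_2692 hP hl) (fc (G_218 hP hl) f0))
theorem G_211 (hP : P.ok) (hl : ¬ InB P loc) : FGood P h211 :=
  frun_good hP hl T_211 (fc (G_217 hP hl) f0)
theorem G_216 (hP : P.ok) (hl : ¬ InB P loc) : FGood P h216 :=
  frun_good hP hl T_216 (fc (G_2674 hP hl) (fc (G_2677 hP hl) (fc (G_2680 hP hl) (fc (G_2689 hP hl) f0))))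
theorem G_215 (hP : P.ok) (hl : ¬ InB P loc) : FGood P h215 :=
  frun_good hP hl T_215 (fc (G_216 hP hl) (fc (G_2671 hP hl) (fc (G_2672 hP hl) (fc (G_2673 hP hl) f0))))
theorem G_214 (hP : P.ok) (hl : ¬ InB P loc) : FGood P h214 :=
  frun_good hP hl T_214 (fc (G_2661 hP hl) (fc (G_2662 hP hl) (fc (G_215 hP hl) (fc (G_2663 hP hl) f0))))
theorem G_213 (hP : P.ok) (hl : ¬ InB P loc) : FGood P h213 :=
  frun_good hP hl T_213 (fc (G_214 hP hl) f0)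
theorem G_212 (hP : P.ok) (hl : ¬ InB P loc) : FGood P h212 :=
  frun_good hP hl T_212 (fc (G_213 hP hl) (fc (G_2660 hP hl) f0))
theorem G_210 (hP : P.ok) (hl : ¬ InB P loc) : FGood P h210 :=
  frun_good hP hl T_210 (fc (G_2654 hP hl) (fc (G_211 hP hl) (fc (G_212 hP hl) f0)))
theorem G_209 (hP : P.ok) (hl : ¬ InB P loc) : FGood P h209 :=
  frun_good hP hl T_209 (fc (G_2642 hP hl) (fc (G_2644 hP hl) (fc (G_210 hP hl) (fc (G_2645 hP hl) (fc (G_2646 hP hl) f0)))))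
theorem G_199 (hP : P.ok) (hl : ¬ InB P loc) : FGood P h199 :=
  frun_good hP hl T_199 (fc (G_2639 hP hl) (fc (G_208 hP hl) (fc (G_209 hP hl) f0)))
theorem G_207 (hP : P.ok) (hl : ¬ InB P loc) : FGood P h207 :=
  frun_good hP hl T_207 (fc (G_2626 hP hl) (fc (G_2632 hP hl) (fc (G_2633 hP hl) (fc (G_2634 hP hl) (fc (G_2635 hP hl) (fc (G_2638 hP hl) f0))))))
theorem G_201 (hP : P.ok) (hl : ¬ InB P loc) : FGood P h201 :=
  frun_good hP hl T_201 (fc (G_207 hP hl) (fc (G_2621 hP hl) (fc (G_2623 hP hl) (fc (G_2624 hP hl) f0))))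
theorem G_206 (hP : P.ok) (hl : ¬ InB P loc) : FGood P h206 :=
  frun_good hP hl T_206 (fc (G_2615 hP hl) (fc (G_2617 hP hl) (fc (G_2618 hP hl) (fc (G_2620 hP hl) f0))))
theorem G_202 (hP : P.ok) (hl : ¬ InB P loc) : FGood P h202 :=
  frun_good hP hl T_202 (fc (G_206 hP hl) (fc (G_2608 hP hl) (fc (G_2610 hP hl) (fc (G_2611 hP hl) (fc (G_2612 hP hl) (fc (G_2613 hP hl) f0))))))
theorem G_205 (hP : P.ok) (hl : ¬ InB P loc) : FGood P h205 :=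
  frun_good hP hl T_205 (fc (G_2607 hP hl) f0)
theorem G_204 (hP : P.ok) (hl : ¬ InB P loc) : FGood P h204 :=
  frun_good hP hl T_204 (fc (G_2604 hP hl) (fc (G_2605 hP hl) (fc (G_2606 hP hl) (fc (G_205 hP hl) f0))))
theorem G_203 (hP : P.ok) (hl : ¬ InB P loc) : FGood P h203 :=
  frun_good hP hl T_203 (fc (G_204 hP hl) f0)
theorem G_200 (hP : P.ok) (hl : ¬ InB P loc) : FGood P h200 :=
  frun_good hP hl T_200 (fc (G_201 hP hl) (fc (G_202 hP hl) (fc (G_203 hP hl) (fc (G_2602 hP hl) f0))))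
theorem G_193 (hP : P.ok) (hl : ¬ InB P loc) : FGood P h193 :=
  frun_good hP hl T_193 (fc (G_197 hP hl) (fc (G_198 hP hl) (fc (G_199 hP hl) (fc (G_200 hP hl) f0))))
theorem G_196 (hP : P.ok) (hl : ¬ InB P loc) : FGood P h196 :=
  frun_good hP hl T_196 (fc (G_2594 hP hl) (fc (G_2598 hP hl) f0))
theorem G_195 (hP : P.ok) (hl : ¬ InB P loc) : FGood P h195 :=
  frun_good hP hl T_195 (fc (G_196 hP hl) (fc (G_2591 hP hl) (fc (G_2592 hP hl) f0)))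
theorem G_194 (hP : P.ok) (hl : ¬ InB P loc) : FGood P h194 :=
  frun_good hP hl T_194 (fc (G_195 hP hl) (fc (G_2588 hP hl) (fc (G_2589 hP hl) f0)))
theorem G_60 (hP : P.ok) (hl : ¬ InB P loc) : FGood P h60 :=
  frun_good hP hl T_60 (fc (G_189 hP hl) (fc (G_190 hP hl) (fc (G_191 hP hl) (fc (G_192 hP hl) (fc (G_193 hP hl) (fc (G_2581 hP hl) (fc (G_2583 hP hl) (fc (G_194 hP hl) f0))))))))
theorem G_178 (hP : P.ok) (hl : ¬ InB P loc) : FGood P h178 :=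
  frun_good hP hl T_178 (fc (G_2572 hP hl) (fc (G_2573 hP hl) (fc (G_2574 hP hl) (fc (G_2580 hP hl) f0))))
theorem G_188 (hP : P.ok) (hl : ¬ InB P loc) : FGood P h188 :=
  frun_good hP hl T_188 (fc (G_2556 hP hl) (fc (G_2557 hP hl) (fc (G_2564 hP hl) (fc (G_2565 hP hl) (fc (G_2566 hP hl) (fc (G_2567 hP hl) (fc (G_2571 hP hl) f0)))))))
theorem G_184 (hP : P.ok) (hl : ¬ InB P loc) : FGood P h184 :=
  frun_good hP hl T_184 (fc (G_188 hP hl) (fc (G_2554 hP hl) f0))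
theorem G_187 (hP : P.ok) (hl : ¬ InB P loc) : FGood P h187 :=
  frun_good hP hl T_187 (fc (G_2543 hP hl) (fc (G_2548 hP hl) (fc (G_2550 hP hl) f0)))
theorem G_186 (hP : P.ok) (hl : ¬ InB P loc) : FGood P h186 :=
  frun_good hP hl T_186 (fc (G_187 hP hl) f0)
theorem G_185 (hP : P.ok) (hl : ¬ InB P loc) : FGood P h185 :=
  frun_good hP hl T_185 (fc (G_2542 hP hl) (fc (G_186 hP hl) f0))
theorem G_179 (hP : P.ok) (hl : ¬ InB P loc) : FGood P h179 :=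
  frun_good hP hl T_179 (fc (G_2540 hP hl) (fc (G_184 hP hl) (fc (G_2541 hP hl) (fc (G_185 hP hl) f0))))
theorem G_183 (hP : P.ok) (hl : ¬ InB P loc) : FGood P h183 :=
  frun_good hP hl T_183 (fc (G_2531 hP hl) f0)
theorem G_180 (hP : P.ok) (hl : ¬ InB P loc) : FGood P h180 :=
  frun_good hP hl T_180 (fc (G_183 hP hl) (fc (G_2530 hP hl) f0))
theorem G_182 (hP : P.ok) (hl : ¬ InB P loc) : FGood P h182 :=
  frun_good hP hl T_182 (fc (G_2524 hP hl) (fc (G_2525 hP hl) (fc (G_2526 hP hl) f0)))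
theorem G_181 (hP : P.ok) (hl : ¬ InB P loc) : FGood P h181 :=
  frun_good hP hl T_181 (fc (G_2512 hP hl) (fc (G_2513 hP hl) (fc (G_2514 hP hl) (fc (G_182 hP hl) (fc (G_2515 hP hl) (fc (G_2523 hP hl) f0))))))
theorem G_153 (hP : P.ok) (hl : ¬ InB P loc) : FGood P h153 :=
  frun_good hP hl T_153 (fc (G_178 hP hl) (fc (G_179 hP hl) (fc (G_2498 hP hl) (fc (G_180 hP hl) (fc (G_2501 hP hl) (fc (G_2503 hP hl) (fc (G_2504 hP hl) (fc (G_181 hP hl) f0))))))))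
theorem G_177 (hP : P.ok) (hl : ¬ InB P loc) : FGood P h177 :=
  frun_good hP hl T_177 (fc (G_2478 hP hl) (fc (G_2481 hP hl) (fc (G_2484 hP hl) (fc (G_2485 hP hl) (fc (G_2486 hP hl) (fc (G_2487 hP hl) (fc (G_2488 hP hl) (fc (G_2491 hP hl) (fc (G_2496 hP hl) f0)))))))))
theorem G_176 (hP : P.ok) (hl : ¬ InB P loc) : FGood P h176 :=
  frun_good hP hl T_176 (fc (G_2461 hP hl) (fc (G_2468 hP hl) (fc (G_2469 hP hl) (fc (G_2476 hP hl) (fc (G_177 hP hl) f0)))))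
theorem G_173 (hP : P.ok) (hl : ¬ InB P loc) : FGood P h173 :=
  frun_good hP hl T_173 (fc (G_176 hP hl) (fc (G_2458 hP hl) (fc (G_2459 hP hl) f0)))
theorem G_175 (hP : P.ok) (hl : ¬ InB P loc) : FGood P h175 :=
  frun_good hP hl T_175 (fc (G_2444 hP hl) (fc (G_2452 hP hl) (fc (G_2456 hP hl) f0)))
theorem G_174 (hP : P.ok) (hl : ¬ InB P loc) : FGood P h174 :=
  frun_good hP hl T_174 (fc (G_2426 hP hl) (fc (G_2429 hP hl) (fc (G_2430 hP hl) (fc (G_2431 hP hl) (fc (G_2437 hP hl) (fc (G_175 hP hl) (fc (G_2440 hP hl) (fc (G_2443 hP hl) f0))))))))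
theorem G_167 (hP : P.ok) (hl : ¬ InB P loc) : FGood P h167 :=
  frun_good hP hl T_167 (fc (G_2419 hP hl) (fc (G_2424 hP hl) (fc (G_173 hP hl) (fc (G_174 hP hl) f0))))
theorem G_172 (hP : P.ok) (hl : ¬ InB P loc) : FGood P h172 :=
  frun_good hP hl T_172 (fc (G_2410 hP hl) (fc (G_2415 hP hl) (fc (G_2416 hP hl) (fc (G_2417 hP hl) (fc (G_2418 hP hl) f0)))))
theorem G_168 (hP : P.ok) (hl : ¬ InB P loc) : FGood P h168 :=
  frun_good hP hl T_168 (fc (G_2395 hP hl) (fc (G_2400 hP hl) (fc (G_2404 hP hl) (fc (G_172 hP hl) (fc (G_2407 hP hl) (fc (G_2408 hP hl) f0))))))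
theorem G_169 (hP : P.ok) (hl : ¬ InB P loc) : FGood P h169 :=
  frun_good hP hl T_169 (fc (G_2386 hP hl) (fc (G_2388 hP hl) (fc (G_2394 hP hl) f0)))
theorem G_171 (hP : P.ok) (hl : ¬ InB P loc) : FGood P h171 :=
  frun_good hP hl T_171 (fc (G_2376 hP hl) (fc (G_2384 hP hl) f0))
theorem G_170 (hP : P.ok) (hl : ¬ InB P loc) : FGood P h170 :=
  frun_good hP hl T_170 (fc (G_2374 hP hl) (fc (G_171 hP hl) f0))
theorem G_166 (hP : P.ok) (hl : ¬ InB P loc) : FGood P h166 :=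
  frun_good hP hl T_166 (fc (G_167 hP hl) (fc (G_2362 hP hl) (fc (G_2368 hP hl) (fc (G_2369 hP hl) (fc (G_168 hP hl) (fc (G_2370 hP hl) (fc (G_169 hP hl) (fc (G_170 hP hl) f0))))))))
theorem G_154 (hP : P.ok) (hl : ¬ InB P loc) : FGood P h154 :=
  frun_good hP hl T_154 (fc (G_2359 hP hl) (fc (G_166 hP hl) f0))
theorem G_160 (hP : P.ok) (hl : ¬ InB P loc) : FGood P h160 :=
  frun_good hP hl T_160 (fc (G_2349 hP hl) (fc (G_2358 hP hl) f0))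
theorem G_162 (hP : P.ok) (hl : ¬ InB P loc) : FGood P h162 :=
  frun_good hP hl T_162 (fc (G_2330 hP hl) (fc (G_2331 hP hl) (fc (G_2333 hP hl) (fc (G_2341 hP hl) (fc (G_2342 hP hl) f0)))))
theorem G_164 (hP : P.ok) (hl : ¬ InB P loc) : FGood P h164 :=
  frun_good hP hl T_164 (fc (G_2321 hP hl) (fc (G_2323 hP hl) (fc (G_2326 hP hl) (fc (G_2327 hP hl) (fc (G_2328 hP hl) f0)))))
theorem G_165 (hP : P.ok) (hl : ¬ InB P loc) : FGood P h165 :=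
  frun_good hP hl T_165 (fc (G_2309 hP hl) (fc (G_2311 hP hl) (fc (G_2313 hP hl) (fc (G_2314 hP hl) (fc (G_2315 hP hl) (fc (G_2317 hP hl) f0))))))
theorem G_163 (hP : P.ok) (hl : ¬ InB P loc) : FGood P h163 :=
  frun_good hP hl T_163 (fc (G_164 hP hl) (fc (G_2308 hP hl) (fc (G_165 hP hl) f0)))
theorem G_161 (hP : P.ok) (hl : ¬ InB P loc) : FGood P h161 :=
  frun_good hP hl T_161 (fc (G_2299 hP hl) (fc (G_162 hP hl) (fc (G_2300 hP hl) (fc (G_2301 hP hl) (fc (G_2303 hP hl) (fc (G_2304 hP hl) (fc (G_2306 hP hl) (fc (G_2307 hP hl) (fc (G_163 hP hl) f0)))))))))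
theorem G_159 (hP : P.ok) (hl : ¬ InB P loc) : FGood P h159 :=
  frun_good hP hl T_159 (fc (G_2286 hP hl) (fc (G_2290 hP hl) (fc (G_160 hP hl) (fc (G_2291 hP hl) (fc (G_161 hP hl) f0)))))
theorem G_156 (hP : P.ok) (hl : ¬ InB P loc) : FGood P h156 :=
  frun_good hP hl T_156 (fc (G_159 hP hl) (fc (G_2280 hP hl) (fc (G_2281 hP hl) f0)))
theorem G_158 (hP : P.ok) (hl : ¬ InB P loc) : FGood P h158 :=
  frun_good hP hl T_158 (fc (G_2272 hP hl) (fc (G_2273 hP hl) (fc (G_2277 hP hl) f0)))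
theorem G_157 (hP : P.ok) (hl : ¬ InB P loc) : FGood P h157 :=
  frun_good hP hl T_157 (fc (G_158 hP hl) (fc (G_2270 hP hl) (fc (G_2271 hP hl) f0)))
theorem G_155 (hP : P.ok) (hl : ¬ InB P loc) : FGood P h155 :=
  frun_good hP hl T_155 (fc (G_156 hP hl) (fc (G_2260 hP hl) (fc (G_2264 hP hl) (fc (G_157 hP hl) f0))))
theorem G_87 (hP : P.ok) (hl : ¬ InB P loc) : FGood P h87 :=
  frun_good hP hl T_87 (fc (G_2258 hP hl) (fc (G_153 hP hl) (fc (G_154 hP hl) (fc (G_155 hP hl) f0))))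
theorem G_147 (hP : P.ok) (hl : ¬ InB P loc) : FGood P h147 :=
  frun_good hP hl T_147 (fc (G_2246 hP hl) (fc (G_2249 hP hl) (fc (G_2250 hP hl) (fc (G_2253 hP hl) (fc (G_2254 hP hl) (fc (G_2257 hP hl) f0))))))
theorem G_152 (hP : P.ok) (hl : ¬ InB P loc) : FGood P h152 :=
  frun_good hP hl T_152 (fc (G_2234 hP hl) (fc (G_2238 hP hl) (fc (G_2239 hP hl) (fc (G_2241 hP hl) (fc (G_2243 hP hl) (fc (G_2244 hP hl) (fc (G_2245 hP hl) f0)))))))
theorem G_151 (hP : P.ok) (hl : ¬ InB P loc) : FGood P h151 :=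
  frun_good hP hl T_151 (fc (G_152 hP hl) (fc (G_2227 hP hl) (fc (G_2230 hP hl) (fc (G_2232 hP hl) (fc (G_2233 hP hl) f0)))))
theorem G_149 (hP : P.ok) (hl : ¬ InB P loc) : FGood P h149 :=
  frun_good hP hl T_149 (fc (G_151 hP hl) f0)
theorem G_150 (hP : P.ok) (hl : ¬ InB P loc) : FGood P h150 :=
  frun_good hP hl T_150 (fc (G_2218 hP hl) (fc (G_2222 hP hl) (fc (G_2223 hP hl) (fc (G_2224 hP hl) f0))))
theorem G_148 (hP : P.ok) (hl : ¬ InB P loc) : FGood P h148 :=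
  frun_good hP hl T_148 (fc (G_149 hP hl) (fc (G_2212 hP hl) (fc (G_2214 hP hl) (fc (G_150 hP hl) f0))))
theorem G_139 (hP : P.ok) (hl : ¬ InB P loc) : FGood P h139 :=
  frun_good hP hl T_139 (fc (G_2203 hP hl) (fc (G_147 hP hl) (fc (G_2204 hP hl) (fc (G_148 hP hl) f0))))
theorem G_141 (hP : P.ok) (hl : ¬ InB P loc) : FGood P h141 :=
  frun_good hP hl T_141 (fc (G_2187 hP hl) (fc (G_2197 hP hl) (fc (G_2198 hP hl) f0)))
theorem G_146 (hP : P.ok) (hl : ¬ InB P loc) : FGood P h146 :=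
  frun_good hP hl T_146 (fc (G_2178 hP hl) (fc (G_2179 hP hl) (fc (G_2182 hP hl) (fc (G_2183 hP hl) f0))))
theorem G_145 (hP : P.ok) (hl : ¬ InB P loc) : FGood P h145 :=
  frun_good hP hl T_145 (fc (G_2177 hP hl) (fc (G_146 hP hl) f0))
theorem G_144 (hP : P.ok) (hl : ¬ InB P loc) : FGood P h144 :=
  frun_good hP hl T_144 (fc (G_2151 hP hl) (fc (G_145 hP hl) (fc (G_2159 hP hl) (fc (G_2161 hP hl) (fc (G_2165 hP hl) (fc (G_2168 hP hl) (fc (G_2169 hP hl) f0)))))))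
theorem G_142 (hP : P.ok) (hl : ¬ InB P loc) : FGood P h142 :=
  frun_good hP hl T_142 (fc (G_2150 hP hl) (fc (G_144 hP hl) f0))
theorem G_143 (hP : P.ok) (hl : ¬ InB P loc) : FGood P h143 :=
  frun_good hP hl T_143 (fc (G_2137 hP hl) (fc (G_2140 hP hl) f0))
theorem G_140 (hP : P.ok) (hl : ¬ InB P loc) : FGood P h140 :=
  frun_good hP hl T_140 (fc (G_2135 hP hl) (fc (G_141 hP hl) (fc (G_142 hP hl) (fc (G_2136 hP hl) (fc (G_143 hP hl) f0)))))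
theorem G_138 (hP : P.ok) (hl : ¬ InB P loc) : FGood P h138 :=
  frun_good hP hl T_138 (fc (G_139 hP hl) (fc (G_140 hP hl) f0))
theorem G_120 (hP : P.ok) (hl : ¬ InB P loc) : FGood P h120 :=
  frun_good hP hl T_120 (fc (G_2127 hP hl) (fc (G_138 hP hl) f0))
theorem G_137 (hP : P.ok) (hl : ¬ InB P loc) : FGood P h137 :=
  frun_good hP hl T_137 (fc (G_2115 hP hl) (fc (G_2116 hP hl) (fc (G_2119 hP hl) (fc (G_2120 hP hl) (fc (G_2121 hP hl) f0)))))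
theorem G_135 (hP : P.ok) (hl : ¬ InB P loc) : FGood P h135 :=
  frun_good hP hl T_135 (fc (G_137 hP hl) (fc (G_2106 hP hl) (fc (G_2109 hP hl) (fc (G_2111 hP hl) (fc (G_2113 hP hl) (fc (G_2114 hP hl) f0))))))
theorem G_136 (hP : P.ok) (hl : ¬ InB P loc) : FGood P h136 :=
  frun_good hP hl T_136 (fc (G_2091 hP hl) (fc (G_2097 hP hl) (fc (G_2100 hP hl) (fc (G_2101 hP hl) f0))))
theorem G_131 (hP : P.ok) (hl : ¬ InB P loc) : FGood P h131 :=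
  frun_good hP hl T_131 (fc (G_2078 hP hl) (fc (G_2082 hP hl) (fc (G_2088 hP hl) (fc (G_2089 hP hl) (fc (G_135 hP hl) (fc (G_136 hP hl) f0))))))
theorem G_132 (hP : P.ok) (hl : ¬ InB P loc) : FGood P h132 :=
  frun_good hP hl T_132 (fc (G_2061 hP hl) (fc (G_2062 hP hl) (fc (G_2063 hP hl) (fc (G_2064 hP hl) (fc (G_2065 hP hl) (fc (G_2074 hP hl) f0))))))
theorem G_134 (hP : P.ok) (hl : ¬ InB P loc) : FGood P h134 :=
  frun_good hP hl T_134 (fc (G_2046 hP hl) (fc (G_2053 hP hl) (fc (G_2055 hP hl) (fc (G_2058 hP hl) f0))))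
theorem G_133 (hP : P.ok) (hl : ¬ InB P loc) : FGood P h133 :=
  frun_good hP hl T_133 (fc (G_2032 hP hl) (fc (G_2037 hP hl) (fc (G_2038 hP hl) (fc (G_134 hP hl) (fc (G_2039 hP hl) (fc (G_2045 hP hl) f0))))))
theorem G_130 (hP : P.ok) (hl : ¬ InB P loc) : FGood P h130 :=
  frun_good hP hl T_130 (fc (G_2013 hP hl) (fc (G_131 hP hl) (fc (G_2015 hP hl) (fc (G_132 hP hl) (fc (G_2021 hP hl) (fc (G_133 hP hl) (fc (G_2024 hP hl) f0)))))))
theorem G_121 (hP : P.ok) (hl : ¬ InB P loc) : FGood P h121 :=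
  frun_good hP hl T_121 (fc (G_2010 hP hl) (fc (G_2012 hP hl) (fc (G_130 hP hl) f0)))
theorem G_129 (hP : P.ok) (hl : ¬ InB P loc) : FGood P h129 :=
  frun_good hP hl T_129 (fc (G_1996 hP hl) (fc (G_1999 hP hl) (fc (G_2002 hP hl) (fc (G_2003 hP hl) (fc (G_2004 hP hl) f0)))))
theorem G_125 (hP : P.ok) (hl : ¬ InB P loc) : FGood P h125 :=
  frun_good hP hl T_125 (fc (G_129 hP hl) (fc (G_1983 hP hl) (fc (G_1988 hP hl) (fc (G_1989 hP hl) (fc (G_1992 hP hl) (fc (G_1995 hP hl) f0))))))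
theorem G_128 (hP : P.ok) (hl : ¬ InB P loc) : FGood P h128 :=
  frun_good hP hl T_128 (fc (G_1973 hP hl) (fc (G_1974 hP hl) (fc (G_1978 hP hl) f0)))
theorem G_127 (hP : P.ok) (hl : ¬ InB P loc) : FGood P h127 :=
  frun_good hP hl T_127 (fc (G_128 hP hl) (fc (G_1969 hP hl) (fc (G_1972 hP hl) f0)))
theorem G_126 (hP : P.ok) (hl : ¬ InB P loc) : FGood P h126 :=
  frun_good hP hl T_126 (fc (G_1964 hP hl) (fc (G_1966 hP hl) (fc (G_127 hP hl) (fc (G_1967 hP hl) f0))))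
theorem G_124 (hP : P.ok) (hl : ¬ InB P loc) : FGood P h124 :=
  frun_good hP hl T_124 (fc (G_125 hP hl) (fc (G_126 hP hl) f0))
theorem G_123 (hP : P.ok) (hl : ¬ InB P loc) : FGood P h123 :=
  frun_good hP hl T_123 (fc (G_1950 hP hl) (fc (G_1951 hP hl) (fc (G_124 hP hl) (fc (G_1953 hP hl) (fc (G_1954 hP hl) (fc (G_1955 hP hl) (fc (G_1958 hP hl) (fc (G_1963 hP hl) f0))))))))
theorem G_122 (hP : P.ok) (hl : ¬ InB P loc) : FGood P h122 :=
  frun_good hP hl T_122 (fc (G_123 hP hl) (fc (G_1946 hP hl) (fc (G_1949 hP hl) f0)))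
theorem G_88 (hP : P.ok) (hl : ¬ InB P loc) : FGood P h88 :=
  frun_good hP hl T_88 (fc (G_120 hP hl) (fc (G_121 hP hl) (fc (G_1944 hP hl) (fc (G_122 hP hl) f0))))
theorem G_119 (hP : P.ok) (hl : ¬ InB P loc) : FGood P h119 :=
  frun_good hP hl T_119 (fc (G_1927 hP hl) (fc (G_1933 hP hl) (fc (G_1936 hP hl) (fc (G_1941 hP hl) f0))))
theorem G_118 (hP : P.ok) (hl : ¬ InB P loc) : FGood P h118 :=
  frun_good hP hl T_118 (fc (G_1922 hP hl) (fc (G_1923 hP hl) (fc (G_1925 hP hl) (fc (G_119 hP hl) f0))))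
theorem G_106 (hP : P.ok) (hl : ¬ InB P loc) : FGood P h106 :=
  frun_good hP hl T_106 (fc (G_118 hP hl) f0)
theorem G_117 (hP : P.ok) (hl : ¬ InB P loc) : FGood P h117 :=
  frun_good hP hl T_117 (fc (G_1913 hP hl) (fc (G_1914 hP hl) (fc (G_1915 hP hl) f0)))
theorem G_107 (hP : P.ok) (hl : ¬ InB P loc) : FGood P h107 :=
  frun_good hP hl T_107 (fc (G_117 hP hl) (fc (G_1912 hP hl) f0))
theorem G_113 (hP : P.ok) (hl : ¬ InB P loc) : FGood P h113 :=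
  frun_good hP hl T_113 (fc (G_1885 hP hl) (fc (G_1888 hP hl) (fc (G_1889 hP hl) (fc (G_1890 hP hl) (fc (G_1899 hP hl) (fc (G_1902 hP hl) (fc (G_1907 hP hl) f0)))))))
theorem G_115 (hP : P.ok) (hl : ¬ InB P loc) : FGood P h115 :=
  frun_good hP hl T_115 (fc (G_1875 hP hl) (fc (G_1876 hP hl) (fc (G_1877 hP hl) (fc (G_1878 hP hl) (fc (G_1880 hP hl) f0)))))
theorem G_116 (hP : P.ok) (hl : ¬ InB P loc) : FGood P h116 :=
  frun_good hP hl T_116 (fc (G_1862 hP hl) (fc (G_1869 hP hl) (fc (G_1870 hP hl) (fc (G_1871 hP hl) (fc (G_1873 hP hl) (fc (G_1874 hP hl) f0))))))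
theorem G_114 (hP : P.ok) (hl : ¬ InB P loc) : FGood P h114 :=
  frun_good hP hl T_114 (fc (G_1834 hP hl) (fc (G_1838 hP hl) (fc (G_1843 hP hl) (fc (G_1846 hP hl) (fc (G_115 hP hl) (fc (G_1847 hP hl) (fc (G_1850 hP hl) (fc (G_116 hP hl) (fc (G_1855 hP hl) (fc (G_1861 hP hl) f0))))))))))
theorem G_110 (hP : P.ok) (hl : ¬ InB P loc) : FGood P h110 :=
  frun_good hP hl T_110 (fc (G_1831 hP hl) (fc (G_1832 hP hl) (fc (G_113 hP hl) (fc (G_114 hP hl) f0))))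
theorem G_111 (hP : P.ok) (hl : ¬ InB P loc) : FGood P h111 :=
  frun_good hP hl T_111 (fc (G_1818 hP hl) (fc (G_1820 hP hl) (fc (G_1823 hP hl) (fc (G_1825 hP hl) (fc (G_1827 hP hl) f0)))))
theorem G_112 (hP : P.ok) (hl : ¬ InB P loc) : FGood P h112 :=
  frun_good hP hl T_112 (fc (G_1810 hP hl) f0)
theorem G_109 (hP : P.ok) (hl : ¬ InB P loc) : FGood P h109 :=
  frun_good hP hl T_109 (fc (G_110 hP hl) (fc (G_111 hP hl) (fc (G_112 hP hl) (fc (G_1806 hP hl) (fc (G_1807 hP hl) (fc (G_1808 hP hl) f0))))))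
theorem G_108 (hP : P.ok) (hl : ¬ InB P loc) : FGood P h108 :=
  frun_good hP hl T_108 (fc (G_109 hP hl) (fc (G_1805 hP hl) f0))
theorem G_89 (hP : P.ok) (hl : ¬ InB P loc) : FGood P h89 :=
  frun_good hP hl T_89 (fc (G_106 hP hl) (fc (G_107 hP hl) (fc (G_1796 hP hl) (fc (G_1802 hP hl) (fc (G_108 hP hl) f0)))))
theorem G_103 (hP : P.ok) (hl : ¬ InB P loc) : FGood P h103 :=
  frun_good hP hl T_103 (fc (G_1787 hP hl) (fc (G_1789 hP hl) (fc (G_1794 hP hl) (fc (G_1795 hP hl) f0))))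
theorem G_105 (hP : P.ok) (hl : ¬ InB P loc) : FGood P h105 :=
  frun_good hP hl T_105 (fc (G_1772 hP hl) (fc (G_1777 hP hl) (fc (G_1783 hP hl) (fc (G_1784 hP hl) (fc (G_1785 hP hl) f0)))))
theorem G_104 (hP : P.ok) (hl : ¬ InB P loc) : FGood P h104 :=
  frun_good hP hl T_104 (fc (G_1764 hP hl) (fc (G_105 hP hl) (fc (G_1766 hP hl) (fc (G_1770 hP hl) (fc (G_1771 hP hl) f0)))))
theorem G_90 (hP : P.ok) (hl : ¬ InB P loc) : FGood P h90 :=
  frun_good hP hl T_90 (fc (G_103 hP hl) (fc (G_104 hP hl) f0))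
theorem G_102 (hP : P.ok) (hl : ¬ InB P loc) : FGood P h102 :=
  frun_good hP hl T_102 (fc (G_1750 hP hl) (fc (G_1753 hP hl) (fc (G_1754 hP hl) (fc (G_1762 hP hl) f0))))
theorem G_92 (hP : P.ok) (hl : ¬ InB P loc) : FGood P h92 :=
  frun_good hP hl T_92 (fc (G_1740 hP hl) (fc (G_1741 hP hl) (fc (G_1742 hP hl) (fc (G_102 hP hl) f0))))
theorem G_101 (hP : P.ok) (hl : ¬ InB P loc) : FGood P h101 :=
  frun_good hP hl T_101 (fc (G_1730 hP hl) (fc (G_1731 hP hl) (fc (G_1733 hP hl) (fc (G_1734 hP hl) (fc (G_1739 hP hl) f0)))))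
theorem G_100 (hP : P.ok) (hl : ¬ InB P loc) : FGood P h100 :=
  frun_good hP hl T_100 (fc (G_101 hP hl) (fc (G_1721 hP hl) (fc (G_1729 hP hl) f0)))
theorem G_99 (hP : P.ok) (hl : ¬ InB P loc) : FGood P h99 :=
  frun_good hP hl T_99 (fc (G_1714 hP hl) (fc (G_100 hP hl) (fc (G_1718 hP hl) (fc (G_1719 hP hl) f0))))
theorem G_94 (hP : P.ok) (hl : ¬ InB P loc) : FGood P h94 :=
  frun_good hP hl T_94 (fc (G_1713 hP hl) (fc (G_99 hP hl) f0))
theorem G_98 (hP : P.ok) (hl : ¬ InB P loc) : FGood P h98 :=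
  frun_good hP hl T_98 (fc (G_1697 hP hl) (fc (G_1698 hP hl) (fc (G_1701 hP hl) (fc (G_1704 hP hl) (fc (G_1705 hP hl) (fc (G_1706 hP hl) (fc (G_1708 hP hl) (fc (G_1711 hP hl) f0))))))))
theorem G_95 (hP : P.ok) (hl : ¬ InB P loc) : FGood P h95 :=
  frun_good hP hl T_95 (fc (G_98 hP hl) (fc (G_1687 hP hl) (fc (G_1688 hP hl) (fc (G_1696 hP hl) f0))))
theorem G_97 (hP : P.ok) (hl : ¬ InB P loc) : FGood P h97 :=
  frun_good hP hl T_97 (fc (G_1673 hP hl) (fc (G_1681 hP hl) (fc (G_1682 hP hl) f0)))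
theorem G_96 (hP : P.ok) (hl : ¬ InB P loc) : FGood P h96 :=
  frun_good hP hl T_96 (fc (G_1669 hP hl) (fc (G_1672 hP hl) (fc (G_97 hP hl) f0)))
theorem G_93 (hP : P.ok) (hl : ¬ InB P loc) : FGood P h93 :=
  frun_good hP hl T_93 (fc (G_94 hP hl) (fc (G_95 hP hl) (fc (G_96 hP hl) f0)))
theorem G_91 (hP : P.ok) (hl : ¬ InB P loc) : FGood P h91 :=
  frun_good hP hl T_91 (fc (G_1658 hP hl) (fc (G_1659 hP hl) (fc (G_1660 hP hl) (fc (G_92 hP hl) (fc (G_1661 hP hl) (fc (G_93 hP hl) f0))))))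
theorem G_62 (hP : P.ok) (hl : ¬ InB P loc) : FGood P h62 :=
  frun_good hP hl T_62 (fc (G_87 hP hl) (fc (G_88 hP hl) (fc (G_89 hP hl) (fc (G_90 hP hl) (fc (G_91 hP hl) f0)))))
theorem G_86 (hP : P.ok) (hl : ¬ InB P loc) : FGood P h86 :=
  frun_good hP hl T_86 (fc (G_1646 hP hl) (fc (G_1650 hP hl) f0))
theorem G_85 (hP : P.ok) (hl : ¬ InB P loc) : FGood P h85 :=
  frun_good hP hl T_85 (fc (G_1625 hP hl) (fc (G_86 hP hl) (fc (G_1627 hP hl) (fc (G_1628 hP hl) (fc (G_1630 hP hl) (fc (G_1632 hP hl) (fc (G_1639 hP hl) (fc (G_1642 hP hl) (fc (G_1643 hP hl) (fc (G_1644 hP hl) (fc (G_1645 hP hl) f0)))))))))))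
theorem G_64 (hP : P.ok) (hl : ¬ InB P loc) : FGood P h64 :=
  frun_good hP hl T_64 (fc (G_85 hP hl) (fc (G_1624 hP hl) f0))
theorem G_84 (hP : P.ok) (hl : ¬ InB P loc) : FGood P h84 :=
  frun_good hP hl T_84 (fc (G_1613 hP hl) (fc (G_1619 hP hl) (fc (G_1621 hP hl) (fc (G_1622 hP hl) (fc (G_1623 hP hl) f0)))))
theorem G_78 (hP : P.ok) (hl : ¬ InB P loc) : FGood P h78 :=
  frun_good hP hl T_78 (fc (G_1603 hP hl) (fc (G_1604 hP hl) (fc (G_84 hP hl) (fc (G_1607 hP hl) (fc (G_1608 hP hl) (fc (G_1612 hP hl) f0))))))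
theorem G_83 (hP : P.ok) (hl : ¬ InB P loc) : FGood P h83 :=
  frun_good hP hl T_83 (fc (G_1595 hP hl) f0)
theorem G_80 (hP : P.ok) (hl : ¬ InB P loc) : FGood P h80 :=
  frun_good hP hl T_80 (fc (G_1579 hP hl) (fc (G_1587 hP hl) (fc (G_1588 hP hl) (fc (G_83 hP hl) (fc (G_1589 hP hl) f0)))))
theorem G_82 (hP : P.ok) (hl : ¬ InB P loc) : FGood P h82 :=
  frun_good hP hl T_82 (fc (G_1567 hP hl) (fc (G_1574 hP hl) (fc (G_1577 hP hl) (fc (G_1578 hP hl) f0))))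
theorem G_81 (hP : P.ok) (hl : ¬ InB P loc) : FGood P h81 :=
  frun_good hP hl T_81 (fc (G_1549 hP hl) (fc (G_1551 hP hl) (fc (G_1558 hP hl) (fc (G_1561 hP hl) (fc (G_1562 hP hl) (fc (G_82 hP hl) (fc (G_1565 hP hl) (fc (G_1566 hP hl) f0))))))))
theorem G_79 (hP : P.ok) (hl : ¬ InB P loc) : FGood P h79 :=
  frun_good hP hl T_79 (fc (G_80 hP hl) (fc (G_81 hP hl) (fc (G_1532 hP hl) (fc (G_1538 hP hl) (fc (G_1540 hP hl) (fc (G_1545 hP hl) f0))))))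
theorem G_65 (hP : P.ok) (hl : ¬ InB P loc) : FGood P h65 :=
  frun_good hP hl T_65 (fc (G_1526 hP hl) (fc (G_1527 hP hl) (fc (G_78 hP hl) (fc (G_79 hP hl) f0))))
theorem G_69 (hP : P.ok) (hl : ¬ InB P loc) : FGood P h69 :=
  frun_good hP hl T_69 (fc (G_1510 hP hl) (fc (G_1511 hP hl) (fc (G_1512 hP hl) (fc (G_1517 hP hl) (fc (G_1525 hP hl) f0)))))
theorem G_77 (hP : P.ok) (hl : ¬ InB P loc) : FGood P h77 :=
  frun_good hP hl T_77 (fc (G_1499 hP hl) (fc (G_1502 hP hl) (fc (G_1503 hP hl) (fc (G_1504 hP hl) (fc (G_1505 hP hl) f0)))))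
theorem G_73 (hP : P.ok) (hl : ¬ InB P loc) : FGood P h73 :=
  frun_good hP hl T_73 (fc (G_1494 hP hl) (fc (G_77 hP hl) f0))
theorem G_76 (hP : P.ok) (hl : ¬ InB P loc) : FGood P h76 :=
  frun_good hP hl T_76 (fc (G_1484 hP hl) (fc (G_1488 hP hl) (fc (G_1489 hP hl) f0)))
theorem G_75 (hP : P.ok) (hl : ¬ InB P loc) : FGood P h75 :=
  frun_good hP hl T_75 (fc (G_76 hP hl) (fc (G_1483 hP hl) f0))
theorem G_74 (hP : P.ok) (hl : ¬ InB P loc) : FGood P h74 :=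
  frun_good hP hl T_74 (fc (G_75 hP hl) (fc (G_1482 hP hl) f0))
theorem G_72 (hP : P.ok) (hl : ¬ InB P loc) : FGood P h72 :=
  frun_good hP hl T_72 (fc (G_73 hP hl) (fc (G_1475 hP hl) (fc (G_1476 hP hl) (fc (G_74 hP hl) f0))))
theorem G_71 (hP : P.ok) (hl : ¬ InB P loc) : FGood P h71 :=
  frun_good hP hl T_71 (fc (G_72 hP hl) (fc (G_1463 hP hl) (fc (G_1466 hP hl) (fc (G_1467 hP hl) (fc (G_1470 hP hl) f0)))))
theorem G_70 (hP : P.ok) (hl : ¬ InB P loc) : FGood P h70 :=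
  frun_good hP hl T_70 (fc (G_1440 hP hl) (fc (G_1446 hP hl) (fc (G_1448 hP hl) (fc (G_1453 hP hl) (fc (G_71 hP hl) (fc (G_1462 hP hl) f0))))))
theorem G_66 (hP : P.ok) (hl : ¬ InB P loc) : FGood P h66 :=
  frun_good hP hl T_66 (fc (G_69 hP hl) (fc (G_1434 hP hl) (fc (G_70 hP hl) (fc (G_1435 hP hl) (fc (G_1436 hP hl) f0)))))
theorem G_68 (hP : P.ok) (hl : ¬ InB P loc) : FGood P h68 :=
  frun_good hP hl T_68 (fc (G_1419 hP hl) (fc (G_1422 hP hl) (fc (G_1424 hP hl) (fc (G_1425 hP hl) (fc (G_1426 hP hl) f0)))))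
theorem G_67 (hP : P.ok) (hl : ¬ InB P loc) : FGood P h67 :=
  frun_good hP hl T_67 (fc (G_1414 hP hl) (fc (G_68 hP hl) (fc (G_1415 hP hl) (fc (G_1417 hP hl) f0))))
theorem G_63 (hP : P.ok) (hl : ¬ InB P loc) : FGood P h63 :=
  frun_good hP hl T_63 (fc (G_1403 hP hl) (fc (G_64 hP hl) (fc (G_65 hP hl) (fc (G_1405 hP hl) (fc (G_1410 hP hl) (fc (G_66 hP hl) (fc (G_67 hP hl) f0)))))))
theorem G_61 (hP : P.ok) (hl : ¬ InB P loc) : FGood P h61 :=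
  frun_good hP hl T_61 (fc (G_1385 hP hl) (fc (G_1387 hP hl) (fc (G_1388 hP hl) (fc (G_1389 hP hl) (fc (G_62 hP hl) (fc (G_1391 hP hl) (fc (G_63 hP hl) f0)))))))
theorem G_47 (hP : P.ok) (hl : ¬ InB P loc) : FGood P h47 :=
  frun_good hP hl T_47 (fc (G_59 hP hl) (fc (G_60 hP hl) (fc (G_1378 hP hl) (fc (G_1379 hP hl) (fc (G_1380 hP hl) (fc (G_61 hP hl) f0))))))
theorem G_53 (hP : P.ok) (hl : ¬ InB P loc) : FGood P h53 :=
  frun_good hP hl T_53 (fc (G_1360 hP hl) (fc (G_1369 hP hl) f0))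
theorem G_58 (hP : P.ok) (hl : ¬ InB P loc) : FGood P h58 :=
  frun_good hP hl T_58 (fc (G_1349 hP hl) (fc (G_1350 hP hl) (fc (G_1359 hP hl) f0)))
theorem G_57 (hP : P.ok) (hl : ¬ InB P loc) : FGood P h57 :=
  frun_good hP hl T_57 (fc (G_58 hP hl) (fc (G_1348 hP hl) f0))
theorem G_56 (hP : P.ok) (hl : ¬ InB P loc) : FGood P h56 :=
  frun_good hP hl T_56 (fc (G_57 hP hl) f0)
theorem G_55 (hP : P.ok) (hl : ¬ InB P loc) : FGood P h55 :=
  frun_good hP hl T_55 (fc (G_56 hP hl) (fc (G_1347 hP hl) f0))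
theorem G_54 (hP : P.ok) (hl : ¬ InB P loc) : FGood P h54 :=
  frun_good hP hl T_54 (fc (G_1344 hP hl) (fc (G_55 hP hl) f0))
theorem G_52 (hP : P.ok) (hl : ¬ InB P loc) : FGood P h52 :=
  frun_good hP hl T_52 (fc (G_53 hP hl) (fc (G_1329 hP hl) (fc (G_54 hP hl) (fc (G_1337 hP hl) f0))))
theorem G_51 (hP : P.ok) (hl : ¬ InB P loc) : FGood P h51 :=
  frun_good hP hl T_51 (fc (G_1312 hP hl) (fc (G_1319 hP hl) (fc (G_1320 hP hl) (fc (G_1323 hP hl) (fc (G_52 hP hl) (fc (G_1324 hP hl) f0))))))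
theorem G_48 (hP : P.ok) (hl : ¬ InB P loc) : FGood P h48 :=
  frun_good hP hl T_48 (fc (G_1305 hP hl) (fc (G_1311 hP hl) (fc (G_51 hP hl) f0)))
theorem G_50 (hP : P.ok) (hl : ¬ InB P loc) : FGood P h50 :=
  frun_good hP hl T_50 (fc (G_1280 hP hl) (fc (G_1295 hP hl) (fc (G_1298 hP hl) f0)))
theorem G_49 (hP : P.ok) (hl : ¬ InB P loc) : FGood P h49 :=
  frun_good hP hl T_49 (fc (G_1270 hP hl) (fc (G_1274 hP hl) (fc (G_1275 hP hl) (fc (G_1276 hP hl) (fc (G_50 hP hl) f0)))))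
theorem G_21 (hP : P.ok) (hl : ¬ InB P loc) : FGood P h21 :=
  frun_good hP hl T_21 (fc (G_47 hP hl) (fc (G_48 hP hl) (fc (G_1224 hP hl) (fc (G_1240 hP hl) (fc (G_1241 hP hl) (fc (G_1242 hP hl) (fc (G_1243 hP hl) (fc (G_1244 hP hl) (fc (G_1245 hP hl) (fc (G_1246 hP hl) (fc (G_1247 hP hl) (fc (G_1248 hP hl) (fc (G_1249 hP hl) (fc (G_49 hP hl) f0))))))))))))))
theorem G_46 (hP : P.ok) (hl : ¬ InB P loc) : FGood P h46 :=
  frun_good hP hl T_46 (fc (G_1212 hP hl) (fc (G_1214 hP hl) (fc (G_1215 hP hl) (fc (G_1217 hP hl) f0))))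
theorem G_42 (hP : P.ok) (hl : ¬ InB P loc) : FGood P h42 :=
  frun_good hP hl T_42 (fc (G_46 hP hl) (fc (G_1203 hP hl) (fc (G_1204 hP hl) (fc (G_1205 hP hl) f0))))
theorem G_45 (hP : P.ok) (hl : ¬ InB P loc) : FGood P h45 :=
  frun_good hP hl T_45 (fc (G_1194 hP hl) (fc (G_1196 hP hl) (fc (G_1197 hP hl) (fc (G_1200 hP hl) (fc (G_1202 hP hl) f0)))))
theorem G_44 (hP : P.ok) (hl : ¬ InB P loc) : FGood P h44 :=
  frun_good hP hl T_44 (fc (G_45 hP hl) (fc (G_1188 hP hl) (fc (G_1189 hP hl) (fc (G_1191 hP hl) f0))))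
theorem G_43 (hP : P.ok) (hl : ¬ InB P loc) : FGood P h43 :=
  frun_good hP hl T_43 (fc (G_1172 hP hl) (fc (G_1176 hP hl) (fc (G_1177 hP hl) (fc (G_1179 hP hl) (fc (G_44 hP hl) (fc (G_1187 hP hl) f0))))))
theorem G_41 (hP : P.ok) (hl : ¬ InB P loc) : FGood P h41 :=
  frun_good hP hl T_41 (fc (G_1166 hP hl) (fc (G_1167 hP hl) (fc (G_1168 hP hl) (fc (G_1171 hP hl) (fc (G_42 hP hl) (fc (G_43 hP hl) f0))))))
theorem G_38 (hP : P.ok) (hl : ¬ InB P loc) : FGood P h38 :=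
  frun_good hP hl T_38 (fc (G_41 hP hl) (fc (G_1158 hP hl) (fc (G_1161 hP hl) (fc (G_1164 hP hl) (fc (G_1165 hP hl) f0)))))
theorem G_40 (hP : P.ok) (hl : ¬ InB P loc) : FGood P h40 :=
  frun_good hP hl T_40 (fc (G_1147 hP hl) (fc (G_1153 hP hl) (fc (G_1154 hP hl) (fc (G_1156 hP hl) f0))))
theorem G_39 (hP : P.ok) (hl : ¬ InB P loc) : FGood P h39 :=
  frun_good hP hl T_39 (fc (G_1137 hP hl) (fc (G_1138 hP hl) (fc (G_40 hP hl) (fc (G_1139 hP hl) (fc (G_1145 hP hl) f0)))))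
theorem G_24 (hP : P.ok) (hl : ¬ InB P loc) : FGood P h24 :=
  frun_good hP hl T_24 (fc (G_38 hP hl) (fc (G_1129 hP hl) (fc (G_1130 hP hl) (fc (G_1135 hP hl) (fc (G_1136 hP hl) (fc (G_39 hP hl) f0))))))
theorem G_35 (hP : P.ok) (hl : ¬ InB P loc) : FGood P h35 :=
  frun_good hP hl T_35 (fc (G_1115 hP hl) (fc (G_1116 hP hl) (fc (G_1120 hP hl) (fc (G_1122 hP hl) (fc (G_1124 hP hl) (fc (G_1125 hP hl) (fc (G_1128 hP hl) f0)))))))
theorem G_36 (hP : P.ok) (hl : ¬ InB P loc) : FGood P h36 :=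
  frun_good hP hl T_36 (fc (G_1101 hP hl) (fc (G_1105 hP hl) (fc (G_1108 hP hl) f0)))
theorem G_37 (hP : P.ok) (hl : ¬ InB P loc) : FGood P h37 :=
  frun_good hP hl T_37 (fc (G_1091 hP hl) (fc (G_1092 hP hl) (fc (G_1099 hP hl) f0)))
theorem G_27 (hP : P.ok) (hl : ¬ InB P loc) : FGood P h27 :=
  frun_good hP hl T_27 (fc (G_35 hP hl) (fc (G_1079 hP hl) (fc (G_1085 hP hl) (fc (G_36 hP hl) (fc (G_37 hP hl) f0)))))
theorem G_28 (hP : P.ok) (hl : ¬ InB P loc) : FGood P h28 :=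
  frun_good hP hl T_28 (fc (G_1066 hP hl) (fc (G_1068 hP hl) (fc (G_1076 hP hl) f0)))
theorem G_29 (hP : P.ok) (hl : ¬ InB P loc) : FGood P h29 :=
  frun_good hP hl T_29 (fc (G_1051 hP hl) (fc (G_1058 hP hl) (fc (G_1063 hP hl) f0)))
theorem G_34 (hP : P.ok) (hl : ¬ InB P loc) : FGood P h34 :=
  frun_good hP hl T_34 (fc (G_1041 hP hl) (fc (G_1043 hP hl) (fc (G_1044 hP hl) (fc (G_1045 hP hl) (fc (G_1049 hP hl) (fc (G_1050 hP hl) f0))))))
theorem G_33 (hP : P.ok) (hl : ¬ InB P loc) : FGood P h33 :=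
  frun_good hP hl T_33 (fc (G_34 hP hl) (fc (G_1039 hP hl) f0))
theorem G_32 (hP : P.ok) (hl : ¬ InB P loc) : FGood P h32 :=
  frun_good hP hl T_32 (fc (G_33 hP hl) (fc (G_1038 hP hl) f0))
theorem G_31 (hP : P.ok) (hl : ¬ InB P loc) : FGood P h31 :=
  frun_good hP hl T_31 (fc (G_1035 hP hl) (fc (G_32 hP hl) f0))
theorem G_30 (hP : P.ok) (hl : ¬ InB P loc) : FGood P h30 :=
  frun_good hP hl T_30 (fc (G_1020 hP hl) (fc (G_31 hP hl) (fc (G_1027 hP hl) (fc (G_1032 hP hl) (fc (G_1034 hP hl) f0)))))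
theorem G_26 (hP : P.ok) (hl : ¬ InB P loc) : FGood P h26 :=
  frun_good hP hl T_26 (fc (G_1008 hP hl) (fc (G_1009 hP hl) (fc (G_1010 hP hl) (fc (G_1011 hP hl) (fc (G_27 hP hl) (fc (G_28 hP hl) (fc (G_1012 hP hl) (fc (G_1017 hP hl) (fc (G_29 hP hl) (fc (G_30 hP hl) f0))))))))))
theorem G_25 (hP : P.ok) (hl : ¬ InB P loc) : FGood P h25 :=
  frun_good hP hl T_25 (fc (G_26 hP hl) (fc (G_996 hP hl) (fc (G_997 hP hl) (fc (G_998 hP hl) (fc (G_999 hP hl) (fc (G_1000 hP hl) (fc (G_1001 hP hl) (fc (G_1002 hP hl) (fc (G_1003 hP hl) (fc (G_1004 hP hl) f0))))))))))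
theorem G_22 (hP : P.ok) (hl : ¬ InB P loc) : FGood P h22 :=
  frun_good hP hl T_22 (fc (G_24 hP hl) (fc (G_993 hP hl) (fc (G_994 hP hl) (fc (G_25 hP hl) f0))))
theorem G_23 (hP : P.ok) (hl : ¬ InB P loc) : FGood P h23 :=
  frun_good hP hl T_23 (fc (G_968 hP hl) (fc (G_975 hP hl) (fc (G_990 hP hl) (fc (G_991 hP hl) (fc (G_992 hP hl) f0)))))
theorem G_6 (hP : P.ok) (hl : ¬ InB P loc) : FGood P h6 :=
  frun_good hP hl T_6 (fc (G_21 hP hl) (fc (G_22 hP hl) (fc (G_934 hP hl) (fc (G_942 hP hl) (fc (G_958 hP hl) (fc (G_959 hP hl) (fc (G_960 hP hl) (fc (G_961 hP hl) (fc (G_962 hP hl) (fc (G_963 hP hl) (fc (G_964 hP hl) (fc (G_965 hP hl) (fc (G_966 hP hl) (fc (G_967 hP hl) (fc (G_23 hP hl) f0)))))))))))))))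
theorem G_7 (hP : P.ok) (hl : ¬ InB P loc) : FGood P h7 :=
  frun_good hP hl T_7 (fc (G_868 hP hl) (fc (G_877 hP hl) (fc (G_888 hP hl) (fc (G_889 hP hl) (fc (G_890 hP hl) (fc (G_891 hP hl) (fc (G_892 hP hl) (fc (G_893 hP hl) (fc (G_894 hP hl) (fc (G_895 hP hl) (fc (G_896 hP hl) (fc (G_897 hP hl) (fc (G_905 hP hl) (fc (G_913 hP hl) f0))))))))))))))
theorem G_8 (hP : P.ok) (hl : ¬ InB P loc) : FGood P h8 :=
  frun_good hP hl T_8 (fc (G_841 hP hl) (fc (G_850 hP hl) (fc (G_851 hP hl) (fc (G_852 hP hl) (fc (G_853 hP hl) (fc (G_854 hP hl) (fc (G_855 hP hl) (fc (G_856 hP hl) (fc (G_857 hP hl) (fc (G_858 hP hl) (fc (G_859 hP hl) (fc (G_860 hP hl) (fc (G_861 hP hl) (fc (G_862 hP hl) (fc (G_863 hP hl) (fc (G_864 hP hl) (fc (G_865 hP hl) (fc (G_866 hP hl) (fc (G_867 hP hl) f0)))))))))))))))))))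
theorem G_20 (hP : P.ok) (hl : ¬ InB P loc) : FGood P h20 :=
  frun_good hP hl T_20 (fc (G_828 hP hl) (fc (G_835 hP hl) (fc (G_839 hP hl) f0)))
theorem G_16 (hP : P.ok) (hl : ¬ InB P loc) : FGood P h16 :=
  frun_good hP hl T_16 (fc (G_20 hP hl) (fc (G_810 hP hl) (fc (G_811 hP hl) (fc (G_813 hP hl) (fc (G_814 hP hl) (fc (G_815 hP hl) (fc (G_816 hP hl) (fc (G_819 hP hl) (fc (G_824 hP hl) (fc (G_827 hP hl) f0))))))))))
theorem G_18 (hP : P.ok) (hl : ¬ InB P loc) : FGood P h18 :=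
  frun_good hP hl T_18 (fc (G_800 hP hl) (fc (G_801 hP hl) (fc (G_802 hP hl) f0)))
theorem G_19 (hP : P.ok) (hl : ¬ InB P loc) : FGood P h19 :=
  frun_good hP hl T_19 (fc (G_782 hP hl) (fc (G_784 hP hl) (fc (G_785 hP hl) (fc (G_786 hP hl) (fc (G_787 hP hl) (fc (G_791 hP hl) (fc (G_799 hP hl) f0)))))))
theorem G_17 (hP : P.ok) (hl : ¬ InB P loc) : FGood P h17 :=
  frun_good hP hl T_17 (fc (G_18 hP hl) (fc (G_767 hP hl) (fc (G_19 hP hl) (fc (G_773 hP hl) (fc (G_781 hP hl) f0)))))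
theorem G_13 (hP : P.ok) (hl : ¬ InB P loc) : FGood P h13 :=
  frun_good hP hl T_13 (fc (G_16 hP hl) (fc (G_17 hP hl) (fc (G_734 hP hl) (fc (G_735 hP hl) (fc (G_738 hP hl) (fc (G_739 hP hl) (fc (G_740 hP hl) (fc (G_748 hP hl) (fc (G_750 hP hl) (fc (G_756 hP hl) (fc (G_757 hP hl) (fc (G_758 hP hl) (fc (G_759 hP hl) (fc (G_760 hP hl) (fc (G_761 hP hl) (fc (G_762 hP hl) f0))))))))))))))))
theorem G_15 (hP : P.ok) (hl : ¬ InB P loc) : FGood P h15 :=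
  frun_good hP hl T_15 (fc (G_717 hP hl) (fc (G_722 hP hl) (fc (G_724 hP hl) (fc (G_726 hP hl) (fc (G_730 hP hl) f0)))))
theorem G_14 (hP : P.ok) (hl : ¬ InB P loc) : FGood P h14 :=
  frun_good hP hl T_14 (fc (G_706 hP hl) (fc (G_712 hP hl) (fc (G_15 hP hl) f0)))
theorem G_12 (hP : P.ok) (hl : ¬ InB P loc) : FGood P h12 :=
  frun_good hP hl T_12 (fc (G_13 hP hl) (fc (G_14 hP hl) (fc (G_683 hP hl) (fc (G_684 hP hl) (fc (G_685 hP hl) (fc (G_686 hP hl) (fc (G_687 hP hl) (fc (G_697 hP hl) f0))))))))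
theorem G_9 (hP : P.ok) (hl : ¬ InB P loc) : FGood P h9 :=
  frun_good hP hl T_9 (fc (G_12 hP hl) (fc (G_661 hP hl) (fc (G_662 hP hl) (fc (G_667 hP hl) f0))))
theorem G_11 (hP : P.ok) (hl : ¬ InB P loc) : FGood P h11 :=
  frun_good hP hl T_11 (fc (G_500 hP hl) (fc (G_501 hP hl) (fc (G_502 hP hl) (fc (G_503 hP hl) (fc (G_504 hP hl) (fc (G_505 hP hl) (fc (G_506 hP hl) (fc (G_507 hP hl) (fc (G_524 hP hl) (fc (G_554 hP hl) (fc (G_573 hP hl) (fc (G_622 hP hl) f0))))))))))))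
theorem G_10 (hP : P.ok) (hl : ¬ InB P loc) : FGood P h10 :=
  frun_good hP hl T_10 (fc (G_11 hP hl) (fc (G_442 hP hl) (fc (G_477 hP hl) (fc (G_497 hP hl) f0))))
theorem G_5 (hP : P.ok) (hl : ¬ InB P loc) : FGood P h5 :=
  frun_good hP hl T_5 (fc (G_6 hP hl) (fc (G_7 hP hl) (fc (G_422 hP hl) (fc (G_424 hP hl) (fc (G_8 hP hl) (fc (G_9 hP hl) (fc (G_10 hP hl) f0)))))))
theorem G_2 (hP : P.ok) (hl : ¬ InB P loc) : FGood P h2 :=
  frun_good hP hl T_2 (fc (G_3 hP hl) (fc (G_4 hP hl) (fc (G_5 hP hl) (fc (G_406 hP hl) (fc (G_407 hP hl) (fc (G_413 hP hl) f0))))))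
theorem G_1 (hP : P.ok) (hl : ¬ InB P loc) : FGood P h1 :=
  frun_good hP hl T_1 (fc (G_2 hP hl) f0)
theorem G_0 (hP : P.ok) (hn : NotLoc (iops lo hi) (fun a : Int => (a : ℝ)) P) : False :=
  have hl := notInB loc_ok hn
  froot_false hP hl T_0 (fc (G_1 hP hl) f0)

end

end Pool.Agent.Lib.MP_9d820d_co.Fast.A
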